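import Pool.Agent.Lib.MP_7f581e_ntL.WH3

set_option autoImplicit false
universe u
namespace MP7fL
open Polynomial

/-- The weak Hilbert property. -/
def WH (K : Type u) [Field K] : Prop :=
  ∀ s : Finset K[X][X],
    (∀ h ∈ s, h.Monic ∧ (h.map (algebraMap K[X] (RatFunc K))).Separable ∧
      ∀ y : K[X], h.eval y ≠ 0) →
    ∀ g : K[X], g ≠ 0 → ∃ a : K, g.eval a ≠ 0 ∧
      ∀ h ∈ s, ∀ ρ : K, (h.map (evalRingHom a)).eval ρ ≠ 0

/-- A monic polynomial over `K(U)[T]` becomes integral over `K[U][T]` after scaling its roots. -/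
theorem exists_scale {A F : Type*} [CommRing A] [IsDomain A] [Field F] [Algebra A F]
    [IsFractionRing A F] (h : F[X][X]) (hm : h.Monic) :
    ∃ (δ : A) (H : A[X][X]), δ ≠ 0 ∧ H.Monic ∧
      H.map (mapRingHom (algebraMap A F)) = scaleRoots h (C (algebraMap A F δ)) := by
  classical
  obtain ⟨s, hs⟩ := IsLocalization.exist_integer_multiples_of_finset (nonZeroDivisors A)
    (h.support.biUnion fun i => (h.coeff i).support.image (h.coeff i).coeff)
  have hcoef : ∀ i j, ∃ c : A, algebraMap A F c = algebraMap A F s * (h.coeff i).coeff j := by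
    intro i j
    by_cases h0 : (h.coeff i).coeff j = 0
    · exact ⟨0, by rw [h0]; simp⟩
    · have h1 : h.coeff i ≠ 0 := by
        intro h2
        rw [h2] at h0
        simp at h0
      obtain ⟨c, hc⟩ := hs ((h.coeff i).coeff j) (Finset.mem_biUnion.mpr
        ⟨i, mem_support_iff.mpr h1, Finset.mem_image.mpr ⟨j, mem_support_iff.mpr h0, rfl⟩⟩)
      exact ⟨c, by rw [hc, Algebra.smul_def]⟩
  have hinj : Function.Injective (algebraMap A F) := IsFractionRing.injective A F
  have hs0 : algebraMap A F s ≠ 0 := by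
    intro h0
    apply nonZeroDivisors.coe_ne_zero s
    exact hinj (by rw [h0, map_zero])
  set p := scaleRoots h (C (algebraMap A F s)) with hp
  have hpm : p.Monic := (monic_scaleRoots_iff _).mpr hm
  have hlift : p ∈ lifts (mapRingHom (algebraMap A F)) := by
    rw [lifts_iff_coeff_lifts]
    intro i
    rw [hp, coeff_scaleRoots, coe_mapRingHom]
    have key : ∀ q : F[X], (∀ j, ∃ c : A, algebraMap A F c = q.coeff j) →
        q ∈ Set.range (Polynomial.map (algebraMap A F)) := by
      intro q hq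
      have : q ∈ lifts (algebraMap A F) := by
        rw [lifts_iff_coeff_lifts]
        exact hq
      rwa [lifts_iff_set_range] at this
    apply key
    intro j
    rw [← C_pow, coeff_mul_C]
    rcases lt_trichotomy i h.natDegree with hlt | heq | hgt
    · obtain ⟨m, hm'⟩ : ∃ m, h.natDegree - i = m + 1 := ⟨h.natDegree - i - 1, by omega⟩
      obtain ⟨c, hc⟩ := hcoef i j
      refine ⟨c * (s : A) ^ m, ?_⟩
      rw [map_mul, hc, map_pow, hm', pow_succ]
      ring
    · rw [heq, hm.coeff_natDegree, Nat.sub_self, pow_zero, mul_one, coeff_one]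
      by_cases hj : j = 0
      · exact ⟨1, by simp [hj]⟩
      · exact ⟨0, by simp [hj]⟩
    · rw [coeff_eq_zero_of_natDegree_lt hgt]
      exact ⟨0, by simp⟩
  obtain ⟨H, hH1, -, hH2⟩ := lifts_and_natDegree_eq_and_monic hlift hpm
  exact ⟨s, H, nonZeroDivisors.coe_ne_zero s, hH2, hH1⟩

theorem separable_scaleRoots {F : Type*} [Field F] (p : F[X]) (s : F) (hs : s ≠ 0)
    (hp : p.Separable) : (scaleRoots p s).Separable := by
  have h1 : scaleRoots p s = C (s ^ p.natDegree) * p.comp (C s⁻¹ * X) := by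
    ext i
    rw [coeff_scaleRoots, coeff_C_mul, comp_C_mul_X_coeff]
    rcases le_or_gt i p.natDegree with hi | hi
    · have h2 : s ^ p.natDegree = s ^ (p.natDegree - i) * s ^ i := by
        rw [← pow_add, Nat.sub_add_cancel hi]
      have h3 : s ^ i * s⁻¹ ^ i = 1 := by
        rw [← mul_pow, mul_inv_cancel₀ hs, one_pow]
      rw [h2]
      linear_combination (-(s ^ (p.natDegree - i) * p.coeff i)) * h3
    · rw [coeff_eq_zero_of_natDegree_lt hi]
      ring
  rw [h1]
  apply Separable.unit_mul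
  · exact isUnit_C.mpr (isUnit_iff_ne_zero.mpr (pow_ne_zero _ hs))
  obtain ⟨a, b, hab⟩ := hp
  refine ⟨a.comp (C s⁻¹ * X), C s * b.comp (C s⁻¹ * X), ?_⟩
  have h2 := congrArg (fun q : F[X] => q.comp (C s⁻¹ * X)) hab
  simp only [add_comp, mul_comp, one_comp] at h2
  rw [derivative_comp, derivative_mul, derivative_C, derivative_X]
  have h3 : (C s * C s⁻¹ : F[X]) = 1 := by rw [← C_mul, mul_inv_cancel₀ hs, C_1]
  linear_combination h2 + (b.comp (C s⁻¹ * X) * (derivative p).comp (C s⁻¹ * X)) * h3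

theorem key_h {K : Type u} [Field K] [Infinite K] (h : (RatFunc K)[X][X]) (hm : h.Monic)
    (hs : (h.map (algebraMap (RatFunc K)[X] (RatFunc (RatFunc K)))).Separable)
    (hroot : ∀ y : (RatFunc K)[X], h.eval y ≠ 0) :
    ∃ (t : Finset K[X][X]) (g : K[X]), g ≠ 0 ∧
      (∀ f ∈ t, f.Monic ∧ (f.map (algebraMap K[X] (RatFunc K))).Separable ∧
        ∀ y : K[X], f.eval y ≠ 0) ∧
      ∀ a : K, g.eval a ≠ 0 →
        (∀ f ∈ t, ∀ ρ : K, (f.map (evalRingHom a)).eval ρ ≠ 0) →
        ∀ ρ : RatFunc K, (h.map (evalRingHom (algebraMap K (RatFunc K) a))).eval ρ ≠ 0 := by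
  obtain ⟨δ, H, hδ, hH, hHh⟩ := exists_scale (A := K[X]) h hm
  set κ : K[X] →+* RatFunc K := algebraMap K[X] (RatFunc K) with hκ
  have hκi : Function.Injective κ := IsFractionRing.injective K[X] (RatFunc K)
  have hδ' : κ δ ≠ 0 := fun h0 => hδ (hκi (by rw [h0, map_zero]))
  set μ : (RatFunc K)[X] →+* RatFunc (RatFunc K) :=
    algebraMap (RatFunc K)[X] (RatFunc (RatFunc K)) with hμ
  have hμi : Function.Injective μ := IsFractionRing.injective _ _
  have hφi : Function.Injective (μ.comp (mapRingHom κ)) :=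
    hμi.comp (map_injective _ hκi)
  -- separability
  have hsepH : (H.map (μ.comp (mapRingHom κ))).Separable := by
    rw [← map_map, hHh]
    have h1 : (scaleRoots h (C (κ δ))).map μ = scaleRoots (h.map μ) (μ (C (κ δ))) := by
      rw [map_scaleRoots]
      rw [hm.leadingCoeff, map_one]
      exact one_ne_zero
    rw [h1]
    have h2 : μ (C (κ δ)) ≠ 0 := by
      intro h3
      have h4 : (C (κ δ) : (RatFunc K)[X]) = 0 := hμi (by rw [h3, map_zero])
      exact hδ' (C_eq_zero.mp h4)
    exact separable_scaleRoots _ _ h2 hs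
  have hrootH : ∀ y : K[X][X], H.eval y ≠ 0 := by
    intro y hy
    apply hroot (C (κ δ)⁻¹ * y.map κ)
    have h1 : (scaleRoots h (C (κ δ))).eval (y.map κ) = 0 := by
      rw [← hHh, ← coe_mapRingHom, ← eval_hom, hy, map_zero]
    have h2 := scaleRoots_eval₂_mul (p := h) (RingHom.id (RatFunc K)[X]) (C (κ δ)⁻¹ * y.map κ)
      (C (κ δ))
    simp only [RingHom.id_apply, eval₂_id] at h2
    rw [← mul_assoc, ← C_mul, mul_inv_cancel₀ hδ', C_1, one_mul, h1] at h2
    rcases mul_eq_zero.mp h2.symm with h3 | h3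
    · exfalso
      exact hδ' (C_eq_zero.mp (eq_zero_of_pow_eq_zero h3))
    · exact h3
  obtain ⟨t, g, hg, ht, hfin⟩ := key_H H hH _ hφi hsepH hrootH
  refine ⟨t, g, hg, ht, ?_⟩
  intro a ha hno ρ hρ
  -- transfer the root
  have h1 : ((H.map (evalRingHom (C a))).map κ).eval (κ δ * ρ) = 0 := by
    have h2 : (H.map (evalRingHom (C a))).map κ =
        scaleRoots (h.map (evalRingHom (algebraMap K (RatFunc K) a))) (κ δ) := by
      have h3 : κ.comp (evalRingHom (C a)) =
          (evalRingHom (algebraMap K (RatFunc K) a)).comp (mapRingHom κ) := by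
        ext x
        · simp
        · simp
        · simp [hκ]
      rw [map_map, h3, ← map_map, hHh, map_scaleRoots]
      · simp
      · rw [hm.leadingCoeff, map_one]
        exact one_ne_zero
    rw [h2]
    have h4 := scaleRoots_eval₂_eq_zero (RingHom.id (RatFunc K)) (r := ρ) (s := κ δ)
      (p := h.map (evalRingHom (algebraMap K (RatFunc K) a))) (by rw [eval₂_id]; exact hρ)
    simpa using h4
  have hint : IsIntegral K[X] (κ δ * ρ) := by
    refine ⟨H.map (evalRingHom (C a)), hH.map _, ?_⟩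
    rw [← eval_map]
    exact h1
  obtain ⟨r, hr⟩ := IsIntegrallyClosed.isIntegral_iff.mp hint
  apply hfin a ha hno r
  apply hκi
  rw [map_zero, eval_hom]
  rw [hκ, hr]
  exact h1

/-- **Kronecker-free several variables step**: the weak Hilbert property passes from `K` to
`K(U)`. -/
theorem wh_ratFunc {K : Type u} [Field K] [Infinite K] (hK : WH K) : WH (RatFunc K) := by
  classical
  intro s hs g hg
  have hkey := fun (h : (RatFunc K)[X][X]) (hh : h ∈ s) =>
    key_h h (hs h hh).1 (hs h hh).2.1 (hs h hh).2.2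
  choose! t G hG0 ht hfin using hkey
  -- nonvanishing of `g`
  obtain ⟨g₀, hg₀, hg₁⟩ : ∃ g₀ : K[X], g₀ ≠ 0 ∧ ∀ a : K, g₀.eval a ≠ 0 →
      g.eval (algebraMap K (RatFunc K) a) ≠ 0 := by
    obtain ⟨b, hb0, hb⟩ := IsLocalization.integerNormalization_spec
      (nonZeroDivisors K[X]) g
    set G' := IsLocalization.integerNormalization (nonZeroDivisors K[X]) g with hG'
    have hinj : Function.Injective (algebraMap K[X] (RatFunc K)) :=
      IsFractionRing.injective K[X] (RatFunc K)
    have hG1 : G' ≠ 0 := by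
      intro h0
      apply hg
      exact (IsFractionRing.integerNormalization_eq_zero_iff (A := K[X])).mp h0
    have hb' : G'.map (algebraMap K[X] (RatFunc K)) =
        C (algebraMap K[X] (RatFunc K) b) * g := by
      rw [hb]
      ext i
      rw [coeff_smul, coeff_C_mul, Algebra.smul_def]
    obtain ⟨g₀, h0, h1⟩ := nonvanish G' hG1
    refine ⟨g₀, h0, ?_⟩
    intro a ha h2
    apply h1 a ha
    apply hinj
    have h3 : algebraMap K[X] (RatFunc K) (C a) = algebraMap K (RatFunc K) a := by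
      rw [← algebraMap_eq, ← IsScalarTower.algebraMap_apply]
    rw [map_zero, eval_hom, hb', h3, eval_mul, h2, mul_zero]
  obtain ⟨a, ha, hno⟩ := hK (s.biUnion t) (by
    intro h hh
    rw [Finset.mem_biUnion] at hh
    obtain ⟨f, hf, hft⟩ := hh
    exact ht f hf h hft) (g₀ * ∏ h ∈ s, G h) (by
      apply mul_ne_zero hg₀
      rw [Finset.prod_ne_zero_iff]
      exact fun h hh => hG0 h hh)
  rw [eval_mul, eval_prod] at ha
  refine ⟨algebraMap K (RatFunc K) a, hg₁ a (left_ne_zero_of_mul ha), ?_⟩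
  intro h hh ρ
  refine hfin h hh a ?_ ?_ ρ
  · exact Finset.prod_ne_zero_iff.mp (right_ne_zero_of_mul ha) h hh
  · intro f hf ρ'
    exact hno f (Finset.mem_biUnion.mpr ⟨h, hh, hf⟩) ρ'

end MP7fL
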