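import Pool.Agent.Lib.MP_7f581e_ntL.V7

section

/-!
Goodness of anti-involutions: density and the subgroup generated by good elements.
-/

set_option autoImplicit false
set_option linter.unusedSectionVars false

universe u v

namespace MP7fV

open TensorProduct MP7fS MP7fU MP7fR MP7fE

section density

variable {p : ℕ} [Fact p.Prime] {B : Type} [Ring B] [Finite B] [Algebra (ZMod p) B]
variable {ι : Type} [Fintype ι]

/-- Density: finitely many polynomial families that are somewhere invertible are invertible at a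
common point. -/
theorem dens_poly {m : Type} [Fintype m]
    (z : m → MvPolynomial ι (AlgebraicClosure (ZMod p)) ⊗[ZMod p] B)
    (h : ∀ i, ∃ Y : ι → AlgebraicClosure (ZMod p),
      IsUnit (tmap (p := p) (MvPolynomial.eval Y) (RingHom.id B) (z i))) :
    ∃ Y : ι → AlgebraicClosure (ZMod p), ∀ i,
      IsUnit (tmap (p := p) (MvPolynomial.eval Y) (RingHom.id B) (z i)) := by
  classical
  let e := Module.finBasis (ZMod p) B
  have hdet : ∀ (i : m) (Y : ι → AlgebraicClosure (ZMod p)),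
      (lmm e (tmap (p := p) (MvPolynomial.eval Y) (RingHom.id B) (z i))).det =
        MvPolynomial.eval Y (lmm e (z i)).det := by
    intro i Y
    rw [lmm_tmap]
    exact (RingHom.map_det (MvPolynomial.eval Y) (lmm e (z i))).symm
  have hne : ∀ i, (lmm e (z i)).det ≠ 0 := by
    intro i h0
    obtain ⟨Y, hY⟩ := h i
    have h1 := isUnit_lmm e hY
    rw [hdet, h0, map_zero] at h1
    exact not_isUnit_zero h1
  have hprod : ∏ i, (lmm e (z i)).det ≠ 0 := Finset.prod_ne_zero_iff.mpr fun i _ => hne i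
  have hex : ∃ Y : ι → AlgebraicClosure (ZMod p),
      MvPolynomial.eval Y (∏ i, (lmm e (z i)).det) ≠ 0 := by
    by_contra hcon
    push Not at hcon
    apply hprod
    apply MvPolynomial.funext
    intro Y
    rw [hcon, map_zero]
  obtain ⟨Y, hY⟩ := hex
  refine ⟨Y, fun i => ?_⟩
  apply isUnit_of_lmm e
  rw [hdet, isUnit_iff_ne_zero]
  rw [map_prod] at hY
  exact (Finset.prod_ne_zero_iff.mp hY) i (Finset.mem_univ i)

variable (J : AInv p B)

/-- Density in the affine space of the elements with `y + j y = 1`. -/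
theorem dens_aff {c : B} (hc : c + J.j c = 1) {m : Type} [Fintype m]
    (α β : m → AlgebraicClosure (ZMod p) ⊗[ZMod p] B)
    (h : ∀ i, ∃ y : AlgebraicClosure (ZMod p) ⊗[ZMod p] B, y + jR J _ y = 1 ∧
      IsUnit (α i + β i * y)) :
    ∃ y : AlgebraicClosure (ZMod p) ⊗[ZMod p] B, y + jR J _ y = 1 ∧
      ∀ i, IsUnit (α i + β i * y) := by
  classical
  let sb := Module.finBasis (ZMod p) (Sk J)
  let ι := Fin (Module.finrank (ZMod p) (Sk J))
  let C : AlgebraicClosure (ZMod p) →+* MvPolynomial ι (AlgebraicClosure (ZMod p)) :=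
    MvPolynomial.C
  let z : m → MvPolynomial ι (AlgebraicClosure (ZMod p)) ⊗[ZMod p] B := fun i =>
    tmap (p := p) C (RingHom.id B) (α i) +
      tmap (p := p) C (RingHom.id B) (β i) * cy J sb c MvPolynomial.X
  have hz : ∀ i (Y : ι → AlgebraicClosure (ZMod p)),
      tmap (p := p) (MvPolynomial.eval Y) (RingHom.id B) (z i) =
        α i + β i * cy J sb c Y := by
    intro i Y
    have hC : (MvPolynomial.eval Y).comp C = RingHom.id _ := by
      ext r
      exact MvPolynomial.eval_C r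
    change tmap (p := p) (MvPolynomial.eval Y) (RingHom.id B) (_ + _ * _) = _
    rw [map_add, map_mul, tmap_comp, tmap_comp, tmap_cy, hC]
    have h1 : (RingHom.id B).comp (RingHom.id B) = RingHom.id B := rfl
    rw [h1, tmap_id, tmap_id]
    congr 3
    ext k
    exact MvPolynomial.eval_X k
  obtain ⟨Y, hY⟩ := dens_poly z (fun i => by
    obtain ⟨y, hy1, hy2⟩ := h i
    obtain ⟨Y, rfl⟩ := exists_cy J sb hc hy1
    exact ⟨Y, by rw [hz]; exact hy2⟩)
  exact ⟨cy J sb c Y, cy_add J sb hc Y, fun i => by rw [← hz]; exact hY i⟩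

end density

section subgroup

variable {p : ℕ} [Fact p.Prime] {B : Type} [Ring B] [Finite B] [Algebra (ZMod p) B]
  (J : AInv p B)

/-- The condition on group elements. -/
def HU (u : Bˣ) : Prop :=
  ∃ y₀ : AlgebraicClosure (ZMod p) ⊗[ZMod p] B,
    y₀ + jR J _ y₀ = 1 ∧ IsUnit (1 + ((1 ⊗ₜ ((u⁻¹ : Bˣ) : B)) - 1) * y₀)

variable {R : Type*} [CommRing R] [Algebra (ZMod p) R]

theorem one_sub_mul (y w : (R ⊗[ZMod p] B)ˣ) :
    1 - (1 - ((y⁻¹ : (R ⊗[ZMod p] B)ˣ) : R ⊗[ZMod p] B)) * (w : R ⊗[ZMod p] B) =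
      (1 + (((w⁻¹ : (R ⊗[ZMod p] B)ˣ) : R ⊗[ZMod p] B) - 1) * (y : R ⊗[ZMod p] B)) *
        ((y⁻¹ : (R ⊗[ZMod p] B)ˣ) : R ⊗[ZMod p] B) * (w : R ⊗[ZMod p] B) := by
  set a := (y : R ⊗[ZMod p] B)
  set b := ((y⁻¹ : (R ⊗[ZMod p] B)ˣ) : R ⊗[ZMod p] B) with hb
  set x := (w : R ⊗[ZMod p] B)
  set v := ((w⁻¹ : (R ⊗[ZMod p] B)ˣ) : R ⊗[ZMod p] B)
  have h1 : a * b = 1 := Units.mul_inv y
  have h2 : v * x = 1 := Units.inv_mul w
  calc 1 - (1 - b) * x = b * x + (1 - x) := by noncomm_ring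
    _ = b * x + (v - 1) * (a * b) * x := by
      rw [h1, mul_one, sub_mul, h2, one_mul]
    _ = (1 + (v - 1) * a) * b * x := by noncomm_ring

theorem isUnit_iff_aux (y w : (R ⊗[ZMod p] B)ˣ) :
    IsUnit (1 - (1 - ((y⁻¹ : (R ⊗[ZMod p] B)ˣ) : R ⊗[ZMod p] B)) * (w : R ⊗[ZMod p] B)) ↔
      IsUnit (1 + (((w⁻¹ : (R ⊗[ZMod p] B)ˣ) : R ⊗[ZMod p] B) - 1) * (y : R ⊗[ZMod p] B)) := by
  rw [one_sub_mul]
  constructor
  · intro h
    have h1 := (h.mul (Units.isUnit w⁻¹)).mul (Units.isUnit y)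
    rwa [Units.mul_inv_cancel_right, mul_assoc, Units.inv_mul, mul_one] at h1
  · intro h
    exact (h.mul (Units.isUnit _)).mul (Units.isUnit _)

theorem cu_mem {u : Bˣ} (hu : u ∈ J.U) : cu R u ∈ UR J R := by
  rw [mem_UR, coe_cu, jR_tmul, Algebra.TensorProduct.tmul_mul_tmul, one_mul, (J.mem_U).mp hu,
    Algebra.TensorProduct.one_def]

theorem cay_mem (y : (R ⊗[ZMod p] B)ˣ)
    (hy : (y : R ⊗[ZMod p] B) + jR J R (y : R ⊗[ZMod p] B) = 1) : cay J y hy ∈ UR J R :=
  (cay_unitary J y hy).1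

/-- The new point: `y' = (1 - x u)⁻¹`. -/
theorem exists_translate {u : Bˣ} (hu : u ∈ J.U)
    (y : (R ⊗[ZMod p] B)ˣ) (hy : (y : R ⊗[ZMod p] B) + jR J R (y : R ⊗[ZMod p] B) = 1)
    (h : IsUnit (1 + (((cu R u⁻¹ : (R ⊗[ZMod p] B)ˣ) : R ⊗[ZMod p] B) - 1) *
      (y : R ⊗[ZMod p] B))) :
    ∃ (y' : (R ⊗[ZMod p] B)ˣ) (hy' : (y' : R ⊗[ZMod p] B) + jR J R (y' : R ⊗[ZMod p] B) = 1),
      cay J y' hy' = cay J y hy * cu R u := by
  have h1 : IsUnit (1 - ((cay J y hy * cu R u : (R ⊗[ZMod p] B)ˣ) : R ⊗[ZMod p] B)) := by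
    rw [Units.val_mul, coe_cay, isUnit_iff_aux, ← map_inv]
    exact h
  obtain ⟨w, hw⟩ := h1
  have h2 := cay_skew J w (x := ((cay J y hy * cu R u : (R ⊗[ZMod p] B)ˣ) : R ⊗[ZMod p] B))
    (mul_mem (cay_mem J y hy) (cu_mem J hu)) hw
  refine ⟨w⁻¹, h2, ?_⟩
  apply Units.ext
  rw [coe_cay, inv_inv, hw, sub_sub_cancel]

variable {J}

theorem isUnit_cay (y : (R ⊗[ZMod p] B)ˣ)
    (hy : (y : R ⊗[ZMod p] B) + jR J R (y : R ⊗[ZMod p] B) = 1) (u : Bˣ) :
    IsUnit (1 - ((cay J y hy * cu R u : (R ⊗[ZMod p] B)ˣ) : R ⊗[ZMod p] B)) ↔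
      IsUnit (1 + ((1 ⊗ₜ[ZMod p] ((u⁻¹ : Bˣ) : B)) - 1) * (y : R ⊗[ZMod p] B)) := by
  rw [Units.val_mul, coe_cay, isUnit_iff_aux, ← map_inv, coe_cu]

theorem HU.mul {c : B} (hc : c + J.j c = 1)
    (hy : ∃ y₀ : AlgebraicClosure (ZMod p) ⊗[ZMod p] B, y₀ + jR J _ y₀ = 1 ∧ IsUnit y₀)
    {u v : Bˣ} (huU : u ∈ J.U) (hu : HU J u) (hv : HU J v) : HU J (u * v) := by
  classical
  -- first step: `HU u⁻¹` with a unit
  have hstep : ∃ y₀ : AlgebraicClosure (ZMod p) ⊗[ZMod p] B,
      y₀ + jR J _ y₀ = 1 ∧ IsUnit (1 + ((1 ⊗ₜ (u : B)) - 1) * y₀) := by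
    obtain ⟨y, hy1, hy2⟩ := dens_aff J hc
      (fun i : Bool => if i then 0 else 1)
      (fun i : Bool => if i then 1 else ((1 ⊗ₜ ((u⁻¹ : Bˣ) : B)) - 1)) (by
        intro i
        cases i
        · simpa [HU] using hu
        · simpa using hy)
    have hyu : IsUnit y := by simpa using hy2 true
    have hyP : IsUnit (1 + ((1 ⊗ₜ ((u⁻¹ : Bˣ) : B)) - 1) * y) := by simpa using hy2 false
    obtain ⟨y, rfl⟩ := hyu
    obtain ⟨y', hy', hcay⟩ := exists_translate J huU y hy1 hyP
    refine ⟨y', hy', ?_⟩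
    have h1 := isUnit_cay y' hy' u⁻¹
    rw [inv_inv] at h1
    rw [← h1, hcay, map_inv, mul_inv_cancel_right, coe_cay, sub_sub_cancel]
    exact Units.isUnit _
  -- second step
  obtain ⟨y', hy1, hy2⟩ := dens_aff J hc
      (fun i : Fin 3 => if i = 0 then 0 else 1)
      (fun i : Fin 3 => if i = 0 then 1 else if i = 1 then ((1 ⊗ₜ (u : B)) - 1) else
        ((1 ⊗ₜ ((v⁻¹ : Bˣ) : B)) - 1)) (by
        intro i
        fin_cases i
        · simpa using hy
        · simpa using hstep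
        · simpa [HU] using hv)
  have hyu : IsUnit y' := by simpa using hy2 0
  have hyP : IsUnit (1 + ((1 ⊗ₜ (u : B)) - 1) * y') := by simpa using hy2 1
  have hyQ : IsUnit (1 + ((1 ⊗ₜ ((v⁻¹ : Bˣ) : B)) - 1) * y') := by simpa using hy2 2
  obtain ⟨y', rfl⟩ := hyu
  obtain ⟨y, hy, hcay⟩ := exists_translate J (inv_mem huU) y' hy1 (by
    rw [inv_inv]
    exact hyP)
  refine ⟨y, hy, ?_⟩
  rw [← isUnit_cay y hy (u * v), hcay, map_mul, map_inv, ← mul_assoc, inv_mul_cancel_right]
  rw [isUnit_cay y' hy1 v]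
  exact hyQ

/-- Elements that commute with a good idempotent. -/
theorem HU.of_comm {c : B} (hc : c + J.j c = 1) (hcc : c * c = c) {u : Bˣ}
    (hu : c * (u : B) = u * c) : HU J u := by
  classical
  let E : AlgebraicClosure (ZMod p) ⊗[ZMod p] B := 1 ⊗ₜ c
  let V : AlgebraicClosure (ZMod p) ⊗[ZMod p] B := 1 ⊗ₜ ((u⁻¹ : Bˣ) : B)
  have hE : E * E = E := by
    change (1 ⊗ₜ c) * (1 ⊗ₜ c) = _
    rw [Algebra.TensorProduct.tmul_mul_tmul, one_mul, hcc]
  have hjE : jR J _ E = 1 - E := by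
    change jR J _ (1 ⊗ₜ c) = _
    rw [jR_tmul]
    have h1 : J.j c = 1 - c := by rw [← hc, add_sub_cancel_left]
    rw [h1, tmul_sub, Algebra.TensorProduct.one_def]
  have hcu : c * ((u⁻¹ : Bˣ) : B) = ((u⁻¹ : Bˣ) : B) * c := by
    have h1 : ((u⁻¹ : Bˣ) : B) * (c * (u : B)) * ((u⁻¹ : Bˣ) : B) =
        ((u⁻¹ : Bˣ) : B) * ((u : B) * c) * ((u⁻¹ : Bˣ) : B) := by rw [hu]
    rw [mul_assoc, mul_assoc, Units.mul_inv, mul_one, ← mul_assoc, Units.inv_mul, one_mul] at h1
    exact h1.symm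
  have hEV : E * V = V * E := by
    change (1 ⊗ₜ c) * (1 ⊗ₜ _) = (1 ⊗ₜ _) * (1 ⊗ₜ c)
    rw [Algebra.TensorProduct.tmul_mul_tmul, Algebra.TensorProduct.tmul_mul_tmul, hcu]
  have hVu : IsUnit V := by
    have h1 : V = ((cu (AlgebraicClosure (ZMod p)) u⁻¹ :
      (AlgebraicClosure (ZMod p) ⊗[ZMod p] B)ˣ) : AlgebraicClosure (ZMod p) ⊗[ZMod p] B) := rfl
    rw [h1]
    exact Units.isUnit _
  -- a good parameter
  let X : MvPolynomial Unit (AlgebraicClosure (ZMod p)) := MvPolynomial.X ()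
  let W : MvPolynomial Unit (AlgebraicClosure (ZMod p)) ⊗[ZMod p] B :=
    1 ⊗ₜ ((u⁻¹ : Bˣ) : B)
  have hev : ∀ (Y : Unit → AlgebraicClosure (ZMod p))
      (q : MvPolynomial Unit (AlgebraicClosure (ZMod p))),
      tmap (p := p) (MvPolynomial.eval Y) (RingHom.id B) (1 + q • (W - 1)) =
        1 + (MvPolynomial.eval Y q) • (V - 1) := by
    intro Y q
    rw [map_add, map_one, tmap_smul, map_sub, map_one, tmap_tmul, map_one]
    rfl
  obtain ⟨Y, hY⟩ := dens_poly (fun i : Bool => if i then 1 + X • (W - 1) else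
    1 + (1 - X) • (W - 1)) (by
      intro i
      cases i
      · refine ⟨fun _ => 1, ?_⟩
        simp only [Bool.false_eq_true, if_false]
        rw [hev, map_sub, map_one]
        change IsUnit (1 + (1 - MvPolynomial.eval _ (MvPolynomial.X ())) • (V - 1))
        rw [MvPolynomial.eval_X, sub_self, zero_smul, add_zero]
        exact isUnit_one
      · refine ⟨fun _ => 0, ?_⟩
        simp only [if_true]
        rw [hev]
        change IsUnit (1 + (MvPolynomial.eval _ (MvPolynomial.X ())) • (V - 1))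
        rw [MvPolynomial.eval_X, zero_smul, add_zero]
        exact isUnit_one)
  have h1 := hY true
  have h2 := hY false
  simp only [if_true] at h1
  simp only [Bool.false_eq_true, if_false] at h2
  rw [hev] at h1 h2
  rw [map_sub, map_one] at h2
  have hX : MvPolynomial.eval Y X = Y () := MvPolynomial.eval_X ()
  rw [hX] at h1 h2
  set ν := Y ()
  refine ⟨ν • E + (1 - ν) • (1 - E), ?_, ?_⟩
  · rw [map_add, map_smul, map_smul, map_sub, jR_one, hjE, sub_sub_cancel]
    module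
  · obtain ⟨a, ha⟩ := h1
    obtain ⟨b, hb⟩ := h2
    have haE : E * (a : AlgebraicClosure (ZMod p) ⊗[ZMod p] B) = a * E := by
      rw [ha, mul_add, add_mul, mul_one, one_mul, mul_smul_comm, smul_mul_assoc, mul_sub, sub_mul,
        hEV, mul_one, one_mul]
    have hbE : E * (b : AlgebraicClosure (ZMod p) ⊗[ZMod p] B) = b * E := by
      rw [hb, mul_add, add_mul, mul_one, one_mul, mul_smul_comm, smul_mul_assoc, mul_sub, sub_mul,
        hEV, mul_one, one_mul]
    have hinv : ∀ a : (AlgebraicClosure (ZMod p) ⊗[ZMod p] B)ˣ,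
        E * (a : AlgebraicClosure (ZMod p) ⊗[ZMod p] B) = a * E →
        E * ((a⁻¹ : (AlgebraicClosure (ZMod p) ⊗[ZMod p] B)ˣ) :
          AlgebraicClosure (ZMod p) ⊗[ZMod p] B) = ((a⁻¹ : (AlgebraicClosure (ZMod p) ⊗[ZMod p] B)ˣ) :
          AlgebraicClosure (ZMod p) ⊗[ZMod p] B) * E := by
      intro a ha
      have h3 : Commute E (a : AlgebraicClosure (ZMod p) ⊗[ZMod p] B) := ha
      exact h3.units_inv_right.eq
    have key : ∀ a b a' b' : AlgebraicClosure (ZMod p) ⊗[ZMod p] B, E * a' = a' * E →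
        E * b' = b' * E → a * a' = 1 → b * b' = 1 →
        (a * E + b * (1 - E)) * (a' * E + b' * (1 - E)) = 1 := by
      intro a b a' b' h3 h4 h5 h6
      have hEE : E * (1 - E) = 0 := by rw [mul_sub, hE, mul_one, sub_self]
      calc (a * E + b * (1 - E)) * (a' * E + b' * (1 - E))
          = a * (E * a') * E + a * (E * b') * (1 - E) + b * ((1 - E) * a') * E +
            b * ((1 - E) * b') * (1 - E) := by noncomm_ring
        _ = (a * a') * (E * E) + a * b' * (E * (1 - E)) + b * a' * ((1 - E) * E) +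
            (b * b') * ((1 - E) * (1 - E)) := by
            have h7 : (1 - E) * a' = a' * (1 - E) := by
              rw [sub_mul, mul_sub, h3, one_mul, mul_one]
            have h8 : (1 - E) * b' = b' * (1 - E) := by
              rw [sub_mul, mul_sub, h4, one_mul, mul_one]
            rw [h3, h4, h7, h8]
            noncomm_ring
        _ = 1 := by
            have h9 : (1 - E) * E = 0 := by rw [sub_mul, hE, one_mul, sub_self]
            have h10 : (1 - E) * (1 - E) = 1 - E := by rw [mul_sub, mul_one, h9, sub_zero]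
            rw [h5, h6, hE, hEE, h9, h10, mul_zero, mul_zero, one_mul, one_mul, add_zero,
              add_zero, add_sub_cancel]
    have h3 : 1 + (V - 1) * (ν • E + (1 - ν) • (1 - E)) =
        (a : AlgebraicClosure (ZMod p) ⊗[ZMod p] B) * E + b * (1 - E) := by
      rw [ha, hb]
      rw [mul_add, mul_smul_comm, mul_smul_comm, add_mul, add_mul, one_mul, one_mul,
        smul_mul_assoc, smul_mul_assoc]
      abel
    have h4 : 1 + ((1 ⊗ₜ ((u⁻¹ : Bˣ) : B)) - 1) * (ν • E + (1 - ν) • (1 - E)) =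
        (a : AlgebraicClosure (ZMod p) ⊗[ZMod p] B) * E +
          (b : AlgebraicClosure (ZMod p) ⊗[ZMod p] B) * (1 - E) := h3
    rw [h4]
    exact ⟨⟨_, _, key _ _ _ _ (hinv a haE) (hinv b hbE) (Units.mul_inv a) (Units.mul_inv b),
      key _ _ _ _ haE hbE (Units.inv_mul a) (Units.inv_mul b)⟩, rfl⟩

/-- Elements that fix the idempotent from the left. -/
theorem HU.of_fix {c : B} (hc : c + J.j c = 1) {u : Bˣ}
    (hu : ((u⁻¹ : Bˣ) : B) * c = c) : HU J u := by
  refine ⟨1 ⊗ₜ c, ?_, ?_⟩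
  · rw [jR_tmul, ← tmul_add, hc, Algebra.TensorProduct.one_def]
  · rw [sub_mul, Algebra.TensorProduct.tmul_mul_tmul, one_mul, one_mul, hu, sub_self, add_zero]
    exact isUnit_one

/-- Units with `y + j y = 1` from an idempotent. -/
theorem hy_of_idem {c : B} (hc : c + J.j c = 1) (hcc : c * c = c) :
    ∃ y₀ : AlgebraicClosure (ZMod p) ⊗[ZMod p] B, y₀ + jR J _ y₀ = 1 ∧ IsUnit y₀ := by
  classical
  obtain ⟨ν, hν⟩ := Infinite.exists_notMem_finset ({0, 1} : Finset (AlgebraicClosure (ZMod p)))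
  rw [Finset.mem_insert, Finset.mem_singleton, not_or] at hν
  have hν1 : 1 - ν ≠ 0 := sub_ne_zero.mpr (Ne.symm hν.2)
  let E : AlgebraicClosure (ZMod p) ⊗[ZMod p] B := 1 ⊗ₜ c
  have hE : E * E = E := by
    change (1 ⊗ₜ c) * (1 ⊗ₜ c) = _
    rw [Algebra.TensorProduct.tmul_mul_tmul, one_mul, hcc]
  have hjE : jR J _ E = 1 - E := by
    change jR J _ (1 ⊗ₜ c) = _
    rw [jR_tmul]
    have h1 : J.j c = 1 - c := by rw [← hc, add_sub_cancel_left]
    rw [h1, tmul_sub, Algebra.TensorProduct.one_def]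
  have hEE : E * (1 - E) = 0 := by rw [mul_sub, hE, mul_one, sub_self]
  have hEE' : (1 - E) * E = 0 := by rw [sub_mul, hE, one_mul, sub_self]
  have hE1 : (1 - E) * (1 - E) = 1 - E := by rw [mul_sub, mul_one, hEE', sub_zero]
  have key : ∀ a b : AlgebraicClosure (ZMod p), a ≠ 0 → b ≠ 0 →
      (a • E + b • (1 - E)) * (a⁻¹ • E + b⁻¹ • (1 - E)) = 1 := by
    intro a b ha hb
    rw [add_mul, mul_add, mul_add, smul_mul_smul_comm, smul_mul_smul_comm, smul_mul_smul_comm,
      smul_mul_smul_comm, hE, hEE, hEE', hE1, smul_zero, smul_zero, add_zero, zero_add,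
      mul_inv_cancel₀ ha, mul_inv_cancel₀ hb, one_smul, one_smul, add_sub_cancel]
  refine ⟨ν • E + (1 - ν) • (1 - E), ?_, ?_⟩
  · rw [map_add, map_smul, map_smul, map_sub, jR_one, hjE]
    rw [sub_sub_cancel]
    module
  · have h1 := key ν (1 - ν) hν.1 hν1
    have h2 := key ν⁻¹ (1 - ν)⁻¹ (inv_ne_zero hν.1) (inv_ne_zero hν1)
    rw [inv_inv, inv_inv] at h2
    exact ⟨⟨_, _, h1, h2⟩, rfl⟩

/-- Goodness from an idempotent, given the condition on the group elements. -/
theorem good_of_idem' {c : B} (hc : c + J.j c = 1) (hcc : c * c = c)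
    (h : ∀ u : Bˣ, u ∈ J.U → HU J u) : Good J c where
  hc := hc
  hy := hy_of_idem hc hcc
  hs := by
    let E : AlgebraicClosure (ZMod p) ⊗[ZMod p] B := 1 ⊗ₜ c
    have hE : E * E = E := by
      change (1 ⊗ₜ c) * (1 ⊗ₜ c) = _
      rw [Algebra.TensorProduct.tmul_mul_tmul, one_mul, hcc]
    have hjE : jR J _ E = 1 - E := by
      change jR J _ (1 ⊗ₜ c) = _
      rw [jR_tmul]
      have h1 : J.j c = 1 - c := by rw [← hc, add_sub_cancel_left]
      rw [h1, tmul_sub, Algebra.TensorProduct.one_def]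
    refine ⟨E - (1 - E), ?_, ?_⟩
    · rw [map_sub, map_sub, jR_one, hjE]
      abel
    · have h1 : (E - (1 - E)) * (E - (1 - E)) = 1 := by
        calc (E - (1 - E)) * (E - (1 - E)) = 4 • (E * E) - 4 • E + 1 := by noncomm_ring
          _ = 1 := by rw [hE, sub_self, zero_add]
      exact ⟨⟨_, _, h1, h1⟩, rfl⟩
  hu := h

end subgroup

end MP7fV

end

section

/-!
Commutator Lang torsor, part 1: integrality of the solutions of Frobenius equations.
-/

set_option autoImplicit false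
set_option linter.unusedSectionVars false

universe u v

namespace MP7fZ

open TensorProduct MP7fS MP7fU MP7fV

section monomials

variable {R A : Type*} [CommRing R] [CommRing A] [Algebra R A] {ι : Type*} [Fintype ι]
  {p : ℕ} {x : ι → A} {a : ι → ι → R}

theorem mem_span_monomials (hp : 1 < p)
    (h : ∀ i, x i ^ p = ∑ k, algebraMap R A (a i k) * x k) (N : ℕ) :
    ∀ b : ι → ℕ, ∑ i, b i ≤ N → ∏ i, x i ^ b i ∈
      Submodule.span R (Set.range fun c : ι → Fin p => ∏ i, x i ^ (c i : ℕ)) := by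
  classical
  induction N with
  | zero =>
    intro b hb
    have h0 : ∀ i, b i = 0 := by
      intro i
      have h1 := Finset.single_le_sum (f := b) (fun j _ => Nat.zero_le _) (Finset.mem_univ i)
      omega
    refine Submodule.subset_span ⟨fun i => ⟨0, by omega⟩, ?_⟩
    exact Finset.prod_congr rfl fun i _ => by rw [h0]
  | succ N ih =>
    intro b hb
    by_cases hlt : ∀ i, b i < p
    · exact Submodule.subset_span ⟨fun i => ⟨b i, hlt i⟩, rfl⟩
    · push Not at hlt
      obtain ⟨j, hj⟩ := hlt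
      set b' : ι → ℕ := Function.update b j (b j - p) with hb'
      have h1 : ∏ i, x i ^ b i = x j ^ p * ∏ i, x i ^ b' i := by
        rw [← Finset.mul_prod_erase Finset.univ _ (Finset.mem_univ j),
          ← Finset.mul_prod_erase Finset.univ (fun i => x i ^ b' i) (Finset.mem_univ j), ← mul_assoc,
          hb', Function.update_self, ← pow_add, Nat.add_sub_cancel' hj]
        congr 1
        exact Finset.prod_congr rfl fun i hi => by
          rw [Function.update_of_ne (Finset.ne_of_mem_erase hi)]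
      have h2 : ∑ i, b' i + p = ∑ i, b i := by
        rw [← Finset.add_sum_erase Finset.univ b (Finset.mem_univ j),
          ← Finset.add_sum_erase Finset.univ b' (Finset.mem_univ j), hb', Function.update_self]
        have h3 : ∑ i ∈ Finset.univ.erase j, Function.update b j (b j - p) i =
            ∑ i ∈ Finset.univ.erase j, b i :=
          Finset.sum_congr rfl fun i hi => by
            rw [Function.update_of_ne (Finset.ne_of_mem_erase hi)]
        omega
      rw [h1, h, Finset.sum_mul]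
      refine Submodule.sum_mem _ fun k _ => ?_
      rw [mul_assoc, ← Algebra.smul_def]
      refine Submodule.smul_mem _ _ ?_
      obtain ⟨b2, hb2⟩ : ∃ b2 : ι → ℕ, b2 = b' + Pi.single k 1 := ⟨_, rfl⟩
      have hk1 : b2 k = b' k + 1 := by rw [hb2, Pi.add_apply, Pi.single_eq_same]
      have hk2 : ∀ i, i ≠ k → b2 i = b' i := by
        intro i hi
        rw [hb2, Pi.add_apply, Pi.single_eq_of_ne hi, add_zero]
      have h4 : x k * ∏ i, x i ^ b' i = ∏ i, x i ^ b2 i := by
        rw [← Finset.mul_prod_erase Finset.univ _ (Finset.mem_univ k),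
          ← Finset.mul_prod_erase Finset.univ (fun i => x i ^ b2 i) (Finset.mem_univ k),
          ← mul_assoc, hk1, pow_succ']
        congr 1
        exact Finset.prod_congr rfl fun i hi => by rw [hk2 i (Finset.ne_of_mem_erase hi)]
      rw [h4]
      apply ih
      have h5 : ∑ i, b2 i = ∑ i, b' i + 1 := by
        have h6 : ∑ i ∈ Finset.univ.erase k, b2 i = ∑ i ∈ Finset.univ.erase k, b' i :=
          Finset.sum_congr rfl fun i hi => hk2 i (Finset.ne_of_mem_erase hi)
        rw [← Finset.add_sum_erase Finset.univ b2 (Finset.mem_univ k),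
          ← Finset.add_sum_erase Finset.univ b' (Finset.mem_univ k), hk1, h6]
        omega
      omega

/-- Solutions of a system `x_i ^ p = ∑ a_{ik} x_k` are integral. -/
theorem isIntegral_of_system (hp : 1 < p)
    (h : ∀ i, x i ^ p = ∑ k, algebraMap R A (a i k) * x k) (i : ι) : IsIntegral R (x i) := by
  classical
  set W := Submodule.span R (Set.range fun c : ι → Fin p => ∏ i, x i ^ (c i : ℕ)) with hW
  have h1 : ∀ z ∈ Submonoid.closure (Set.range x), ∃ b : ι → ℕ, z = ∏ i, x i ^ b i := by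
    intro z hz
    induction hz using Submonoid.closure_induction with
    | mem z hz =>
      obtain ⟨j, rfl⟩ := hz
      refine ⟨Pi.single j 1, ?_⟩
      rw [Finset.prod_eq_single j]
      · rw [Pi.single_eq_same, pow_one]
      · intro k _ hk
        rw [Pi.single_eq_of_ne hk, pow_zero]
      · intro hj
        exact absurd (Finset.mem_univ j) hj
    | one => exact ⟨0, by simp⟩
    | mul z w _ _ hz hw =>
      obtain ⟨b, rfl⟩ := hz
      obtain ⟨c, rfl⟩ := hw
      refine ⟨b + c, ?_⟩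
      rw [← Finset.prod_mul_distrib]
      exact Finset.prod_congr rfl fun i _ => by rw [Pi.add_apply, pow_add]
  have h2 : Subalgebra.toSubmodule (Algebra.adjoin R (Set.range x)) = W := by
    apply le_antisymm
    · rw [Algebra.adjoin_eq_span, Submodule.span_le]
      intro z hz
      obtain ⟨b, rfl⟩ := h1 z hz
      exact mem_span_monomials hp h _ b le_rfl
    · rw [hW, Submodule.span_le]
      rintro _ ⟨c, rfl⟩
      change ∏ i, x i ^ (c i : ℕ) ∈ Algebra.adjoin R (Set.range x)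
      exact prod_mem fun j _ => pow_mem (Algebra.subset_adjoin (Set.mem_range_self j)) _
  have h3 : (Subalgebra.toSubmodule (Algebra.adjoin R (Set.range x))).FG := by
    rw [h2]
    exact Submodule.fg_span (Set.finite_range _)
  exact IsIntegral.of_mem_of_fg _ h3 _ (Algebra.subset_adjoin (Set.mem_range_self i))

end monomials

section frob

variable {p : ℕ} [Fact p.Prime] {B : Type} [Ring B] [Finite B] [Algebra (ZMod p) B]

/-- The coordinates of a solution of a Frobenius equation are integral. -/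
theorem isIntegral_repr {R A : Type*} [CommRing R] [CommRing A] [Algebra R A]
    [Algebra (ZMod p) R] [Algebra (ZMod p) A] [CharP A p] {ι : Type} [Fintype ι] [DecidableEq ι]
    (e : Module.Basis ι (ZMod p) B) (c : R ⊗[ZMod p] B) (g : A ⊗[ZMod p] B)
    (h : tmap (p := p) (frobenius A p) (RingHom.id B) g =
      tmap (p := p) (algebraMap R A) (RingHom.id B) c * g) (i : ι) :
    IsIntegral R ((eb e A).repr g i) := by
  refine isIntegral_of_system (p := p) (Fact.out : p.Prime).one_lt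
    (x := fun i => (eb e A).repr g i) (a := lmm e c) (fun i => ?_) i
  have h1 := congrFun (lmm_mulVec e (tmap (p := p) (algebraMap R A) (RingHom.id B) c) g) i
  rw [← h, repr_tmap, frobenius_def, lmm_tmap] at h1
  rw [← h1, Matrix.mulVec, dotProduct]
  rfl

end frob

section units

variable {p : ℕ} [Fact p.Prime] {B : Type} [Ring B] [Finite B] [Algebra (ZMod p) B]
variable {R S T : Type*} [CommRing R] [CommRing S] [CommRing T] [Algebra (ZMod p) R]
  [Algebra (ZMod p) S] [Algebra (ZMod p) T]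

/-- Base change of units. -/
noncomputable abbrev bu (f : R →+* S) : (R ⊗[ZMod p] B)ˣ →* (S ⊗[ZMod p] B)ˣ :=
  um (tmap (p := p) f (RingHom.id B))

theorem um_um (f : S →+* T) (g : B →+* B) (f' : R →+* S) (g' : B →+* B)
    (z : (R ⊗[ZMod p] B)ˣ) :
    um (tmap (p := p) f g) (um (tmap (p := p) f' g') z) =
      um (tmap (p := p) (f.comp f') (g.comp g')) z :=
  Units.ext (tmap_comp (p := p) f g f' g' _)

theorem bu_bu (f : S →+* T) (f' : R →+* S) (z : (R ⊗[ZMod p] B)ˣ) :
    bu f (bu f' z) = bu (f.comp f') z := um_um (p := p) f _ f' _ z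

theorem bu_cu (f : R →+* S) (u : Bˣ) : bu (p := p) f (cu R u) = cu S u := by
  apply Units.ext
  rw [coe_um, coe_cu, coe_cu, tmap_tmul, map_one]
  rfl

theorem bu_inj (f : R →+* S) (hf : Function.Injective f) :
    Function.Injective (bu (p := p) (B := B) f) := by
  intro z w h
  apply Units.ext
  exact tmap_injective (p := p) (B := B) f hf (congrArg Units.val h)

theorem bu_id (z : (R ⊗[ZMod p] B)ˣ) : bu (RingHom.id R) z = z := Units.ext (tmap_id _)

theorem cu_inj [Nontrivial R] : Function.Injective (cu (p := p) (B := B) R) := by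
  intro u v h
  apply Units.ext
  exact one_tmul_inj (p := p) (R := R) (congrArg Units.val h)

theorem cu_mem_iff [Nontrivial R] (J : AInv p B) {u : Bˣ} : cu R u ∈ UR J R ↔ u ∈ J.U := by
  constructor
  · intro h
    rw [mem_UR, coe_cu, jR_tmul, Algebra.TensorProduct.tmul_mul_tmul, one_mul] at h
    rw [AInv.mem_U]
    exact one_tmul_inj (p := p) (R := R) (h.trans Algebra.TensorProduct.one_def)
  · exact cu_mem J

/-- An element of `R ⊗ B` is a unit if it becomes a unit over an extension, and the inverse is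
defined over `R`. -/
theorem isUnit_of_lmm_unit {f : R →+* S} (z : R ⊗[ZMod p] B)
    (h : IsUnit (tmap (p := p) f (RingHom.id B) z)) [IsLocalHom f] : IsUnit z := by
  classical
  let e := Module.finBasis (ZMod p) B
  apply isUnit_of_lmm e
  have h1 := isUnit_lmm e h
  rw [lmm_tmap] at h1
  have h2 : ((lmm e z).map f).det = f (lmm e z).det := (RingHom.map_det f (lmm e z)).symm
  rw [h2] at h1
  exact isUnit_of_map_unit f _ h1

end units

section closed

variable {p : ℕ} [Fact p.Prime] {B : Type} [Ring B] [Finite B] [Algebra (ZMod p) B]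

/-- Solutions over an extension of an algebraically closed field are defined over the field. -/
theorem mem_range_of_closed {C Ω : Type*} [Field C] [IsAlgClosed C] [Field Ω]
    [Algebra (ZMod p) C] [Algebra (ZMod p) Ω] [CharP C p] [CharP Ω p] (f : C →+* Ω)
    (c : (C ⊗[ZMod p] B)ˣ) (g : (Ω ⊗[ZMod p] B)ˣ) (h : uf Ω g = bu f c * g) :
    ∃ g' : (C ⊗[ZMod p] B)ˣ, bu f g' = g := by
  classical
  let _ : Algebra C Ω := f.toAlgebra
  let e := Module.finBasis (ZMod p) B
  have h1 : ∀ i, ∃ r : C, f r = (eb e Ω).repr (g : Ω ⊗[ZMod p] B) i := by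
    intro i
    have h2 : IsIntegral C ((eb e Ω).repr (g : Ω ⊗[ZMod p] B) i) :=
      isIntegral_repr e (c : C ⊗[ZMod p] B) (g : Ω ⊗[ZMod p] B) (congrArg Units.val h) i
    have h3 : (minpoly C ((eb e Ω).repr (g : Ω ⊗[ZMod p] B) i)).degree = 1 :=
      IsAlgClosed.degree_eq_one_of_irreducible C (minpoly.irreducible h2)
    exact minpoly.mem_range_of_degree_eq_one C _ h3
  choose r hr using h1
  apply um_range f
  refine ⟨vec e r, ?_⟩
  rw [tmap_vec, ← vec_repr e (g : Ω ⊗[ZMod p] B)]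
  congr 1
  ext i
  exact hr i

end closed

section coords

variable {p : ℕ} [Fact p.Prime] {B : Type} [Ring B] [Finite B] [Algebra (ZMod p) B]
  (J : AInv p B) {κ : Type} [Fintype κ] [DecidableEq κ] (sb : Module.Basis κ (ZMod p) (Sk J))
  {R : Type*} [CommRing R] [Algebra (ZMod p) R]

theorem exists_skv' {z : R ⊗[ZMod p] B} (hz : z + jR J R z = 0) :
    ∃ Y : κ → R, z = skv J sb Y := by
  have hex : Function.Exact (Sk J).subtype
      ((LinearMap.id + J.j : B →ₗ[ZMod p] B)) := by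
    intro b
    constructor
    · intro hb
      exact ⟨⟨b, hb⟩, rfl⟩
    · rintro ⟨b, rfl⟩
      exact b.2
  have h1 := Module.Flat.lTensor_exact R hex
  have h2 : ((LinearMap.id + J.j : B →ₗ[ZMod p] B)).lTensor R z = 0 := by
    rw [← hz, LinearMap.lTensor_add, LinearMap.add_apply, LinearMap.lTensor_id]
    rfl
  obtain ⟨w, rfl⟩ := (h1 z).mp h2
  let bb : Module.Basis κ R (R ⊗[ZMod p] Sk J) := sb.baseChange R
  refine ⟨fun k => bb.repr w k, ?_⟩
  rw [skv_eq]
  congr 1
  conv_lhs => rw [← bb.sum_repr w]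
  refine Finset.sum_congr rfl fun k _ => ?_
  rw [Module.Basis.baseChange_apply]

theorem exists_cy' {c : B} (hc : c + J.j c = 1) {z : R ⊗[ZMod p] B} (hz : z + jR J R z = 1) :
    ∃ Y : κ → R, z = cy J sb c Y := by
  obtain ⟨Y, hY⟩ := exists_skv' J sb (z := z - (1 : R) ⊗ₜ[ZMod p] c) (by
    rw [map_sub, jR_tmul]
    calc _ = (z + jR J R z) - ((1 : R) ⊗ₜ[ZMod p] c + (1 : R) ⊗ₜ[ZMod p] J.j c) := by abel
      _ = 0 := by rw [hz, ← tmul_add, hc, Algebra.TensorProduct.one_def, sub_self])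
  exact ⟨Y, by rw [cy, ← hY]; abel⟩

end coords

section nil

variable {p : ℕ} [Fact p.Prime] {B : Type} [Ring B] [Finite B] [Algebra (ZMod p) B]
  {R S : Type*} [CommRing R] [Algebra (ZMod p) R] [CommRing S] [Algebra (ZMod p) S]
  {v : B} (hv : v * v = 0)

/-- The unit `1 + r ⊗ v` for an element `v` of square zero. -/
noncomputable def nu (R : Type*) [CommRing R] [Algebra (ZMod p) R] (r : R) :
    (R ⊗[ZMod p] B)ˣ where
  val := 1 + r ⊗ₜ v
  inv := 1 - r ⊗ₜ v
  val_inv := by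
    have h : (r ⊗ₜ[ZMod p] v) * (r ⊗ₜ[ZMod p] v) = 0 := by
      rw [Algebra.TensorProduct.tmul_mul_tmul, hv, tmul_zero]
    calc (1 + r ⊗ₜ[ZMod p] v) * (1 - r ⊗ₜ v) = 1 - (r ⊗ₜ v) * (r ⊗ₜ v) := by noncomm_ring
      _ = 1 := by rw [h, sub_zero]
  inv_val := by
    have h : (r ⊗ₜ[ZMod p] v) * (r ⊗ₜ[ZMod p] v) = 0 := by
      rw [Algebra.TensorProduct.tmul_mul_tmul, hv, tmul_zero]
    calc (1 - r ⊗ₜ[ZMod p] v) * (1 + r ⊗ₜ v) = 1 - (r ⊗ₜ v) * (r ⊗ₜ v) := by noncomm_ring
      _ = 1 := by rw [h, sub_zero]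

theorem coe_nu (r : R) : ((nu (p := p) hv R r : (R ⊗[ZMod p] B)ˣ) : R ⊗[ZMod p] B) =
    1 + r ⊗ₜ v := rfl

theorem coe_nu_inv (r : R) : (((nu (p := p) hv R r)⁻¹ : (R ⊗[ZMod p] B)ˣ) : R ⊗[ZMod p] B) =
    1 - r ⊗ₜ v := rfl

theorem nu_add (r s : R) : nu (p := p) hv R (r + s) = nu hv R r * nu hv R s := by
  apply Units.ext
  rw [Units.val_mul, coe_nu, coe_nu, coe_nu, add_tmul]
  have h : (r ⊗ₜ[ZMod p] v) * (s ⊗ₜ[ZMod p] v) = 0 := by
    rw [Algebra.TensorProduct.tmul_mul_tmul, hv, tmul_zero]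
  calc (1 : R ⊗[ZMod p] B) + (r ⊗ₜ[ZMod p] v + s ⊗ₜ v) =
        1 + r ⊗ₜ v + s ⊗ₜ v + 0 := by abel
    _ = (1 + r ⊗ₜ[ZMod p] v) * (1 + s ⊗ₜ v) := by rw [← h]; noncomm_ring

theorem nu_zero : nu (p := p) hv R 0 = 1 := by
  apply Units.ext
  rw [coe_nu, zero_tmul, add_zero, Units.val_one]

theorem nu_neg (r : R) : nu (p := p) hv R (-r) = (nu hv R r)⁻¹ := by
  apply eq_inv_of_mul_eq_one_left
  rw [← nu_add, neg_add_cancel, nu_zero]

theorem bu_nu (f : R →+* S) (r : R) : bu f (nu (p := p) hv R r) = nu hv S (f r) := by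
  apply Units.ext
  rw [coe_um, coe_nu, coe_nu, map_add, map_one, tmap_tmul]
  rfl

theorem uf_nu [CharP R p] (r : R) : uf R (nu (p := p) hv R r) = nu hv R (r ^ p) :=
  bu_nu hv (frobenius R p) r

theorem nu_mem {J : AInv p B} (hJ : J.j v = -v) (r : R) : nu (p := p) hv R r ∈ UR J R := by
  rw [mem_UR]
  have h : jR J R ((nu (p := p) hv R r : (R ⊗[ZMod p] B)ˣ) : R ⊗[ZMod p] B) =
      (((nu (p := p) hv R r)⁻¹ : (R ⊗[ZMod p] B)ˣ) : R ⊗[ZMod p] B) := by
    rw [coe_nu, coe_nu_inv, map_add, jR_one, jR_tmul, hJ, tmul_neg, sub_eq_add_neg]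
  rw [h, Units.inv_mul]

theorem nu_inj [Nontrivial R] [NoZeroDivisors R] (hv0 : v ≠ 0) {r s : R}
    (h : nu (p := p) hv R r = nu hv R s) : r = s := by
  classical
  let e := Module.finBasis (ZMod p) B
  have h1 : r ⊗ₜ[ZMod p] v = s ⊗ₜ v := add_left_cancel (congrArg Units.val h)
  obtain ⟨i, hi⟩ : ∃ i, e.repr v i ≠ 0 := by
    by_contra hcon
    push Not at hcon
    apply hv0
    apply e.repr.injective
    ext i
    rw [hcon, map_zero]
    rfl
  have h2 := congrArg (fun x => (eb e R).repr x i) h1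
  simp only [Algebra.TensorProduct.basis_repr_tmul, Finsupp.smul_apply,
    Finsupp.mapRange_apply, smul_eq_mul] at h2
  exact mul_right_cancel₀ (by
    rw [Ne, map_eq_zero_iff _ (algebraMap (ZMod p) R).injective]
    exact hi) h2

/-- The unit of `B`. -/
def nB : Bˣ where
  val := 1 + v
  inv := 1 - v
  val_inv := by
    calc (1 + v) * (1 - v) = 1 - v * v := by noncomm_ring
      _ = 1 := by rw [hv, sub_zero]
  inv_val := by
    calc (1 - v) * (1 + v) = 1 - v * v := by noncomm_ring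
      _ = 1 := by rw [hv, sub_zero]

theorem cu_nB : cu R (nB hv) = nu (p := p) hv R 1 := by
  apply Units.ext
  rw [coe_cu, coe_nu]
  change (1 : R) ⊗ₜ[ZMod p] (1 + v) = _
  rw [tmul_add, Algebra.TensorProduct.one_def]

theorem nu_nat (n : ℕ) : nu (p := p) hv R n = cu R (nB hv) ^ n := by
  induction n with
  | zero => rw [Nat.cast_zero, nu_zero, pow_zero]
  | succ n ih => rw [Nat.cast_succ, nu_add, ih, pow_succ, cu_nB]

end nil

end MP7fZ

end
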