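import Mathlib

/-!
Semilinear conjugations.
-/

set_option autoImplicit false
set_option linter.unusedSectionVars false

universe u

namespace MP7fW

open Matrix

section conj

variable {F : Type*} [Field F] {l : Type*} [Fintype l] [DecidableEq l]

/-- Entrywise action on invertible matrices. -/
def glMap (σ : F ≃+* F) : GL l F →* GL l F := Units.map ((σ : F →+* F).mapMatrix.toMonoidHom)

theorem glMap_coe (σ : F ≃+* F) (g : GL l F) : (glMap σ g).1 = g.1.map σ := rfl

theorem glMap_coe_inv (σ : F ≃+* F) (g : GL l F) : ((glMap σ g)⁻¹).1 = (g⁻¹).1.map σ := rfl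

theorem gl_mul_inv (g : GL l F) : g.1 * (g⁻¹).1 = 1 := g.mul_inv

theorem gl_inv_mul (g : GL l F) : (g⁻¹).1 * g.1 = 1 := g.inv_mul

theorem map_symm_map (σ : F ≃+* F) (M : Matrix l l F) : (M.map σ).map σ.symm = M := by
  ext i j
  rw [Matrix.map_apply, Matrix.map_apply, RingEquiv.symm_apply_apply]

theorem map_map_symm (σ : F ≃+* F) (M : Matrix l l F) : (M.map σ.symm).map σ = M := by
  ext i j
  rw [Matrix.map_apply, Matrix.map_apply, RingEquiv.apply_symm_apply]

theorem map_mul' (σ : F ≃+* F) (M N : Matrix l l F) : (M * N).map σ = M.map σ * N.map σ :=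
  (σ : F →+* F).mapMatrix.map_mul M N

theorem map_one' (σ : F ≃+* F) : (1 : Matrix l l F).map σ = 1 :=
  (σ : F →+* F).mapMatrix.map_one

/-- Semilinear conjugation. -/
def cjR (g : GL l F) (σ : F ≃+* F) : RingAut (Matrix l l F) where
  toFun M := g.1 * M.map σ * (g⁻¹).1
  invFun M := ((g⁻¹).1 * M * g.1).map σ.symm
  left_inv M := by
    have h1 : (g⁻¹).1 * (g.1 * M.map σ * (g⁻¹).1) * g.1 = M.map σ := by
      calc _ = ((g⁻¹).1 * g.1) * M.map σ * ((g⁻¹).1 * g.1) := by simp only [Matrix.mul_assoc]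
        _ = M.map σ := by rw [gl_inv_mul, Matrix.one_mul, Matrix.mul_one]
    change ((g⁻¹).1 * (g.1 * M.map σ * (g⁻¹).1) * g.1).map σ.symm = M
    rw [h1, map_symm_map]
  right_inv M := by
    change g.1 * (((g⁻¹).1 * M * g.1).map σ.symm).map σ * (g⁻¹).1 = M
    rw [map_map_symm]
    calc _ = (g.1 * (g⁻¹).1) * M * (g.1 * (g⁻¹).1) := by simp only [Matrix.mul_assoc]
      _ = M := by rw [gl_mul_inv, Matrix.one_mul, Matrix.mul_one]
  map_mul' M N := by
    rw [map_mul']
    calc _ = g.1 * M.map σ * 1 * N.map σ * (g⁻¹).1 := by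
          rw [Matrix.mul_one]
          simp only [Matrix.mul_assoc]
      _ = g.1 * M.map σ * ((g⁻¹).1 * g.1) * N.map σ * (g⁻¹).1 := by rw [gl_inv_mul]
      _ = _ := by simp only [Matrix.mul_assoc]
  map_add' M N := by
    have h1 : (M + N).map σ = M.map σ + N.map σ := (σ : F →+* F).mapMatrix.map_add M N
    rw [h1, Matrix.mul_add, Matrix.add_mul]

theorem cjR_apply (g : GL l F) (σ : F ≃+* F) (M : Matrix l l F) :
    cjR g σ M = g.1 * M.map σ * (g⁻¹).1 := rfl

theorem cjR_one : cjR (1 : GL l F) (RingEquiv.refl F) = 1 := by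
  ext1 M
  rw [cjR_apply, inv_one]
  change (1 : Matrix l l F) * M.map (RingEquiv.refl F) * (1 : Matrix l l F) = M
  rw [Matrix.one_mul, Matrix.mul_one]
  rfl

theorem cjR_mul (g h : GL l F) (σ τ : F ≃+* F) :
    cjR g σ * cjR h τ = cjR (g * glMap σ h) (τ.trans σ) := by
  ext1 M
  change g.1 * (h.1 * M.map τ * (h⁻¹).1).map σ * (g⁻¹).1 =
    (g.1 * (glMap σ h).1) * M.map (τ.trans σ) * ((g * glMap σ h)⁻¹).1
  have h1 : ((g * glMap σ h)⁻¹).1 = ((glMap σ h)⁻¹).1 * (g⁻¹).1 := by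
    rw [_root_.mul_inv_rev]
    rfl
  rw [h1, glMap_coe_inv, glMap_coe, map_mul', map_mul']
  have h2 : M.map (τ.trans σ) = (M.map τ).map σ := rfl
  rw [h2]
  simp only [Matrix.mul_assoc]

/-- The group of semilinear conjugations by elements of `D`. -/
def AD (D : Subgroup (GL l F)) (hD : ∀ (σ : F ≃+* F), ∀ g ∈ D, glMap σ g ∈ D) :
    Subgroup (RingAut (Matrix l l F)) where
  carrier := {R | ∃ g ∈ D, ∃ σ : F ≃+* F, R = cjR g σ}
  one_mem' := ⟨1, one_mem _, RingEquiv.refl F, cjR_one.symm⟩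
  mul_mem' := by
    rintro _ _ ⟨g, hg, σ, rfl⟩ ⟨h, hh, τ, rfl⟩
    exact ⟨_, mul_mem hg (hD σ h hh), _, cjR_mul g h σ τ⟩
  inv_mem' := by
    rintro _ ⟨g, hg, σ, rfl⟩
    refine ⟨glMap σ.symm g⁻¹, hD _ _ (inv_mem hg), σ.symm, ?_⟩
    rw [inv_eq_iff_mul_eq_one, cjR_mul]
    have h1 : glMap σ (glMap σ.symm g⁻¹) = g⁻¹ := by
      apply Units.ext
      rw [glMap_coe, glMap_coe]
      exact map_map_symm σ _
    rw [h1, mul_inv_cancel]
    have h2 : σ.symm.trans σ = RingEquiv.refl F := by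
      ext x
      exact RingEquiv.apply_symm_apply σ x
    rw [h2, cjR_one]

theorem mem_AD {D : Subgroup (GL l F)} {hD : ∀ (σ : F ≃+* F), ∀ g ∈ D, glMap σ g ∈ D}
    {R : RingAut (Matrix l l F)} : R ∈ AD D hD ↔ ∃ g ∈ D, ∃ σ : F ≃+* F, R = cjR g σ := Iff.rfl

theorem map_mulVec' (σ : F ≃+* F) (M : Matrix l l F) (x : l → F) :
    M.map σ *ᵥ (σ ∘ x) = σ ∘ (M *ᵥ x) := by
  funext i
  rw [Function.comp_apply, Matrix.mulVec, Matrix.mulVec, dotProduct, dotProduct, map_sum]
  exact Finset.sum_congr rfl fun j _ => (map_mul σ _ _).symm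

/-- Rigidity. -/
theorem rigid [Nontrivial l] {g h : GL l F} {σ : F ≃+* F}
    (H : ∀ v : l → F, v ≠ 0 → ∃ k : F, g.1 *ᵥ (σ ∘ v) = k • (h.1 *ᵥ v)) :
    σ = RingEquiv.refl F ∧ ∃ k : F, g.1 = k • h.1 := by
  have H' : ∀ v : l → F, v ≠ 0 → ∃ k : F, (h⁻¹ * g).1 *ᵥ (σ ∘ v) = k • v := by
    intro v hv
    obtain ⟨k, hk⟩ := H v hv
    refine ⟨k, ?_⟩
    change ((h⁻¹).1 * g.1) *ᵥ (σ ∘ v) = k • v
    rw [← Matrix.mulVec_mulVec, hk, Matrix.mulVec_smul, Matrix.mulVec_mulVec, gl_inv_mul,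
      Matrix.one_mulVec]
  set L := h⁻¹ * g with hL
  have hs : ∀ a : l, (σ ∘ (Pi.single a (1 : F)) : l → F) = Pi.single a 1 := by
    intro a
    funext b
    rw [Function.comp_apply, Pi.single_apply]
    split_ifs
    · exact map_one σ
    · exact map_zero σ
  have hs' : ∀ a i : l, σ ((Pi.single a (1 : F) : l → F) i) = (Pi.single a (1 : F) : l → F) i :=
    fun a i => congrFun (hs a) i
  have hne : ∀ a : l, (Pi.single a (1 : F) : l → F) ≠ 0 := by
    intro a h0
    have := congrFun h0 a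
    rw [Pi.single_eq_same] at this
    exact one_ne_zero this
  choose k hk using fun a : l => H' (Pi.single a 1) (hne a)
  simp only [hs] at hk
  have key : ∀ a b : l, a ≠ b → ∀ t : F, k a * t = k b * σ t := by
    intro a b hab t
    have hv : (Pi.single a (1 : F) + t • Pi.single b (1 : F) : l → F) ≠ 0 := by
      intro h0
      have := congrFun h0 a
      rw [Pi.add_apply, Pi.smul_apply, Pi.single_eq_same, Pi.single_eq_of_ne hab, smul_zero,
        add_zero] at this
      exact one_ne_zero this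
    obtain ⟨c, hc⟩ := H' _ hv
    have h1 : (σ ∘ (Pi.single a (1 : F) + t • Pi.single b (1 : F)) : l → F) =
        Pi.single a 1 + σ t • Pi.single b 1 := by
      funext i
      change σ ((Pi.single a (1 : F) : l → F) i + t * (Pi.single b (1 : F) : l → F) i) =
        (Pi.single a (1 : F) : l → F) i + σ t * (Pi.single b (1 : F) : l → F) i
      rw [map_add, map_mul, hs', hs']
    rw [h1, Matrix.mulVec_add, Matrix.mulVec_smul, hk, hk] at hc
    have h2 := congrFun hc a
    have h3 := congrFun hc b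
    simp only [Pi.add_apply, Pi.smul_apply, Pi.single_eq_same, Pi.single_eq_of_ne hab,
      Pi.single_eq_of_ne hab.symm, smul_eq_mul, mul_zero, mul_one, add_zero, zero_add] at h2 h3
    rw [h2, mul_comm (k b), ← h3]
  have hkk : ∀ a b : l, k a = k b := by
    intro a b
    by_cases hab : a = b
    · rw [hab]
    · have := key a b hab 1
      rwa [map_one, mul_one, mul_one] at this
  obtain ⟨a, b, hab⟩ := exists_pair_ne l
  have hk0 : k b ≠ 0 := by
    intro h0
    have h1 := hk b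
    rw [h0, zero_smul] at h1
    have h2 : (L⁻¹).1 *ᵥ (L.1 *ᵥ (Pi.single b (1 : F))) = Pi.single b (1 : F) := by
      rw [Matrix.mulVec_mulVec, gl_inv_mul, Matrix.one_mulVec]
    rw [h1, Matrix.mulVec_zero] at h2
    exact hne b h2.symm
  refine ⟨?_, k b, ?_⟩
  · ext t
    have h1 := key a b hab t
    rw [hkk a b] at h1
    exact (mul_left_cancel₀ hk0 h1).symm
  · have h1 : L.1 = k b • (1 : Matrix l l F) := by
      apply Matrix.ext_of_mulVec_single
      intro i
      rw [hk, Matrix.smul_mulVec, Matrix.one_mulVec, hkk i b]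
    have h2 : g.1 = h.1 * L.1 := by
      change g.1 = (h * (h⁻¹ * g)).1
      rw [mul_inv_cancel_left]
    rw [h2, h1, Matrix.mul_smul, Matrix.mul_one]

theorem cjR_scalar {g : GL l F} {k : F} (h : g.1 = k • (1 : Matrix l l F)) :
    cjR g (RingEquiv.refl F) = 1 := by
  ext1 M
  rw [cjR_apply]
  change g.1 * M * (g⁻¹).1 = M
  rw [h, Matrix.smul_mul, Matrix.one_mul, Matrix.smul_mul, ← Matrix.mul_smul]
  have h1 : k • (g⁻¹).1 = 1 := by
    rw [← gl_mul_inv g, h, Matrix.smul_mul, Matrix.one_mul]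
  rw [h1, Matrix.mul_one]

end conj

end MP7fW
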