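import Pool.Agent.Lib.MP_7f581e_ntL.W3

/-!
Unitary groups over finite fields: definitions and change of the form.
-/

set_option autoImplicit false
set_option linter.unusedSectionVars false

universe u

namespace MP7fY

open Matrix MP7fW

variable {F : Type*} [Field F] (s : F →+* F) {l : Type*} [Fintype l] [DecidableEq l]
  (Φ : Matrix l l F)

theorem map_mulR (M N : Matrix l l F) : (M * N).map s = M.map s * N.map s :=
  s.mapMatrix.map_mul M N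

theorem map_oneR : (1 : Matrix l l F).map s = 1 := s.mapMatrix.map_one

/-- The unitary group of a form. -/
def UG : Subgroup (GL l F) where
  carrier := {g | (g.1.map s)ᵀ * Φ * g.1 = Φ}
  one_mem' := by
    change ((1 : Matrix l l F).map s)ᵀ * Φ * 1 = Φ
    rw [map_oneR, transpose_one, Matrix.one_mul, Matrix.mul_one]
  mul_mem' := by
    intro g h hg hh
    change ((g.1 * h.1).map s)ᵀ * Φ * (g.1 * h.1) = Φ
    rw [map_mulR, transpose_mul]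
    calc _ = (h.1.map s)ᵀ * ((g.1.map s)ᵀ * Φ * g.1) * h.1 := by simp only [Matrix.mul_assoc]
      _ = Φ := by rw [hg]; exact hh
  inv_mem' := by
    intro g hg
    change ((g⁻¹).1.map s)ᵀ * Φ * (g⁻¹).1 = Φ
    have h1 : ((g⁻¹).1.map s)ᵀ * (g.1.map s)ᵀ = 1 := by
      rw [← transpose_mul, ← map_mulR, gl_mul_inv, map_oneR, transpose_one]
    have hg' : (g.1.map s)ᵀ * Φ * g.1 = Φ := hg
    calc ((g⁻¹).1.map s)ᵀ * Φ * (g⁻¹).1 =
          ((g⁻¹).1.map s)ᵀ * ((g.1.map s)ᵀ * Φ * g.1) * (g⁻¹).1 := by rw [hg']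
      _ = (((g⁻¹).1.map s)ᵀ * (g.1.map s)ᵀ) * Φ * (g.1 * (g⁻¹).1) := by
          simp only [Matrix.mul_assoc]
      _ = Φ := by rw [h1, gl_mul_inv, Matrix.one_mul, Matrix.mul_one]

theorem mem_UG {g : GL l F} : g ∈ UG s Φ ↔ (g.1.map s)ᵀ * Φ * g.1 = Φ := Iff.rfl

/-- The special unitary group of a form. -/
def SG : Subgroup (GL l F) where
  carrier := {g | g ∈ UG s Φ ∧ g.1.det = 1}
  one_mem' := ⟨one_mem _, by
    change (1 : Matrix l l F).det = 1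
    rw [det_one]⟩
  mul_mem' := by
    rintro g h ⟨hg, hg'⟩ ⟨hh, hh'⟩
    refine ⟨mul_mem hg hh, ?_⟩
    change (g.1 * h.1).det = 1
    rw [det_mul, hg', hh', one_mul]
  inv_mem' := by
    rintro g ⟨hg, hg'⟩
    refine ⟨inv_mem hg, ?_⟩
    have h1 : (g.1 * (g⁻¹).1).det = 1 := by rw [gl_mul_inv, det_one]
    rw [det_mul, hg', one_mul] at h1
    exact h1

theorem mem_SG {g : GL l F} : g ∈ SG s Φ ↔ g ∈ UG s Φ ∧ g.1.det = 1 := Iff.rfl

/-- The projective special unitary group. -/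
abbrev PSG := SG s Φ ⧸ Subgroup.center (SG s Φ)

/-- The projection. -/
def mk : SG s Φ →* PSG s Φ := QuotientGroup.mk' _

theorem mk_surj : Function.Surjective (mk s Φ) := QuotientGroup.mk'_surjective _

/-- Every automorphism is a semilinear conjugation. -/
def AutP : Prop := ∀ α : PSG s Φ ≃* PSG s Φ, ∃ M ∈ UG s Φ, ∃ σ : F ≃+* F,
  ∀ A B : SG s Φ, B.1.1 = M.1 * A.1.1.map σ * (M⁻¹).1 → α (mk s Φ A) = mk s Φ B

/-- Rigidity. -/
def RigP : Prop := ∀ M ∈ UG s Φ, ∀ h : SG s Φ, ∀ σ : F ≃+* F,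
  (∀ A B : SG s Φ, B.1.1 = M.1 * A.1.1.map σ * (M⁻¹).1 →
    mk s Φ B = mk s Φ (h * A * h⁻¹)) → σ = RingEquiv.refl F ∧ ∃ k : F, M.1 = k • h.1.1

variable {s Φ}

/-- Semilinear conjugation preserves the unitary group. -/
theorem conj_mem_UG {M : GL l F} (hM : M ∈ UG s Φ) {σ : F ≃+* F} (hσ : ∀ x, σ (s x) = s (σ x))
    (hΦ : Φ.map σ = Φ) {g : GL l F} (hg : g ∈ UG s Φ) : M * glMap σ g * M⁻¹ ∈ UG s Φ := by
  refine mul_mem (mul_mem hM ?_) (inv_mem hM)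
  rw [mem_UG] at hg ⊢
  rw [glMap_coe]
  have h1 : ((g.1.map σ).map s) = (g.1.map s).map σ := by
    ext i j
    exact (hσ _).symm
  rw [h1]
  have h2 : (((g.1.map s).map σ))ᵀ = ((g.1.map s)ᵀ).map σ := rfl
  rw [h2]
  conv_lhs => rw [← hΦ]
  rw [← map_mul', ← map_mul', hg, hΦ]

theorem det_map (σ : F ≃+* F) (A : Matrix l l F) : (A.map σ).det = σ A.det :=
  ((σ : F →+* F).map_det A).symm

theorem conj_mem_SG {M : GL l F} (hM : M ∈ UG s Φ) {σ : F ≃+* F} (hσ : ∀ x, σ (s x) = s (σ x))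
    (hΦ : Φ.map σ = Φ) {g : GL l F} (hg : g ∈ SG s Φ) : M * glMap σ g * M⁻¹ ∈ SG s Φ := by
  refine ⟨conj_mem_UG hM hσ hΦ hg.1, ?_⟩
  change (M.1 * g.1.map σ * (M⁻¹).1).det = 1
  rw [det_mul, det_mul, det_map, hg.2, map_one, mul_one, ← det_mul, gl_mul_inv, det_one]

section transport

variable {Ψ : Matrix l l F} {P : GL l F} (hP : (P.1.map s)ᵀ * Φ * P.1 = Ψ)

include hP in
theorem mem_UG_conj {g : GL l F} : P⁻¹ * g * P ∈ UG s Ψ ↔ g ∈ UG s Φ := by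
  rw [mem_UG, mem_UG]
  have h1 : ((P⁻¹).1.map s)ᵀ * (P.1.map s)ᵀ = 1 := by
    rw [← transpose_mul, ← map_mulR, gl_mul_inv, map_oneR, transpose_one]
  have h1' : (P.1.map s)ᵀ * ((P⁻¹).1.map s)ᵀ = 1 := by
    rw [← transpose_mul, ← map_mulR, gl_inv_mul, map_oneR, transpose_one]
  have hΨ : ((P⁻¹).1.map s)ᵀ * Ψ * (P⁻¹).1 = Φ := by
    rw [← hP]
    calc _ = (((P⁻¹).1.map s)ᵀ * (P.1.map s)ᵀ) * Φ * (P.1 * (P⁻¹).1) := by
          simp only [Matrix.mul_assoc]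
      _ = Φ := by rw [h1, gl_mul_inv, Matrix.one_mul, Matrix.mul_one]
  have key : (((P⁻¹ * g * P : GL l F)).1.map s)ᵀ * Ψ * (P⁻¹ * g * P : GL l F).1 =
      (P.1.map s)ᵀ * ((g.1.map s)ᵀ * Φ * g.1) * P.1 := by
    change (((P⁻¹).1 * g.1 * P.1).map s)ᵀ * Ψ * ((P⁻¹).1 * g.1 * P.1) = _
    rw [map_mulR, map_mulR, transpose_mul, transpose_mul]
    calc _ = (P.1.map s)ᵀ * ((g.1.map s)ᵀ * (((P⁻¹).1.map s)ᵀ * Ψ * (P⁻¹).1) * g.1) * P.1 := by
          simp only [Matrix.mul_assoc]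
      _ = _ := by rw [hΨ]
  rw [key]
  constructor
  · intro h
    calc (g.1.map s)ᵀ * Φ * g.1 = (((P⁻¹).1.map s)ᵀ * (P.1.map s)ᵀ) *
          ((g.1.map s)ᵀ * Φ * g.1) * (P.1 * (P⁻¹).1) := by
          rw [h1, gl_mul_inv, Matrix.one_mul, Matrix.mul_one]
      _ = ((P⁻¹).1.map s)ᵀ * ((P.1.map s)ᵀ * ((g.1.map s)ᵀ * Φ * g.1) * P.1) * (P⁻¹).1 := by
          simp only [Matrix.mul_assoc]
      _ = Φ := by rw [h, hΨ]
  · intro h
    rw [h, hP]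

include hP in
theorem mem_SG_conj {g : GL l F} : P⁻¹ * g * P ∈ SG s Ψ ↔ g ∈ SG s Φ := by
  rw [mem_SG, mem_SG, mem_UG_conj hP]
  have h1 : (P⁻¹ * g * P : GL l F).1.det = g.1.det := by
    change ((P⁻¹).1 * g.1 * P.1).det = g.1.det
    rw [det_mul, det_mul, mul_comm (P⁻¹).1.det, mul_assoc, ← det_mul, gl_inv_mul, det_one, mul_one]
  rw [h1]

/-- Change of the form. -/
def tr : SG s Φ ≃* SG s Ψ where
  toFun g := ⟨P⁻¹ * g.1 * P, (mem_SG_conj hP).mpr g.2⟩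
  invFun g := ⟨P * g.1 * P⁻¹, by
    rw [← mem_SG_conj hP]
    have : P⁻¹ * (P * g.1 * P⁻¹) * P = g.1 := by group
    rw [this]
    exact g.2⟩
  left_inv g := Subtype.ext (by
    change P * (P⁻¹ * g.1 * P) * P⁻¹ = g.1
    group)
  right_inv g := Subtype.ext (by
    change P⁻¹ * (P * g.1 * P⁻¹) * P = g.1
    group)
  map_mul' g h := Subtype.ext (by
    change P⁻¹ * (g.1 * h.1) * P = P⁻¹ * g.1 * P * (P⁻¹ * h.1 * P)
    group)

theorem tr_coe (g : SG s Φ) : (tr hP g).1 = P⁻¹ * g.1 * P := rfl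

theorem tr_symm_coe (g : SG s Ψ) : ((tr hP).symm g).1 = P * g.1 * P⁻¹ := rfl

/-- Change of the form for the projective groups. -/
def ptr : PSG s Φ ≃* PSG s Ψ := QuotientGroup.congr _ _ (tr hP) (by
  ext x
  rw [Subgroup.mem_map, Subgroup.mem_center_iff]
  constructor
  · rintro ⟨y, hy, rfl⟩ g
    have hy' := Subgroup.mem_center_iff.mp hy ((tr hP).symm g)
    change g * tr hP y = tr hP y * g
    have h1 := congrArg (tr hP) hy'
    rw [map_mul, map_mul, MulEquiv.apply_symm_apply] at h1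
    exact h1
  · intro hx
    refine ⟨(tr hP).symm x, ?_, MulEquiv.apply_symm_apply (tr hP) x⟩
    rw [Subgroup.mem_center_iff]
    intro g
    apply (tr hP).injective
    rw [map_mul, map_mul, MulEquiv.apply_symm_apply]
    exact hx (tr hP g))

theorem ptr_mk (g : SG s Φ) : ptr hP (mk s Φ g) = mk s Ψ (tr hP g) := rfl

theorem ptr_symm_mk (g : SG s Ψ) : (ptr hP).symm (mk s Ψ g) = mk s Φ ((tr hP).symm g) := by
  apply (ptr hP).injective
  rw [MulEquiv.apply_symm_apply, ptr_mk, MulEquiv.apply_symm_apply]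

/-- The conjugating matrix. -/
theorem coe_conj (M : GL l F) (σ : F ≃+* F) (A : GL l F) :
    (M * glMap σ A * M⁻¹).1 = M.1 * A.1.map σ * (M⁻¹).1 := rfl

theorem eq_conj {M A B : GL l F} {σ : F ≃+* F} :
    B.1 = M.1 * A.1.map σ * (M⁻¹).1 ↔ B = M * glMap σ A * M⁻¹ := by
  rw [← coe_conj]
  exact ⟨fun h => Units.ext h, fun h => congrArg Units.val h⟩

include hP in
theorem trans_mem {M : GL l F} (hM : M ∈ UG s Φ) {σ : F ≃+* F} (hσ : ∀ x, σ (s x) = s (σ x))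
    (hΦ : Φ.map σ = Φ) (hΨ : Ψ.map σ = Ψ) : P⁻¹ * M * glMap σ P ∈ UG s Ψ := by
  rw [mem_UG]
  have hM' : (M.1.map s)ᵀ * Φ * M.1 = Φ := hM
  have hc : (P.1.map σ).map s = (P.1.map s).map σ := by
    ext i j
    exact (hσ _).symm
  have h1 : ((P⁻¹).1.map s)ᵀ * (P.1.map s)ᵀ = 1 := by
    rw [← transpose_mul, ← map_mulR, gl_mul_inv, map_oneR, transpose_one]
  have hΨ' : ((P⁻¹).1.map s)ᵀ * Ψ * (P⁻¹).1 = Φ := by
    rw [← hP]
    calc _ = (((P⁻¹).1.map s)ᵀ * (P.1.map s)ᵀ) * Φ * (P.1 * (P⁻¹).1) := by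
          simp only [Matrix.mul_assoc]
      _ = Φ := by rw [h1, gl_mul_inv, Matrix.one_mul, Matrix.mul_one]
  change (((P⁻¹).1 * M.1 * P.1.map σ).map s)ᵀ * Ψ * ((P⁻¹).1 * M.1 * P.1.map σ) = Ψ
  rw [map_mulR, map_mulR, transpose_mul, transpose_mul, hc]
  have h2 : (((P.1.map s).map σ))ᵀ = ((P.1.map s)ᵀ).map σ := rfl
  rw [h2]
  calc _ = ((P.1.map s)ᵀ).map σ * ((M.1.map s)ᵀ * (((P⁻¹).1.map s)ᵀ * Ψ * (P⁻¹).1) * M.1) *
        P.1.map σ := by simp only [Matrix.mul_assoc]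
    _ = ((P.1.map s)ᵀ).map σ * Φ.map σ * P.1.map σ := by rw [hΨ', hM', hΦ]
    _ = Ψ := by rw [← map_mul', ← map_mul', hP, hΨ]

include hP in
theorem AutP.trans (h : AutP s Φ) (hσ : ∀ (σ : F ≃+* F) x, σ (s x) = s (σ x))
    (hΦ : ∀ σ : F ≃+* F, Φ.map σ = Φ) (hΨ : ∀ σ : F ≃+* F, Ψ.map σ = Ψ) : AutP s Ψ := by
  intro α
  obtain ⟨M, hM, σ, h1⟩ := h (((ptr hP).trans α).trans (ptr hP).symm)
  refine ⟨P⁻¹ * M * glMap σ P, trans_mem hP hM (hσ σ) (hΦ σ) (hΨ σ), σ, ?_⟩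
  intro A B hB
  rw [eq_conj] at hB
  have h2 := h1 ((tr hP).symm A) ((tr hP).symm B) (by
    rw [eq_conj, tr_symm_coe, tr_symm_coe, hB, map_mul, map_mul, map_inv]
    group)
  rw [MulEquiv.trans_apply, MulEquiv.trans_apply, ptr_mk, MulEquiv.apply_symm_apply,
    ← ptr_symm_mk] at h2
  exact (ptr hP).symm.injective h2

include hP in
theorem RigP.trans (h : RigP s Φ) (hσ : ∀ (σ : F ≃+* F) x, σ (s x) = s (σ x))
    (hΦ : ∀ σ : F ≃+* F, Φ.map σ = Φ) (hΨ : ∀ σ : F ≃+* F, Ψ.map σ = Ψ) : RigP s Ψ := by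
  intro M hM g σ h1
  have hP' : ((P⁻¹).1.map s)ᵀ * Ψ * (P⁻¹).1 = Φ := by
    have h2 : ((P⁻¹).1.map s)ᵀ * (P.1.map s)ᵀ = 1 := by
      rw [← transpose_mul, ← map_mulR, gl_mul_inv, map_oneR, transpose_one]
    rw [← hP]
    calc _ = (((P⁻¹).1.map s)ᵀ * (P.1.map s)ᵀ) * Φ * (P.1 * (P⁻¹).1) := by
          simp only [Matrix.mul_assoc]
      _ = Φ := by rw [h2, gl_mul_inv, Matrix.one_mul, Matrix.mul_one]
  have hM' : P * M * glMap σ P⁻¹ ∈ UG s Φ := by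
    have := trans_mem hP' hM (hσ σ) (hΨ σ) (hΦ σ)
    rwa [inv_inv] at this
  obtain ⟨h3, k, h4⟩ := h (P * M * glMap σ P⁻¹) hM' ((tr hP).symm g) σ (by
    intro A B hB
    rw [eq_conj] at hB
    have h5 := h1 (tr hP A) (tr hP B) (by
      rw [eq_conj, tr_coe, tr_coe, hB, map_mul, map_mul, map_inv]
      group)
    apply (ptr hP).injective
    rw [ptr_mk, ptr_mk, h5]
    congr 1
    rw [map_mul (tr hP), map_mul (tr hP), map_inv (tr hP), MulEquiv.apply_symm_apply])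
  refine ⟨h3, k, ?_⟩
  subst h3
  have h5 : glMap (RingEquiv.refl F) P⁻¹ = P⁻¹ := Units.ext rfl
  rw [h5, tr_symm_coe] at h4
  have h6 : P.1 * M.1 * (P⁻¹).1 = k • (P.1 * g.1.1 * (P⁻¹).1) := h4
  calc M.1 = (P⁻¹).1 * (P.1 * M.1 * (P⁻¹).1) * P.1 := by
        calc M.1 = ((P⁻¹).1 * P.1) * M.1 * ((P⁻¹).1 * P.1) := by
              rw [gl_inv_mul, Matrix.one_mul, Matrix.mul_one]
          _ = _ := by simp only [Matrix.mul_assoc]
    _ = k • ((P⁻¹).1 * (P.1 * g.1.1 * (P⁻¹).1) * P.1) := by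
        rw [h6, Matrix.mul_smul, Matrix.smul_mul]
    _ = k • (((P⁻¹).1 * P.1) * g.1.1 * ((P⁻¹).1 * P.1)) := by simp only [Matrix.mul_assoc]
    _ = k • g.1.1 := by rw [gl_inv_mul, Matrix.one_mul, Matrix.mul_one]

end transport

end MP7fY
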