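import Pool.Agent.Lib.MP_7f581e_ntL.W2
import Pool.Agent.Lib.MP_7f581e_ntL.Y1
import Pool.Agent.Lib.MP_7f581e_ntG.Mu

/-!
The complement of `PSU(n + 1, F)` in its automorphism group.
-/

set_option autoImplicit false
set_option linter.unusedSectionVars false

universe u

namespace MP7fY

open Matrix MP7fW MP7fG

section norm

variable {F : Type*} [Field F] (s : F →+* F)

/-- The elements of norm one. -/
def MU : Subgroup Fˣ where
  carrier := {a | s (a : F) * a = 1}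
  one_mem' := by
    change s ((1 : Fˣ) : F) * ((1 : Fˣ) : F) = 1
    rw [Units.val_one, map_one, one_mul]
  mul_mem' := by
    intro a b ha hb
    have ha' : s (a : F) * a = 1 := ha
    have hb' : s (b : F) * b = 1 := hb
    change s ((a * b : Fˣ) : F) * ((a * b : Fˣ) : F) = 1
    rw [Units.val_mul, map_mul]
    calc s (a : F) * s (b : F) * ((a : F) * b) = (s (a : F) * a) * (s (b : F) * b) := by ring
      _ = 1 := by rw [ha', hb', one_mul]
  inv_mem' := by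
    intro a ha
    have ha' : s (a : F) * a = 1 := ha
    change s ((a⁻¹ : Fˣ) : F) * ((a⁻¹ : Fˣ) : F) = 1
    rw [Units.val_inv_eq_inv_val, map_inv₀, ← mul_inv, ha', inv_one]

theorem mem_MU {a : Fˣ} : a ∈ MU s ↔ s (a : F) * a = 1 := Iff.rfl

end norm

section diag

variable {F : Type*} [Field F] {s : F →+* F} {n : ℕ}

theorem mem_U1 {l : Type*} [Fintype l] [DecidableEq l] {g : GL l F} :
    g ∈ UG s (1 : Matrix l l F) ↔ (g.1.map s)ᵀ * g.1 = 1 := by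
  rw [mem_UG, Matrix.mul_one]

theorem dgl_mem {a : Fˣ} (ha : a ∈ MU s) :
    dgl (n + 1) F a ∈ UG s (1 : Matrix (Fin (n + 1)) (Fin (n + 1)) F) := by
  rw [mem_U1, dgl_coe, diagonal_map (map_zero s), diagonal_transpose, diagonal_mul_diagonal,
    ← diagonal_one]
  congr 1
  funext i
  unfold dvec
  split_ifs
  · exact ha
  · rw [map_one, one_mul]

/-- Scalars of unitary matrices. -/
theorem scal_mem {g h : GL (Fin (n + 1)) F}
    (hg : g ∈ UG s (1 : Matrix (Fin (n + 1)) (Fin (n + 1)) F))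
    (hh : h ∈ UG s (1 : Matrix (Fin (n + 1)) (Fin (n + 1)) F)) {k : F} (hk : g.1 = k • h.1) :
    s k * k = 1 := by
  rw [mem_U1] at hg hh
  have h1 : (k • h.1).map s = s k • h.1.map s := by
    ext i j
    exact map_mul s _ _
  rw [hk, h1, transpose_smul, Matrix.smul_mul, Matrix.mul_smul, hh, smul_smul] at hg
  have h2 := congrFun (congrFun hg 0) 0
  rw [Matrix.smul_apply, Matrix.one_apply_eq, smul_eq_mul, mul_one] at h2
  exact h2

theorem det_MU {g : GL (Fin (n + 1)) F}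
    (hg : g ∈ UG s (1 : Matrix (Fin (n + 1)) (Fin (n + 1)) F)) :
    s g.1.det * g.1.det = 1 := by
  rw [mem_U1] at hg
  have h1 := congrArg Matrix.det hg
  rw [det_mul, det_transpose, det_one] at h1
  have h2 : (g.1.map s).det = s g.1.det := (s.map_det g.1).symm
  rw [h2] at h1
  exact h1

variable (s n)

/-- The diagonal group. -/
def DG : Subgroup (GL (Fin (n + 1)) F) where
  carrier := {g | ∃ a ∈ MU s, a ^ (Nat.gcd (n + 1) (Nat.card (MU s))) = 1 ∧ g = dgl (n + 1) F a}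
  one_mem' := ⟨1, one_mem _, one_pow _, (map_one _).symm⟩
  mul_mem' := by
    rintro _ _ ⟨a, ha, ha', rfl⟩ ⟨b, hb, hb', rfl⟩
    exact ⟨a * b, mul_mem ha hb, by rw [mul_pow, ha', hb', one_mul], (map_mul _ _ _).symm⟩
  inv_mem' := by
    rintro _ ⟨a, ha, ha', rfl⟩
    exact ⟨a⁻¹, inv_mem ha, by rw [inv_pow, ha', inv_one], (map_inv _ _).symm⟩

variable {s n}

theorem DG_le {g : GL (Fin (n + 1)) F} (hg : g ∈ DG s n) :
    g ∈ UG s (1 : Matrix (Fin (n + 1)) (Fin (n + 1)) F) := by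
  obtain ⟨a, ha, -, rfl⟩ := hg
  exact dgl_mem ha

theorem DG_map (hσ : ∀ (σ : F ≃+* F) x, σ (s x) = s (σ x)) (σ : F ≃+* F) :
    ∀ g ∈ DG s n, glMap σ g ∈ DG s n := by
  rintro _ ⟨a, ha, ha', rfl⟩
  refine ⟨Units.map (σ : F →* F) a, ?_, ?_, ?_⟩
  · rw [mem_MU] at ha ⊢
    change s (σ (a : F)) * σ (a : F) = 1
    rw [← hσ, ← map_mul, ha, map_one]
  · rw [← map_pow, ha', map_one]
  · apply Units.ext
    rw [glMap_coe, dgl_map]

/-- Decomposition. -/
theorem dec [Finite F] (hd : DiagCond (n + 1) (Nat.card (MU s))) {M : GL (Fin (n + 1)) F}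
    (hM : M ∈ UG s (1 : Matrix (Fin (n + 1)) (Fin (n + 1)) F)) :
    ∃ h ∈ SG s (1 : Matrix (Fin (n + 1)) (Fin (n + 1)) F), ∃ c : F, c ≠ 0 ∧ ∃ x ∈ DG s n,
      M.1 = c • (h.1 * x.1) := by
  have hδ := det_MU hM
  have hδ0 : M.1.det ≠ 0 := by
    intro h0
    rw [h0, mul_zero] at hδ
    exact zero_ne_one hδ
  let δ : MU s := ⟨Units.mk0 M.1.det hδ0, hδ⟩
  obtain ⟨a, b, ha, hab⟩ := mu_dec hd δ
  have ha' : (a : Fˣ) ^ (Nat.gcd (n + 1) (Nat.card (MU s))) = 1 := congrArg Subtype.val ha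
  have hab' : M.1.det = ((a : Fˣ) : F) * ((b : Fˣ) : F) ^ (n + 1) := by
    have h1 := congrArg (fun z : MU s => ((z : Fˣ) : F)) hab
    exact h1
  set x := dgl (n + 1) F (a : Fˣ) with hx
  have hxD : x ∈ DG s n := ⟨a, a.2, ha', rfl⟩
  let β : GL (Fin (n + 1)) F := ⟨((b : Fˣ) : F) • 1, ((b : Fˣ) : F)⁻¹ • 1, by
    rw [Matrix.smul_mul, Matrix.mul_smul, smul_smul, mul_inv_cancel₀ (b : Fˣ).ne_zero, one_smul,
      Matrix.mul_one], by
    rw [Matrix.smul_mul, Matrix.mul_smul, smul_smul, inv_mul_cancel₀ (b : Fˣ).ne_zero, one_smul,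
      Matrix.mul_one]⟩
  have hβ : β ∈ UG s (1 : Matrix (Fin (n + 1)) (Fin (n + 1)) F) := by
    rw [mem_U1]
    change ((((b : Fˣ) : F) • (1 : Matrix (Fin (n + 1)) (Fin (n + 1)) F)).map s)ᵀ *
      (((b : Fˣ) : F) • 1) = 1
    have h1 : (((b : Fˣ) : F) • (1 : Matrix (Fin (n + 1)) (Fin (n + 1)) F)).map s =
        s ((b : Fˣ) : F) • 1 := by
      ext i j
      rw [Matrix.map_apply, Matrix.smul_apply, Matrix.smul_apply, smul_eq_mul, smul_eq_mul,
        map_mul, Matrix.one_apply]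
      split_ifs
      · rw [map_one]
      · rw [map_zero]
    rw [h1, transpose_smul, transpose_one, Matrix.smul_mul, Matrix.one_mul, smul_smul]
    have h2 : s ((b : Fˣ) : F) * ((b : Fˣ) : F) = 1 := b.2
    rw [h2, one_smul]
  have hβ1 : β.1 = ((b : Fˣ) : F) • 1 := rfl
  have hβd : β.1.det = ((b : Fˣ) : F) ^ (n + 1) := by
    rw [hβ1, det_smul, det_one, mul_one, Fintype.card_fin]
  refine ⟨β⁻¹ * M * x⁻¹, ⟨mul_mem (mul_mem (inv_mem hβ) hM) (inv_mem (DG_le hxD)), ?_⟩,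
    ((b : Fˣ) : F), (b : Fˣ).ne_zero, x, hxD, ?_⟩
  · have h1 : β.1.det * (β⁻¹ * M * x⁻¹).1.det * x.1.det = M.1.det := by
      rw [← det_mul, ← det_mul]
      congr 1
      change (β * (β⁻¹ * M * x⁻¹) * x).1 = M.1
      congr 1
      group
    rw [hβd, dgl_det, hab'] at h1
    have h2 : ((a : Fˣ) : F) ≠ 0 := (a : Fˣ).ne_zero
    have h3 : ((b : Fˣ) : F) ^ (n + 1) ≠ 0 := pow_ne_zero _ (b : Fˣ).ne_zero
    have h4 : ((a : Fˣ) : F) * ((b : Fˣ) : F) ^ (n + 1) * (β⁻¹ * M * x⁻¹).1.det =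
        ((a : Fˣ) : F) * ((b : Fˣ) : F) ^ (n + 1) * 1 := by
      linear_combination h1
    exact mul_left_cancel₀ (mul_ne_zero h2 h3) h4
  · have h1 : M = β * ((β⁻¹ * M * x⁻¹) * x) := by group
    conv_lhs => rw [h1]
    change β.1 * ((β⁻¹ * M * x⁻¹).1 * x.1) = _
    rw [hβ1, Matrix.smul_mul, Matrix.one_mul]

/-- Scalars. -/
theorem scal [Finite F] (hd : DiagCond (n + 1) (Nat.card (MU s))) {x h : GL (Fin (n + 1)) F}
    (hx : x ∈ DG s n) (hh : h ∈ SG s (1 : Matrix (Fin (n + 1)) (Fin (n + 1)) F)) {k : F}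
    (hk : x.1 = k • h.1) : x.1 = (1 : F) • (1 : Matrix (Fin (n + 1)) (Fin (n + 1)) F) := by
  have h1 := scal_mem (DG_le hx) hh.1 hk
  have hk0 : k ≠ 0 := by
    rintro rfl
    rw [mul_zero] at h1
    exact zero_ne_one h1
  obtain ⟨a, ha, ha', rfl⟩ := hx
  have h2 : (a : F) = k ^ (n + 1) := by
    rw [← dgl_det (n := n + 1) a, hk, det_smul, hh.2, mul_one, Fintype.card_fin]
  let a' : MU s := ⟨a, ha⟩
  let k' : MU s := ⟨Units.mk0 k hk0, h1⟩
  have h3 : a' = 1 := by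
    apply mu_disj hd (a := a') (b := k') (Subtype.ext ha')
    apply Subtype.ext
    apply Units.ext
    exact h2
  have h4 : a = 1 := congrArg Subtype.val h3
  rw [h4, map_one, one_smul]
  rfl

end diag

section cpl

variable {F : Type*} [Field F] {s : F →+* F} {n : ℕ}
  (hσ : ∀ (σ : F ≃+* F) x, σ (s x) = s (σ x))

variable (s n) in
/-- The special unitary group of the standard form. -/
abbrev S1 : Subgroup (GL (Fin (n + 1)) F) := SG s (1 : Matrix (Fin (n + 1)) (Fin (n + 1)) F)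

variable (s n) in
/-- The inclusion. -/
def incU : S1 s n →* Matrix (Fin (n + 1)) (Fin (n + 1)) F :=
  (Units.coeHom _).comp (S1 s n).subtype

theorem incU_apply (h : S1 s n) : incU s n h = h.1.1 := rfl

theorem incU_inj : Function.Injective (incU s n) := fun _ _ h => Subtype.ext (Units.ext h)

/-- The complement. -/
abbrev AU : Subgroup (RingAut (Matrix (Fin (n + 1)) (Fin (n + 1)) F)) :=
  AD (DG s n) (DG_map hσ)

theorem one_map (σ : F ≃+* F) : (1 : Matrix (Fin (n + 1)) (Fin (n + 1)) F).map σ = 1 :=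
  MP7fW.map_one' σ

theorem hexU (x : AU (s := s) (n := n) hσ) (h : S1 s n) :
    ∃ h', incU s n h' = (AU hσ).subtype x (incU s n h) := by
  obtain ⟨R, g, hg, σ, rfl⟩ := x
  exact ⟨⟨_, conj_mem_SG (DG_le hg) (hσ σ) (one_map σ) h.2⟩, rfl⟩

/-- The action on `PSU`. -/
noncomputable abbrev cU : AU (s := s) (n := n) hσ →*
    MulAut (PSG s (1 : Matrix (Fin (n + 1)) (Fin (n + 1)) F)) :=
  cQ (incU s n) incU_inj (AU hσ).subtype (hexU hσ)

theorem cU_mk (g : GL (Fin (n + 1)) F) (hg : g ∈ DG s n) (σ : F ≃+* F) (A B : S1 s n)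
    (hB : B.1.1 = g.1 * A.1.1.map σ * (g⁻¹).1) :
    cU hσ ⟨cjR g σ, g, hg, σ, rfl⟩ (mk s 1 A) = mk s 1 B :=
  cQ_mk' _ _ _ _ _ hB

/-- The complement property. -/
theorem cpl_psu [Finite F] (hd : DiagCond (n + 1) (Nat.card (MU s)))
    (hA : AutP s (1 : Matrix (Fin (n + 1)) (Fin (n + 1)) F))
    (hR : RigP s (1 : Matrix (Fin (n + 1)) (Fin (n + 1)) F)) : Cpl (cU (s := s) (n := n) hσ) := by
  refine ⟨?_, ?_⟩
  · rintro ⟨R, g, hg, σ, rfl⟩ z hz
    obtain ⟨h, rfl⟩ := mk_surj s 1 z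
    obtain ⟨rfl, k, hk⟩ := hR g (DG_le hg) h σ (by
      intro A B hB
      rw [← cU_mk hσ g hg σ A B hB, hz, map_mul, map_mul, map_inv])
    have hs := scal hd hg h.2 hk
    apply Subtype.ext
    exact cjR_scalar hs
  · intro φ
    obtain ⟨M, hM, σ, hφ⟩ := hA φ
    obtain ⟨h, hh, c, hc, x, hx, hMx⟩ := dec hd hM
    refine ⟨mk s 1 ⟨h, hh⟩, ⟨cjR x σ, x, hx, σ, rfl⟩, ?_⟩
    intro t
    obtain ⟨A, rfl⟩ := mk_surj s 1 t
    set B : S1 s n := ⟨_, conj_mem_SG (DG_le hx) (hσ σ) (one_map σ) A.2⟩ with hB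
    have hB' : B.1.1 = x.1 * A.1.1.map σ * (x⁻¹).1 := rfl
    rw [cU_mk hσ x hx σ A B hB', ← map_inv, ← map_mul, ← map_mul]
    apply hφ
    change h.1 * B.1.1 * (h⁻¹).1 = _
    rw [hB']
    have h4 : (M⁻¹).1 = c⁻¹ • ((x⁻¹).1 * (h⁻¹).1) := by
      have h5 : M.1 * (c⁻¹ • ((x⁻¹).1 * (h⁻¹).1)) = 1 := by
        rw [hMx, Matrix.smul_mul, Matrix.mul_smul, smul_smul, mul_inv_cancel₀ hc, one_smul]
        calc h.1 * x.1 * ((x⁻¹).1 * (h⁻¹).1) = h.1 * (x.1 * (x⁻¹).1) * (h⁻¹).1 := by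
              simp only [Matrix.mul_assoc]
          _ = 1 := by rw [gl_mul_inv, Matrix.mul_one, gl_mul_inv]
      calc (M⁻¹).1 = (M⁻¹).1 * (M.1 * (c⁻¹ • ((x⁻¹).1 * (h⁻¹).1))) := by
            rw [h5, Matrix.mul_one]
        _ = ((M⁻¹).1 * M.1) * (c⁻¹ • ((x⁻¹).1 * (h⁻¹).1)) := by rw [Matrix.mul_assoc]
        _ = _ := by rw [gl_inv_mul, Matrix.one_mul]
    rw [h4, hMx, Matrix.smul_mul, Matrix.smul_mul, Matrix.mul_smul, smul_smul,
      mul_inv_cancel₀ hc, one_smul]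
    simp only [Matrix.mul_assoc]

end cpl

end MP7fY
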