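import Pool.Agent.Lib.MP_7f581e_ntL.V11
import Pool.Agent.Lib.MP_7f581e_ntL.Y2

/-!
Embedding problems with kernel a power of `PSU(n + 1, F)`.
-/

set_option autoImplicit false
set_option linter.unusedSectionVars false

universe u

namespace MP7fY

open Matrix MP7fW MP7fG MP7fE MP7fU MP7fR MP7fV

section inv

variable {F : Type*} [Field F] {s : F →+* F} {n : ℕ}

/-- Semilinear conjugations by unitary matrices commute with the conjugate transpose. -/
theorem cjR_ct {g : GL (Fin (n + 1)) F} (hg : g ∈ UG s (1 : Matrix (Fin (n + 1)) (Fin (n + 1)) F))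
    (σ : F ≃+* F) (hσ : ∀ x, σ (s x) = s (σ x)) (b : Matrix (Fin (n + 1)) (Fin (n + 1)) F) :
    cjR g σ ((b.map s)ᵀ) = ((cjR g σ b).map s)ᵀ := by
  rw [mem_U1] at hg
  have h1 : (g.1.map s)ᵀ = (g⁻¹).1 := by
    calc (g.1.map s)ᵀ = (g.1.map s)ᵀ * g.1 * (g⁻¹).1 := by
          rw [Matrix.mul_assoc, gl_mul_inv, Matrix.mul_one]
      _ = (g⁻¹).1 := by rw [hg, Matrix.one_mul]
  have h2 : ((g⁻¹).1.map s)ᵀ = g.1 := by
    have h3 : (g.1.map s)ᵀ * ((g⁻¹).1.map s)ᵀ = 1 := by
      rw [← transpose_mul, ← map_mulR, gl_inv_mul, map_oneR, transpose_one]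
    calc ((g⁻¹).1.map s)ᵀ = g.1 * ((g⁻¹).1 * ((g⁻¹).1.map s)ᵀ) := by
          rw [← Matrix.mul_assoc, gl_mul_inv, Matrix.one_mul]
      _ = g.1 := by
          have h5 : (g⁻¹).1 * ((g⁻¹).1.map s)ᵀ = 1 := by
            conv_lhs => rw [← h1]
            rw [← h3, h1]
          rw [h5, Matrix.mul_one]
  rw [cjR_apply, cjR_apply, map_mulR, map_mulR, transpose_mul, transpose_mul, h1, h2]
  have h4 : ((b.map s)ᵀ).map σ = ((b.map σ).map s)ᵀ := by
    ext i j
    exact hσ _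
  rw [h4, ← Matrix.mul_assoc]

theorem dgl_conj (a : Fˣ) : (dgl (n + 1) F a).1 *
    Matrix.diagonal (Pi.single 0 1) * ((dgl (n + 1) F a)⁻¹).1 =
      Matrix.diagonal (Pi.single 0 (1 : F)) := by
  rw [← map_inv, dgl_coe, dgl_coe, diagonal_mul_diagonal, diagonal_mul_diagonal]
  congr 1
  funext i
  by_cases hi : i = 0
  · subst hi
    rw [Pi.single_eq_same, mul_one, dvec_zero, dvec_zero]
    exact a.mul_inv
  · rw [Pi.single_eq_of_ne hi, mul_zero, zero_mul]

end inv

section solve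

variable {p n : ℕ} [Fact p.Prime] {F : Type} [Field F] [Finite F] [Algebra (ZMod p) F]
  (κ : Type) [Finite κ] (s : F →+* F) (hs : ∀ x, s (s x) = x)

/-- Families of unitary matrices. -/
noncomputable def lU : SU (unDD p n F κ s hs) →* (κ → S1 s n) where
  toFun u k := ⟨⟨((((u : (unInv p (n + 1) F κ s hs).U) : (FM (n + 1) F κ)ˣ)) :
      FM (n + 1) F κ) k, ((((u : (unInv p (n + 1) F κ s hs).U) : (FM (n + 1) F κ)ˣ)⁻¹ :
        (FM (n + 1) F κ)ˣ) : FM (n + 1) F κ) k, by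
      exact congrFun ((u : (unInv p (n + 1) F κ s hs).U) : (FM (n + 1) F κ)ˣ).mul_inv k, by
      exact congrFun ((u : (unInv p (n + 1) F κ s hs).U) : (FM (n + 1) F κ)ˣ).inv_mul k⟩, by
    refine ⟨?_, (mem_SU_unDD p n F κ s hs u.1).mp u.2 k⟩
    rw [mem_U1]
    exact congrFun ((AInv.mem_U _).mp u.1.2) k⟩
  map_one' := by
    funext k
    apply Subtype.ext
    apply Units.ext
    rfl
  map_mul' u v := by
    funext k
    apply Subtype.ext
    apply Units.ext
    rfl

theorem lU_coe (u : SU (unDD p n F κ s hs)) : (fun k => incU s n (lU κ s hs u k)) =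
    ((((u : (unInv p (n + 1) F κ s hs).U) : (FM (n + 1) F κ)ˣ)) : FM (n + 1) F κ) := rfl

theorem lU_surj : Function.Surjective (lU (p := p) (n := n) κ s hs) := by
  intro h
  let u : (FM (n + 1) F κ)ˣ := ⟨fun k => (h k).1.1, fun k => ((h k).1⁻¹).1, by
    funext k
    exact gl_mul_inv (h k).1, by
    funext k
    exact gl_inv_mul (h k).1⟩
  have hu : u ∈ (unInv p (n + 1) F κ s hs).U := by
    rw [AInv.mem_U]
    funext k
    exact mem_U1.mp (h k).2.1
  refine ⟨⟨⟨u, hu⟩, (mem_SU_unDD p n F κ s hs ⟨u, hu⟩).mpr fun k => (h k).2.2⟩, ?_⟩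
  funext k
  apply Subtype.ext
  apply Units.ext
  rfl

include hs in
/-- Embedding problems with kernel a power of `PSU(n + 1, F)` over rational function fields,
the form being the standard one. -/
theorem solvesOver_of_psu1 [CharP F p] (hne : s ≠ RingHom.id F)
    (hσ : ∀ (σ : F ≃+* F) x, σ (s x) = s (σ x))
    (hd : DiagCond (n + 1) (Nat.card (MU s)))
    (hA : AutP s (1 : Matrix (Fin (n + 1)) (Fin (n + 1)) F))
    (hR : RigP s (1 : Matrix (Fin (n + 1)) (Fin (n + 1)) F))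
    [IsSimpleGroup (PSG s (1 : Matrix (Fin (n + 1)) (Fin (n + 1)) F))]
    (hz : Subgroup.center (PSG s (1 : Matrix (Fin (n + 1)) (Fin (n + 1)) F)) = ⊥)
    {E : Type} [Group E] [Finite E] (N : Subgroup E) [N.Normal]
    (θ : N ≃* (κ → PSG s (1 : Matrix (Fin (n + 1)) (Fin (n + 1)) F)))
    {K : Type u} [Field K] [CharP K p] :
    ∃ r : ℕ, SolvesOver K (FractionRing (MvPolynomial (Fin r) K)) (QuotientGroup.mk' N) := by
  have hc := cpl_psu (n := n) hσ hd hA hR
  let ρ : E0 N θ (cU hσ) →* (FM (n + 1) F κ ≃+* FM (n + 1) F κ) :=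
    MP7fW.rhoW N θ hc (AU hσ).subtype
  have hρ : ∀ e b, ρ e ((unInv p (n + 1) F κ s hs).j b) = (unInv p (n + 1) F κ s hs).j (ρ e b) := by
    intro e b
    funext i
    obtain ⟨k, rfl⟩ := (MP7fW.pE N θ (cU hσ) e).surjective i
    rw [unInv_j]
    change MP7fW.rhoW N θ hc (AU hσ).subtype e _ (MP7fW.pE N θ (cU hσ) e k) =
      ((MP7fW.rhoW N θ hc (AU hσ).subtype e b (MP7fW.pE N θ (cU hσ) e k)).map s)ᵀ
    rw [MP7fW.rhoW_apply, MP7fW.rhoW_apply, unInv_j]
    obtain ⟨g, hg, σ, hR⟩ := (MP7fW.xE N θ (cU hσ) e k).2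
    change (MP7fW.xE N θ (cU hσ) e k).1 _ = (((MP7fW.xE N θ (cU hσ) e k).1 (b k)).map s)ᵀ
    rw [hR]
    exact cjR_ct (DG_le hg) σ (hσ σ) (b k)
  have hD : ∀ e, ∃ σ : (κ → F) →+* (κ → F), (unDD p n F κ s hs).Compat
      (ρ e : FM (n + 1) F κ →+* FM (n + 1) F κ) σ := by
    intro e
    choose g hg σ hR using fun k => (MP7fW.xE N θ (cU hσ) e k).2
    refine compat_unDD p n F κ s hs _ (MP7fW.pE N θ (cU hσ) e) (fun k => (σ k : F →+* F))
      (fun k => (g k).1) (fun k => ((g k)⁻¹).1) (fun k => gl_mul_inv (g k)) ?_ ?_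
    · intro k
      obtain ⟨a, -, -, ha⟩ := hg k
      rw [ha]
      exact dgl_conj a
    · intro z k
      change MP7fW.rhoW N θ hc (AU hσ).subtype e z (MP7fW.pE N θ (cU hσ) e k) = _
      rw [MP7fW.rhoW_apply]
      change (MP7fW.xE N θ (cU hσ) e k).1 (z k) = _
      rw [hR k]
      rfl
  obtain ⟨r, hr⟩ := lang_su_field (n := n) (κ := κ) (p := p) hs hne (K := K) ρ hρ hD
  refine ⟨r, solvesOver_of_class (incU s n) incU_inj (AU hσ).subtype (hexU hσ) hc hz N θ
    (lU κ s hs) (lU_surj κ s hs) _ ?_ hr⟩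
  intro e v
  rw [lU_coe, lU_coe]
  exact coe_suact' _ _ _ _ e v

end solve

section frob

variable {p m n : ℕ} [Fact p.Prime] {F : Type} [Field F] [CharP F p]

/-- The involution. -/
noncomputable def sF (p m : ℕ) [Fact p.Prime] (F : Type) [Field F] [CharP F p] : F →+* F :=
  iterateFrobenius F p m

theorem sF_apply (x : F) : sF p m F x = x ^ p ^ m := iterateFrobenius_def p m x

theorem sF_sF [Finite F] (hcard : Nat.card F = p ^ (2 * m)) (x : F) :
    sF p m F (sF p m F x) = x := by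
  have := Fintype.ofFinite F
  rw [sF_apply, sF_apply, ← pow_mul, ← pow_add, ← two_mul, ← hcard, Nat.card_eq_fintype_card]
  exact FiniteField.pow_card x

theorem sF_ne [Finite F] (hm : 0 < m) (hcard : Nat.card F = p ^ (2 * m)) :
    sF p m F ≠ RingHom.id F := by
  have := Fintype.ofFinite F
  intro h
  obtain ⟨g, hg⟩ := IsCyclic.exists_generator (α := Fˣ)
  have h1 : orderOf g = p ^ (2 * m) - 1 := by
    rw [orderOf_eq_card_of_forall_mem_zpowers hg, Nat.card_units, hcard]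
  have hp : 1 < p := (Fact.out : p.Prime).one_lt
  have h2 : (g : F) ^ p ^ m = g := by
    rw [← sF_apply (p := p) (m := m), h]
    rfl
  have h3 : g ^ (p ^ m - 1) = 1 := by
    have h4 : g ^ (p ^ m - 1) * g = 1 * g := by
      rw [← pow_succ, Nat.sub_add_cancel (Nat.one_le_pow _ _ (by omega)), one_mul]
      exact Units.ext h2
    exact mul_right_cancel h4
  have h5 := orderOf_dvd_of_pow_eq_one h3
  rw [h1] at h5
  have h6 : 1 < p ^ m := Nat.one_lt_pow (by omega) hp
  have h7 : p ^ m < p ^ (2 * m) := Nat.pow_lt_pow_right hp (by omega)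
  have h8 := Nat.le_of_dvd (by omega) h5
  omega

theorem sF_comm (σ : F ≃+* F) (x : F) : σ (sF p m F x) = sF p m F (σ x) := by
  rw [sF_apply, sF_apply, map_pow]

/-- The order of the group of elements of norm one. -/
theorem card_MU [Finite F] (hm : 0 < m) (hcard : Nat.card F = p ^ (2 * m)) :
    Nat.card (MU (sF p m F)) = p ^ m + 1 := by
  have := Fintype.ofFinite F
  have hp : 1 < p := (Fact.out : p.Prime).one_lt
  have h1 : MU (sF p m F) = (powMonoidHom (p ^ m + 1) : Fˣ →* Fˣ).ker := by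
    ext a
    rw [mem_MU, MonoidHom.mem_ker, sF_apply, powMonoidHom_apply, ← pow_succ, ← Units.val_pow_eq_pow_val,
      Units.val_eq_one]
  have h6 : 1 < p ^ m := Nat.one_lt_pow (by omega) hp
  have h2 : Nat.card Fˣ = (p ^ m + 1) * (p ^ m - 1) := by
    rw [Nat.card_units, hcard, two_mul, pow_add, ← Nat.mul_self_sub_mul_self_eq (p ^ m) 1, one_mul]
  rw [h1, IsCyclic.card_powMonoidHom_ker, h2]
  exact Nat.gcd_eq_right (Dvd.intro _ rfl)

end frob

end MP7fY
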