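import Pool.Agent.Lib.MP_7f581e_ntE.SpecialMv
import Pool.Agent.Lib.MP_7f581e_ntL.Y3

/-!
Hermitian forms over finite fields, and embedding problems with kernel a power of a projective
special unitary group.
-/

set_option autoImplicit false
set_option linter.unusedSectionVars false

universe u

namespace MP7fY

open Matrix MP7fW MP7fG MP7fE MP7fU MP7fR MP7fV

section herm

variable {F : Type*} [Field F] (s : F →+* F)

/-- Non-isotropic vectors. -/
theorem exists_nonisotropic {l : Type*} [Fintype l] [DecidableEq l] [Nonempty l]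
    {Φ : Matrix l l F} (hΦ : (Φ.map s)ᵀ = Φ) (hdet : Φ.det ≠ 0)
    (hs : ∀ x, s (s x) = x) {c : F} (hc : c + s c = 1) :
    ∃ v : l → F, (fun i => s (v i)) ⬝ᵥ (Φ *ᵥ v) ≠ 0 := by
  by_contra hcon
  push Not at hcon
  have hH : ∀ x y : l → F, (fun i => s (y i)) ⬝ᵥ (Φ *ᵥ x) = s ((fun i => s (x i)) ⬝ᵥ (Φ *ᵥ y)) := by
    intro x y
    simp only [dotProduct, mulVec, Finset.mul_sum, map_sum, map_mul, hs]
    rw [Finset.sum_comm]
    refine Finset.sum_congr rfl fun i _ => Finset.sum_congr rfl fun j _ => ?_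
    have h1 : s (Φ i j) = Φ j i := by
      conv_rhs => rw [← hΦ]
      rfl
    rw [h1]
    ring
  have h1 : ∀ x y : l → F, (fun i => s (x i)) ⬝ᵥ (Φ *ᵥ y) +
      s ((fun i => s (x i)) ⬝ᵥ (Φ *ᵥ y)) = 0 := by
    intro x y
    have h2 := hcon (x + y)
    have h3 : (fun i => s ((x + y) i)) = (fun i => s (x i)) + fun i => s (y i) := by
      funext i
      exact map_add s _ _
    rw [h3, mulVec_add, dotProduct_add, add_dotProduct, add_dotProduct, hcon x, hcon y, add_zero,
      zero_add, hH x y, add_comm] at h2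
    exact h2
  obtain ⟨j⟩ := (inferInstance : Nonempty l)
  have h2 : ∃ i, (Φ *ᵥ (Pi.single j 1 : l → F)) i ≠ 0 := by
    by_contra hcon2
    push Not at hcon2
    apply hdet
    apply Matrix.exists_mulVec_eq_zero_iff.mp
    refine ⟨Pi.single j 1, ?_, funext hcon2⟩
    intro h0
    have h3 := congrFun h0 j
    rw [Pi.single_eq_same] at h3
    exact one_ne_zero h3
  obtain ⟨i, hi⟩ := h2
  set w := Φ *ᵥ (Pi.single j 1 : l → F)
  have h3 := h1 (Pi.single i (s (c / w i))) (Pi.single j 1)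
  have h4 : (fun k => s ((Pi.single i (s (c / w i)) : l → F) k)) = Pi.single i (c / w i) := by
    funext k
    by_cases hk : k = i
    · subst hk
      rw [Pi.single_eq_same, Pi.single_eq_same, hs]
    · rw [Pi.single_eq_of_ne hk, Pi.single_eq_of_ne hk, map_zero]
  have h5 : (Pi.single i (c / w i) : l → F) ⬝ᵥ w = c := by
    rw [single_dotProduct, div_mul_cancel₀ _ hi]
  rw [h4] at h3
  change (Pi.single i (c / w i) : l → F) ⬝ᵥ w + s ((Pi.single i (c / w i) : l → F) ⬝ᵥ w) = 0 at h3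
  rw [h5, hc] at h3
  exact one_ne_zero h3

/-- Invertible matrices with a given column. -/
theorem exists_col {l : Type*} [Fintype l] [DecidableEq l] (a : l) {v : l → F} (hv : v ≠ 0) :
    ∃ P : Matrix l l F, P.det ≠ 0 ∧ P *ᵥ Pi.single a 1 = v := by
  obtain ⟨j, hj⟩ : ∃ j, v j ≠ 0 := by
    by_contra hcon
    push Not at hcon
    exact hv (funext hcon)
  refine ⟨(1 : Matrix l l F).updateCol j v * (Equiv.swap a j).permMatrix F, ?_, ?_⟩
  · rw [det_mul, det_permutation]
    have h1 : ((1 : Matrix l l F).updateCol j v).det = v j := by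
      rw [← cramer_apply, cramer_one]
      rfl
    rw [h1]
    refine mul_ne_zero hj ?_
    rcases Int.units_eq_one_or (Equiv.Perm.sign (Equiv.swap a j)) with h | h
    · rw [h, Units.val_one, Int.cast_one]
      exact one_ne_zero
    · rw [h, Units.val_neg, Units.val_one, Int.cast_neg, Int.cast_one]
      exact neg_ne_zero.mpr one_ne_zero
  · rw [← mulVec_mulVec]
    have h1 : (Equiv.swap a j).permMatrix F *ᵥ (Pi.single a 1 : l → F) = Pi.single j 1 := by
      rw [permMatrix_mulVec]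
      funext k
      rw [Function.comp_apply, Pi.single_apply, Pi.single_apply]
      congr 1
      rw [Equiv.swap_apply_eq_iff, Equiv.swap_apply_left]
    rw [h1, mulVec_single_one]
    funext i
    exact Matrix.updateCol_self

/-- **Hermitian forms over finite fields are standard.** -/
theorem exists_form (hs : ∀ x, s (s x) = x) {c : F} (hc : c + s c = 1)
    (hN : ∀ t : F, s t = t → ∃ a, s a * a = t) (n : ℕ) :
    ∀ (l : Type) [Fintype l] [DecidableEq l], Fintype.card l = n → ∀ Φ : Matrix l l F,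
      (Φ.map s)ᵀ = Φ → Φ.det ≠ 0 → ∃ Q : Matrix l l F, (Q.map s)ᵀ * Q = Φ := by
  induction n with
  | zero =>
    intro l _ _ hl Φ _ _
    have : IsEmpty l := Fintype.card_eq_zero_iff.mp hl
    refine ⟨1, ?_⟩
    ext i
    exact isEmptyElim i
  | succ n ih =>
    intro l _ _ hl Φ hΦ hdet
    have hne : Nonempty l := Fintype.card_pos_iff.mp (by omega)
    let e : l ≃ Unit ⊕ Fin n := Fintype.equivOfCardEq (by
      rw [hl, Fintype.card_sum, Fintype.card_unit, Fintype.card_fin, add_comm])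
    obtain ⟨v0, hv0⟩ := exists_nonisotropic s hΦ hdet hs hc
    set t := (fun i => s (v0 i)) ⬝ᵥ (Φ *ᵥ v0) with ht
    have hst : s t = t := by
      rw [ht]
      simp only [dotProduct, mulVec, Finset.mul_sum, map_sum, map_mul, hs]
      rw [Finset.sum_comm]
      refine Finset.sum_congr rfl fun i _ => Finset.sum_congr rfl fun j _ => ?_
      have h1 : s (Φ j i) = Φ i j := by
        conv_rhs => rw [← hΦ]
        rfl
      rw [h1]
      ring
    obtain ⟨a, ha⟩ := hN t⁻¹ (by rw [map_inv₀, hst])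
    have hv : (fun i => s ((a • v0) i)) ⬝ᵥ (Φ *ᵥ (a • v0)) = 1 := by
      have h1 : (fun i => s ((a • v0) i)) = s a • fun i => s (v0 i) := by
        funext i
        exact map_mul s _ _
      rw [h1, mulVec_smul, smul_dotProduct, dotProduct_smul, smul_eq_mul, smul_eq_mul, ← mul_assoc,
        ha, inv_mul_cancel₀ hv0]
    have hvne : a • v0 ≠ 0 := by
      intro h0
      rw [h0, mulVec_zero, dotProduct_zero] at hv
      exact zero_ne_one hv
    obtain ⟨P, hP, hPv⟩ := exists_col (e.symm (Sum.inl ())) hvne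
    have hPdet : IsUnit P.det := isUnit_iff_ne_zero.mpr hP
    set Ψ : Matrix (Unit ⊕ Fin n) (Unit ⊕ Fin n) F := ((P.map s)ᵀ * Φ * P).submatrix e.symm e.symm
      with hΨ
    have hΨH : (Ψ.map s)ᵀ = Ψ := by
      have h1 : (((P.map s)ᵀ * Φ * P).map s)ᵀ = (P.map s)ᵀ * Φ * P := by
        rw [map_mulR, map_mulR, transpose_mul, transpose_mul, hΦ]
        have h2 : (((P.map s)ᵀ).map s)ᵀ = P := by
          ext i j
          exact hs _
        rw [h2, Matrix.mul_assoc]
      ext i j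
      exact congrFun (congrFun h1 (e.symm i)) (e.symm j)
    have hΨdet : Ψ.det ≠ 0 := by
      rw [hΨ, det_submatrix_equiv_self, det_mul, det_mul, det_transpose]
      have h2 : (P.map s).det = s P.det := (s.map_det P).symm
      rw [h2]
      exact mul_ne_zero (mul_ne_zero ((map_ne_zero s).mpr hP) hdet) hP
    have h11 : Ψ.toBlocks₁₁ = 1 := by
      ext i j
      rw [Subsingleton.elim i (), Subsingleton.elim j (), Matrix.one_apply_eq]
      change ((P.map s)ᵀ * Φ * P) (e.symm (Sum.inl ())) (e.symm (Sum.inl ())) = 1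
      rw [← hv, ← hPv, mulVec_mulVec]
      set o := e.symm (Sum.inl ())
      have h1 : (fun i => s ((P *ᵥ Pi.single o 1) i)) = fun i => (P.map s) i o := by
        funext i
        rw [mulVec_single_one]
        rfl
      rw [h1, mulVec_single_one, Matrix.mul_assoc]
      rfl
    set B := Ψ.toBlocks₁₂ with hB
    have h21 : Ψ.toBlocks₂₁ = (B.map s)ᵀ := by
      ext i j
      exact (congrFun (congrFun hΨH (Sum.inr i)) (Sum.inl j)).symm
    have hblk : Ψ = fromBlocks 1 B (B.map s)ᵀ Ψ.toBlocks₂₂ := by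
      rw [← h11, ← h21, fromBlocks_toBlocks]
    have hDH : ((Ψ.toBlocks₂₂ - (B.map s)ᵀ * B).map s)ᵀ = Ψ.toBlocks₂₂ - (B.map s)ᵀ * B := by
      have h2 : (Ψ.toBlocks₂₂.map s)ᵀ = Ψ.toBlocks₂₂ := by
        ext i j
        exact congrFun (congrFun hΨH (Sum.inr i)) (Sum.inr j)
      have h3 : (((B.map s)ᵀ * B).map s)ᵀ = (B.map s)ᵀ * B := by
        have h4 : ((B.map s)ᵀ * B).map s = ((B.map s)ᵀ).map s * B.map s := Matrix.map_mul
        rw [h4, transpose_mul]
        have h5 : (((B.map s)ᵀ).map s)ᵀ = B := by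
          ext i j
          exact hs _
        rw [h5]
      have h6 : (Ψ.toBlocks₂₂ - (B.map s)ᵀ * B).map s = Ψ.toBlocks₂₂.map s -
          ((B.map s)ᵀ * B).map s := by
        ext i j
        exact map_sub s _ _
      rw [h6, transpose_sub, h2, h3]
    have hDdet : (Ψ.toBlocks₂₂ - (B.map s)ᵀ * B).det ≠ 0 := by
      rw [hblk, det_fromBlocks_one₁₁] at hΨdet
      exact hΨdet
    obtain ⟨Q, hQ⟩ := ih (Fin n) (Fintype.card_fin n) _ hDH hDdet
    have hQ1 : ((fromBlocks 1 B 0 Q : Matrix (Unit ⊕ Fin n) (Unit ⊕ Fin n) F).map s)ᵀ *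
        fromBlocks 1 B 0 Q = Ψ := by
      rw [fromBlocks_map, fromBlocks_transpose, fromBlocks_multiply, hQ]
      conv_rhs => rw [hblk]
      have h7 : ((1 : Matrix Unit Unit F).map s)ᵀ = 1 := by
        rw [map_oneR, transpose_one]
      have h8 : ((0 : Matrix (Fin n) Unit F).map s)ᵀ = 0 := by
        rw [Matrix.map_zero s (map_zero s), transpose_zero]
      rw [h7, h8]
      congr 1
      · rw [Matrix.one_mul, Matrix.zero_mul, add_zero]
      · rw [Matrix.one_mul, Matrix.zero_mul, add_zero]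
      · rw [Matrix.mul_one, Matrix.mul_zero, add_zero]
      · rw [add_sub_cancel]
    refine ⟨((fromBlocks 1 B 0 Q : Matrix (Unit ⊕ Fin n) (Unit ⊕ Fin n) F).submatrix e e) * P⁻¹, ?_⟩
    set Q1 := (fromBlocks 1 B 0 Q : Matrix (Unit ⊕ Fin n) (Unit ⊕ Fin n) F)
    have hQ2 : ((Q1.submatrix e e).map s)ᵀ * Q1.submatrix e e = (P.map s)ᵀ * Φ * P := by
      have h1 : ((Q1.submatrix e e).map s)ᵀ = ((Q1.map s)ᵀ).submatrix e e := rfl
      rw [h1, submatrix_mul_equiv, hQ1, hΨ, submatrix_submatrix, Equiv.symm_comp_self,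
        submatrix_id_id]
    have hPP : P * P⁻¹ = 1 := Matrix.mul_nonsing_inv P hPdet
    rw [map_mulR, transpose_mul]
    have h9 : ((P⁻¹).map s)ᵀ * (P.map s)ᵀ = 1 := by
      rw [← transpose_mul, ← map_mulR, hPP, map_oneR, transpose_one]
    calc ((P⁻¹).map s)ᵀ * ((Q1.submatrix e e).map s)ᵀ * (Q1.submatrix e e * P⁻¹) =
        ((P⁻¹).map s)ᵀ * (((Q1.submatrix e e).map s)ᵀ * Q1.submatrix e e) * P⁻¹ := by
          simp only [Matrix.mul_assoc]
      _ = (((P⁻¹).map s)ᵀ * (P.map s)ᵀ) * Φ * (P * P⁻¹) := by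
          rw [hQ2]
          simp only [Matrix.mul_assoc]
      _ = Φ := by rw [h9, hPP, Matrix.one_mul, Matrix.mul_one]

/-- Every nondegenerate Hermitian form is equivalent to the standard one. -/
theorem exists_P (hs : ∀ x, s (s x) = x) {c : F} (hc : c + s c = 1)
    (hN : ∀ t : F, s t = t → ∃ a, s a * a = t) {l : Type} [Fintype l] [DecidableEq l]
    {Φ : Matrix l l F} (hΦ : (Φ.map s)ᵀ = Φ) (hdet : Φ.det ≠ 0) :
    ∃ P : GL l F, (P.1.map s)ᵀ * Φ * P.1 = 1 := by
  obtain ⟨Q, hQ⟩ := exists_form s hs hc hN _ l rfl Φ hΦ hdet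
  have hQd : IsUnit Q.det := by
    rw [isUnit_iff_ne_zero]
    intro h0
    apply hdet
    rw [← hQ, det_mul, h0, mul_zero]
  have h1 : Q * Q⁻¹ = 1 := Matrix.mul_nonsing_inv Q hQd
  have h2 : Q⁻¹ * Q = 1 := Matrix.nonsing_inv_mul Q hQd
  refine ⟨⟨Q⁻¹, Q, h2, h1⟩, ?_⟩
  change ((Q⁻¹).map s)ᵀ * Φ * Q⁻¹ = 1
  have h3 : ((Q⁻¹).map s)ᵀ * (Q.map s)ᵀ = 1 := by
    rw [← transpose_mul, ← map_mulR, h1, map_oneR, transpose_one]
  rw [← hQ]
  calc ((Q⁻¹).map s)ᵀ * ((Q.map s)ᵀ * Q) * Q⁻¹ = (((Q⁻¹).map s)ᵀ * (Q.map s)ᵀ) * (Q * Q⁻¹) := by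
        simp only [Matrix.mul_assoc]
    _ = 1 := by rw [h3, h1, Matrix.one_mul]

end herm

section final

variable {p m n : ℕ} [Fact p.Prime] {F : Type} [Field F] [CharP F p] [Finite F]

/-- Norms are surjective over finite fields. -/
theorem norm_surj (hm : 0 < m) (hcard : Nat.card F = p ^ (2 * m)) (t : F)
    (ht : sF p m F t = t) : ∃ a, sF p m F a * a = t := by
  have := Fintype.ofFinite F
  by_cases h0 : t = 0
  · exact ⟨0, by rw [h0, mul_zero]⟩
  have hp : 1 < p := (Fact.out : p.Prime).one_lt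
  have h6 : 1 < p ^ m := Nat.one_lt_pow (by omega) hp
  have h2 : Nat.card Fˣ = (p ^ m + 1) * (p ^ m - 1) := by
    rw [Nat.card_units, hcard, two_mul, pow_add, ← Nat.mul_self_sub_mul_self_eq (p ^ m) 1, one_mul]
  have hle : (powMonoidHom (p ^ m + 1) : Fˣ →* Fˣ).range ≤
      (powMonoidHom (p ^ m - 1) : Fˣ →* Fˣ).ker := by
    rintro _ ⟨a, rfl⟩
    rw [MonoidHom.mem_ker, powMonoidHom_apply, powMonoidHom_apply, ← pow_mul, ← h2]
    exact pow_card_eq_one'
  have hcd : Nat.card (powMonoidHom (p ^ m - 1) : Fˣ →* Fˣ).ker ≤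
      Nat.card (powMonoidHom (p ^ m + 1) : Fˣ →* Fˣ).range := by
    rw [IsCyclic.card_powMonoidHom_ker, IsCyclic.card_powMonoidHom_range, h2,
      Nat.gcd_eq_right (Dvd.intro _ rfl), Nat.gcd_eq_right (Dvd.intro_left _ rfl),
      Nat.mul_div_cancel_left _ (by omega)]
  have heq := Subgroup.eq_of_le_of_card_ge hle hcd
  have hmem : Units.mk0 t h0 ∈ (powMonoidHom (p ^ m - 1) : Fˣ →* Fˣ).ker := by
    rw [MonoidHom.mem_ker, powMonoidHom_apply]
    have h4 : (Units.mk0 t h0) ^ (p ^ m - 1) * Units.mk0 t h0 = 1 * Units.mk0 t h0 := by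
      rw [← pow_succ, Nat.sub_add_cancel (by omega), one_mul]
      apply Units.ext
      rw [sF_apply] at ht
      exact ht
    exact mul_right_cancel h4
  rw [← heq] at hmem
  obtain ⟨a, ha⟩ := hmem
  refine ⟨a, ?_⟩
  have h5 := congrArg Units.val ha
  rw [powMonoidHom_apply, Units.val_pow_eq_pow_val, pow_succ, Units.val_mk0] at h5
  rw [sF_apply]
  exact h5

/-- The final hypotheses on the group `PSU` of a form. -/
theorem solvesOver_of_psu_kernel (hm : 0 < m) (hcard : Nat.card F = p ^ (2 * m))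
    (hd : DiagCond (n + 1) (p ^ m + 1)) {Φ : Matrix (Fin (n + 1)) (Fin (n + 1)) F}
    (hH : (Φ.map (sF p m F))ᵀ = Φ) (hdet : Φ.det ≠ 0) (hΦ : ∀ σ : F ≃+* F, Φ.map σ = Φ)
    (hA : AutP (sF p m F) Φ) (hR : RigP (sF p m F) Φ)
    [IsSimpleGroup (PSG (sF p m F) Φ)]
    (hz : ∃ a b : PSG (sF p m F) Φ, a * b ≠ b * a) {κ : Type} [Finite κ]
    {E : Type} [Group E] [Finite E] (N : Subgroup E) [N.Normal]
    (θ : N ≃* (κ → PSG (sF p m F) Φ)) {K : Type u} [Field K] [CharP K p] :
    ∃ r : ℕ, SolvesOver K (FractionRing (MvPolynomial (Fin r) K)) (QuotientGroup.mk' N) := by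
  let _ : Algebra (ZMod p) F := ZMod.algebra F p
  have hs := sF_sF (p := p) (m := m) hcard
  have hne := sF_ne (p := p) hm hcard
  obtain ⟨c, hc⟩ := exists_c0 (sF p m F) hs hne
  obtain ⟨P, hP⟩ := exists_P (sF p m F) hs hc (norm_surj hm hcard) hH hdet
  have hA1 := hA.trans hP sF_comm hΦ one_map
  have hR1 := hR.trans hP sF_comm hΦ one_map
  have hs1 : IsSimpleGroup (PSG (sF p m F) (1 : Matrix (Fin (n + 1)) (Fin (n + 1)) F)) :=
    (ptr hP).symm.isSimpleGroup
  have hz1 : Subgroup.center (PSG (sF p m F) (1 : Matrix (Fin (n + 1)) (Fin (n + 1)) F)) = ⊥ := by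
    obtain ⟨a, b, hab⟩ := hz
    apply center_eq_bot (a := ptr hP a) (b := ptr hP b)
    intro h
    apply hab
    apply (ptr hP).injective
    rw [map_mul, map_mul, h]
  have hd' : DiagCond (n + 1) (Nat.card (MU (sF p m F))) := by
    rw [card_MU hm hcard]
    exact hd
  exact solvesOver_of_psu1 κ (sF p m F) hs hne sF_comm hd' hA1 hR1 hz1 N
    (θ.trans (MulEquiv.piCongrRight fun _ => ptr hP))

/-- Embedding problems with kernel a power of `PSU(n + 1, F)` over Hilbertian fields. -/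
theorem solves_of_psu_kernel (hm : 0 < m) (hcard : Nat.card F = p ^ (2 * m))
    (hd : DiagCond (n + 1) (p ^ m + 1)) {Φ : Matrix (Fin (n + 1)) (Fin (n + 1)) F}
    (hH : (Φ.map (sF p m F))ᵀ = Φ) (hdet : Φ.det ≠ 0) (hΦ : ∀ σ : F ≃+* F, Φ.map σ = Φ)
    (hA : AutP (sF p m F) Φ) (hR : RigP (sF p m F) Φ)
    [IsSimpleGroup (PSG (sF p m F) Φ)]
    (hz : ∃ a b : PSG (sF p m F) Φ, a * b ≠ b * a) {κ : Type} [Finite κ]
    {E : Type} [Group E] [Finite E] (N : Subgroup E) [N.Normal]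
    (θ : N ≃* (κ → PSG (sF p m F) Φ)) {K : Type u} [Field K] [CharP K p]
    (hK : MP7fR.IsHilbertian K) : Solves K (QuotientGroup.mk' N) := by
  obtain ⟨r, hr⟩ := solvesOver_of_psu_kernel hm hcard hd hH hdet hΦ hA hR hz N θ (K := K)
  exact solves_of_mv hK _ _ hr

end final

end MP7fY
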