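import Pool.Agent.Lib.MP_7f581e_ntL.U3

/-!
Unitary generic Lang torsor, part 11: the rings of 2 x 2 matrices with the adjugate.
-/

set_option autoImplicit false
set_option linter.unusedSectionVars false

universe u v

namespace MP7fU

open TensorProduct MP7fS Matrix

/-- Products of matrix rings. -/
abbrev BM (k : ℕ) (F : Type) [Field F] : Type := Fin k → Matrix (Fin 2) (Fin 2) F

section

variable (p : ℕ) [Fact p.Prime] (k : ℕ) (F : Type) [Field F] [Algebra (ZMod p) F]

/-- The adjugate as an anti-involution. -/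
def adjInv : AInv p (BM k F) where
  j :=
    { toFun := fun x i => (x i).adjugate
      map_add' := by
        intro x y
        funext i
        ext a b
        fin_cases a <;> fin_cases b <;> simp [Matrix.adjugate_fin_two, add_comm]
      map_smul' := by
        intro r x
        funext i
        ext a b
        fin_cases a <;> fin_cases b <;> simp [Matrix.adjugate_fin_two] }
  one := by
    funext i
    exact Matrix.adjugate_one
  mul a b := by
    funext i
    exact Matrix.adjugate_mul_distrib _ _
  inv a := by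
    funext i
    change ((a i).adjugate).adjugate = a i
    ext x y
    fin_cases x <;> fin_cases y <;> simp [Matrix.adjugate_fin_two]

theorem adjInv_j (x : BM k F) (i : Fin k) : (adjInv p k F).j x i = (x i).adjugate := rfl

theorem mem_adjU {p k F} [Fact p.Prime] [Field F] [Finite F] [Algebra (ZMod p) F]
    {g : (BM k F)ˣ} :
    g ∈ (adjInv p k F).U ↔ ∀ i, ((g : BM k F) i).det = 1 := by
  rw [AInv.mem_U]
  constructor
  · intro h i
    have h1 := congrFun h i
    have h2 : ((g : BM k F) i).adjugate * (g : BM k F) i = 1 := h1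
    rw [Matrix.adjugate_mul] at h2
    have h3 := congrFun (congrFun h2 0) 0
    simpa using h3
  · intro h
    funext i
    change ((g : BM k F) i).adjugate * (g : BM k F) i = 1
    rw [Matrix.adjugate_mul, h i, one_smul]

end

/-- Elements outside a small field. -/
theorem exists_good_t (R : Type*) [Field R] [Infinite R] (q : ℕ) (hq : 1 < q) :
    ∃ t : R, ∀ s : Fin 4 → R, (∀ j, s j ^ q = s j) → s ≠ 0 → ∑ j, s j * t ^ (j : ℕ) ≠ 0 := by
  classical
  have hne : (Polynomial.X ^ q - Polynomial.X : Polynomial R) ≠ 0 :=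
    FiniteField.X_pow_card_sub_X_ne_zero R hq
  let S : Set R := {x | x ^ q = x}
  have hS : S.Finite := by
    refine ((Polynomial.X ^ q - Polynomial.X : Polynomial R).roots.toFinset.finite_toSet).subset ?_
    intro x hx
    have hx' : x ^ q = x := hx
    rw [Finset.mem_coe, Multiset.mem_toFinset, Polynomial.mem_roots hne]
    simp [Polynomial.IsRoot, hx']
  let T : Set (Fin 4 → R) := Set.univ.pi fun _ => S
  have hT : T.Finite := Set.Finite.pi fun _ => hS
  let P : (Fin 4 → R) → Polynomial R := fun s => ∑ j, Polynomial.C (s j) * Polynomial.X ^ (j : ℕ)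
  have hPc : ∀ s (j : Fin 4), (P s).coeff (j : ℕ) = s j := by
    intro s j
    simp only [P, Polynomial.finsetSum_coeff, Polynomial.coeff_C_mul_X_pow]
    rw [Finset.sum_eq_single j]
    · rw [if_pos rfl]
    · intro l _ hl
      rw [if_neg]
      intro h
      exact hl (Fin.ext h.symm)
    · intro h
      exact absurd (Finset.mem_univ j) h
  have hbad : (⋃ s ∈ T, {t : R | P s ≠ 0 ∧ (P s).eval t = 0}).Finite := by
    refine hT.biUnion fun s _ => ?_
    by_cases h0 : P s = 0
    · refine (Set.finite_empty).subset ?_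
      rintro t ⟨h1, _⟩
      exact absurd h0 h1
    · refine ((P s).roots.toFinset.finite_toSet).subset ?_
      rintro t ⟨_, h1⟩
      rw [Finset.mem_coe, Multiset.mem_toFinset, Polynomial.mem_roots h0]
      exact h1
  obtain ⟨t, ht⟩ := hbad.exists_notMem
  refine ⟨t, fun s hs hs0 h0 => ht ?_⟩
  refine Set.mem_biUnion (x := s) ?_ ⟨?_, ?_⟩
  · intro j _
    exact hs j
  · intro h1
    apply hs0
    ext j
    rw [← hPc s j, h1, Polynomial.coeff_zero]
    rfl
  · rw [← h0]
    simp [P, Polynomial.eval_finsetSum]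

section unit

variable {p : ℕ} [Fact p.Prime] {Z : Type} [CommRing Z] [Finite Z] [Algebra (ZMod p) Z]

/-- A criterion for units of `R ⊗ Z`, `Z` finite and commutative, `R` algebraically closed. -/
theorem isUnit_comm {R : Type} [Field R] [IsAlgClosed R] [Algebra (ZMod p) R] (x : R ⊗[ZMod p] Z)
    (h : ∀ f : R ⊗[ZMod p] Z →ₐ[R] R, f x ≠ 0) : IsUnit x := by
  by_contra hx
  obtain ⟨m, hm, hxm⟩ := exists_max_ideal_of_mem_nonunits hx
  let _ : Field ((R ⊗[ZMod p] Z) ⧸ m) := Ideal.Quotient.field m
  have hZ : Module.Finite (ZMod p) Z := Module.Finite.of_finite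
  have hfin : Module.Finite R (R ⊗[ZMod p] Z) := inferInstance
  have hfin2 : Module.Finite R ((R ⊗[ZMod p] Z) ⧸ m) := inferInstance
  have hint : Algebra.IsIntegral R ((R ⊗[ZMod p] Z) ⧸ m) := inferInstance
  have hb := IsAlgClosed.algebraMap_bijective_of_isIntegral (k := R) (K := (R ⊗[ZMod p] Z) ⧸ m)
  let e := (AlgEquiv.ofBijective (Algebra.ofId R ((R ⊗[ZMod p] Z) ⧸ m)) hb).symm
  apply h (e.toAlgHom.comp (Ideal.Quotient.mkₐ R m))
  rw [AlgHom.comp_apply]
  have h1 : Ideal.Quotient.mkₐ R m x = 0 := by
    rw [Ideal.Quotient.mkₐ_eq_mk]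
    exact Ideal.Quotient.eq_zero_iff_mem.mpr hxm
  rw [h1, map_zero]

end unit

end MP7fU
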