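import Pool.Agent.Lib.MP_7f581e_ntL.U10
import Pool.Agent.Lib.MP_7f581e_ntL.U11

/-!
Unitary generic Lang torsor, part 12: the adjugate is good; special linear groups.
-/

set_option autoImplicit false
set_option linter.unusedSectionVars false

universe u v

namespace MP7fU

open TensorProduct MP7fS MP7fR Matrix

theorem isUnit_left_of_mul {p : ℕ} [Fact p.Prime] {B : Type} [Ring B] [Finite B]
    [Algebra (ZMod p) B] {R : Type*} [Field R] [Algebra (ZMod p) R] {x y : R ⊗[ZMod p] B}
    (h : IsUnit (x * y)) : IsUnit x := by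
  classical
  let e := Module.finBasis (ZMod p) B
  apply isUnit_of_lmm e
  have h1 := isUnit_lmm e h
  rw [lmm_mul, Matrix.det_mul] at h1
  exact isUnit_of_mul_isUnit_left h1

section

variable {p : ℕ} [Fact p.Prime] {k : ℕ} {F : Type} [Field F] [Algebra (ZMod p) F]

/-- Scalar matrices. -/
def scal (k : ℕ) (F : Type) [Field F] : (Fin k → F) →+* BM k F :=
  RingHom.pi fun i => (Matrix.scalar (Fin 2)).comp (Pi.evalRingHom _ i)

theorem scal_apply (z : Fin k → F) (i : Fin k) : scal k F z i = Matrix.scalar (Fin 2) (z i) := rfl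

/-- Scalar matrices after base change. -/
noncomputable def Xi (p k : ℕ) [Fact p.Prime] (F : Type) [Field F] [Algebra (ZMod p) F]
    (R : Type) [Field R] [Algebra (ZMod p) R] :
    R ⊗[ZMod p] (Fin k → F) →+* R ⊗[ZMod p] BM k F :=
  (Algebra.TensorProduct.map (AlgHom.id (ZMod p) R) (toAlg (p := p) (scal k F))).toRingHom

theorem Xi_tmul (R : Type) [Field R] [Algebra (ZMod p) R] (r : R) (z : Fin k → F) :
    Xi p k F R (r ⊗ₜ z) = r ⊗ₜ scal k F z := rfl

def cE (k : ℕ) (F : Type) [Field F] : BM k F := fun _ => !![1, 0; 0, 0]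
def cX (k : ℕ) (F : Type) [Field F] : BM k F := fun _ => !![0, 1; 0, 0]
def cY (k : ℕ) (F : Type) [Field F] : BM k F := fun _ => !![0, 0; 1, 0]

theorem cE_add : cE k F + (adjInv p k F).j (cE k F) = 1 := by
  funext i
  ext a b
  fin_cases a <;> fin_cases b <;> simp [adjInv_j, cE, Matrix.adjugate_fin_two]

theorem cX_add : cX k F + (adjInv p k F).j (cX k F) = 0 := by
  funext i
  ext a b
  fin_cases a <;> fin_cases b <;> simp [adjInv_j, cX, Matrix.adjugate_fin_two]

theorem cY_add : cY k F + (adjInv p k F).j (cY k F) = 0 := by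
  funext i
  ext a b
  fin_cases a <;> fin_cases b <;> simp [adjInv_j, cY, Matrix.adjugate_fin_two]

variable [Finite F]

theorem good_u (u : (BM k F)ˣ) (hu : u ∈ (adjInv p k F).U) :
    ∃ y₀ : AlgebraicClosure (ZMod p) ⊗[ZMod p] BM k F,
      y₀ + jR (adjInv p k F) _ y₀ = 1 ∧
        IsUnit (1 + ((1 ⊗ₜ ((u⁻¹ : (BM k F)ˣ) : BM k F)) - 1) * y₀) := by
  classical
  have := Fintype.ofFinite F
  let R := AlgebraicClosure (ZMod p)
  let q := Fintype.card F
  obtain ⟨t, ht⟩ := exists_good_t R q Fintype.one_lt_card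
  set V : BM k F := ((u⁻¹ : (BM k F)ˣ) : BM k F) with hV
  have hdet : ∀ i, (V i).det = 1 := mem_adjU.mp (inv_mem hu)
  have hdet' : ∀ i, V i 0 0 * V i 1 1 - V i 0 1 * V i 1 0 = 1 := by
    intro i
    rw [← Matrix.det_fin_two, hdet]
  let y₀ : R ⊗[ZMod p] BM k F := 1 ⊗ₜ cE k F + t ⊗ₜ cX k F + (t ^ 2) ⊗ₜ cY k F
  refine ⟨y₀, ?_, ?_⟩
  · have h1 : y₀ + jR (adjInv p k F) _ y₀ =
        1 ⊗ₜ (cE k F + (adjInv p k F).j (cE k F)) + t ⊗ₜ (cX k F + (adjInv p k F).j (cX k F)) +
          (t ^ 2) ⊗ₜ (cY k F + (adjInv p k F).j (cY k F)) := by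
      simp only [y₀, map_add, jR_tmul, tmul_add]
      abel
    rw [h1, cE_add, cX_add, cY_add, tmul_zero, tmul_zero, add_zero, add_zero,
      Algebra.TensorProduct.one_def]
  · set A0 : BM k F := 1 + (V - 1) * cE k F with hA0
    set A1 : BM k F := (V - 1) * cX k F with hA1
    set A2 : BM k F := (V - 1) * cY k F with hA2
    have hw : 1 + ((1 : R) ⊗ₜ[ZMod p] V - 1) * y₀ = 1 ⊗ₜ A0 + t ⊗ₜ A1 + (t ^ 2) ⊗ₜ A2 := by
      have h1 : (1 : R) ⊗ₜ[ZMod p] V - 1 = 1 ⊗ₜ (V - 1) := by
        rw [tmul_sub, ← Algebra.TensorProduct.one_def]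
      rw [h1]
      simp only [y₀, mul_add, Algebra.TensorProduct.tmul_mul_tmul, one_mul]
      rw [hA0, tmul_add, ← Algebra.TensorProduct.one_def]
      abel
    let z0 : Fin k → F := fun i => V i 0 0
    let z1 : Fin k → F := fun i => V i 1 0
    let z2 : Fin k → F := fun i => V i 0 1
    let z3 : Fin k → F := fun i => V i 0 1 * V i 1 0 - (V i 0 0 - 1) * (V i 1 1 - 1)
    let ζ : R ⊗[ZMod p] (Fin k → F) := 1 ⊗ₜ z0 + t ⊗ₜ z1 + (t ^ 2) ⊗ₜ z2 + (t ^ 3) ⊗ₜ z3
    have e0 : A0 * (adjInv p k F).j A0 = scal k F z0 := by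
      funext i
      ext a b
      fin_cases a <;> fin_cases b <;>
        simp [hA0, z0, adjInv_j, scal_apply, cE, Matrix.adjugate_fin_two, Matrix.mul_apply,
          Fin.sum_univ_two] <;> ring
    have e1 : A0 * (adjInv p k F).j A1 + A1 * (adjInv p k F).j A0 = scal k F z1 := by
      funext i
      ext a b
      fin_cases a <;> fin_cases b <;>
        simp [hA0, hA1, z1, adjInv_j, scal_apply, cE, cX, Matrix.adjugate_fin_two,
          Matrix.mul_apply, Fin.sum_univ_two] <;> ring
    have e2 : A0 * (adjInv p k F).j A2 + A2 * (adjInv p k F).j A0 +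
        A1 * (adjInv p k F).j A1 = scal k F z2 := by
      funext i
      ext a b
      fin_cases a <;> fin_cases b <;>
        simp [hA0, hA1, hA2, z2, adjInv_j, scal_apply, cE, cX, cY, Matrix.adjugate_fin_two,
          Matrix.mul_apply, Fin.sum_univ_two] <;> ring
    have e3 : A1 * (adjInv p k F).j A2 + A2 * (adjInv p k F).j A1 = scal k F z3 := by
      funext i
      ext a b
      fin_cases a <;> fin_cases b <;>
        simp [hA1, hA2, z3, adjInv_j, scal_apply, cX, cY, Matrix.adjugate_fin_two,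
          Matrix.mul_apply, Fin.sum_univ_two] <;> ring
    have e4 : A2 * (adjInv p k F).j A2 = 0 := by
      funext i
      ext a b
      fin_cases a <;> fin_cases b <;>
        simp [hA2, adjInv_j, cY, Matrix.adjugate_fin_two, Matrix.mul_apply,
          Fin.sum_univ_two] <;> ring
    have hζ : IsUnit ζ := by
      apply isUnit_comm
      intro f
      let σ : (Fin k → F) →+* R :=
        (f.toRingHom).comp (Algebra.TensorProduct.includeRight :
          (Fin k → F) →ₐ[ZMod p] R ⊗[ZMod p] (Fin k → F)).toRingHom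
      have hf : ∀ (r : R) (z : Fin k → F), f (r ⊗ₜ z) = σ z * r := by
        intro r z
        have h1 : (r ⊗ₜ[ZMod p] z : R ⊗[ZMod p] (Fin k → F)) = r • ((1 : R) ⊗ₜ z) := by
          rw [smul_tmul', smul_eq_mul, mul_one]
        rw [h1, map_smul, smul_eq_mul, mul_comm]
        rfl
      have h2 := ht ![σ z0, σ z1, σ z2, σ z3] (by
        have hz : ∀ z : Fin k → F, σ z ^ q = σ z := by
          intro z
          rw [← map_pow]
          congr 1
          funext i
          rw [Pi.pow_apply]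
          exact FiniteField.pow_card _
        intro j
        fin_cases j <;> exact hz _) (by
        intro h0
        have h00 : σ z0 = 0 := congrFun h0 0
        have h01 : σ z1 = 0 := congrFun h0 1
        have h3 : (fun i => V i 0 0) * (fun i => V i 1 1) -
            (fun i => V i 0 1) * (fun i => V i 1 0) = (1 : Fin k → F) := by
          funext i
          exact hdet' i
        have h4 := congrArg σ h3
        rw [map_sub, map_mul, map_mul, map_one] at h4
        change σ z0 * _ - _ * σ z1 = 1 at h4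
        rw [h00, h01, zero_mul, mul_zero, sub_zero] at h4
        exact zero_ne_one h4)
      rw [Fin.sum_univ_four] at h2
      simp only [ζ, map_add, hf]
      simpa using h2
    have hprod : (1 + ((1 : R) ⊗ₜ[ZMod p] V - 1) * y₀) *
        jR (adjInv p k F) R (1 + ((1 : R) ⊗ₜ[ZMod p] V - 1) * y₀) = Xi p k F R ζ := by
      rw [hw]
      simp only [ζ, map_add, jR_tmul, Xi_tmul, mul_add, add_mul,
        Algebra.TensorProduct.tmul_mul_tmul, one_mul, mul_one]
      rw [← e0, ← e1, ← e2, ← e3]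
      simp only [tmul_add]
      have h4 : (t ^ 2 * t ^ 2) ⊗ₜ[ZMod p] (A2 * (adjInv p k F).j A2) = 0 := by
        rw [e4, tmul_zero]
      have h5 : t * t = t ^ 2 := by ring
      have h6 : t * t ^ 2 = t ^ 3 := by ring
      have h7 : t ^ 2 * t = t ^ 3 := by ring
      rw [h4, h5, h6, h7]
      abel
    apply isUnit_left_of_mul (y := jR (adjInv p k F) R (1 + ((1 : R) ⊗ₜ[ZMod p] V - 1) * y₀))
    rw [hprod]
    exact hζ.map _

theorem good_adj : Good (adjInv p k F) (cE k F) where
  hc := cE_add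
  hy := by
    let c1 : BM k F := fun _ => !![1, 1; 1, 0]
    let c2 : BM k F := fun _ => !![0, 1; 1, -1]
    have h1 : c1 * c2 = 1 := by
      funext i
      ext a b
      fin_cases a <;> fin_cases b <;> simp [c1, c2]
    have h2 : c2 * c1 = 1 := by
      funext i
      ext a b
      fin_cases a <;> fin_cases b <;> simp [c1, c2]
    have h3 : c1 + (adjInv p k F).j c1 = 1 := by
      funext i
      ext a b
      fin_cases a <;> fin_cases b <;> simp [adjInv_j, c1, Matrix.adjugate_fin_two]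
    refine ⟨1 ⊗ₜ c1, ?_, ?_⟩
    · rw [jR_tmul, ← tmul_add, h3, Algebra.TensorProduct.one_def]
    · refine ⟨⟨1 ⊗ₜ c1, 1 ⊗ₜ c2, ?_, ?_⟩, rfl⟩
      · rw [Algebra.TensorProduct.tmul_mul_tmul, one_mul, h1, Algebra.TensorProduct.one_def]
      · rw [Algebra.TensorProduct.tmul_mul_tmul, one_mul, h2, Algebra.TensorProduct.one_def]
  hs := by
    let c1 : BM k F := fun _ => !![0, 1; 1, 0]
    have h1 : c1 * c1 = 1 := by
      funext i
      ext a b
      fin_cases a <;> fin_cases b <;> simp [c1]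
    have h3 : c1 + (adjInv p k F).j c1 = 0 := by
      funext i
      ext a b
      fin_cases a <;> fin_cases b <;> simp [adjInv_j, c1, Matrix.adjugate_fin_two]
    refine ⟨1 ⊗ₜ c1, ?_, ?_⟩
    · rw [jR_tmul, ← tmul_add, h3, tmul_zero]
    · refine ⟨⟨1 ⊗ₜ c1, 1 ⊗ₜ c1, ?_, ?_⟩, rfl⟩
      · rw [Algebra.TensorProduct.tmul_mul_tmul, one_mul, h1, Algebra.TensorProduct.one_def]
      · rw [Algebra.TensorProduct.tmul_mul_tmul, one_mul, h1, Algebra.TensorProduct.one_def]
  hu := fun u hu => good_u u hu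

end

/-- Let `K` be a field of characteristic `p`, let `Γ` be the group of a finite Galois extension
of `K` which acts on the ring `M₂(F)^k`, `F` a finite field of characteristic `p`. Then
`SL₂(F)^k ⋊ Γ` occurs over a rational function field over `K`. -/
theorem lang_SL2 {p : ℕ} [Fact p.Prime] {F : Type} [Field F] [Finite F] [Algebra (ZMod p) F]
    (k : ℕ) {K : Type u} [Field K] [CharP K p] {Γ : Type} [Group Γ] [Finite Γ]
    (hΓ : Occurs Γ K) (ρ : Γ →* (BM k F ≃+* BM k F))
    (hρ : ∀ g b, ρ g ((adjInv p k F).j b) = (adjInv p k F).j (ρ g b)) :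
    ∃ r : ℕ, Occurs ((adjInv p k F).U ⋊[uactU _ ρ hρ] Γ)
      (FractionRing (MvPolynomial (Fin r) K)) :=
  ⟨_, lang_unitary (adjInv p k F) good_adj hΓ ρ hρ⟩

end MP7fU
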