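import Pool.Agent.Lib.MP_7f581e_ntL.U10

/-!
Unitary generic Lang torsor, part 13: the exchange involution; unit groups with
anti-automorphisms.
-/

set_option autoImplicit false
set_option linter.unusedSectionVars false

universe u v

namespace MP7fU

open TensorProduct MP7fS MP7fR MulOpposite

instance finiteOp (C : Type) [Finite C] : Finite Cᵐᵒᵖ := Finite.of_equiv C opEquiv

section

variable (p : ℕ) [Fact p.Prime] (C : Type) [Ring C] [Algebra (ZMod p) C]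

/-- The exchange involution. -/
def exchInv : AInv p (C × Cᵐᵒᵖ) where
  j :=
    { toFun := fun x => (unop x.2, op x.1)
      map_add' := fun _ _ => rfl
      map_smul' := fun _ _ => rfl }
  one := rfl
  mul _ _ := rfl
  inv _ := rfl

theorem exchInv_j (x : C × Cᵐᵒᵖ) : (exchInv p C).j x = (unop x.2, op x.1) := rfl

/-- The unitary group of the exchange involution is the unit group. -/
def exchU [Finite C] : Cˣ ≃* (exchInv p C).U where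
  toFun g := ⟨⟨((g : C), op ((g⁻¹ : Cˣ) : C)), (((g⁻¹ : Cˣ) : C), op (g : C)),
    Prod.ext (Units.mul_inv g) (congrArg op (Units.mul_inv g)),
    Prod.ext (Units.inv_mul g) (congrArg op (Units.inv_mul g))⟩,
    Prod.ext (Units.inv_mul g) (congrArg op (Units.inv_mul g))⟩
  invFun u := ⟨((u : (C × Cᵐᵒᵖ)ˣ) : C × Cᵐᵒᵖ).1, (((u : (C × Cᵐᵒᵖ)ˣ)⁻¹ : (C × Cᵐᵒᵖ)ˣ) : C × Cᵐᵒᵖ).1,
    congrArg Prod.fst (Units.mul_inv (u : (C × Cᵐᵒᵖ)ˣ)),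
    congrArg Prod.fst (Units.inv_mul (u : (C × Cᵐᵒᵖ)ˣ))⟩
  left_inv g := Units.ext rfl
  right_inv u := by
    apply Subtype.ext
    apply Units.ext
    have h1 : (exchInv p C).j ((u : (C × Cᵐᵒᵖ)ˣ) : C × Cᵐᵒᵖ) * ((u : (C × Cᵐᵒᵖ)ˣ) : C × Cᵐᵒᵖ) = 1 :=
      u.2
    have h2 : (exchInv p C).j ((u : (C × Cᵐᵒᵖ)ˣ) : C × Cᵐᵒᵖ) =
        (((u : (C × Cᵐᵒᵖ)ˣ)⁻¹ : (C × Cᵐᵒᵖ)ˣ) : C × Cᵐᵒᵖ) := by
      calc _ = (exchInv p C).j ((u : (C × Cᵐᵒᵖ)ˣ) : C × Cᵐᵒᵖ) *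
            (((u : (C × Cᵐᵒᵖ)ˣ) : C × Cᵐᵒᵖ) *
              (((u : (C × Cᵐᵒᵖ)ˣ)⁻¹ : (C × Cᵐᵒᵖ)ˣ) : C × Cᵐᵒᵖ)) := by
            rw [Units.mul_inv, mul_one]
        _ = _ := by rw [← mul_assoc, h1, one_mul]
    have h3 : unop ((u : (C × Cᵐᵒᵖ)ˣ) : C × Cᵐᵒᵖ).2 =
        (((u : (C × Cᵐᵒᵖ)ˣ)⁻¹ : (C × Cᵐᵒᵖ)ˣ) : C × Cᵐᵒᵖ).1 := congrArg Prod.fst h2
    refine Prod.ext rfl ?_
    apply unop_injective
    exact h3.symm
  map_mul' g h := by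
    apply Subtype.ext
    apply Units.ext
    refine Prod.ext rfl ?_
    change op (((g * h)⁻¹ : Cˣ) : C) = op ((g⁻¹ : Cˣ) : C) * op ((h⁻¹ : Cˣ) : C)
    rw [mul_inv_rev, Units.val_mul, op_mul]

theorem exchU_fst [Finite C] (g : Cˣ) :
    (((exchU p C g : (C × Cᵐᵒᵖ)ˣ)) : C × Cᵐᵒᵖ).1 = g := rfl

theorem exchU_snd [Finite C] (g : Cˣ) :
    (((exchU p C g : (C × Cᵐᵒᵖ)ˣ)) : C × Cᵐᵒᵖ).2 = op ((g⁻¹ : Cˣ) : C) := rfl

theorem good_exch [Finite C] : Good (exchInv p C) (1, 0) where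
  hc := by
    rw [exchInv_j]
    refine Prod.ext ?_ ?_
    · change (1 : C) + 0 = 1
      rw [add_zero]
    · change (0 : Cᵐᵒᵖ) + 1 = 1
      rw [zero_add]
  hy := by
    obtain ⟨l, hl⟩ := (Set.toFinite ({0, 1} : Set (AlgebraicClosure (ZMod p)))).exists_notMem
    have hl0 : l ≠ 0 := fun h => hl (by rw [h]; exact Set.mem_insert _ _)
    have hl1 : 1 - l ≠ 0 := fun h => hl (by
      rw [← sub_eq_zero.mp h]
      exact Set.mem_insert_of_mem _ (Set.mem_singleton _))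
    have e1 : ((1, 0) : C × Cᵐᵒᵖ) * (1, 0) = (1, 0) := Prod.ext (mul_one 1) (mul_zero 0)
    have e2 : ((0, 1) : C × Cᵐᵒᵖ) * (0, 1) = (0, 1) := Prod.ext (mul_zero 0) (mul_one 1)
    have e3 : ((1, 0) : C × Cᵐᵒᵖ) * (0, 1) = 0 := Prod.ext (mul_zero 1) (zero_mul 1)
    have e4 : ((0, 1) : C × Cᵐᵒᵖ) * (1, 0) = 0 := Prod.ext (zero_mul 1) (mul_zero 1)
    have e5 : ((1, 0) : C × Cᵐᵒᵖ) + (0, 1) = 1 := Prod.ext (add_zero 1) (zero_add 1)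
    have e6 : (exchInv p C).j (1, 0) = (0, 1) := rfl
    have e7 : (exchInv p C).j (0, 1) = (1, 0) := rfl
    refine ⟨l ⊗ₜ (1, 0) + (1 - l) ⊗ₜ (0, 1), ?_, ?_⟩
    · rw [map_add, jR_tmul, jR_tmul, e6, e7]
      calc _ = (l ⊗ₜ[ZMod p] ((1, 0) : C × Cᵐᵒᵖ) + (1 - l) ⊗ₜ (1, 0)) +
            (l ⊗ₜ[ZMod p] ((0, 1) : C × Cᵐᵒᵖ) + (1 - l) ⊗ₜ (0, 1)) := by abel
        _ = 1 := by
          rw [← add_tmul, ← add_tmul, add_sub_cancel, ← tmul_add, e5,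
            Algebra.TensorProduct.one_def]
    · refine ⟨⟨l ⊗ₜ (1, 0) + (1 - l) ⊗ₜ (0, 1), l⁻¹ ⊗ₜ (1, 0) + (1 - l)⁻¹ ⊗ₜ (0, 1), ?_, ?_⟩, rfl⟩
      · rw [add_mul, mul_add, mul_add]
        simp only [Algebra.TensorProduct.tmul_mul_tmul, e1, e2, e3, e4, tmul_zero, add_zero,
          zero_add, mul_inv_cancel₀ hl0, mul_inv_cancel₀ hl1]
        rw [← tmul_add, e5, Algebra.TensorProduct.one_def]
      · rw [add_mul, mul_add, mul_add]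
        simp only [Algebra.TensorProduct.tmul_mul_tmul, e1, e2, e3, e4, tmul_zero, add_zero,
          zero_add, inv_mul_cancel₀ hl0, inv_mul_cancel₀ hl1]
        rw [← tmul_add, e5, Algebra.TensorProduct.one_def]
  hs := by
    have e1 : ((1, -1) : C × Cᵐᵒᵖ) * (1, -1) = 1 := Prod.ext (mul_one 1) (by
      change (-1 : Cᵐᵒᵖ) * -1 = 1
      rw [neg_mul_neg, one_mul])
    have e2 : ((1, -1) : C × Cᵐᵒᵖ) + (exchInv p C).j (1, -1) = 0 := by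
      rw [exchInv_j]
      refine Prod.ext ?_ ?_
      · change (1 : C) + -1 = 0
        rw [add_neg_cancel]
      · change (-1 : Cᵐᵒᵖ) + 1 = 0
        rw [neg_add_cancel]
    refine ⟨1 ⊗ₜ (1, -1), ?_, ⟨⟨1 ⊗ₜ (1, -1), 1 ⊗ₜ (1, -1), ?_, ?_⟩, rfl⟩⟩
    · rw [jR_tmul, ← tmul_add, e2, tmul_zero]
    · rw [Algebra.TensorProduct.tmul_mul_tmul, one_mul, e1, Algebra.TensorProduct.one_def]
    · rw [Algebra.TensorProduct.tmul_mul_tmul, one_mul, e1, Algebra.TensorProduct.one_def]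
  hu := by
    intro u hu
    have e5 : ((0, 1) : C × Cᵐᵒᵖ) + (1, 0) = 1 := Prod.ext (zero_add 1) (add_zero 1)
    have e7 : (exchInv p C).j (0, 1) = (1, 0) := rfl
    refine ⟨1 ⊗ₜ (0, 1), ?_, ?_⟩
    · rw [jR_tmul, e7, ← tmul_add, e5, Algebra.TensorProduct.one_def]
    · have h1 : (1 : AlgebraicClosure (ZMod p) ⊗[ZMod p] (C × Cᵐᵒᵖ)) +
          ((1 ⊗ₜ ((u⁻¹ : (C × Cᵐᵒᵖ)ˣ) : C × Cᵐᵒᵖ)) - 1) * 1 ⊗ₜ (0, 1) =
          1 ⊗ₜ ((1, (((u⁻¹ : (C × Cᵐᵒᵖ)ˣ) : C × Cᵐᵒᵖ)).2) : C × Cᵐᵒᵖ) := by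
        rw [Algebra.TensorProduct.one_def, ← tmul_sub, Algebra.TensorProduct.tmul_mul_tmul,
          one_mul, ← tmul_add]
        congr 1
        refine Prod.ext ?_ ?_
        · change (1 : C) + ((((u⁻¹ : (C × Cᵐᵒᵖ)ˣ) : C × Cᵐᵒᵖ)).1 - 1) * 0 = 1
          rw [mul_zero, add_zero]
        · change (1 : Cᵐᵒᵖ) + ((((u⁻¹ : (C × Cᵐᵒᵖ)ˣ) : C × Cᵐᵒᵖ)).2 - 1) * 1 = _
          rw [mul_one, add_sub_cancel]
      rw [h1]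
      have h2 : ((1, (((u⁻¹ : (C × Cᵐᵒᵖ)ˣ) : C × Cᵐᵒᵖ)).2) : C × Cᵐᵒᵖ) *
          (1, ((u : C × Cᵐᵒᵖ)).2) = 1 := by
        refine Prod.ext (mul_one 1) ?_
        have h4 : (((u⁻¹ : (C × Cᵐᵒᵖ)ˣ) : C × Cᵐᵒᵖ) * (u : C × Cᵐᵒᵖ)).2 = 1 := by
          rw [Units.inv_mul]
          rfl
        exact h4
      have h3 : ((1, ((u : C × Cᵐᵒᵖ)).2) : C × Cᵐᵒᵖ) *
          (1, (((u⁻¹ : (C × Cᵐᵒᵖ)ˣ) : C × Cᵐᵒᵖ)).2) = 1 := by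
        refine Prod.ext (mul_one 1) ?_
        have h4 : ((u : C × Cᵐᵒᵖ) * ((u⁻¹ : (C × Cᵐᵒᵖ)ˣ) : C × Cᵐᵒᵖ)).2 = 1 := by
          rw [Units.mul_inv]
          rfl
        exact h4
      refine ⟨⟨1 ⊗ₜ ((1, (((u⁻¹ : (C × Cᵐᵒᵖ)ˣ) : C × Cᵐᵒᵖ)).2) : C × Cᵐᵒᵖ),
        1 ⊗ₜ (1, ((u : C × Cᵐᵒᵖ)).2), ?_, ?_⟩, rfl⟩
      · rw [Algebra.TensorProduct.tmul_mul_tmul, one_mul, h2, Algebra.TensorProduct.one_def]
      · rw [Algebra.TensorProduct.tmul_mul_tmul, one_mul, h3, Algebra.TensorProduct.one_def]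

end

/-- Unit groups with semilinear automorphisms and anti-automorphisms. -/
theorem lang_exch {p : ℕ} [Fact p.Prime] (C : Type) [Ring C] [Finite C] [Algebra (ZMod p) C]
    {K : Type u} [Field K] [CharP K p] {Γ : Type} [Group Γ] [Finite Γ]
    (hΓ : Occurs Γ K) (ρ : Γ →* (C × Cᵐᵒᵖ ≃+* C × Cᵐᵒᵖ))
    (hρ : ∀ g b, ρ g ((exchInv p C).j b) = (exchInv p C).j (ρ g b)) :
    ∃ r : ℕ, Occurs ((exchInv p C).U ⋊[uactU _ ρ hρ] Γ)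
      (FractionRing (MvPolynomial (Fin r) K)) :=
  ⟨_, lang_unitary (exchInv p C) (good_exch p C) hΓ ρ hρ⟩

end MP7fU
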