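import Pool.Agent.Lib.MP_7f581e_ntL.U6

/-!
Special unitary generic Lang torsor, part 2: coordinates.
-/

set_option autoImplicit false
set_option linter.unusedSectionVars false

universe u v

namespace MP7fV

open TensorProduct MP7fS MP7fU

variable {p : ℕ} [Fact p.Prime] {B : Type} [Ring B] [Finite B] [Algebra (ZMod p) B]
  (J : AInv p B)
variable {κ : Type} [Fintype κ] [DecidableEq κ] (sb : Module.Basis κ (ZMod p) (Sk J))
variable {K M : Type u} [Field K] [Field M] [Algebra K M] [Algebra (ZMod p) M]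
variable (L : Type u) [Field L] [Algebra M L] [Algebra (ZMod p) L]
variable (b : Module.Basis κ M (VV J M)) {c' : M ⊗[ZMod p] B} (hc' : c' + jR J M c' = 1)

/-- The coordinates of an element `w` with `w + j w = 1`. -/
noncomputable def betW (w : L ⊗[ZMod p] B) (hw : w + jR J L w = 1) : κ → L := fun k =>
  (bbV J sb (algebraMap M L) b).repr
    (⟨w - tmap (algebraMap M L) (RingHom.id B) c', by
        rw [mem_VV, map_sub, jR_tmap J (algebraMap M L) (RingHom.id B) (fun _ => rfl)]
        have h2 := congrArg (tmap (p := p) (algebraMap M L) (RingHom.id B)) hc'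
        rw [map_add, map_one] at h2
        calc _ = (w + jR J L w) -
            (tmap (algebraMap M L) (RingHom.id B) c' +
              tmap (algebraMap M L) (RingHom.id B) (jR J M c')) := by abel
          _ = 0 := by rw [hw, h2, sub_self]⟩ : VV J L) k

theorem sum_betW (w : L ⊗[ZMod p] B) (hw : w + jR J L w = 1) : w =
    tmap (algebraMap M L) (RingHom.id B) c' + ∑ k, betW J sb L b hc' w hw k •
      tmap (algebraMap M L) (RingHom.id B) (b k : M ⊗[ZMod p] B) := by
  have h1 : ∑ k, betW J sb L b hc' w hw k • bbV J sb (algebraMap M L) b k = _ :=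
    (bbV J sb (algebraMap M L) b).sum_repr _
  have h2 := congrArg Subtype.val h1
  rw [AddSubmonoidClass.coe_finsetSum] at h2
  have h3 : ∀ k, ((betW J sb L b hc' w hw k • bbV J sb (algebraMap M L) b k : VV J L) :
      L ⊗[ZMod p] B) = betW J sb L b hc' w hw k •
      tmap (algebraMap M L) (RingHom.id B) (b k : M ⊗[ZMod p] B) := by
    intro k
    rw [Submodule.coe_smul, coe_bbV]
  rw [Finset.sum_congr rfl fun k _ => h3 k] at h2
  rw [h2]
  change _ = _ + (_ - _)
  rw [add_sub_cancel]

variable {Γ : Type} [Group Γ] (γ : Γ ≃* (M ≃ₐ[K] M)) (ρ : Γ →* (B ≃+* B))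
variable {b} (hb : ∀ i g, sg γ ρ g (b i : M ⊗[ZMod p] B) = b i) (hcf : ∀ g, sg γ ρ g c' = c')

theorem tmap_fix' {S : Type*} [Field S] [Algebra (ZMod p) S] {f f' : L →+* S} {g : Γ}
    (hM : ∀ m : M, f (algebraMap M L m) = f' (algebraMap M L (γ g m))) {z : M ⊗[ZMod p] B}
    (hz : ∀ g, sg γ ρ g z = z) :
    tmap f (ρ g : B →+* B) (tmap (algebraMap M L) (RingHom.id B) z) =
      tmap f' (RingHom.id B) (tmap (algebraMap M L) (RingHom.id B) z) := by
  rw [tmap_comp, tmap_comp]
  conv_rhs => rw [← hz g]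
  rw [sg, tmap_comp]
  have h1 : f.comp (algebraMap M L) = (f'.comp (algebraMap M L)).comp (γ g : M →+* M) := by
    ext m
    exact hM m
  rw [h1]
  rfl

include hb hcf in
theorem tmap_betW {S : Type*} [Field S] [Algebra (ZMod p) S] {f f' : L →+* S} {g : Γ}
    (hM : ∀ m : M, f (algebraMap M L m) = f' (algebraMap M L (γ g m)))
    (w : L ⊗[ZMod p] B) (hw : w + jR J L w = 1)
    (ha : ∀ i, f (betW J sb L b hc' w hw i) = f' (betW J sb L b hc' w hw i)) :
    tmap f (ρ g : B →+* B) w = tmap f' (RingHom.id B) w := by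
  rw [sum_betW J sb L b hc' w hw, map_add, map_add, map_sum, map_sum,
    tmap_fix' L γ ρ hM hcf]
  congr 1
  refine Finset.sum_congr rfl fun i _ => ?_
  rw [tmap_smul, tmap_smul, tmap_fix' L γ ρ hM (hb i), ha]

include sb in
theorem coord_inj {S : Type*} [Field S] [Algebra (ZMod p) S] (f : M →+* S)
    (b : Module.Basis κ M (VV J M)) {x y : κ → S}
    (h : ∑ k, x k • tmap (p := p) f (RingHom.id B) (b k : M ⊗[ZMod p] B) =
      ∑ k, y k • tmap (p := p) f (RingHom.id B) (b k : M ⊗[ZMod p] B)) :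
    x = y := by
  have h3 : ∀ z : κ → S, ((∑ k, z k • bbV J sb f b k : VV J S) :
      S ⊗[ZMod p] B) = ∑ k, z k •
      tmap (p := p) f (RingHom.id B) (b k : M ⊗[ZMod p] B) := by
    intro z
    rw [AddSubmonoidClass.coe_finsetSum]
    refine Finset.sum_congr rfl fun k _ => ?_
    rw [Submodule.coe_smul, coe_bbV]
  have h4 : (∑ k, x k • bbV J sb f b k : VV J S) =
      ∑ k, y k • bbV J sb f b k := Subtype.ext (by rw [h3, h3, h])
  ext k
  have h5 := congrArg (fun w => (bbV J sb f b).repr w k) h4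
  simpa only [Module.Basis.repr_sum_self] using h5

include hb hcf in
theorem betW_eq {S : Type*} [Field S] [Algebra (ZMod p) S] {f f' : L →+* S} {g : Γ}
    (hM : ∀ m : M, f (algebraMap M L m) = f' (algebraMap M L (γ g m)))
    (w : L ⊗[ZMod p] B) (hw : w + jR J L w = 1)
    (h : tmap f (ρ g : B →+* B) w = tmap f' (RingHom.id B) w) (i : κ) :
    f (betW J sb L b hc' w hw i) = f' (betW J sb L b hc' w hw i) := by
  rw [sum_betW J sb L b hc' w hw, map_add, map_add, map_sum, map_sum,
    tmap_fix' L γ ρ hM hcf] at h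
  have h4 := add_left_cancel h
  have h5 : ∀ k, tmap f (ρ g : B →+* B)
      (betW J sb L b hc' w hw k • tmap (algebraMap M L) (RingHom.id B) (b k : M ⊗[ZMod p] B)) =
      f (betW J sb L b hc' w hw k) •
        tmap (f'.comp (algebraMap M L)) (RingHom.id B) (b k : M ⊗[ZMod p] B) := by
    intro k
    rw [tmap_smul, tmap_fix' L γ ρ hM (hb k), tmap_comp]
    rfl
  have h6 : ∀ k, tmap f' (RingHom.id B)
      (betW J sb L b hc' w hw k • tmap (algebraMap M L) (RingHom.id B) (b k : M ⊗[ZMod p] B)) =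
      f' (betW J sb L b hc' w hw k) •
        tmap (f'.comp (algebraMap M L)) (RingHom.id B) (b k : M ⊗[ZMod p] B) := by
    intro k
    rw [tmap_smul, tmap_comp]
    rfl
  rw [Finset.sum_congr rfl fun k _ => h5 k, Finset.sum_congr rfl fun k _ => h6 k] at h4
  exact congrFun (coord_inj J sb (f'.comp (algebraMap M L)) b h4) i

variable (b)

theorem betW_mem {F : Type*} [Field F] [Algebra (ZMod p) F] (f : F →+* L) (g : M →+* F)
    (hfg : f.comp g = algebraMap M L) (w : L ⊗[ZMod p] B) (hw : w + jR J L w = 1)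
    (h : w ∈ (tmap (p := p) f (RingHom.id B)).range) (i : κ) :
    ∃ r, f r = betW J sb L b hc' w hw i := by
  obtain ⟨v, hv⟩ := h
  have hv1 : v + jR J F v = 1 := by
    apply tmap_injective (p := p) (B := B) f f.injective
    rw [map_add, map_one, ← jR_tmap J f (RingHom.id B) (fun _ => rfl), hv, hw]
  have hv2 : v - tmap g (RingHom.id B) c' ∈ VV J F := by
    rw [mem_VV, map_sub, jR_tmap J g (RingHom.id B) (fun _ => rfl)]
    have h2 := congrArg (tmap (p := p) g (RingHom.id B)) hc'
    rw [map_add, map_one] at h2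
    calc _ = (v + jR J F v) -
        (tmap g (RingHom.id B) c' + tmap g (RingHom.id B) (jR J M c')) := by abel
      _ = 0 := by rw [hv1, h2, sub_self]
  let z : κ → F := fun k => (bbV J sb g b).repr ⟨_, hv2⟩ k
  have h1 : ∑ k, z k • bbV J sb g b k = (⟨_, hv2⟩ : VV J F) := (bbV J sb g b).sum_repr _
  have h2 := congrArg Subtype.val h1
  rw [AddSubmonoidClass.coe_finsetSum] at h2
  have h3 : ∀ k, ((z k • bbV J sb g b k : VV J F) : F ⊗[ZMod p] B) = z k •
      tmap g (RingHom.id B) (b k : M ⊗[ZMod p] B) := by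
    intro k
    rw [Submodule.coe_smul, coe_bbV]
  rw [Finset.sum_congr rfl fun k _ => h3 k] at h2
  have h4 := congrArg (tmap (p := p) f (RingHom.id B)) h2
  rw [map_sum] at h4
  have h5 : ∀ k, tmap (p := p) f (RingHom.id B) (z k • tmap g (RingHom.id B)
      (b k : M ⊗[ZMod p] B)) = f (z k) • tmap (algebraMap M L) (RingHom.id B)
      (b k : M ⊗[ZMod p] B) := by
    intro k
    rw [tmap_smul, tmap_comp, hfg]
    rfl
  rw [Finset.sum_congr rfl fun k _ => h5 k] at h4
  have h6 : tmap (p := p) f (RingHom.id B) (v - tmap g (RingHom.id B) c') =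
      w - tmap (algebraMap M L) (RingHom.id B) c' := by
    rw [map_sub, hv, tmap_comp, hfg]
    rfl
  have h7 : w - tmap (algebraMap M L) (RingHom.id B) c' =
      ∑ k, betW J sb L b hc' w hw k •
      tmap (algebraMap M L) (RingHom.id B) (b k : M ⊗[ZMod p] B) := by
    conv_lhs => rw [sum_betW J sb L b hc' w hw]
    rw [add_sub_cancel_left]
  have h8 : (fun k => f (z k)) = betW J sb L b hc' w hw := by
    apply coord_inj J sb (algebraMap M L) b
    rw [← h7, ← h6]
    exact h4
  exact ⟨z i, congrFun h8 i⟩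

end MP7fV
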