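import Pool.Agent.Lib.MP_7f581e_ntL.V3

/-!
Special unitary generic Lang torsor, part 4: the special unitary group and the fixed field.
-/

set_option autoImplicit false
set_option linter.unusedSectionVars false

universe u v

namespace MP7fV

open TensorProduct MP7fS MP7fU

section group

variable {p : ℕ} [Fact p.Prime] {B : Type} [Ring B] [Finite B] [Algebra (ZMod p) B]
  {J : AInv p B} {n : ℕ} {C : Type} [CommRing C] [Finite C] [Algebra (ZMod p) C]
  (D : DetData J n C)

/-- The determinant of a unitary element. -/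
noncomputable def dU : J.U →* C where
  toFun u := (D.Θ ((u : Bˣ) : B)).det
  map_one' := by
    change (D.Θ (1 : B)).det = 1
    rw [map_one, Matrix.det_one]
  map_mul' u v := by
    change (D.Θ (((u : Bˣ) : B) * ((v : Bˣ) : B))).det = _
    rw [map_mul, Matrix.det_mul]

theorem dU_apply (u : J.U) : dU D u = (D.Θ ((u : Bˣ) : B)).det := rfl

/-- The special unitary group. -/
noncomputable def SU : Subgroup J.U := (dU D).ker

theorem mem_SU {u : J.U} : u ∈ SU D ↔ (D.Θ ((u : Bˣ) : B)).det = 1 := Iff.rfl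

variable {Γ : Type} [Group Γ] (ρ : Γ →* (B ≃+* B))
  (hρ : ∀ g b, ρ g (J.j b) = J.j (ρ g b))
  (hD : ∀ g, ∃ σ : C →+* C, D.Compat (ρ g : B →+* B) σ)

include hD in
theorem act_mem (g : Γ) {u : J.U} (hu : u ∈ SU D) : uactU J ρ hρ g u ∈ SU D := by
  obtain ⟨σ, h⟩ := hD g
  obtain ⟨P, Q, hPQ, h1⟩ := h.conj
  rw [mem_SU] at hu ⊢
  rw [coe_uactU]
  have h2 := h1 ((u : Bˣ) : B)
  have h3 : D.Θ (ρ g ((u : Bˣ) : B)) = P * (D.Θ ((u : Bˣ) : B)).map σ * Q := h2
  rw [h3, Matrix.det_mul, Matrix.det_mul, mul_right_comm, ← Matrix.det_mul, hPQ,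
    Matrix.det_one, one_mul]
  have h4 := (RingHom.map_det σ (D.Θ ((u : Bˣ) : B))).symm
  rw [hu, map_one] at h4
  exact h4

/-- The action on the special unitary group. -/
noncomputable def suact : Γ →* MulAut (SU D) where
  toFun g :=
    { toFun := fun u => ⟨uactU J ρ hρ g u.1, act_mem D ρ hρ hD g u.2⟩
      invFun := fun u => ⟨uactU J ρ hρ g⁻¹ u.1, act_mem D ρ hρ hD g⁻¹ u.2⟩
      left_inv := fun u => Subtype.ext (by
        change uactU J ρ hρ g⁻¹ (uactU J ρ hρ g u.1) = u.1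
        rw [← MulAut.mul_apply, ← map_mul, inv_mul_cancel, map_one]
        rfl)
      right_inv := fun u => Subtype.ext (by
        change uactU J ρ hρ g (uactU J ρ hρ g⁻¹ u.1) = u.1
        rw [← MulAut.mul_apply, ← map_mul, mul_inv_cancel, map_one]
        rfl)
      map_mul' := fun u v => Subtype.ext (by
        change uactU J ρ hρ g (u.1 * v.1) = uactU J ρ hρ g u.1 * uactU J ρ hρ g v.1
        rw [map_mul]) }
  map_one' := by
    ext1 u
    apply Subtype.ext
    change uactU J ρ hρ 1 u.1 = u.1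
    rw [map_one]
    rfl
  map_mul' g h := by
    ext1 u
    apply Subtype.ext
    change uactU J ρ hρ (g * h) u.1 = uactU J ρ hρ g (uactU J ρ hρ h u.1)
    rw [map_mul]
    rfl

theorem coe_suact (g : Γ) (u : SU D) :
    ((suact D ρ hρ hD g u : SU D) : J.U) = uactU J ρ hρ g u := rfl

theorem coe_suact' (g : Γ) (u : SU D) :
    ((((suact D ρ hρ hD g u : SU D) : J.U) : Bˣ) : B) = ρ g (((u : J.U) : Bˣ) : B) := rfl

/-- The inclusion of the semidirect products. -/
noncomputable def inc : (SU D) ⋊[suact D ρ hρ hD] Γ →* J.U ⋊[uactU J ρ hρ] Γ :=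
  SemidirectProduct.map (SU D).subtype (MonoidHom.id Γ) (fun g => by
    ext u
    rfl)

theorem inc_left (h : (SU D) ⋊[suact D ρ hρ hD] Γ) : (inc D ρ hρ hD h).left = h.left := rfl

theorem inc_right (h : (SU D) ⋊[suact D ρ hρ hD] Γ) : (inc D ρ hρ hD h).right = h.right := rfl

theorem inc_inj : Function.Injective (inc D ρ hρ hD) := by
  intro h h' hh
  apply SemidirectProduct.ext
  · apply Subtype.ext
    rw [← inc_left D ρ hρ hD, hh, inc_left]
  · rw [← inc_right D ρ hρ hD, hh, inc_right]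

/-- Constant units. -/
noncomputable def cu (R : Type*) [CommRing R] [Algebra (ZMod p) R] :
    Bˣ →* (R ⊗[ZMod p] B)ˣ :=
  Units.map (Algebra.TensorProduct.includeRight : B →ₐ[ZMod p] R ⊗[ZMod p] B).toRingHom.toMonoidHom

theorem coe_cu (R : Type*) [CommRing R] [Algebra (ZMod p) R] (u : Bˣ) :
    ((cu R u : (R ⊗[ZMod p] B)ˣ) : R ⊗[ZMod p] B) = 1 ⊗ₜ (u : B) := rfl

theorem uf_cu (R : Type*) [CommRing R] [Algebra (ZMod p) R] [CharP R p] (u : Bˣ) :
    uf R (cu R u) = cu R u := by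
  apply Units.ext
  rw [uf, coe_um, coe_cu, tmap_tmul, map_one]
  rfl

theorem dt_cu (R : Type*) [CommRing R] [Algebra (ZMod p) R] (u : Bˣ) :
    D.dt R ((cu R u : (R ⊗[ZMod p] B)ˣ) : R ⊗[ZMod p] B) =
      1 ⊗ₜ[ZMod p] (D.Θ (u : B)).det := by
  rw [coe_cu, D.dt_apply, D.ΘR_tmul]
  exact (RingHom.map_det (Algebra.TensorProduct.includeRight :
    C →ₐ[ZMod p] R ⊗[ZMod p] C).toRingHom (D.Θ (u : B))).symm

theorem Tu_cu (R : Type*) [CommRing R] [Nontrivial R] [Algebra (ZMod p) R] (u : J.U) :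
    Tu D R (cu R (u : Bˣ)) = 1 ↔ u ∈ SU D := by
  constructor
  · intro h
    have h1 : D.T R ((cu R (u : Bˣ) : (R ⊗[ZMod p] B)ˣ) : R ⊗[ZMod p] B) = 1 :=
      congrArg Units.val h
    have h2 := congrArg (D.dt R) h1
    rw [D.dt_T, dt_cu, map_one, Algebra.TensorProduct.one_def] at h2
    exact one_tmul_inj h2
  · intro h
    apply Units.ext
    rw [coe_Tu, D.T_apply, dt_cu, (mem_SU D).mp h, ← Algebra.TensorProduct.one_def]
    exact map_one (D.kk R)

end group

end MP7fV
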