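import Pool.Agent.Lib.MP_7f581e_ntL.U8
import Pool.Agent.Lib.MP_7f581e_ntL.V2
import Pool.Agent.Lib.MP_7f581e_ntL.V4

/-!
Special unitary generic Lang torsor, part 5: Galois theory.
-/

set_option autoImplicit false
set_option linter.unusedSectionVars false

universe u v

namespace MP7fV

open TensorProduct MP7fS MP7fU

variable {p : ℕ} [Fact p.Prime] {B : Type} [Ring B] [Finite B] [Algebra (ZMod p) B]
  {J : AInv p B} {n : ℕ} {C : Type} [CommRing C] [Finite C] [Algebra (ZMod p) C]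
  (D : DetData J n C)
variable {κ : Type} [Fintype κ] [DecidableEq κ] (sb : Module.Basis κ (ZMod p) (Sk J))
variable {c : B}
variable {K M : Type u} [Field K] [Field M] [Algebra K M] [Algebra (ZMod p) M]
variable (L : Type u) [Field L] [Algebra (MvPolynomial κ M) L]
  [IsFractionRing (MvPolynomial κ M) L] [Algebra M L] [IsScalarTower M (MvPolynomial κ M) L]
  [Algebra (ZMod p) L] [CharP L p]
variable (hG : Good J c)

theorem gU_mem : gU J sb L hG M ∈ UR J L := jR_gU J sb L hG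

theorem uf_gU : uf L (gU J sb L hG M) * (gU J sb L hG M)⁻¹ = gA J sb L hG M := rfl

variable (hgen : IsUnit (1 - ((ml D L (gU J sb L hG M) : (L ⊗[ZMod p] B)ˣ) : L ⊗[ZMod p] B)))

/-- `1 - a''` as a unit. -/
noncomputable def gV (M : Type u) [Field M] [Algebra (ZMod p) M] [Algebra (MvPolynomial κ M) L]
    [IsFractionRing (MvPolynomial κ M) L] [Algebra M L] [IsScalarTower M (MvPolynomial κ M) L]
    (hgen : IsUnit (1 - ((ml D L (gU J sb L hG M) : (L ⊗[ZMod p] B)ˣ) : L ⊗[ZMod p] B))) :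
    (L ⊗[ZMod p] B)ˣ := hgen.unit

theorem coe_gV : ((gV D sb L hG M hgen : (L ⊗[ZMod p] B)ˣ) : L ⊗[ZMod p] B) =
    1 - ((ml D L (gU J sb L hG M) : (L ⊗[ZMod p] B)ˣ) : L ⊗[ZMod p] B) := rfl

theorem gV_skew : (((gV D sb L hG M hgen)⁻¹ : (L ⊗[ZMod p] B)ˣ) : L ⊗[ZMod p] B) +
    jR J L (((gV D sb L hG M hgen)⁻¹ : (L ⊗[ZMod p] B)ˣ) : L ⊗[ZMod p] B) = 1 :=
  cay_skew J _ (ml_mem D (gU_mem sb (M := M) L hG)) (coe_gV D sb L hG hgen)

/-- The new invariants. -/
noncomputable def betT (M : Type u) [Field M] [Algebra (ZMod p) M]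
    [Algebra (MvPolynomial κ M) L]
    [IsFractionRing (MvPolynomial κ M) L] [Algebra M L] [IsScalarTower M (MvPolynomial κ M) L]
    (hgen : IsUnit (1 - ((ml D L (gU J sb L hG M) : (L ⊗[ZMod p] B)ˣ) : L ⊗[ZMod p] B)))
    (b : Module.Basis κ M (VV J M)) {c' : M ⊗[ZMod p] B} (hc' : c' + jR J M c' = 1) : κ → L :=
  betW J sb L b hc' _ (gV_skew D sb L hG hgen)

theorem bet_eq (b : Module.Basis κ M (VV J M)) {c' : M ⊗[ZMod p] B} (hc' : c' + jR J M c' = 1) :
    bet J sb L M hG b hc' = betW J sb L b hc' _ (gW_skew J sb (M := M) L hG) := rfl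

variable {Γ : Type} [Group Γ] [Finite Γ] (γ : Γ ≃* (M ≃ₐ[K] M)) (ρ : Γ →* (B ≃+* B))
  (hρ : ∀ g b, ρ g (J.j b) = J.j (ρ g b))
  (hD : ∀ g, ∃ σ : C →+* C, D.Compat (ρ g : B →+* B) σ)
variable {b : Module.Basis κ M (VV J M)} {c' : M ⊗[ZMod p] B} (hc' : c' + jR J M c' = 1)
  (hb : ∀ i g, sg γ ρ g (b i : M ⊗[ZMod p] B) = b i) (hcf : ∀ g, sg γ ρ g c' = c')

include hb hcf in
/-- Equality of the new invariants gives equality of the modified quotients. -/
theorem um_gV {S : Type*} [Field S] [Algebra (ZMod p) S] {f f' : L →+* S} {g : Γ}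
    (hM : ∀ m : M, f (algebraMap M L m) = f' (algebraMap M L (γ g m)))
    (ha : ∀ i, f (betT D sb L hG M hgen b hc' i) = f' (betT D sb L hG M hgen b hc' i)) :
    um (tmap f (ρ g : B →+* B)) (ml D L (gU J sb L hG M)) =
      um (tmap f' (RingHom.id B)) (ml D L (gU J sb L hG M)) := by
  have h1 := tmap_betW J sb L hc' γ ρ hb hcf hM _ (gV_skew D sb L hG hgen) ha
  have h2 := tmap_inv_eq _ h1
  rw [inv_inv, coe_gV, map_sub, map_sub, map_one, map_one] at h2
  exact Units.ext (sub_right_injective h2)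

include hD hb hcf in
/-- Equality of the new invariants gives equality of the old ones. -/
theorem bet_of_betT {S : Type*} [Field S] [Algebra (ZMod p) S] [CharP S p] {f f' : L →+* S}
    {g : Γ} (hM : ∀ m : M, f (algebraMap M L m) = f' (algebraMap M L (γ g m)))
    (ha : ∀ i, f (betT D sb L hG M hgen b hc' i) = f' (betT D sb L hG M hgen b hc' i)) (i : κ) :
    f (bet J sb L M hG b hc' i) = f' (bet J sb L M hG b hc' i) := by
  obtain ⟨σ, hσ⟩ := hD g
  have h1 := um_gV D sb L hG hgen γ ρ hc' hb hcf hM ha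
  have h2 := congrArg (mn D S) h1
  rw [mn_um D f hσ, mn_um D f' D.compat_id, mn_ml, uf_gU] at h2
  have h3 : um (tmap f (ρ g : B →+* B)) (gW J sb L hG M) =
      um (tmap f' (RingHom.id B)) (gW J sb L hG M) := by
    apply Units.ext
    rw [coe_um, coe_um, coe_gW, map_sub, map_sub, map_one, map_one]
    have h4 := congrArg Units.val h2
    rw [coe_um, coe_um] at h4
    rw [h4]
  have h5 := tmap_inv_eq (gW J sb L hG M) (congrArg Units.val h3)
  rw [bet_eq]
  exact betW_eq J sb L hc' γ ρ hb hcf hM _ (gW_skew J sb (M := M) L hG) h5 i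

theorem um_PsiU (h : J.U ⋊[uactU J ρ hρ] Γ) :
    um (tmap (PsiU J sb L hG γ ρ hρ h) (ρ h.right : B →+* B)) (gU J sb L hG M) =
      gU J sb L hG M * cu L (h.left : Bˣ) := Units.ext (PsiU_gU J sb L hG γ ρ hρ h)

include hD in
theorem um_ml (h : J.U ⋊[uactU J ρ hρ] Γ) :
    um (tmap (PsiU J sb L hG γ ρ hρ h) (ρ h.right : B →+* B)) (ml D L (gU J sb L hG M)) =
      ml D L (gU J sb L hG M) * Tu D L (cu L (h.left : Bˣ)) := by
  obtain ⟨σ, hσ⟩ := hD h.right
  rw [← ml_um D _ hσ, um_PsiU, ml_mul D _ _ (uf_cu L _)]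

include hD hb hcf in
/-- The stabilizer of the new invariants. -/
theorem fix_iff (h : J.U ⋊[uactU J ρ hρ] Γ) :
    (∀ i, PsiU J sb L hG γ ρ hρ h (betT D sb L hG M hgen b hc' i) =
      betT D sb L hG M hgen b hc' i) ↔ h.left ∈ SU D := by
  have hM : ∀ m : M, PsiU J sb L hG γ ρ hρ h (algebraMap M L m) =
      (RingHom.id L) (algebraMap M L (γ h.right m)) := PsiU_M J sb L hG γ ρ hρ h
  have hid : ∀ z : (L ⊗[ZMod p] B)ˣ, um (tmap (RingHom.id L) (RingHom.id B)) z = z :=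
    fun z => Units.ext (tmap_id _)
  rw [← Tu_cu D L]
  constructor
  · intro hfix
    have h1 := um_gV D sb L hG hgen γ ρ hc' hb hcf (f' := RingHom.id L) hM hfix
    rw [um_ml D sb L hG γ ρ hρ hD h, hid] at h1
    exact mul_eq_left.mp h1
  · intro hT i
    have h1 := um_ml D sb (M := M) L hG γ ρ hρ hD h
    rw [hT, mul_one] at h1
    have h3 : um (tmap (PsiU J sb L hG γ ρ hρ h) (ρ h.right : B →+* B)) (gV D sb L hG M hgen) =
        um (tmap (RingHom.id L) (RingHom.id B)) (gV D sb L hG M hgen) := by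
      rw [hid]
      apply Units.ext
      rw [coe_um, coe_gV, map_sub, map_one, ← coe_um, h1]
    have h5 := tmap_inv_eq (gV D sb L hG M hgen) (congrArg Units.val h3)
    exact betW_eq J sb L hc' γ ρ hb hcf hM _ (gV_skew D sb L hG hgen) h5 i

end MP7fV
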