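import Pool.Agent.Lib.MP_7f581e_ntE.Defs
import Pool.Agent.Lib.MP_7f581e_ntL.U12
import Pool.Agent.Lib.MP_7f581e_ntL.U13
import Pool.Agent.Lib.MP_7f581e_ntL.V5

section

/-!
Unitary generic Lang torsor, part 14: embedding problems.
-/

set_option autoImplicit false
set_option linter.unusedSectionVars false

universe u v

namespace MP7fU

open TensorProduct MP7fS MP7fR MP7fE

/-- Transport of a Galois extension along an isomorphism of the base field. -/
theorem transport_base {K F F' L : Type u} [Field K] [Field F] [Field F'] [Field L] [Algebra K F]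
    [Algebra K F'] [Algebra F' L] (r : F ≃ₐ[K] F') (hfd : FiniteDimensional F' L)
    (hgal : IsGalois F' L) {E : Type} [Group E] (e : (L ≃ₐ[F'] L) ≃* E) :
    ∃ (_ : Algebra F L) (_ : FiniteDimensional F L) (_ : IsGalois F L)
      (e1 : (L ≃ₐ[F] L) ≃* E), (∀ a : F, algebraMap F L a = algebraMap F' L (r a)) ∧
        ∀ σ : L ≃ₐ[F] L, ∃ σ' : L ≃ₐ[F'] L, (∀ x, σ x = σ' x) ∧ e1 σ = e σ' := by
  let _ : Algebra F F' := (r : F →+* F').toAlgebra
  let _ : Algebra F L := ((algebraMap F' L).comp (r : F →+* F')).toAlgebra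
  have htow : IsScalarTower F F' L := IsScalarTower.of_algebraMap_eq (fun _ => rfl)
  have hsurj : Function.Surjective (algebraMap F F') := r.surjective
  have hfdF : Module.Finite F F' := Module.Finite.of_surjective (Algebra.linearMap F F') hsurj
  refine ⟨inferInstance, Module.Finite.trans F' L, ?_,
    (AlgEquiv.extendScalarsHomOfSurjective (A := L) hsurj).trans e, fun a => rfl, ?_⟩
  · refine IsGalois.of_equiv_equiv (F := F') (E := L) (f := (r : F ≃+* F').symm)
      (g := RingEquiv.refl L) ?_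
    ext x
    change algebraMap F' L (r (r.symm x)) = algebraMap F' L x
    rw [r.apply_symm_apply]
  · intro σ
    exact ⟨AlgEquiv.extendScalarsHomOfSurjective (A := L) hsurj σ, fun x => rfl, rfl⟩

section

variable {p : ℕ} [Fact p.Prime] {B : Type} [Ring B] [Finite B] [Algebra (ZMod p) B]
  (J : AInv p B)
variable {κ : Type} [Fintype κ] [DecidableEq κ] (sb : Module.Basis κ (ZMod p) (Sk J))
variable {c : B}
variable {K M : Type u} [Field K] [Field M] [Algebra K M] [Algebra (ZMod p) M]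
variable (L : Type u) [Field L] [Algebra (MvPolynomial κ M) L]
  [IsFractionRing (MvPolynomial κ M) L] [Algebra M L] [IsScalarTower M (MvPolynomial κ M) L]
  [Algebra (ZMod p) L] [CharP L p] [Algebra K L] [IsScalarTower K M L]
variable (hG : Good J c)
variable {Γ : Type} [Group Γ] [Finite Γ] (γ : Γ ≃* (M ≃ₐ[K] M)) (ρ : Γ →* (B ≃+* B))
  (hρ : ∀ g b, ρ g (J.j b) = J.j (ρ g b))
variable {b : Module.Basis κ M (VV J M)} {c' : M ⊗[ZMod p] B} (hc' : c' + jR J M c' = 1)
  (hb : ∀ i g, sg γ ρ g (b i : M ⊗[ZMod p] B) = b i) (hcf : ∀ g, sg γ ρ g c' = c')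

include hb hcf in
theorem galois_FU_emb [FiniteDimensional K M] [IsGalois K M] :
    FiniteDimensional (FU J sb L K hG b hc') L ∧ IsGalois (FU J sb L K hG b hc') L ∧
      ∃ e : (L ≃ₐ[FU J sb L K hG b hc'] L) ≃* (J.U ⋊[uactU J ρ hρ] Γ),
        ∀ σ x, σ x = PsiU J sb L hG γ ρ hρ (e σ) x := by
  obtain ⟨hfd, hgal, ⟨e0⟩⟩ := galois_FU J sb L hG γ ρ hρ hc' hb hcf
  let E : (L ≃ₐ[FU J sb L K hG b hc'] L) ≃* (L →ₐ[FU J sb L K hG b hc'] L) :=
    algEquivEquivAlgHom _ _
  have hfinH : Finite (J.U ⋊[uactU J ρ hρ] Γ) :=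
    Finite.of_equiv _ SemidirectProduct.equivProd.symm
  have hcard : Nat.card (J.U ⋊[uactU J ρ hρ] Γ) =
      Nat.card (L →ₐ[FU J sb L K hG b hc'] L) :=
    (Nat.card_congr e0.toEquiv).symm.trans (Nat.card_congr E.toEquiv)
  have hbij : Function.Bijective (PsiFU J sb L hG γ ρ hρ hc' hb hcf) :=
    (Nat.bijective_iff_injective_and_card _).mpr
      ⟨PsiFU_inj J sb L hG γ ρ hρ hc' hb hcf, hcard⟩
  refine ⟨hfd, hgal, E.trans (MulEquiv.ofBijective _ hbij).symm, ?_⟩
  intro σ x
  have h1 : PsiFU J sb L hG γ ρ hρ hc' hb hcf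
      ((E.trans (MulEquiv.ofBijective _ hbij).symm) σ) = E σ :=
    (MulEquiv.ofBijective _ hbij).apply_symm_apply (E σ)
  have h2 := congrArg (fun f : L →ₐ[FU J sb L K hG b hc'] L => f x) h1
  exact h2.symm

end

/-- **Unitary generic Lang torsor, embedding problems.** Let `K` be a field of characteristic
`p`, and let the finite group `Γ` act on the finite ring `B` of characteristic `p` with
anti-involution `J`, for which the Cayley transform is good. Then the split embedding problems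
over `K` with kernel the unitary group of `B` and group `Γ` have proper solutions over a
rational function field over `K`. -/
theorem lang_unitary_emb {p : ℕ} [Fact p.Prime] {B : Type} [Ring B] [Finite B]
    [Algebra (ZMod p) B] (J : AInv p B) {c : B} (hG : Good J c)
    {K : Type u} [Field K] [CharP K p] {Γ : Type} [Group Γ] [Finite Γ]
    (ρ : Γ →* (B ≃+* B)) (hρ : ∀ g b, ρ g (J.j b) = J.j (ρ g b)) :
    SolvesOver K (FractionRing (MvPolynomial (Fin (Module.finrank (ZMod p) (Sk J))) K))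
      (SemidirectProduct.rightHom : J.U ⋊[uactU J ρ hρ] Γ →* Γ) := by
  intro M _ _ hfd hgal γ
  have hM : CharP M p := charP_of_injective_algebraMap (algebraMap K M).injective p
  let _ : Algebra (ZMod p) M := ZMod.algebra M p
  let sb := Module.finBasis (ZMod p) (Sk J)
  let κ := Fin (Module.finrank (ZMod p) (Sk J))
  let L := FractionRing (MvPolynomial κ M)
  have hL : CharP L p := charP_of_injective_algebraMap (algebraMap M L).injective p
  obtain ⟨c', hc', hcf⟩ := exists_c' J γ.symm ρ hρ hG.hc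
  obtain ⟨b, hb⟩ := exists_inv_basis_V J sb γ.symm ρ hρ
  obtain ⟨h1, h2, e, he⟩ := galois_FU_emb J sb L hG γ.symm ρ hρ hc' hb hcf
  have h4 : Algebra.IsAlgebraic (FU J sb L K hG b hc') L := Algebra.IsAlgebraic.of_finite _ _
  have h5 : AlgebraicIndependent K (bet J sb L M hG b hc') :=
    algebraicIndependent_bet J sb L hG hc'
  obtain ⟨alg, hfd', hgal', e1, hal, hσ⟩ :=
    transport_base (L := L) h5.aevalEquivField h1 h2 e
  refine ⟨L, inferInstance, alg, hfd', hgal', e1, algebraMap M L, ?_, ?_⟩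
  · intro a
    rw [hal, AlgEquiv.commutes, ← IsScalarTower.algebraMap_apply K M L]
    rfl
  · intro σ x
    obtain ⟨σ', h6, h7⟩ := hσ σ
    have h8 : σ' (algebraMap M L x) = PsiU J sb L hG γ.symm ρ hρ (e σ') (algebraMap M L x) :=
      he σ' (algebraMap M L x)
    rw [PsiU_M] at h8
    rw [h6, h7]
    exact h8

/-- The case of special linear groups. -/
theorem lang_SL2_emb {p : ℕ} [Fact p.Prime] {F : Type} [Field F] [Finite F]
    [Algebra (ZMod p) F] (k : ℕ) {K : Type u} [Field K] [CharP K p] {Γ : Type} [Group Γ]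
    [Finite Γ] (ρ : Γ →* (BM k F ≃+* BM k F))
    (hρ : ∀ g b, ρ g ((adjInv p k F).j b) = (adjInv p k F).j (ρ g b)) :
    ∃ r : ℕ, SolvesOver K (FractionRing (MvPolynomial (Fin r) K))
      (SemidirectProduct.rightHom : (adjInv p k F).U ⋊[uactU _ ρ hρ] Γ →* Γ) :=
  ⟨_, lang_unitary_emb (adjInv p k F) good_adj ρ hρ⟩

/-- The case of unit groups with automorphisms and anti-automorphisms. -/
theorem lang_exch_emb {p : ℕ} [Fact p.Prime] (C : Type) [Ring C] [Finite C]
    [Algebra (ZMod p) C] {K : Type u} [Field K] [CharP K p] {Γ : Type} [Group Γ] [Finite Γ]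
    (ρ : Γ →* (C × Cᵐᵒᵖ ≃+* C × Cᵐᵒᵖ))
    (hρ : ∀ g b, ρ g ((exchInv p C).j b) = (exchInv p C).j (ρ g b)) :
    ∃ r : ℕ, SolvesOver K (FractionRing (MvPolynomial (Fin r) K))
      (SemidirectProduct.rightHom : (exchInv p C).U ⋊[uactU _ ρ hρ] Γ →* Γ) :=
  ⟨_, lang_unitary_emb (exchInv p C) (good_exch p C) ρ hρ⟩

end MP7fU

end

section

/-!
Special unitary generic Lang torsor, part 6: conclusion (given genericity).
-/

set_option autoImplicit false
set_option linter.unusedSectionVars false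

universe u v

namespace MP7fV

open TensorProduct MP7fS MP7fU MP7fR MP7fE

section

variable {p : ℕ} [Fact p.Prime] {B : Type} [Ring B] [Finite B] [Algebra (ZMod p) B]
  {J : AInv p B} {n : ℕ} {C : Type} [CommRing C] [Finite C] [Algebra (ZMod p) C]
  (D : DetData J n C)
variable {κ : Type} [Fintype κ] [DecidableEq κ] (sb : Module.Basis κ (ZMod p) (Sk J))
variable {c : B}
variable {K M : Type u} [Field K] [Field M] [Algebra K M] [Algebra (ZMod p) M]
variable (L : Type u) [Field L] [Algebra (MvPolynomial κ M) L]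
  [IsFractionRing (MvPolynomial κ M) L] [Algebra M L] [IsScalarTower M (MvPolynomial κ M) L]
  [Algebra (ZMod p) L] [CharP L p] [Algebra K L] [IsScalarTower K M L]
variable (hG : Good J c)
variable (hgen : IsUnit (1 - ((ml D L (gU J sb L hG M) : (L ⊗[ZMod p] B)ˣ) : L ⊗[ZMod p] B)))

section der

variable (b : Module.Basis κ M (VV J M)) {c' : M ⊗[ZMod p] B} (hc' : c' + jR J M c' = 1)
variable {F : Type u} [Field F] [Algebra F L]

include hgen in
theorem der_zeroT {Ω : Type*} [AddCommGroup Ω] [Module L Ω]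
    [Module F Ω] (Dv : Derivation F L Ω) (hM : ∀ m : M, Dv (algebraMap M L m) = 0)
    (ha : ∀ i, Dv (betT D sb L hG M hgen b hc' i) = 0) (z : L) : Dv z = 0 := by
  classical
  let f : dK L Dv →+* L := (dK L Dv).subtype
  let g : M →+* dK L Dv := (algebraMap M L).codRestrict (dK L Dv) hM
  have hfg : f.comp g = algebraMap M L := rfl
  let _ : Algebra (ZMod p) (dK L Dv) := (g.comp (algebraMap (ZMod p) M)).toAlgebra
  have hchar : CharP (dK L Dv) p := f.charP f.injective p
  have hzM : ∀ w : M ⊗[ZMod p] B, tmap (p := p) (algebraMap M L) (RingHom.id B) w ∈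
      (tmap (p := p) f (RingHom.id B)).range := by
    intro w
    refine ⟨tmap g (RingHom.id B) w, ?_⟩
    rw [tmap_comp]
    rfl
  have hsm : ∀ (r : L) (w : L ⊗[ZMod p] B), Dv r = 0 →
      w ∈ (tmap (p := p) f (RingHom.id B)).range →
      r • w ∈ (tmap (p := p) f (RingHom.id B)).range := by
    rintro r _ hr ⟨w, rfl⟩
    exact ⟨(⟨r, hr⟩ : dK L Dv) • w, by rw [tmap_smul]; rfl⟩
  have h1 : (((gV D sb L hG M hgen)⁻¹ : (L ⊗[ZMod p] B)ˣ) : L ⊗[ZMod p] B) ∈
      (tmap (p := p) f (RingHom.id B)).range := by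
    rw [sum_betW J sb L b hc' _ (gV_skew D sb L hG hgen)]
    exact add_mem (hzM _) (sum_mem fun k _ => hsm _ _ (ha k) (hzM _))
  have h2 := desc_inv f _ h1
  rw [inv_inv, coe_gV] at h2
  have h3 : ((ml D L (gU J sb L hG M) : (L ⊗[ZMod p] B)ˣ) : L ⊗[ZMod p] B) ∈
      (tmap (p := p) f (RingHom.id B)).range := by
    have := sub_mem (one_mem _) h2
    rwa [sub_sub_cancel] at this
  have h4 := range_mn D f h3
  rw [mn_ml, uf_gU] at h4
  have h5 : ((gW J sb L hG M : (L ⊗[ZMod p] B)ˣ) : L ⊗[ZMod p] B) ∈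
      (tmap (p := p) f (RingHom.id B)).range := by
    rw [coe_gW]
    exact sub_mem (one_mem _) h4
  have h6 := desc_inv f _ h5
  apply der_zero J sb L hG b hc' Dv hM
  intro i
  obtain ⟨r, hr⟩ := betW_mem J sb L b hc' f g hfg _ (gW_skew J sb (M := M) L hG) h6 i
  rw [bet_eq, ← hr]
  exact r.2

variable [Algebra K F] [IsScalarTower K F L]

include sb hG b hgen in
theorem formallyUnramifiedT [Algebra.IsSeparable K M]
    (haF : ∀ i, ∃ z : F, algebraMap F L z = betT D sb L hG M hgen b hc' i) :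
    Algebra.FormallyUnramified F L := by
  rw [Algebra.formallyUnramified_iff]
  have h0 : ∀ z : L, KaehlerDifferential.D F L z = 0 := by
    intro z
    apply der_zeroT D sb L hG hgen b hc' (KaehlerDifferential.D F L)
    · exact der_M (K := K) L (KaehlerDifferential.D F L)
    · intro i
      obtain ⟨z, hz⟩ := haF i
      rw [← hz, Derivation.map_algebraMap]
  have h1 := KaehlerDifferential.span_range_derivation F L
  have h2 : Submodule.span L (Set.range (KaehlerDifferential.D F L)) = ⊥ := by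
    rw [Submodule.span_eq_bot]
    rintro _ ⟨z, rfl⟩
    exact h0 z
  rw [h2] at h1
  exact (Submodule.subsingleton_iff L).mp (subsingleton_of_bot_eq_top h1)

include sb hG b hgen in
theorem finite_separableT [FiniteDimensional K M] [Algebra.IsSeparable K M]
    (haF : ∀ i, ∃ z : F, algebraMap F L z = betT D sb L hG M hgen b hc' i) :
    FiniteDimensional F L ∧ Algebra.IsSeparable F L := by
  have h1 : Algebra.FormallyUnramified F L :=
    formallyUnramifiedT (K := K) D sb L hG hgen b hc' haF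
  have h2 : Algebra.EssFiniteType (MvPolynomial κ M) L :=
    Algebra.EssFiniteType.of_isLocalization L (nonZeroDivisors (MvPolynomial κ M))
  have h3 : Algebra.EssFiniteType M L := Algebra.EssFiniteType.comp M (MvPolynomial κ M) L
  have h4 : Algebra.EssFiniteType K L := Algebra.EssFiniteType.comp K M L
  have h5 : Algebra.EssFiniteType F L := Algebra.EssFiniteType.of_comp K F L
  exact ⟨Algebra.FormallyUnramified.finite_of_free F L,
    Algebra.FormallyUnramified.isSeparable F L⟩

end der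

variable {Γ : Type} [Group Γ] [Finite Γ] (γ : Γ ≃* (M ≃ₐ[K] M)) (ρ : Γ →* (B ≃+* B))
  (hρ : ∀ g b, ρ g (J.j b) = J.j (ρ g b))
  (hD : ∀ g, ∃ σ : C →+* C, D.Compat (ρ g : B →+* B) σ)
variable {b : Module.Basis κ M (VV J M)} {c' : M ⊗[ZMod p] B} (hc' : c' + jR J M c' = 1)
  (hb : ∀ i g, sg γ ρ g (b i : M ⊗[ZMod p] B) = b i) (hcf : ∀ g, sg γ ρ g c' = c')

/-- The field of invariants. -/
noncomputable def FT (K : Type u) [Field K] [Algebra K L]
    (hgen : IsUnit (1 - ((ml D L (gU J sb L hG M) : (L ⊗[ZMod p] B)ˣ) : L ⊗[ZMod p] B)))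
    (b : Module.Basis κ M (VV J M)) {c' : M ⊗[ZMod p] B} (hc' : c' + jR J M c' = 1) :
    IntermediateField K L :=
  IntermediateField.adjoin K (Set.range (betT D sb L hG M hgen b hc'))

include hb hcf in
theorem PsiU_FT (h : (SU D) ⋊[suact D ρ hρ hD] Γ) {z : L} (hz : z ∈ FT D sb L hG K hgen b hc') :
    PsiU J sb L hG γ ρ hρ (inc D ρ hρ hD h) z = z := by
  unfold FT at hz
  induction hz using IntermediateField.adjoin_induction with
  | mem x hx =>
    obtain ⟨i, rfl⟩ := hx
    exact (fix_iff D sb L hG hgen γ ρ hρ hD hc' hb hcf (inc D ρ hρ hD h)).mpr h.left.2 i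
  | algebraMap k =>
    rw [IsScalarTower.algebraMap_apply K M L, PsiU_M, AlgEquiv.commutes]
  | add x y _ _ hx hy => rw [map_add, hx, hy]
  | inv x _ hx => rw [map_inv₀, hx]
  | mul x y _ _ hx hy => rw [map_mul, hx, hy]

/-- The action as automorphisms over the field of invariants. -/
noncomputable def PsiFT : ((SU D) ⋊[suact D ρ hρ hD] Γ) →*
    (L →ₐ[FT D sb L hG K hgen b hc'] L) where
  toFun h := { PsiU J sb L hG γ ρ hρ (inc D ρ hρ hD h) with
    commutes' := fun z => PsiU_FT D sb L hG hgen γ ρ hρ hD hc' hb hcf h z.2 }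
  map_one' := by
    refine AlgHom.ext fun z => ?_
    have h1 : PsiU J sb L hG γ ρ hρ (inc D ρ hρ hD 1) = RingHom.id L := by
      rw [map_one]
      exact PsiU_one J sb (M := M) L hG γ ρ hρ
    exact congrArg (fun f : L →+* L => f z) h1
  map_mul' h h' := by
    refine AlgHom.ext fun z => ?_
    have h1 : PsiU J sb L hG γ ρ hρ (inc D ρ hρ hD (h * h')) =
        (PsiU J sb L hG γ ρ hρ (inc D ρ hρ hD h)).comp
          (PsiU J sb L hG γ ρ hρ (inc D ρ hρ hD h')) := by
      rw [map_mul]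
      exact (PsiU_comp J sb (M := M) L hG γ ρ hρ _ _).symm
    exact congrArg (fun f : L →+* L => f z) h1

theorem PsiFT_apply (h : (SU D) ⋊[suact D ρ hρ hD] Γ) (z : L) :
    PsiFT D sb L hG hgen γ ρ hρ hD hc' hb hcf h z =
      PsiU J sb L hG γ ρ hρ (inc D ρ hρ hD h) z := rfl

theorem PsiFT_inj : Function.Injective (PsiFT D sb L hG hgen γ ρ hρ hD hc' hb hcf) := by
  intro h h' hh
  apply inc_inj D ρ hρ hD
  apply PsiU_inj J sb L hG γ ρ hρ
  refine RingHom.ext fun z => ?_
  exact congrArg (fun f : L →ₐ[FT D sb L hG K hgen b hc'] L => f z) hh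

include hb hcf in
/-- Every embedding is in the orbit of a given one. -/
theorem exists_embT [Normal K M] {S : Type*} [Field S] [Algebra (ZMod p) S] [CharP S p]
    [Algebra L S] [Algebra M S] [Algebra K S] [IsScalarTower K M S] [IsScalarTower M L S]
    [IsScalarTower K L S] (f : L →+* S)
    (hf : ∀ z : L, z ∈ FT D sb L hG K hgen b hc' → f z = algebraMap L S z) :
    ∃ h : (SU D) ⋊[suact D ρ hρ hD] Γ,
      f = (algebraMap L S).comp (PsiU J sb L hG γ ρ hρ (inc D ρ hρ hD h)) := by
  let fK : L →ₐ[K] S := { f with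
    commutes' := fun k => by
      have h1 := hf (algebraMap K L k) (IntermediateField.algebraMap_mem _ k)
      rw [← IsScalarTower.algebraMap_apply K L S] at h1
      exact h1 }
  let s := fK.restrictNormal M
  have hs : Function.Bijective s := AlgHom.normal_bijective K M M s
  let s' : M ≃ₐ[K] M := AlgEquiv.ofBijective s hs
  have h2 : ∀ m : M, f (algebraMap M L m) =
      algebraMap L S (algebraMap M L (γ (γ.symm s') m)) := by
    intro m
    have h3 := fK.restrictNormal_commutes M m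
    rw [← IsScalarTower.algebraMap_apply M L S, MulEquiv.apply_symm_apply]
    exact h3.symm
  have h4 : ∀ i, f (betT D sb L hG M hgen b hc' i) =
      algebraMap L S (betT D sb L hG M hgen b hc' i) := fun i =>
    hf _ (IntermediateField.subset_adjoin _ _ (Set.mem_range_self i))
  have h5 := bet_of_betT D sb L hG hgen γ ρ hD hc' hb hcf (f' := algebraMap L S) h2 h4
  obtain ⟨h, hh⟩ := exists_PsiU J sb L hG γ ρ hρ hc' hb hcf (f' := algebraMap L S) h2 h5
  have h6 : h.left ∈ SU D := by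
    rw [← fix_iff D sb L hG hgen γ ρ hρ hD hc' hb hcf h]
    intro i
    apply (algebraMap L S).injective
    have h7 := h4 i
    rw [hh] at h7
    exact h7
  exact ⟨⟨⟨h.left, h6⟩, h.right⟩, hh⟩

include hb hcf in
theorem galois_FT [FiniteDimensional K M] [IsGalois K M] :
    FiniteDimensional (FT D sb L hG K hgen b hc') L ∧
      IsGalois (FT D sb L hG K hgen b hc') L ∧
      ∃ e : (L ≃ₐ[FT D sb L hG K hgen b hc'] L) ≃* ((SU D) ⋊[suact D ρ hρ hD] Γ),
        ∀ σ x, σ x = PsiU J sb L hG γ ρ hρ (inc D ρ hρ hD (e σ)) x := by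
  obtain ⟨hfd, hsep⟩ := finite_separableT (K := K) D sb L hG hgen b hc'
    (F := FT D sb L hG K hgen b hc') (fun i => ⟨⟨betT D sb L hG M hgen b hc' i,
      IntermediateField.subset_adjoin _ _ (Set.mem_range_self i)⟩, rfl⟩)
  let A := AlgebraicClosure L
  have hA : CharP A p := charP_of_injective_algebraMap (algebraMap L A).injective p
  have hfin : Finite Bˣ := inferInstance
  have hfinH : Finite ((SU D) ⋊[suact D ρ hρ hD] Γ) :=
    Finite.of_equiv _ SemidirectProduct.equivProd.symm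
  have h1 : Nat.card (L →ₐ[FT D sb L hG K hgen b hc'] A) =
      Module.finrank (FT D sb L hG K hgen b hc') L := by
    rw [Nat.card_eq_fintype_card]
    exact AlgHom.card (FT D sb L hG K hgen b hc') L A
  let Θ : ((SU D) ⋊[suact D ρ hρ hD] Γ) → (L →ₐ[FT D sb L hG K hgen b hc'] A) := fun h =>
    (IsScalarTower.toAlgHom (FT D sb L hG K hgen b hc') L A).comp
      (PsiFT D sb L hG hgen γ ρ hρ hD hc' hb hcf h)
  have hΘ : Function.Surjective Θ := by
    intro f
    obtain ⟨h, hh⟩ := exists_embT D sb L hG hgen γ ρ hρ hD hc' hb hcf (S := A) (f : L →+* A) (by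
      intro z hz
      have h2 := f.commutes ⟨z, hz⟩
      exact h2)
    refine ⟨h, AlgHom.ext fun z => ?_⟩
    exact congrArg (fun f : L →+* A => f z) hh.symm
  have h2 : Nat.card (L →ₐ[FT D sb L hG K hgen b hc'] A) ≤
      Nat.card ((SU D) ⋊[suact D ρ hρ hD] Γ) :=
    Nat.card_le_card_of_surjective Θ hΘ
  have h3 : Nat.card ((SU D) ⋊[suact D ρ hρ hD] Γ) ≤
      Nat.card (L →ₐ[FT D sb L hG K hgen b hc'] L) :=
    Nat.card_le_card_of_injective _ (PsiFT_inj D sb L hG hgen γ ρ hρ hD hc' hb hcf)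
  let E : (L ≃ₐ[FT D sb L hG K hgen b hc'] L) ≃* (L →ₐ[FT D sb L hG K hgen b hc'] L) :=
    algEquivEquivAlgHom _ _
  have h4 : Nat.card (L ≃ₐ[FT D sb L hG K hgen b hc'] L) =
      Nat.card (L →ₐ[FT D sb L hG K hgen b hc'] L) :=
    Nat.card_congr E.toEquiv
  have h5 : Nat.card (L ≃ₐ[FT D sb L hG K hgen b hc'] L) ≤
      Module.finrank (FT D sb L hG K hgen b hc') L := by
    rw [Nat.card_eq_fintype_card]
    exact AlgEquiv.card_le
  have h6 : Nat.card (L ≃ₐ[FT D sb L hG K hgen b hc'] L) =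
      Module.finrank (FT D sb L hG K hgen b hc') L := by omega
  have hbij : Function.Bijective (PsiFT D sb L hG hgen γ ρ hρ hD hc' hb hcf) := by
    refine (Nat.bijective_iff_injective_and_card _).mpr
      ⟨PsiFT_inj D sb L hG hgen γ ρ hρ hD hc' hb hcf, by omega⟩
  refine ⟨hfd, IsGalois.of_card_aut_eq_finrank _ _ h6,
    E.trans (MulEquiv.ofBijective _ hbij).symm, ?_⟩
  intro σ x
  have h7 : PsiFT D sb L hG hgen γ ρ hρ hD hc' hb hcf
      ((E.trans (MulEquiv.ofBijective _ hbij).symm) σ) = E σ :=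
    (MulEquiv.ofBijective _ hbij).apply_symm_apply (E σ)
  have h8 := congrArg (fun f : L →ₐ[FT D sb L hG K hgen b hc'] L => f x) h7
  exact h8.symm

open scoped IntermediateField.algebraAdjoinAdjoin in
include sb in
theorem algebraicIndependent_betT [FiniteDimensional K M] [IsGalois K M]
    [Algebra.IsAlgebraic (FT D sb L hG K hgen b hc') L] :
    AlgebraicIndependent K (betT D sb L hG M hgen b hc') := by
  have h1 : Algebra.IsAlgebraic
      (Algebra.adjoin K (Set.range (betT D sb L hG M hgen b hc'))) L := by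
    have h2 : Algebra.IsAlgebraic
        (IntermediateField.adjoin K (Set.range (betT D sb L hG M hgen b hc'))) L :=
      inferInstanceAs (Algebra.IsAlgebraic (FT D sb L hG K hgen b hc') L)
    exact (IsFractionRing.comap_isAlgebraic_iff
      (K := IntermediateField.adjoin K (Set.range (betT D sb L hG M hgen b hc')))).mpr h2
  have h2 : IsTranscendenceBasis K (betT D sb L hG M hgen b hc') := by
    apply Algebra.IsAlgebraic.isTranscendenceBasis_of_lift_le_trdeg_of_finite K
    rw [← trdeg_L (K := K) (M := M) (ι := κ) L, Cardinal.lift_id']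
  exact h2.1

end

/-- **Special unitary generic Lang torsor.** -/
theorem lang_su_aux {p : ℕ} [Fact p.Prime] {B : Type} [Ring B] [Finite B]
    [Algebra (ZMod p) B] {J : AInv p B} {n : ℕ} {C : Type} [CommRing C] [Finite C]
    [Algebra (ZMod p) C] (D : DetData J n C) {c : B} (hG : Good J c)
    {K : Type u} [Field K] [CharP K p] {Γ : Type} [Group Γ] [Finite Γ]
    (ρ : Γ →* (B ≃+* B)) (hρ : ∀ g b, ρ g (J.j b) = J.j (ρ g b))
    (hD : ∀ g, ∃ σ : C →+* C, D.Compat (ρ g : B →+* B) σ)
    (hgen : ∀ (M L : Type u) [Field M] [Field L] [Algebra (ZMod p) M]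
      [Algebra (MvPolynomial (Fin (Module.finrank (ZMod p) (Sk J))) M) L]
      [IsFractionRing (MvPolynomial (Fin (Module.finrank (ZMod p) (Sk J))) M) L]
      [Algebra M L] [IsScalarTower M (MvPolynomial (Fin (Module.finrank (ZMod p) (Sk J))) M) L]
      [Algebra (ZMod p) L] [CharP L p], IsUnit (1 - ((ml D L (gU J
        (Module.finBasis (ZMod p) (Sk J)) L hG M) : (L ⊗[ZMod p] B)ˣ) : L ⊗[ZMod p] B))) :
    SolvesOver K (FractionRing (MvPolynomial (Fin (Module.finrank (ZMod p) (Sk J))) K))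
      (SemidirectProduct.rightHom : (SU D) ⋊[suact D ρ hρ hD] Γ →* Γ) := by
  intro M _ _ hfd hgal γ
  have hM : CharP M p := charP_of_injective_algebraMap (algebraMap K M).injective p
  let _ : Algebra (ZMod p) M := ZMod.algebra M p
  let sb := Module.finBasis (ZMod p) (Sk J)
  let κ := Fin (Module.finrank (ZMod p) (Sk J))
  let L := FractionRing (MvPolynomial κ M)
  have hL : CharP L p := charP_of_injective_algebraMap (algebraMap M L).injective p
  obtain ⟨c', hc', hcf⟩ := exists_c' J γ.symm ρ hρ hG.hc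
  obtain ⟨b, hb⟩ := exists_inv_basis_V J sb γ.symm ρ hρ
  have hg := hgen M L
  obtain ⟨h1, h2, e, he⟩ := galois_FT D sb L hG hg γ.symm ρ hρ hD hc' hb hcf
  have h4 : Algebra.IsAlgebraic (FT D sb L hG K hg b hc') L := Algebra.IsAlgebraic.of_finite _ _
  have h5 : AlgebraicIndependent K (betT D sb L hG M hg b hc') :=
    algebraicIndependent_betT D sb L hG hg hc'
  obtain ⟨alg, hfd', hgal', e1, hal, hσ⟩ :=
    transport_base (L := L) h5.aevalEquivField h1 h2 e
  refine ⟨L, inferInstance, alg, hfd', hgal', e1, algebraMap M L, ?_, ?_⟩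
  · intro a
    rw [hal, AlgEquiv.commutes, ← IsScalarTower.algebraMap_apply K M L]
    rfl
  · intro σ x
    obtain ⟨σ', h6, h7⟩ := hσ σ
    have h8 : σ' (algebraMap M L x) = PsiU J sb L hG γ.symm ρ hρ
      (inc D ρ hρ hD (e σ')) (algebraMap M L x) := he σ' (algebraMap M L x)
    rw [PsiU_M] at h8
    rw [h6, h7]
    exact h8

end MP7fV

end

section

/-!
Special unitary generic Lang torsor, part 7: genericity.
-/

set_option autoImplicit false
set_option linter.unusedSectionVars false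

universe u v

namespace MP7fV

open TensorProduct MP7fS MP7fU MP7fR MP7fE

section cayley

variable {p : ℕ} [Fact p.Prime] {B : Type} [Ring B] [Finite B] [Algebra (ZMod p) B]
  (J : AInv p B)
variable {R S : Type*} [CommRing R] [CommRing S] [Algebra (ZMod p) R] [Algebra (ZMod p) S]

/-- The Cayley transform. -/
noncomputable def cay (y : (R ⊗[ZMod p] B)ˣ)
    (hy : (y : R ⊗[ZMod p] B) + jR J R (y : R ⊗[ZMod p] B) = 1) : (R ⊗[ZMod p] B)ˣ where
  val := 1 - ((y⁻¹ : (R ⊗[ZMod p] B)ˣ) : R ⊗[ZMod p] B)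
  inv := jR J R (1 - ((y⁻¹ : (R ⊗[ZMod p] B)ˣ) : R ⊗[ZMod p] B))
  val_inv := (cay_unitary J y hy).2
  inv_val := (cay_unitary J y hy).1

theorem coe_cay (y : (R ⊗[ZMod p] B)ˣ)
    (hy : (y : R ⊗[ZMod p] B) + jR J R (y : R ⊗[ZMod p] B) = 1) :
    ((cay J y hy : (R ⊗[ZMod p] B)ˣ) : R ⊗[ZMod p] B) =
      1 - ((y⁻¹ : (R ⊗[ZMod p] B)ˣ) : R ⊗[ZMod p] B) := rfl

theorem um_cay (f : R →+* S) (y : (R ⊗[ZMod p] B)ˣ)
    (hy : (y : R ⊗[ZMod p] B) + jR J R (y : R ⊗[ZMod p] B) = 1)
    (z : (S ⊗[ZMod p] B)ˣ) (hz : (z : S ⊗[ZMod p] B) + jR J S (z : S ⊗[ZMod p] B) = 1)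
    (h : um (tmap (p := p) f (RingHom.id B)) y = z) :
    um (tmap (p := p) f (RingHom.id B)) (cay J y hy) = cay J z hz := by
  apply Units.ext
  rw [coe_um, coe_cay, coe_cay, map_sub, map_one, ← coe_um, map_inv, h]

end cayley

section generic

variable {p : ℕ} [Fact p.Prime] {B : Type} [Ring B] [Finite B] [Algebra (ZMod p) B]
  {J : AInv p B} {n : ℕ} {C : Type} [CommRing C] [Finite C] [Algebra (ZMod p) C]
  (D : DetData J n C)
variable {κ : Type} [Fintype κ] [DecidableEq κ] (sb : Module.Basis κ (ZMod p) (Sk J))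
variable {c : B}
variable {M : Type u} [Field M] [Algebra (ZMod p) M]
variable (L : Type u) [Field L] [Algebra (MvPolynomial κ M) L]
  [IsFractionRing (MvPolynomial κ M) L] [Algebra M L] [IsScalarTower M (MvPolynomial κ M) L]
  [Algebra (ZMod p) L] [CharP L p]
variable (hG : Good J c)

instance charP_ac : CharP (AlgebraicClosure (ZMod p)) p :=
  charP_of_injective_algebraMap (algebraMap (ZMod p) (AlgebraicClosure (ZMod p))).injective p

/-- The genericity condition: there is a good unitary element over the algebraic closure of the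
prime field. -/
def GenX (D : DetData J n C) : Prop :=
  ∃ x₀ : (AlgebraicClosure (ZMod p) ⊗[ZMod p] B)ˣ, x₀ ∈ UR J (AlgebraicClosure (ZMod p)) ∧
    IsUnit (1 - (x₀ : AlgebraicClosure (ZMod p) ⊗[ZMod p] B)) ∧
    IsUnit (1 - ((ml D (AlgebraicClosure (ZMod p)) x₀ :
      (AlgebraicClosure (ZMod p) ⊗[ZMod p] B)ˣ) : AlgebraicClosure (ZMod p) ⊗[ZMod p] B))

theorem isUnit_ml (hx : GenX D) :
    IsUnit (1 - ((ml D L (gU J sb L hG M) : (L ⊗[ZMod p] B)ˣ) : L ⊗[ZMod p] B)) := by
  classical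
  obtain ⟨x₀, hx1, hx2, hx3⟩ := hx
  obtain ⟨w₀, hw₀⟩ := hx2
  have hy₀ := cay_skew J w₀ (x := (x₀ : AlgebraicClosure (ZMod p) ⊗[ZMod p] B)) hx1 hw₀
  obtain ⟨Y, hY⟩ := exists_cy J sb hG.hc hy₀
  have hx₀ : cay J w₀⁻¹ hy₀ = x₀ := by
    apply Units.ext
    rw [coe_cay, inv_inv, hw₀, sub_sub_cancel]
  let R0 := MvPolynomial κ (ZMod p)
  let y : R0 ⊗[ZMod p] B := cy J sb c MvPolynomial.X
  let e0 := Module.finBasis (ZMod p) B
  let δ : R0 := (lmm e0 y).det
  let P := Localization.Away δ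
  let j : R0 →+* P := algebraMap R0 P
  have hiδ : IsUnit (i0 (p := p) L M δ) := by
    have h1 := isUnit_lmm e0 (isUnit_gy J sb (M := M) L hG)
    rw [← tmap_i0_cy] at h1
    have h2 : (lmm e0 (tmap (p := p) (i0 (p := p) L M) (RingHom.id B) y)).det =
        i0 (p := p) L M δ := by
      rw [lmm_tmap]
      exact (RingHom.map_det (i0 (p := p) L M) (lmm e0 y)).symm
    rw [← h2]
    exact h1
  have heδ : IsUnit (ev Y δ) := by
    have h1 : IsUnit (cy J sb c Y) := by
      rw [← hY]
      exact Units.isUnit _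
    have h2 := isUnit_lmm e0 h1
    rw [← tmap_ev_cy] at h2
    have h3 : (lmm e0 (tmap (p := p) (ev Y) (RingHom.id B) y)).det = ev Y δ := by
      rw [lmm_tmap]
      exact (RingHom.map_det (ev Y) (lmm e0 y)).symm
    rw [← h3]
    exact h2
  let iP : P →+* L := IsLocalization.Away.lift δ hiδ
  let eP : P →+* AlgebraicClosure (ZMod p) := IsLocalization.Away.lift δ heδ
  have hiP : iP.comp j = i0 (p := p) L M := IsLocalization.Away.lift_comp δ hiδ
  have heP : eP.comp j = ev Y := IsLocalization.Away.lift_comp δ heδ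
  have hinj : Function.Injective iP := by
    rw [injective_iff_map_eq_zero]
    intro z hz
    obtain ⟨⟨a, s⟩, hs⟩ := IsLocalization.surj (Submonoid.powers δ) z
    have h1 : iP (z * algebraMap R0 P s) = 0 := by rw [map_mul, hz, zero_mul]
    rw [hs] at h1
    have h2 : i0 (p := p) L M a = 0 := by
      rw [← hiP]
      exact h1
    have h3 : a = 0 := i0_injective L (h2.trans (map_zero _).symm)
    rw [h3, map_zero] at hs
    have h4 : IsUnit (algebraMap R0 P s) := IsLocalization.map_units P s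
    exact h4.mul_left_eq_zero.mp hs
  have hcP : CharP P p := iP.charP hinj p
  have hyP : IsUnit (tmap (p := p) j (RingHom.id B) y) := by
    apply isUnit_of_lmm e0
    rw [lmm_tmap]
    have h1 : ((lmm e0 y).map j).det = j δ := (RingHom.map_det j (lmm e0 y)).symm
    rw [h1]
    exact IsLocalization.Away.algebraMap_isUnit δ
  let yP : (P ⊗[ZMod p] B)ˣ := hyP.unit
  have hyP2 : (yP : P ⊗[ZMod p] B) + jR J P (yP : P ⊗[ZMod p] B) = 1 := by
    change tmap (p := p) j (RingHom.id B) y + jR J P (tmap (p := p) j (RingHom.id B) y) = 1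
    rw [jR_tmap J j (RingHom.id B) (fun _ => rfl), ← map_add, cy_add J sb hG.hc, map_one]
  have h1 : um (tmap (p := p) iP (RingHom.id B)) yP = gyu J sb L hG M := by
    apply Units.ext
    rw [coe_um, coe_gyu, ← tmap_i0_cy, ← hiP]
    change tmap (p := p) iP (RingHom.id B) (tmap (p := p) j (RingHom.id B) y) = _
    rw [tmap_comp]
    rfl
  have h2 : um (tmap (p := p) eP (RingHom.id B)) yP = w₀⁻¹ := by
    apply Units.ext
    rw [coe_um, hY, ← tmap_ev_cy, ← heP]
    change tmap (p := p) eP (RingHom.id B) (tmap (p := p) j (RingHom.id B) y) = _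
    rw [tmap_comp]
    rfl
  have h3 : um (tmap (p := p) iP (RingHom.id B)) (cay J yP hyP2) = gU J sb L hG M :=
    um_cay J iP yP hyP2 (gyu J sb L hG M) (cy_add J sb hG.hc _) h1
  have h4 : um (tmap (p := p) eP (RingHom.id B)) (cay J yP hyP2) = x₀ := by
    rw [um_cay J eP yP hyP2 w₀⁻¹ hy₀ h2, hx₀]
  let w : P ⊗[ZMod p] B := 1 - ((ml D P (cay J yP hyP2) : (P ⊗[ZMod p] B)ˣ) : P ⊗[ZMod p] B)
  have h5 : tmap (p := p) iP (RingHom.id B) w =
      1 - ((ml D L (gU J sb L hG M) : (L ⊗[ZMod p] B)ˣ) : L ⊗[ZMod p] B) := by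
    change tmap (p := p) iP (RingHom.id B) (1 - _) = _
    rw [map_sub, map_one, ← coe_um, ← ml_um D iP D.compat_id, h3]
  have h6 : tmap (p := p) eP (RingHom.id B) w =
      1 - ((ml D (AlgebraicClosure (ZMod p)) x₀ :
      (AlgebraicClosure (ZMod p) ⊗[ZMod p] B)ˣ) : AlgebraicClosure (ZMod p) ⊗[ZMod p] B) := by
    change tmap (p := p) eP (RingHom.id B) (1 - _) = _
    rw [map_sub, map_one, ← coe_um, ← ml_um D eP D.compat_id, h4]
  rw [← h5]
  apply generic_unit w eP _ iP hinj
  rw [h6]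
  exact hx3

end generic

/-- **Special unitary generic Lang torsor.** -/
theorem lang_su_emb {p : ℕ} [Fact p.Prime] {B : Type} [Ring B] [Finite B]
    [Algebra (ZMod p) B] {J : AInv p B} {n : ℕ} {C : Type} [CommRing C] [Finite C]
    [Algebra (ZMod p) C] (D : DetData J n C) {c : B} (hG : Good J c) (hx : GenX D)
    {K : Type u} [Field K] [CharP K p] {Γ : Type} [Group Γ] [Finite Γ]
    (ρ : Γ →* (B ≃+* B)) (hρ : ∀ g b, ρ g (J.j b) = J.j (ρ g b))
    (hD : ∀ g, ∃ σ : C →+* C, D.Compat (ρ g : B →+* B) σ) :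
    SolvesOver K (FractionRing (MvPolynomial (Fin (Module.finrank (ZMod p) (Sk J))) K))
      (SemidirectProduct.rightHom : (SU D) ⋊[suact D ρ hρ hD] Γ →* Γ) :=
  lang_su_aux D hG ρ hρ hD (fun _ L => isUnit_ml D _ L hG hx)

end MP7fV

end
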