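import Pool.Agent.Lib.MP_7f581e_ntL.U3

/-!
Special unitary generic Lang torsor, part 8: good elements from idempotents.
-/

set_option autoImplicit false
set_option linter.unusedSectionVars false

universe u v

namespace MP7fV

open TensorProduct MP7fS MP7fU

section good

variable {p : ℕ} [Fact p.Prime] {B : Type} [Ring B] [Finite B] [Algebra (ZMod p) B]
  (J : AInv p B)

/-- A central idempotent which is moved by the anti-involution gives goodness. -/
theorem good_of_idem {c : B} (hc : c + J.j c = 1) (E : AlgebraicClosure (ZMod p) ⊗[ZMod p] B)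
    (hE : E * E = E) (hcen : ∀ z, E * z = z * E) (hj : jR J _ E = 1 - E) : Good J c where
  hc := hc
  hy := by
    classical
    obtain ⟨ν, hν⟩ := Infinite.exists_notMem_finset ({0, 1} : Finset (AlgebraicClosure (ZMod p)))
    rw [Finset.mem_insert, Finset.mem_singleton, not_or] at hν
    have hν1 : 1 - ν ≠ 0 := sub_ne_zero.mpr (Ne.symm hν.2)
    have hEE : E * (1 - E) = 0 := by rw [mul_sub, hE, mul_one, sub_self]
    have hEE' : (1 - E) * E = 0 := by rw [sub_mul, hE, one_mul, sub_self]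
    have hE1 : (1 - E) * (1 - E) = 1 - E := by rw [mul_sub, mul_one, hEE', sub_zero]
    have key : ∀ a b : AlgebraicClosure (ZMod p), a ≠ 0 → b ≠ 0 →
        (a • E + b • (1 - E)) * (a⁻¹ • E + b⁻¹ • (1 - E)) = 1 := by
      intro a b ha hb
      rw [add_mul, mul_add, mul_add, smul_mul_smul_comm, smul_mul_smul_comm, smul_mul_smul_comm,
        smul_mul_smul_comm, hE, hEE, hEE', hE1, smul_zero, smul_zero, add_zero, zero_add,
        mul_inv_cancel₀ ha, mul_inv_cancel₀ hb, one_smul, one_smul, add_sub_cancel]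
    refine ⟨ν • E + (1 - ν) • (1 - E), ?_, ?_⟩
    · rw [map_add, map_smul, map_smul, map_sub, jR_one, hj]
      rw [sub_sub_cancel]
      module
    · have h1 := key ν (1 - ν) hν.1 hν1
      have h2 := key ν⁻¹ (1 - ν)⁻¹ (inv_ne_zero hν.1) (inv_ne_zero hν1)
      rw [inv_inv, inv_inv] at h2
      exact ⟨⟨_, _, h1, h2⟩, rfl⟩
  hs := by
    refine ⟨E - (1 - E), ?_, ?_⟩
    · rw [map_sub, map_sub, jR_one, hj]
      abel
    · have h1 : (E - (1 - E)) * (E - (1 - E)) = 1 := by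
        calc (E - (1 - E)) * (E - (1 - E)) = 4 • (E * E) - 4 • E + 1 := by noncomm_ring
          _ = 1 := by rw [hE, sub_self, zero_add]
      exact ⟨⟨_, _, h1, h1⟩, rfl⟩
  hu := by
    intro u _
    have hu1 : ((1 : AlgebraicClosure (ZMod p)) ⊗ₜ[ZMod p] ((u⁻¹ : Bˣ) : B)) *
        (1 ⊗ₜ (u : B)) = 1 := by
      rw [Algebra.TensorProduct.tmul_mul_tmul, one_mul, Units.inv_mul]
      rfl
    have hu2 : ((1 : AlgebraicClosure (ZMod p)) ⊗ₜ[ZMod p] (u : B)) *
        (1 ⊗ₜ ((u⁻¹ : Bˣ) : B)) = 1 := by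
      rw [Algebra.TensorProduct.tmul_mul_tmul, one_mul, Units.mul_inv]
      rfl
    refine ⟨E, by rw [hj, add_sub_cancel], ?_⟩
    have key : ∀ v w : AlgebraicClosure (ZMod p) ⊗[ZMod p] B, v * w = 1 →
        (1 + (v - 1) * E) * (1 + (w - 1) * E) = 1 := by
      intro v w hvw
      calc (1 + (v - 1) * E) * (1 + (w - 1) * E)
          = 1 + (v - 1) * E + (w - 1) * E + (v - 1) * (E * (w - 1)) * E := by noncomm_ring
        _ = 1 + (v - 1) * E + (w - 1) * E + (v - 1) * (w - 1) * (E * E) := by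
            rw [hcen (w - 1)]
            noncomm_ring
        _ = 1 + (v * w - 1) * E := by
            rw [hE]
            noncomm_ring
        _ = 1 := by rw [hvw, sub_self, zero_mul, add_zero]
    exact ⟨⟨_, _, key _ _ hu1, key _ _ hu2⟩, rfl⟩

end good

section mu

variable {A : Type*} [CommRing A]

/-- The ring homomorphism given by an idempotent. -/
def mu (ε : A) (h : ε * ε = ε) : A × A →+* A where
  toFun x := x.1 * ε + x.2 * (1 - ε)
  map_one' := by
    rw [Prod.fst_one, Prod.snd_one]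
    ring
  map_zero' := by
    rw [Prod.fst_zero, Prod.snd_zero]
    ring
  map_add' x y := by
    rw [Prod.fst_add, Prod.snd_add]
    ring
  map_mul' x y := by
    rw [Prod.fst_mul, Prod.snd_mul]
    linear_combination (- x.1 * y.1 + x.1 * y.2 + x.2 * y.1 - x.2 * y.2) * h

theorem mu_apply (ε : A) (h : ε * ε = ε) (a b : A) : mu ε h (a, b) = a * ε + b * (1 - ε) := rfl

theorem mu_diag (ε : A) (h : ε * ε = ε) (a : A) : mu ε h (a, a) = a := by
  rw [mu_apply]
  ring

theorem isUnit_mu {ε : A} {h : ε * ε = ε} {a b : A} (ha : IsUnit a) (hb : IsUnit b) :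
    IsUnit (mu ε h (a, b)) := (Prod.isUnit_iff.mpr ⟨ha, hb⟩ : IsUnit ((a, b) : A × A)).map _

/-- The unit with two entries. -/
def mU (ε : A) (h : ε * ε = ε) : Aˣ × Aˣ →* Aˣ :=
  (Units.map (mu ε h).toMonoidHom).comp (MulEquiv.prodUnits.symm : Aˣ × Aˣ ≃* (A × A)ˣ).toMonoidHom

theorem coe_mU (ε : A) (h : ε * ε = ε) (a b : Aˣ) :
    ((mU ε h (a, b) : Aˣ) : A) = mu ε h ((a : A), (b : A)) := rfl

variable {R : Type*} [Field R] [Algebra R A]

/-- Scalar units. -/
def sU (R : Type*) [Field R] (A : Type*) [CommRing A] [Algebra R A] : Rˣ →* Aˣ :=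
  Units.map (algebraMap R A).toMonoidHom

theorem coe_sU (ν : Rˣ) : ((sU R A ν : Aˣ) : A) = algebraMap R A ν := rfl

theorem isUnit_one_sub_sU {ν : Rˣ} (h : ν ≠ 1) : IsUnit (1 - ((sU R A ν : Aˣ) : A)) := by
  have h1 : (1 - (ν : R)) ≠ 0 := by
    intro h0
    apply h
    apply Units.ext
    rw [Units.val_one]
    exact (sub_eq_zero.mp h0).symm
  have h2 := (isUnit_iff_ne_zero.mpr h1).map (algebraMap R A)
  rwa [map_sub, map_one] at h2

/-- The basic computation. -/
theorem isUnit_two {ε ε' : A} (h : ε * ε = ε) (h' : ε' * ε' = ε') {a b : Rˣ}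
    (h1 : a * b ≠ 1) (h2 : a * b⁻¹ ≠ 1) (h3 : a⁻¹ * b ≠ 1) (h4 : a⁻¹ * b⁻¹ ≠ 1) :
    IsUnit (1 - ((mU ε h (sU R A a, (sU R A a)⁻¹) * mU ε' h' (sU R A b, (sU R A b)⁻¹) : Aˣ) : A)) := by
  set w := mU ε' h' (sU R A b, (sU R A b)⁻¹) with hw
  have key : ∀ x : Rˣ, x * b ≠ 1 → x * b⁻¹ ≠ 1 → IsUnit (1 - ((sU R A x * w : Aˣ) : A)) := by
    intro x hx1 hx2
    have h5 : 1 - ((sU R A x * w : Aˣ) : A) = mu ε' h' (1 - ((sU R A (x * b) : Aˣ) : A),
        1 - ((sU R A (x * b⁻¹) : Aˣ) : A)) := by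
      rw [hw, Units.val_mul, coe_mU, mu_apply, mu_apply, map_mul, map_mul, map_inv,
        Units.val_mul, Units.val_mul]
      ring
    rw [h5]
    exact isUnit_mu (isUnit_one_sub_sU hx1) (isUnit_one_sub_sU hx2)
  have h5 : 1 - ((mU ε h (sU R A a, (sU R A a)⁻¹) * w : Aˣ) : A) =
      mu ε h (1 - ((sU R A a * w : Aˣ) : A), 1 - ((sU R A a⁻¹ * w : Aˣ) : A)) := by
    rw [Units.val_mul, coe_mU, mu_apply, mu_apply, map_inv, Units.val_mul, Units.val_mul]
    ring
  rw [h5]
  exact isUnit_mu (key a h1 h2) (key a⁻¹ h3 h4)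

end mu

/-- Elements of large order. -/
theorem exists_large (R : Type*) [Field R] [Infinite R] (N : ℕ) :
    ∃ ν : Rˣ, ∀ j : ℕ, 0 < j → j ≤ N → ν ^ j ≠ 1 := by
  classical
  have hne : (Polynomial.X ^ (N.factorial) - 1 : Polynomial R) ≠ 0 := by
    have := Polynomial.X_pow_sub_C_ne_zero (Nat.factorial_pos N) (1 : R)
    rwa [map_one] at this
  obtain ⟨x, hx⟩ := Infinite.exists_notMem_finset
    (insert 0 ((Polynomial.X ^ (N.factorial) - 1 : Polynomial R).roots.toFinset))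
  rw [Finset.mem_insert, not_or] at hx
  refine ⟨Units.mk0 x hx.1, ?_⟩
  intro j hj hjN h
  apply hx.2
  rw [Multiset.mem_toFinset, Polynomial.mem_roots hne, Polynomial.IsRoot]
  have h1 : x ^ j = 1 := by
    have := congrArg Units.val h
    rwa [Units.val_pow_eq_pow_val, Units.val_mk0, Units.val_one] at this
  obtain ⟨m, hm⟩ := Nat.dvd_factorial hj hjN
  rw [Polynomial.eval_sub, Polynomial.eval_pow, Polynomial.eval_X, Polynomial.eval_one, hm,
    pow_mul, h1, one_pow, sub_self]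

end MP7fV
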