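import Pool.Agent.Lib.MP_7f581e_ntL.V7
import Pool.Agent.Lib.MP_7f581e_ntL.V8

section

/-!
Special unitary generic Lang torsor, part 9: the genericity condition.
-/

set_option autoImplicit false
set_option linter.unusedSectionVars false

universe u v

namespace MP7fV

open TensorProduct MP7fS MP7fU MP7fR MP7fE

section

variable {p : ℕ} [Fact p.Prime] {B : Type} [Ring B] [Finite B] [Algebra (ZMod p) B]
  {J : AInv p B} {n : ℕ} {C : Type} [CommRing C] [Finite C] [Algebra (ZMod p) C]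
  (D : DetData J n C)

section ring

variable (R : Type*) [CommRing R] [Algebra (ZMod p) R]

/-- The torus. -/
noncomputable def KU : (R ⊗[ZMod p] C)ˣ × (R ⊗[ZMod p] C)ˣ →* (R ⊗[ZMod p] B)ˣ :=
  (Units.map (D.kk R).toMonoidHom).comp (MulEquiv.prodUnits.symm :
    (R ⊗[ZMod p] C)ˣ × (R ⊗[ZMod p] C)ˣ ≃* ((R ⊗[ZMod p] C) × (R ⊗[ZMod p] C))ˣ).toMonoidHom

theorem coe_KU (a b : (R ⊗[ZMod p] C)ˣ) :
    ((KU D R (a, b) : (R ⊗[ZMod p] B)ˣ) : R ⊗[ZMod p] B) =
      D.kk R ((a : R ⊗[ZMod p] C), (b : R ⊗[ZMod p] C)) := rfl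

theorem Tu_KU (a b : (R ⊗[ZMod p] C)ˣ) : Tu D R (KU D R (a, b)) = KU D R (a * b ^ n, 1) := by
  apply Units.ext
  rw [coe_Tu, coe_KU, D.T_kk, coe_KU, Units.val_mul, Units.val_pow_eq_pow_val, Units.val_one]

variable [CharP R p]

/-- The Frobenius on the units of `R ⊗ C`. -/
noncomputable def fC : (R ⊗[ZMod p] C)ˣ →* (R ⊗[ZMod p] C)ˣ :=
  Units.map (tmap (p := p) (frobenius R p) (RingHom.id C)).toMonoidHom

theorem coe_fC (a : (R ⊗[ZMod p] C)ˣ) : ((fC (p := p) R a : (R ⊗[ZMod p] C)ˣ) : R ⊗[ZMod p] C) =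
    tmap (p := p) (frobenius R p) (RingHom.id C) a := rfl

theorem uf_KU (a b : (R ⊗[ZMod p] C)ˣ) :
    uf R (KU D R (a, b)) = KU D R (fC (p := p) R a, fC (p := p) R b) := by
  apply Units.ext
  rw [uf, coe_um, coe_KU, D.tmap_kk _ D.compat_id, coe_KU, coe_fC, coe_fC]

theorem ml_KU (a b : (R ⊗[ZMod p] C)ˣ) :
    ml D R (KU D R (a, b)) =
      KU D R (a * b ^ (2 * n) * (fC (p := p) R b ^ n)⁻¹, fC (p := p) R b * b⁻¹) := by
  set x := fC (p := p) R a with hx
  set y := fC (p := p) R b with hy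
  have h1 : uf R (KU D R (a, b)) * (KU D R (a, b))⁻¹ = KU D R (x * a⁻¹, y * b⁻¹) := by
    rw [uf_KU, ← map_inv, ← map_mul]
    rfl
  rw [ml, h1, Tu_KU, Tu_KU, ← map_inv, ← map_mul, ← map_mul]
  refine congrArg (KU D R) (Prod.ext ?_ ?_)
  · change x * a⁻¹ * (x * a⁻¹ * (y * b⁻¹) ^ n)⁻¹ * (a * b ^ n) = a * b ^ (2 * n) * (y ^ n)⁻¹
    rw [mul_inv (x * a⁻¹), mul_inv_cancel_left, mul_pow, mul_inv, inv_pow, inv_inv, two_mul,
      pow_add]
    ac_rfl
  · change y * b⁻¹ * (1 : (R ⊗[ZMod p] C)ˣ)⁻¹ * 1 = y * b⁻¹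
    rw [inv_one, mul_one, mul_one]

end ring

/-- **The genericity condition from an idempotent.** -/
theorem genX_of_idem (ε : AlgebraicClosure (ZMod p) ⊗[ZMod p] C) (hε : ε * ε = ε)
    (hs : D.sR (AlgebraicClosure (ZMod p)) ε = 1 - ε) : GenX D := by
  have hp : p.Prime := Fact.out
  let R := AlgebraicClosure (ZMod p)
  let A := R ⊗[ZMod p] C
  let φ : A →+* A := tmap (p := p) (frobenius R p) (RingHom.id C)
  let ε' : A := φ ε
  have hε' : ε' * ε' = ε' := by
    change φ ε * φ ε = φ ε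
    rw [← map_mul, hε]
  obtain ⟨ν, hν⟩ := exists_large R (2 * p * n + 2 * n + p + 3)
  let k : ℕ := p * n + 1
  -- the basic unit
  let lam : Aˣ := mU ε hε (sU R A ν, (sU R A ν)⁻¹)
  have hlam : ∀ j : ℕ, lam ^ j = mU ε hε (sU R A (ν ^ j), (sU R A (ν ^ j))⁻¹) := by
    intro j
    change (mU ε hε (sU R A ν, (sU R A ν)⁻¹)) ^ j = _
    rw [← map_pow, Prod.pow_mk, map_pow, inv_pow]
  have hlamI : ∀ j : ℕ, (lam ^ j)⁻¹ = mU ε hε (sU R A ((ν ^ j)⁻¹), (sU R A ((ν ^ j)⁻¹))⁻¹) := by
    intro j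
    rw [hlam, ← map_inv, Prod.inv_mk, map_inv]
  have hφs : ∀ μ : Rˣ, φ ((sU R A μ : Aˣ) : A) = ((sU R A (μ ^ p) : Aˣ) : A) := by
    intro μ
    rw [coe_sU, coe_sU, Algebra.algebraMap_eq_smul_one, Algebra.algebraMap_eq_smul_one]
    change tmap (p := p) (frobenius R p) (RingHom.id C) _ = _
    rw [tmap_smul, map_one, frobenius_def, Units.val_pow_eq_pow_val]
  have hφlam : ∀ j : ℕ, fC (p := p) R (lam ^ j) =
      mU ε' hε' (sU R A (ν ^ (p * j)), (sU R A (ν ^ (p * j)))⁻¹) := by
    intro j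
    apply Units.ext
    rw [hlam, coe_fC]
    change φ (mu ε hε (((sU R A (ν ^ j) : Aˣ) : A), (((sU R A (ν ^ j))⁻¹ : Aˣ) : A))) =
      mu ε' hε' (((sU R A (ν ^ (p * j)) : Aˣ) : A), (((sU R A (ν ^ (p * j)))⁻¹ : Aˣ) : A))
    rw [mu_apply, mu_apply, map_add, map_mul, map_mul, map_sub, map_one, hφs, ← map_inv,
      ← map_inv, hφs, inv_pow, ← pow_mul, mul_comm j p]
  have hφlam1 : fC (p := p) R lam = mU ε' hε' (sU R A (ν ^ p), (sU R A (ν ^ p))⁻¹) := by
    have := hφlam 1
    rwa [pow_one, mul_one] at this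
  have hφlamI : ∀ j : ℕ, (fC (p := p) R lam ^ j)⁻¹ =
      mU ε' hε' (sU R A ((ν ^ (p * j))⁻¹), (sU R A ((ν ^ (p * j))⁻¹))⁻¹) := by
    intro j
    rw [← map_pow, hφlam, ← map_inv, Prod.inv_mk, map_inv]
  have hone : mU ε' hε' (sU R A (1 : Rˣ), (sU R A (1 : Rˣ))⁻¹) = 1 := by
    rw [map_one, inv_one]
    exact map_one (mU ε' hε')
  -- the unitarity of the basic unit
  have hss : ∀ μ : Rˣ, D.sR R ((sU R A μ : Aˣ) : A) = ((sU R A μ : Aˣ) : A) := by
    intro μ
    rw [coe_sU, Algebra.algebraMap_eq_smul_one]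
    change tmap (p := p) (RingHom.id R) D.s _ = _
    rw [tmap_smul, map_one]
    rfl
  have hsl : D.sR R (lam : A) * lam = 1 := by
    have h1 : D.sR R (lam : A) = ((lam⁻¹ : Aˣ) : A) := by
      have h2 := hlamI 1
      rw [pow_one, pow_one] at h2
      rw [h2]
      change D.sR R (mu ε hε (((sU R A ν : Aˣ) : A), (((sU R A ν)⁻¹ : Aˣ) : A))) =
        mu ε hε (((sU R A ν⁻¹ : Aˣ) : A), (((sU R A ν⁻¹)⁻¹ : Aˣ) : A))
      rw [mu_apply, mu_apply, map_add, map_mul, map_mul, map_sub, map_one, hss, ← map_inv, hss,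
        hs, ← map_inv, inv_inv]
      ring
    rw [h1, Units.inv_mul]
  have hslk : ∀ j : ℕ, D.sR R ((lam ^ j : Aˣ) : A) * ((lam ^ j : Aˣ) : A) = 1 := by
    intro j
    rw [Units.val_pow_eq_pow_val, map_pow, ← mul_pow, hsl, one_pow]
  have hsub : ∀ a b : Aˣ, IsUnit (1 - (a : A)) → IsUnit (1 - (b : A)) →
      IsUnit (1 - ((KU D R (a, b) : (R ⊗[ZMod p] B)ˣ) : R ⊗[ZMod p] B)) := by
    intro a b ha hb
    have h1 : 1 - ((KU D R (a, b) : (R ⊗[ZMod p] B)ˣ) : R ⊗[ZMod p] B) =
        D.kk R (1 - (a : A), 1 - (b : A)) := by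
      have h2 : ((1 - (a : A), 1 - (b : A)) : A × A) = 1 - ((a : A), (b : A)) := rfl
      rw [h2, map_sub, map_one, coe_KU]
    rw [h1]
    exact (Prod.isUnit_iff.mpr ⟨ha, hb⟩ :
      IsUnit ((1 - (a : A), 1 - (b : A)) : A × A)).map (D.kk R)
  have hpow : ∀ j : ℕ, 0 < j → j ≤ 2 * p * n + 2 * n + p + 3 → IsUnit (1 - ((lam ^ j : Aˣ) : A)) := by
    intro j hj1 hj2
    have h1 := isUnit_two (R := R) hε hε' (a := ν ^ j) (b := 1) (by
      rw [mul_one]; exact hν j hj1 hj2) (by
      rw [inv_one, mul_one]; exact hν j hj1 hj2) (by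
      rw [mul_one]; exact inv_ne_one.mpr (hν j hj1 hj2)) (by
      rw [inv_one, mul_one]; exact inv_ne_one.mpr (hν j hj1 hj2))
    rw [hone, mul_one, ← hlam] at h1
    exact h1
  refine ⟨KU D R (lam ^ k, lam), ?_, ?_, ?_⟩
  · rw [mem_UR, coe_KU, D.jR_kk, ← map_mul, Prod.mk_mul_mk, hslk, hsl]
    exact map_one (D.kk R)
  · apply hsub
    · exact hpow k (Nat.succ_pos _) (by
        change p * n + 1 ≤ _
        nlinarith [hp.pos])
    · have := hpow 1 one_pos (by omega)
      rwa [pow_one] at this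
  · rw [ml_KU]
    apply hsub
    · rw [← pow_add, hlam, hφlamI]
      have hkn : k + 2 * n = p * n + (2 * n + 1) := by
        change p * n + 1 + 2 * n = _
        ring
      have e1 : ν ^ (k + 2 * n) * (ν ^ (p * n))⁻¹ = ν ^ (2 * n + 1) := by
        rw [hkn, pow_add, mul_comm (ν ^ (p * n)), mul_inv_cancel_right]
      have e2 : ν ^ (k + 2 * n) * ν ^ (p * n) = ν ^ (2 * p * n + 2 * n + 1) := by
        rw [← pow_add, hkn]
        congr 1
        ring
      have hne1 : ν ^ (2 * n + 1) ≠ 1 := hν _ (Nat.succ_pos _) (by nlinarith [hp.pos])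
      have hne2 : ν ^ (2 * p * n + 2 * n + 1) ≠ 1 := hν _ (Nat.succ_pos _) (by omega)
      apply isUnit_two hε hε'
      · rw [e1]
        exact hne1
      · rw [inv_inv, e2]
        exact hne2
      · rw [← mul_inv, e2]
        exact inv_ne_one.mpr hne2
      · rw [← mul_inv, e1]
        exact inv_ne_one.mpr hne1
    · have h1 := hlamI 1
      rw [pow_one, pow_one] at h1
      rw [hφlam1, h1, mul_comm]
      have hp2 : 2 ≤ p := hp.two_le
      have e1 : ν⁻¹ * ν ^ p = ν ^ (p - 1) := by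
        rw [← mul_pow_sub_one hp.ne_zero ν, inv_mul_cancel_left]
      have e2 : ν⁻¹ * (ν ^ p)⁻¹ = (ν ^ (p + 1))⁻¹ := by
        rw [← mul_inv, ← pow_succ']
      have hne1 : ν ^ (p - 1) ≠ 1 := hν _ (by omega) (by omega)
      have hne2 : ν ^ (p + 1) ≠ 1 := hν _ (by omega) (by omega)
      apply isUnit_two hε hε'
      · rw [e1]
        exact hne1
      · rw [e2]
        exact inv_ne_one.mpr hne2
      · rw [inv_inv, ← pow_succ']
        exact hne2
      · rw [← mul_inv, e1]
        exact inv_ne_one.mpr hne1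

/-- Goodness from an idempotent. -/
theorem good_of_idemC {c : B} (hc : c + J.j c = 1) (ε : AlgebraicClosure (ZMod p) ⊗[ZMod p] C)
    (hε : ε * ε = ε) (hs : D.sR (AlgebraicClosure (ZMod p)) ε = 1 - ε) : Good J c := by
  refine good_of_idem J hc (D.ιR _ ε) ?_ (D.ιR_central _ ε) ?_
  · rw [← map_mul, hε]
  · rw [D.jR_ιR, hs, map_sub, map_one]

end

end MP7fV

end

section

/-!
Special unitary generic Lang torsor, part 10: families of matrices over a finite field.
-/

set_option autoImplicit false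
set_option linter.unusedSectionVars false

universe u v

namespace MP7fV

open TensorProduct MP7fS MP7fU MP7fR MP7fE

section

variable {p : ℕ} [Fact p.Prime] {n : ℕ} {F : Type} [Field F] [Finite F] [Algebra (ZMod p) F]
  {Y : Type} [Finite Y]

instance finiteMat {n : ℕ} {F : Type} [Finite F] : Finite (Matrix (Fin n) (Fin n) F) :=
  inferInstanceAs (Finite (Fin n → Fin n → F))

/-- Families of matrices. -/
abbrev FM (n : ℕ) (F : Type) (Y : Type) : Type := Y → Matrix (Fin n) (Fin n) F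

/-- The conjugate transpose involution on families of matrices. -/
def ctInv (p n : ℕ) [Fact p.Prime] (F : Type) [Field F] [Algebra (ZMod p) F] {Y : Type}
    (τ : Y → Y) (s : Y → (F →+* F)) (hτ : ∀ y, τ (τ y) = y)
    (hs : ∀ y x, s y (s (τ y) x) = x) : AInv p (FM n F Y) where
  j :=
    { toFun := fun z y => ((z (τ y)).map (s y)).transpose
      map_add' := fun z w => by
        funext y
        ext i j
        change s y ((z (τ y) + w (τ y)) j i) = s y (z (τ y) j i) + s y (w (τ y) j i)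
        rw [Matrix.add_apply, map_add]
      map_smul' := fun r z => by
        funext y
        ext i j
        change s y ((r • z (τ y)) j i) = r • s y (z (τ y) j i)
        rw [Matrix.smul_apply]
        exact map_smul (toAlg (p := p) (s y)) r _ }
  one := by
    funext y
    change ((1 : Matrix (Fin n) (Fin n) F).map (s y)).transpose = 1
    rw [Matrix.map_one _ (map_zero _) (map_one _), Matrix.transpose_one]
  mul a b := by
    funext y
    change ((a (τ y) * b (τ y)).map (s y)).transpose =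
      ((b (τ y)).map (s y)).transpose * ((a (τ y)).map (s y)).transpose
    rw [Matrix.map_mul, Matrix.transpose_mul]
  inv a := by
    funext y
    ext i j
    change s y (s (τ y) (a (τ (τ y)) i j)) = a y i j
    rw [hs, hτ]

variable (τ : Y → Y) (s : Y → (F →+* F)) (hτ : ∀ y, τ (τ y) = y)
    (hs : ∀ y x, s y (s (τ y) x) = x)

theorem ctInv_j (z : FM n F Y) (y : Y) :
    (ctInv p n F τ s hτ hs).j z y = ((z (τ y)).map (s y)).transpose := rfl

/-- The determinant data. -/
def ddY : DetData (ctInv p (n + 1) F τ s hτ hs) n (Y → F) where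
  Θ :=
    { toFun := fun z => Matrix.of fun i j y => z y i j
      invFun := fun Z y => Matrix.of fun i j => Z i j y
      left_inv := fun z => rfl
      right_inv := fun Z => rfl
      map_mul' := fun z w => by
        ext i j y
        change (z y * w y) i j = ((Matrix.of fun i j y => z y i j) *
          (Matrix.of fun i j y => w y i j) : Matrix (Fin (n + 1)) (Fin (n + 1)) (Y → F)) i j y
        rw [Matrix.mul_apply, Matrix.mul_apply, Finset.sum_apply]
        rfl
      map_add' := fun z w => rfl }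
  s :=
    { toFun := fun f y => s y (f (τ y))
      map_one' := funext fun y => map_one _
      map_zero' := funext fun y => map_zero _
      map_add' := fun f g => funext fun y => map_add _ _ _
      map_mul' := fun f g => funext fun y => map_mul _ _ _ }
  ΘJ z := rfl

theorem ddY_Θ (z : FM (n + 1) F Y) (i j : Fin (n + 1)) (y : Y) :
    (ddY (p := p) τ s hτ hs).Θ z i j y = z y i j := rfl

theorem ddY_s (f : Y → F) (y : Y) : (ddY (p := p) (n := n) τ s hτ hs).s f y = s y (f (τ y)) := rfl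

theorem ddY_det (z : FM (n + 1) F Y) (y : Y) :
    ((ddY (p := p) τ s hτ hs).Θ z).det y = (z y).det := by
  have h1 := RingHom.map_det (Pi.evalRingHom (fun _ : Y => F) y) ((ddY (p := p) τ s hτ hs).Θ z)
  exact h1

theorem ddY_e (y : Y) : (ddY (p := p) (n := n) τ s hτ hs).e y = Matrix.diagonal (Pi.single 0 1) := by
  ext i j
  change (Matrix.diagonal (Pi.single 0 1) : Matrix (Fin (n + 1)) (Fin (n + 1)) (Y → F)) i j y = _
  rw [Matrix.diagonal_apply, Matrix.diagonal_apply]
  by_cases h : i = j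
  · subst h
    simp only [if_true]
    by_cases h0 : i = 0
    · subst h0
      rw [Pi.single_eq_same, Pi.single_eq_same]
      rfl
    · rw [Pi.single_eq_of_ne h0, Pi.single_eq_of_ne h0]
      rfl
  · rw [if_neg h, if_neg h]
    rfl

theorem mem_SU_ddY (u : (ctInv p (n + 1) F τ s hτ hs).U) :
    u ∈ SU (ddY τ s hτ hs) ↔ ∀ y, (((u : (FM (n + 1) F Y)ˣ) : FM (n + 1) F Y) y).det = 1 := by
  rw [mem_SU]
  constructor
  · intro h y
    rw [← ddY_det (p := p) τ s hτ hs, h]
    rfl
  · intro h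
    funext y
    rw [ddY_det, h]
    rfl

/-- Compatibility of an endomorphism of the ring of families. -/
theorem compat_ddY (g : FM (n + 1) F Y →+* FM (n + 1) F Y) (π : Y ≃ Y) (σ : Y → (F →+* F))
    (P Q : Y → Matrix (Fin (n + 1)) (Fin (n + 1)) F) (hPQ : ∀ y, P y * Q y = 1)
    (hPe : ∀ y, P y * Matrix.diagonal (Pi.single 0 1) * Q y = Matrix.diagonal (Pi.single 0 1))
    (hg : ∀ z y, g z (π y) = P y * (z y).map (σ y) * Q y) :
    ∃ σ' : (Y → F) →+* (Y → F), (ddY (p := p) τ s hτ hs).Compat g σ' := by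
  refine ⟨{ toFun := fun f y => σ (π.symm y) (f (π.symm y))
            map_one' := funext fun y => map_one _
            map_zero' := funext fun y => map_zero _
            map_add' := fun f g => funext fun y => map_add _ _ _
            map_mul' := fun f g => funext fun y => map_mul _ _ _ }, ?_, ?_⟩
  · refine ⟨Matrix.of fun i j y => P (π.symm y) i j, Matrix.of fun i j y => Q (π.symm y) i j,
      ?_, ?_⟩
    · ext i j y
      rw [Matrix.mul_apply, Finset.sum_apply]
      have h1 : (P (π.symm y) * Q (π.symm y)) i j = _ := congrFun (congrFun (hPQ (π.symm y)) i) j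
      rw [Matrix.mul_apply] at h1
      refine h1.trans ?_
      rw [Matrix.one_apply, Matrix.one_apply]
      by_cases h : i = j
      · rw [if_pos h, if_pos h]
        rfl
      · rw [if_neg h, if_neg h]
        rfl
    · intro b
      ext i j y
      have h1 := congrFun (congrFun (hg b (π.symm y)) i) j
      rw [Equiv.apply_symm_apply] at h1
      refine h1.trans ?_
      rw [Matrix.mul_apply, Matrix.mul_apply, Finset.sum_apply]
      refine Finset.sum_congr rfl fun k _ => ?_
      rw [Matrix.mul_apply, Pi.mul_apply, Matrix.mul_apply, Finset.sum_apply]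
      rfl
  · funext y
    rw [← π.apply_symm_apply y, hg, ddY_e, ddY_e]
    have h1 : (Matrix.diagonal (Pi.single 0 1) : Matrix (Fin (n + 1)) (Fin (n + 1)) F).map
        (σ (π.symm y)) = Matrix.diagonal (Pi.single 0 1) := by
      rw [Matrix.diagonal_map (map_zero _)]
      congr 1
      funext i
      by_cases h0 : i = 0
      · subst h0
        rw [Pi.single_eq_same, map_one]
      · rw [Pi.single_eq_of_ne h0, map_zero]
    rw [h1, hPe]

end

/-- **Special unitary groups, case of an idempotent moved by the involution.** -/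
theorem lang_su_idem {p : ℕ} [Fact p.Prime] {B : Type} [Ring B] [Finite B]
    [Algebra (ZMod p) B] {J : AInv p B} {n : ℕ} {C : Type} [CommRing C] [Finite C]
    [Algebra (ZMod p) C] (D : DetData J n C) (c₁ : C) (h1 : c₁ * c₁ = c₁) (h2 : D.s c₁ = 1 - c₁)
    {K : Type u} [Field K] [CharP K p] {Γ : Type} [Group Γ] [Finite Γ]
    (ρ : Γ →* (B ≃+* B)) (hρ : ∀ g b, ρ g (J.j b) = J.j (ρ g b))
    (hD : ∀ g, ∃ σ : C →+* C, D.Compat (ρ g : B →+* B) σ) :
    ∃ r : ℕ, SolvesOver K (FractionRing (MvPolynomial (Fin r) K))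
      (SemidirectProduct.rightHom : (SU D) ⋊[suact D ρ hρ hD] Γ →* Γ) := by
  have hc : D.ι c₁ + J.j (D.ι c₁) = 1 := by
    rw [D.Jι, h2, map_sub, map_one, add_sub_cancel]
  have he : ((1 : AlgebraicClosure (ZMod p)) ⊗ₜ[ZMod p] c₁) * (1 ⊗ₜ c₁) = 1 ⊗ₜ c₁ := by
    rw [Algebra.TensorProduct.tmul_mul_tmul, one_mul, h1]
  have hs : D.sR (AlgebraicClosure (ZMod p)) (1 ⊗ₜ c₁) = 1 - 1 ⊗ₜ c₁ := by
    rw [DetData.sR, tmap_tmul, map_one, h2, tmul_sub, Algebra.TensorProduct.one_def]
  exact ⟨_, lang_su_emb D (good_of_idemC D hc _ he hs) (genX_of_idem D _ he hs) ρ hρ hD⟩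

section exch

variable (p n : ℕ) [Fact p.Prime] (F : Type) [Field F] [Finite F] [Algebra (ZMod p) F]
  (κ : Type) [Finite κ]

/-- The flip. -/
def flip (κ : Type) (y : κ × Bool) : κ × Bool := (y.1, !y.2)

theorem flip_flip (y : κ × Bool) : flip κ (flip κ y) = y := by
  rcases y with ⟨k, b⟩
  cases b <;> rfl

/-- The exchange anti-involution on pairs of families of matrices, in transposed form. -/
def exInv : AInv p (FM n F (κ × Bool)) :=
  ctInv p n F (flip κ) (fun _ => RingHom.id F) (flip_flip κ) (fun _ _ => rfl)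

theorem exInv_j (z : FM n F (κ × Bool)) (y : κ × Bool) :
    (exInv p n F κ).j z y = (z (y.1, !y.2)).transpose := rfl

/-- Its determinant data. -/
def exDD : DetData (exInv p (n + 1) F κ) n (κ × Bool → F) :=
  ddY (flip κ) (fun _ => RingHom.id F) (flip_flip κ) (fun _ _ => rfl)

theorem mem_SU_exDD (u : (exInv p (n + 1) F κ).U) :
    u ∈ SU (exDD p n F κ) ↔
      ∀ y, (((u : (FM (n + 1) F (κ × Bool))ˣ) : FM (n + 1) F (κ × Bool)) y).det = 1 :=
  mem_SU_ddY _ _ _ _ u

theorem compat_exDD (g : FM (n + 1) F (κ × Bool) →+* FM (n + 1) F (κ × Bool))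
    (π : κ × Bool ≃ κ × Bool) (σ : κ × Bool → (F →+* F))
    (P Q : κ × Bool → Matrix (Fin (n + 1)) (Fin (n + 1)) F) (hPQ : ∀ y, P y * Q y = 1)
    (hPe : ∀ y, P y * Matrix.diagonal (Pi.single 0 1) * Q y = Matrix.diagonal (Pi.single 0 1))
    (hg : ∀ z y, g z (π y) = P y * (z y).map (σ y) * Q y) :
    ∃ σ' : (κ × Bool → F) →+* (κ × Bool → F), (exDD p n F κ).Compat g σ' :=
  compat_ddY _ _ _ _ g π σ P Q hPQ hPe hg

variable {p n F κ}

/-- **Powers of special linear groups.** Split embedding problems whose kernel is a power of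
`SL(n + 1, F)`, on which the group acts by field automorphisms, inverse transpose, permutations
and conjugation by matrices that commute with the first matrix unit. -/
theorem lang_sl_emb {K : Type u} [Field K] [CharP K p] {Γ : Type} [Group Γ] [Finite Γ]
    (ρ : Γ →* (FM (n + 1) F (κ × Bool) ≃+* FM (n + 1) F (κ × Bool)))
    (hρ : ∀ g b, ρ g ((exInv p (n + 1) F κ).j b) = (exInv p (n + 1) F κ).j (ρ g b))
    (hD : ∀ g, ∃ σ : (κ × Bool → F) →+* (κ × Bool → F), (exDD p n F κ).Compat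
      (ρ g : FM (n + 1) F (κ × Bool) →+* FM (n + 1) F (κ × Bool)) σ) :
    ∃ r : ℕ, SolvesOver K (FractionRing (MvPolynomial (Fin r) K))
      (SemidirectProduct.rightHom :
        (SU (exDD p n F κ)) ⋊[suact (exDD p n F κ) ρ hρ hD] Γ →* Γ) := by
  classical
  refine lang_su_idem (exDD p n F κ) (fun y => if y.2 = true then 1 else 0) ?_ ?_ ρ hρ hD
  · funext y
    rw [Pi.mul_apply]
    split_ifs
    · rw [mul_one]
    · rw [mul_zero]
  · funext y
    change (if (!y.2) = true then (1 : F) else 0) = 1 - (if y.2 = true then 1 else 0)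
    rcases y with ⟨k, b⟩
    cases b
    · simp
    · simp

end exch

end MP7fV

end
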