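import Pool.Agent.Lib.MP_7f581e_ntL.W2

/-!
Split embedding problems with kernel a power of a quasisimple group or of its simple quotient.
-/

set_option autoImplicit false
set_option linter.unusedSectionVars false

universe u

namespace MP7fY

open MP7fE MP7fR MP7fW

open scoped commutatorElement

section perfect

theorem comm_central_left {H : Type*} [Group H] {a : H} (ha : a ∈ Subgroup.center H) (b c : H) :
    ⁅a * b, c⁆ = ⁅b, c⁆ := by
  have h1 : b * c * b⁻¹ * a = a * (b * c * b⁻¹) := Subgroup.mem_center_iff.mp ha _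
  rw [commutatorElement_def, commutatorElement_def]
  calc a * b * c * (a * b)⁻¹ * c⁻¹ = a * (b * c * b⁻¹) * a⁻¹ * c⁻¹ := by group
    _ = b * c * b⁻¹ * a * a⁻¹ * c⁻¹ := by rw [h1]
    _ = b * c * b⁻¹ * c⁻¹ := by group

theorem comm_central_right {H : Type*} [Group H] {a : H} (ha : a ∈ Subgroup.center H) (b c : H) :
    ⁅b, a * c⁆ = ⁅b, c⁆ := by
  rw [← commutatorElement_inv (a * c) b, comm_central_left ha, commutatorElement_inv]

/-- Homomorphisms from a perfect group which agree modulo the centre. -/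
theorem eq_of_perfect {P H : Type*} [Group P] [Group H] (hP : commutator P = ⊤) {f g : P →* H}
    (h : ∀ x, f x * (g x)⁻¹ ∈ Subgroup.center H) : f = g := by
  have key : commutator P ≤ f.eqLocus g := by
    rw [commutator_def, Subgroup.commutator_le]
    intro x _ y _
    change f ⁅x, y⁆ = g ⁅x, y⁆
    rw [map_commutatorElement, map_commutatorElement]
    have hx : f x = f x * (g x)⁻¹ * g x := by group
    have hy : f y = f y * (g y)⁻¹ * g y := by group
    rw [hx, hy, comm_central_left (h x), comm_central_right (h y)]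
  rw [hP] at key
  ext x
  exact key (Subgroup.mem_top x)

/-- A criterion for perfectness. -/
theorem perfect_of_gen {H : Type*} [Group H] {T : Set H} (hT : Subgroup.closure T = ⊤) {p m : ℕ}
    (hp : ∀ x ∈ T, x ^ p = 1) (hm : ∀ z ∈ Subgroup.center H, z ^ m = 1) (hpm : p.Coprime m)
    [IsSimpleGroup (H ⧸ Subgroup.center H)]
    (hc : ∃ a b : H ⧸ Subgroup.center H, a * b ≠ b * a) : commutator H = ⊤ := by
  have h1 : commutator (H ⧸ Subgroup.center H) = ⊤ := by
    rcases (inferInstance : (commutator (H ⧸ Subgroup.center H)).Normal).eq_bot_or_eq_top with h | h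
    · exfalso
      obtain ⟨a, b, hab⟩ := hc
      apply hab
      have h2 : ⁅a, b⁆ ∈ commutator (H ⧸ Subgroup.center H) := by
        rw [commutator_def]
        exact Subgroup.commutator_mem_commutator (Subgroup.mem_top _) (Subgroup.mem_top _)
      rw [h, Subgroup.mem_bot, commutatorElement_eq_one_iff_mul_comm] at h2
      exact h2
    · exact h
  have h2 : (commutator H).map (QuotientGroup.mk' (Subgroup.center H)) = ⊤ := by
    rw [← h1, commutator_def, commutator_def, Subgroup.map_commutator,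
      Subgroup.map_top_of_surjective _ (QuotientGroup.mk'_surjective _)]
  have h3 : ∀ x : H, ∃ c ∈ commutator H, c⁻¹ * x ∈ Subgroup.center H := by
    intro x
    have h4 : QuotientGroup.mk' (Subgroup.center H) x ∈
        (commutator H).map (QuotientGroup.mk' (Subgroup.center H)) := by
      rw [h2]
      exact Subgroup.mem_top _
    obtain ⟨c, hc, hcx⟩ := h4
    exact ⟨c, hc, QuotientGroup.eq.mp hcx⟩
  rw [eq_top_iff, ← hT, Subgroup.closure_le]
  intro x hx
  obtain ⟨c, hc, hz⟩ := h3 x
  have h5 : (QuotientGroup.mk' (commutator H) x) = QuotientGroup.mk' (commutator H) (c⁻¹ * x) := by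
    rw [map_mul, map_inv]
    have h6 : QuotientGroup.mk' (commutator H) c = 1 := (QuotientGroup.eq_one_iff c).mpr hc
    rw [h6, inv_one, one_mul]
  have h7 : (QuotientGroup.mk' (commutator H) x) ^ p = 1 := by
    rw [← map_pow, hp x hx, map_one]
  have h8 : (QuotientGroup.mk' (commutator H) x) ^ m = 1 := by
    rw [h5, ← map_pow, hm _ hz, map_one]
  have h9 : QuotientGroup.mk' (commutator H) x = 1 := by
    have := pow_gcd_eq_one.mpr ⟨h7, h8⟩
    rwa [hpm, pow_one] at this
  exact (QuotientGroup.eq_one_iff x).mp h9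

theorem perfect_pi {H : Type*} [Group H] {κ : Type*} [Finite κ] (hH : commutator H = ⊤) :
    commutator (κ → H) = ⊤ := by
  have h1 := Subgroup.commutator_pi_pi_of_finite (η := κ) (Gs := fun _ => H)
    (fun _ => ⊤) (fun _ => ⊤)
  rw [Subgroup.pi_top] at h1
  rw [commutator_def, h1]
  rw [commutator_def] at hH
  rw [hH, Subgroup.pi_top]

end perfect

section wreath

variable {T A : Type*} [Group T] [Group A] {c : A →* MulAut T} {κ : Type*}

theorem wr_unique [Nontrivial T] (hc : ∀ x y, (∀ t, c x t = c y t) → x = y)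
    {ψ : (κ → T) ≃* (κ → T)} {π π' : Equiv.Perm κ}
    {x x' : κ → A} (h : Wr c ψ π x) (h' : Wr c ψ π' x') : π = π' ∧ x = x' := by
  classical
  have h1 : π = π' := by
    ext k
    by_contra hne
    obtain ⟨k', hk'⟩ := π'.surjective (π k)
    have hkk : k' ≠ k := by
      rintro rfl
      exact hne hk'.symm
    obtain ⟨s, hs⟩ := exists_ne (1 : T)
    have h1 := h (Pi.mulSingle k s) k
    have h2 := h' (Pi.mulSingle k s) k'
    rw [hk', h1, Pi.mulSingle_eq_same, Pi.mulSingle_eq_of_ne hkk, map_one] at h2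
    exact hs ((MulEquiv.map_eq_one_iff _).mp h2)
  subst h1
  refine ⟨rfl, ?_⟩
  funext k
  apply hc
  intro t
  have h1 := h (fun _ => t) k
  have h2 := h' (fun _ => t) k
  rw [h1] at h2
  exact h2

variable {Q : Type*} [Group Q] {Ψ : Q →* MulAut (κ → T)}
  (hex : ∀ q, ∃ (π : Equiv.Perm κ) (x : κ → A), Wr c (Ψ q) π x)

/-- The permutation. -/
noncomputable def pQ (q : Q) : Equiv.Perm κ := (hex q).choose

/-- The factors. -/
noncomputable def xQ (q : Q) : κ → A := (hex q).choose_spec.choose

theorem wrQ (q : Q) : Wr c (Ψ q) (pQ hex q) (xQ hex q) := (hex q).choose_spec.choose_spec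

theorem pQ_one [Nontrivial T] (hc : ∀ x y, (∀ t, c x t = c y t) → x = y) :
    pQ hex 1 = 1 ∧ xQ hex 1 = fun _ => 1 := by
  have h := wrQ hex 1
  rw [map_one] at h
  exact wr_unique hc h Wr.one

theorem pQ_mul [Nontrivial T] (hc : ∀ x y, (∀ t, c x t = c y t) → x = y) (q q' : Q) :
    pQ hex (q * q') = pQ hex q * pQ hex q' ∧
      xQ hex (q * q') = fun k => xQ hex q (pQ hex q' k) * xQ hex q' k := by
  have h := wrQ hex (q * q')
  rw [map_mul] at h
  exact wr_unique hc h ((wrQ hex q).mul (wrQ hex q'))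

/-- The action on the ring. -/
noncomputable def rhoQ [Nontrivial T] (hc : ∀ x y, (∀ t, c x t = c y t) → x = y) {B : Type*}
    [Ring B] (r : A →* RingAut B) : Q →* RingAut (κ → B) where
  toFun q := wR r (pQ hex q) (xQ hex q)
  map_one' := by
    rw [(pQ_one hex hc).1, (pQ_one hex hc).2]
    exact wR_one r
  map_mul' q q' := by
    rw [(pQ_mul hex hc q q').1, (pQ_mul hex hc q q').2]
    exact wR_mul r _ _ _ _

theorem rhoQ_apply [Nontrivial T] (hc : ∀ x y, (∀ t, c x t = c y t) → x = y) {B : Type*} [Ring B]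
    (r : A →* RingAut B) (q : Q) (b : κ → B) (k : κ) :
    rhoQ hex hc r q b (pQ hex q k) = r (xQ hex q k) (b k) := wR_apply r _ _ b k

end wreath

section lift

variable {A B H : Type*} [Group A] [Ring B] [Group H] {inc : H →* B}
  {hinj : Function.Injective inc} {r : A →* RingAut B}
  {hex : ∀ x h, ∃ h', inc h' = r x (inc h)}

/-- The projection. -/
def mkk (κ H : Type*) [Group H] : (κ → H) →* (κ → H ⧸ Subgroup.center H) where
  toFun h k := ((h k : H) : H ⧸ Subgroup.center H)
  map_one' := rfl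
  map_mul' _ _ := rfl

theorem mkk_surj (κ H : Type*) [Group H] : Function.Surjective (mkk κ H) := by
  intro z
  choose h hh using fun k => QuotientGroup.mk_surjective (z k)
  exact ⟨h, funext hh⟩

theorem mkk_congr {κ H : Type*} [Group H] (ψ : (κ → H) ≃* (κ → H)) {y z : κ → H}
    (h : mkk κ H y = mkk κ H z) : mkk κ H (ψ y) = mkk κ H (ψ z) := by
  classical
  have h1 : y⁻¹ * z ∈ Subgroup.center (κ → H) := by
    rw [Subgroup.mem_center_iff]
    intro w
    funext k
    have h2 : (y k)⁻¹ * z k ∈ Subgroup.center H := QuotientGroup.eq.mp (congrFun h k)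
    exact Subgroup.mem_center_iff.mp h2 (w k)
  have h3 : ψ (y⁻¹ * z) ∈ Subgroup.center (κ → H) := by
    rw [Subgroup.mem_center_iff] at h1 ⊢
    intro w
    obtain ⟨v, rfl⟩ := ψ.surjective w
    rw [← map_mul, ← map_mul, h1]
  funext k
  apply QuotientGroup.eq.mpr
  rw [Subgroup.mem_center_iff] at h3 ⊢
  intro t
  have h4 := congrFun (h3 (fun _ => t)) k
  rw [map_mul, map_inv] at h4
  exact h4

/-- The induced automorphism. -/
noncomputable def psb {κ H : Type*} [Group H] (ψ : (κ → H) ≃* (κ → H)) :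
    (κ → H ⧸ Subgroup.center H) ≃* (κ → H ⧸ Subgroup.center H) where
  toFun w := mkk κ H (ψ (mkk_surj κ H w).choose)
  invFun w := mkk κ H (ψ.symm (mkk_surj κ H w).choose)
  left_inv w := by
    have h1 : mkk κ H (ψ.symm (mkk_surj κ H (mkk κ H (ψ (mkk_surj κ H w).choose))).choose) =
        mkk κ H (ψ.symm (ψ (mkk_surj κ H w).choose)) :=
      mkk_congr ψ.symm (mkk_surj κ H (mkk κ H (ψ (mkk_surj κ H w).choose))).choose_spec
    refine h1.trans ?_
    rw [MulEquiv.symm_apply_apply]
    exact (mkk_surj κ H w).choose_spec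
  right_inv w := by
    have h1 : mkk κ H (ψ (mkk_surj κ H (mkk κ H (ψ.symm (mkk_surj κ H w).choose))).choose) =
        mkk κ H (ψ (ψ.symm (mkk_surj κ H w).choose)) :=
      mkk_congr ψ (mkk_surj κ H (mkk κ H (ψ.symm (mkk_surj κ H w).choose))).choose_spec
    refine h1.trans ?_
    rw [MulEquiv.apply_symm_apply]
    exact (mkk_surj κ H w).choose_spec
  map_mul' w w' := by
    rw [← map_mul, ← map_mul]
    apply mkk_congr
    rw [map_mul, (mkk_surj κ H w).choose_spec, (mkk_surj κ H w').choose_spec,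
      (mkk_surj κ H (w * w')).choose_spec]

theorem psb_mkk {κ H : Type*} [Group H] (ψ : (κ → H) ≃* (κ → H)) (z : κ → H) :
    psb ψ (mkk κ H z) = mkk κ H (ψ z) :=
  mkk_congr ψ (mkk_surj κ H (mkk κ H z)).choose_spec

/-- Automorphisms of powers of a quasisimple group. -/
theorem exists_wrH (hsur : ∀ φ : (H ⧸ Subgroup.center H) ≃* (H ⧸ Subgroup.center H),
    ∃ x : A, ∀ t, φ t = cQ inc hinj r hex x t) (hperf : commutator H = ⊤)
    [IsSimpleGroup (H ⧸ Subgroup.center H)]
    (hz : Subgroup.center (H ⧸ Subgroup.center H) = ⊥) {κ : Type*} [Finite κ]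
    (ψ : (κ → H) ≃* (κ → H)) :
    ∃ (π : Equiv.Perm κ) (x : κ → A), Wr (restr inc hinj r hex) ψ π x := by
  classical
  obtain ⟨π, φ, h⟩ := Pool.Agent.Lib.MP_7f581e_nt.AutAlt.aut_pi hz (psb ψ)
  choose x hx using fun k => hsur (φ k)
  refine ⟨π, x, ?_⟩
  intro z k
  let f : (κ → H) →* H := (Pi.evalMonoidHom (fun _ => H) (π k)).comp ψ.toMonoidHom
  let g : (κ → H) →* H := (restr inc hinj r hex (x k)).toMonoidHom.comp
    (Pi.evalMonoidHom (fun _ => H) k)
  have hfg : f = g := by
    apply eq_of_perfect (perfect_pi hperf)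
    intro z
    change ψ z (π k) * (restr inc hinj r hex (x k) (z k))⁻¹ ∈ Subgroup.center H
    have h1 : ((ψ z (π k) : H) : H ⧸ Subgroup.center H) =
        ((restr inc hinj r hex (x k) (z k) : H) : H ⧸ Subgroup.center H) := by
      have h2 := h (mkk κ H z) k
      rw [psb_mkk, hx] at h2
      exact h2
    have h3 := (QuotientGroup.eq.mp h1.symm)
    rw [← (inferInstance : (Subgroup.center H).Normal).mem_comm_iff] at h3
    exact h3
  exact congrArg (fun F : (κ → H) →* H => F z) hfg

/-- Automorphisms of powers of the simple quotient. -/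
theorem exists_wrS (hsur : ∀ φ : (H ⧸ Subgroup.center H) ≃* (H ⧸ Subgroup.center H),
    ∃ x : A, ∀ t, φ t = cQ inc hinj r hex x t)
    [IsSimpleGroup (H ⧸ Subgroup.center H)]
    (hz : Subgroup.center (H ⧸ Subgroup.center H) = ⊥) {κ : Type*} [Finite κ]
    (ψ : (κ → H ⧸ Subgroup.center H) ≃* (κ → H ⧸ Subgroup.center H)) :
    ∃ (π : Equiv.Perm κ) (x : κ → A), Wr (cQ inc hinj r hex) ψ π x := by
  classical
  obtain ⟨π, φ, h⟩ := Pool.Agent.Lib.MP_7f581e_nt.AutAlt.aut_pi hz ψ
  choose x hx using fun k => hsur (φ k)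
  exact ⟨π, x, fun z k => by rw [h, hx]⟩

theorem cQ_injective (hfix : ∀ x : A, (∀ t, cQ inc hinj r hex x t = t) → x = 1) (x y : A)
    (h : ∀ t, cQ inc hinj r hex x t = cQ inc hinj r hex y t) : x = y := by
  have h1 : x⁻¹ * y = 1 := by
    apply hfix
    intro t
    rw [map_mul, MulAut.mul_apply, ← h, ← MulAut.mul_apply, ← map_mul, inv_mul_cancel, map_one,
      MulAut.one_apply]
  exact inv_mul_eq_one.mp h1

theorem restr_injective (hfix : ∀ x : A, (∀ t, cQ inc hinj r hex x t = t) → x = 1) (x y : A)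
    (h : ∀ t, restr inc hinj r hex x t = restr inc hinj r hex y t) : x = y := by
  apply cQ_injective hfix
  intro t
  obtain ⟨t, rfl⟩ := QuotientGroup.mk_surjective t
  rw [cQ_mk, cQ_mk, h]

end lift

section solve

/-- **Split embedding problems.** -/
theorem solvesOver_of_split {T : Type} [Group T] {κ : Type} {E Q : Type} [Group E] [Group Q]
    (f : E →* Q) (s : Q →* E) (hfs : ∀ q, f (s q) = q) (θ : f.ker ≃* (κ → T))
    {V : Type} [Group V] (t : V →* (κ → T)) (ht : Function.Surjective t)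
    (act : Q →* MulAut V) (hact : ∀ q v, t (act q v) = Psi f.ker θ (s q) (t v))
    {K F : Type u} [Field K] [Field F] [Algebra K F]
    (hs : SolvesOver K F (SemidirectProduct.rightHom : V ⋊[act] Q →* Q)) :
    SolvesOver K F f := by
  have hcomm : ∀ q : Q, ((nn f.ker θ).comp t).comp (act q).toMonoidHom =
      (MulAut.conj (s q)).toMonoidHom.comp ((nn f.ker θ).comp t) := by
    intro q
    ext v
    change nn f.ker θ (t (act q v)) = (s q) * nn f.ker θ (t v) * (s q)⁻¹
    rw [hact, nn_psi]
  refine SolvesOver.of_surjective (SemidirectProduct.lift ((nn f.ker θ).comp t)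
    s hcomm) ?_ ?_ hs
  · intro e
    have h1 : e * (s (f e))⁻¹ ∈ f.ker := by
      rw [MonoidHom.mem_ker, map_mul, map_inv, hfs, mul_inv_cancel]
    obtain ⟨y, hy⟩ := nn_surj f.ker θ h1
    obtain ⟨v, hv⟩ := ht y
    refine ⟨⟨v, f e⟩, ?_⟩
    change nn f.ker θ (t v) * s (f e) = e
    rw [hv, hy, inv_mul_cancel_right]
  · rintro ⟨v, q⟩
    change f (nn f.ker θ (t v) * s q) = q
    have h1 : f (nn f.ker θ (t v)) = 1 := MonoidHom.mem_ker.mp (nn_mem f.ker θ _)
    rw [map_mul, h1, one_mul, hfs]

variable {A B H : Type} [Group A] [Ring B] [Group H] {inc : H →* B}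
  {hinj : Function.Injective inc} {r : A →* RingAut B}
  {hex : ∀ x h, ∃ h', inc h' = r x (inc h)}
  (hsur : ∀ φ : (H ⧸ Subgroup.center H) ≃* (H ⧸ Subgroup.center H),
    ∃ x : A, ∀ t, φ t = cQ inc hinj r hex x t)
  (hfix : ∀ x : A, (∀ t, cQ inc hinj r hex x t = t) → x = 1)
  [IsSimpleGroup (H ⧸ Subgroup.center H)]
  (hz : Subgroup.center (H ⧸ Subgroup.center H) = ⊥) {κ : Type} [Finite κ]
  {E Q : Type} [Group E] [Group Q] (f : E →* Q) (s : Q →* E) (hfs : ∀ q, f (s q) = q)

/-- The action of the quotient when the kernel is a power of `H`. -/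
noncomputable def rhoH [Nontrivial H] (hperf : commutator H = ⊤) (θ : f.ker ≃* (κ → H)) :
    Q →* RingAut (κ → B) :=
  rhoQ (c := restr inc hinj r hex) (Ψ := (Psi f.ker θ).comp s)
    (fun q => exists_wrH hsur hperf hz _) (restr_injective hfix) r

/-- The action of the quotient when the kernel is a power of the simple quotient of `H`. -/
noncomputable def rhoS (θ : f.ker ≃* (κ → H ⧸ Subgroup.center H)) :
    Q →* RingAut (κ → B) :=
  rhoQ (c := cQ inc hinj r hex) (Ψ := (Psi f.ker θ).comp s)
    (fun q => exists_wrS hsur hz _) (cQ_injective hfix) r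

theorem rhoH_form [Nontrivial H] (hperf : commutator H = ⊤) (θ : f.ker ≃* (κ → H)) (q : Q) :
    ∃ (π : Equiv.Perm κ) (x : κ → A),
      ∀ b k, rhoH hsur hfix hz f s hperf θ q b (π k) = r (x k) (b k) :=
  ⟨_, _, fun b k => rhoQ_apply _ _ r q b k⟩

theorem rhoS_form (θ : f.ker ≃* (κ → H ⧸ Subgroup.center H)) (q : Q) :
    ∃ (π : Equiv.Perm κ) (x : κ → A),
      ∀ b k, rhoS hsur hfix hz f s θ q b (π k) = r (x k) (b k) :=
  ⟨_, _, fun b k => rhoQ_apply _ _ r q b k⟩

include hfs in
/-- **Split embedding problems, kernel a power of a quasisimple group.** -/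
theorem solvesOver_of_splitH [Nontrivial H] (hperf : commutator H = ⊤) (θ : f.ker ≃* (κ → H))
    {V : Type} [Group V] (l : V →* (κ → H)) (hl : Function.Surjective l)
    (act : Q →* MulAut V)
    (hact : ∀ q v, (fun k => inc (l (act q v) k)) =
      rhoH hsur hfix hz f s hperf θ q (fun k => inc (l v k)))
    {K F : Type u} [Field K] [Field F] [Algebra K F]
    (hs : SolvesOver K F (SemidirectProduct.rightHom : V ⋊[act] Q →* Q)) :
    SolvesOver K F f := by
  refine solvesOver_of_split f s hfs θ l hl act ?_ hs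
  intro q v
  have hex' : ∀ q, ∃ (π : Equiv.Perm κ) (x : κ → A),
      Wr (restr inc hinj r hex) (((Psi f.ker θ).comp s) q) π x :=
    fun q => exists_wrH hsur hperf hz _
  funext i
  obtain ⟨k, rfl⟩ := (pQ hex' q).surjective i
  have h1 := wrQ hex' q (l v) k
  change Psi f.ker θ (s q) (l v) (pQ hex' q k) = _ at h1
  rw [h1]
  apply hinj
  rw [inc_restr]
  have h2 := congrFun (hact q v) (pQ hex' q k)
  have h3 : rhoH hsur hfix hz f s hperf θ q (fun k => inc (l v k)) (pQ hex' q k) =
      r (xQ hex' q k) (inc (l v k)) := rhoQ_apply hex' (restr_injective hfix) r q _ k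
  rw [h3] at h2
  exact h2

include hfs in
/-- **Split embedding problems, kernel a power of a simple group.** -/
theorem solvesOver_of_splitS (θ : f.ker ≃* (κ → H ⧸ Subgroup.center H))
    {V : Type} [Group V] (l : V →* (κ → H)) (hl : Function.Surjective l)
    (act : Q →* MulAut V)
    (hact : ∀ q v, (fun k => inc (l (act q v) k)) =
      rhoS hsur hfix hz f s θ q (fun k => inc (l v k)))
    {K F : Type u} [Field K] [Field F] [Algebra K F]
    (hs : SolvesOver K F (SemidirectProduct.rightHom : V ⋊[act] Q →* Q)) :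
    SolvesOver K F f := by
  refine solvesOver_of_split f s hfs θ ((mkk κ H).comp l)
    ((mkk_surj κ H).comp hl) act ?_ hs
  intro q v
  have hex' : ∀ q, ∃ (π : Equiv.Perm κ) (x : κ → A),
      Wr (cQ inc hinj r hex) (((Psi f.ker θ).comp s) q) π x :=
    fun q => exists_wrS hsur hz _
  funext i
  obtain ⟨k, rfl⟩ := (pQ hex' q).surjective i
  have h1 := wrQ hex' q (mkk κ H (l v)) k
  change Psi f.ker θ (s q) (mkk κ H (l v)) (pQ hex' q k) = _ at h1
  change ((l (act q v) (pQ hex' q k) : H) : H ⧸ Subgroup.center H) =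
    Psi f.ker θ (s q) (mkk κ H (l v)) (pQ hex' q k)
  rw [h1]
  symm
  apply cQ_mk'
  have h2 := congrFun (hact q v) (pQ hex' q k)
  have h3 : rhoS hsur hfix hz f s θ q (fun k => inc (l v k)) (pQ hex' q k) =
      r (xQ hex' q k) (inc (l v k)) := rhoQ_apply hex' (cQ_injective hfix) r q _ k
  rw [h3] at h2
  exact h2

end solve

end MP7fY
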