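import Pool.Agent.Lib.MP_7f581e_ntL.WH7

set_option autoImplicit false
universe u
namespace MP7fL
open Polynomial

/-- The denominators of finitely many polynomials over the fraction field can be cleared. -/
theorem clear_denoms {A E : Type*} [CommRing A] [IsDomain A] [Field E] [Algebra A E]
    [IsFractionRing A E] {ι : Type*} (s : Finset ι) (f : ι → E[X]) :
    ∃ D : A, D ≠ 0 ∧ ∀ i ∈ s, ∃ u : A[X],
      u.map (algebraMap A E) = C (algebraMap A E D) * f i := by
  classical
  obtain ⟨b, hb⟩ := IsLocalization.exist_integer_multiples_of_finset (nonZeroDivisors A)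
    (s.biUnion fun i => (f i).support.image (f i).coeff)
  refine ⟨b, nonZeroDivisors.coe_ne_zero b, fun i hi => ?_⟩
  have h1 : ∀ j, ∃ c : A, algebraMap A E c = algebraMap A E b * (f i).coeff j := by
    intro j
    by_cases h0 : (f i).coeff j = 0
    · exact ⟨0, by rw [h0]; simp⟩
    · obtain ⟨c, hc⟩ := hb ((f i).coeff j) (Finset.mem_biUnion.mpr
        ⟨i, hi, Finset.mem_image.mpr ⟨j, mem_support_iff.mpr h0, rfl⟩⟩)
      exact ⟨c, by rw [hc, Algebra.smul_def]⟩
  have h2 : C (algebraMap A E b) * f i ∈ lifts (algebraMap A E) := by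
    rw [lifts_iff_coeff_lifts]
    intro j
    rw [coeff_C_mul]
    exact h1 j
  exact h2

theorem core_residue {A E L K : Type*} [CommRing A] [IsDomain A] [IsIntegrallyClosed A]
    [Field E] [Algebra A E] [IsFractionRing A E] [Field L] [Algebra E L] [Algebra A L]
    [IsScalarTower A E L] [Field K] (pb : PowerBasis E L) (hint : IsIntegral A pb.gen)
    (h : A[X]) (hm : h.Monic) (hs : (h.map (algebraMap A L)).Splits)
    (hno : ∀ y : A, h.eval y ≠ 0) :
    ∃ c : A, c ≠ 0 ∧ ∀ φ : A →+* K, Function.Surjective φ → φ c ≠ 0 →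
      Irreducible ((minpoly A pb.gen).map φ) → ∀ ρ : K, (h.map φ).eval ρ ≠ 0 := by
  classical
  have hAE : Function.Injective (algebraMap A E) := IsFractionRing.injective A E
  have hAL : Function.Injective (algebraMap A L) := by
    rw [IsScalarTower.algebraMap_eq A E L]
    exact (algebraMap E L).injective.comp hAE
  set P := minpoly A pb.gen with hP
  have hPm : P.Monic := minpoly.monic hint
  have hmin : minpoly E pb.gen = P.map (algebraMap A E) :=
    minpoly.isIntegrallyClosed_eq_field_fractions' E hint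
  have hPdeg : P.natDegree = pb.dim := by
    rw [← pb.natDegree_minpoly, hmin, hPm.natDegree_map]
  set R := (h.map (algebraMap A L)).roots with hR
  have hprod : h.map (algebraMap A L) = (R.map fun b => X - C b).prod := by
    rw [hs.eq_prod_roots, (hm.map _).leadingCoeff, C_1, one_mul]
  have hf : ∀ b : L, ∃ f : E[X], f.natDegree < pb.dim ∧ b = aeval pb.gen f :=
    fun b => pb.exists_eq_aeval b
  choose f hfd hfb using hf
  obtain ⟨D, hD, hu⟩ := clear_denoms (A := A) R.toFinset f
  have hu' : ∀ b ∈ R, ∃ u : A[X], u.natDegree < pb.dim ∧ aeval pb.gen u = D • b := by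
    intro b hb
    obtain ⟨u, hu⟩ := hu b (Multiset.mem_toFinset.mpr hb)
    refine ⟨u, ?_, ?_⟩
    · rw [← natDegree_map_eq_of_injective hAE, hu]
      exact lt_of_le_of_lt (natDegree_C_mul_le _ _) (hfd b)
    · have h1 : aeval pb.gen u = aeval pb.gen (u.map (algebraMap A E)) := by
        rw [aeval_map_algebraMap]
      rw [h1, hu, map_mul, aeval_C, ← hfb b, Algebra.smul_def, IsScalarTower.algebraMap_apply A E L]
  choose! u hud hub using hu'
  have hj : ∀ b ∈ R, ∃ j : ℕ, j ≠ 0 ∧ (u b).coeff j ≠ 0 := by
    intro b hb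
    by_contra hcon
    push Not at hcon
    have h1 : u b = C ((u b).coeff 0) := by
      ext j
      rw [coeff_C]
      split_ifs with h0
      · rw [h0]
      · exact hcon j h0
    have h2 : algebraMap A L ((u b).coeff 0) = algebraMap A L D * b := by
      rw [← Algebra.smul_def, ← hub b hb]
      conv_rhs => rw [h1]
      rw [aeval_C]
    have hDL : algebraMap A L D ≠ 0 := fun h0 => hD (hAL (by rw [h0, map_zero]))
    have h3 : b = algebraMap E L (algebraMap A E ((u b).coeff 0) / algebraMap A E D) := by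
      rw [map_div₀, ← IsScalarTower.algebraMap_apply, ← IsScalarTower.algebraMap_apply, h2]
      field_simp
    have hbroot : (h.map (algebraMap A L)).eval b = 0 := by
      have := (mem_roots (hm.map (algebraMap A L)).ne_zero).mp hb
      exact this
    set e := algebraMap A E ((u b).coeff 0) / algebraMap A E D with he
    have h4 : (h.map (algebraMap A E)).eval e = 0 := by
      apply (algebraMap E L).injective
      rw [map_zero, ← hbroot, h3, eval_map, eval_map, hom_eval₂, ← IsScalarTower.algebraMap_eq]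
    have h5 : IsIntegral A e := ⟨h, hm, by rw [← eval_map]; exact h4⟩
    obtain ⟨y, hy⟩ := IsIntegrallyClosed.isIntegral_iff.mp h5
    apply hno y
    apply hAE
    rw [map_zero, ← h4, ← hy, eval_map, eval₂_at_apply]
  choose! j hj0 hj1 using hj
  refine ⟨∏ b ∈ R.toFinset, (u b).coeff (j b), Finset.prod_ne_zero_iff.mpr fun b hb =>
    hj1 b (Multiset.mem_toFinset.mp hb), fun φ hφ hc hirr ρ h0 => ?_⟩
  obtain ⟨r, rfl⟩ := hφ ρ
  rw [eval_map, eval₂_at_apply] at h0
  -- the identity in `A[θ]`
  have hroot : eval₂ (algebraMap A L) pb.gen P = 0 := minpoly.aeval A pb.gen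
  let ψ : AdjoinRoot P →+* L := AdjoinRoot.lift (algebraMap A L) pb.gen hroot
  have hψ : Function.Injective ψ := by
    rw [injective_iff_map_eq_zero]
    intro z hz
    obtain ⟨q, rfl⟩ := AdjoinRoot.mk_surjective z
    rw [AdjoinRoot.lift_mk] at hz
    rw [AdjoinRoot.mk_eq_zero]
    have hfaith : FaithfulSMul A L := (faithfulSMul_iff_algebraMap_injective A L).mpr hAL
    have htf : Module.IsTorsionFree A L := inferInstance
    exact (minpoly.isIntegrallyClosed_dvd_iff hint q).mp hz
  have hid : AdjoinRoot.of P (D ^ (Multiset.card R) * h.eval r) =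
      (R.map fun b => AdjoinRoot.mk P (C (D * r) - u b)).prod := by
    apply hψ
    rw [AdjoinRoot.lift_of, map_multiset_prod, Multiset.map_map]
    have h1 : algebraMap A L (h.eval r) = (R.map fun b => algebraMap A L r - b).prod := by
      have h2 := congrArg (eval (algebraMap A L r)) hprod
      rw [eval_map, eval₂_at_apply, eval_multiset_prod, Multiset.map_map] at h2
      rw [h2]
      simp
    have h3 : algebraMap A L D ^ (Multiset.card R) = (R.map fun _ => algebraMap A L D).prod := by
      rw [Multiset.map_const', Multiset.prod_replicate]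
    rw [map_mul, map_pow, h1, h3, ← Multiset.prod_map_mul]
    refine congrArg Multiset.prod (Multiset.map_congr rfl fun b hb => ?_)
    rw [Function.comp_apply, AdjoinRoot.lift_mk, eval₂_sub, eval₂_C, map_mul]
    have : eval₂ (algebraMap A L) pb.gen (u b) = algebraMap A L D * b := by
      rw [← Algebra.smul_def, ← hub b hb]
      rfl
    rw [this]
    ring
  let Q := P.map φ
  have hQ : Fact (Irreducible Q) := ⟨hirr⟩
  have hQr : eval₂ ((AdjoinRoot.of Q).comp φ) (AdjoinRoot.root Q) P = 0 := by
    rw [← eval₂_map]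
    exact AdjoinRoot.eval₂_root Q
  let Φ : AdjoinRoot P →+* AdjoinRoot Q :=
    AdjoinRoot.lift ((AdjoinRoot.of Q).comp φ) (AdjoinRoot.root Q) hQr
  have hΦ : ∀ q : A[X], Φ (AdjoinRoot.mk P q) = AdjoinRoot.mk Q (q.map φ) := by
    intro q
    rw [AdjoinRoot.lift_mk, ← eval₂_map]
    exact AdjoinRoot.aeval_eq (f := Q) _
  have hid2 := congrArg Φ hid
  rw [AdjoinRoot.lift_of, RingHom.comp_apply, map_mul, h0, mul_zero, map_zero,
    map_multiset_prod, Multiset.map_map] at hid2
  obtain ⟨b, hb, hb0⟩ := Multiset.mem_map.mp (Multiset.prod_eq_zero_iff.mp hid2.symm)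
  rw [Function.comp_apply, hΦ, AdjoinRoot.mk_eq_zero] at hb0
  have hdeg : (map φ (C (D * r) - u b)).degree < Q.degree := by
    have hQd : Q.degree = (pb.dim : WithBot ℕ) := by
      rw [degree_eq_natDegree (hPm.map φ).ne_zero, hPm.natDegree_map, hPdeg]
    rw [hQd]
    refine lt_of_le_of_lt degree_map_le ?_
    refine lt_of_le_of_lt degree_le_natDegree ?_
    have h2 : (C (D * r) - u b).natDegree ≤ (u b).natDegree :=
      (natDegree_sub_le _ _).trans (by rw [natDegree_C]; simp)
    exact_mod_cast lt_of_le_of_lt h2 (hud b hb)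
  have hz := eq_zero_of_dvd_of_degree_lt hb0 hdeg
  have hcoef := congrArg (fun q => q.coeff (j b)) hz
  simp only [coeff_map, coeff_sub, coeff_C, if_neg (hj0 b hb), coeff_zero, zero_sub,
    map_neg, neg_eq_zero] at hcoef
  apply hc
  rw [map_prod]
  exact Finset.prod_eq_zero (Multiset.mem_toFinset.mpr hb) hcoef

theorem wh_of_isHilbertian {K : Type u} [Field K] (hK : MP7fR.IsHilbertian K) : WH K := by
  classical
  intro s hs g hg
  set κ : K[X] →+* RatFunc K := algebraMap K[X] (RatFunc K) with hκ
  let Ω := SeparableClosure (RatFunc K)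
  let S : Set Ω := ⋃ h ∈ s, (((h.map κ).rootSet Ω : Set Ω))
  have hSfin : S.Finite := s.finite_toSet.biUnion fun h _ => (h.map κ).rootSet_finite Ω
  let L := IntermediateField.adjoin (RatFunc K) S
  have hfd : FiniteDimensional (RatFunc K) L :=
    IntermediateField.finiteDimensional_adjoin fun x _ => Algebra.IsIntegral.isIntegral x
  have hsepL : Algebra.IsSeparable (RatFunc K) L :=
    Algebra.isSeparable_tower_bot_of_isSeparable (RatFunc K) L Ω
  let _ : Algebra K[X] L := ((algebraMap (RatFunc K) L).comp κ).toAlgebra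
  have htow : IsScalarTower K[X] (RatFunc K) L := IsScalarTower.of_algebraMap_eq (fun _ => rfl)
  obtain ⟨pb, hint⟩ := MP7fR.exists_integral_powerBasis (R := K[X]) (F := RatFunc K) (L := L)
  have hsplit : ∀ h ∈ s, (h.map (algebraMap K[X] L)).Splits := by
    intro h hh
    have h1 : ((h.map κ).map (algebraMap (RatFunc K) Ω)).Splits :=
      IsSepClosed.splits_codomain _ (hs h hh).2.1
    have h2 : h.map (algebraMap K[X] L) = (h.map κ).map (algebraMap (RatFunc K) L) := by
      rw [map_map]
      rfl
    rw [h2]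
    refine IntermediateField.splits_of_splits h1 fun x hx => ?_
    exact IntermediateField.subset_adjoin _ _ (Set.mem_biUnion hh hx)
  have hcore : ∀ h ∈ s, ∃ c : K[X], c ≠ 0 ∧ ∀ φ : K[X] →+* K, Function.Surjective φ → φ c ≠ 0 →
      Irreducible ((minpoly K[X] pb.gen).map φ) → ∀ ρ : K, (h.map φ).eval ρ ≠ 0 :=
    fun h hh => core_residue pb hint h (hs h hh).1 (hsplit h hh) (hs h hh).2.2
  choose! c hc0 hc using hcore
  have hmin : minpoly (RatFunc K) pb.gen = (minpoly K[X] pb.gen).map κ :=
    minpoly.isIntegrallyClosed_eq_field_fractions' (RatFunc K) hint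
  have hirr : Irreducible ((minpoly K[X] pb.gen).map κ) := by
    rw [← hmin]
    exact minpoly.irreducible pb.isIntegral_gen
  have hsep : ((minpoly K[X] pb.gen).map κ).Separable := by
    rw [← hmin]
    exact Algebra.IsSeparable.isSeparable (RatFunc K) pb.gen
  obtain ⟨a, ha, hairr⟩ := hK (minpoly K[X] pb.gen) hirr hsep (g * ∏ h ∈ s, c h)
    (mul_ne_zero hg (Finset.prod_ne_zero_iff.mpr hc0))
  rw [eval_mul] at ha
  refine ⟨a, left_ne_zero_of_mul ha, fun h hh ρ => ?_⟩
  have hsurj : Function.Surjective (evalRingHom a : K[X] →+* K) := fun c => ⟨C c, by simp⟩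
  refine hc h hh (evalRingHom a) hsurj ?_ hairr ρ
  have h1 : (∏ h ∈ s, c h).eval a ≠ 0 := right_ne_zero_of_mul ha
  rw [eval_prod] at h1
  exact Finset.prod_ne_zero_iff.mp h1 h hh

theorem infinite_of_isHilbertian {K : Type u} [Field K] (hK : MP7fR.IsHilbertian K) :
    Infinite K := by
  by_contra hcon
  rw [not_infinite_iff_finite] at hcon
  have hfin := Fintype.ofFinite K
  obtain ⟨a, ha, -⟩ := hK X (by rw [map_X]; exact irreducible_X) (by rw [map_X]; exact separable_X)
    (∏ b : K, (X - C b)) (Finset.prod_ne_zero_iff.mpr fun b _ => X_sub_C_ne_zero b)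
  apply ha
  rw [eval_prod]
  exact Finset.prod_eq_zero (Finset.mem_univ a) (by simp)

/-- Over a Hilbertian field `K`, a finite group that occurs over `K(t_1, …, t_n)` occurs
over `K`. -/
theorem occurs_of_mv_of_isHilbertian {G : Type} [Group G] [Finite G] {σ : Type} [Finite σ]
    {K : Type u} [Field K] (hK : MP7fR.IsHilbertian K)
    (h : MP7fR.Occurs G (FractionRing (MvPolynomial σ K))) : MP7fR.Occurs G K :=
  have := infinite_of_isHilbertian hK
  occurs_of_mv σ K (wh_of_isHilbertian hK) h

end MP7fL
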