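import Pool.Agent.Lib.MP_7f581e_ntL.W5
import Pool.Agent.Lib.MP_7f581e_ntL.Y6

/-!
Split embedding problems with kernel a power of `Sp(2n, F)` or of `PSp(2n, F)`.
-/

set_option autoImplicit false
set_option linter.unusedSectionVars false

universe u

namespace MP7fY

open Matrix MP7fP MP7fE MP7fU MP7fR MP7fV MP7fW

section full

variable {F : Type*} [Field F] {n : ℕ}

theorem om_comp (σ : F ≃+* F) (x y : Fin n ⊕ Fin n → F) : om (σ ∘ x) (σ ∘ y) = σ (om x y) := by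
  rw [om_eq, om_eq, map_sum]
  apply Finset.sum_congr rfl
  intro i _
  simp only [Function.comp_apply, map_sub, map_mul]

theorem glMap_GSp (σ : F ≃+* F) : ∀ g ∈ GSp n F, glMap σ g ∈ GSp n F := by
  rintro g ⟨c, hc, hgc⟩
  refine ⟨σ c, (map_ne_zero σ).mpr hc, ?_⟩
  intro x y
  have hx : x = σ ∘ (σ.symm ∘ x) := by
    funext i
    exact (RingEquiv.apply_symm_apply σ _).symm
  have hy : y = σ ∘ (σ.symm ∘ y) := by
    funext i
    exact (RingEquiv.apply_symm_apply σ _).symm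
  rw [glMap_coe, hx, hy, map_mulVec', map_mulVec', om_comp, om_comp, hgc, map_mul]

/-- The group of semilinear conjugations by similitudes. -/
abbrev AG (n : ℕ) (F : Type*) [Field F] :
    Subgroup (RingAut (Matrix (Fin n ⊕ Fin n) (Fin n ⊕ Fin n) F)) :=
  AD (GSp n F) glMap_GSp

theorem hexG (x : AG n F) (h : Sp n F) :
    ∃ h', incS n F h' = (AG n F).subtype x (incS n F h) := by
  obtain ⟨R, g, hg, σ, rfl⟩ := x
  exact ⟨conjG ⟨g, hg⟩ (mapS (σ : F →+* F) h), rfl⟩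

/-- The action on `PSp`. -/
noncomputable abbrev cG (n : ℕ) (F : Type*) [Field F] : AG n F →* MulAut (PSp n F) :=
  cQ (incS n F) incS_inj (AG n F).subtype hexG

theorem cG_mk (g : GSp n F) (σ : F ≃+* F) (A : Sp n F) :
    cG n F ⟨cjR g.1 σ, g.1, g.2, σ, rfl⟩ (mkS n F A) =
      mkS n F (conjG g (mapS (σ : F →+* F) A)) :=
  cQ_mk' _ _ _ _ _ rfl

theorem surG [Finite F] (h2 : 2 ≤ n) (h3 : (2 : F) = 0 → 3 ≤ n) (φ : PSp n F ≃* PSp n F) :
    ∃ x : AG n F, ∀ t, φ t = cG n F x t := by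
  obtain ⟨g, σ, hφ⟩ := aut_psp h2 h3 φ
  refine ⟨⟨cjR g.1 σ, g.1, g.2, σ, rfl⟩, ?_⟩
  intro t
  obtain ⟨A, rfl⟩ := mkS_surj t
  rw [hφ, cG_mk]

theorem fixG (h2 : 2 ≤ n) (x : AG n F) (hx : ∀ t, cG n F x t = t) : x = 1 := by
  have hn0 : 0 < n := by omega
  obtain ⟨R, g, hg, σ, rfl⟩ := x
  obtain ⟨c, hc, hgc⟩ := hg
  have key : ∀ v : Fin n ⊕ Fin n → F, v ≠ 0 → ∃ k : F,
      g.1 *ᵥ (σ ∘ v) = k • ((1 : GL (Fin n ⊕ Fin n) F).1 *ᵥ v) := by
    intro v hv
    have h4 := hx (mkS n F (T v 1))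
    rw [cG_mk ⟨g, c, hc, hgc⟩ σ, mapS_T, conjG_T _ hc hgc] at h4
    have h5 := mkT_eq h2 h4
    have h6 : g.1 *ᵥ (σ ∘ v) ≠ 0 := by
      intro h0
      have h7 : σ ∘ v = 0 := by
        rw [← Matrix.one_mulVec (σ ∘ v), ← gl_inv_mul g, ← Matrix.mulVec_mulVec, h0,
          Matrix.mulVec_zero]
      apply hv
      funext a
      have h8 := congrFun h7 a
      exact (map_eq_zero σ).mp h8
    obtain ⟨k, -, hk, -⟩ := T_eq h6 (mul_ne_zero (inv_ne_zero hc) (by
      rw [map_one]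
      exact one_ne_zero)) h5
    refine ⟨k, ?_⟩
    rw [hk, Units.val_one, Matrix.one_mulVec]
  have : Nontrivial (Fin n ⊕ Fin n) := ⟨Sum.inl ⟨0, hn0⟩, Sum.inr ⟨0, hn0⟩, Sum.inl_ne_inr⟩
  obtain ⟨rfl, k, hk⟩ := rigid key
  apply Subtype.ext
  exact cjR_scalar hk

theorem T_pow (v : Fin n ⊕ Fin n → F) (t : F) (a : ℕ) : T v t ^ a = T v (a * t) := by
  induction a with
  | zero => rw [pow_zero, Nat.cast_zero, zero_mul, T_zero]
  | succ a ih => rw [pow_succ, ih, ← T_add, Nat.cast_succ, add_mul, one_mul]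

theorem perfG {p : ℕ} [hp : Fact p.Prime] [CharP F p] (h2 : 2 ≤ n) [IsSimpleGroup (PSp n F)] :
    commutator (Sp n F) = ⊤ := by
  have hn0 : 0 < n := by omega
  have hT : Subgroup.closure {x : Sp n F | ∃ v t, x = T v t} = ⊤ :=
    gen_T fun v t => Subgroup.subset_closure ⟨v, t, rfl⟩
  have hTp : ∀ x ∈ {x : Sp n F | ∃ v t, x = T v t}, x ^ p = 1 := by
    rintro _ ⟨v, t, rfl⟩
    rw [T_pow, CharP.cast_eq_zero, zero_mul, T_zero]
  have hc : ∃ a b : Sp n F ⧸ Subgroup.center (Sp n F), a * b ≠ b * a := by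
    set o : Fin n := ⟨0, hn0⟩
    refine ⟨mkS n F (T (eb o) 1), mkS n F (T (fb o) 1), ?_⟩
    intro h
    have h1 := om_of_comm h2 (eb_ne_zero o) (fb_ne_zero o) one_ne_zero one_ne_zero h
    rw [om_fb_eb, if_pos rfl] at h1
    exact one_ne_zero (neg_eq_zero.mp h1)
  have hz : ∀ z ∈ Subgroup.center (Sp n F), ∃ c : F, c ^ 2 = 1 ∧
      z.1 = c • (1 : Matrix (Fin n ⊕ Fin n) (Fin n ⊕ Fin n) F) := by
    intro z hz
    obtain ⟨c, hc⟩ := scalar_of_center hz
    refine ⟨c, ?_, hc⟩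
    have h1 : z.1 = c • (1 : Sp n F).1 := hc
    exact smul_sq hn0 h1
  by_cases hp2 : p = 2
  · subst hp2
    refine perfect_of_gen (p := 2) (m := 1) hT hTp ?_ (Nat.coprime_one_right 2) hc
    intro z h
    obtain ⟨c, hc2, hzc⟩ := hz z h
    have h3 : (2 : F) = 0 := by exact_mod_cast CharP.cast_eq_zero F 2
    have h4 : (c - 1) ^ 2 = 0 := by linear_combination hc2 + (1 - c) * h3
    have h5 : c = 1 := sub_eq_zero.mp (eq_zero_of_pow_eq_zero h4)
    rw [pow_one]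
    apply Subtype.ext
    rw [hzc, h5, one_smul]
    rfl
  · refine perfect_of_gen (p := p) (m := 2) hT hTp ?_ ?_ hc
    · intro z h
      obtain ⟨c, hc2, hzc⟩ := hz z h
      apply Subtype.ext
      rw [sq]
      change z.1 * z.1 = 1
      rw [hzc, Matrix.smul_mul, Matrix.one_mul, smul_smul, ← sq, hc2, one_smul]
    · exact (Nat.coprime_primes hp.out Nat.prime_two).mpr hp2

theorem nontrivial_Sp (h2 : 2 ≤ n) : Nontrivial (Sp n F) := by
  have hn0 : 0 < n := by omega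
  exact ⟨T (eb ⟨0, hn0⟩) 1, 1, T_ne_one (eb_ne_zero _) one_ne_zero⟩

end full

section solve

variable {F : Type} [Field F] [Finite F] {n : ℕ}

/-- Compatibility with the symplectic involution. -/
theorem spInv_comm (p : ℕ) [Fact p.Prime] [Algebra (ZMod p) F] {κ : Type} [Finite κ]
    (R : RingAut (κ → Matrix (Fin n ⊕ Fin n) (Fin n ⊕ Fin n) F))
    (h : ∃ (π : Equiv.Perm κ) (x : κ → AG n F), ∀ b k, R b (π k) = (AG n F).subtype (x k) (b k))
    (b : κ → Matrix (Fin n ⊕ Fin n) (Fin n ⊕ Fin n) F) :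
    R ((spInv p (Fin n) F κ).j b) = (spInv p (Fin n) F κ).j (R b) := by
  obtain ⟨π, x, hR⟩ := h
  funext i
  obtain ⟨k, rfl⟩ := π.surjective i
  rw [spInv_j]
  change R _ (π k) = -(J (Fin n) F) * (R b (π k))ᵀ * J (Fin n) F
  rw [hR, hR, spInv_j]
  obtain ⟨g, hg, σ, hx⟩ := (x k).2
  change (x k).1 _ = -(J (Fin n) F) * ((x k).1 (b k))ᵀ * _
  rw [hx]
  exact cjR_inv hg σ (b k)

/-- **Split embedding problems with kernel a power of `Sp(2n, F)`** over rational function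
fields. -/
theorem solvesOver_of_sp_split {p : ℕ} [Fact p.Prime] [CharP F p]
    (h2 : 2 ≤ n) (h3 : (2 : F) = 0 → 3 ≤ n) [IsSimpleGroup (PSp n F)] {κ : Type} [Finite κ]
    {E Q : Type} [Group E] [Group Q] [Finite Q] (f : E →* Q) (s : Q →* E)
    (hfs : ∀ q, f (s q) = q) (θ : f.ker ≃* (κ → Sp n F)) {K : Type u} [Field K] [CharP K p] :
    ∃ r : ℕ, SolvesOver K (FractionRing (MvPolynomial (Fin r) K)) f := by
  let _ : Algebra (ZMod p) F := ZMod.algebra F p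
  have := nontrivial_Sp (F := F) h2
  have hz := center_psp (F := F) h2
  have hperf := perfG (p := p) (F := F) h2
  let ρ : Q →* RingAut (κ → Matrix (Fin n ⊕ Fin n) (Fin n ⊕ Fin n) F) :=
    rhoH (surG h2 h3) (fixG h2) hz f s hperf θ
  have hρ : ∀ e b, ρ e ((spInv p (Fin n) F κ).j b) = (spInv p (Fin n) F κ).j (ρ e b) :=
    fun e b => spInv_comm p (ρ e) (rhoH_form (surG h2 h3) (fixG h2) hz f s hperf θ e) b
  obtain ⟨r, hr⟩ := lang_sp_emb (p := p) (K := K) ρ hρ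
  refine ⟨r, solvesOver_of_splitH (surG h2 h3) (fixG h2) hz f s hfs hperf θ
    (lS p κ) (spE p (Fin n) F κ).symm.surjective _ ?_ hr⟩
  intro e v
  rw [lS_coe, lS_coe]
  exact coe_uactU _ _ _ e v

/-- **Split embedding problems with kernel a power of `Sp(2n, F)`** over Hilbertian fields. -/
theorem solves_of_sp_split {p : ℕ} [Fact p.Prime] [CharP F p]
    (h2 : 2 ≤ n) (h3 : (2 : F) = 0 → 3 ≤ n) [IsSimpleGroup (PSp n F)] {κ : Type} [Finite κ]
    {E Q : Type} [Group E] [Finite E] [Group Q] [Finite Q] (f : E →* Q) (s : Q →* E)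
    (hfs : ∀ q, f (s q) = q) (θ : f.ker ≃* (κ → Sp n F)) {K : Type u} [Field K] [CharP K p]
    (hK : MP7fR.IsHilbertian K) : Solves K f := by
  obtain ⟨r, hr⟩ := solvesOver_of_sp_split h2 h3 f s hfs θ (K := K)
  exact solves_of_mv hK _ _ hr

/-- **Split embedding problems with kernel a power of `PSp(2n, F)`** over rational function
fields. -/
theorem solvesOver_of_psp_split {p : ℕ} [Fact p.Prime] [CharP F p]
    (h2 : 2 ≤ n) (h3 : (2 : F) = 0 → 3 ≤ n) [IsSimpleGroup (PSp n F)] {κ : Type} [Finite κ]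
    {E Q : Type} [Group E] [Group Q] [Finite Q] (f : E →* Q) (s : Q →* E)
    (hfs : ∀ q, f (s q) = q) (θ : f.ker ≃* (κ → PSp n F)) {K : Type u} [Field K] [CharP K p] :
    ∃ r : ℕ, SolvesOver K (FractionRing (MvPolynomial (Fin r) K)) f := by
  let _ : Algebra (ZMod p) F := ZMod.algebra F p
  have hz := center_psp (F := F) h2
  let ρ : Q →* RingAut (κ → Matrix (Fin n ⊕ Fin n) (Fin n ⊕ Fin n) F) :=
    rhoS (surG h2 h3) (fixG h2) hz f s θ
  have hρ : ∀ e b, ρ e ((spInv p (Fin n) F κ).j b) = (spInv p (Fin n) F κ).j (ρ e b) :=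
    fun e b => spInv_comm p (ρ e) (rhoS_form (surG h2 h3) (fixG h2) hz f s θ e) b
  obtain ⟨r, hr⟩ := lang_sp_emb (p := p) (K := K) ρ hρ
  refine ⟨r, solvesOver_of_splitS (surG h2 h3) (fixG h2) hz f s hfs θ
    (lS p κ) (spE p (Fin n) F κ).symm.surjective _ ?_ hr⟩
  intro e v
  rw [lS_coe, lS_coe]
  exact coe_uactU _ _ _ e v

/-- **Split embedding problems with kernel a power of `PSp(2n, F)`** over Hilbertian fields. -/
theorem solves_of_psp_split {p : ℕ} [Fact p.Prime] [CharP F p]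
    (h2 : 2 ≤ n) (h3 : (2 : F) = 0 → 3 ≤ n) [IsSimpleGroup (PSp n F)] {κ : Type} [Finite κ]
    {E Q : Type} [Group E] [Finite E] [Group Q] [Finite Q] (f : E →* Q) (s : Q →* E)
    (hfs : ∀ q, f (s q) = q) (θ : f.ker ≃* (κ → PSp n F)) {K : Type u} [Field K] [CharP K p]
    (hK : MP7fR.IsHilbertian K) : Solves K f := by
  obtain ⟨r, hr⟩ := solvesOver_of_psp_split h2 h3 f s hfs θ (K := K)
  exact solves_of_mv hK _ _ hr

end solve

end MP7fY
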