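import Pool.Agent.Lib.MP_7f581e_ntL.Z8

/-!
Commutator Lang torsor, part 9: the universal family of unitary elements, continued.
-/

set_option autoImplicit false
set_option linter.unusedSectionVars false

universe u v

namespace MP7fZ

open TensorProduct MP7fS MP7fU MP7fV MP7fR

variable {p : ℕ} [Fact p.Prime] {B : Type} [Ring B] [Finite B] [Algebra (ZMod p) B]
  (J : AInv p B) {κ : Type} [Fintype κ] [DecidableEq κ] (sb : Module.Basis κ (ZMod p) (Sk J))

section univ

variable {M : Type u} [Field M] [Algebra (ZMod p) M]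
  (b : Module.Basis κ M (VV J M)) {c' : M ⊗[ZMod p] B} (hc' : c' + jR J M c' = 1)
  {T : Type} [Fintype T] {ι : Type} (ε : T × κ ≃ ι)

/-- The universal elements over the polynomial ring. -/
noncomputable def yP (c' : M ⊗[ZMod p] B) (t : T) : MvPolynomial ι M ⊗[ZMod p] B :=
  cg J b c' MvPolynomial.C (fun k => MvPolynomial.X (ε (t, k)))

/-- The discriminant. -/
noncomputable def fδ (c' : M ⊗[ZMod p] B) : MvPolynomial ι M :=
  ∏ t, (lmm (Module.finBasis (ZMod p) B) (yP J b ε c' t)).det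

/-- The evaluation. -/
noncomputable def evP {S : Type*} [CommRing S] (f : M →+* S) (X : T → κ → S) :
    MvPolynomial ι M →+* S :=
  MvPolynomial.eval₂Hom f (fun i => X (ε.symm i).1 (ε.symm i).2)

theorem evP_C {S : Type*} [CommRing S] (f : M →+* S) (X : T → κ → S) :
    (evP ε f X).comp MvPolynomial.C = f := by
  apply RingHom.ext
  intro m
  exact MvPolynomial.eval₂_C _ _ _

theorem evP_X {S : Type*} [CommRing S] (f : M →+* S) (X : T → κ → S) (t : T) (k : κ) :
    evP ε f X (MvPolynomial.X (ε (t, k))) = X t k := by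
  refine (MvPolynomial.eval₂_X _ _ _).trans ?_
  rw [Equiv.symm_apply_apply]

theorem tmap_evP {S : Type*} [CommRing S] [Algebra (ZMod p) S] (f : M →+* S) (X : T → κ → S)
    (t : T) : tmap (p := p) (evP ε f X) (RingHom.id B) (yP J b ε c' t) = cg J b c' f (X t) := by
  rw [yP, tmap_cg, evP_C]
  congr 1
  funext k
  exact evP_X ε f X t k

theorem isUnit_evP {S : Type*} [CommRing S] [Algebra (ZMod p) S] (f : M →+* S) (X : T → κ → S)
    (h : ∀ t, IsUnit (cg J b c' f (X t))) : IsUnit (evP ε f X (fδ J b ε c')) := by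
  rw [fδ, map_prod]
  apply IsUnit.prod_univ_iff.mpr
  intro t
  have h1 := isUnit_lmm (Module.finBasis (ZMod p) B) (h t)
  rw [← tmap_evP J b ε f X t, lmm_tmap] at h1
  have h2 : ((lmm (Module.finBasis (ZMod p) B) (yP J b ε c' t)).map (evP ε f X)).det =
      evP ε f X (lmm (Module.finBasis (ZMod p) B) (yP J b ε c' t)).det :=
    (RingHom.map_det (evP ε f X) (lmm (Module.finBasis (ZMod p) B) (yP J b ε c' t))).symm
  rw [← h2]
  exact h1

include sb hc' in
theorem fδ_ne_zero {c₀ : B} (hG : Good J c₀) (j₁ : AlgebraicClosure (ZMod p) →+* M) :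
    fδ J b ε c' ≠ 0 := by
  obtain ⟨y₀, hy1, hy2⟩ := hG.hy
  have h1 : tmap (p := p) j₁ (RingHom.id B) y₀ +
      jR J M (tmap (p := p) j₁ (RingHom.id B) y₀) = 1 := by
    rw [jR_tmap J j₁ (RingHom.id B) (fun _ => rfl), ← map_add, hy1, map_one]
  obtain ⟨X, hX⟩ := exists_cg J sb b hG.hc hc' (RingHom.id M) h1
  have h2 := isUnit_evP J b ε (RingHom.id M) (fun _ : T => X) (fun _ => by
    rw [← hX]
    exact hy2.map _)
  intro h3
  rw [h3, map_zero] at h2
  exact not_isUnit_zero h2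

variable {R : Type v} [CommRing R] [Algebra (MvPolynomial ι M) R]
  [IsLocalization.Away (fδ J b ε c') R] [Algebra (ZMod p) R]

theorem isUnit_yR (t : T) : IsUnit (tmap (p := p) (algebraMap (MvPolynomial ι M) R)
    (RingHom.id B) (yP J b ε c' t)) := by
  apply isUnit_of_lmm (Module.finBasis (ZMod p) B)
  rw [lmm_tmap]
  have h2 : ((lmm (Module.finBasis (ZMod p) B) (yP J b ε c' t)).map
      (algebraMap (MvPolynomial ι M) R)).det = algebraMap (MvPolynomial ι M) R
        (lmm (Module.finBasis (ZMod p) B) (yP J b ε c' t)).det :=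
    (RingHom.map_det _ _).symm
  rw [h2]
  have h3 : (lmm (Module.finBasis (ZMod p) B) (yP J b ε c' t)).det ∣ fδ J b ε c' :=
    Finset.dvd_prod_of_mem
      (fun t => (lmm (Module.finBasis (ZMod p) B) (yP J b ε c' t)).det) (Finset.mem_univ t)
  exact isUnit_of_dvd_unit (map_dvd (algebraMap (MvPolynomial ι M) R) h3)
    (IsLocalization.Away.algebraMap_isUnit (fδ J b ε c'))

/-- The universal elements over the localization. -/
noncomputable def yR (c' : M ⊗[ZMod p] B) (R : Type v) [CommRing R]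
    [Algebra (MvPolynomial ι M) R] [IsLocalization.Away (fδ J b ε c') R] [Algebra (ZMod p) R]
    (t : T) : (R ⊗[ZMod p] B)ˣ := (isUnit_yR J b ε (c' := c') (R := R) t).unit

theorem coe_yR (t : T) : ((yR J b ε c' R t : (R ⊗[ZMod p] B)ˣ) : R ⊗[ZMod p] B) =
    cg J b c' ((algebraMap (MvPolynomial ι M) R).comp MvPolynomial.C)
      (fun k => algebraMap (MvPolynomial ι M) R (MvPolynomial.X (ε (t, k)))) :=
  tmap_cg J b c' (algebraMap (MvPolynomial ι M) R) _ _

include hc' in
theorem yR_add (t : T) : ((yR J b ε c' R t : (R ⊗[ZMod p] B)ˣ) : R ⊗[ZMod p] B) +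
    jR J R ((yR J b ε c' R t : (R ⊗[ZMod p] B)ˣ) : R ⊗[ZMod p] B) = 1 := by
  rw [coe_yR]
  exact cg_add J b hc' _ _

/-- The universal unitary elements. -/
noncomputable def xR (hc' : c' + jR J M c' = 1) (R : Type v) [CommRing R]
    [Algebra (MvPolynomial ι M) R] [IsLocalization.Away (fδ J b ε c') R] [Algebra (ZMod p) R]
    (t : T) : (R ⊗[ZMod p] B)ˣ :=
  cay J (yR J b ε c' R t) (yR_add J b hc' ε t)

theorem coe_xR (t : T) : ((xR J b ε hc' R t : (R ⊗[ZMod p] B)ˣ) : R ⊗[ZMod p] B) =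
    1 - (((yR J b ε c' R t)⁻¹ : (R ⊗[ZMod p] B)ˣ) : R ⊗[ZMod p] B) := rfl

theorem xR_mem (t : T) : xR J b ε hc' R t ∈ UR J R := by
  rw [mem_UR]
  exact (xR J b ε hc' R t).inv_val

include sb in
/-- **Universal property: existence.** -/
theorem exists_ev {c₀ : B} (hc : c₀ + J.j c₀ = 1) {S : Type*} [CommRing S] [Algebra (ZMod p) S]
    (f : M →+* S) (a : T → (S ⊗[ZMod p] B)ˣ) (ha : ∀ t, a t ∈ UR J S)
    (ha1 : ∀ t, IsUnit (1 - (a t : S ⊗[ZMod p] B))) :
    ∃ θ : R →+* S, (∀ m, θ (algebraMap (MvPolynomial ι M) R (MvPolynomial.C m)) = f m) ∧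
      ∀ t, bu θ (xR J b ε hc' R t) = a t := by
  choose w hw using ha1
  have h1 : ∀ t, ∃ X : κ → S, (((w t)⁻¹ : (S ⊗[ZMod p] B)ˣ) : S ⊗[ZMod p] B) =
      cg J b c' f X := fun t =>
    exists_cg J sb b hc hc' f (cay_skew J (w t) (ha t) (hw t))
  choose X hX using h1
  have h2 := isUnit_evP J b ε f X (fun t => by
    rw [← hX]
    exact Units.isUnit _)
  let θ : R →+* S := IsLocalization.Away.lift (fδ J b ε c') h2
  have hθ : θ.comp (algebraMap (MvPolynomial ι M) R) = evP ε f X :=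
    IsLocalization.Away.lift_comp (fδ J b ε c') h2
  refine ⟨θ, ?_, ?_⟩
  · intro m
    have h3 := congrArg (fun g : MvPolynomial ι M →+* S => g (MvPolynomial.C m)) hθ
    have h4 := congrArg (fun g : M →+* S => g m) (evP_C ε f X)
    exact h3.trans h4
  · intro t
    have h3 : bu θ (yR J b ε c' R t) = (w t)⁻¹ := by
      apply Units.ext
      rw [coe_um, hX, ← tmap_evP J b ε f X t, ← hθ]
      exact tmap_comp (p := p) _ _ _ _ _
    apply Units.ext
    rw [coe_um, coe_xR, map_sub, map_one, ← coe_um, map_inv, h3, inv_inv, hw, sub_sub_cancel]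

include sb in
/-- **Universal property: uniqueness.** -/
theorem ev_unique {S : Type*} [Field S] [Algebra (ZMod p) S] (θ θ' : R →+* S)
    (h : ∀ m, θ (algebraMap (MvPolynomial ι M) R (MvPolynomial.C m)) =
      θ' (algebraMap (MvPolynomial ι M) R (MvPolynomial.C m)))
    (hx : ∀ t, bu θ (xR J b ε hc' R t) = bu θ' (xR J b ε hc' R t)) : θ = θ' := by
  have h1 : ∀ (φ : R →+* S) (t : T), (((bu φ (yR J b ε c' R t))⁻¹ : (S ⊗[ZMod p] B)ˣ) :
      S ⊗[ZMod p] B) = 1 - ((bu φ (xR J b ε hc' R t) : (S ⊗[ZMod p] B)ˣ) : S ⊗[ZMod p] B) := by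
    intro φ t
    rw [← map_inv, coe_um, coe_um, coe_xR, map_sub, map_one, sub_sub_cancel]
  have h2 : ∀ t, bu θ (yR J b ε c' R t) = bu θ' (yR J b ε c' R t) := by
    intro t
    apply inv_injective
    apply Units.ext
    rw [h1, h1, hx]
  have hf : θ.comp ((algebraMap (MvPolynomial ι M) R).comp MvPolynomial.C) =
      θ'.comp ((algebraMap (MvPolynomial ι M) R).comp MvPolynomial.C) := RingHom.ext h
  have h3 : ∀ t k, θ (algebraMap (MvPolynomial ι M) R (MvPolynomial.X (ε (t, k)))) =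
      θ' (algebraMap (MvPolynomial ι M) R (MvPolynomial.X (ε (t, k)))) := by
    intro t k
    have h4 := congrArg Units.val (h2 t)
    rw [coe_um, coe_um, coe_yR, tmap_cg, tmap_cg, hf] at h4
    exact congrFun (cg_inj J sb b _ h4) k
  apply IsLocalization.ringHom_ext (Submonoid.powers (fδ J b ε c'))
  apply MvPolynomial.ringHom_ext
  · exact h
  · intro i
    have h4 := h3 (ε.symm i).1 (ε.symm i).2
    rw [Prod.mk.eta, Equiv.apply_symm_apply] at h4
    exact h4

end univ

end MP7fZ
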