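import Pool.Agent.Lib.MP_7f581e_ntL.Z6
import Pool.Agent.Lib.MP_7f581e_ntL.Z9

/-!
Commutator Lang torsor, part 10: curves in the universal family.
-/

set_option autoImplicit false
set_option linter.unusedSectionVars false

universe u v

namespace MP7fZ

open TensorProduct MP7fS MP7fU MP7fV MP7fR

variable {p : ℕ} [Fact p.Prime] {B : Type} [Ring B] [Finite B] [Algebra (ZMod p) B]

/-- The commutator. -/
def cmm {G : Type*} [Group G] (x y : G) : G := x * y * x⁻¹ * y⁻¹

theorem cmm_def {G : Type*} [Group G] (x y : G) : cmm x y = x * y * x⁻¹ * y⁻¹ := rfl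

theorem map_cmm {G H : Type*} [Group G] [Group H] (f : G →* H) (x y : G) :
    f (cmm x y) = cmm (f x) (f y) := by
  rw [cmm, cmm, map_mul, map_mul, map_mul, map_inv, map_inv]

theorem cmm_mem {G : Type*} [Group G] {H : Subgroup G} {x y : G} (hx : x ∈ H) (hy : y ∈ H) :
    cmm x y ∈ H := mul_mem (mul_mem (mul_mem hx hy) (inv_mem hx)) (inv_mem hy)

theorem cmm_self {G : Type*} [Group G] (x : G) : cmm x x = 1 := by
  rw [cmm, mul_inv_cancel_right, mul_inv_cancel]

theorem cmm_comm {G : Type*} [CommGroup G] (x y : G) : cmm x y = 1 := by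
  rw [cmm, mul_inv_cancel_comm, mul_inv_cancel]

/-- The commutator of a unitary element and its translate. -/
theorem comm_nu {S : Type*} [CommRing S] [Algebra (ZMod p) S] {v : B} (hv : v * v = 0)
    (a : (S ⊗[ZMod p] B)ˣ) (l s : S)
    (h : (a : S ⊗[ZMod p] B) * (1 ⊗ₜ v) = l • ((1 ⊗ₜ v) * (a : S ⊗[ZMod p] B))) :
    cmm a (nu hv S s * a) = nu (p := p) hv S ((l - 1) * s) := by
  have h1 : a * nu hv S s = nu hv S (l * s) * a := by
    apply Units.ext
    rw [Units.val_mul, Units.val_mul, coe_nu, coe_nu, mul_add, add_mul, mul_one, one_mul]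
    congr 1
    have h2 : ∀ r : S, r ⊗ₜ[ZMod p] v = r • ((1 : S) ⊗ₜ[ZMod p] v) := by
      intro r
      rw [smul_tmul', smul_eq_mul, mul_one]
    rw [h2 s, h2 (l * s), mul_smul_comm, h, smul_mul_assoc, smul_smul, mul_comm l s]
  rw [cmm, ← mul_assoc, h1, mul_inv_rev, sub_mul, one_mul, sub_eq_add_neg,
    nu_add, nu_neg]
  group

variable (J : AInv p B) {κ : Type} [Fintype κ] [DecidableEq κ]
  (sb : Module.Basis κ (ZMod p) (Sk J))

section comm

variable {M : Type u} [Field M] [Algebra (ZMod p) M]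
  (b : Module.Basis κ M (VV J M)) {c' : M ⊗[ZMod p] B} (hc' : c' + jR J M c' = 1)
  {ι : Type} (ε : Bool × κ ≃ ι)

/-- The commutator of the universal elements. -/
noncomputable def cR (hc' : c' + jR J M c' = 1) (R : Type v) [CommRing R]
    [Algebra (MvPolynomial ι M) R] [IsLocalization.Away (fδ J b ε c') R] [Algebra (ZMod p) R] :
    (R ⊗[ZMod p] B)ˣ := cmm (xR J b ε hc' R false) (xR J b ε hc' R true)

variable {R : Type u} [CommRing R] [Algebra (MvPolynomial ι M) R]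
  [IsLocalization.Away (fδ J b ε c') R] [Algebra (ZMod p) R]

theorem cR_mem : cR J b ε hc' R ∈ UR J R := by
  exact cmm_mem (xR_mem J b hc' ε _) (xR_mem J b hc' ε _)

theorem bu_cR {S : Type*} [CommRing S] [Algebra (ZMod p) S] (θ : R →+* S) :
    bu θ (cR J b ε hc' R) = cmm (bu θ (xR J b ε hc' R false)) (bu θ (xR J b ε hc' R true)) :=
  map_cmm _ _ _

include sb in
theorem curve_aux {c₀ : B} (hc : c₀ + J.j c₀ = 1) {v : B} (hv : v * v = 0) (hJv : J.j v = -v)
    (a : (M ⊗[ZMod p] B)ˣ) (ha : a ∈ UR J M) (ha1 : IsUnit (1 - (a : M ⊗[ZMod p] B)))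
    (l : M) (hl : l ≠ 1)
    (hav : (a : M ⊗[ZMod p] B) * (1 ⊗ₜ v) = l • ((1 ⊗ₜ v) * (a : M ⊗[ZMod p] B)))
    (I : Ideal R) (hI : ∀ ev : R →+* M,
      (∀ m, ev (algebraMap (MvPolynomial ι M) R (MvPolynomial.C m)) = m) →
      (∀ t, bu ev (xR J b ε hc' R t) = a) → I ≤ RingHom.ker ev)
    {V F k : Type u} [CommRing V] [Algebra (ZMod p) V] [Field F] [Algebra (ZMod p) F]
    [CharP F p] [Field k] [Algebra (ZMod p) k] (i : V →+* F) (hi : Function.Injective i)
    (π : V →+* k) [IsLocalHom π] (jM : M →+* V) (xV : V) (hx : π xV = 0) (τ : F →+* F)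
    (hτM : ∀ m, τ (i (jM m)) = i (jM m)) (hτx : τ (i xV) = i xV + 1) :
    CurveAt (cR J b ε hc' R) I hv := by
  have hp : p ≠ 0 := (Fact.out : p.Prime).ne_zero
  set s : V := jM (l - 1)⁻¹ * (xV ^ p - xV) with hs
  have hl1 : l - 1 ≠ 0 := sub_ne_zero.mpr hl
  have hπs : π s = 0 := by
    rw [hs, map_mul, map_sub, map_pow, hx, zero_pow hp, sub_zero, mul_zero]
  set a₁ : (V ⊗[ZMod p] B)ˣ := bu jM a with ha₁
  have ha₁U : a₁ ∈ UR J V := um_mem ha jM (RingHom.id B) (fun _ => rfl)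
  have ha₁1 : IsUnit (1 - (a₁ : V ⊗[ZMod p] B)) := by
    have h1 := ha1.map (tmap (p := p) jM (RingHom.id B))
    rw [map_sub, map_one] at h1
    exact h1
  have ha₂U : nu hv V s * a₁ ∈ UR J V := mul_mem (nu_mem hv hJv s) ha₁U
  have ha₂π : bu π (nu hv V s * a₁) = bu π a₁ := by
    rw [map_mul, bu_nu, hπs, nu_zero, one_mul]
  have ha₂1 : IsUnit (1 - ((nu hv V s * a₁ : (V ⊗[ZMod p] B)ˣ) : V ⊗[ZMod p] B)) := by
    apply isUnit_of_lmm_unit (f := π)
    have h1 := ha₁1.map (tmap (p := p) π (RingHom.id B))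
    rw [map_sub, map_one, ← coe_um] at h1 ⊢
    rw [ha₂π]
    exact h1
  obtain ⟨θ, hθM, hθx⟩ := exists_ev J sb b hc' ε (R := R) hc jM
    (fun t => cond t (nu hv V s * a₁) a₁) (fun t => by cases t <;> assumption)
    (fun t => by cases t <;> assumption)
  obtain ⟨ev, hevM, hevx⟩ := exists_ev J sb b hc' ε (R := R) hc (RingHom.id M)
    (fun _ => a) (fun _ => ha) (fun _ => ha1)
  have hevM' : ∀ m, ev (algebraMap (MvPolynomial ι M) R (MvPolynomial.C m)) = m := hevM
  have hθ0 : bu θ (xR J b ε hc' R false) = a₁ := hθx false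
  have hθ1 : bu θ (xR J b ε hc' R true) = nu hv V s * a₁ := hθx true
  have hπθ : π.comp θ = (π.comp jM).comp ev := by
    apply ev_unique J sb b hc' ε
    · intro m
      change π (θ _) = π (jM (ev _))
      rw [hθM, hevM']
    · intro t
      rw [← bu_bu, ← bu_bu (π.comp jM), hevx]
      cases t
      · rw [hθ0, ha₁, bu_bu]
      · rw [hθ1, ha₂π, ha₁, bu_bu]
  have hτi : τ (i s) = i s := by
    rw [hs]
    simp only [map_mul, map_sub, map_pow, hτM, hτx]
    rw [add_pow_char, one_pow]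
    ring
  have hτj : (τ.comp i).comp jM = i.comp jM := RingHom.ext hτM
  have hτθ : (τ.comp i).comp θ = i.comp θ := by
    apply ev_unique J sb b hc' ε
    · intro m
      change τ (i (θ _)) = i (θ _)
      rw [hθM, hτM]
    · intro t
      rw [← bu_bu, ← bu_bu i]
      cases t
      · rw [hθ0, ha₁, bu_bu, bu_bu, hτj]
      · rw [hθ1, map_mul, map_mul, bu_nu, bu_nu, ha₁, bu_bu, bu_bu, hτj]
        change nu hv F (τ (i s)) * _ = _
        rw [hτi]
  refine ⟨F, inferInstance, inferInstance, inferInstance, i.comp θ, i xV, τ, RingHom.ker ev,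
    RingHom.ker_isPrime ev, hI ev hevM' hevx, ?_, ?_, ?_, hτx⟩
  · intro r hr
    have h1 : i (θ r) = 0 := hr
    have h2 : θ r = 0 := hi (h1.trans (map_zero i).symm)
    have h3 : π (θ r) = (π.comp jM) (ev r) := congrArg (fun g : R →+* k => g r) hπθ
    rw [h2, map_zero] at h3
    exact (map_eq_zero (π.comp jM)).mp h3.symm
  · rw [bu_cR, ← bu_bu, ← bu_bu, hθ0, hθ1, map_mul, bu_nu]
    have h1 : ((bu i a₁ : (F ⊗[ZMod p] B)ˣ) : F ⊗[ZMod p] B) * ((1 : F) ⊗ₜ[ZMod p] v) =
        i (jM l) • (((1 : F) ⊗ₜ[ZMod p] v) * ((bu i a₁ : (F ⊗[ZMod p] B)ˣ) : F ⊗[ZMod p] B)) := by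
      have h2 := congrArg (tmap (p := p) (i.comp jM) (RingHom.id B)) hav
      rw [map_mul, tmap_smul, map_mul, tmap_tmul, map_one] at h2
      rw [ha₁, bu_bu]
      exact h2
    rw [comm_nu hv _ (i (jM l)) _ h1]
    congr 1
    have h3 : i (jM l) - 1 = i (jM (l - 1)) := by rw [map_sub, map_sub, map_one, map_one]
    have h4 : i (jM (l - 1)) * i (jM (l - 1)⁻¹) = 1 := by
      rw [← map_mul, ← map_mul, mul_inv_cancel₀ hl1, map_one, map_one]
    rw [h3, hs, map_mul, ← mul_assoc, h4, one_mul, map_sub, map_pow]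
  · intro r
    exact congrArg (fun g : R →+* F => g r) hτθ

end comm

end MP7fZ
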