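import Mathlib

section

/-!
Generic Lang torsor, part 1: the rings `R ⊗ B` for a finite algebra `B` over the prime field.
-/

set_option autoImplicit false
set_option linter.unusedSectionVars false

universe u v

namespace MP7fS

open TensorProduct

variable {p : ℕ} [Fact p.Prime] {B : Type} [Ring B] [Finite B] [Algebra (ZMod p) B]

/-- A ring homomorphism between algebras over the prime field as an algebra homomorphism. -/
def toAlg {R S : Type*} [Semiring R] [Semiring S] [Algebra (ZMod p) R] [Algebra (ZMod p) S]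
    (f : R →+* S) : R →ₐ[ZMod p] S :=
  { f with
    commutes' := fun c => by
      have h : f.comp (algebraMap (ZMod p) R) = algebraMap (ZMod p) S :=
        (RingHom.ext_zmod _ _)
      exact congrArg (fun g : ZMod p →+* S => g c) h }

@[simp] theorem toAlg_apply {R S : Type*} [Semiring R] [Semiring S] [Algebra (ZMod p) R]
    [Algebra (ZMod p) S] (f : R →+* S) (x : R) : toAlg (p := p) f x = f x := rfl

section

variable {R S T : Type*} [CommRing R] [CommRing S] [CommRing T] [Algebra (ZMod p) R]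
  [Algebra (ZMod p) S] [Algebra (ZMod p) T]

/-- The ring homomorphism `R ⊗ B → S ⊗ B` induced by `f : R → S` and `g : B → B`. -/
noncomputable def tmap (f : R →+* S) (g : B →+* B) : R ⊗[ZMod p] B →+* S ⊗[ZMod p] B :=
  (Algebra.TensorProduct.map (toAlg (p := p) f) (toAlg (p := p) g)).toRingHom

@[simp] theorem tmap_tmul (f : R →+* S) (g : B →+* B) (r : R) (b : B) :
    tmap (p := p) f g (r ⊗ₜ b) = f r ⊗ₜ g b := rfl

theorem tmap_ext {f f' : R ⊗[ZMod p] B →+* S ⊗[ZMod p] B}
    (h : ∀ (r : R) (b : B), f (r ⊗ₜ[ZMod p] b) = f' (r ⊗ₜ[ZMod p] b)) : f = f' := by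
  refine RingHom.ext fun x => ?_
  induction x using TensorProduct.induction_on with
  | zero => rw [map_zero, map_zero]
  | tmul r b => exact h r b
  | add x y hx hy => rw [map_add, map_add, hx, hy]

theorem tmap_comp (f : S →+* T) (g : B →+* B) (f' : R →+* S) (g' : B →+* B)
    (x : R ⊗[ZMod p] B) :
    tmap (p := p) f g (tmap f' g' x) = tmap (f.comp f') (g.comp g') x := by
  have h : (tmap (p := p) f g).comp (tmap f' g') = tmap (f.comp f') (g.comp g') :=
    tmap_ext (fun r b => rfl)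
  exact congrArg (fun φ : R ⊗[ZMod p] B →+* T ⊗[ZMod p] B => φ x) h

theorem tmap_id (x : R ⊗[ZMod p] B) :
    tmap (p := p) (RingHom.id R) (RingHom.id B) x = x := by
  have h : tmap (p := p) (RingHom.id R) (RingHom.id B) = RingHom.id _ :=
    tmap_ext (fun r b => rfl)
  exact congrArg (fun φ : R ⊗[ZMod p] B →+* R ⊗[ZMod p] B => φ x) h

/-- `tmap` is semilinear. -/
theorem tmap_smul (f : R →+* S) (g : B →+* B) (r : R) (x : R ⊗[ZMod p] B) :
    tmap (p := p) f g (r • x) = f r • tmap f g x := by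
  have h : r • x = (r ⊗ₜ (1 : B)) * x := by
    induction x using TensorProduct.induction_on with
    | zero => simp
    | tmul s b => simp [smul_tmul']
    | add x y hx hy => rw [smul_add, mul_add, hx, hy]
  have h' : ∀ (s : S) (y : S ⊗[ZMod p] B), s • y = (s ⊗ₜ (1 : B)) * y := by
    intro s y
    induction y using TensorProduct.induction_on with
    | zero => simp
    | tmul s' b => simp [smul_tmul']
    | add x y hx hy => rw [smul_add, mul_add, hx, hy]
  rw [h, map_mul, tmap_tmul, map_one, h']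

variable {ι : Type} [Fintype ι] [DecidableEq ι] (e : Module.Basis ι (ZMod p) B)

/-- The basis of `R ⊗ B`. -/
noncomputable abbrev eb (R : Type*) [CommRing R] [Algebra (ZMod p) R] :
    Module.Basis ι R (R ⊗[ZMod p] B) := Algebra.TensorProduct.basis R e

theorem eb_apply (i : ι) : eb e R i = 1 ⊗ₜ e i := Algebra.TensorProduct.basis_apply e i

/-- The element with given coordinates. -/
noncomputable def vec (v : ι → R) : R ⊗[ZMod p] B := ∑ i, v i • eb e R i

theorem repr_vec (v : ι → R) (i : ι) : (eb e R).repr (vec e v) i = v i := by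
  rw [vec, Module.Basis.repr_sum_self]

theorem vec_repr (x : R ⊗[ZMod p] B) : vec e (fun i => (eb e R).repr x i) = x :=
  (eb e R).sum_repr x

theorem vec_inj {v w : ι → R} (h : vec e v = vec e w) : v = w := by
  ext i
  rw [← repr_vec e v, h, repr_vec]

theorem tmap_vec (f : R →+* S) (v : ι → R) :
    tmap (p := p) f (RingHom.id B) (vec e v) = vec e (fun i => f (v i)) := by
  rw [vec, vec, map_sum]
  refine Finset.sum_congr rfl fun i _ => ?_
  rw [tmap_smul, eb_apply, tmap_tmul, map_one, eb_apply]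
  rfl

theorem repr_tmap (f : R →+* S) (x : R ⊗[ZMod p] B) (i : ι) :
    (eb e S).repr (tmap (p := p) f (RingHom.id B) x) i = f ((eb e R).repr x i) := by
  conv_lhs => rw [← vec_repr e x]
  rw [tmap_vec, repr_vec]

/-- Injectivity of `b ↦ 1 ⊗ b`. -/
theorem one_tmul_inj [Nontrivial R] {b b' : B} (h : (1 : R) ⊗ₜ[ZMod p] b = 1 ⊗ₜ b') : b = b' := by
  classical
  let e := Module.finBasis (ZMod p) B
  apply e.repr.injective
  ext i
  have h1 := congrArg (fun x => (eb e R).repr x i) h
  simp only [Algebra.TensorProduct.basis_repr_tmul, one_smul, Finsupp.mapRange_apply] at h1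
  exact (algebraMap (ZMod p) R).injective h1

theorem tmap_injective (f : R →+* S) (hf : Function.Injective f) :
    Function.Injective (tmap (p := p) (B := B) f (RingHom.id B)) := by
  classical
  let e := Module.finBasis (ZMod p) B
  intro x y h
  rw [← vec_repr e x, ← vec_repr e y]
  congr 1
  ext i
  apply hf
  rw [← repr_tmap, ← repr_tmap, h]

end

/-- The Frobenius of `R ⊗ B` (acting on the first factor only). -/
noncomputable def frob (R : Type*) [Field R] [CharP R p] [Algebra (ZMod p) R] :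
    R ⊗[ZMod p] B →+* R ⊗[ZMod p] B := tmap (frobenius R p) (RingHom.id B)

section frob

variable {R S : Type*} [Field R] [CharP R p] [Algebra (ZMod p) R] [Field S] [CharP S p]
  [Algebra (ZMod p) S]

theorem frob_tmap (f : R →+* S) (g : B →+* B) (x : R ⊗[ZMod p] B) :
    frob S (tmap (p := p) f g x) = tmap f g (frob R x) := by
  rw [frob, frob, tmap_comp, tmap_comp]
  have h1 : (frobenius S p).comp f = f.comp (frobenius R p) := by
    ext r
    simp [frobenius_def]
  rw [h1]
  rfl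

theorem frob_one_tmul (b : B) : frob R ((1 : R) ⊗ₜ[ZMod p] b) = 1 ⊗ₜ b := by
  rw [frob, tmap_tmul, map_one]
  rfl

/-- Fixed points of the Frobenius. -/
theorem exists_of_frob_eq {x : R ⊗[ZMod p] B} (h : frob R x = x) : ∃ b : B, x = 1 ⊗ₜ b := by
  classical
  let e := Module.finBasis (ZMod p) B
  have h1 : ∀ i, ∃ c : ZMod p, algebraMap (ZMod p) R c = (eb e R).repr x i := by
    intro i
    have h2 : ((eb e R).repr x i) ^ p = (eb e R).repr x i := by
      conv_rhs => rw [← h]
      rw [frob, repr_tmap, frobenius_def]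
    set y := (eb e R).repr x i
    have hp : 1 < p := (Fact.out : p.Prime).one_lt
    by_contra hcon
    push Not at hcon
    have hinj : Function.Injective (algebraMap (ZMod p) R) := (algebraMap (ZMod p) R).injective
    have hne : (Polynomial.X ^ p - Polynomial.X : Polynomial R) ≠ 0 :=
      FiniteField.X_pow_card_sub_X_ne_zero R hp
    have hsub : insert y (Finset.univ.image (algebraMap (ZMod p) R)) ⊆
        (Polynomial.X ^ p - Polynomial.X : Polynomial R).roots.toFinset := by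
      intro z hz
      rw [Multiset.mem_toFinset, Polynomial.mem_roots hne]
      rcases Finset.mem_insert.mp hz with rfl | hz
      · simp [Polynomial.IsRoot, h2]
      · obtain ⟨c, _, rfl⟩ := Finset.mem_image.mp hz
        have : algebraMap (ZMod p) R c ^ p = algebraMap (ZMod p) R c := by
          rw [← map_pow, ZMod.pow_card]
        simp [Polynomial.IsRoot, this]
    have hcard := Finset.card_le_card hsub
    rw [Finset.card_insert_of_notMem (by
      intro hy'
      obtain ⟨c, _, hc⟩ := Finset.mem_image.mp hy'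
      exact hcon c hc), Finset.card_image_of_injective _ hinj, Finset.card_univ, ZMod.card] at hcard
    have h3 : (Polynomial.X ^ p - Polynomial.X : Polynomial R).roots.toFinset.card ≤ p := by
      refine (Multiset.toFinset_card_le _).trans ?_
      refine (Polynomial.card_roots' _).trans ?_
      rw [FiniteField.X_pow_card_sub_X_natDegree_eq R hp]
    omega
  choose c hc using h1
  refine ⟨∑ i, c i • e i, ?_⟩
  conv_lhs => rw [← vec_repr e x]
  rw [vec, tmul_sum]
  refine Finset.sum_congr rfl fun i _ => ?_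
  rw [← hc, eb_apply, tmul_smul, smul_tmul', smul_tmul', algebraMap_smul]

/-- Fixed units of the Frobenius. -/
theorem exists_unit_of_frob_eq (x : (R ⊗[ZMod p] B)ˣ) (h : frob R (x : R ⊗[ZMod p] B) = x) :
    ∃ b : Bˣ, (x : R ⊗[ZMod p] B) = 1 ⊗ₜ (b : B) := by
  obtain ⟨b, hb⟩ := exists_of_frob_eq h
  have h' : frob R ((x⁻¹ : (R ⊗[ZMod p] B)ˣ) : R ⊗[ZMod p] B) = ((x⁻¹ : (R ⊗[ZMod p] B)ˣ) : _) := by
    have h1 : Units.map (frob R : R ⊗[ZMod p] B →+* R ⊗[ZMod p] B).toMonoidHom x = x :=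
      Units.ext h
    have h2 := congrArg (fun y => y⁻¹) h1
    rw [← map_inv] at h2
    exact congrArg Units.val h2
  obtain ⟨b', hb'⟩ := exists_of_frob_eq h'
  have h3 : b * b' = 1 := by
    apply one_tmul_inj (p := p) (R := R)
    have h4 : (1 : R) ⊗ₜ[ZMod p] (b * b') = (1 ⊗ₜ b) * (1 ⊗ₜ b') := by
      rw [Algebra.TensorProduct.tmul_mul_tmul, one_mul]
    rw [h4, ← hb, ← hb', Units.mul_inv]
    rfl
  have h5 : b' * b = 1 := by
    apply one_tmul_inj (p := p) (R := R)
    have h4 : (1 : R) ⊗ₜ[ZMod p] (b' * b) = (1 ⊗ₜ b') * (1 ⊗ₜ b) := by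
      rw [Algebra.TensorProduct.tmul_mul_tmul, one_mul]
    rw [h4, ← hb, ← hb', Units.inv_mul]
    rfl
  exact ⟨⟨b, b', h3, h5⟩, hb⟩

end frob

end MP7fS

end

section

/-!
Generic Lang torsor, part 2: Galois descent for `M ⊗ B`, base change of bases and matrices.
-/

set_option autoImplicit false
set_option linter.unusedSectionVars false

universe u v

namespace MP7fS

open TensorProduct

variable {p : ℕ} [Fact p.Prime] {B : Type} [Ring B] [Finite B] [Algebra (ZMod p) B]
variable {ι : Type} [Fintype ι] [DecidableEq ι] (e : Module.Basis ι (ZMod p) B)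

section descent

variable {K M : Type u} [Field K] [Field M] [Algebra K M] [Algebra (ZMod p) M]
variable {Γ : Type} [Group Γ] [Finite Γ] (γ : Γ ≃* (M ≃ₐ[K] M)) (ρ : Γ →* (B ≃+* B))

/-- The semilinear action of `Γ` on `M ⊗ B`. -/
noncomputable def sg (g : Γ) : M ⊗[ZMod p] B →+* M ⊗[ZMod p] B :=
  tmap (γ g : M →+* M) (ρ g : B →+* B)

theorem sg_mul (g h : Γ) (x : M ⊗[ZMod p] B) : sg γ ρ (g * h) x = sg γ ρ g (sg γ ρ h x) := by
  rw [sg, sg, sg, tmap_comp]
  have h1 : ((γ (g * h) : M ≃ₐ[K] M) : M →+* M) = ((γ g : M →+* M)).comp (γ h : M →+* M) := by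
    rw [map_mul]
    rfl
  have h2 : ((ρ (g * h) : B ≃+* B) : B →+* B) = ((ρ g : B →+* B)).comp (ρ h : B →+* B) := by
    rw [map_mul]
    rfl
  rw [h1, h2]

theorem sg_one (x : M ⊗[ZMod p] B) : sg γ ρ 1 x = x := by
  rw [sg]
  have h1 : ((γ 1 : M ≃ₐ[K] M) : M →+* M) = RingHom.id M := by
    rw [map_one]
    rfl
  have h2 : ((ρ 1 : B ≃+* B) : B →+* B) = RingHom.id B := by
    rw [map_one]
    rfl
  rw [h1, h2, tmap_id]

theorem span_inv : ⊤ ≤ Submodule.span M {w : M ⊗[ZMod p] B | ∀ g, sg γ ρ g w = w} := by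
  classical
  have := Fintype.ofFinite Γ
  by_contra hcon
  have hlt : Submodule.span M {w : M ⊗[ZMod p] B | ∀ g, sg γ ρ g w = w} < ⊤ :=
    lt_of_le_of_ne le_top (fun h => hcon h.ge)
  obtain ⟨f, hf0, hf⟩ := Submodule.exists_le_ker_of_lt_top _ hlt
  apply hf0
  refine LinearMap.ext fun v => ?_
  have hli : LinearIndependent M (fun g : Γ => ((γ g : M →* M) : M → M)) := by
    have h1 := (linearIndependent_monoidHom M M).comp (fun g : Γ => (γ g : M →* M)) (by
      intro g g' h
      apply γ.injective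
      ext x
      exact congrArg (fun φ : M →* M => φ x) h)
    exact h1
  have key : ∀ m : M, ∑ g : Γ, f (sg γ ρ g v) * γ g m = 0 := by
    intro m
    have h1 : ∑ g : Γ, sg γ ρ g (m • v) ∈ {w : M ⊗[ZMod p] B | ∀ g, sg γ ρ g w = w} := by
      intro g
      rw [map_sum]
      have : ∀ h : Γ, sg γ ρ g (sg γ ρ h (m • v)) = sg γ ρ (g * h) (m • v) :=
        fun h => (sg_mul γ ρ g h _).symm
      rw [Finset.sum_congr rfl fun h _ => this h]
      exact Fintype.sum_equiv (Equiv.mulLeft g) _ _ (fun h => rfl)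
    have h2 := hf (Submodule.subset_span h1)
    rw [LinearMap.mem_ker, map_sum] at h2
    rw [← h2]
    refine Finset.sum_congr rfl fun g _ => ?_
    rw [sg, tmap_smul, map_smul, smul_eq_mul, mul_comm]
    rfl
  have h3 := Fintype.linearIndependent_iff.mp hli (fun g => f (sg γ ρ g v)) (by
    ext m
    simpa [Finset.sum_apply] using key m) 1
  rw [sg_one] at h3
  simpa using h3

include e in
/-- A basis of `M ⊗ B` consisting of invariant vectors. -/
theorem exists_inv_basis : ∃ b : Module.Basis ι M (M ⊗[ZMod p] B), ∀ i g, sg γ ρ g (b i) = b i := by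
  let b0 := Module.Basis.ofSpan (span_inv (p := p) γ ρ)
  refine ⟨b0.reindex (b0.indexEquiv (eb e M)), fun i g => ?_⟩
  rw [Module.Basis.reindex_apply]
  exact Module.Basis.ofSpan_subset (span_inv (p := p) γ ρ) (Set.mem_range_self _) g

end descent

section base

variable {R S : Type*} [Field R] [Field S] [Algebra (ZMod p) R] [Algebra (ZMod p) S]

/-- Base change of a basis of `R ⊗ B`. -/
noncomputable def bbc (j : R →+* S) (b : Module.Basis ι R (R ⊗[ZMod p] B)) :
    Module.Basis ι S (S ⊗[ZMod p] B) :=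
  basisOfTopLeSpanOfCardEqFinrank (fun i => tmap j (RingHom.id B) (b i)) (by
    intro x _
    rw [← vec_repr (Module.finBasis (ZMod p) B) x, vec]
    refine Submodule.sum_mem _ fun i _ => Submodule.smul_mem _ _ ?_
    have h1 : eb (Module.finBasis (ZMod p) B) S i =
        tmap j (RingHom.id B) (eb (Module.finBasis (ZMod p) B) R i) := by
      rw [eb_apply, eb_apply, tmap_tmul, map_one]
      rfl
    rw [h1, ← b.sum_repr (eb (Module.finBasis (ZMod p) B) R i), map_sum]
    refine Submodule.sum_mem _ fun k _ => ?_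
    rw [tmap_smul]
    exact Submodule.smul_mem _ _ (Submodule.subset_span ⟨k, rfl⟩)) (by
    rw [← Module.finrank_eq_card_basis b,
      Module.finrank_eq_card_basis (eb (Module.finBasis (ZMod p) B) R),
      Module.finrank_eq_card_basis (eb (Module.finBasis (ZMod p) B) S)])

theorem bbc_apply (j : R →+* S) (b : Module.Basis ι R (R ⊗[ZMod p] B)) (i : ι) :
    bbc j b i = tmap j (RingHom.id B) (b i) := by
  rw [bbc, coe_basisOfTopLeSpanOfCardEqFinrank]

end base

section matrix

variable {R S : Type*} [CommRing R] [CommRing S] [Algebra (ZMod p) R] [Algebra (ZMod p) S]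

/-- The matrix of left multiplication. -/
noncomputable def lmm (x : R ⊗[ZMod p] B) : Matrix ι ι R := Algebra.leftMulMatrix (eb e R) x

theorem lmm_tmap (j : R →+* S) (x : R ⊗[ZMod p] B) :
    lmm e (tmap (p := p) j (RingHom.id B) x) = (lmm e x).map j := by
  ext i k
  rw [Matrix.map_apply, lmm, lmm, Algebra.leftMulMatrix_eq_repr_mul,
    Algebra.leftMulMatrix_eq_repr_mul, ← repr_tmap, eb_apply, eb_apply]
  rw [map_mul (tmap (p := p) j (RingHom.id B)), tmap_tmul, map_one]
  rfl

theorem lmm_mulVec (x y : R ⊗[ZMod p] B) :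
    (lmm e x).mulVec (fun i => (eb e R).repr y i) = fun i => (eb e R).repr (x * y) i :=
  Algebra.leftMulMatrix_mulVec_repr (eb e R) x y

theorem lmm_one : lmm e (1 : R ⊗[ZMod p] B) = 1 := map_one _

theorem lmm_mul (x y : R ⊗[ZMod p] B) : lmm e (x * y) = lmm e x * lmm e y := map_mul _ _ _

theorem lmm_add (x y : R ⊗[ZMod p] B) : lmm e (x + y) = lmm e x + lmm e y := map_add _ _ _

theorem lmm_smul (r : R) (x : R ⊗[ZMod p] B) : lmm e (r • x) = r • lmm e x := map_smul _ _ _

/-- An element whose matrix is invertible is a unit. -/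
theorem isUnit_of_lmm {x : R ⊗[ZMod p] B} (h : IsUnit (lmm e x).det) : IsUnit x := by
  have h1 : IsUnit (lmm e x) := (Matrix.isUnit_iff_isUnit_det _).mpr h
  let y : R ⊗[ZMod p] B := vec e ((lmm e x)⁻¹.mulVec (fun i => (eb e R).repr 1 i))
  have hy : (fun i => (eb e R).repr y i) = (lmm e x)⁻¹.mulVec (fun i => (eb e R).repr 1 i) := by
    ext i
    rw [repr_vec]
  have hxy : x * y = 1 := by
    apply (eb e R).repr.injective
    ext i
    have h2 := congrFun (lmm_mulVec e x y) i
    rw [← h2, hy, Matrix.mulVec_mulVec, Matrix.mul_nonsing_inv _ h, Matrix.one_mulVec]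
  have hyx : y * x = 1 := by
    apply Algebra.leftMulMatrix_injective (eb e R)
    rw [map_mul, map_one]
    have h3 : Algebra.leftMulMatrix (eb e R) x * Algebra.leftMulMatrix (eb e R) y = 1 := by
      rw [← map_mul, hxy, map_one]
    exact mul_eq_one_comm.mp h3
  exact ⟨⟨x, y, hxy, hyx⟩, rfl⟩

theorem isUnit_lmm {x : R ⊗[ZMod p] B} (h : IsUnit x) : IsUnit (lmm e x).det := by
  rw [← Matrix.isUnit_iff_isUnit_det]
  exact h.map (Algebra.leftMulMatrix (eb e R))

end matrix

end MP7fS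

end

section

/-!
Generic Lang torsor, part 3: the action on the polynomial ring.
-/

set_option autoImplicit false
set_option linter.unusedSectionVars false

universe u v

namespace MP7fS

open TensorProduct

variable {p : ℕ} [Fact p.Prime] {B : Type} [Ring B] [Finite B] [Algebra (ZMod p) B]
variable {ι : Type} [Fintype ι] [DecidableEq ι] (e : Module.Basis ι (ZMod p) B)
variable {K M : Type u} [Field K] [Field M] [Algebra K M] [Algebra (ZMod p) M]
variable {Γ : Type} [Group Γ] (γ : Γ ≃* (M ≃ₐ[K] M)) (ρ : Γ →* (B ≃+* B))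

/-- The action on the units. -/
def uact : Γ →* MulAut Bˣ where
  toFun g := Units.mapEquiv (ρ g : B ≃* B)
  map_one' := by
    ext c
    rw [map_one]
    rfl
  map_mul' g h := by
    ext c
    rw [map_mul]
    rfl

theorem coe_uact (g : Γ) (c : Bˣ) : ((uact ρ g c : Bˣ) : B) = ρ g (c : B) := rfl

/-- The generic element. -/
noncomputable def gx (M : Type u) [Field M] [Algebra (ZMod p) M] :
    MvPolynomial ι M ⊗[ZMod p] B := vec e MvPolynomial.X

/-- The twisted translate of the generic element. -/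
noncomputable def qh (M : Type u) [Field M] [Algebra (ZMod p) M] (h : Bˣ ⋊[uact ρ] Γ) :
    MvPolynomial ι M ⊗[ZMod p] B :=
  tmap (RingHom.id _) (ρ h.right⁻¹ : B →+* B) (gx e M * (1 ⊗ₜ (h.left : B)))

/-- The action on the polynomial ring. -/
noncomputable def psi (h : Bˣ ⋊[uact ρ] Γ) : MvPolynomial ι M →+* MvPolynomial ι M :=
  MvPolynomial.eval₂Hom (MvPolynomial.C.comp (γ h.right : M →+* M))
    (fun i => (eb e _).repr (qh e ρ M h) i)

theorem psi_C (h : Bˣ ⋊[uact ρ] Γ) (m : M) :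
    psi e γ ρ h (MvPolynomial.C m) = MvPolynomial.C (γ h.right m) := by
  rw [psi, MvPolynomial.coe_eval₂Hom, MvPolynomial.eval₂_C]
  rfl

theorem psi_X (h : Bˣ ⋊[uact ρ] Γ) (i : ι) :
    psi e γ ρ h (MvPolynomial.X i) = (eb e _).repr (qh e ρ M h) i := by
  rw [psi, MvPolynomial.coe_eval₂Hom, MvPolynomial.eval₂_X]

theorem rho_comp (g : Γ) : ((ρ g : B →+* B)).comp (ρ g⁻¹ : B →+* B) = RingHom.id B := by
  have h : ρ g * ρ g⁻¹ = 1 := by rw [← map_mul, mul_inv_cancel, map_one]
  ext b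
  exact congrArg (fun r : B ≃+* B => r b) h

theorem rho_comp' (g : Γ) : ((ρ g⁻¹ : B →+* B)).comp (ρ g : B →+* B) = RingHom.id B := by
  have h : ρ g⁻¹ * ρ g = 1 := by rw [← map_mul, inv_mul_cancel, map_one]
  ext b
  exact congrArg (fun r : B ≃+* B => r b) h

theorem psi_gx (h : Bˣ ⋊[uact ρ] Γ) :
    tmap (psi e γ ρ h) (ρ h.right : B →+* B) (gx e M) = gx e M * (1 ⊗ₜ (h.left : B)) := by
  have h1 : tmap (psi e γ ρ h) (ρ h.right : B →+* B) (gx e M) =
      tmap (RingHom.id _) (ρ h.right : B →+* B)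
        (tmap (p := p) (psi e γ ρ h) (RingHom.id B) (gx e M)) := by
    rw [tmap_comp]
    rfl
  have h2 : tmap (p := p) (psi e γ ρ h) (RingHom.id B) (gx e M) = qh e ρ M h := by
    rw [gx, tmap_vec, ← vec_repr e (qh e ρ M h)]
    congr 1
    ext i
    rw [psi_X]
  rw [h1, h2, qh, tmap_comp, rho_comp]
  exact tmap_id _

/-- Uniqueness for homomorphisms out of the polynomial ring. -/
theorem hom_ext_gx {S : Type*} [CommRing S] [Algebra (ZMod p) S] (r : B ≃+* B)
    {f f' : MvPolynomial ι M →+* S} (hC : ∀ m, f (MvPolynomial.C m) = f' (MvPolynomial.C m))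
    (hx : tmap f (r : B →+* B) (gx e M) = tmap (p := p) f' (r : B →+* B) (gx e M)) : f = f' := by
  apply MvPolynomial.ringHom_ext hC
  have h1 := congrArg (tmap (p := p) (RingHom.id S) (r.symm : B →+* B)) hx
  rw [tmap_comp, tmap_comp] at h1
  have h2 : ((r.symm : B →+* B)).comp (r : B →+* B) = RingHom.id B := by
    ext b
    exact r.symm_apply_apply b
  rw [h2, RingHom.id_comp, RingHom.id_comp, gx, tmap_vec, tmap_vec] at h1
  exact fun i => congrFun (vec_inj e h1) i

theorem psi_comp (h h' : Bˣ ⋊[uact ρ] Γ) :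
    (psi e γ ρ h).comp (psi e γ ρ h') = psi (M := M) e γ ρ (h * h') := by
  apply hom_ext_gx e (ρ (h * h').right)
  · intro m
    rw [RingHom.comp_apply, psi_C, psi_C, psi_C, SemidirectProduct.mul_right, map_mul]
    rfl
  · rw [psi_gx, SemidirectProduct.mul_right, map_mul]
    have h1 : ((ρ h.right * ρ h'.right : B ≃+* B) : B →+* B) =
        ((ρ h.right : B →+* B)).comp (ρ h'.right : B →+* B) := rfl
    rw [h1, ← tmap_comp, psi_gx, map_mul, psi_gx, tmap_tmul, map_one, mul_assoc,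
      Algebra.TensorProduct.tmul_mul_tmul, one_mul, SemidirectProduct.mul_left, Units.val_mul,
      coe_uact]
    rfl

theorem psi_one : psi (M := M) e γ ρ 1 = RingHom.id _ := by
  apply hom_ext_gx e (ρ (1 : Bˣ ⋊[uact ρ] Γ).right)
  · intro m
    rw [psi_C, SemidirectProduct.one_right, map_one]
    rfl
  · rw [psi_gx, SemidirectProduct.one_left, SemidirectProduct.one_right, map_one]
    have h1 : ((1 : B ≃+* B) : B →+* B) = RingHom.id B := rfl
    rw [h1, tmap_id, Units.val_one, ← Algebra.TensorProduct.one_def, mul_one]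

theorem psi_injective (h : Bˣ ⋊[uact ρ] Γ) : Function.Injective (psi (M := M) e γ ρ h) := by
  have h1 : (psi e γ ρ h⁻¹).comp (psi (M := M) e γ ρ h) = RingHom.id _ := by
    rw [psi_comp, inv_mul_cancel, psi_one]
  exact Function.LeftInverse.injective (g := psi e γ ρ h⁻¹)
    (fun x => congrArg (fun f : MvPolynomial ι M →+* MvPolynomial ι M => f x) h1)

/-- The norm of the generic element is not zero. -/
theorem det_gx_ne_zero : (lmm e (gx e M)).det ≠ 0 := by
  intro h0
  let f : MvPolynomial ι M →+* M :=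
    MvPolynomial.eval₂Hom (RingHom.id M) (fun i => (eb e M).repr 1 i)
  have h1 : tmap (p := p) f (RingHom.id B) (gx e M) = 1 := by
    rw [gx, tmap_vec, ← vec_repr e (1 : M ⊗[ZMod p] B)]
    congr 1
    ext i
    simp only [f, MvPolynomial.coe_eval₂Hom, MvPolynomial.eval₂_X]
  have h2 := lmm_tmap e f (gx e M)
  rw [h1, lmm_one] at h2
  have h3 := congrArg f h0
  rw [map_zero, RingHom.map_det] at h3
  have h4 : f.mapMatrix (lmm e (gx e M)) = 1 := h2.symm
  rw [h4, Matrix.det_one] at h3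
  exact one_ne_zero h3

end MP7fS

end

section

/-!
Unitary generic Lang torsor, part 1: anti-involutions, skew elements, the Cayley transform.
-/

set_option autoImplicit false
set_option linter.unusedSectionVars false

universe u v

namespace MP7fU

open TensorProduct MP7fS

/-- An anti-involution of a ring of characteristic `p`. -/
structure AInv (p : ℕ) (B : Type) [Ring B] [Algebra (ZMod p) B] where
  j : B →ₗ[ZMod p] B
  one : j 1 = 1
  mul : ∀ a b, j (a * b) = j b * j a
  inv : ∀ a, j (j a) = a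

variable {p : ℕ} [Fact p.Prime] {B : Type} [Ring B] [Finite B] [Algebra (ZMod p) B]
  (J : AInv p B)

namespace AInv

/-- The unitary group. -/
def U : Subgroup Bˣ where
  carrier := {g | J.j (g : B) * g = 1}
  one_mem' := by
    change J.j ((1 : Bˣ) : B) * ((1 : Bˣ) : B) = 1
    rw [Units.val_one, J.one, mul_one]
  mul_mem' := by
    intro g h hg hh
    change J.j ((g * h : Bˣ) : B) * ((g * h : Bˣ) : B) = 1
    have hg' : J.j (g : B) * g = 1 := hg
    have hh' : J.j (h : B) * h = 1 := hh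
    rw [Units.val_mul, J.mul, mul_assoc, ← mul_assoc (J.j (g : B)), hg', one_mul, hh']
  inv_mem' := by
    intro g hg
    have hg' : J.j (g : B) * g = 1 := hg
    change J.j ((g⁻¹ : Bˣ) : B) * ((g⁻¹ : Bˣ) : B) = 1
    have h1 : J.j (g : B) = ((g⁻¹ : Bˣ) : B) := by
      rw [← mul_one (J.j (g : B)), ← Units.mul_inv g, ← mul_assoc, hg', one_mul]
    rw [← h1, J.inv, h1, Units.mul_inv]

theorem mem_U {g : Bˣ} : g ∈ J.U ↔ J.j (g : B) * g = 1 := Iff.rfl

end AInv

/-- The action on the unitary group. -/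
def uactU {Γ : Type} [Group Γ] (ρ : Γ →* (B ≃+* B)) (hρ : ∀ g b, ρ g (J.j b) = J.j (ρ g b)) :
    Γ →* MulAut J.U where
  toFun g :=
    { toFun := fun u => ⟨uact ρ g u.1, by
        have h1 : J.j (u.1 : B) * (u.1 : B) = 1 := u.2
        change J.j ((uact ρ g u.1 : Bˣ) : B) * ((uact ρ g u.1 : Bˣ) : B) = 1
        rw [coe_uact, ← hρ, ← map_mul, h1, map_one]⟩
      invFun := fun u => ⟨uact ρ g⁻¹ u.1, by
        have h1 : J.j (u.1 : B) * (u.1 : B) = 1 := u.2
        change J.j ((uact ρ g⁻¹ u.1 : Bˣ) : B) * ((uact ρ g⁻¹ u.1 : Bˣ) : B) = 1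
        rw [coe_uact, ← hρ, ← map_mul, h1, map_one]⟩
      left_inv := fun u => Subtype.ext (by
        change uact ρ g⁻¹ (uact ρ g u.1) = u.1
        rw [← MulAut.mul_apply, ← map_mul, inv_mul_cancel, map_one]
        rfl)
      right_inv := fun u => Subtype.ext (by
        change uact ρ g (uact ρ g⁻¹ u.1) = u.1
        rw [← MulAut.mul_apply, ← map_mul, mul_inv_cancel, map_one]
        rfl)
      map_mul' := fun u v => Subtype.ext (by
        change uact ρ g (u.1 * v.1) = uact ρ g u.1 * uact ρ g v.1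
        rw [map_mul]) }
  map_one' := by
    ext u
    change ((uact ρ 1 u.1 : Bˣ) : B) = _
    rw [map_one]
    rfl
  map_mul' g h := by
    ext u
    change ((uact ρ (g * h) u.1 : Bˣ) : B) = _
    rw [map_mul]
    rfl

theorem coe_uactU {Γ : Type} [Group Γ] (ρ : Γ →* (B ≃+* B))
    (hρ : ∀ g b, ρ g (J.j b) = J.j (ρ g b)) (g : Γ) (u : J.U) :
    (((uactU J ρ hρ g u : J.U) : Bˣ) : B) = ρ g ((u : Bˣ) : B) := rfl

section

variable {R S : Type*} [CommRing R] [CommRing S] [Algebra (ZMod p) R] [Algebra (ZMod p) S]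

/-- The anti-involution of `R ⊗ B`. -/
noncomputable def jR (R : Type*) [CommRing R] [Algebra (ZMod p) R] :
    R ⊗[ZMod p] B →ₗ[R] R ⊗[ZMod p] B := J.j.baseChange R

@[simp] theorem jR_tmul (r : R) (b : B) : jR J R (r ⊗ₜ b) = r ⊗ₜ J.j b := rfl

theorem jR_mul (x y : R ⊗[ZMod p] B) : jR J R (x * y) = jR J R y * jR J R x := by
  induction x using TensorProduct.induction_on with
  | zero => rw [zero_mul, map_zero, mul_zero]
  | add x x' hx hx' => rw [add_mul, map_add, hx, hx', map_add, mul_add]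
  | tmul r b =>
    induction y using TensorProduct.induction_on with
    | zero => rw [mul_zero, map_zero, zero_mul]
    | add y y' hy hy' => rw [mul_add, map_add, hy, hy', map_add, add_mul]
    | tmul s c =>
      rw [Algebra.TensorProduct.tmul_mul_tmul, jR_tmul, jR_tmul, jR_tmul,
        Algebra.TensorProduct.tmul_mul_tmul, J.mul, mul_comm]

theorem jR_one : jR J R (1 : R ⊗[ZMod p] B) = 1 := by
  rw [Algebra.TensorProduct.one_def, jR_tmul, J.one]

theorem jR_jR (x : R ⊗[ZMod p] B) : jR J R (jR J R x) = x := by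
  induction x using TensorProduct.induction_on with
  | zero => rw [map_zero, map_zero]
  | add x x' hx hx' => rw [map_add, map_add, hx, hx']
  | tmul r b => rw [jR_tmul, jR_tmul, J.inv]

theorem jR_tmap (f : R →+* S) (g : B →+* B) (hg : ∀ b, g (J.j b) = J.j (g b))
    (x : R ⊗[ZMod p] B) : jR J S (tmap (p := p) f g x) = tmap f g (jR J R x) := by
  induction x using TensorProduct.induction_on with
  | zero => rw [map_zero, map_zero, map_zero, map_zero]
  | add x x' hx hx' => rw [map_add, map_add, hx, hx', map_add, map_add]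
  | tmul r b => rw [jR_tmul, tmap_tmul, tmap_tmul, jR_tmul, hg]

/-- The skew elements of `B`. -/
def Sk : Submodule (ZMod p) B := LinearMap.ker (LinearMap.id + J.j)

theorem mem_Sk {b : B} : b ∈ Sk J ↔ b + J.j b = 0 := Iff.rfl

variable {κ : Type} [Fintype κ] [DecidableEq κ] (sb : Module.Basis κ (ZMod p) (Sk J))

/-- The skew element with given coordinates. -/
noncomputable def skv (Y : κ → R) : R ⊗[ZMod p] B := ∑ k, Y k • ((1 : R) ⊗ₜ[ZMod p] (sb k : B))

theorem tmap_skv (f : R →+* S) (Y : κ → R) :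
    tmap (p := p) f (RingHom.id B) (skv J sb Y) = skv J sb (fun k => f (Y k)) := by
  rw [skv, skv, map_sum]
  refine Finset.sum_congr rfl fun k _ => ?_
  rw [tmap_smul, tmap_tmul, map_one]
  rfl

theorem skv_skew (Y : κ → R) : skv J sb Y + jR J R (skv J sb Y) = 0 := by
  rw [skv, map_sum, ← Finset.sum_add_distrib]
  refine Finset.sum_eq_zero fun k _ => ?_
  rw [map_smul, jR_tmul, ← smul_add, ← tmul_add, (mem_Sk J).mp (sb k).2, tmul_zero, smul_zero]

theorem skv_eq (Y : κ → R) : skv J sb Y =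
    (Sk J).subtype.lTensor R (∑ k, Y k • ((1 : R) ⊗ₜ[ZMod p] sb k)) := by
  rw [skv, map_sum]
  refine Finset.sum_congr rfl fun k _ => ?_
  rw [smul_tmul', smul_tmul', LinearMap.lTensor_tmul]
  rfl

theorem exists_skv {R : Type*} [Field R] [Algebra (ZMod p) R] {z : R ⊗[ZMod p] B}
    (hz : z + jR J R z = 0) : ∃ Y : κ → R, z = skv J sb Y := by
  have hex : Function.Exact (Sk J).subtype
      ((LinearMap.id + J.j : B →ₗ[ZMod p] B)) := by
    intro b
    constructor
    · intro hb
      exact ⟨⟨b, hb⟩, rfl⟩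
    · rintro ⟨b, rfl⟩
      exact b.2
  have h1 := Module.Flat.lTensor_exact R hex
  have h2 : ((LinearMap.id + J.j : B →ₗ[ZMod p] B)).lTensor R z = 0 := by
    rw [← hz, LinearMap.lTensor_add, LinearMap.add_apply, LinearMap.lTensor_id]
    rfl
  obtain ⟨w, rfl⟩ := (h1 z).mp h2
  let bb : Module.Basis κ R (R ⊗[ZMod p] Sk J) := sb.baseChange R
  refine ⟨fun k => bb.repr w k, ?_⟩
  rw [skv_eq]
  congr 1
  conv_lhs => rw [← bb.sum_repr w]
  refine Finset.sum_congr rfl fun k _ => ?_
  rw [Module.Basis.baseChange_apply]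

theorem skv_inj {R : Type*} [Field R] [Algebra (ZMod p) R] {Y Y' : κ → R}
    (h : skv J sb Y = skv J sb Y') : Y = Y' := by
  rw [skv_eq, skv_eq] at h
  have h1 := Module.Flat.lTensor_preserves_injective_linearMap (M := R) (Sk J).subtype
    (Sk J).subtype_injective h
  let bb : Module.Basis κ R (R ⊗[ZMod p] Sk J) := sb.baseChange R
  have h2 : ∀ k, (1 : R) ⊗ₜ[ZMod p] sb k = bb k := fun k =>
    (Module.Basis.baseChange_apply R sb k).symm
  simp only [h2] at h1
  ext k
  have h3 := congrArg (fun w => bb.repr w k) h1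
  simpa only [Module.Basis.repr_sum_self] using h3

end

end MP7fU

end

section

/-!
Unitary generic Lang torsor, part 2: Cayley transform, descent, genericity.
-/

set_option autoImplicit false
set_option linter.unusedSectionVars false

universe u v

namespace MP7fU

open TensorProduct MP7fS

variable {p : ℕ} [Fact p.Prime] {B : Type} [Ring B] [Finite B] [Algebra (ZMod p) B]
  (J : AInv p B)

section cayley

variable {R : Type*} [CommRing R] [Algebra (ZMod p) R]

theorem jR_inv_mul (y : (R ⊗[ZMod p] B)ˣ) :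
    jR J R ((y⁻¹ : (R ⊗[ZMod p] B)ˣ) : R ⊗[ZMod p] B) * jR J R (y : R ⊗[ZMod p] B) = 1 := by
  rw [← jR_mul, Units.mul_inv, jR_one]

theorem jR_mul_inv (y : (R ⊗[ZMod p] B)ˣ) :
    jR J R (y : R ⊗[ZMod p] B) * jR J R ((y⁻¹ : (R ⊗[ZMod p] B)ˣ) : R ⊗[ZMod p] B) = 1 := by
  rw [← jR_mul, Units.inv_mul, jR_one]

theorem cay_unitary (y : (R ⊗[ZMod p] B)ˣ)
    (hy : (y : R ⊗[ZMod p] B) + jR J R (y : R ⊗[ZMod p] B) = 1) :
    jR J R (1 - ((y⁻¹ : (R ⊗[ZMod p] B)ˣ) : R ⊗[ZMod p] B)) *
        (1 - ((y⁻¹ : (R ⊗[ZMod p] B)ˣ) : R ⊗[ZMod p] B)) = 1 ∧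
      (1 - ((y⁻¹ : (R ⊗[ZMod p] B)ˣ) : R ⊗[ZMod p] B)) *
        jR J R (1 - ((y⁻¹ : (R ⊗[ZMod p] B)ˣ) : R ⊗[ZMod p] B)) = 1 := by
  set a := (y : R ⊗[ZMod p] B) with ha
  set u := ((y⁻¹ : (R ⊗[ZMod p] B)ˣ) : R ⊗[ZMod p] B) with hu
  set v := jR J R u with hv
  have h1 : a * u = 1 := Units.mul_inv y
  have h2 : u * a = 1 := Units.inv_mul y
  have h3 : v * jR J R a = 1 := jR_inv_mul J y
  have h4 : jR J R a * v = 1 := jR_mul_inv J y
  have h5 : v * u = v + u := by
    calc v * u = v * (a + jR J R a) * u := by rw [hy, mul_one]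
      _ = v * (a * u) + (v * jR J R a) * u := by noncomm_ring
      _ = v + u := by rw [h1, h3, mul_one, one_mul]
  have h6 : u * v = v + u := by
    calc u * v = u * (a + jR J R a) * v := by rw [hy, mul_one]
      _ = (u * a) * v + u * (jR J R a * v) := by noncomm_ring
      _ = v + u := by rw [h2, h4, mul_one, one_mul]
  rw [map_sub, jR_one, ← hv]
  constructor
  · calc (1 - v) * (1 - u) = 1 - u - v + v * u := by noncomm_ring
      _ = 1 := by rw [h5]; abel
  · calc (1 - u) * (1 - v) = 1 - u - v + u * v := by noncomm_ring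
      _ = 1 := by rw [h6]; abel

theorem cay_skew (w : (R ⊗[ZMod p] B)ˣ) {x : R ⊗[ZMod p] B} (hx : jR J R x * x = 1)
    (hw : (w : R ⊗[ZMod p] B) = 1 - x) :
    ((w⁻¹ : (R ⊗[ZMod p] B)ˣ) : R ⊗[ZMod p] B) +
      jR J R ((w⁻¹ : (R ⊗[ZMod p] B)ˣ) : R ⊗[ZMod p] B) = 1 := by
  set a := (w : R ⊗[ZMod p] B) with ha
  set u := ((w⁻¹ : (R ⊗[ZMod p] B)ˣ) : R ⊗[ZMod p] B) with hu
  set v := jR J R u with hv
  have h1 : a * u = 1 := Units.mul_inv w
  have h3 : v * jR J R a = 1 := jR_inv_mul J w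
  have h5 : jR J R a * a = a + jR J R a := by
    rw [hw, map_sub, jR_one]
    calc (1 - jR J R x) * (1 - x) = 1 - x - jR J R x + jR J R x * x := by noncomm_ring
      _ = _ := by rw [hx]; abel
  calc u + v = (v * jR J R a) * u + v * (a * u) := by rw [h1, h3, mul_one, one_mul]
    _ = v * (a + jR J R a) * u := by noncomm_ring
    _ = v * (jR J R a * a) * u := by rw [h5]
    _ = (v * jR J R a) * (a * u) := by noncomm_ring
    _ = 1 := by rw [h1, h3, mul_one]

end cayley

section cy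

variable {κ : Type} [Fintype κ] [DecidableEq κ] (sb : Module.Basis κ (ZMod p) (Sk J))
variable (c : B)

/-- The elements with `y + j y = 1` in coordinates. -/
noncomputable def cy {R : Type*} [CommRing R] [Algebra (ZMod p) R] (Y : κ → R) :
    R ⊗[ZMod p] B := (1 : R) ⊗ₜ[ZMod p] c + skv J sb Y

theorem tmap_cy {R S : Type*} [CommRing R] [CommRing S] [Algebra (ZMod p) R]
    [Algebra (ZMod p) S] (f : R →+* S) (Y : κ → R) :
    tmap (p := p) f (RingHom.id B) (cy J sb c Y) = cy J sb c (fun k => f (Y k)) := by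
  rw [cy, cy, map_add, tmap_skv, tmap_tmul, map_one]
  rfl

variable {c} (hc : c + J.j c = 1)

include hc in
theorem cy_add {R : Type*} [CommRing R] [Algebra (ZMod p) R] (Y : κ → R) :
    cy J sb c Y + jR J R (cy J sb c Y) = 1 := by
  rw [cy, map_add, jR_tmul]
  calc _ = ((1 : R) ⊗ₜ[ZMod p] c + (1 : R) ⊗ₜ[ZMod p] J.j c) +
        (skv J sb Y + jR J R (skv J sb Y)) := by abel
    _ = 1 := by rw [skv_skew, add_zero, ← tmul_add, hc, Algebra.TensorProduct.one_def]

variable {F L : Type*} [Field F] [Field L] [Algebra (ZMod p) F] [Algebra (ZMod p) L]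

include hc in
theorem exists_cy {z : L ⊗[ZMod p] B} (hz : z + jR J L z = 1) :
    ∃ Y : κ → L, z = cy J sb c Y := by
  obtain ⟨Y, hY⟩ := exists_skv J sb (z := z - (1 : L) ⊗ₜ[ZMod p] c) (by
    rw [map_sub, jR_tmul]
    calc _ = (z + jR J L z) - ((1 : L) ⊗ₜ[ZMod p] c + (1 : L) ⊗ₜ[ZMod p] J.j c) := by abel
      _ = 0 := by rw [hz, ← tmul_add, hc, Algebra.TensorProduct.one_def, sub_self])
  exact ⟨Y, by rw [cy, ← hY]; abel⟩

theorem cy_inj {Y Y' : κ → L} (h : cy J sb c Y = cy J sb c Y') : Y = Y' := by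
  rw [cy, cy] at h
  exact skv_inj J sb (add_left_cancel h)

include hc in
theorem desc_cy (f : F →+* L) {Y : κ → L}
    (h : cy J sb c Y ∈ (tmap (p := p) f (RingHom.id B)).range) (k : κ) : ∃ r : F, f r = Y k := by
  obtain ⟨w, hw⟩ := h
  have h1 : w + jR J F w = 1 := by
    apply tmap_injective (p := p) (B := B) f f.injective
    rw [map_add, map_one, ← jR_tmap J f (RingHom.id B) (fun _ => rfl), hw, cy_add J sb hc]
  obtain ⟨Y', rfl⟩ := exists_cy J sb hc h1
  rw [tmap_cy] at hw
  exact ⟨Y' k, congrFun (cy_inj J sb hw) k⟩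

/-- The inverse of a unit which is defined over a subfield is defined over the subfield. -/
theorem desc_inv (f : F →+* L) (z : (L ⊗[ZMod p] B)ˣ)
    (h : (z : L ⊗[ZMod p] B) ∈ (tmap (p := p) f (RingHom.id B)).range) :
    ((z⁻¹ : (L ⊗[ZMod p] B)ˣ) : L ⊗[ZMod p] B) ∈ (tmap (p := p) f (RingHom.id B)).range := by
  classical
  obtain ⟨w, hw⟩ := h
  have h1 : IsUnit w := by
    apply isUnit_of_lmm (Module.finBasis (ZMod p) B)
    rw [isUnit_iff_ne_zero]
    intro h0
    have h2 := isUnit_lmm (Module.finBasis (ZMod p) B) z.isUnit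
    rw [← hw, lmm_tmap] at h2
    have h3 : ((lmm (Module.finBasis (ZMod p) B) w).map f).det =
        f (lmm (Module.finBasis (ZMod p) B) w).det := by
      rw [RingHom.map_det]
      rfl
    rw [h3, h0, map_zero] at h2
    exact not_isUnit_zero h2
  obtain ⟨w', rfl⟩ := h1
  refine ⟨((w'⁻¹ : (F ⊗[ZMod p] B)ˣ) : F ⊗[ZMod p] B), ?_⟩
  have h2 : tmap (p := p) f (RingHom.id B) ((w'⁻¹ : (F ⊗[ZMod p] B)ˣ) : F ⊗[ZMod p] B) *
      (z : L ⊗[ZMod p] B) = 1 := by
    rw [← hw, ← map_mul, Units.inv_mul, map_one]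
  calc _ = tmap (p := p) f (RingHom.id B) ((w'⁻¹ : (F ⊗[ZMod p] B)ˣ) : F ⊗[ZMod p] B) *
        ((z : L ⊗[ZMod p] B) * ((z⁻¹ : (L ⊗[ZMod p] B)ˣ) : L ⊗[ZMod p] B)) := by
          rw [Units.mul_inv, mul_one]
    _ = _ := by rw [← mul_assoc, h2, one_mul]

theorem desc_tmap (f : F →+* L) (r : B →+* B) {z : L ⊗[ZMod p] B}
    (h : z ∈ (tmap (p := p) f (RingHom.id B)).range) :
    tmap (p := p) (RingHom.id L) r z ∈ (tmap (p := p) f (RingHom.id B)).range := by
  obtain ⟨w, rfl⟩ := h
  refine ⟨tmap (p := p) (RingHom.id F) r w, ?_⟩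
  rw [tmap_comp, tmap_comp]
  rfl

theorem desc_one_tmul (f : F →+* L) (b : B) :
    (1 : L) ⊗ₜ[ZMod p] b ∈ (tmap (p := p) f (RingHom.id B)).range :=
  ⟨(1 : F) ⊗ₜ[ZMod p] b, by rw [tmap_tmul, map_one]; rfl⟩

theorem desc_skv (f : F →+* L) {Y : κ → L} (h : ∀ k, ∃ r : F, f r = Y k) :
    skv J sb Y ∈ (tmap (p := p) f (RingHom.id B)).range := by
  choose r hr using h
  refine ⟨skv J sb r, ?_⟩
  rw [tmap_skv]
  congr 1
  ext k
  exact hr k

theorem desc_cy' (f : F →+* L) {Y : κ → L} (h : ∀ k, ∃ r : F, f r = Y k) :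
    cy J sb c Y ∈ (tmap (p := p) f (RingHom.id B)).range := by
  rw [cy]
  exact add_mem (desc_one_tmul f c) (desc_skv J sb f h)

end cy

/-- Genericity. -/
theorem generic_unit {P L F : Type*} [CommRing P] [Algebra (ZMod p) P] [Field L]
    [Algebra (ZMod p) L] [Field F] [Algebra (ZMod p) F] (w : P ⊗[ZMod p] B) (ev : P →+* F)
    (h : IsUnit (tmap (p := p) ev (RingHom.id B) w)) (i : P →+* L) (hi : Function.Injective i) :
    IsUnit (tmap (p := p) i (RingHom.id B) w) := by
  classical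
  let e := Module.finBasis (ZMod p) B
  apply isUnit_of_lmm e
  rw [lmm_tmap, isUnit_iff_ne_zero]
  have h1 : ∀ {S : Type _} [Field S] [Algebra (ZMod p) S] (g : P →+* S),
      ((lmm e w).map g).det = g (lmm e w).det := by
    intro S _ _ g
    rw [RingHom.map_det]
    rfl
  rw [h1]
  intro h0
  have h2 : (lmm e w).det = 0 := hi (h0.trans (map_zero _).symm)
  have h3 := isUnit_lmm e h
  rw [lmm_tmap] at h3
  have h4 : ((lmm e w).map ev).det = ev (lmm e w).det := by
    rw [RingHom.map_det]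
    rfl
  rw [h4, h2, map_zero] at h3
  exact not_isUnit_zero h3

end MP7fU

end

section

/-!
Unitary generic Lang torsor, part 3: the generic element and the action.
-/

set_option autoImplicit false
set_option linter.unusedSectionVars false

universe u v

namespace MP7fU

open TensorProduct MP7fS

variable {p : ℕ} [Fact p.Prime] {B : Type} [Ring B] [Finite B] [Algebra (ZMod p) B]
  (J : AInv p B)

/-- The conditions under which the Cayley transform can be used. -/
structure Good (J : AInv p B) (c : B) : Prop where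
  hc : c + J.j c = 1
  hy : ∃ y₀ : AlgebraicClosure (ZMod p) ⊗[ZMod p] B, y₀ + jR J _ y₀ = 1 ∧ IsUnit y₀
  hs : ∃ s₀ : AlgebraicClosure (ZMod p) ⊗[ZMod p] B, s₀ + jR J _ s₀ = 0 ∧ IsUnit s₀
  hu : ∀ u : Bˣ, u ∈ J.U → ∃ y₀ : AlgebraicClosure (ZMod p) ⊗[ZMod p] B,
    y₀ + jR J _ y₀ = 1 ∧ IsUnit (1 + ((1 ⊗ₜ ((u⁻¹ : Bˣ) : B)) - 1) * y₀)

variable {κ : Type} [Fintype κ] [DecidableEq κ] (sb : Module.Basis κ (ZMod p) (Sk J))
variable (c : B)
variable {K M : Type u} [Field K] [Field M] [Algebra K M] [Algebra (ZMod p) M]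
variable (L : Type u) [Field L] [Algebra (MvPolynomial κ M) L]
  [IsFractionRing (MvPolynomial κ M) L] [Algebra M L] [IsScalarTower M (MvPolynomial κ M) L]
  [Algebra (ZMod p) L]

/-- The variables. -/
noncomputable def xk (M : Type u) [Field M] [Algebra (MvPolynomial κ M) L] (k : κ) : L :=
  algebraMap (MvPolynomial κ M) L (MvPolynomial.X k)

/-- The embedding of the polynomial ring over the prime field. -/
noncomputable def i0 (M : Type u) [Field M] [Algebra (ZMod p) M] [Algebra (MvPolynomial κ M) L] :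
    MvPolynomial κ (ZMod p) →+* L :=
  (algebraMap (MvPolynomial κ M) L).comp (MvPolynomial.map (algebraMap (ZMod p) M))

theorem i0_X (k : κ) : i0 (p := p) L M (MvPolynomial.X k) = xk L M k := by
  rw [i0, RingHom.comp_apply, MvPolynomial.map_X, xk]

theorem i0_injective : Function.Injective (i0 (p := p) (κ := κ) L M) :=
  (IsFractionRing.injective (MvPolynomial κ M) L).comp
    (MvPolynomial.map_injective _ (algebraMap (ZMod p) M).injective)

/-- Evaluation. -/
noncomputable def ev (Y : κ → AlgebraicClosure (ZMod p)) :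
    MvPolynomial κ (ZMod p) →+* AlgebraicClosure (ZMod p) :=
  MvPolynomial.eval₂Hom (algebraMap (ZMod p) _) Y

theorem ev_X (Y : κ → AlgebraicClosure (ZMod p)) (k : κ) : ev Y (MvPolynomial.X k) = Y k := by
  rw [ev, MvPolynomial.coe_eval₂Hom, MvPolynomial.eval₂_X]

theorem tmap_i0_cy : tmap (p := p) (i0 (p := p) L M) (RingHom.id B) (cy J sb c MvPolynomial.X) =
    cy J sb c (xk L M) := by
  rw [tmap_cy]
  congr 1
  ext k
  rw [i0_X]

theorem tmap_ev_cy (Y : κ → AlgebraicClosure (ZMod p)) :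
    tmap (p := p) (ev Y) (RingHom.id B) (cy J sb c MvPolynomial.X) = cy J sb c Y := by
  rw [tmap_cy]
  congr 1
  ext k
  rw [ev_X]

variable {c} (hG : Good J c)

include hG

/-- The generic element with `y + j y = 1` is a unit. -/
theorem isUnit_gy : IsUnit (cy J sb c (xk L M)) := by
  obtain ⟨y₀, h1, h2⟩ := hG.hy
  obtain ⟨Y, rfl⟩ := exists_cy J sb hG.hc h1
  rw [← tmap_i0_cy]
  apply generic_unit _ (ev Y) _ _ (i0_injective L)
  rw [tmap_ev_cy]
  exact h2

theorem isUnit_gy_u {u : Bˣ} (hu : u ∈ J.U) :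
    IsUnit (1 + ((1 ⊗ₜ ((u⁻¹ : Bˣ) : B)) - 1) * cy J sb c (xk L M)) := by
  obtain ⟨y₀, h1, h2⟩ := hG.hu u hu
  obtain ⟨Y, rfl⟩ := exists_cy J sb hG.hc h1
  have h3 : tmap (p := p) (i0 (p := p) L M) (RingHom.id B)
      (1 + ((1 ⊗ₜ ((u⁻¹ : Bˣ) : B)) - 1) * cy J sb c MvPolynomial.X) =
      1 + ((1 ⊗ₜ ((u⁻¹ : Bˣ) : B)) - 1) * cy J sb c (xk L M) := by
    rw [map_add, map_mul, map_sub, map_one, tmap_tmul, map_one, tmap_i0_cy]
    rfl
  rw [← h3]
  apply generic_unit _ (ev Y) _ _ (i0_injective L)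
  rw [map_add, map_mul, map_sub, map_one, tmap_tmul, map_one, tmap_ev_cy]
  exact h2

/-- The generic element as a unit. -/
noncomputable def gyu (M : Type u) [Field M] [Algebra (ZMod p) M] [Algebra (MvPolynomial κ M) L]
    [IsFractionRing (MvPolynomial κ M) L] [Algebra M L] [IsScalarTower M (MvPolynomial κ M) L] :
    (L ⊗[ZMod p] B)ˣ := (isUnit_gy J sb (M := M) L hG).unit

omit hG in
theorem coe_gyu (hG : Good J c) : ((gyu J sb L hG M : (L ⊗[ZMod p] B)ˣ) : L ⊗[ZMod p] B) =
    cy J sb c (xk L M) := rfl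

/-- The generic unitary element. -/
noncomputable def gU (M : Type u) [Field M] [Algebra (ZMod p) M] [Algebra (MvPolynomial κ M) L]
    [IsFractionRing (MvPolynomial κ M) L] [Algebra M L] [IsScalarTower M (MvPolynomial κ M) L] :
    (L ⊗[ZMod p] B)ˣ where
  val := 1 - (((gyu J sb L hG M)⁻¹ : (L ⊗[ZMod p] B)ˣ) : L ⊗[ZMod p] B)
  inv := jR J L (1 - (((gyu J sb L hG M)⁻¹ : (L ⊗[ZMod p] B)ˣ) : L ⊗[ZMod p] B))
  val_inv := (cay_unitary J (gyu J sb L hG M) (by
    rw [coe_gyu]
    exact cy_add J sb hG.hc _)).2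
  inv_val := (cay_unitary J (gyu J sb L hG M) (by
    rw [coe_gyu]
    exact cy_add J sb hG.hc _)).1

omit hG in
theorem coe_gU (hG : Good J c) : ((gU J sb L hG M : (L ⊗[ZMod p] B)ˣ) : L ⊗[ZMod p] B) =
    1 - (((gyu J sb L hG M)⁻¹ : (L ⊗[ZMod p] B)ˣ) : L ⊗[ZMod p] B) := rfl

omit hG in
theorem jR_gU (hG : Good J c) : jR J L ((gU J sb L hG M : (L ⊗[ZMod p] B)ˣ) : L ⊗[ZMod p] B) *
    ((gU J sb L hG M : (L ⊗[ZMod p] B)ˣ) : L ⊗[ZMod p] B) = 1 :=
  (gU J sb L hG M).inv_val

omit hG in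
theorem one_sub_gU (hG : Good J c) :
    1 - ((gU J sb L hG M : (L ⊗[ZMod p] B)ˣ) : L ⊗[ZMod p] B) =
      (((gyu J sb L hG M)⁻¹ : (L ⊗[ZMod p] B)ˣ) : L ⊗[ZMod p] B) := by
  rw [coe_gU, sub_sub_cancel]

theorem isUnit_w {u : Bˣ} (hu : u ∈ J.U) :
    IsUnit (1 - ((gU J sb L hG M : (L ⊗[ZMod p] B)ˣ) : L ⊗[ZMod p] B) * (1 ⊗ₜ (u : B))) := by
  have h1 := isUnit_gy_u J sb (M := M) L hG hu
  set y := cy J sb c (xk L M) with hy
  set v := (1 : L) ⊗ₜ[ZMod p] ((u⁻¹ : Bˣ) : B) with hv
  set w := (1 : L) ⊗ₜ[ZMod p] (u : B) with hw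
  have hvw : v * w = 1 := by
    rw [hv, hw, Algebra.TensorProduct.tmul_mul_tmul, one_mul, Units.inv_mul]
    rfl
  have hwv : w * v = 1 := by
    rw [hv, hw, Algebra.TensorProduct.tmul_mul_tmul, one_mul, Units.mul_inv]
    rfl
  have hwu : IsUnit w := ⟨⟨w, v, hwv, hvw⟩, rfl⟩
  have hyi : y * (((gyu J sb L hG M)⁻¹ : (L ⊗[ZMod p] B)ˣ) : L ⊗[ZMod p] B) = 1 :=
    (gyu J sb L hG M).mul_inv
  set yi := (((gyu J sb L hG M)⁻¹ : (L ⊗[ZMod p] B)ˣ) : L ⊗[ZMod p] B) with hyi'
  have hyiu : IsUnit yi := Units.isUnit _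
  have h2 : 1 - ((gU J sb L hG M : (L ⊗[ZMod p] B)ˣ) : L ⊗[ZMod p] B) * w =
      (1 + (v - 1) * y) * yi * w := by
    rw [coe_gU, ← hyi']
    have : (1 + (v - 1) * y) * yi * w = yi * w + (v - 1) * (y * yi) * w := by noncomm_ring
    rw [this, hyi, mul_one, sub_mul v 1 w, hvw, sub_mul]
    abel
  rw [h2]
  exact (h1.mul hyiu).mul hwu

end MP7fU

end
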