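import Pool.Agent.Lib.MP_7f581e_ntL.U7

/-!
Unitary generic Lang torsor, part 8: the invariants and homomorphisms.
-/

set_option autoImplicit false
set_option linter.unusedSectionVars false

universe u v

namespace MP7fU

open TensorProduct MP7fS

variable {p : ℕ} [Fact p.Prime] {B : Type} [Ring B] [Finite B] [Algebra (ZMod p) B]
  (J : AInv p B)
variable {κ : Type} [Fintype κ] [DecidableEq κ] (sb : Module.Basis κ (ZMod p) (Sk J))
variable {c : B}
variable {K M : Type u} [Field K] [Field M] [Algebra K M] [Algebra (ZMod p) M]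
variable (L : Type u) [Field L] [Algebra (MvPolynomial κ M) L]
  [IsFractionRing (MvPolynomial κ M) L] [Algebra M L] [IsScalarTower M (MvPolynomial κ M) L]
  [Algebra (ZMod p) L] [CharP L p]
variable (hG : Good J c)
variable {Γ : Type} [Group Γ] (γ : Γ ≃* (M ≃ₐ[K] M)) (ρ : Γ →* (B ≃+* B))
  (hρ : ∀ g b, ρ g (J.j b) = J.j (ρ g b))

theorem tmap_fix {S : Type*} [Field S] [Algebra (ZMod p) S] {f f' : L →+* S} {g : Γ}
    (hM : ∀ m : M, f (algebraMap M L m) = f' (algebraMap M L (γ g m))) {z : M ⊗[ZMod p] B}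
    (hz : ∀ g, sg γ ρ g z = z) :
    tmap f (ρ g : B →+* B) (tmap (algebraMap M L) (RingHom.id B) z) =
      tmap f' (RingHom.id B) (tmap (algebraMap M L) (RingHom.id B) z) := by
  rw [tmap_comp, tmap_comp]
  conv_rhs => rw [← hz g]
  rw [sg, tmap_comp]
  have h1 : f.comp (algebraMap M L) = (f'.comp (algebraMap M L)).comp (γ g : M →+* M) := by
    ext m
    exact hM m
  rw [h1]
  rfl

variable {b : Module.Basis κ M (VV J M)} {c' : M ⊗[ZMod p] B} (hc' : c' + jR J M c' = 1)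
  (hb : ∀ i g, sg γ ρ g (b i : M ⊗[ZMod p] B) = b i) (hcf : ∀ g, sg γ ρ g c' = c')

include hb hcf in
theorem tmap_gW_inv {S : Type*} [Field S] [Algebra (ZMod p) S] {f f' : L →+* S} {g : Γ}
    (hM : ∀ m : M, f (algebraMap M L m) = f' (algebraMap M L (γ g m)))
    (ha : ∀ i, f (bet J sb L M hG b hc' i) = f' (bet J sb L M hG b hc' i)) :
    tmap f (ρ g : B →+* B) (((gW J sb L hG M)⁻¹ : (L ⊗[ZMod p] B)ˣ) : L ⊗[ZMod p] B) =
      tmap f' (RingHom.id B) (((gW J sb L hG M)⁻¹ : (L ⊗[ZMod p] B)ˣ) : L ⊗[ZMod p] B) := by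
  rw [sum_bet J sb L hG b hc', map_add, map_add, map_sum, map_sum,
    tmap_fix L γ ρ hM hcf]
  congr 1
  refine Finset.sum_congr rfl fun i _ => ?_
  rw [tmap_smul, tmap_smul, tmap_fix L γ ρ hM (hb i), ha]

/-- Transfer of equalities between images from a unit to its inverse. -/
theorem tmap_inv_eq {S : Type*} [Field S] [Algebra (ZMod p) S] {F : Type*} [Field F]
    [Algebra (ZMod p) F] {f f' : F →+* S} {r r' : B →+* B} (z : (F ⊗[ZMod p] B)ˣ)
    (h : tmap (p := p) f r (z : F ⊗[ZMod p] B) = tmap (p := p) f' r' (z : F ⊗[ZMod p] B)) :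
    tmap (p := p) f r ((z⁻¹ : (F ⊗[ZMod p] B)ˣ) : F ⊗[ZMod p] B) =
      tmap (p := p) f' r' ((z⁻¹ : (F ⊗[ZMod p] B)ˣ) : F ⊗[ZMod p] B) := by
  have h3 : Units.map (tmap (p := p) f r).toMonoidHom z =
      Units.map (tmap (p := p) f' r').toMonoidHom z := Units.ext h
  have h4 := congrArg (fun v => v⁻¹) h3
  simp only [← map_inv] at h4
  exact congrArg Units.val h4

include hb hcf in
theorem tmap_gA {S : Type*} [Field S] [Algebra (ZMod p) S] {f f' : L →+* S} {g : Γ}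
    (hM : ∀ m : M, f (algebraMap M L m) = f' (algebraMap M L (γ g m)))
    (ha : ∀ i, f (bet J sb L M hG b hc' i) = f' (bet J sb L M hG b hc' i)) :
    tmap f (ρ g : B →+* B) ((gA J sb L hG M : (L ⊗[ZMod p] B)ˣ) : L ⊗[ZMod p] B) =
      tmap f' (RingHom.id B) ((gA J sb L hG M : (L ⊗[ZMod p] B)ˣ) : L ⊗[ZMod p] B) := by
  have h1 := tmap_inv_eq _ (tmap_gW_inv J sb L hG γ ρ hc' hb hcf hM ha)
  rw [inv_inv] at h1
  have h2 : ((gA J sb L hG M : (L ⊗[ZMod p] B)ˣ) : L ⊗[ZMod p] B) =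
      1 - ((gW J sb L hG M : (L ⊗[ZMod p] B)ˣ) : L ⊗[ZMod p] B) := by
    rw [coe_gW, sub_sub_cancel]
  rw [h2, map_sub, map_sub, map_one, map_one, h1]

include sb in
theorem bbV_inj (b : Module.Basis κ M (VV J M)) {x y : κ → L}
    (h : ∑ k, x k • tmap (p := p) (algebraMap M L) (RingHom.id B) (b k : M ⊗[ZMod p] B) =
      ∑ k, y k • tmap (p := p) (algebraMap M L) (RingHom.id B) (b k : M ⊗[ZMod p] B)) :
    x = y := by
  have h3 : ∀ z : κ → L, ((∑ k, z k • bbV J sb (algebraMap M L) b k : VV J L) :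
      L ⊗[ZMod p] B) = ∑ k, z k •
      tmap (p := p) (algebraMap M L) (RingHom.id B) (b k : M ⊗[ZMod p] B) := by
    intro z
    rw [AddSubmonoidClass.coe_finsetSum]
    refine Finset.sum_congr rfl fun k _ => ?_
    rw [Submodule.coe_smul, coe_bbV]
  have h4 : (∑ k, x k • bbV J sb (algebraMap M L) b k : VV J L) =
      ∑ k, y k • bbV J sb (algebraMap M L) b k := Subtype.ext (by rw [h3, h3, h])
  ext k
  have h5 := congrArg (fun w => (bbV J sb (algebraMap M L) b).repr w k) h4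
  simpa only [Module.Basis.repr_sum_self] using h5

include hb hcf in
theorem PsiU_bet (h : J.U ⋊[uactU J ρ hρ] Γ) (i : κ) :
    PsiU J sb L hG γ ρ hρ h (bet J sb L M hG b hc' i) = bet J sb L M hG b hc' i := by
  have h1 := gA_inv J sb L hG γ ρ hρ h
  have h2 : tmap (PsiU J sb L hG γ ρ hρ h) (ρ h.right : B →+* B)
      ((gW J sb L hG M : (L ⊗[ZMod p] B)ˣ) : L ⊗[ZMod p] B) =
      tmap (p := p) (RingHom.id L) (RingHom.id B)
        ((gW J sb L hG M : (L ⊗[ZMod p] B)ˣ) : L ⊗[ZMod p] B) := by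
    rw [tmap_id, coe_gW, map_sub, map_one, h1]
  have h3 := tmap_inv_eq _ h2
  rw [tmap_id, sum_bet J sb L hG b hc', map_add, map_sum] at h3
  have hM : ∀ m : M, PsiU J sb L hG γ ρ hρ h (algebraMap M L m) =
      (RingHom.id L) (algebraMap M L (γ h.right m)) := PsiU_M J sb L hG γ ρ hρ h
  rw [tmap_fix L γ ρ hM hcf, tmap_id] at h3
  have h4 := add_left_cancel h3
  have h5 : ∀ k, tmap (PsiU J sb L hG γ ρ hρ h) (ρ h.right : B →+* B)
      (bet J sb L M hG b hc' k • tmap (algebraMap M L) (RingHom.id B) (b k : M ⊗[ZMod p] B)) =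
      PsiU J sb L hG γ ρ hρ h (bet J sb L M hG b hc' k) •
        tmap (algebraMap M L) (RingHom.id B) (b k : M ⊗[ZMod p] B) := by
    intro k
    rw [tmap_smul, tmap_fix L γ ρ hM (hb k), tmap_id]
  rw [Finset.sum_congr rfl fun k _ => h5 k] at h4
  exact congrFun (bbV_inj J sb L b h4) i

include hb hcf in
/-- Every homomorphism out of `L` with the given restriction is in the orbit. -/
theorem exists_PsiU {S : Type*} [Field S] [Algebra (ZMod p) S] [CharP S p] {f f' : L →+* S}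
    {g : Γ} (hM : ∀ m : M, f (algebraMap M L m) = f' (algebraMap M L (γ g m)))
    (ha : ∀ i, f (bet J sb L M hG b hc' i) = f' (bet J sb L M hG b hc' i)) :
    ∃ h : J.U ⋊[uactU J ρ hρ] Γ, f = f'.comp (PsiU J sb L hG γ ρ hρ h) := by
  set A := tmap f' (RingHom.id B) ((gA J sb L hG M : (L ⊗[ZMod p] B)ˣ) : L ⊗[ZMod p] B) with hA
  let y : (S ⊗[ZMod p] B)ˣ :=
    Units.map (tmap (p := p) f (ρ g : B →+* B)).toMonoidHom (gU J sb L hG M)
  let x : (S ⊗[ZMod p] B)ˣ :=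
    Units.map (tmap (p := p) f' (RingHom.id B)).toMonoidHom (gU J sb L hG M)
  have hy : (y : S ⊗[ZMod p] B) = tmap (p := p) f (ρ g : B →+* B)
    ((gU J sb L hG M : (L ⊗[ZMod p] B)ˣ) : L ⊗[ZMod p] B) := rfl
  have hx : (x : S ⊗[ZMod p] B) = tmap (p := p) f' (RingHom.id B)
    ((gU J sb L hG M : (L ⊗[ZMod p] B)ˣ) : L ⊗[ZMod p] B) := rfl
  have hAu : IsUnit A := (Units.isUnit (gA J sb L hG M)).map _
  have h1 : frob S (y : S ⊗[ZMod p] B) = A * y := by
    rw [hy, frob_tmap, ← gA_mul, map_mul, tmap_gA J sb L hG γ ρ hc' hb hcf hM ha]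
  have h2 : frob S (x : S ⊗[ZMod p] B) = A * x := by
    rw [hx, frob_tmap, ← gA_mul, map_mul]
  let z : (S ⊗[ZMod p] B)ˣ := x⁻¹ * y
  have hxz' : x * z = y := by
    simp only [z, mul_inv_cancel_left]
  have hxz : (x : S ⊗[ZMod p] B) * (z : S ⊗[ZMod p] B) = y := congrArg Units.val hxz'
  have h3 : frob S (z : S ⊗[ZMod p] B) = z := by
    have h4 := congrArg (frob S) hxz
    rw [map_mul, h1, h2, ← hxz, mul_assoc] at h4
    exact (Units.isUnit x).mul_left_cancel (hAu.mul_left_cancel h4)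
  obtain ⟨d, hd⟩ := exists_unit_of_frob_eq z h3
  have hJy : jR J S (y : S ⊗[ZMod p] B) * y = 1 := by
    rw [hy, jR_tmap J f (ρ g : B →+* B) (fun b => hρ g b), ← map_mul, jR_gU, map_one]
  have hJx : jR J S (x : S ⊗[ZMod p] B) * x = 1 := by
    rw [hx, jR_tmap J f' (RingHom.id B) (fun b => rfl), ← map_mul, jR_gU, map_one]
  have hJz : jR J S (z : S ⊗[ZMod p] B) * z = 1 := by
    have h5 : jR J S (y : S ⊗[ZMod p] B) * y =
        jR J S (z : S ⊗[ZMod p] B) * (jR J S (x : S ⊗[ZMod p] B) * x) * z := by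
      rw [← hxz, jR_mul]
      noncomm_ring
    rw [hJy, hJx, mul_one] at h5
    exact h5.symm
  have hdU : d ∈ J.U := by
    rw [AInv.mem_U]
    apply one_tmul_inj (p := p) (R := S)
    rw [hd, jR_tmul, Algebra.TensorProduct.tmul_mul_tmul, one_mul] at hJz
    rw [hJz]
    rfl
  refine ⟨⟨⟨d, hdU⟩, g⟩, ?_⟩
  apply hom_ext_gU J sb (M := M) L hG (ρ g)
  · intro m
    rw [RingHom.comp_apply, PsiU_M, hM]
  · have h5 : tmap (f'.comp (PsiU J sb L hG γ ρ hρ ⟨⟨d, hdU⟩, g⟩)) (ρ g : B →+* B)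
        ((gU J sb L hG M : (L ⊗[ZMod p] B)ˣ) : L ⊗[ZMod p] B) = tmap f' (RingHom.id B)
        (tmap (PsiU J sb L hG γ ρ hρ ⟨⟨d, hdU⟩, g⟩) (ρ g : B →+* B)
          ((gU J sb L hG M : (L ⊗[ZMod p] B)ˣ) : L ⊗[ZMod p] B)) := by
      rw [tmap_comp]
      rfl
    have h6 := PsiU_gU J sb L hG γ ρ hρ ⟨⟨d, hdU⟩, g⟩
    have h7 : tmap (PsiU J sb L hG γ ρ hρ ⟨⟨d, hdU⟩, g⟩) (ρ g : B →+* B)
        ((gU J sb L hG M : (L ⊗[ZMod p] B)ˣ) : L ⊗[ZMod p] B) =
      ((gU J sb L hG M : (L ⊗[ZMod p] B)ˣ) : L ⊗[ZMod p] B) * (1 ⊗ₜ (d : B)) := h6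
    rw [h5, h7, map_mul, tmap_tmul, map_one, ← hy, ← hxz, hd]
    rfl

end MP7fU
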