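import Pool.Agent.Lib.MP_7f581e_ntL.U3

/-!
Unitary generic Lang torsor, part 6: descent for the skew elements.
-/

set_option autoImplicit false
set_option linter.unusedSectionVars false

universe u v

namespace MP7fU

open TensorProduct MP7fS

variable {p : ℕ} [Fact p.Prime] {B : Type} [Ring B] [Finite B] [Algebra (ZMod p) B]
  (J : AInv p B)
variable {κ : Type} [Fintype κ] [DecidableEq κ] (sb : Module.Basis κ (ZMod p) (Sk J))

/-- The skew elements of `R ⊗ B`. -/
noncomputable def VV (R : Type*) [Field R] [Algebra (ZMod p) R] : Submodule R (R ⊗[ZMod p] B) :=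
  LinearMap.ker (LinearMap.id + jR J R)

theorem mem_VV {R : Type*} [Field R] [Algebra (ZMod p) R] {z : R ⊗[ZMod p] B} :
    z ∈ VV J R ↔ z + jR J R z = 0 := Iff.rfl

/-- The standard basis of the skew elements. -/
noncomputable def skB (R : Type*) [Field R] [Algebra (ZMod p) R] : Module.Basis κ R (VV J R) :=
  Module.Basis.ofEquivFun (LinearEquiv.ofBijective
    ({ toFun := fun Y => ⟨skv J sb Y, skv_skew J sb Y⟩
       map_add' := fun Y Y' => Subtype.ext (by
        change skv J sb (Y + Y') = skv J sb Y + skv J sb Y'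
        rw [skv, skv, skv, ← Finset.sum_add_distrib]
        exact Finset.sum_congr rfl fun k _ => by rw [Pi.add_apply, add_smul])
       map_smul' := fun r Y => Subtype.ext (by
        change skv J sb (r • Y) = r • skv J sb Y
        rw [skv, skv, Finset.smul_sum]
        exact Finset.sum_congr rfl fun k _ => by rw [Pi.smul_apply, smul_eq_mul, mul_smul]) } :
      (κ → R) →ₗ[R] VV J R) ⟨by
        intro Y Y' h
        exact skv_inj J sb (congrArg Subtype.val h), by
        rintro ⟨z, hz⟩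
        obtain ⟨Y, rfl⟩ := exists_skv J sb ((mem_VV J).mp hz)
        exact ⟨Y, rfl⟩⟩).symm

theorem coe_skB (R : Type*) [Field R] [Algebra (ZMod p) R] (k : κ) :
    ((skB J sb R k : VV J R) : R ⊗[ZMod p] B) = (1 : R) ⊗ₜ[ZMod p] (sb k : B) := by
  rw [skB, Module.Basis.coe_ofEquivFun]
  change skv J sb (Pi.single k 1) = _
  rw [skv, Finset.sum_eq_single k]
  · rw [Pi.single_eq_same, one_smul]
  · intro l _ hl
    rw [Pi.single_eq_of_ne hl, zero_smul]
  · intro h
    exact absurd (Finset.mem_univ k) h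

theorem tmap_mem_VV {R S : Type*} [Field R] [Field S] [Algebra (ZMod p) R] [Algebra (ZMod p) S]
    (f : R →+* S) (g : B →+* B) (hg : ∀ b, g (J.j b) = J.j (g b)) {z : R ⊗[ZMod p] B}
    (hz : z ∈ VV J R) : tmap (p := p) f g z ∈ VV J S := by
  rw [mem_VV] at hz ⊢
  rw [jR_tmap J f g hg, ← map_add, hz, map_zero]

section base

variable {R S : Type*} [Field R] [Field S] [Algebra (ZMod p) R] [Algebra (ZMod p) S]

/-- Base change of a basis of the skew elements. -/
noncomputable def bbV (f : R →+* S) (b : Module.Basis κ R (VV J R)) :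
    Module.Basis κ S (VV J S) :=
  basisOfTopLeSpanOfCardEqFinrank
    (fun i => (⟨tmap f (RingHom.id B) (b i : R ⊗[ZMod p] B),
      tmap_mem_VV J f (RingHom.id B) (fun _ => rfl) (b i).2⟩ : VV J S)) (by
    intro x _
    rw [← (skB J sb S).sum_repr x]
    refine Submodule.sum_mem _ fun i _ => Submodule.smul_mem _ _ ?_
    have h1 : skB J sb S i = ∑ k, f (b.repr (skB J sb R i) k) •
        (⟨tmap f (RingHom.id B) (b k : R ⊗[ZMod p] B),
          tmap_mem_VV J f (RingHom.id B) (fun _ => rfl) (b k).2⟩ : VV J S) := by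
      apply Subtype.ext
      rw [coe_skB]
      have h2 : (1 : S) ⊗ₜ[ZMod p] (sb i : B) =
          tmap f (RingHom.id B) ((skB J sb R i : VV J R) : R ⊗[ZMod p] B) := by
        rw [coe_skB, tmap_tmul, map_one]
        rfl
      rw [h2]
      conv_lhs => rw [← b.sum_repr (skB J sb R i)]
      rw [AddSubmonoidClass.coe_finsetSum, AddSubmonoidClass.coe_finsetSum, map_sum]
      refine Finset.sum_congr rfl fun k _ => ?_
      rw [Submodule.coe_smul, Submodule.coe_smul, tmap_smul]
    rw [h1]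
    exact Submodule.sum_mem _ fun k _ =>
      Submodule.smul_mem _ _ (Submodule.subset_span ⟨k, rfl⟩)) (by
    rw [Module.finrank_eq_card_basis (skB J sb S)])

theorem coe_bbV (f : R →+* S) (b : Module.Basis κ R (VV J R)) (i : κ) :
    ((bbV J sb f b i : VV J S) : S ⊗[ZMod p] B) =
      tmap f (RingHom.id B) (b i : R ⊗[ZMod p] B) := by
  rw [bbV, coe_basisOfTopLeSpanOfCardEqFinrank]

end base

section descent

variable {K M : Type u} [Field K] [Field M] [Algebra K M] [Algebra (ZMod p) M]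
variable {Γ : Type} [Group Γ] [Finite Γ] (γ : Γ ≃* (M ≃ₐ[K] M)) (ρ : Γ →* (B ≃+* B))
  (hρ : ∀ g b, ρ g (J.j b) = J.j (ρ g b))

theorem linInd_gamma : LinearIndependent M (fun g : Γ => ((γ g : M →* M) : M → M)) :=
  (linearIndependent_monoidHom M M).comp (fun g : Γ => (γ g : M →* M)) (by
    intro g g' h
    apply γ.injective
    ext x
    exact congrArg (fun φ : M →* M => φ x) h)

/-- An element of trace one. -/
theorem exists_trace_one [Fintype Γ] : ∃ m : M, ∑ g : Γ, γ g m = 1 := by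
  classical
  have h1 : ∃ m : M, ∑ g : Γ, γ g m ≠ 0 := by
    by_contra hcon
    push Not at hcon
    have h3 := Fintype.linearIndependent_iff.mp (linInd_gamma γ) (fun _ => 1) (by
      ext m
      simpa [Finset.sum_apply] using hcon m) 1
    exact one_ne_zero h3
  obtain ⟨m, hm⟩ := h1
  set t := ∑ g : Γ, γ g m with ht
  have hfix : ∀ g, γ g t = t := by
    intro g
    rw [ht, map_sum]
    have : ∀ h : Γ, γ g (γ h m) = γ (g * h) m := fun h => by
      rw [map_mul]
      rfl
    rw [Finset.sum_congr rfl fun h _ => this h]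
    exact Fintype.sum_equiv (Equiv.mulLeft g) _ _ (fun h => rfl)
  refine ⟨m / t, ?_⟩
  have h2 : ∑ g : Γ, γ g (m / t) = (∑ g : Γ, γ g m) / t := by
    rw [Finset.sum_div]
    exact Finset.sum_congr rfl fun g _ => by rw [map_div₀, hfix]
  rw [h2, ← ht, div_self hm]

include hρ in
theorem exists_c' {c : B} (hc : c + J.j c = 1) : ∃ c' : M ⊗[ZMod p] B,
    c' + jR J M c' = 1 ∧ ∀ g, sg γ ρ g c' = c' := by
  classical
  have := Fintype.ofFinite Γ
  obtain ⟨m, hm⟩ := exists_trace_one γ
  refine ⟨∑ g : Γ, sg γ ρ g (m ⊗ₜ c), ?_, ?_⟩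
  · have h1 : ∀ g : Γ, sg γ ρ g (m ⊗ₜ[ZMod p] c) = γ g m ⊗ₜ ρ g c := fun g => rfl
    rw [map_sum, ← Finset.sum_add_distrib]
    have h2 : ∀ g : Γ, sg γ ρ g (m ⊗ₜ[ZMod p] c) + jR J M (sg γ ρ g (m ⊗ₜ[ZMod p] c)) =
        γ g m ⊗ₜ 1 := by
      intro g
      rw [h1, jR_tmul, ← tmul_add, ← hρ, ← map_add, hc, map_one]
    rw [Finset.sum_congr rfl fun g _ => h2 g, ← sum_tmul, hm, Algebra.TensorProduct.one_def]
  · intro g
    rw [map_sum]
    have : ∀ h : Γ, sg γ ρ g (sg γ ρ h (m ⊗ₜ[ZMod p] c)) = sg γ ρ (g * h) (m ⊗ₜ[ZMod p] c) :=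
      fun h => (sg_mul γ ρ g h _).symm
    rw [Finset.sum_congr rfl fun h _ => this h]
    exact Fintype.sum_equiv (Equiv.mulLeft g) _ _ (fun h => rfl)

include hρ in
theorem span_inv_V : ⊤ ≤ Submodule.span M {w : VV J M | ∀ g, sg γ ρ g (w : M ⊗[ZMod p] B) = w} := by
  classical
  have := Fintype.ofFinite Γ
  by_contra hcon
  have hlt : Submodule.span M {w : VV J M | ∀ g, sg γ ρ g (w : M ⊗[ZMod p] B) = w} < ⊤ :=
    lt_of_le_of_ne le_top (fun h => hcon h.ge)
  obtain ⟨f, hf0, hf⟩ := Submodule.exists_le_ker_of_lt_top _ hlt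
  apply hf0
  refine LinearMap.ext fun v => ?_
  let sV : Γ → VV J M → VV J M := fun g w =>
    ⟨sg γ ρ g w, tmap_mem_VV J _ (ρ g : B →+* B) (fun b => hρ g b) w.2⟩
  have hsV : ∀ g w, ((sV g w : VV J M) : M ⊗[ZMod p] B) = sg γ ρ g w := fun _ _ => rfl
  have hsm : ∀ g (m : M) (w : VV J M), sV g (m • w) = γ g m • sV g w := by
    intro g m w
    apply Subtype.ext
    rw [hsV, Submodule.coe_smul, Submodule.coe_smul, hsV, sg, tmap_smul]
    rfl
  have key : ∀ m : M, ∑ g : Γ, f (sV g v) * γ g m = 0 := by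
    intro m
    have h1 : ∑ g : Γ, sV g (m • v) ∈
        {w : VV J M | ∀ g, sg γ ρ g (w : M ⊗[ZMod p] B) = w} := by
      intro g
      rw [AddSubmonoidClass.coe_finsetSum, map_sum]
      have : ∀ h : Γ, sg γ ρ g ((sV h (m • v) : VV J M) : M ⊗[ZMod p] B) =
          ((sV (g * h) (m • v) : VV J M) : M ⊗[ZMod p] B) := fun h => by
        rw [hsV, hsV, sg_mul]
      rw [Finset.sum_congr rfl fun h _ => this h]
      exact Fintype.sum_equiv (Equiv.mulLeft g) _ _ (fun h => rfl)
    have h2 := hf (Submodule.subset_span h1)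
    rw [LinearMap.mem_ker, map_sum] at h2
    rw [← h2]
    refine Finset.sum_congr rfl fun g _ => ?_
    rw [hsm, map_smul, smul_eq_mul, mul_comm]
  have h3 := Fintype.linearIndependent_iff.mp (linInd_gamma γ) (fun g => f (sV g v)) (by
    ext m
    simpa [Finset.sum_apply] using key m) 1
  have h4 : sV 1 v = v := Subtype.ext (sg_one γ ρ _)
  rw [h4] at h3
  simpa using h3

include hρ sb in
/-- A basis of the skew elements of `M ⊗ B` consisting of invariant vectors. -/
theorem exists_inv_basis_V : ∃ b : Module.Basis κ M (VV J M),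
    ∀ i g, sg γ ρ g (b i : M ⊗[ZMod p] B) = b i := by
  let b0 := Module.Basis.ofSpan (span_inv_V J γ ρ hρ)
  refine ⟨b0.reindex (b0.indexEquiv (skB J sb M)), fun i g => ?_⟩
  rw [Module.Basis.reindex_apply]
  exact Module.Basis.ofSpan_subset (span_inv_V J γ ρ hρ) (Set.mem_range_self _) g

end descent

end MP7fU
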