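import Pool.Agent.Lib.MP_7f581e_ntL.U5
import Pool.Agent.Lib.MP_7f581e_ntL.U6

/-!
Unitary generic Lang torsor, part 7: the invariants.
-/

set_option autoImplicit false
set_option linter.unusedSectionVars false

universe u v

namespace MP7fU

open TensorProduct MP7fS

variable {p : ℕ} [Fact p.Prime] {B : Type} [Ring B] [Finite B] [Algebra (ZMod p) B]
  (J : AInv p B)
variable {κ : Type} [Fintype κ] [DecidableEq κ] (sb : Module.Basis κ (ZMod p) (Sk J))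
variable {c : B}
variable {K M : Type u} [Field K] [Field M] [Algebra K M] [Algebra (ZMod p) M]
variable (L : Type u) [Field L] [Algebra (MvPolynomial κ M) L]
  [IsFractionRing (MvPolynomial κ M) L] [Algebra M L] [IsScalarTower M (MvPolynomial κ M) L]
  [Algebra (ZMod p) L] [CharP L p]
variable (hG : Good J c)

theorem frob_skv {R : Type*} [Field R] [CharP R p] [Algebra (ZMod p) R] (Y : κ → R) :
    frob R (skv J sb Y) = skv J sb (fun k => Y k ^ p) := by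
  rw [frob, tmap_skv]
  rfl

theorem skv_sub {R : Type*} [Field R] [Algebra (ZMod p) R] (Y Y' : κ → R) :
    skv J sb Y - skv J sb Y' = skv J sb (fun k => Y k - Y' k) := by
  rw [skv, skv, skv, ← Finset.sum_sub_distrib]
  exact Finset.sum_congr rfl fun k _ => by rw [sub_smul]

include hG in
/-- `y - Frob y` is a unit. -/
theorem isUnit_gy_sub : IsUnit (cy J sb c (xk L M) - frob L (cy J sb c (xk L M))) := by
  obtain ⟨s₀, h1, h2⟩ := hG.hs
  obtain ⟨t, rfl⟩ := exists_skv J sb h1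
  have hp : 1 < p := (Fact.out : p.Prime).one_lt
  have hη : ∀ k, ∃ η : AlgebraicClosure (ZMod p), η - η ^ p = t k := by
    intro k
    obtain ⟨η, hη⟩ := IsAlgClosed.exists_root
      (Polynomial.X ^ p - Polynomial.X + Polynomial.C (t k)) (by
        have hd : (Polynomial.X ^ p - Polynomial.X + Polynomial.C (t k) :
            Polynomial (AlgebraicClosure (ZMod p))).natDegree = p := by
          rw [Polynomial.natDegree_add_C, FiniteField.X_pow_card_sub_X_natDegree_eq _ hp]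
        intro h0
        have h4 := Polynomial.natDegree_eq_of_degree_eq_some (n := 0) (by
          rw [h0]
          rfl)
        omega)
    refine ⟨η, ?_⟩
    have h3 : η ^ p - η + t k = 0 := by
      simpa [Polynomial.IsRoot] using hη
    linear_combination -h3
  choose η hη using hη
  have h3 : tmap (p := p) (i0 (p := p) L M) (RingHom.id B)
      (skv J sb (fun k => MvPolynomial.X k - MvPolynomial.X k ^ p)) =
      cy J sb c (xk L M) - frob L (cy J sb c (xk L M)) := by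
    rw [tmap_skv, cy, map_add, frob_one_tmul, frob_skv, add_sub_add_left_eq_sub, skv_sub]
    congr 1
    ext k
    rw [map_sub, map_pow, i0_X]
  rw [← h3]
  apply generic_unit _ (ev η) _ _ (i0_injective L)
  rw [tmap_skv]
  have h4 : (fun k => ev η (MvPolynomial.X k - MvPolynomial.X k ^ p)) = t := by
    ext k
    rw [map_sub, map_pow, ev_X, hη]
  rw [h4]
  exact h2

/-- The Lang quotient of the generic unitary element. -/
noncomputable def gA (M : Type u) [Field M] [Algebra (ZMod p) M] [Algebra (MvPolynomial κ M) L]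
    [IsFractionRing (MvPolynomial κ M) L] [Algebra M L] [IsScalarTower M (MvPolynomial κ M) L] :
    (L ⊗[ZMod p] B)ˣ :=
  Units.map (frob L : L ⊗[ZMod p] B →+* L ⊗[ZMod p] B).toMonoidHom (gU J sb L hG M) *
    (gU J sb L hG M)⁻¹

theorem coe_gA : ((gA J sb L hG M : (L ⊗[ZMod p] B)ˣ) : L ⊗[ZMod p] B) =
    frob L ((gU J sb L hG M : (L ⊗[ZMod p] B)ˣ) : L ⊗[ZMod p] B) *
      (((gU J sb L hG M)⁻¹ : (L ⊗[ZMod p] B)ˣ) : L ⊗[ZMod p] B) := rfl

theorem gA_mul : ((gA J sb L hG M : (L ⊗[ZMod p] B)ˣ) : L ⊗[ZMod p] B) *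
    ((gU J sb L hG M : (L ⊗[ZMod p] B)ˣ) : L ⊗[ZMod p] B) =
      frob L ((gU J sb L hG M : (L ⊗[ZMod p] B)ˣ) : L ⊗[ZMod p] B) := by
  rw [coe_gA, mul_assoc, Units.inv_mul, mul_one]

theorem jR_frob {R : Type*} [Field R] [CharP R p] [Algebra (ZMod p) R] (z : R ⊗[ZMod p] B) :
    jR J R (frob R z) = frob R (jR J R z) :=
  jR_tmap J (frobenius R p) (RingHom.id B) (fun _ => rfl) z

theorem coe_gU_inv : (((gU J sb L hG M)⁻¹ : (L ⊗[ZMod p] B)ˣ) : L ⊗[ZMod p] B) =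
    jR J L ((gU J sb L hG M : (L ⊗[ZMod p] B)ˣ) : L ⊗[ZMod p] B) := rfl

theorem jR_gA : jR J L ((gA J sb L hG M : (L ⊗[ZMod p] B)ˣ) : L ⊗[ZMod p] B) *
    ((gA J sb L hG M : (L ⊗[ZMod p] B)ˣ) : L ⊗[ZMod p] B) = 1 := by
  rw [coe_gA, jR_mul, coe_gU_inv, jR_jR, jR_frob, ← coe_gU_inv]
  set x := gU J sb L hG M with hx
  calc (x : L ⊗[ZMod p] B) * frob L ((x⁻¹ : (L ⊗[ZMod p] B)ˣ) : L ⊗[ZMod p] B) *
        (frob L (x : L ⊗[ZMod p] B) * ((x⁻¹ : (L ⊗[ZMod p] B)ˣ) : L ⊗[ZMod p] B))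
      = x * (frob L ((x⁻¹ : (L ⊗[ZMod p] B)ˣ) : L ⊗[ZMod p] B) *
        frob L (x : L ⊗[ZMod p] B)) * ((x⁻¹ : (L ⊗[ZMod p] B)ˣ) : L ⊗[ZMod p] B) := by noncomm_ring
    _ = 1 := by rw [← map_mul, Units.inv_mul, map_one, mul_one, Units.mul_inv]

/-- `1 - a` is a unit. -/
theorem isUnit_one_sub_gA :
    IsUnit (1 - ((gA J sb L hG M : (L ⊗[ZMod p] B)ˣ) : L ⊗[ZMod p] B)) := by
  have h1 := isUnit_gy_sub J sb (M := M) L hG
  set x := gU J sb L hG M with hx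
  set y := gyu J sb L hG M with hy
  have hfy : IsUnit (frob L ((y⁻¹ : (L ⊗[ZMod p] B)ˣ) : L ⊗[ZMod p] B)) :=
    (Units.isUnit y⁻¹).map _
  have h2 : frob L ((y⁻¹ : (L ⊗[ZMod p] B)ˣ) : L ⊗[ZMod p] B) *
      frob L (y : L ⊗[ZMod p] B) = 1 := by
    rw [← map_mul, Units.inv_mul, map_one]
  have h3 : 1 - ((gA J sb L hG M : (L ⊗[ZMod p] B)ˣ) : L ⊗[ZMod p] B) =
      frob L ((y⁻¹ : (L ⊗[ZMod p] B)ˣ) : L ⊗[ZMod p] B) *
        ((y : L ⊗[ZMod p] B) - frob L (y : L ⊗[ZMod p] B)) *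
        ((y⁻¹ : (L ⊗[ZMod p] B)ˣ) : L ⊗[ZMod p] B) *
        ((x⁻¹ : (L ⊗[ZMod p] B)ˣ) : L ⊗[ZMod p] B) := by
    have h4 : frob L ((y⁻¹ : (L ⊗[ZMod p] B)ˣ) : L ⊗[ZMod p] B) *
        ((y : L ⊗[ZMod p] B) - frob L (y : L ⊗[ZMod p] B)) *
        ((y⁻¹ : (L ⊗[ZMod p] B)ˣ) : L ⊗[ZMod p] B) =
        (x : L ⊗[ZMod p] B) - frob L (x : L ⊗[ZMod p] B) := by
      rw [mul_sub, h2, sub_mul, mul_assoc, Units.mul_inv, mul_one, one_mul]
      have h5 : (x : L ⊗[ZMod p] B) = 1 - ((y⁻¹ : (L ⊗[ZMod p] B)ˣ) : L ⊗[ZMod p] B) := rfl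
      rw [h5, map_sub, map_one]
      abel
    rw [h4, sub_mul, Units.mul_inv, coe_gA]
  rw [h3]
  exact ((hfy.mul h1).mul (Units.isUnit _)).mul (Units.isUnit _)

/-- `1 - a` as a unit. -/
noncomputable def gW (M : Type u) [Field M] [Algebra (ZMod p) M] [Algebra (MvPolynomial κ M) L]
    [IsFractionRing (MvPolynomial κ M) L] [Algebra M L] [IsScalarTower M (MvPolynomial κ M) L] :
    (L ⊗[ZMod p] B)ˣ := (isUnit_one_sub_gA J sb (M := M) L hG).unit

theorem coe_gW : ((gW J sb L hG M : (L ⊗[ZMod p] B)ˣ) : L ⊗[ZMod p] B) =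
    1 - ((gA J sb L hG M : (L ⊗[ZMod p] B)ˣ) : L ⊗[ZMod p] B) := rfl

theorem gW_skew : (((gW J sb L hG M)⁻¹ : (L ⊗[ZMod p] B)ˣ) : L ⊗[ZMod p] B) +
    jR J L (((gW J sb L hG M)⁻¹ : (L ⊗[ZMod p] B)ˣ) : L ⊗[ZMod p] B) = 1 :=
  cay_skew J _ (jR_gA J sb L hG) (coe_gW J sb L hG)

variable {Γ : Type} [Group Γ] (γ : Γ ≃* (M ≃ₐ[K] M)) (ρ : Γ →* (B ≃+* B))
  (hρ : ∀ g b, ρ g (J.j b) = J.j (ρ g b))

theorem gA_inv (h : J.U ⋊[uactU J ρ hρ] Γ) :
    tmap (PsiU J sb L hG γ ρ hρ h) (ρ h.right : B →+* B)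
      ((gA J sb L hG M : (L ⊗[ZMod p] B)ˣ) : L ⊗[ZMod p] B) =
      ((gA J sb L hG M : (L ⊗[ZMod p] B)ˣ) : L ⊗[ZMod p] B) := by
  have h1 := congrArg (tmap (PsiU J sb L hG γ ρ hρ h) (ρ h.right : B →+* B))
    (gA_mul J sb (M := M) L hG)
  rw [map_mul, ← frob_tmap, PsiU_gU, map_mul, frob_one_tmul, ← mul_assoc, ← gA_mul] at h1
  have h2 : IsUnit ((1 : L) ⊗ₜ[ZMod p] ((h.left : Bˣ) : B)) := by
    have := (h.left : Bˣ).isUnit.map
      (Algebra.TensorProduct.includeRight : B →ₐ[ZMod p] L ⊗[ZMod p] B)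
    exact this
  exact (Units.isUnit (gU J sb L hG M)).mul_right_cancel (h2.mul_right_cancel h1)

/-- The coordinates of `(1 - a)⁻¹ - c'`. -/
noncomputable def bet (M : Type u) [Field M] [Algebra (ZMod p) M] [Algebra (MvPolynomial κ M) L]
    [IsFractionRing (MvPolynomial κ M) L] [Algebra M L] [IsScalarTower M (MvPolynomial κ M) L]
    (hG : Good J c) (b : Module.Basis κ M (VV J M)) {c' : M ⊗[ZMod p] B}
    (hc' : c' + jR J M c' = 1) : κ → L := fun k =>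
  (bbV J sb (algebraMap M L) b).repr
    (⟨(((gW J sb L hG M)⁻¹ : (L ⊗[ZMod p] B)ˣ) : L ⊗[ZMod p] B) -
      tmap (algebraMap M L) (RingHom.id B) c', by
        rw [mem_VV, map_sub, jR_tmap J (algebraMap M L) (RingHom.id B) (fun _ => rfl)]
        have h1 := gW_skew J sb (M := M) L hG
        have h2 := congrArg (tmap (p := p) (algebraMap M L) (RingHom.id B)) hc'
        rw [map_add, map_one] at h2
        calc _ = ((((gW J sb L hG M)⁻¹ : (L ⊗[ZMod p] B)ˣ) : L ⊗[ZMod p] B) +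
            jR J L (((gW J sb L hG M)⁻¹ : (L ⊗[ZMod p] B)ˣ) : L ⊗[ZMod p] B)) -
            (tmap (algebraMap M L) (RingHom.id B) c' +
              tmap (algebraMap M L) (RingHom.id B) (jR J M c')) := by abel
          _ = 0 := by rw [h1, h2, sub_self]⟩ : VV J L) k

variable (b : Module.Basis κ M (VV J M)) {c' : M ⊗[ZMod p] B} (hc' : c' + jR J M c' = 1)

theorem sum_bet : (((gW J sb L hG M)⁻¹ : (L ⊗[ZMod p] B)ˣ) : L ⊗[ZMod p] B) =
    tmap (algebraMap M L) (RingHom.id B) c' + ∑ k, bet J sb L M hG b hc' k •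
      tmap (algebraMap M L) (RingHom.id B) (b k : M ⊗[ZMod p] B) := by
  have h1 : ∑ k, bet J sb L M hG b hc' k • bbV J sb (algebraMap M L) b k = _ :=
    (bbV J sb (algebraMap M L) b).sum_repr _
  have h2 := congrArg Subtype.val h1
  rw [AddSubmonoidClass.coe_finsetSum] at h2
  have h3 : ∀ k, ((bet J sb L M hG b hc' k • bbV J sb (algebraMap M L) b k : VV J L) :
      L ⊗[ZMod p] B) = bet J sb L M hG b hc' k •
      tmap (algebraMap M L) (RingHom.id B) (b k : M ⊗[ZMod p] B) := by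
    intro k
    rw [Submodule.coe_smul, coe_bbV]
  rw [Finset.sum_congr rfl fun k _ => h3 k] at h2
  rw [h2]
  change _ = _ + (_ - _)
  rw [add_sub_cancel]

end MP7fU
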