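import Pool.Agent.Lib.MP_7f581e_ntS.LangD
import Pool.Agent.Lib.MP_7f581e_ntL.U7

/-!
Unitary generic Lang torsor, part 9: derivations.
-/

set_option autoImplicit false
set_option linter.unusedSectionVars false

universe u v

namespace MP7fU

open TensorProduct MP7fS

variable {p : ℕ} [Fact p.Prime] {B : Type} [Ring B] [Finite B] [Algebra (ZMod p) B]
  (J : AInv p B)
variable {κ : Type} [Fintype κ] [DecidableEq κ] (sb : Module.Basis κ (ZMod p) (Sk J))
variable {c : B}
variable {K M : Type u} [Field K] [Field M] [Algebra K M] [Algebra (ZMod p) M]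
variable (L : Type u) [Field L] [Algebra (MvPolynomial κ M) L]
  [IsFractionRing (MvPolynomial κ M) L] [Algebra M L] [IsScalarTower M (MvPolynomial κ M) L]
  [Algebra (ZMod p) L] [CharP L p] [Algebra K L] [IsScalarTower K M L]
variable (hG : Good J c)
variable (b : Module.Basis κ M (VV J M)) {c' : M ⊗[ZMod p] B} (hc' : c' + jR J M c' = 1)

section der

variable {F : Type u} [Field F] [Algebra F L] {Ω : Type*} [AddCommGroup Ω] [Module L Ω]
  [Module F Ω] (D : Derivation F L Ω)

/-- The field of constants. -/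
def dK : Subfield L where
  carrier := {z | D z = 0}
  mul_mem' := by
    intro x y hx hy
    have hx' : D x = 0 := hx
    have hy' : D y = 0 := hy
    change D (x * y) = 0
    rw [D.leibniz, hx', hy', smul_zero, smul_zero, add_zero]
  one_mem' := D.map_one_eq_zero
  add_mem' := by
    intro x y hx hy
    have hx' : D x = 0 := hx
    have hy' : D y = 0 := hy
    change D (x + y) = 0
    rw [map_add, hx', hy', add_zero]
  zero_mem' := map_zero D
  neg_mem' := by
    intro x hx
    have hx' : D x = 0 := hx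
    change D (-x) = 0
    rw [map_neg, hx', neg_zero]
  inv_mem' := by
    intro x hx
    have hx' : D x = 0 := hx
    change D (x⁻¹) = 0
    rw [D.leibniz_inv, hx', smul_zero]

theorem mem_dK {z : L} : z ∈ dK L D ↔ D z = 0 := Iff.rfl

include hG in
theorem der_zero (hM : ∀ m : M, D (algebraMap M L m) = 0)
    (ha : ∀ i, D (bet J sb L M hG b hc' i) = 0) (z : L) : D z = 0 := by
  classical
  let f : dK L D →+* L := (dK L D).subtype
  let g : M →+* dK L D := (algebraMap M L).codRestrict (dK L D) hM
  have hfg : f.comp g = algebraMap M L := rfl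
  let _ : Algebra (ZMod p) (dK L D) := (g.comp (algebraMap (ZMod p) M)).toAlgebra
  have hzM : ∀ w : M ⊗[ZMod p] B, tmap (p := p) (algebraMap M L) (RingHom.id B) w ∈
      (tmap (p := p) f (RingHom.id B)).range := by
    intro w
    refine ⟨tmap g (RingHom.id B) w, ?_⟩
    rw [tmap_comp]
    rfl
  have hsm : ∀ (r : L) (w : L ⊗[ZMod p] B), D r = 0 →
      w ∈ (tmap (p := p) f (RingHom.id B)).range →
      r • w ∈ (tmap (p := p) f (RingHom.id B)).range := by
    rintro r _ hr ⟨w, rfl⟩
    exact ⟨(⟨r, hr⟩ : dK L D) • w, by rw [tmap_smul]; rfl⟩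
  have h1 : (((gW J sb L hG M)⁻¹ : (L ⊗[ZMod p] B)ˣ) : L ⊗[ZMod p] B) ∈
      (tmap (p := p) f (RingHom.id B)).range := by
    rw [sum_bet J sb L hG b hc']
    exact add_mem (hzM _) (sum_mem fun k _ => hsm _ _ (ha k) (hzM _))
  have h2 := desc_inv f _ h1
  rw [inv_inv, coe_gW] at h2
  have h3 : ((gA J sb L hG M : (L ⊗[ZMod p] B)ˣ) : L ⊗[ZMod p] B) ∈
      (tmap (p := p) f (RingHom.id B)).range := by
    have := sub_mem (one_mem _) h2
    rwa [sub_sub_cancel] at this
  obtain ⟨A', hA'⟩ := h3
  let e := Module.finBasis (ZMod p) B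
  set A := lmm e ((gA J sb L hG M : (L ⊗[ZMod p] B)ˣ) : L ⊗[ZMod p] B) with hA
  have hDA : ∀ i k, D (A i k) = 0 := by
    intro i k
    rw [hA, ← hA', lmm_tmap, Matrix.map_apply]
    exact (lmm e A' i k).2
  set x := fun i => (eb e L).repr ((gU J sb L hG M : (L ⊗[ZMod p] B)ˣ) : L ⊗[ZMod p] B) i with hx
  have hp1 : ∀ i, x i ^ p = ∑ k, A i k * x k := by
    intro i
    have h2 := congrFun (lmm_mulVec e ((gA J sb L hG M : (L ⊗[ZMod p] B)ˣ) : L ⊗[ZMod p] B)
      ((gU J sb L hG M : (L ⊗[ZMod p] B)ˣ) : L ⊗[ZMod p] B)) i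
    rw [gA_mul, frob, repr_tmap, frobenius_def] at h2
    rw [hx]
    dsimp only
    rw [← h2, Matrix.mulVec, dotProduct]
  have hp3 : ∀ i, ∑ k, A i k • D (x k) = 0 := by
    intro i
    have h4 := congrArg D (hp1 i)
    rw [D.leibniz_pow, map_sum] at h4
    have h5 : ∀ z : Ω, p • z = 0 := by
      intro z
      rw [← Nat.cast_smul_eq_nsmul L, CharP.cast_eq_zero, zero_smul]
    rw [h5] at h4
    rw [h4]
    refine Finset.sum_congr rfl fun k _ => ?_
    rw [D.leibniz, hDA, smul_zero, add_zero]
  have hAu : IsUnit A.det := isUnit_lmm e (Units.isUnit (gA J sb L hG M))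
  have hDx : ∀ i, D (x i) = 0 := by
    intro i
    have h6 : ∑ j, A⁻¹ i j • ∑ k, A j k • D (x k) = D (x i) := by
      have h7 : ∀ j, A⁻¹ i j • ∑ k, A j k • D (x k) = ∑ k, (A⁻¹ i j * A j k) • D (x k) := by
        intro j
        rw [Finset.smul_sum]
        refine Finset.sum_congr rfl fun k _ => ?_
        rw [smul_smul]
      rw [Finset.sum_congr rfl fun j _ => h7 j, Finset.sum_comm]
      have h8 : ∀ k, ∑ j, (A⁻¹ i j * A j k) • D (x k) =
          (1 : Matrix (Fin (Module.finrank (ZMod p) B)) (Fin (Module.finrank (ZMod p) B)) L) i k •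
            D (x k) := by
        intro k
        rw [← Finset.sum_smul, ← Matrix.nonsing_inv_mul A hAu, Matrix.mul_apply]
      rw [Finset.sum_congr rfl fun k _ => h8 k, Finset.sum_eq_single i]
      · rw [Matrix.one_apply_eq, one_smul]
      · intro k _ hk
        rw [Matrix.one_apply_ne hk.symm, zero_smul]
      · intro h
        exact absurd (Finset.mem_univ i) h
    rw [← h6]
    refine Finset.sum_eq_zero fun j _ => ?_
    rw [hp3, smul_zero]
  have h9 : ((gU J sb L hG M : (L ⊗[ZMod p] B)ˣ) : L ⊗[ZMod p] B) ∈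
      (tmap (p := p) f (RingHom.id B)).range := by
    refine ⟨vec e (fun i => (⟨x i, hDx i⟩ : dK L D)), ?_⟩
    rw [tmap_vec]
    exact vec_repr e _
  obtain ⟨r, rfl⟩ := surj_of_gU J sb (M := M) L hG f (fun m => ⟨g m, rfl⟩) h9 z
  exact r.2

end der

variable {F : Type u} [Field F] [Algebra F L] [Algebra K F] [IsScalarTower K F L]

include sb hG b in
theorem formallyUnramifiedU [Algebra.IsSeparable K M]
    (haF : ∀ i, ∃ z : F, algebraMap F L z = bet J sb L M hG b hc' i) :
    Algebra.FormallyUnramified F L := by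
  rw [Algebra.formallyUnramified_iff]
  have h0 : ∀ z : L, KaehlerDifferential.D F L z = 0 := by
    intro z
    apply der_zero J sb L hG b hc' (KaehlerDifferential.D F L)
    · exact der_M (K := K) L (KaehlerDifferential.D F L)
    · intro i
      obtain ⟨z, hz⟩ := haF i
      rw [← hz, Derivation.map_algebraMap]
  have h1 := KaehlerDifferential.span_range_derivation F L
  have h2 : Submodule.span L (Set.range (KaehlerDifferential.D F L)) = ⊥ := by
    rw [Submodule.span_eq_bot]
    rintro _ ⟨z, rfl⟩
    exact h0 z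
  rw [h2] at h1
  exact (Submodule.subsingleton_iff L).mp (subsingleton_of_bot_eq_top h1)

include sb hG b in
theorem finite_separableU [FiniteDimensional K M] [Algebra.IsSeparable K M]
    (haF : ∀ i, ∃ z : F, algebraMap F L z = bet J sb L M hG b hc' i) :
    FiniteDimensional F L ∧ Algebra.IsSeparable F L := by
  have h1 : Algebra.FormallyUnramified F L := formallyUnramifiedU (K := K) J sb L hG b hc' haF
  have h2 : Algebra.EssFiniteType (MvPolynomial κ M) L :=
    Algebra.EssFiniteType.of_isLocalization L (nonZeroDivisors (MvPolynomial κ M))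
  have h3 : Algebra.EssFiniteType M L := Algebra.EssFiniteType.comp M (MvPolynomial κ M) L
  have h4 : Algebra.EssFiniteType K L := Algebra.EssFiniteType.comp K M L
  have h5 : Algebra.EssFiniteType F L := Algebra.EssFiniteType.of_comp K F L
  exact ⟨Algebra.FormallyUnramified.finite_of_free F L,
    Algebra.FormallyUnramified.isSeparable F L⟩

end MP7fU
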