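import Pool.Agent.Lib.MP_7f581e_ntS.LangF
import Pool.Agent.Lib.MP_7f581e_ntL.U8
import Pool.Agent.Lib.MP_7f581e_ntL.U9

/-!
Unitary generic Lang torsor, part 10: conclusion.
-/

set_option autoImplicit false
set_option linter.unusedSectionVars false

universe u v

namespace MP7fU

open TensorProduct MP7fS MP7fR

section

variable {p : ℕ} [Fact p.Prime] {B : Type} [Ring B] [Finite B] [Algebra (ZMod p) B]
  (J : AInv p B)
variable {κ : Type} [Fintype κ] [DecidableEq κ] (sb : Module.Basis κ (ZMod p) (Sk J))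
variable {c : B}
variable {K M : Type u} [Field K] [Field M] [Algebra K M] [Algebra (ZMod p) M]
variable (L : Type u) [Field L] [Algebra (MvPolynomial κ M) L]
  [IsFractionRing (MvPolynomial κ M) L] [Algebra M L] [IsScalarTower M (MvPolynomial κ M) L]
  [Algebra (ZMod p) L] [CharP L p] [Algebra K L] [IsScalarTower K M L]
variable (hG : Good J c)
variable {Γ : Type} [Group Γ] [Finite Γ] (γ : Γ ≃* (M ≃ₐ[K] M)) (ρ : Γ →* (B ≃+* B))
  (hρ : ∀ g b, ρ g (J.j b) = J.j (ρ g b))
variable {b : Module.Basis κ M (VV J M)} {c' : M ⊗[ZMod p] B} (hc' : c' + jR J M c' = 1)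
  (hb : ∀ i g, sg γ ρ g (b i : M ⊗[ZMod p] B) = b i) (hcf : ∀ g, sg γ ρ g c' = c')

/-- The field of invariants. -/
noncomputable def FU (K : Type u) [Field K] [Algebra K L] (hG : Good J c)
    (b : Module.Basis κ M (VV J M)) {c' : M ⊗[ZMod p] B} (hc' : c' + jR J M c' = 1) :
    IntermediateField K L :=
  IntermediateField.adjoin K (Set.range (bet J sb L M hG b hc'))

include hb hcf in
theorem PsiU_F (h : J.U ⋊[uactU J ρ hρ] Γ) {z : L} (hz : z ∈ FU J sb L K hG b hc') :
    PsiU J sb L hG γ ρ hρ h z = z := by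
  unfold FU at hz
  induction hz using IntermediateField.adjoin_induction with
  | mem x hx =>
    obtain ⟨i, rfl⟩ := hx
    exact PsiU_bet J sb L hG γ ρ hρ hc' hb hcf h i
  | algebraMap k =>
    rw [IsScalarTower.algebraMap_apply K M L, PsiU_M, AlgEquiv.commutes]
  | add x y _ _ hx hy => rw [map_add, hx, hy]
  | inv x _ hx => rw [map_inv₀, hx]
  | mul x y _ _ hx hy => rw [map_mul, hx, hy]

/-- The action as automorphisms over the field of invariants. -/
noncomputable def PsiFU : (J.U ⋊[uactU J ρ hρ] Γ) →*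
    (L →ₐ[FU J sb L K hG b hc'] L) where
  toFun h := { PsiU J sb L hG γ ρ hρ h with
    commutes' := fun z => PsiU_F J sb L hG γ ρ hρ hc' hb hcf h z.2 }
  map_one' := by
    refine AlgHom.ext fun z => ?_
    exact congrArg (fun f : L →+* L => f z) (PsiU_one J sb (M := M) L hG γ ρ hρ)
  map_mul' h h' := by
    refine AlgHom.ext fun z => ?_
    exact congrArg (fun f : L →+* L => f z) (PsiU_comp J sb (M := M) L hG γ ρ hρ h h').symm

theorem PsiFU_inj : Function.Injective (PsiFU J sb L hG γ ρ hρ hc' hb hcf) := by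
  intro h h' hh
  apply PsiU_inj J sb L hG γ ρ hρ
  refine RingHom.ext fun z => ?_
  exact congrArg (fun f : L →ₐ[FU J sb L K hG b hc'] L => f z) hh

include hb hcf in
/-- Every embedding is in the orbit of a given one. -/
theorem exists_embU [Normal K M] {S : Type*} [Field S] [Algebra (ZMod p) S] [CharP S p]
    [Algebra L S] [Algebra M S] [Algebra K S] [IsScalarTower K M S] [IsScalarTower M L S]
    [IsScalarTower K L S] (f : L →+* S)
    (hf : ∀ z : L, z ∈ FU J sb L K hG b hc' → f z = algebraMap L S z) :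
    ∃ h : J.U ⋊[uactU J ρ hρ] Γ, f = (algebraMap L S).comp (PsiU J sb L hG γ ρ hρ h) := by
  let fK : L →ₐ[K] S := { f with
    commutes' := fun k => by
      have h1 := hf (algebraMap K L k) (IntermediateField.algebraMap_mem _ k)
      rw [← IsScalarTower.algebraMap_apply K L S] at h1
      exact h1 }
  let s := fK.restrictNormal M
  have hs : Function.Bijective s := AlgHom.normal_bijective K M M s
  let s' : M ≃ₐ[K] M := AlgEquiv.ofBijective s hs
  have h2 : ∀ m : M, f (algebraMap M L m) = algebraMap L S (algebraMap M L (s' m)) := by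
    intro m
    have h3 := fK.restrictNormal_commutes M m
    rw [← IsScalarTower.algebraMap_apply M L S]
    exact h3.symm
  refine exists_PsiU J sb L hG γ ρ hρ hc' hb hcf (g := γ.symm s') ?_ ?_
  · intro m
    rw [h2, MulEquiv.apply_symm_apply]
  · intro i
    apply hf
    exact IntermediateField.subset_adjoin _ _ (Set.mem_range_self i)

theorem mem_FU (i : κ) : ∃ z : FU J sb L K hG b hc',
    algebraMap (FU J sb L K hG b hc') L z = bet J sb L M hG b hc' i :=
  ⟨⟨bet J sb L M hG b hc' i, IntermediateField.subset_adjoin _ _ (Set.mem_range_self i)⟩, rfl⟩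

include hb hcf in
theorem galois_FU [FiniteDimensional K M] [IsGalois K M] :
    FiniteDimensional (FU J sb L K hG b hc') L ∧ IsGalois (FU J sb L K hG b hc') L ∧
      Nonempty ((L ≃ₐ[FU J sb L K hG b hc'] L) ≃* (J.U ⋊[uactU J ρ hρ] Γ)) := by
  obtain ⟨hfd, hsep⟩ := finite_separableU (K := K) J sb L hG b hc'
    (F := FU J sb L K hG b hc') (mem_FU J sb L hG hc')
  let C := AlgebraicClosure L
  have hC : CharP C p := charP_of_injective_algebraMap (algebraMap L C).injective p
  have hfin : Finite Bˣ := inferInstance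
  have hfinH : Finite (J.U ⋊[uactU J ρ hρ] Γ) :=
    Finite.of_equiv _ SemidirectProduct.equivProd.symm
  have h1 : Nat.card (L →ₐ[FU J sb L K hG b hc'] C) =
      Module.finrank (FU J sb L K hG b hc') L := by
    rw [Nat.card_eq_fintype_card]
    exact AlgHom.card (FU J sb L K hG b hc') L C
  let Θ : (J.U ⋊[uactU J ρ hρ] Γ) → (L →ₐ[FU J sb L K hG b hc'] C) := fun h =>
    (IsScalarTower.toAlgHom (FU J sb L K hG b hc') L C).comp
      (PsiFU J sb L hG γ ρ hρ hc' hb hcf h)
  have hΘ : Function.Surjective Θ := by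
    intro f
    obtain ⟨h, hh⟩ := exists_embU J sb L hG γ ρ hρ hc' hb hcf (S := C) (f : L →+* C) (by
      intro z hz
      have h2 := f.commutes ⟨z, hz⟩
      exact h2)
    refine ⟨h, AlgHom.ext fun z => ?_⟩
    exact congrArg (fun f : L →+* C => f z) hh.symm
  have h2 : Nat.card (L →ₐ[FU J sb L K hG b hc'] C) ≤ Nat.card (J.U ⋊[uactU J ρ hρ] Γ) :=
    Nat.card_le_card_of_surjective Θ hΘ
  have h3 : Nat.card (J.U ⋊[uactU J ρ hρ] Γ) ≤ Nat.card (L →ₐ[FU J sb L K hG b hc'] L) :=
    Nat.card_le_card_of_injective _ (PsiFU_inj J sb L hG γ ρ hρ hc' hb hcf)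
  let E : (L ≃ₐ[FU J sb L K hG b hc'] L) ≃* (L →ₐ[FU J sb L K hG b hc'] L) :=
    algEquivEquivAlgHom _ _
  have h4 : Nat.card (L ≃ₐ[FU J sb L K hG b hc'] L) =
      Nat.card (L →ₐ[FU J sb L K hG b hc'] L) :=
    Nat.card_congr E.toEquiv
  have h5 : Nat.card (L ≃ₐ[FU J sb L K hG b hc'] L) ≤
      Module.finrank (FU J sb L K hG b hc') L := by
    rw [Nat.card_eq_fintype_card]
    exact AlgEquiv.card_le
  have h6 : Nat.card (L ≃ₐ[FU J sb L K hG b hc'] L) =
      Module.finrank (FU J sb L K hG b hc') L := by omega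
  have hbij : Function.Bijective (PsiFU J sb L hG γ ρ hρ hc' hb hcf) := by
    refine (Nat.bijective_iff_injective_and_card _).mpr
      ⟨PsiFU_inj J sb L hG γ ρ hρ hc' hb hcf, by omega⟩
  exact ⟨hfd, IsGalois.of_card_aut_eq_finrank _ _ h6,
    ⟨E.trans (MulEquiv.ofBijective _ hbij).symm⟩⟩

open scoped IntermediateField.algebraAdjoinAdjoin in
include sb in
theorem algebraicIndependent_bet [FiniteDimensional K M] [IsGalois K M]
    [Algebra.IsAlgebraic (FU J sb L K hG b hc') L] :
    AlgebraicIndependent K (bet J sb L M hG b hc') := by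
  have h1 : Algebra.IsAlgebraic
      (Algebra.adjoin K (Set.range (bet J sb L M hG b hc'))) L := by
    have h2 : Algebra.IsAlgebraic
        (IntermediateField.adjoin K (Set.range (bet J sb L M hG b hc'))) L :=
      inferInstanceAs (Algebra.IsAlgebraic (FU J sb L K hG b hc') L)
    exact (IsFractionRing.comap_isAlgebraic_iff
      (K := IntermediateField.adjoin K (Set.range (bet J sb L M hG b hc')))).mpr h2
  have h2 : IsTranscendenceBasis K (bet J sb L M hG b hc') := by
    apply Algebra.IsAlgebraic.isTranscendenceBasis_of_lift_le_trdeg_of_finite K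
    rw [← trdeg_L (K := K) (M := M) (ι := κ) L, Cardinal.lift_id']
  exact h2.1

end

/-- **Unitary generic Lang torsor.** Let `K` be a field of characteristic `p`, let `Γ` be the
group of a finite Galois extension of `K` which acts on the finite ring `B` of characteristic
`p` with anti-involution `J`, for which the Cayley transform is good. Then the semidirect
product of the unitary group of `B` and `Γ` occurs over a rational function field over `K`. -/
theorem lang_unitary {p : ℕ} [Fact p.Prime] {B : Type} [Ring B] [Finite B] [Algebra (ZMod p) B]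
    (J : AInv p B) {c : B} (hG : Good J c)
    {K : Type u} [Field K] [CharP K p] {Γ : Type} [Group Γ] [Finite Γ] (hΓ : Occurs Γ K)
    (ρ : Γ →* (B ≃+* B)) (hρ : ∀ g b, ρ g (J.j b) = J.j (ρ g b)) :
    Occurs (J.U ⋊[uactU J ρ hρ] Γ)
      (FractionRing (MvPolynomial (Fin (Module.finrank (ZMod p) (Sk J))) K)) := by
  obtain ⟨M, _, _, hfd, hgal, ⟨γ⟩⟩ := hΓ
  have hM : CharP M p := charP_of_injective_algebraMap (algebraMap K M).injective p
  let _ : Algebra (ZMod p) M := ZMod.algebra M p
  let sb := Module.finBasis (ZMod p) (Sk J)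
  let κ := Fin (Module.finrank (ZMod p) (Sk J))
  let L := FractionRing (MvPolynomial κ M)
  have hL : CharP L p := charP_of_injective_algebraMap (algebraMap M L).injective p
  obtain ⟨c', hc', hcf⟩ := exists_c' J γ.symm ρ hρ hG.hc
  obtain ⟨b, hb⟩ := exists_inv_basis_V J sb γ.symm ρ hρ
  obtain ⟨h1, h2, ⟨h3⟩⟩ := galois_FU J sb L hG γ.symm ρ hρ hc' hb hcf
  have h4 : Algebra.IsAlgebraic (FU J sb L K hG b hc') L := Algebra.IsAlgebraic.of_finite _ _
  have h5 : AlgebraicIndependent K (bet J sb L M hG b hc') :=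
    algebraicIndependent_bet J sb L hG hc'
  have h6 : Occurs (J.U ⋊[uactU J ρ hρ] Γ)
      (IntermediateField.adjoin K (Set.range (bet J sb L M hG b hc'))) :=
    ⟨L, inferInstance, inferInstance, h1, h2, ⟨h3⟩⟩
  exact h6.of_ringEquiv h5.aevalEquivField.toRingEquiv

end MP7fU
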