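import Pool.Agent.Lib.MP_7f581e_ntL.U3

section

/-!
Unitary generic Lang torsor, part 4: the action on the rational function field.
-/

set_option autoImplicit false
set_option linter.unusedSectionVars false

universe u v

namespace MP7fU

open TensorProduct MP7fS

variable {p : ℕ} [Fact p.Prime] {B : Type} [Ring B] [Finite B] [Algebra (ZMod p) B]
  (J : AInv p B)
variable {κ : Type} [Fintype κ] [DecidableEq κ] (sb : Module.Basis κ (ZMod p) (Sk J))
variable {c : B}
variable {K M : Type u} [Field K] [Field M] [Algebra K M] [Algebra (ZMod p) M]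
variable (L : Type u) [Field L] [Algebra (MvPolynomial κ M) L]
  [IsFractionRing (MvPolynomial κ M) L] [Algebra M L] [IsScalarTower M (MvPolynomial κ M) L]
  [Algebra (ZMod p) L]
variable (hG : Good J c)

/-- `L` is generated by `M` and the variables. -/
theorem surj_of_xk {F : Type*} [Field F] (f : F →+* L)
    (hM : ∀ m : M, ∃ r, f r = algebraMap M L m) (hx : ∀ k : κ, ∃ r, f r = xk L M k) :
    Function.Surjective f := by
  have h1 : ∀ q : MvPolynomial κ M, ∃ r, f r = algebraMap (MvPolynomial κ M) L q := by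
    intro q
    induction q using MvPolynomial.induction_on with
    | C m =>
      obtain ⟨r, hr⟩ := hM m
      refine ⟨r, hr.trans ?_⟩
      rw [IsScalarTower.algebraMap_apply M (MvPolynomial κ M) L, MvPolynomial.algebraMap_eq]
    | add q q' hq hq' =>
      obtain ⟨r, hr⟩ := hq
      obtain ⟨r', hr'⟩ := hq'
      exact ⟨r + r', by rw [map_add, map_add, hr, hr']⟩
    | mul_X q k hq =>
      obtain ⟨r, hr⟩ := hq
      obtain ⟨r', hr'⟩ := hx k
      refine ⟨r * r', ?_⟩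
      rw [map_mul, map_mul, hr, hr']
      rfl
  intro z
  obtain ⟨n, d, -, rfl⟩ := IsFractionRing.div_surjective (A := MvPolynomial κ M) z
  obtain ⟨r, hr⟩ := h1 n
  obtain ⟨r', hr'⟩ := h1 d
  exact ⟨r / r', by rw [map_div₀, hr, hr']⟩

include hG in
theorem surj_of_gU {F : Type*} [Field F] [Algebra (ZMod p) F] (f : F →+* L)
    (hM : ∀ m : M, ∃ r, f r = algebraMap M L m)
    (hx : ((gU J sb L hG M : (L ⊗[ZMod p] B)ˣ) : L ⊗[ZMod p] B) ∈
      (tmap (p := p) f (RingHom.id B)).range) : Function.Surjective f := by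
  apply surj_of_xk (κ := κ) (M := M) L f hM
  have h1 : (((gyu J sb L hG M)⁻¹ : (L ⊗[ZMod p] B)ˣ) : L ⊗[ZMod p] B) ∈
      (tmap (p := p) f (RingHom.id B)).range := by
    rw [← one_sub_gU]
    exact sub_mem (one_mem _) hx
  have h2 := desc_inv f _ h1
  rw [inv_inv, coe_gyu] at h2
  exact desc_cy J sb hG.hc f h2

/-- Uniqueness for homomorphisms out of the rational function field. -/
theorem hom_ext_gU {S : Type*} [Field S] [Algebra (ZMod p) S] (r : B ≃+* B) {f f' : L →+* S}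
    (hM : ∀ m : M, f (algebraMap M L m) = f' (algebraMap M L m))
    (hx : tmap f (r : B →+* B) ((gU J sb L hG M : (L ⊗[ZMod p] B)ˣ) : L ⊗[ZMod p] B) =
      tmap (p := p) f' (r : B →+* B) ((gU J sb L hG M : (L ⊗[ZMod p] B)ˣ) : L ⊗[ZMod p] B)) :
    f = f' := by
  have h1 : ∀ g : L →+* S, tmap (p := p) g (r : B →+* B)
      (((gyu J sb L hG M)⁻¹ : (L ⊗[ZMod p] B)ˣ) : L ⊗[ZMod p] B) =
      1 - tmap g (r : B →+* B) ((gU J sb L hG M : (L ⊗[ZMod p] B)ˣ) : L ⊗[ZMod p] B) := by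
    intro g
    rw [← one_sub_gU, map_sub, map_one]
  have h2 : tmap (p := p) f (r : B →+* B) (((gyu J sb L hG M) : (L ⊗[ZMod p] B)ˣ) : L ⊗[ZMod p] B) =
      tmap (p := p) f' (r : B →+* B) (((gyu J sb L hG M) : (L ⊗[ZMod p] B)ˣ) : L ⊗[ZMod p] B) := by
    have h3 : Units.map (tmap (p := p) f (r : B →+* B)).toMonoidHom (gyu J sb L hG M)⁻¹ =
        Units.map (tmap (p := p) f' (r : B →+* B)).toMonoidHom (gyu J sb L hG M)⁻¹ := by
      apply Units.ext
      change tmap (p := p) f (r : B →+* B) _ = tmap (p := p) f' (r : B →+* B) _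
      rw [h1, h1, hx]
    rw [map_inv, map_inv] at h3
    exact congrArg Units.val (inv_injective h3)
  have h4 := congrArg (tmap (p := p) (RingHom.id S) (r.symm : B →+* B)) h2
  rw [tmap_comp, tmap_comp] at h4
  have h5 : ((r.symm : B →+* B)).comp (r : B →+* B) = RingHom.id B := by
    ext b
    exact r.symm_apply_apply b
  rw [h5, RingHom.id_comp, RingHom.id_comp, coe_gyu, tmap_cy, tmap_cy] at h4
  have h6 := cy_inj J sb h4
  apply IsLocalization.ringHom_ext (nonZeroDivisors (MvPolynomial κ M))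
  apply MvPolynomial.ringHom_ext
  · intro m
    have h1 : algebraMap (MvPolynomial κ M) L (MvPolynomial.C m) = algebraMap M L m := by
      rw [IsScalarTower.algebraMap_apply M (MvPolynomial κ M) L, MvPolynomial.algebraMap_eq]
    rw [RingHom.comp_apply, RingHom.comp_apply, h1, hM]
  · intro k
    exact congrFun h6 k

variable {Γ : Type} [Group Γ] (γ : Γ ≃* (M ≃ₐ[K] M)) (ρ : Γ →* (B ≃+* B))
  (hρ : ∀ g b, ρ g (J.j b) = J.j (ρ g b))

include hG in
theorem exists_Yh (h : J.U ⋊[uactU J ρ hρ] Γ) : ∃ Y : κ → L,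
    tmap (p := p) (RingHom.id L) (ρ h.right : B →+* B) (cy J sb c Y) *
      (1 - ((gU J sb L hG M : (L ⊗[ZMod p] B)ˣ) : L ⊗[ZMod p] B) *
        (1 ⊗ₜ ((h.left : Bˣ) : B))) = 1 ∧
    (1 - ((gU J sb L hG M : (L ⊗[ZMod p] B)ˣ) : L ⊗[ZMod p] B) *
        (1 ⊗ₜ ((h.left : Bˣ) : B))) *
      tmap (p := p) (RingHom.id L) (ρ h.right : B →+* B) (cy J sb c Y) = 1 := by
  obtain ⟨w, hw⟩ := isUnit_w J sb (M := M) L hG h.left.2
  set x := ((gU J sb L hG M : (L ⊗[ZMod p] B)ˣ) : L ⊗[ZMod p] B) * (1 ⊗ₜ ((h.left : Bˣ) : B))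
    with hx
  let W : (L ⊗[ZMod p] B)ˣ :=
    Units.map (tmap (p := p) (RingHom.id L) (ρ h.right⁻¹ : B →+* B)).toMonoidHom w
  have hJx : jR J L x * x = 1 := by
    rw [hx, jR_mul, jR_tmul]
    have hu : J.j ((h.left : Bˣ) : B) * ((h.left : Bˣ) : B) = 1 := h.left.2
    calc _ = ((1 : L) ⊗ₜ[ZMod p] J.j ((h.left : Bˣ) : B)) *
          (jR J L ((gU J sb L hG M : (L ⊗[ZMod p] B)ˣ) : L ⊗[ZMod p] B) *
            ((gU J sb L hG M : (L ⊗[ZMod p] B)ˣ) : L ⊗[ZMod p] B)) *
          ((1 : L) ⊗ₜ[ZMod p] ((h.left : Bˣ) : B)) := by noncomm_ring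
      _ = 1 := by
        rw [jR_gU, mul_one, Algebra.TensorProduct.tmul_mul_tmul, one_mul, hu,
          Algebra.TensorProduct.one_def]
  have hW : (W : L ⊗[ZMod p] B) = 1 - tmap (p := p) (RingHom.id L) (ρ h.right⁻¹ : B →+* B) x := by
    change tmap (p := p) (RingHom.id L) (ρ h.right⁻¹ : B →+* B) (w : L ⊗[ZMod p] B) = _
    rw [hw, map_sub, map_one]
  have h1 := cay_skew J W (x := tmap (p := p) (RingHom.id L) (ρ h.right⁻¹ : B →+* B) x) (by
    rw [jR_tmap J (RingHom.id L) (ρ h.right⁻¹ : B →+* B) (fun b => hρ _ b), ← map_mul, hJx,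
      map_one]) hW
  obtain ⟨Y, hY⟩ := exists_cy J sb hG.hc h1
  have h2 : tmap (p := p) (RingHom.id L) (ρ h.right : B →+* B) (cy J sb c Y) =
      ((w⁻¹ : (L ⊗[ZMod p] B)ˣ) : L ⊗[ZMod p] B) := by
    rw [← hY]
    have h3 : Units.map (tmap (p := p) (RingHom.id L) (ρ h.right : B →+* B)).toMonoidHom W = w := by
      apply Units.ext
      change tmap (p := p) (RingHom.id L) (ρ h.right : B →+* B)
        (tmap (p := p) (RingHom.id L) (ρ h.right⁻¹ : B →+* B) (w : L ⊗[ZMod p] B)) = w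
      rw [tmap_comp, rho_comp]
      exact tmap_id _
    have h4 := congrArg (fun v => v⁻¹) h3
    simp only [← map_inv] at h4
    exact congrArg Units.val h4
  refine ⟨Y, ?_, ?_⟩
  · rw [h2, ← hw, Units.inv_mul]
  · rw [h2, ← hw, Units.mul_inv]

/-- The coordinates of the translate. -/
noncomputable def Yh (M : Type u) [Field M] [Algebra (ZMod p) M] [Algebra (MvPolynomial κ M) L]
    [IsFractionRing (MvPolynomial κ M) L] [Algebra M L] [IsScalarTower M (MvPolynomial κ M) L]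
    (hG : Good J c) (h : J.U ⋊[uactU J ρ hρ] Γ) : κ → L :=
  Classical.choose (exists_Yh J sb (M := M) L hG ρ hρ h)

/-- The action on the polynomial ring. -/
noncomputable def psiU (h : J.U ⋊[uactU J ρ hρ] Γ) : MvPolynomial κ M →+* L :=
  MvPolynomial.eval₂Hom ((algebraMap M L).comp (γ h.right : M →+* M))
    (Yh J sb L ρ hρ M hG h)

theorem psiU_C (h : J.U ⋊[uactU J ρ hρ] Γ) (m : M) :
    psiU J sb L hG γ ρ hρ h (MvPolynomial.C m) = algebraMap M L (γ h.right m) := by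
  rw [psiU, MvPolynomial.coe_eval₂Hom, MvPolynomial.eval₂_C]
  rfl

theorem psiU_X (h : J.U ⋊[uactU J ρ hρ] Γ) (k : κ) :
    psiU J sb (M := M) L hG γ ρ hρ h (MvPolynomial.X k) = Yh J sb L ρ hρ M hG h k := by
  rw [psiU, MvPolynomial.coe_eval₂Hom, MvPolynomial.eval₂_X]

end MP7fU

end

section

/-!
Unitary generic Lang torsor, part 5: injectivity of the action.
-/

set_option autoImplicit false
set_option linter.unusedSectionVars false

universe u v

namespace MP7fU

open TensorProduct MP7fS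

variable {p : ℕ} [Fact p.Prime] {B : Type} [Ring B] [Finite B] [Algebra (ZMod p) B]
  (J : AInv p B)
variable {κ : Type} [Fintype κ] [DecidableEq κ] (sb : Module.Basis κ (ZMod p) (Sk J))
variable {c : B}
variable {K M : Type u} [Field K] [Field M] [Algebra K M] [Algebra (ZMod p) M]
variable (L : Type u) [Field L] [Algebra (MvPolynomial κ M) L]
  [IsFractionRing (MvPolynomial κ M) L] [Algebra M L] [IsScalarTower M (MvPolynomial κ M) L]
  [Algebra (ZMod p) L]
variable (hG : Good J c)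
variable {Γ : Type} [Group Γ] (γ : Γ ≃* (M ≃ₐ[K] M)) (ρ : Γ →* (B ≃+* B))
  (hρ : ∀ g b, ρ g (J.j b) = J.j (ρ g b))

theorem Yh_spec (h : J.U ⋊[uactU J ρ hρ] Γ) :
    tmap (p := p) (RingHom.id L) (ρ h.right : B →+* B) (cy J sb c (Yh J sb L ρ hρ M hG h)) *
      (1 - ((gU J sb L hG M : (L ⊗[ZMod p] B)ˣ) : L ⊗[ZMod p] B) *
        (1 ⊗ₜ ((h.left : Bˣ) : B))) = 1 ∧
    (1 - ((gU J sb L hG M : (L ⊗[ZMod p] B)ˣ) : L ⊗[ZMod p] B) *
        (1 ⊗ₜ ((h.left : Bˣ) : B))) *
      tmap (p := p) (RingHom.id L) (ρ h.right : B →+* B)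
        (cy J sb c (Yh J sb L ρ hρ M hG h)) = 1 :=
  Classical.choose_spec (exists_Yh J sb (M := M) L hG ρ hρ h)

theorem adjoin_Yh (h : J.U ⋊[uactU J ρ hρ] Γ) :
    IntermediateField.adjoin M (Set.range (Yh J sb L ρ hρ M hG h)) = ⊤ := by
  set F := IntermediateField.adjoin M (Set.range (Yh J sb L ρ hρ M hG h)) with hF
  let _ : Algebra (ZMod p) F := ((algebraMap M F).comp (algebraMap (ZMod p) M)).toAlgebra
  have hM : ∀ m : M, ∃ r : F, algebraMap F L r = algebraMap M L m :=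
    fun m => ⟨algebraMap M F m, (IsScalarTower.algebraMap_apply M F L m).symm⟩
  have hY := Yh_spec J sb (M := M) L hG ρ hρ h
  set x := ((gU J sb L hG M : (L ⊗[ZMod p] B)ˣ) : L ⊗[ZMod p] B) * (1 ⊗ₜ ((h.left : Bˣ) : B))
    with hx
  have h1 : cy J sb c (Yh J sb L ρ hρ M hG h) ∈
      (tmap (p := p) (algebraMap F L) (RingHom.id B)).range :=
    desc_cy' J sb (algebraMap F L) fun k =>
      ⟨⟨_, IntermediateField.subset_adjoin _ _ (Set.mem_range_self k)⟩, rfl⟩
  have h2 := desc_tmap (algebraMap F L) (ρ h.right : B →+* B) h1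
  let Z : (L ⊗[ZMod p] B)ˣ := ⟨_, _, hY.1, hY.2⟩
  have h3 := desc_inv (algebraMap F L) Z h2
  have h4 : ((Z⁻¹ : (L ⊗[ZMod p] B)ˣ) : L ⊗[ZMod p] B) = 1 - x := rfl
  rw [h4] at h3
  have h5 : x ∈ (tmap (p := p) (algebraMap F L) (RingHom.id B)).range := by
    have := sub_mem (one_mem _) h3
    rwa [sub_sub_cancel] at this
  have h6 : ((gU J sb L hG M : (L ⊗[ZMod p] B)ˣ) : L ⊗[ZMod p] B) =
      x * ((1 : L) ⊗ₜ[ZMod p] (((h.left : Bˣ)⁻¹ : Bˣ) : B)) := by
    rw [hx, mul_assoc, Algebra.TensorProduct.tmul_mul_tmul, one_mul, Units.mul_inv,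
      ← Algebra.TensorProduct.one_def, mul_one]
  have h7 := surj_of_gU J sb L hG (algebraMap F L) hM (by
    rw [h6]
    exact mul_mem h5 (desc_one_tmul _ _))
  rw [eq_top_iff]
  intro z _
  obtain ⟨r, rfl⟩ := h7 z
  exact r.2

theorem trdeg_M : Cardinal.lift.{u} (Cardinal.mk κ) = Algebra.trdeg M L := by
  have hP : Algebra.IsAlgebraic (MvPolynomial κ M) L :=
    IsLocalization.isAlgebraic _ (nonZeroDivisors (MvPolynomial κ M))
  have h1 : IsTranscendenceBasis M (algebraMap (MvPolynomial κ M) L ∘ MvPolynomial.X) :=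
    (IsTranscendenceBasis.mvPolynomial κ M).algebraMap_comp
  have h2 := h1.lift_cardinalMk_eq_trdeg
  rw [h2, Cardinal.lift_id']

open scoped IntermediateField.algebraAdjoinAdjoin in
theorem algebraicIndependent_Yh (h : J.U ⋊[uactU J ρ hρ] Γ) :
    AlgebraicIndependent M (Yh J sb L ρ hρ M hG h) := by
  have h1 : Algebra.IsAlgebraic
      (Algebra.adjoin M (Set.range (Yh J sb L ρ hρ M hG h))) L := by
    have h2 : Algebra.IsAlgebraic
        (IntermediateField.adjoin M (Set.range (Yh J sb L ρ hρ M hG h))) L := by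
      rw [adjoin_Yh]
      exact ⟨fun z => isAlgebraic_algebraMap (A := L) (⟨z, trivial⟩ : (⊤ : IntermediateField M L))⟩
    exact (IsFractionRing.comap_isAlgebraic_iff
      (K := IntermediateField.adjoin M (Set.range (Yh J sb L ρ hρ M hG h)))).mpr h2
  have h2 : IsTranscendenceBasis M (Yh J sb L ρ hρ M hG h) := by
    apply Algebra.IsAlgebraic.isTranscendenceBasis_of_lift_le_trdeg_of_finite M
    rw [← trdeg_M (M := M) (κ := κ) L, Cardinal.lift_id']
  exact h2.1

theorem psiU_injective (h : J.U ⋊[uactU J ρ hρ] Γ) :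
    Function.Injective (psiU J sb L hG γ ρ hρ h) := by
  have h1 : psiU J sb L hG γ ρ hρ h =
      (MvPolynomial.aeval (Yh J sb L ρ hρ M hG h) : MvPolynomial κ M →ₐ[M] L).toRingHom.comp
        (MvPolynomial.map (γ h.right : M →+* M)) := by
    apply MvPolynomial.ringHom_ext
    · intro m
      rw [psiU_C, RingHom.comp_apply, MvPolynomial.map_C]
      change _ = MvPolynomial.aeval (Yh J sb L ρ hρ M hG h) (MvPolynomial.C (γ h.right m))
      rw [MvPolynomial.aeval_C]
    · intro k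
      rw [psiU_X, RingHom.comp_apply, MvPolynomial.map_X]
      change _ = MvPolynomial.aeval (Yh J sb L ρ hρ M hG h) (MvPolynomial.X k)
      rw [MvPolynomial.aeval_X]
  rw [h1]
  have h2 : Function.Injective
      (MvPolynomial.aeval (Yh J sb L ρ hρ M hG h) : MvPolynomial κ M →ₐ[M] L) :=
    algebraicIndependent_Yh J sb L hG ρ hρ h
  have h3 := MvPolynomial.map_injective (σ := κ) (γ h.right : M →+* M) (γ h.right).injective
  intro a b hab
  exact h3 (h2 hab)

/-- The action on the rational function field. -/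
noncomputable def PsiU (h : J.U ⋊[uactU J ρ hρ] Γ) : L →+* L :=
  IsFractionRing.lift (A := MvPolynomial κ M) (K := L) (psiU_injective J sb L hG γ ρ hρ h)

theorem PsiU_alg (h : J.U ⋊[uactU J ρ hρ] Γ) (z : MvPolynomial κ M) :
    PsiU J sb L hG γ ρ hρ h (algebraMap (MvPolynomial κ M) L z) = psiU J sb L hG γ ρ hρ h z := by
  rw [PsiU, IsFractionRing.lift_algebraMap]

theorem PsiU_M (h : J.U ⋊[uactU J ρ hρ] Γ) (m : M) :
    PsiU J sb L hG γ ρ hρ h (algebraMap M L m) = algebraMap M L (γ h.right m) := by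
  rw [IsScalarTower.algebraMap_apply M (MvPolynomial κ M) L m, PsiU_alg,
    MvPolynomial.algebraMap_eq, psiU_C]

theorem PsiU_gU (h : J.U ⋊[uactU J ρ hρ] Γ) :
    tmap (PsiU J sb L hG γ ρ hρ h) (ρ h.right : B →+* B)
      ((gU J sb L hG M : (L ⊗[ZMod p] B)ˣ) : L ⊗[ZMod p] B) =
    ((gU J sb L hG M : (L ⊗[ZMod p] B)ˣ) : L ⊗[ZMod p] B) * (1 ⊗ₜ ((h.left : Bˣ) : B)) := by
  set x := ((gU J sb L hG M : (L ⊗[ZMod p] B)ˣ) : L ⊗[ZMod p] B) * (1 ⊗ₜ ((h.left : Bˣ) : B))
    with hx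
  have hY := Yh_spec J sb (M := M) L hG ρ hρ h
  rw [← hx] at hY
  have h1 : tmap (p := p) (PsiU J sb L hG γ ρ hρ h) (ρ h.right : B →+* B)
      ((gyu J sb L hG M : (L ⊗[ZMod p] B)ˣ) : L ⊗[ZMod p] B) =
      tmap (p := p) (RingHom.id L) (ρ h.right : B →+* B)
        (cy J sb c (Yh J sb L ρ hρ M hG h)) := by
    have h2 : tmap (p := p) (PsiU J sb L hG γ ρ hρ h) (RingHom.id B)
        (cy J sb c (xk L M)) = cy J sb c (Yh J sb L ρ hρ M hG h) := by
      rw [tmap_cy]
      congr 1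
      ext k
      rw [xk, PsiU_alg, psiU_X]
    rw [← h2, tmap_comp, coe_gyu]
    rfl
  let Z : (L ⊗[ZMod p] B)ˣ := ⟨_, _, hY.1, hY.2⟩
  have h2 : Units.map (tmap (p := p) (PsiU J sb L hG γ ρ hρ h)
      (ρ h.right : B →+* B)).toMonoidHom (gyu J sb L hG M) = Z := Units.ext h1
  have h3 := congrArg (fun v => v⁻¹) h2
  simp only [← map_inv] at h3
  have h4 : tmap (p := p) (PsiU J sb L hG γ ρ hρ h) (ρ h.right : B →+* B)
      (((gyu J sb L hG M)⁻¹ : (L ⊗[ZMod p] B)ˣ) : L ⊗[ZMod p] B) = 1 - x :=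
    congrArg Units.val h3
  rw [coe_gU, map_sub, map_one, h4, sub_sub_cancel]

theorem PsiU_comp (h h' : J.U ⋊[uactU J ρ hρ] Γ) :
    (PsiU J sb L hG γ ρ hρ h).comp (PsiU J sb L hG γ ρ hρ h') =
      PsiU J sb L hG γ ρ hρ (h * h') := by
  apply hom_ext_gU J sb (M := M) L hG (ρ (h * h').right)
  · intro m
    rw [RingHom.comp_apply, PsiU_M, PsiU_M, PsiU_M, SemidirectProduct.mul_right, map_mul]
    rfl
  · rw [PsiU_gU, SemidirectProduct.mul_right, map_mul]
    have h1 : ((ρ h.right * ρ h'.right : B ≃+* B) : B →+* B) =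
        ((ρ h.right : B →+* B)).comp (ρ h'.right : B →+* B) := rfl
    rw [h1, ← tmap_comp, PsiU_gU, map_mul, PsiU_gU, tmap_tmul, map_one, mul_assoc,
      Algebra.TensorProduct.tmul_mul_tmul, one_mul, SemidirectProduct.mul_left,
      Subgroup.coe_mul, Units.val_mul, coe_uactU]
    rfl

theorem PsiU_one : PsiU J sb (M := M) L hG γ ρ hρ 1 = RingHom.id _ := by
  apply hom_ext_gU J sb (M := M) L hG (ρ (1 : J.U ⋊[uactU J ρ hρ] Γ).right)
  · intro m
    rw [PsiU_M, SemidirectProduct.one_right, map_one]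
    rfl
  · rw [PsiU_gU, SemidirectProduct.one_left, SemidirectProduct.one_right, map_one]
    have h1 : ((1 : B ≃+* B) : B →+* B) = RingHom.id B := rfl
    rw [h1, tmap_id, Subgroup.coe_one, Units.val_one, ← Algebra.TensorProduct.one_def, mul_one]

theorem PsiU_inj {h h' : J.U ⋊[uactU J ρ hρ] Γ}
    (hh : PsiU J sb (M := M) L hG γ ρ hρ h = PsiU J sb (M := M) L hG γ ρ hρ h') : h = h' := by
  have h1 : h.right = h'.right := by
    apply γ.injective
    ext m
    apply (algebraMap M L).injective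
    rw [← PsiU_M J sb L hG γ ρ hρ h, ← PsiU_M J sb L hG γ ρ hρ h', hh]
  have h2 := PsiU_gU J sb L hG γ ρ hρ h
  rw [hh, h1, PsiU_gU J sb L hG γ ρ hρ h'] at h2
  have h3 := (Units.isUnit (gU J sb L hG M)).mul_left_cancel h2
  exact SemidirectProduct.ext (Subtype.ext (Units.ext (one_tmul_inj h3))).symm h1

end MP7fU

end
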