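import Pool.Agent.Lib.MP_7f581e_ntL.U3

/-!
Special unitary generic Lang torsor, part 1: determinants.
-/

set_option autoImplicit false
set_option linter.unusedSectionVars false

universe u v

namespace MP7fV

open TensorProduct MP7fS MP7fU Matrix

variable {p : ℕ} [Fact p.Prime] {B : Type} [Ring B] [Finite B] [Algebra (ZMod p) B]
  {J : AInv p B} {n : ℕ} {C : Type} [CommRing C] [Finite C] [Algebra (ZMod p) C]

/-- Determinant data: `B` is a matrix ring over the commutative ring `C`, and `J` is the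
transpose conjugate. -/
structure DetData (J : AInv p B) (n : ℕ) (C : Type) [CommRing C] [Algebra (ZMod p) C] where
  Θ : B ≃+* Matrix (Fin (n + 1)) (Fin (n + 1)) C
  s : C →+* C
  ΘJ : ∀ b, Θ (J.j b) = ((Θ b).map s)ᵀ

namespace DetData

variable (D : DetData J n C)

/-- The scalars. -/
def ι : C →+* B := (D.Θ.symm : Matrix (Fin (n + 1)) (Fin (n + 1)) C →+* B).comp
  (Matrix.scalar (Fin (n + 1)))

theorem Θι (c : C) : D.Θ (D.ι c) = Matrix.scalar (Fin (n + 1)) c := D.Θ.apply_symm_apply _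

/-- The matrix unit. -/
def e : B := D.Θ.symm (Matrix.diagonal (Pi.single 0 1))

theorem Θe : D.Θ D.e = Matrix.diagonal (Pi.single 0 1) := D.Θ.apply_symm_apply _

theorem ee : D.e * D.e = D.e := by
  apply D.Θ.injective
  rw [map_mul, Θe, Matrix.diagonal_mul_diagonal]
  congr 1
  ext i
  by_cases h : i = 0
  · subst h
    simp
  · simp [h]

theorem central (c : C) (b : B) : D.ι c * b = b * D.ι c := by
  apply D.Θ.injective
  rw [map_mul, map_mul, Θι]
  exact (Matrix.scalar_commute c (fun r => mul_comm _ _) (D.Θ b)).eq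

theorem Je : J.j D.e = D.e := by
  apply D.Θ.injective
  rw [D.ΘJ, Θe]
  ext i j
  rw [Matrix.transpose_apply, Matrix.map_apply, Matrix.diagonal_apply, Matrix.diagonal_apply]
  by_cases h : i = j
  · subst h
    simp only [if_true]
    by_cases h0 : i = 0
    · subst h0
      rw [Pi.single_eq_same, map_one]
    · rw [Pi.single_eq_of_ne h0, map_zero]
  · rw [if_neg h, if_neg (Ne.symm h), map_zero]

theorem Jι (c : C) : J.j (D.ι c) = D.ι (D.s c) := by
  apply D.Θ.injective
  rw [D.ΘJ, Θι, Θι]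
  ext i j
  rw [Matrix.transpose_apply, Matrix.map_apply, Matrix.scalar_apply, Matrix.scalar_apply,
    Matrix.diagonal_apply, Matrix.diagonal_apply]
  by_cases h : i = j
  · subst h
    rw [if_pos rfl, if_pos rfl]
  · rw [if_neg h, if_neg (Ne.symm h), map_zero]

/-- Compatibility of an endomorphism with the data. -/
structure Compat (g : B →+* B) (σ : C →+* C) : Prop where
  conj : ∃ P Q : Matrix (Fin (n + 1)) (Fin (n + 1)) C, P * Q = 1 ∧
    ∀ b, D.Θ (g b) = P * (D.Θ b).map σ * Q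
  ge : g D.e = D.e

theorem Compat.gι {g : B →+* B} {σ : C →+* C} (h : D.Compat g σ) (c : C) :
    g (D.ι c) = D.ι (σ c) := by
  obtain ⟨P, Q, hPQ, hg⟩ := h.conj
  apply D.Θ.injective
  rw [hg, Θι, Θι]
  have h1 : ((Matrix.scalar (Fin (n + 1)) c).map σ : Matrix (Fin (n + 1)) (Fin (n + 1)) C) =
      Matrix.scalar (Fin (n + 1)) (σ c) := by
    ext i j
    rw [Matrix.map_apply, Matrix.scalar_apply, Matrix.scalar_apply,
      Matrix.diagonal_apply, Matrix.diagonal_apply]
    by_cases h : i = j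
    · subst h
      rw [if_pos rfl, if_pos rfl]
    · rw [if_neg h, if_neg h, map_zero]
  rw [h1, (Matrix.scalar_commute (σ c) (fun r => mul_comm _ _) P).symm.eq, mul_assoc, hPQ, mul_one]

theorem compat_id : D.Compat (RingHom.id B) (RingHom.id C) where
  conj := ⟨1, 1, one_mul 1, fun b => by
    rw [one_mul, mul_one]
    rfl⟩
  ge := rfl

section base

variable (R : Type*) [CommRing R] [Algebra (ZMod p) R]

/-- The matrices of elements of `R ⊗ B`. -/
noncomputable def ΘR : R ⊗[ZMod p] B →ₐ[R] Matrix (Fin (n + 1)) (Fin (n + 1)) (R ⊗[ZMod p] C) :=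
  Algebra.TensorProduct.lift (Algebra.ofId R _)
    (toAlg (((Algebra.TensorProduct.includeRight : C →ₐ[ZMod p] R ⊗[ZMod p] C).toRingHom.mapMatrix :
      Matrix (Fin (n + 1)) (Fin (n + 1)) C →+* Matrix (Fin (n + 1)) (Fin (n + 1)) (R ⊗[ZMod p] C)).comp
      (D.Θ : B →+* Matrix (Fin (n + 1)) (Fin (n + 1)) C)))
    (fun x _ => Algebra.commute_algebraMap_left x _)

theorem ΘR_tmul (r : R) (b : B) : D.ΘR R (r ⊗ₜ b) = (D.Θ b).map (fun c => r ⊗ₜ[ZMod p] c) := by
  rw [ΘR, Algebra.TensorProduct.lift_tmul]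
  ext i j
  rw [Algebra.ofId_apply, ← Algebra.smul_def, Matrix.smul_apply, Matrix.map_apply]
  change r • ((1 : R) ⊗ₜ[ZMod p] (D.Θ b i j)) = _
  rw [smul_tmul', smul_eq_mul, mul_one]

/-- The determinant. -/
noncomputable def dt : R ⊗[ZMod p] B →* R ⊗[ZMod p] C where
  toFun z := (D.ΘR R z).det
  map_one' := by rw [map_one, Matrix.det_one]
  map_mul' z w := by rw [map_mul, Matrix.det_mul]

theorem dt_apply (z : R ⊗[ZMod p] B) : D.dt R z = (D.ΘR R z).det := rfl

/-- The scalars in `R ⊗ B`. -/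
noncomputable def ιR : R ⊗[ZMod p] C →+* R ⊗[ZMod p] B :=
  (Algebra.TensorProduct.map (AlgHom.id (ZMod p) R) (toAlg (p := p) D.ι)).toRingHom

theorem ιR_tmul (r : R) (c : C) : D.ιR R (r ⊗ₜ c) = r ⊗ₜ D.ι c := rfl

theorem ιR_central (c : R ⊗[ZMod p] C) (z : R ⊗[ZMod p] B) :
    D.ιR R c * z = z * D.ιR R c := by
  induction c using TensorProduct.induction_on with
  | zero => rw [map_zero, zero_mul, mul_zero]
  | add x y hx hy => rw [map_add, add_mul, mul_add, hx, hy]
  | tmul r c =>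
    induction z using TensorProduct.induction_on with
    | zero => rw [zero_mul, mul_zero]
    | add x y hx hy => rw [add_mul, mul_add, hx, hy]
    | tmul r' b => rw [ιR_tmul, Algebra.TensorProduct.tmul_mul_tmul,
        Algebra.TensorProduct.tmul_mul_tmul, D.central, mul_comm]

theorem ΘR_ιR (c : R ⊗[ZMod p] C) :
    D.ΘR R (D.ιR R c) = Matrix.scalar (Fin (n + 1)) c := by
  induction c using TensorProduct.induction_on with
  | zero => rw [map_zero, map_zero, map_zero]
  | add x y hx hy => rw [map_add, map_add, map_add, hx, hy]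
  | tmul r c =>
    rw [ιR_tmul, ΘR_tmul, Θι]
    ext i j
    rw [Matrix.map_apply, Matrix.scalar_apply, Matrix.scalar_apply,
      Matrix.diagonal_apply, Matrix.diagonal_apply]
    by_cases h : i = j
    · subst h
      rw [if_pos rfl, if_pos rfl]
    · rw [if_neg h, if_neg h, tmul_zero]

/-- The element of the torus with given entries. -/
noncomputable def kk : (R ⊗[ZMod p] C) × (R ⊗[ZMod p] C) →+* R ⊗[ZMod p] B where
  toFun x := D.ιR R x.1 * ((1 : R) ⊗ₜ D.e) + D.ιR R x.2 * (1 - (1 : R) ⊗ₜ D.e)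
  map_one' := by
    rw [Prod.fst_one, Prod.snd_one, map_one, one_mul, one_mul, add_sub_cancel]
  map_zero' := by
    rw [Prod.fst_zero, Prod.snd_zero, map_zero, zero_mul, zero_mul, add_zero]
  map_add' x y := by
    rw [Prod.fst_add, Prod.snd_add, map_add, map_add]
    noncomm_ring
  map_mul' x y := by
    have hee : ((1 : R) ⊗ₜ[ZMod p] D.e) * ((1 : R) ⊗ₜ D.e) = (1 : R) ⊗ₜ D.e := by
      rw [Algebra.TensorProduct.tmul_mul_tmul, one_mul, D.ee]
    set E := ((1 : R) ⊗ₜ[ZMod p] D.e) with hE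
    rw [Prod.fst_mul, Prod.snd_mul, map_mul, map_mul]
    have h1 : E * (1 - E) = 0 := by rw [mul_sub, hee, mul_one, sub_self]
    have h2 : (1 - E) * E = 0 := by rw [sub_mul, hee, one_mul, sub_self]
    have h3 : (1 - E) * (1 - E) = 1 - E := by
      rw [mul_sub, mul_one, h2, sub_zero]
    symm
    calc (D.ιR R x.1 * E + D.ιR R x.2 * (1 - E)) * (D.ιR R y.1 * E + D.ιR R y.2 * (1 - E))
        = D.ιR R x.1 * (E * D.ιR R y.1) * E + D.ιR R x.1 * (E * D.ιR R y.2) * (1 - E) +
          D.ιR R x.2 * ((1 - E) * D.ιR R y.1) * E +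
          D.ιR R x.2 * ((1 - E) * D.ιR R y.2) * (1 - E) := by noncomm_ring
      _ = D.ιR R x.1 * D.ιR R y.1 * (E * E) + D.ιR R x.1 * D.ιR R y.2 * (E * (1 - E)) +
          D.ιR R x.2 * D.ιR R y.1 * ((1 - E) * E) +
          D.ιR R x.2 * D.ιR R y.2 * ((1 - E) * (1 - E)) := by
            rw [← ιR_central, ← ιR_central, ← ιR_central, ← ιR_central]
            noncomm_ring
      _ = _ := by rw [hee, h1, h2, h3, mul_zero, mul_zero, add_zero, add_zero]

theorem kk_apply (a b : R ⊗[ZMod p] C) :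
    D.kk R (a, b) = D.ιR R a * ((1 : R) ⊗ₜ D.e) + D.ιR R b * (1 - (1 : R) ⊗ₜ D.e) := rfl

theorem ΘR_kk (a b : R ⊗[ZMod p] C) :
    D.ΘR R (D.kk R (a, b)) = Matrix.diagonal (fun i => if i = 0 then a else b) := by
  have h1 : D.ΘR R ((1 : R) ⊗ₜ D.e) = Matrix.diagonal (Pi.single 0 1) := by
    rw [ΘR_tmul, Θe]
    ext i j
    rw [Matrix.map_apply, Matrix.diagonal_apply, Matrix.diagonal_apply]
    by_cases h : i = j
    · subst h
      rw [if_pos rfl, if_pos rfl]
      by_cases h0 : i = 0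
      · subst h0
        rw [Pi.single_eq_same, Pi.single_eq_same]
        rfl
      · rw [Pi.single_eq_of_ne h0, Pi.single_eq_of_ne h0, tmul_zero]
    · rw [if_neg h, if_neg h, tmul_zero]
  rw [kk_apply, map_add, map_mul, map_mul, map_sub, map_one, ΘR_ιR, ΘR_ιR, h1,
    ← Matrix.diagonal_one, Matrix.diagonal_sub, Matrix.scalar_apply, Matrix.scalar_apply,
    Matrix.diagonal_mul_diagonal, Matrix.diagonal_mul_diagonal, Matrix.diagonal_add]
  congr 1
  ext i
  by_cases h0 : i = 0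
  · subst h0
    simp
  · simp [h0]

theorem dt_kk (a b : R ⊗[ZMod p] C) : D.dt R (D.kk R (a, b)) = a * b ^ n := by
  rw [dt_apply, ΘR_kk, Matrix.det_diagonal, Fin.prod_univ_succ]
  simp

/-- The retraction on the torus. -/
noncomputable def T : R ⊗[ZMod p] B →* R ⊗[ZMod p] B where
  toFun z := D.kk R (D.dt R z, 1)
  map_one' := by
    rw [map_one]
    exact map_one _
  map_mul' z w := by
    have h1 : (D.dt R (z * w), (1 : R ⊗[ZMod p] C)) = (D.dt R z, 1) * (D.dt R w, 1) := by
      rw [Prod.mk_mul_mk, mul_one, map_mul]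
    rw [h1, map_mul]

theorem T_apply (z : R ⊗[ZMod p] B) : D.T R z = D.kk R (D.dt R z, 1) := rfl

theorem dt_T (z : R ⊗[ZMod p] B) : D.dt R (D.T R z) = D.dt R z := by
  rw [T_apply, dt_kk, one_pow, mul_one]

theorem T_T (z : R ⊗[ZMod p] B) : D.T R (D.T R z) = D.T R z := by
  rw [T_apply, dt_T, ← T_apply]

theorem T_kk (a b : R ⊗[ZMod p] C) : D.T R (D.kk R (a, b)) = D.kk R (a * b ^ n, 1) := by
  rw [T_apply, dt_kk]

/-- The involution of `R ⊗ C`. -/
noncomputable def sR : R ⊗[ZMod p] C →+* R ⊗[ZMod p] C := tmap (p := p) (RingHom.id R) D.s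

theorem jR_ιR (c : R ⊗[ZMod p] C) : jR J R (D.ιR R c) = D.ιR R (D.sR R c) := by
  induction c using TensorProduct.induction_on with
  | zero => rw [map_zero, map_zero, map_zero, map_zero]
  | add x y hx hy => rw [map_add, map_add, map_add, map_add, hx, hy]
  | tmul r c => rw [ιR_tmul, jR_tmul, sR, tmap_tmul, ιR_tmul, D.Jι, RingHom.id_apply]

theorem ΘR_jR (z : R ⊗[ZMod p] B) :
    D.ΘR R (jR J R z) = ((D.ΘR R z).map (D.sR R))ᵀ := by
  induction z using TensorProduct.induction_on with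
  | zero => rw [map_zero, map_zero, Matrix.map_zero _ (map_zero _), Matrix.transpose_zero]
  | add x y hx hy =>
    rw [map_add, map_add, map_add, Matrix.map_add _ (map_add _), Matrix.transpose_add, hx, hy]
  | tmul r b =>
    rw [jR_tmul, ΘR_tmul, ΘR_tmul, D.ΘJ]
    rfl

theorem dt_jR (z : R ⊗[ZMod p] B) : D.dt R (jR J R z) = D.sR R (D.dt R z) := by
  rw [dt_apply, dt_apply, ΘR_jR, Matrix.det_transpose]
  exact (RingHom.map_det (D.sR R) (D.ΘR R z)).symm

theorem jR_kk (a b : R ⊗[ZMod p] C) :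
    jR J R (D.kk R (a, b)) = D.kk R (D.sR R a, D.sR R b) := by
  have h1 : jR J R ((1 : R) ⊗ₜ[ZMod p] D.e) = (1 : R) ⊗ₜ D.e := by rw [jR_tmul, D.Je]
  rw [kk_apply, kk_apply, map_add, jR_mul, jR_mul, map_sub, jR_one, h1, jR_ιR, jR_ιR,
    ← ιR_central, ← ιR_central]

theorem T_jR (z : R ⊗[ZMod p] B) : D.T R (jR J R z) = jR J R (D.T R z) := by
  rw [T_apply, T_apply, jR_kk, dt_jR, map_one]

end base

section functor

variable {R S : Type*} [CommRing R] [CommRing S] [Algebra (ZMod p) R] [Algebra (ZMod p) S]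
  {g : B →+* B} {σ : C →+* C} (f : R →+* S)

theorem tmap_ιR (h : D.Compat g σ) (c : R ⊗[ZMod p] C) :
    tmap (p := p) f g (D.ιR R c) = D.ιR S (tmap (p := p) f σ c) := by
  induction c using TensorProduct.induction_on with
  | zero => rw [map_zero, map_zero, map_zero, map_zero]
  | add x y hx hy => rw [map_add, map_add, map_add, map_add, hx, hy]
  | tmul r c => rw [ιR_tmul, tmap_tmul, tmap_tmul, ιR_tmul, h.gι]

theorem ΘR_tmap (h : D.Compat g σ) : ∃ P Q : Matrix (Fin (n + 1)) (Fin (n + 1)) (S ⊗[ZMod p] C),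
    P * Q = 1 ∧ ∀ z : R ⊗[ZMod p] B, D.ΘR S (tmap (p := p) f g z) =
      P * (D.ΘR R z).map (tmap (p := p) f σ) * Q := by
  obtain ⟨P, Q, hPQ, hg⟩ := h.conj
  let i : C →+* S ⊗[ZMod p] C :=
    (Algebra.TensorProduct.includeRight : C →ₐ[ZMod p] S ⊗[ZMod p] C).toRingHom
  refine ⟨P.map i, Q.map i, ?_, ?_⟩
  · rw [← Matrix.map_mul, hPQ, Matrix.map_one _ (map_zero i) (map_one i)]
  · intro z
    induction z using TensorProduct.induction_on with
    | zero =>
      rw [map_zero, map_zero, map_zero, Matrix.map_zero _ (map_zero _), mul_zero, zero_mul]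
    | add x y hx hy =>
      rw [map_add, map_add, map_add, Matrix.map_add _ (map_add _), mul_add, add_mul, hx, hy]
    | tmul r b =>
      rw [tmap_tmul, ΘR_tmul, ΘR_tmul, hg]
      have h1 : ∀ (X : Matrix (Fin (n + 1)) (Fin (n + 1)) C), X.map (fun c => f r ⊗ₜ[ZMod p] c) =
          f r • X.map i := by
        intro X
        ext a b
        rw [Matrix.map_apply, Matrix.smul_apply, Matrix.map_apply]
        change _ = f r • ((1 : S) ⊗ₜ[ZMod p] X a b)
        rw [smul_tmul', smul_eq_mul, mul_one]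
      have h2 : ((D.Θ b).map (fun c => r ⊗ₜ[ZMod p] c)).map (tmap (p := p) f σ) =
          f r • ((D.Θ b).map σ).map i := by
        ext a b
        rw [Matrix.map_apply, Matrix.map_apply, Matrix.smul_apply, Matrix.map_apply,
          Matrix.map_apply, tmap_tmul]
        change _ = f r • ((1 : S) ⊗ₜ[ZMod p] _)
        rw [smul_tmul', smul_eq_mul, mul_one]
      rw [h1, h2, Matrix.map_mul, Matrix.map_mul, Matrix.mul_smul, Matrix.smul_mul]

theorem dt_tmap (h : D.Compat g σ) (z : R ⊗[ZMod p] B) :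
    D.dt S (tmap (p := p) f g z) = tmap (p := p) f σ (D.dt R z) := by
  obtain ⟨P, Q, hPQ, hg⟩ := D.ΘR_tmap f h
  rw [dt_apply, dt_apply, hg, Matrix.det_mul, Matrix.det_mul, mul_right_comm, ← Matrix.det_mul,
    hPQ, Matrix.det_one, one_mul]
  exact (RingHom.map_det (tmap (p := p) f σ) (D.ΘR R z)).symm

theorem tmap_kk (h : D.Compat g σ) (a b : R ⊗[ZMod p] C) :
    tmap (p := p) f g (D.kk R (a, b)) =
      D.kk S (tmap (p := p) f σ a, tmap (p := p) f σ b) := by
  rw [kk_apply, kk_apply, map_add, map_mul, map_mul, map_sub, map_one, D.tmap_ιR f h,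
    D.tmap_ιR f h, tmap_tmul, h.ge, map_one]

theorem T_tmap (h : D.Compat g σ) (z : R ⊗[ZMod p] B) :
    D.T S (tmap (p := p) f g z) = tmap (p := p) f g (D.T R z) := by
  rw [T_apply, T_apply, D.tmap_kk f h, D.dt_tmap f h, map_one]

end functor

end DetData

end MP7fV
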