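import Pool.Agent.Lib.MP_7f581e_ntL.V10

/-!
Special unitary generic Lang torsor, part 11: unitary groups over finite fields.
-/

set_option autoImplicit false
set_option linter.unusedSectionVars false

universe u v

namespace MP7fV

open TensorProduct MP7fS MP7fU MP7fR MP7fE

section field

variable {p : ℕ} [Fact p.Prime] {F : Type} [Field F] [Finite F] [Algebra (ZMod p) F]

/-- Evaluation at the embeddings. -/
noncomputable def evA (p : ℕ) [Fact p.Prime] (F : Type) [Field F] [Algebra (ZMod p) F] :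
    AlgebraicClosure (ZMod p) ⊗[ZMod p] F →ₐ[AlgebraicClosure (ZMod p)]
      ((F →ₐ[ZMod p] AlgebraicClosure (ZMod p)) → AlgebraicClosure (ZMod p)) :=
  Algebra.TensorProduct.lift (Algebra.ofId _ _)
    (AlgHom.pi (fun χ => χ)) (fun _ _ => mul_comm _ _)

theorem evA_tmul (r : AlgebraicClosure (ZMod p)) (c : F)
    (χ : F →ₐ[ZMod p] AlgebraicClosure (ZMod p)) : evA p F (r ⊗ₜ c) χ = r * χ c := by
  rw [evA, Algebra.TensorProduct.lift_tmul]
  rfl

theorem evA_bijective : Function.Bijective (evA p F) := by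
  classical
  have hfd : FiniteDimensional (ZMod p) F := inferInstance
  let R := AlgebraicClosure (ZMod p)
  let f : R ⊗[ZMod p] F →ₗ[R] ((F →ₐ[ZMod p] R) → R) := (evA p F).toLinearMap
  have hrank : Module.finrank R (R ⊗[ZMod p] F) = Module.finrank R ((F →ₐ[ZMod p] R) → R) := by
    rw [Module.finrank_baseChange, Module.finrank_fintype_fun_eq_card]
    exact (AlgHom.card (ZMod p) F R).symm
  have hsurj : Function.Surjective f := by
    rw [← LinearMap.range_eq_top]
    by_contra hcon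
    obtain ⟨g, hg0, hg⟩ := Submodule.exists_le_ker_of_lt_top _ (lt_top_iff_ne_top.mpr hcon)
    apply hg0
    have hli : LinearIndependent R (fun χ : F →ₐ[ZMod p] R => ((χ : F →* R) : F → R)) := by
      have h1 := (linearIndependent_monoidHom F R).comp
        (fun χ : F →ₐ[ZMod p] R => (χ : F →* R)) (by
          intro χ χ' h
          ext x
          exact congrArg (fun φ : F →* R => φ x) h)
      exact h1
    have hga : ∀ v : (F →ₐ[ZMod p] R) → R, g v = ∑ χ, v χ * g (Pi.single χ 1) := by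
      intro v
      conv_lhs => rw [← Finset.univ_sum_single v]
      rw [map_sum]
      refine Finset.sum_congr rfl fun χ _ => ?_
      have h1 : (Pi.single χ (v χ) : (F →ₐ[ZMod p] R) → R) = v χ • Pi.single χ 1 := by
        rw [← Pi.single_smul, smul_eq_mul, mul_one]
      rw [h1, map_smul, smul_eq_mul]
    have h2 : ∀ χ : F →ₐ[ZMod p] R, g (Pi.single χ 1) = 0 := by
      apply Fintype.linearIndependent_iff.mp hli
      funext c
      have h3 : g (f ((1 : R) ⊗ₜ c)) = 0 := hg ⟨_, rfl⟩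
      rw [hga] at h3
      rw [Finset.sum_apply]
      refine Eq.trans (Finset.sum_congr rfl fun χ _ => ?_) h3
      change g (Pi.single χ 1) * χ c = evA p F ((1 : R) ⊗ₜ c) χ * _
      rw [evA_tmul, one_mul, mul_comm]
    ext χ
    rw [LinearMap.comp_apply, LinearMap.coe_single, LinearMap.zero_comp, LinearMap.zero_apply]
    exact h2 χ
  exact ⟨(LinearMap.injective_iff_surjective_of_finrank_eq_finrank hrank).mpr hsurj, hsurj⟩

/-- The idempotent. -/
theorem exists_eps (s₀ : F →+* F) (hs : ∀ x, s₀ (s₀ x) = x) (hne : s₀ ≠ RingHom.id F) :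
    ∃ ε : AlgebraicClosure (ZMod p) ⊗[ZMod p] F, ε * ε = ε ∧
      tmap (p := p) (RingHom.id _) s₀ ε = 1 - ε := by
  classical
  let R := AlgebraicClosure (ZMod p)
  let X := F →ₐ[ZMod p] R
  let t : X → X := fun χ => χ.comp (toAlg (p := p) s₀)
  have ht : ∀ χ, t (t χ) = χ := by
    intro χ
    ext x
    change χ (s₀ (s₀ x)) = χ x
    rw [hs]
  have htne : ∀ χ, t χ ≠ χ := by
    intro χ h
    apply hne
    ext x
    apply χ.injective
    exact congrArg (fun φ : X => φ x) h
  have hev : ∀ (z : R ⊗[ZMod p] F) (χ : X),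
      evA p F (tmap (p := p) (RingHom.id _) s₀ z) χ = evA p F z (t χ) := by
    intro z χ
    induction z using TensorProduct.induction_on with
    | zero => rw [map_zero, map_zero]; rfl
    | add x y hx hy => rw [map_add, map_add, map_add, Pi.add_apply, Pi.add_apply, hx, hy]
    | tmul r c =>
      rw [tmap_tmul, evA_tmul, evA_tmul]
      rfl
  let i : X ≃ Fin (Fintype.card X) := Fintype.equivFin X
  let v : X → R := fun χ => if i χ < i (t χ) then 1 else 0
  obtain ⟨ε, hε⟩ := (evA_bijective (p := p) (F := F)).2 v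
  refine ⟨ε, ?_, ?_⟩
  · apply (evA_bijective (p := p) (F := F)).1
    rw [map_mul, hε]
    funext χ
    change (if i χ < i (t χ) then (1 : R) else 0) * (if i χ < i (t χ) then 1 else 0) =
      if i χ < i (t χ) then 1 else 0
    split_ifs
    · rw [mul_one]
    · rw [mul_zero]
  · apply (evA_bijective (p := p) (F := F)).1
    funext χ
    rw [hev, map_sub, map_one, hε]
    change (if i (t χ) < i (t (t χ)) then (1 : R) else 0) = 1 - if i χ < i (t χ) then 1 else 0
    rw [ht]
    have h1 : i (t χ) ≠ i χ := fun h => htne χ (i.injective h)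
    by_cases h : i χ < i (t χ)
    · rw [if_pos h, if_neg (not_lt_of_gt h), sub_self]
    · rw [if_neg h, if_pos (lt_of_le_of_ne (not_lt.mp h) h1), sub_zero]

/-- Elements of trace one. -/
theorem exists_c0 {F : Type} [Field F] (s₀ : F →+* F) (hs : ∀ x, s₀ (s₀ x) = x)
    (hne : s₀ ≠ RingHom.id F) : ∃ c : F, c + s₀ c = 1 := by
  have h1 : ∃ y : F, y + s₀ y ≠ 0 := by
    by_contra hcon
    push Not at hcon
    apply hne
    ext x
    have h2 := hcon 1
    rw [map_one] at h2
    have h3 := hcon x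
    have h4 : s₀ x = -x := by linear_combination h3
    rw [h4, RingHom.id_apply]
    linear_combination -x * h2
  obtain ⟨y, hy⟩ := h1
  refine ⟨y / (y + s₀ y), ?_⟩
  rw [map_div₀, map_add, hs, add_comm (s₀ y) y, ← add_div, div_self hy]

end field

section unitary

variable (p n : ℕ) [Fact p.Prime] (F : Type) [Field F] [Finite F] [Algebra (ZMod p) F]
  (κ : Type) [Finite κ] (s₀ : F →+* F) (hs : ∀ x, s₀ (s₀ x) = x)

/-- The conjugate transpose involution. -/
def unInv : AInv p (FM n F κ) := ctInv p n F id (fun _ => s₀) (fun _ => rfl) (fun _ => hs)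

theorem unInv_j (z : FM n F κ) (k : κ) :
    (unInv p n F κ s₀ hs).j z k = ((z k).map s₀).transpose := rfl

/-- Its determinant data. -/
def unDD : DetData (unInv p (n + 1) F κ s₀ hs) n (κ → F) :=
  ddY id (fun _ => s₀) (fun _ => rfl) (fun _ => hs)

theorem mem_SU_unDD (u : (unInv p (n + 1) F κ s₀ hs).U) :
    u ∈ SU (unDD p n F κ s₀ hs) ↔
      ∀ y, (((u : (FM (n + 1) F κ)ˣ) : FM (n + 1) F κ) y).det = 1 :=
  mem_SU_ddY _ _ _ _ u

theorem compat_unDD (g : FM (n + 1) F κ →+* FM (n + 1) F κ)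
    (π : κ ≃ κ) (σ : κ → (F →+* F))
    (P Q : κ → Matrix (Fin (n + 1)) (Fin (n + 1)) F) (hPQ : ∀ y, P y * Q y = 1)
    (hPe : ∀ y, P y * Matrix.diagonal (Pi.single 0 1) * Q y = Matrix.diagonal (Pi.single 0 1))
    (hg : ∀ z y, g z (π y) = P y * (z y).map (σ y) * Q y) :
    ∃ σ' : (κ → F) →+* (κ → F), (unDD p n F κ s₀ hs).Compat g σ' :=
  compat_ddY _ _ _ _ g π σ P Q hPQ hPe hg

variable {p n F κ s₀}

theorem exists_epsC (hne : s₀ ≠ RingHom.id F) :
    ∃ ε : AlgebraicClosure (ZMod p) ⊗[ZMod p] (κ → F), ε * ε = ε ∧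
      (unDD p n F κ s₀ hs).sR (AlgebraicClosure (ZMod p)) ε = 1 - ε := by
  obtain ⟨ε, h1, h2⟩ := exists_eps (p := p) s₀ hs hne
  let i : F →ₐ[ZMod p] (κ → F) := toAlg (p := p) (Pi.constRingHom κ F)
  let f : AlgebraicClosure (ZMod p) ⊗[ZMod p] F →ₐ[ZMod p]
    AlgebraicClosure (ZMod p) ⊗[ZMod p] (κ → F) := Algebra.TensorProduct.map (AlgHom.id _ _) i
  have hf : ∀ z, (unDD p n F κ s₀ hs).sR (AlgebraicClosure (ZMod p)) (f z) =
      f (tmap (p := p) (RingHom.id _) s₀ z) := by
    intro z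
    induction z using TensorProduct.induction_on with
    | zero => rw [map_zero, map_zero, map_zero, map_zero]
    | add x y hx hy => rw [map_add, map_add, map_add, map_add, hx, hy]
    | tmul r c => rfl
  refine ⟨f ε, by rw [← map_mul, h1], ?_⟩
  rw [hf, h2, map_sub, map_one]

theorem good_unInv (hne : s₀ ≠ RingHom.id F) : ∃ c, Good (unInv p (n + 1) F κ s₀ hs) c := by
  obtain ⟨c₀, hc₀⟩ := exists_c0 s₀ hs hne
  obtain ⟨ε, h1, h2⟩ := exists_epsC (n := n) (κ := κ) (p := p) hs hne
  refine ⟨(unDD p n F κ s₀ hs).ι (fun _ => c₀), good_of_idemC (unDD p n F κ s₀ hs) ?_ ε h1 h2⟩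
  rw [(unDD p n F κ s₀ hs).Jι, ← map_add]
  have h3 : ((fun _ => c₀) + (unDD p n F κ s₀ hs).s (fun _ => c₀) : κ → F) = 1 := by
    funext k
    exact hc₀
  rw [h3, map_one]

/-- **Powers of unitary groups.** -/
theorem lang_u_emb (hne : s₀ ≠ RingHom.id F) {K : Type u} [Field K] [CharP K p] {Γ : Type}
    [Group Γ] [Finite Γ] (ρ : Γ →* (FM (n + 1) F κ ≃+* FM (n + 1) F κ))
    (hρ : ∀ g b, ρ g ((unInv p (n + 1) F κ s₀ hs).j b) =
      (unInv p (n + 1) F κ s₀ hs).j (ρ g b)) :
    ∃ r : ℕ, SolvesOver K (FractionRing (MvPolynomial (Fin r) K))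
      (SemidirectProduct.rightHom :
        (unInv p (n + 1) F κ s₀ hs).U ⋊[uactU _ ρ hρ] Γ →* Γ) := by
  obtain ⟨c, hc⟩ := good_unInv (n := n) (κ := κ) (p := p) hs hne
  exact ⟨_, lang_unitary_emb _ hc ρ hρ⟩

/-- **Powers of special unitary groups.** Split embedding problems whose kernel is a power of
`SU(n + 1, F)`, `F` a finite field with an involution, on which the group acts by field
automorphisms, permutations and conjugation by matrices that commute with the first matrix
unit. -/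
theorem lang_su_field (hne : s₀ ≠ RingHom.id F) {K : Type u} [Field K] [CharP K p] {Γ : Type}
    [Group Γ] [Finite Γ] (ρ : Γ →* (FM (n + 1) F κ ≃+* FM (n + 1) F κ))
    (hρ : ∀ g b, ρ g ((unInv p (n + 1) F κ s₀ hs).j b) =
      (unInv p (n + 1) F κ s₀ hs).j (ρ g b))
    (hD : ∀ g, ∃ σ : (κ → F) →+* (κ → F), (unDD p n F κ s₀ hs).Compat
      (ρ g : FM (n + 1) F κ →+* FM (n + 1) F κ) σ) :
    ∃ r : ℕ, SolvesOver K (FractionRing (MvPolynomial (Fin r) K))
      (SemidirectProduct.rightHom :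
        (SU (unDD p n F κ s₀ hs)) ⋊[suact (unDD p n F κ s₀ hs) ρ hρ hD] Γ →* Γ) := by
  obtain ⟨c, hc⟩ := good_unInv (n := n) (κ := κ) (p := p) hs hne
  obtain ⟨ε, h1, h2⟩ := exists_epsC (n := n) (κ := κ) (p := p) hs hne
  exact ⟨_, lang_su_emb (unDD p n F κ s₀ hs) hc (genX_of_idem _ ε h1 h2) ρ hρ hD⟩

end unitary

end MP7fV
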