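import Pool.Agent.Lib.MP_7f581e_ntL.Z1

/-!
Goodness of the symplectic involution.
-/

set_option autoImplicit false
set_option linter.unusedSectionVars false

universe u v

namespace MP7fV

open TensorProduct MP7fS MP7fU MP7fR MP7fE Matrix

section decomposition

variable {l : Type} [Fintype l] [DecidableEq l] {F : Type} [Field F]

/-- Copy of a private lemma of Mathlib: given square matrices `A` and `C` over a field, if the
only vector annihilated by both of them is 0, and `Aᵀ * C = Cᵀ * A`, then there is a symmetric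
matrix `X` such that `A + X * C` is invertible. -/
theorem exists_symm_add_mul {R : Type*} [Field R]
    {A C : Matrix l l R} (hker : ∀ (x : l → R), (A • x = 0) → (C • x = 0) → x = 0)
    (hsymm : Aᵀ * C = Cᵀ * A) :
    ∃ (X : Matrix l l R), X.IsSymm ∧ IsUnit (A + X * C) := by
  rcases exists_rank_normal_form C with ⟨V, U, s, hV, hU, heq⟩
  set P := V * C * U with P_def; set Q := Vᵀ⁻¹ * A * U with Q_def
  set f := fun (x : Matrix l l R) ↦ x.submatrix s.symm s.symm
  have hf (x) : f x = x.submatrix s.symm s.symm := rfl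
  have f_unit {x} : IsUnit x → IsUnit (f x) := (isUnit_submatrix_equiv ..).2
  have f_mul (x y) : f (x * y) = f x * f y := submatrix_mul _ _ _ _ _ s.symm.bijective
  have _ : Invertible V := hV.invertible
  have _ : Invertible U := hU.invertible
  have _ : Invertible (f Vᵀ) := (f_unit (V.isUnit_transpose.2 hV)).invertible
  have con1 (x : Fin C.rank ⊕ Fin (Fintype.card l - C.rank) → R)
      (heq1 : (f Q) • x = 0) (heq2 : (f P) • x = 0) : x = 0 := by
    refine (f_unit hU).smul_left_cancel.1 ?_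
    rw [f_mul, f_mul, mul_assoc, mul_smul, IsUnit.smul_eq_zero, mul_smul, hf,
      smul_eq_mulVec, submatrix_mulVec_equiv, Equiv.symm_symm] at heq1 heq2
    · rw [Equiv.comp_symm_eq, Pi.zero_comp] at heq1 heq2
      exact s.surjective.injective_comp_right <| by simpa using hker _ heq1 heq2
    · exact f_unit hV
    · exact f_unit <| isUnit_nonsing_inv_iff.2 <| V.isUnit_transpose.2 hV
  have con2 : Qᵀ * P = Pᵀ * Q := by
    simp only [P_def, mul_assoc, transpose_mul, transpose_nonsing_inv, transpose_transpose, Q_def,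
      inv_mul_cancel_left_of_invertible, mul_inv_cancel_left_of_invertible]
    rw [← mul_assoc Aᵀ, hsymm, mul_assoc]
  replace con2 : (f Q).toBlocks₁₁ᵀ = (f Q).toBlocks₁₁ ∧ (f Q).toBlocks₁₂ = 0 := by
    apply_fun reindex s s at con2
    rw [reindex_apply, reindex_apply, ← hf, ← hf, f_mul, f_mul Pᵀ, heq, hf,
      ← transpose_submatrix, ← hf Q, ← (f Q).fromBlocks_toBlocks, hf (_)ᵀ, hf
      ((fromBlocks 1 0 0 0).submatrix _ _)] at con2
    simp [fromBlocks_transpose, fromBlocks_multiply] at con2; tauto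
  have con3 : IsUnit (f Q).toBlocks₂₂ := by
    refine mulVec_injective_iff_isUnit.1 ?_
    rw [← coe_mulVecLin, ← LinearMap.ker_eq_bot]
    refine ker_mulVecLin_eq_bot_iff.2 fun x hx ↦ Sum.elim_injective' <|
      (con1 _ ?_ ?_).trans Sum.elim_zero_zero.symm
    · rw [← (f Q).fromBlocks_toBlocks]; simp [hx, con2.2, fromBlocks_mulVec]
    · simp [hf, heq, fromBlocks_mulVec]
  set Y : Matrix (Fin C.rank ⊕ Fin (Fintype.card l - C.rank)) (Fin C.rank ⊕
    Fin (Fintype.card l - C.rank)) R := fromBlocks (1 - (f Q).toBlocks₁₁) 0 0 0 with Y_def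
  have hY_symm : Y.IsSymm := by
    rw [Y_def, isSymm_fromBlocks_iff]
    exact ⟨IsSymm.sub isSymm_one con2.1, by simp⟩
  set X := (f Vᵀ) * Y * (f V) with X_def
  refine ⟨X.submatrix s s, IsSymm.submatrix ?_ s, (isUnit_submatrix_equiv s.symm s.symm).1 ?_⟩
  · simp_rw [X_def, Matrix.IsSymm, transpose_mul, hY_symm.eq, hf, transpose_submatrix,
      transpose_transpose, mul_assoc]
  · have heq' : f (A + X.submatrix s s * C) = (f Vᵀ) * (f Q + Y * (f P)) * f (U⁻¹) := by
      simp_rw [hf, submatrix_add, Pi.add_apply, Q_def, P_def, ← hf, f_mul, hf, mul_add, ← mul_assoc,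
        ← inv_submatrix_equiv, add_mul, mul_assoc _ (U.submatrix _ _), mul_inv_of_invertible]
      simp [X_def]; rfl
    rw [← hf, heq', IsUnit.mul_iff, IsUnit.mul_iff]
    refine ⟨⟨isUnit_of_invertible _, ?_⟩, ?_⟩
    · nth_rw 1 [Y_def, heq, ← (f Q).fromBlocks_toBlocks, con2.2]
      simpa [hf, fromBlocks_multiply, fromBlocks_add]
    · exact f_unit <| isUnit_nonsing_inv_iff.2 hU

/-- Upper unipotent elements. -/
def up (X : Matrix l l F) (hX : Xᵀ = X) : symplecticGroup l F :=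
  ⟨fromBlocks 1 X 0 1, by
    rw [SymplecticGroup.fromBlocks_mem_iff]
    refine ⟨?_, ?_, ?_⟩
    · rw [mul_zero, transpose_zero, zero_mul]
    · rw [mul_one, transpose_one, one_mul, hX]
    · rw [transpose_one, one_mul, transpose_zero, zero_mul, sub_zero]⟩

/-- Lower unipotent elements. -/
def lo (X : Matrix l l F) (hX : Xᵀ = X) : symplecticGroup l F :=
  ⟨fromBlocks 1 0 X 1, by
    rw [SymplecticGroup.fromBlocks_mem_iff]
    refine ⟨?_, ?_, ?_⟩
    · rw [mul_one, transpose_one, one_mul, hX]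
    · rw [transpose_zero, zero_mul, mul_zero]
    · rw [transpose_one, one_mul, mul_zero, sub_zero]⟩

/-- Levi elements. -/
def lev (A D : Matrix l l F) (h : Aᵀ * D = 1) : symplecticGroup l F :=
  ⟨fromBlocks A 0 0 D, by
    rw [SymplecticGroup.fromBlocks_mem_iff]
    refine ⟨?_, ?_, ?_⟩
    · rw [mul_zero, transpose_zero, zero_mul]
    · rw [mul_zero, transpose_zero, zero_mul]
    · rw [h, transpose_zero, zero_mul, sub_zero]⟩

/-- Decomposition of symplectic matrices. -/
theorem sp_decomp (g : symplecticGroup l F) : ∃ (X Y Z A D : Matrix l l F) (hX : Xᵀ = X)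
    (hY : Yᵀ = Y) (hZ : Zᵀ = Z) (hAD : Aᵀ * D = 1),
    g = up X hX * (lo Y hY * (lev A D hAD * up Z hZ)) := by
  obtain ⟨M, hM⟩ := g
  obtain ⟨A, B, C, D, rfl⟩ : ∃ A B C D, M = fromBlocks A B C D :=
    ⟨_, _, _, _, (M.fromBlocks_toBlocks).symm⟩
  have hb := SymplecticGroup.fromBlocks_mem_iff.mp hM
  have hker : ∀ (x : l → F), (A • x = 0) → (C • x = 0) → x = 0 := by
    intro x h1 h2
    have hinj : Function.Injective ((fromBlocks A B C D).mulVec) := by
      apply mulVec_injective_iff_isUnit.2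
      exact (isUnit_iff_isUnit_det _).mpr (SymplecticGroup.symplectic_det hM)
    have h3 : (fromBlocks A B C D).mulVec (Sum.elim x 0) =
        (fromBlocks A B C D).mulVec (Sum.elim 0 0) := by
      have h1' : A.mulVec x = 0 := h1
      have h2' : C.mulVec x = 0 := h2
      simp [fromBlocks_mulVec, h1', h2']
    exact (Sum.elim_eq_iff.1 (hinj h3)).1
  obtain ⟨S, hS, hu⟩ := exists_symm_add_mul hker hb.1
  have hS' : Sᵀ = S := hS
  have hSn : (-S)ᵀ = -S := by rw [transpose_neg, hS']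
  set A' := A + S * C with hA'
  set B' := B + S * D with hB'
  have hmul : fromBlocks A B C D = fromBlocks 1 (-S) 0 1 * fromBlocks A' B' C D := by
    rw [fromBlocks_multiply, hA', hB']
    simp
  have hmem : fromBlocks A' B' C D ∈ symplecticGroup l F := by
    have h1 : fromBlocks A' B' C D = fromBlocks 1 S 0 1 * fromBlocks A B C D := by
      rw [fromBlocks_multiply, hA', hB']
      simp
    rw [h1]
    exact (symplecticGroup l F).mul_mem (up S hS').2 hM
  have hb' := SymplecticGroup.fromBlocks_mem_iff.mp hmem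
  have hdet : IsUnit A'.det := (isUnit_iff_isUnit_det _).mp hu
  have hAA : A' * A'⁻¹ = 1 := mul_nonsing_inv _ hdet
  have hAA' : A'⁻¹ * A' = 1 := nonsing_inv_mul _ hdet
  have hAt : A'ᵀ * (A'⁻¹)ᵀ = 1 := by rw [← transpose_mul, hAA', transpose_one]
  have hAt' : (A'⁻¹)ᵀ * A'ᵀ = 1 := by rw [← transpose_mul, hAA, transpose_one]
  -- the lower part
  have hY : (C * A'⁻¹)ᵀ = C * A'⁻¹ := by
    rw [transpose_mul]
    calc (A'⁻¹)ᵀ * Cᵀ = (A'⁻¹)ᵀ * (Cᵀ * A') * A'⁻¹ := by
          rw [Matrix.mul_assoc, Matrix.mul_assoc, hAA, Matrix.mul_one]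
      _ = (A'⁻¹)ᵀ * (A'ᵀ * C) * A'⁻¹ := by rw [hb'.1]
      _ = C * A'⁻¹ := by rw [← Matrix.mul_assoc, hAt', Matrix.one_mul]
  -- the Levi part
  have hD : (A'⁻¹)ᵀ = D - C * A'⁻¹ * B' := by
    have h1 : A'ᵀ * (D - C * A'⁻¹ * B') = 1 := by
      rw [Matrix.mul_sub]
      have h2 : A'ᵀ * (C * A'⁻¹ * B') = Cᵀ * B' := by
        rw [← Matrix.mul_assoc, ← Matrix.mul_assoc, hb'.1, Matrix.mul_assoc Cᵀ, hAA,
          Matrix.mul_one]
      rw [h2]
      exact hb'.2.2
    calc (A'⁻¹)ᵀ = (A'⁻¹)ᵀ * (A'ᵀ * (D - C * A'⁻¹ * B')) := by rw [h1, Matrix.mul_one]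
      _ = _ := by rw [← Matrix.mul_assoc, hAt', Matrix.one_mul]
  -- the upper part
  have hZ : (A'⁻¹ * B')ᵀ = A'⁻¹ * B' := by
    have h1 : A'ᵀ * D = 1 + Cᵀ * B' := by
      have := hb'.2.2
      rw [sub_eq_iff_eq_add] at this
      exact this
    have h2 : Dᵀ * A' = 1 + B'ᵀ * C := by
      have h3 := congrArg Matrix.transpose h1
      rw [transpose_mul, transpose_transpose, transpose_add, transpose_one, transpose_mul,
        transpose_transpose] at h3
      exact h3
    -- `B'ᵀ (A'⁻¹)ᵀ = A'⁻¹ B'`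
    rw [transpose_mul]
    have h4 : A'⁻¹ = Dᵀ - B'ᵀ * (C * A'⁻¹) := by
      have h5 : Dᵀ = (1 + B'ᵀ * C) * A'⁻¹ := by
        rw [← h2, Matrix.mul_assoc, hAA, Matrix.mul_one]
      rw [h5, Matrix.add_mul, Matrix.one_mul, Matrix.mul_assoc, add_sub_cancel_right]
    have h6 : B'ᵀ * (A'⁻¹)ᵀ = B'ᵀ * D - B'ᵀ * (C * A'⁻¹) * B' := by
      rw [hD, Matrix.mul_sub]
      simp only [Matrix.mul_assoc]
    rw [h6, hb'.2.1]
    conv_rhs => rw [h4, Matrix.sub_mul]
  refine ⟨-S, C * A'⁻¹, A'⁻¹ * B', A', (A'⁻¹)ᵀ, hSn, hY, hZ, hAt, ?_⟩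
  apply Subtype.ext
  change fromBlocks A B C D = fromBlocks 1 (-S) 0 1 * (fromBlocks 1 0 (C * A'⁻¹) 1 *
    (fromBlocks A' 0 0 (A'⁻¹)ᵀ * fromBlocks 1 (A'⁻¹ * B') 0 1))
  rw [hmul]
  congr 1
  rw [fromBlocks_multiply, fromBlocks_multiply]
  have e1 : C * A'⁻¹ * A' = C := by rw [Matrix.mul_assoc, hAA', Matrix.mul_one]
  have e2 : A' * (A'⁻¹ * B') = B' := by rw [← Matrix.mul_assoc, hAA, Matrix.one_mul]
  simp only [Matrix.mul_one, Matrix.one_mul, Matrix.mul_zero, Matrix.zero_mul, add_zero,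
    zero_add, e1, e2, hD]
  rw [add_sub_cancel]

end decomposition

section symplectic

variable (p : ℕ) [Fact p.Prime] (l : Type) [Fintype l] [DecidableEq l] (F : Type) [Field F]
  [Finite F] [Algebra (ZMod p) F] (κ : Type) [Finite κ]

/-- The symplectic involution. -/
def spInv : AInv p (κ → Matrix (l ⊕ l) (l ⊕ l) F) where
  j :=
    { toFun := fun z k => -(J l F) * (z k)ᵀ * J l F
      map_add' := fun z w => by
        funext k
        change -(J l F) * (z k + w k)ᵀ * J l F = -(J l F) * (z k)ᵀ * J l F +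
          -(J l F) * (w k)ᵀ * J l F
        rw [transpose_add, Matrix.mul_add, Matrix.add_mul]
      map_smul' := fun r z => by
        funext k
        change -(J l F) * (r • z k)ᵀ * J l F = r • (-(J l F) * (z k)ᵀ * J l F)
        rw [transpose_smul, Matrix.mul_smul, Matrix.smul_mul] }
  one := by
    funext k
    change -(J l F) * (1 : Matrix (l ⊕ l) (l ⊕ l) F)ᵀ * J l F = 1
    rw [transpose_one, Matrix.mul_one, Matrix.neg_mul, J_squared, neg_neg]
  mul a b := by
    funext k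
    change -(J l F) * (a k * b k)ᵀ * J l F = (-(J l F) * (b k)ᵀ * J l F) *
      (-(J l F) * (a k)ᵀ * J l F)
    rw [transpose_mul]
    calc _ = -(J l F) * (b k)ᵀ * (1 : Matrix (l ⊕ l) (l ⊕ l) F) * ((a k)ᵀ * J l F) := by
          rw [Matrix.mul_one]
          simp only [Matrix.mul_assoc]
      _ = -(J l F) * (b k)ᵀ * (J l F * (-(J l F))) * ((a k)ᵀ * J l F) := by
          rw [Matrix.mul_neg, J_squared, neg_neg]
      _ = _ := by simp only [Matrix.mul_assoc]
  inv a := by
    funext k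
    change -(J l F) * (-(J l F) * (a k)ᵀ * J l F)ᵀ * J l F = a k
    rw [transpose_mul, transpose_mul, transpose_transpose, transpose_neg, J_transpose, neg_neg]
    calc _ = (J l F * J l F) * a k * (J l F * J l F) := by
          simp only [Matrix.neg_mul, Matrix.mul_neg, neg_neg, Matrix.mul_assoc]
      _ = a k := by rw [J_squared, Matrix.neg_mul, Matrix.one_mul, Matrix.mul_neg, Matrix.mul_one,
          neg_neg]

theorem spInv_j (z : κ → Matrix (l ⊕ l) (l ⊕ l) F) (k : κ) :
    (spInv p l F κ).j z k = -(J l F) * (z k)ᵀ * J l F := rfl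

/-- The unitary group of the symplectic involution. -/
noncomputable def spE : (κ → symplecticGroup l F) ≃* (spInv p l F κ).U where
  toFun g := ⟨⟨fun k => (g k).1, fun k => ((g k)⁻¹).1,
    funext fun k => congrArg Subtype.val (mul_inv_cancel (g k)),
    funext fun k => congrArg Subtype.val (inv_mul_cancel (g k))⟩,
    funext fun k => congrArg Subtype.val (inv_mul_cancel (g k))⟩
  invFun u := fun k => ⟨((u : (κ → Matrix (l ⊕ l) (l ⊕ l) F)ˣ) : κ → Matrix (l ⊕ l) (l ⊕ l) F) k, by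
    rw [SymplecticGroup.mem_iff']
    have h1 : (spInv p l F κ).j ((u : (κ → Matrix (l ⊕ l) (l ⊕ l) F)ˣ) :
      κ → Matrix (l ⊕ l) (l ⊕ l) F) * ((u : (κ → Matrix (l ⊕ l) (l ⊕ l) F)ˣ) :
      κ → Matrix (l ⊕ l) (l ⊕ l) F) = 1 := u.2
    have h2 := congrFun h1 k
    set a := ((u : (κ → Matrix (l ⊕ l) (l ⊕ l) F)ˣ) : κ → Matrix (l ⊕ l) (l ⊕ l) F) k
    have h3 : -(J l F) * aᵀ * J l F * a = 1 := h2
    calc aᵀ * J l F * a = (J l F * -(J l F)) * (aᵀ * J l F * a) := by
          rw [Matrix.mul_neg, J_squared, neg_neg, Matrix.one_mul]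
      _ = J l F * (-(J l F) * aᵀ * J l F * a) := by simp only [Matrix.mul_assoc]
      _ = J l F := by rw [h3, Matrix.mul_one]⟩
  left_inv g := rfl
  right_inv u := Subtype.ext (Units.ext rfl)
  map_mul' g h := Subtype.ext (Units.ext rfl)

theorem coe_spE (g : κ → symplecticGroup l F) (k : κ) :
    (((spE p l F κ g : (spInv p l F κ).U) : (κ → Matrix (l ⊕ l) (l ⊕ l) F)ˣ) :
      κ → Matrix (l ⊕ l) (l ⊕ l) F) k = (g k : Matrix (l ⊕ l) (l ⊕ l) F) := rfl

/-- The idempotent. -/
def cc : κ → Matrix (l ⊕ l) (l ⊕ l) F := fun _ => fromBlocks (1 : Matrix l l F) 0 0 0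

theorem cc_cc : cc l F κ * cc l F κ = cc l F κ := by
  funext k
  change fromBlocks (1 : Matrix l l F) (0 : Matrix l l F) (0 : Matrix l l F) (0 : Matrix l l F) *
    fromBlocks (1 : Matrix l l F) (0 : Matrix l l F) (0 : Matrix l l F) (0 : Matrix l l F) =
      fromBlocks (1 : Matrix l l F) (0 : Matrix l l F) (0 : Matrix l l F) (0 : Matrix l l F)
  rw [fromBlocks_multiply]
  simp

theorem cc_add : cc l F κ + (spInv p l F κ).j (cc l F κ) = 1 := by
  funext k
  change fromBlocks (1 : Matrix l l F) (0 : Matrix l l F) (0 : Matrix l l F) (0 : Matrix l l F) +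
    -(J l F) * (fromBlocks (1 : Matrix l l F) (0 : Matrix l l F) (0 : Matrix l l F)
      (0 : Matrix l l F))ᵀ * J l F = 1
  rw [fromBlocks_transpose, J, fromBlocks_neg, fromBlocks_multiply, fromBlocks_multiply,
    fromBlocks_add]
  simp

instance finiteMatl {l F : Type} [Finite l] [Finite F] : Finite (Matrix l l F) :=
  inferInstanceAs (Finite (l → l → F))

/-- **The symplectic involution is good.** -/
theorem good_sp : Good (spInv p l F κ) (cc l F κ) := by
  have hc := cc_add p l F κ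
  have hcc := cc_cc l F κ
  have hc' : (1 - cc l F κ) + (spInv p l F κ).j (1 - cc l F κ) = 1 := by
    have h1 : (spInv p l F κ).j (cc l F κ) = 1 - cc l F κ := by
      rw [← hc, add_sub_cancel_left]
    rw [map_sub, (spInv p l F κ).one, h1]
    abel
  have hfix : ∀ (u : (κ → Matrix (l ⊕ l) (l ⊕ l) F)ˣ) (c : κ → Matrix (l ⊕ l) (l ⊕ l) F),
      (u : κ → Matrix (l ⊕ l) (l ⊕ l) F) * c = c →
      ((u⁻¹ : (κ → Matrix (l ⊕ l) (l ⊕ l) F)ˣ) : κ → Matrix (l ⊕ l) (l ⊕ l) F) * c = c := by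
    intro u c h
    conv_lhs => rw [← h]
    rw [← mul_assoc, Units.inv_mul, one_mul]
  have hy : ∃ y₀ : AlgebraicClosure (ZMod p) ⊗[ZMod p] (κ → Matrix (l ⊕ l) (l ⊕ l) F),
      y₀ + jR (spInv p l F κ) _ y₀ = 1 ∧ IsUnit y₀ := hy_of_idem hc hcc
  refine good_of_idem' hc hcc ?_
  intro u hu
  obtain ⟨g, hg⟩ := (spE p l F κ).surjective ⟨u, hu⟩
  have hug : u = (spE p l F κ g : (spInv p l F κ).U) := by rw [hg]
  rw [hug]
  choose X Y Z A D hX hY hZ hAD hdec using fun k => sp_decomp (g k)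
  have hg' : g = (fun k => up (X k) (hX k)) * ((fun k => lo (Y k) (hY k)) *
      ((fun k => lev (A k) (D k) (hAD k)) * (fun k => up (Z k) (hZ k)))) := by
    funext k
    exact hdec k
  have hup : ∀ (X : κ → Matrix l l F) (hX : ∀ k, (X k)ᵀ = X k),
      HU (spInv p l F κ) (spE p l F κ (fun k => up (X k) (hX k)) : (spInv p l F κ).U) := by
    intro X hX
    apply HU.of_fix hc
    apply hfix
    funext k
    change fromBlocks (1 : Matrix l l F) (X k) (0 : Matrix l l F) (1 : Matrix l l F) *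
      fromBlocks (1 : Matrix l l F) (0 : Matrix l l F) (0 : Matrix l l F) (0 : Matrix l l F) =
        fromBlocks (1 : Matrix l l F) (0 : Matrix l l F) (0 : Matrix l l F) (0 : Matrix l l F)
    rw [fromBlocks_multiply]
    simp
  have hlo : HU (spInv p l F κ) (spE p l F κ (fun k => lo (Y k) (hY k)) : (spInv p l F κ).U) := by
    apply HU.of_fix hc'
    apply hfix
    funext k
    change fromBlocks (1 : Matrix l l F) (0 : Matrix l l F) (Y k) (1 : Matrix l l F) *
      ((1 : Matrix (l ⊕ l) (l ⊕ l) F) - fromBlocks (1 : Matrix l l F) (0 : Matrix l l F)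
        (0 : Matrix l l F) (0 : Matrix l l F)) =
      (1 : Matrix (l ⊕ l) (l ⊕ l) F) - fromBlocks (1 : Matrix l l F) (0 : Matrix l l F)
        (0 : Matrix l l F) (0 : Matrix l l F)
    rw [Matrix.mul_sub, Matrix.mul_one, fromBlocks_multiply, ← fromBlocks_one, sub_eq_sub_iff_add_eq_add,
      fromBlocks_add, fromBlocks_add]
    simp
  have hlev : HU (spInv p l F κ) (spE p l F κ (fun k => lev (A k) (D k) (hAD k)) :
      (spInv p l F κ).U) := by
    apply HU.of_comm hc hcc
    funext k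
    change fromBlocks (1 : Matrix l l F) (0 : Matrix l l F) (0 : Matrix l l F)
        (0 : Matrix l l F) * fromBlocks (A k) (0 : Matrix l l F) (0 : Matrix l l F) (D k) =
      fromBlocks (A k) (0 : Matrix l l F) (0 : Matrix l l F) (D k) *
        fromBlocks (1 : Matrix l l F) (0 : Matrix l l F) (0 : Matrix l l F) (0 : Matrix l l F)
    rw [fromBlocks_multiply, fromBlocks_multiply]
    simp
  rw [hg', map_mul, map_mul, map_mul, Subgroup.coe_mul, Subgroup.coe_mul, Subgroup.coe_mul]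
  exact HU.mul hc hy (Subtype.prop _) (hup X hX) (HU.mul hc hy (Subtype.prop _) hlo
    (HU.mul hc hy (Subtype.prop _) hlev (hup Z hZ)))

/-- **Powers of symplectic groups.** -/
theorem lang_sp_emb {p : ℕ} [Fact p.Prime] {l : Type} [Fintype l] [DecidableEq l] {F : Type}
    [Field F] [Finite F] [Algebra (ZMod p) F] {κ : Type} [Finite κ] {K : Type u} [Field K]
    [CharP K p] {Γ : Type} [Group Γ] [Finite Γ]
    (ρ : Γ →* ((κ → Matrix (l ⊕ l) (l ⊕ l) F) ≃+* (κ → Matrix (l ⊕ l) (l ⊕ l) F)))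
    (hρ : ∀ g b, ρ g ((spInv p l F κ).j b) = (spInv p l F κ).j (ρ g b)) :
    ∃ r : ℕ, SolvesOver K (FractionRing (MvPolynomial (Fin r) K))
      (SemidirectProduct.rightHom : (spInv p l F κ).U ⋊[uactU _ ρ hρ] Γ →* Γ) :=
  ⟨_, lang_unitary_emb _ (good_sp p l F κ) ρ hρ⟩

end symplectic

end MP7fV
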