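import Pool.Agent.Lib.MP_7f581e_ntL.U3
import Pool.Agent.Lib.MP_7f581e_ntL.V1

/-!
Special unitary generic Lang torsor, part 3: the modified Lang quotient.
-/

set_option autoImplicit false
set_option linter.unusedSectionVars false

universe u v

namespace MP7fV

open TensorProduct MP7fS MP7fU

section general

variable {p : ℕ} [Fact p.Prime] {B : Type} [Ring B] [Finite B] [Algebra (ZMod p) B]
  {J : AInv p B} {n : ℕ} {C : Type} [CommRing C] [Finite C] [Algebra (ZMod p) C]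
  (D : DetData J n C)

section ring

variable {R S : Type*} [CommRing R] [CommRing S] [Algebra (ZMod p) R] [Algebra (ZMod p) S]

/-- Ring homomorphisms on units. -/
noncomputable def um (φ : R ⊗[ZMod p] B →+* S ⊗[ZMod p] B) :
    (R ⊗[ZMod p] B)ˣ →* (S ⊗[ZMod p] B)ˣ := Units.map φ.toMonoidHom

theorem coe_um (φ : R ⊗[ZMod p] B →+* S ⊗[ZMod p] B) (z : (R ⊗[ZMod p] B)ˣ) :
    ((um φ z : (S ⊗[ZMod p] B)ˣ) : S ⊗[ZMod p] B) = φ z := rfl

/-- The retraction on units. -/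
noncomputable def Tu (R : Type*) [CommRing R] [Algebra (ZMod p) R] :
    (R ⊗[ZMod p] B)ˣ →* (R ⊗[ZMod p] B)ˣ := Units.map (D.T R)

theorem coe_Tu (z : (R ⊗[ZMod p] B)ˣ) :
    ((Tu D R z : (R ⊗[ZMod p] B)ˣ) : R ⊗[ZMod p] B) = D.T R z := rfl

theorem Tu_Tu (z : (R ⊗[ZMod p] B)ˣ) : Tu D R (Tu D R z) = Tu D R z :=
  Units.ext (D.T_T R _)

theorem Tu_um {g : B →+* B} {σ : C →+* C} (f : R →+* S) (h : D.Compat g σ)
    (z : (R ⊗[ZMod p] B)ˣ) :
    Tu D S (um (tmap (p := p) f g) z) = um (tmap (p := p) f g) (Tu D R z) :=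
  Units.ext (D.T_tmap f h z)

/-- The unitary units. -/
noncomputable def UR (J : AInv p B) (R : Type*) [CommRing R] [Algebra (ZMod p) R] :
    Subgroup (R ⊗[ZMod p] B)ˣ where
  carrier := {z | jR J R (z : R ⊗[ZMod p] B) * z = 1}
  one_mem' := by
    change jR J R ((1 : (R ⊗[ZMod p] B)ˣ) : R ⊗[ZMod p] B) *
      ((1 : (R ⊗[ZMod p] B)ˣ) : R ⊗[ZMod p] B) = 1
    rw [Units.val_one, jR_one, mul_one]
  mul_mem' := by
    intro g h hg hh
    have hg' : jR J R (g : R ⊗[ZMod p] B) * g = 1 := hg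
    have hh' : jR J R (h : R ⊗[ZMod p] B) * h = 1 := hh
    change jR J R ((g * h : (R ⊗[ZMod p] B)ˣ) : R ⊗[ZMod p] B) *
      ((g * h : (R ⊗[ZMod p] B)ˣ) : R ⊗[ZMod p] B) = 1
    rw [Units.val_mul, jR_mul, mul_assoc, ← mul_assoc (jR J R (g : R ⊗[ZMod p] B)), hg',
      one_mul, hh']
  inv_mem' := by
    intro g hg
    have hg' : jR J R (g : R ⊗[ZMod p] B) * g = 1 := hg
    have h1 : jR J R (g : R ⊗[ZMod p] B) = ((g⁻¹ : (R ⊗[ZMod p] B)ˣ) : R ⊗[ZMod p] B) := by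
      rw [← mul_one (jR J R (g : R ⊗[ZMod p] B)), ← Units.mul_inv g, ← mul_assoc, hg', one_mul]
    change jR J R ((g⁻¹ : (R ⊗[ZMod p] B)ˣ) : R ⊗[ZMod p] B) *
      ((g⁻¹ : (R ⊗[ZMod p] B)ˣ) : R ⊗[ZMod p] B) = 1
    rw [← h1, jR_jR, h1, Units.mul_inv]

theorem mem_UR {z : (R ⊗[ZMod p] B)ˣ} : z ∈ UR J R ↔ jR J R (z : R ⊗[ZMod p] B) * z = 1 :=
  Iff.rfl

theorem Tu_mem {z : (R ⊗[ZMod p] B)ˣ} (hz : z ∈ UR J R) : Tu D R z ∈ UR J R := by
  rw [mem_UR] at hz ⊢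
  rw [coe_Tu, ← D.T_jR, ← map_mul, hz, map_one]

theorem um_mem {z : (R ⊗[ZMod p] B)ˣ} (hz : z ∈ UR J R) (f : R →+* S) (g : B →+* B)
    (hg : ∀ b, g (J.j b) = J.j (g b)) : um (tmap (p := p) f g) z ∈ UR J S := by
  rw [mem_UR] at hz ⊢
  rw [coe_um, jR_tmap J f g hg, ← map_mul, hz, map_one]

/-- The Frobenius on units. -/
noncomputable def uf (R : Type*) [CommRing R] [CharP R p] [Algebra (ZMod p) R] :
    (R ⊗[ZMod p] B)ˣ →* (R ⊗[ZMod p] B)ˣ := um (tmap (frobenius R p) (RingHom.id B))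

theorem uf_um [CharP R p] [CharP S p] (f : R →+* S) (g : B →+* B) (z : (R ⊗[ZMod p] B)ˣ) :
    uf S (um (tmap (p := p) f g) z) = um (tmap (p := p) f g) (uf R z) := by
  apply Units.ext
  rw [uf, uf, coe_um, coe_um, coe_um, coe_um, tmap_comp, tmap_comp]
  have h1 : (frobenius S p).comp f = f.comp (frobenius R p) := by
    ext r
    simp [frobenius_def]
  rw [h1]
  rfl

theorem Tu_uf [CharP R p] (z : (R ⊗[ZMod p] B)ˣ) : Tu D R (uf R z) = uf R (Tu D R z) :=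
  Tu_um D _ D.compat_id z

/-- The modified Lang quotient of a unit. -/
noncomputable def ml (R : Type*) [CommRing R] [CharP R p] [Algebra (ZMod p) R]
    (z : (R ⊗[ZMod p] B)ˣ) : (R ⊗[ZMod p] B)ˣ :=
  (uf R z * z⁻¹) * (Tu D R (uf R z * z⁻¹))⁻¹ * Tu D R z

/-- The operation that gives back the Lang quotient. -/
noncomputable def mn (R : Type*) [CommRing R] [CharP R p] [Algebra (ZMod p) R]
    (z : (R ⊗[ZMod p] B)ˣ) : (R ⊗[ZMod p] B)ˣ :=
  z * (Tu D R z)⁻¹ * (uf R (Tu D R z) * (Tu D R z)⁻¹)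

theorem Tu_ml [CharP R p] (z : (R ⊗[ZMod p] B)ˣ) : Tu D R (ml D R z) = Tu D R z := by
  rw [ml, map_mul, map_mul, map_inv, Tu_Tu, Tu_Tu, mul_inv_cancel, one_mul]

theorem mn_ml [CharP R p] (z : (R ⊗[ZMod p] B)ˣ) : mn D R (ml D R z) = uf R z * z⁻¹ := by
  have h1 : Tu D R (uf R z * z⁻¹) = uf R (Tu D R z) * (Tu D R z)⁻¹ := by
    rw [map_mul, map_inv, Tu_uf]
  rw [mn, Tu_ml, ← h1, ml, mul_inv_cancel_right, inv_mul_cancel_right]

theorem mn_um [CharP R p] [CharP S p] {g : B →+* B} {σ : C →+* C} (f : R →+* S)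
    (h : D.Compat g σ) (z : (R ⊗[ZMod p] B)ˣ) :
    mn D S (um (tmap (p := p) f g) z) = um (tmap (p := p) f g) (mn D R z) := by
  rw [mn, mn, Tu_um D f h, uf_um, map_mul, map_mul, map_mul, map_inv]

theorem ml_um [CharP R p] [CharP S p] {g : B →+* B} {σ : C →+* C} (f : R →+* S)
    (h : D.Compat g σ) (z : (R ⊗[ZMod p] B)ˣ) :
    ml D S (um (tmap (p := p) f g) z) = um (tmap (p := p) f g) (ml D R z) := by
  have h1 : uf S (um (tmap (p := p) f g) z) * (um (tmap (p := p) f g) z)⁻¹ =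
      um (tmap (p := p) f g) (uf R z * z⁻¹) := by
    rw [uf_um, ← map_inv, ← map_mul]
  rw [ml, ml, h1, Tu_um D f h, Tu_um D f h, ← map_inv, ← map_mul, ← map_mul]

theorem ml_mem [CharP R p] {z : (R ⊗[ZMod p] B)ˣ} (hz : z ∈ UR J R) : ml D R z ∈ UR J R := by
  have h1 : uf R z ∈ UR J R := um_mem hz _ _ (fun _ => rfl)
  have h2 : uf R z * z⁻¹ ∈ UR J R := mul_mem h1 (inv_mem hz)
  exact mul_mem (mul_mem h2 (inv_mem (Tu_mem D h2))) (Tu_mem D hz)

/-- The modified quotient of a translate by a constant element. -/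
theorem ml_mul [CharP R p] (z w : (R ⊗[ZMod p] B)ˣ) (hw : uf R w = w) :
    ml D R (z * w) = ml D R z * Tu D R w := by
  rw [ml, ml, map_mul, hw, mul_inv_rev, mul_assoc (uf R z), mul_inv_cancel_left, map_mul,
    map_mul, ← mul_assoc]

end ring

section field

variable {F L : Type*} [Field F] [Field L] [Algebra (ZMod p) F] [Algebra (ZMod p) L]
  [CharP F p] [CharP L p]

theorem um_range (f : F →+* L) {z : (L ⊗[ZMod p] B)ˣ}
    (h : (z : L ⊗[ZMod p] B) ∈ (tmap (p := p) f (RingHom.id B)).range) :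
    ∃ w : (F ⊗[ZMod p] B)ˣ, um (tmap (p := p) f (RingHom.id B)) w = z := by
  obtain ⟨w, hw⟩ := h
  obtain ⟨w', hw'⟩ := desc_inv f z ⟨w, hw⟩
  have h1 : w * w' = 1 := by
    apply tmap_injective (p := p) (B := B) f f.injective
    rw [map_mul, map_one, hw, hw', Units.mul_inv]
  have h2 : w' * w = 1 := by
    apply tmap_injective (p := p) (B := B) f f.injective
    rw [map_mul, map_one, hw, hw', Units.inv_mul]
  exact ⟨⟨w, w', h1, h2⟩, Units.ext hw⟩

/-- If the modified quotient is defined over a subfield, then so is the Lang quotient. -/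
theorem range_mn (f : F →+* L) {z : (L ⊗[ZMod p] B)ˣ}
    (h : (z : L ⊗[ZMod p] B) ∈ (tmap (p := p) f (RingHom.id B)).range) :
    ((mn D L z : (L ⊗[ZMod p] B)ˣ) : L ⊗[ZMod p] B) ∈
      (tmap (p := p) f (RingHom.id B)).range := by
  obtain ⟨w, rfl⟩ := um_range f h
  rw [mn_um D f D.compat_id]
  exact ⟨_, rfl⟩

end field

end general

end MP7fV
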