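import Pool.Agent.Lib.MP_7f581e_ntE.Defs
import Pool.Agent.Lib.MP_7f581e_nt.AutPow

/-!
Group extensions with kernel a power of a simple group `S` for which `Aut S` splits over `Inn S`.
-/

set_option autoImplicit false
set_option linter.unusedSectionVars false

universe u

namespace MP7fW

open MP7fE MP7fR

/-- The image of `c` is a complement of the inner automorphisms. -/
structure Cpl {S A : Type*} [Group S] [Group A] (c : A →* MulAut S) : Prop where
  inn : ∀ (x : A) (s : S), (∀ t, c x t = s * t * s⁻¹) → x = 1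
  sup : ∀ φ : S ≃* S, ∃ (s : S) (x : A), ∀ t, φ t = s * c x t * s⁻¹

section wreath

variable {S A : Type*} [Group S] [Group A] {c : A →* MulAut S} {κ : Type*}

theorem Cpl.inj (h : Cpl c) {x y : A} (hxy : ∀ t, c x t = c y t) : x = y := by
  have h1 : x⁻¹ * y = 1 := by
    apply h.inn _ 1
    intro t
    rw [map_mul, MulAut.mul_apply, ← hxy, ← MulAut.mul_apply, ← map_mul, inv_mul_cancel, map_one,
      MulAut.one_apply, inv_one, one_mul, mul_one]
  exact inv_mul_eq_one.mp h1

/-- Automorphisms of `κ → S` in the wreath product. -/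
def Wr (c : A →* MulAut S) (ψ : (κ → S) ≃* (κ → S)) (π : Equiv.Perm κ) (x : κ → A) : Prop :=
  ∀ z k, ψ z (π k) = c (x k) (z k)

theorem Wr.one : Wr c (1 : MulAut (κ → S)) (1 : Equiv.Perm κ) (fun _ => 1) := by
  intro z k
  rw [map_one]
  rfl

theorem Wr.mul {ψ ψ' : MulAut (κ → S)} {π π' : Equiv.Perm κ} {x x' : κ → A}
    (h : Wr c ψ π x) (h' : Wr c ψ' π' x') :
    Wr c (ψ * ψ' : MulAut (κ → S)) (π * π') (fun k => x (π' k) * x' k) := by
  intro z k
  change ψ (ψ' z) (π (π' k)) = _
  rw [h, h', map_mul]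
  rfl

theorem Wr.inv {ψ : MulAut (κ → S)} {π : Equiv.Perm κ} {x : κ → A}
    (h : Wr c ψ π x) : Wr c (ψ⁻¹ : MulAut (κ → S)) π⁻¹ (fun k => (x (π⁻¹ k))⁻¹) := by
  intro z k
  have h1 := h ((ψ⁻¹ : MulAut (κ → S)) z) (π⁻¹ k)
  have h2 : ψ ((ψ⁻¹ : MulAut (κ → S)) z) = z := MulEquiv.apply_symm_apply ψ z
  have h3 : π (π⁻¹ k) = k := Equiv.apply_symm_apply π k
  rw [h2, h3] at h1
  rw [h1, map_inv]
  exact (MulEquiv.symm_apply_apply (c (x (π⁻¹ k))) _).symm

theorem Wr.unique [Nontrivial S] (hc : Cpl c) {ψ : (κ → S) ≃* (κ → S)} {π π' : Equiv.Perm κ}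
    {x x' : κ → A} (h : Wr c ψ π x) (h' : Wr c ψ π' x') : π = π' ∧ x = x' := by
  classical
  have h1 : π = π' := by
    ext k
    by_contra hne
    obtain ⟨k', hk'⟩ := π'.surjective (π k)
    have hkk : k' ≠ k := by
      rintro rfl
      exact hne hk'.symm
    obtain ⟨s, hs⟩ := exists_ne (1 : S)
    have h1 := h (Pi.mulSingle k s) k
    have h2 := h' (Pi.mulSingle k s) k'
    rw [hk', h1, Pi.mulSingle_eq_same, Pi.mulSingle_eq_of_ne hkk, map_one] at h2
    exact hs ((MulEquiv.map_eq_one_iff _).mp h2)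
  subst h1
  refine ⟨rfl, ?_⟩
  funext k
  apply hc.inj
  intro t
  have h1 := h (fun _ => t) k
  have h2 := h' (fun _ => t) k
  rw [h1] at h2
  exact h2

end wreath

section ring

variable {A : Type*} [Group A] {B : Type*} [Ring B] (r : A →* RingAut B) {κ : Type*}

/-- Ring automorphisms of `κ → B`. -/
def wR (π : Equiv.Perm κ) (x : κ → A) : RingAut (κ → B) where
  toFun b := fun i => r (x (π.symm i)) (b (π.symm i))
  invFun b := fun k => r (x k)⁻¹ (b (π k))
  left_inv b := by
    funext k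
    simp only [Equiv.symm_apply_apply]
    rw [← RingAut.mul_apply, ← map_mul, inv_mul_cancel, map_one]
    rfl
  right_inv b := by
    funext i
    simp only [Equiv.apply_symm_apply]
    rw [← RingAut.mul_apply, ← map_mul, mul_inv_cancel, map_one]
    rfl
  map_mul' a b := by
    funext i
    exact map_mul _ _ _
  map_add' a b := by
    funext i
    exact map_add _ _ _

theorem wR_apply (π : Equiv.Perm κ) (x : κ → A) (b : κ → B) (k : κ) :
    wR r π x b (π k) = r (x k) (b k) := by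
  change r (x (π.symm (π k))) (b (π.symm (π k))) = _
  rw [Equiv.symm_apply_apply]

theorem wR_one : wR r (1 : Equiv.Perm κ) (fun _ => 1) = 1 := by
  ext1 b
  funext k
  have h := wR_apply r (1 : Equiv.Perm κ) (fun _ => 1) b k
  rw [map_one] at h
  exact h

theorem wR_mul (π π' : Equiv.Perm κ) (x x' : κ → A) :
    wR r (π * π') (fun k => x (π' k) * x' k) = wR r π x * wR r π' x' := by
  ext1 b
  funext i
  obtain ⟨k, rfl⟩ := (π * π').surjective i
  rw [wR_apply, map_mul]
  change _ = wR r π x (wR r π' x' b) (π (π' k))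
  rw [wR_apply, wR_apply]
  rfl

end ring

section ext

variable {S A : Type*} [Group S] [Group A] {κ : Type*}
variable {E : Type*} [Group E] (N : Subgroup E) [hN : N.Normal] (θ : N ≃* (κ → S))

/-- The automorphisms given by conjugation. -/
def Psi : E →* MulAut (κ → S) where
  toFun e := (θ.symm.trans (MulAut.conjNormal e)).trans θ
  map_one' := by
    ext1 z
    change θ (MulAut.conjNormal (1 : E) (θ.symm z)) = z
    rw [map_one, MulAut.one_apply, MulEquiv.apply_symm_apply]
  map_mul' e f := by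
    ext1 z
    change θ (MulAut.conjNormal (e * f) (θ.symm z)) =
      θ (MulAut.conjNormal e (θ.symm (θ (MulAut.conjNormal f (θ.symm z)))))
    rw [map_mul, MulAut.mul_apply, MulEquiv.symm_apply_apply]

theorem Psi_apply (e : E) (z : κ → S) : Psi N θ e z = θ (MulAut.conjNormal e (θ.symm z)) := rfl

/-- The inclusion of the kernel. -/
def nn : (κ → S) →* E := N.subtype.comp θ.symm.toMonoidHom

theorem nn_mem (z : κ → S) : nn N θ z ∈ N := (θ.symm z).2

theorem nn_surj {e : E} (he : e ∈ N) : ∃ z, nn N θ z = e := by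
  refine ⟨θ ⟨e, he⟩, ?_⟩
  change ((θ.symm (θ ⟨e, he⟩) : N) : E) = e
  rw [MulEquiv.symm_apply_apply]

theorem nn_psi (e : E) (z : κ → S) : nn N θ (Psi N θ e z) = e * nn N θ z * e⁻¹ := by
  change ((θ.symm (Psi N θ e z) : N) : E) = e * ((θ.symm z : N) : E) * e⁻¹
  rw [Psi_apply, MulEquiv.symm_apply_apply, MulAut.conjNormal_apply]

theorem nn_inj {y z : κ → S} (h : nn N θ y = nn N θ z) : y = z :=
  θ.symm.injective (Subtype.ext h)

theorem Psi_nn (y z : κ → S) : Psi N θ (nn N θ y) z = y * z * y⁻¹ := by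
  apply nn_inj N θ
  rw [nn_psi, map_mul, map_mul, map_inv]

variable (c : A →* MulAut S)

/-- The complement. -/
def E0 : Subgroup E where
  carrier := {e | ∃ (π : Equiv.Perm κ) (x : κ → A), Wr c (Psi N θ e) π x}
  one_mem' := ⟨1, fun _ => 1, by
    rw [map_one]
    exact Wr.one⟩
  mul_mem' := by
    rintro e f ⟨π, x, h⟩ ⟨π', x', h'⟩
    refine ⟨π * π', fun k => x (π' k) * x' k, ?_⟩
    rw [map_mul]
    exact h.mul h'
  inv_mem' := by
    rintro e ⟨π, x, h⟩
    refine ⟨π⁻¹, fun k => (x (π⁻¹ k))⁻¹, ?_⟩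
    rw [map_inv]
    exact h.inv

theorem mem_E0 {e : E} : e ∈ E0 N θ c ↔ ∃ (π : Equiv.Perm κ) (x : κ → A),
    Wr c (Psi N θ e) π x := Iff.rfl

variable {c}

theorem E0_disj [Nontrivial S] (hc : Cpl c) (hz : Subgroup.center S = ⊥) {e : E} (he : e ∈ N)
    (h : e ∈ E0 N θ c) : e = 1 := by
  classical
  obtain ⟨s, rfl⟩ := nn_surj N θ he
  obtain ⟨π, x, hx⟩ := h
  have h1 : ∀ (z : κ → S) (k : κ), s (π k) * z (π k) * (s (π k))⁻¹ = c (x k) (z k) := by
    intro z k
    have h2 := hx z k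
    rw [Psi_nn] at h2
    exact h2
  have hπ : ∀ k, π k = k := by
    intro k
    by_contra hne
    obtain ⟨t, ht⟩ := exists_ne (1 : S)
    have h2 := h1 (Pi.mulSingle (π k) t) k
    rw [Pi.mulSingle_eq_same, Pi.mulSingle_eq_of_ne (Ne.symm hne), map_one] at h2
    apply ht
    rw [mul_inv_eq_one] at h2
    exact mul_eq_left.mp h2
  have hs : s = 1 := by
    funext k
    have h2 : ∀ t, c (x k) t = s k * t * (s k)⁻¹ := by
      intro t
      have h3 := h1 (fun _ => t) k
      rw [hπ k] at h3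
      exact h3.symm
    have h3 := hc.inn _ _ h2
    have h4 : s k ∈ Subgroup.center S := by
      rw [Subgroup.mem_center_iff]
      intro t
      have h5 := h2 t
      rw [h3, map_one, MulAut.one_apply] at h5
      exact mul_inv_eq_iff_eq_mul.mp h5.symm |>.symm
    rw [hz] at h4
    exact Subgroup.mem_bot.mp h4
  rw [hs, map_one]

theorem E0_sup [Finite κ] [IsSimpleGroup S] (hc : Cpl c) (hz : Subgroup.center S = ⊥) (e : E) :
    ∃ y, nn N θ y * e ∈ E0 N θ c := by
  classical
  obtain ⟨π, φ, h⟩ := Pool.Agent.Lib.MP_7f581e_nt.AutAlt.aut_pi hz (Psi N θ e)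
  choose s x hsx using fun k => hc.sup (φ k)
  refine ⟨fun i => (s (π.symm i))⁻¹, π, x, ?_⟩
  intro z k
  rw [map_mul, MulAut.mul_apply, Psi_nn]
  change (s (π.symm (π k)))⁻¹ * Psi N θ e z (π k) * ((s (π.symm (π k)))⁻¹)⁻¹ = _
  rw [h, hsx, Equiv.symm_apply_apply]
  group

variable (c)

/-- The permutation. -/
noncomputable def pE (e : E0 N θ c) : Equiv.Perm κ := e.2.choose

/-- The factors. -/
noncomputable def xE (e : E0 N θ c) : κ → A := e.2.choose_spec.choose

theorem wrE (e : E0 N θ c) : Wr c (Psi N θ e) (pE N θ c e) (xE N θ c e) :=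
  e.2.choose_spec.choose_spec

variable {c}

theorem pE_one [Nontrivial S] (hc : Cpl c) : pE N θ c 1 = 1 ∧ xE N θ c 1 = fun _ => 1 := by
  have h := wrE N θ c 1
  have h1 : Psi N θ ((1 : E0 N θ c) : E) = 1 := by
    change Psi N θ (1 : E) = 1
    rw [map_one]
  rw [h1] at h
  exact h.unique hc Wr.one

theorem pE_mul [Nontrivial S] (hc : Cpl c) (e f : E0 N θ c) :
    pE N θ c (e * f) = pE N θ c e * pE N θ c f ∧
      xE N θ c (e * f) = fun k => xE N θ c e (pE N θ c f k) * xE N θ c f k := by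
  have h := wrE N θ c (e * f)
  have h1 : Psi N θ ((e * f : E0 N θ c) : E) = Psi N θ e * Psi N θ f := by
    change Psi N θ ((e : E) * f) = _
    rw [map_mul]
  rw [h1] at h
  exact h.unique hc ((wrE N θ c e).mul (wrE N θ c f))

/-- The action on the ring. -/
noncomputable def rhoW [Nontrivial S] (hc : Cpl c) {B : Type*} [Ring B] (r : A →* RingAut B) :
    E0 N θ c →* RingAut (κ → B) where
  toFun e := wR r (pE N θ c e) (xE N θ c e)
  map_one' := by
    rw [(pE_one N θ hc).1, (pE_one N θ hc).2]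
    exact wR_one r
  map_mul' e f := by
    rw [(pE_mul N θ hc e f).1, (pE_mul N θ hc e f).2]
    exact wR_mul r _ _ _ _

theorem rhoW_apply [Nontrivial S] (hc : Cpl c) {B : Type*} [Ring B] (r : A →* RingAut B)
    (e : E0 N θ c) (b : κ → B) (k : κ) :
    rhoW N θ hc r e b (pE N θ c e k) = r (xE N θ c e k) (b k) := wR_apply r _ _ b k

/-- The complement is the quotient. -/
noncomputable def quoE [Finite κ] [IsSimpleGroup S] (hc : Cpl c)
    (hz : Subgroup.center S = ⊥) : E0 N θ c ≃* E ⧸ N :=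
  MulEquiv.ofBijective ((QuotientGroup.mk' N).comp (Subgroup.subtype _)) ⟨by
    rw [injective_iff_map_eq_one]
    rintro ⟨e, he⟩ h
    have h1 : e ∈ N := (QuotientGroup.eq_one_iff e).mp h
    exact Subtype.ext (E0_disj N θ hc hz h1 he), by
    intro q
    obtain ⟨e, rfl⟩ := QuotientGroup.mk'_surjective N q
    obtain ⟨x, hx⟩ := E0_sup N θ hc hz e
    refine ⟨⟨_, hx⟩, ?_⟩
    change (QuotientGroup.mk' N) (nn N θ x * e) = _
    have h1 : QuotientGroup.mk' N (nn N θ x) = 1 := (QuotientGroup.eq_one_iff _).mpr (nn_mem N θ x)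
    rw [map_mul, h1, one_mul]⟩

theorem quoE_apply [Finite κ] [IsSimpleGroup S] (hc : Cpl c)
    (hz : Subgroup.center S = ⊥) (e : E0 N θ c) :
    quoE N θ hc hz e = QuotientGroup.mk' N e := rfl

end ext

section solve

/-- Changing the quotient by an isomorphism. -/
theorem SolvesOver.equiv {K F : Type u} [Field K] [Field F] [Algebra K F] {E G G' : Type}
    [Group E] [Group G] [Group G'] {f : E →* G} (hf : SolvesOver K F f) (e : G ≃* G') :
    SolvesOver K F (e.toMonoidHom.comp f) := by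
  intro M _ _ _ _ e0
  obtain ⟨L, h1, h2, h3, h4, e', i, h5, h6⟩ := hf M (e0.trans e.symm)
  refine ⟨L, h1, h2, h3, h4, e', i, h5, ?_⟩
  intro σ x
  rw [h6]
  rfl

/-- **Reduction to the split case.** -/
theorem solvesOver_of_cpl {S A : Type} [Group S] [Group A] {c : A →* MulAut S} (hc : Cpl c)
    [IsSimpleGroup S] (hz : Subgroup.center S = ⊥) {κ : Type} [Finite κ]
    {E : Type} [Group E] (N : Subgroup E) [N.Normal] (θ : N ≃* (κ → S))
    {V : Type} [Group V] (t : V →* (κ → S)) (ht : Function.Surjective t)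
    (act : E0 N θ c →* MulAut V) (hact : ∀ e v, t (act e v) = Psi N θ e (t v))
    {K F : Type u} [Field K] [Field F] [Algebra K F]
    (hs : SolvesOver K F (SemidirectProduct.rightHom : V ⋊[act] E0 N θ c →* E0 N θ c)) :
    SolvesOver K F (QuotientGroup.mk' N) := by
  have : Nontrivial S := inferInstance
  have hcomm : ∀ e : E0 N θ c, ((nn N θ).comp t).comp (act e).toMonoidHom =
      (MulAut.conj ((E0 N θ c).subtype e)).toMonoidHom.comp ((nn N θ).comp t) := by
    intro e
    ext v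
    change nn N θ (t (act e v)) = (e : E) * nn N θ (t v) * (e : E)⁻¹
    rw [hact, nn_psi]
  refine SolvesOver.of_surjective (SemidirectProduct.lift ((nn N θ).comp t)
    (E0 N θ c).subtype hcomm) ?_ ?_ (SolvesOver.equiv hs (quoE N θ hc hz))
  · intro e
    obtain ⟨y, hy⟩ := E0_sup N θ hc hz e
    obtain ⟨v, hv⟩ := ht y⁻¹
    refine ⟨⟨v, ⟨_, hy⟩⟩, ?_⟩
    change nn N θ (t v) * (nn N θ y * e) = e
    rw [hv, map_inv, inv_mul_cancel_left]
  · rintro ⟨v, e⟩
    change QuotientGroup.mk' N (nn N θ (t v) * (e : E)) = QuotientGroup.mk' N e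
    have h1 : QuotientGroup.mk' N (nn N θ (t v)) = 1 :=
      (QuotientGroup.eq_one_iff _).mpr (nn_mem N θ _)
    rw [map_mul, h1, one_mul]

end solve

end MP7fW
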