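import Pool.Agent.Lib.MP_7f581e_ntL.W1

/-!
The split case for quotients `H / Z(H)`, `H` a subgroup of the units of a ring `B`, automorphisms
induced by ring automorphisms of `B`.
-/

set_option autoImplicit false
set_option linter.unusedSectionVars false

universe u

namespace MP7fW

open MP7fE MP7fR

section quo

variable {H : Type*} [Group H]

/-- Automorphisms of `H` act on `H / Z(H)`. -/
def quoAut : MulAut H →* MulAut (H ⧸ Subgroup.center H) where
  toFun e := QuotientGroup.congr _ _ e (by
    ext x
    rw [Subgroup.mem_map, Subgroup.mem_center_iff]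
    constructor
    · rintro ⟨y, hy, rfl⟩ g
      have hy' := Subgroup.mem_center_iff.mp hy (e.symm g)
      change g * e y = e y * g
      have h1 := congrArg e hy'
      rw [map_mul, map_mul, MulEquiv.apply_symm_apply] at h1
      exact h1
    · intro hx
      refine ⟨e.symm x, ?_, MulEquiv.apply_symm_apply e x⟩
      rw [Subgroup.mem_center_iff]
      intro g
      apply e.injective
      rw [map_mul, map_mul, MulEquiv.apply_symm_apply]
      exact hx (e g))
  map_one' := by
    ext1 x
    obtain ⟨y, rfl⟩ := QuotientGroup.mk_surjective x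
    rfl
  map_mul' e f := by
    ext1 x
    obtain ⟨y, rfl⟩ := QuotientGroup.mk_surjective x
    rfl

theorem quoAut_mk (e : MulAut H) (h : H) :
    quoAut e (h : H ⧸ Subgroup.center H) = ((e h : H) : H ⧸ Subgroup.center H) := rfl

end quo

section restr

variable {A B H : Type*} [Group A] [Ring B] [Group H] (inc : H →* B)
  (hinj : Function.Injective inc) (r : A →* RingAut B) (hex : ∀ x h, ∃ h', inc h' = r x (inc h))

include hinj in
/-- Ring automorphisms which preserve `H`. -/
noncomputable def restr : A →* MulAut H where
  toFun x :=
    { toFun := fun h => (hex x h).choose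
      invFun := fun h => (hex x⁻¹ h).choose
      left_inv := fun h => by
        apply hinj
        rw [(hex _ _).choose_spec, (hex _ _).choose_spec, ← RingAut.mul_apply, ← map_mul,
          inv_mul_cancel, map_one]
        rfl
      right_inv := fun h => by
        apply hinj
        rw [(hex _ _).choose_spec, (hex _ _).choose_spec, ← RingAut.mul_apply, ← map_mul,
          mul_inv_cancel, map_one]
        rfl
      map_mul' := fun h h' => by
        apply hinj
        rw [(hex _ _).choose_spec, map_mul, map_mul, map_mul, (hex _ _).choose_spec,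
          (hex _ _).choose_spec] }
  map_one' := by
    ext1 h
    apply hinj
    change inc (hex 1 h).choose = inc h
    rw [(hex _ _).choose_spec, map_one]
    rfl
  map_mul' x y := by
    ext1 h
    apply hinj
    change inc (hex (x * y) h).choose = inc (hex x (hex y h).choose).choose
    rw [(hex _ _).choose_spec, (hex _ _).choose_spec, (hex _ _).choose_spec, map_mul]
    rfl

theorem inc_restr (x : A) (h : H) : inc (restr inc hinj r hex x h) = r x (inc h) :=
  (hex x h).choose_spec

/-- The action on the quotient. -/
noncomputable def cQ : A →* MulAut (H ⧸ Subgroup.center H) :=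
  quoAut.comp (restr inc hinj r hex)

theorem cQ_mk (x : A) (h : H) : cQ inc hinj r hex x (h : H ⧸ Subgroup.center H) =
    ((restr inc hinj r hex x h : H) : H ⧸ Subgroup.center H) := rfl

theorem cQ_mk' (x : A) {h h' : H} (hh : inc h' = r x (inc h)) :
    cQ inc hinj r hex x (h : H ⧸ Subgroup.center H) = (h' : H ⧸ Subgroup.center H) := by
  rw [cQ_mk]
  congr 1
  apply hinj
  rw [inc_restr, hh]

end restr

/-- The centre of a simple group which is not commutative. -/
theorem center_eq_bot {S : Type*} [Group S] [IsSimpleGroup S] {a b : S} (h : a * b ≠ b * a) :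
    Subgroup.center S = ⊥ := by
  rcases (inferInstance : (Subgroup.center S).Normal).eq_bot_or_eq_top with h1 | h1
  · exact h1
  · exfalso
    apply h
    have h2 : b ∈ Subgroup.center S := by
      rw [h1]
      exact Subgroup.mem_top b
    exact Subgroup.mem_center_iff.mp h2 a

/-- **The split case.** -/
theorem solvesOver_of_class {A B H : Type} [Group A] [Ring B] [Group H] (inc : H →* B)
    (hinj : Function.Injective inc) (r : A →* RingAut B) (hex : ∀ x h, ∃ h', inc h' = r x (inc h))
    (hc : Cpl (cQ inc hinj r hex)) [IsSimpleGroup (H ⧸ Subgroup.center H)]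
    (hz : Subgroup.center (H ⧸ Subgroup.center H) = ⊥) {κ : Type} [Finite κ]
    {E : Type} [Group E] (N : Subgroup E) [N.Normal] (θ : N ≃* (κ → H ⧸ Subgroup.center H))
    {V : Type} [Group V] (l : V →* (κ → H)) (hl : Function.Surjective l)
    (act : E0 N θ (cQ inc hinj r hex) →* MulAut V)
    (hact : ∀ e v, (fun k => inc (l (act e v) k)) = rhoW N θ hc r e (fun k => inc (l v k)))
    {K F : Type u} [Field K] [Field F] [Algebra K F]
    (hs : SolvesOver K F (SemidirectProduct.rightHom :
      V ⋊[act] E0 N θ (cQ inc hinj r hex) →* E0 N θ (cQ inc hinj r hex))) :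
    SolvesOver K F (QuotientGroup.mk' N) := by
  let mkk : (κ → H) →* (κ → H ⧸ Subgroup.center H) :=
    { toFun := fun h k => ((h k : H) : H ⧸ Subgroup.center H)
      map_one' := rfl
      map_mul' := fun _ _ => rfl }
  refine solvesOver_of_cpl hc hz N θ (mkk.comp l) ?_ act ?_ hs
  · intro z
    choose h hh using fun k => QuotientGroup.mk_surjective (z k)
    obtain ⟨v, hv⟩ := hl h
    refine ⟨v, ?_⟩
    funext k
    change ((l v k : H) : H ⧸ Subgroup.center H) = z k
    rw [hv, hh]
  · intro e v
    funext i
    obtain ⟨k, rfl⟩ := (pE N θ (cQ inc hinj r hex) e).surjective i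
    rw [wrE N θ (cQ inc hinj r hex) e]
    change ((l (act e v) (pE N θ (cQ inc hinj r hex) e k) : H) : H ⧸ Subgroup.center H) =
      cQ inc hinj r hex (xE N θ (cQ inc hinj r hex) e k) ((l v k : H) : H ⧸ Subgroup.center H)
    symm
    apply cQ_mk'
    have h1 := congrFun (hact e v) (pE N θ (cQ inc hinj r hex) e k)
    rw [rhoW_apply] at h1
    exact h1

end MP7fW
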