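import Pool.Agent.Lib.MP_7f581e_ntL.W2
import Pool.Agent.Lib.MP_7f581e_ntL.W3
import Pool.Agent.Lib.MP_7f581e_ntP.AutPSp

/-!
The complement of `PSp(2n, F)` in its automorphism group.
-/

set_option autoImplicit false
set_option linter.unusedSectionVars false

universe u

namespace MP7fW

open Matrix MP7fP MP7fE MP7fR

section nrm

variable {F : Type*} [Field F] {n : ℕ}

/-- A similitude whose powers represent the similitudes modulo `Sp` and scalars. -/
structure NrmS (n0 : GSp n F) : Prop where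
  fix : ∀ σ : F ≃+* F, glMap σ n0.1 = n0.1
  dec : ∀ g : GSp n F, ∃ (h : Sp n F) (s : F), s ≠ 0 ∧ ∃ x ∈ Subgroup.zpowers n0.1,
    g.1.1 = s • (h.1 * x.1)
  scal : ∀ x ∈ Subgroup.zpowers n0.1, ∀ (h : Sp n F) (k : F), x.1 = k • h.1 →
    ∃ c : F, x.1 = c • (1 : Matrix (Fin n ⊕ Fin n) (Fin n ⊕ Fin n) F)

/-- Similitudes whose multiplier is a square. -/
theorem exists_of_sq {M : Matrix (Fin n ⊕ Fin n) (Fin n ⊕ Fin n) F} {c s : F}
    (hM : ∀ x y, om (M *ᵥ x) (M *ᵥ y) = c * om x y) (hs0 : s ≠ 0) (hs : c = s * s) :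
    ∃ h : Sp n F, M = s • h.1 := by
  refine ⟨⟨s⁻¹ • M, mem_of_om ?_⟩, ?_⟩
  · intro x y
    rw [Matrix.smul_mulVec, Matrix.smul_mulVec, om_smul_left, om_smul_right, hM, hs]
    field_simp
  · change M = s • (s⁻¹ • M)
    rw [smul_smul, mul_inv_cancel₀ hs0, one_smul]

theorem nrmS_one [Finite F] (h : CharP F 2) : NrmS (1 : GSp n F) := by
  refine ⟨fun σ => ?_, fun g => ?_, fun x hx h k _ => ?_⟩
  · exact map_one (glMap σ)
  · have := Fintype.ofFinite F
    obtain ⟨c, hc, hg⟩ := g.2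
    obtain ⟨s, hs⟩ : IsSquare c := FiniteField.isSquare_of_char_two (ringChar.eq F 2) c
    have hs0 : s ≠ 0 := by
      rintro rfl
      rw [mul_zero] at hs
      exact hc hs
    obtain ⟨h, hh⟩ := exists_of_sq hg hs0 hs
    refine ⟨h, s, hs0, 1, one_mem _, ?_⟩
    rw [hh]
    change s • h.1 = s • (h.1 * 1)
    rw [mul_one]
  · refine ⟨1, ?_⟩
    have h1 : x = 1 := by
      have h2 : (1 : GSp n F).1 = 1 := rfl
      rw [h2, Subgroup.zpowers_one_eq_bot, Subgroup.mem_bot] at hx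
      exact hx
    rw [h1, one_smul]
    rfl

/-- The matrix. -/
def nM (n : ℕ) (c : F) : Matrix (Fin n ⊕ Fin n) (Fin n ⊕ Fin n) F :=
  fromBlocks 0 (-(c • (1 : Matrix (Fin n) (Fin n) F))) 1 0

theorem nM_mul (c : F) : nM n c * nM n c = -(c • 1) := by
  rw [nM, fromBlocks_multiply]
  simp only [Matrix.zero_mul, Matrix.mul_zero, Matrix.mul_one, Matrix.one_mul, zero_add, add_zero]
  rw [← fromBlocks_one, fromBlocks_smul, fromBlocks_neg, smul_zero, neg_zero]

theorem nM_mulVec (c : F) (x : Fin n ⊕ Fin n → F) :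
    nM n c *ᵥ x = Sum.elim (fun i => -(c * x (Sum.inr i))) (fun i => x (Sum.inl i)) := by
  rw [nM, fromBlocks_mulVec]
  congr 1
  · funext i
    simp [Matrix.neg_mulVec, Matrix.smul_mulVec]
  · funext i
    simp

theorem om_nM (c : F) (x y : Fin n ⊕ Fin n → F) :
    om (nM n c *ᵥ x) (nM n c *ᵥ y) = c * om x y := by
  rw [om_eq, om_eq, Finset.mul_sum]
  apply Finset.sum_congr rfl
  intro i _
  rw [nM_mulVec, nM_mulVec]
  simp only [Sum.elim_inl, Sum.elim_inr]
  ring

/-- The similitude. -/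
def nG (n : ℕ) (c : F) (hc : c ≠ 0) : GSp n F :=
  ⟨⟨nM n c, -(c⁻¹ • nM n c), by
    rw [Matrix.mul_neg, Matrix.mul_smul, nM_mul, smul_neg, neg_neg, smul_smul,
      inv_mul_cancel₀ hc, one_smul], by
    rw [Matrix.neg_mul, Matrix.smul_mul, nM_mul, smul_neg, neg_neg, smul_smul,
      inv_mul_cancel₀ hc, one_smul]⟩, c, hc, om_nM c⟩

theorem nrmS_nG [Finite F] (hn : 0 < n) (c : F) (hc : c ≠ 0)
    (hfix : ∀ σ : F ≃+* F, σ c = c) (hns : ¬ IsSquare c) : NrmS (nG n c hc) := by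
  classical
  have := Fintype.ofFinite F
  refine ⟨fun σ => ?_, fun g => ?_, fun x hx h k hk => ?_⟩
  · apply Units.ext
    rw [glMap_coe]
    change (nM n c).map σ = nM n c
    rw [nM, fromBlocks_map]
    congr 1
    · exact Matrix.map_zero σ (map_zero σ)
    · ext i j
      rw [Matrix.map_apply, Matrix.neg_apply, Matrix.smul_apply, smul_eq_mul, map_neg, map_mul,
        hfix, Matrix.one_apply]
      split_ifs
      · rw [map_one]
      · rw [map_zero]
    · exact map_one' σ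
    · exact Matrix.map_zero σ (map_zero σ)
  · obtain ⟨d, hd, hg⟩ := g.2
    by_cases hsq : IsSquare d
    · obtain ⟨s, hs⟩ := hsq
      have hs0 : s ≠ 0 := by
        rintro rfl
        rw [mul_zero] at hs
        exact hd hs
      obtain ⟨h, hh⟩ := exists_of_sq hg hs0 hs
      refine ⟨h, s, hs0, 1, one_mem _, ?_⟩
      rw [hh]
      change s • h.1 = s • (h.1 * 1)
      rw [mul_one]
    · have h5 : IsSquare (d * c) := by
        have h6 : quadraticChar F d = -1 := quadraticChar_neg_one_iff_not_isSquare.mpr hsq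
        have h7 : quadraticChar F c = -1 := quadraticChar_neg_one_iff_not_isSquare.mpr hns
        have h8 : quadraticChar F (d * c) = 1 := by
          rw [map_mul, h6, h7]
          rfl
        exact (quadraticChar_one_iff_isSquare (mul_ne_zero hd hc)).mp h8
      obtain ⟨s, hs⟩ := h5
      have hs0 : s ≠ 0 := by
        rintro rfl
        rw [mul_zero] at hs
        exact mul_ne_zero hd hc hs
      have hM : ∀ x y, om ((g.1.1 * nM n c) *ᵥ x) ((g.1.1 * nM n c) *ᵥ y) = d * c * om x y := by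
        intro x y
        rw [← Matrix.mulVec_mulVec, ← Matrix.mulVec_mulVec, hg, om_nM, mul_assoc]
      obtain ⟨h, hh⟩ := exists_of_sq hM hs0 hs
      refine ⟨h, s, hs0, (nG n c hc).1⁻¹, inv_mem (Subgroup.mem_zpowers _), ?_⟩
      rw [← Matrix.smul_mul, ← hh, Matrix.mul_assoc]
      have h9 : nM n c * ((nG n c hc).1⁻¹).1 = 1 := gl_mul_inv (nG n c hc).1
      rw [h9, Matrix.mul_one]
  · obtain ⟨a, rfl⟩ := Subgroup.mem_zpowers_iff.mp hx
    let Z : Subgroup (GL (Fin n ⊕ Fin n) F) :=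
      { carrier := {g | ∃ c : F, g.1 = c • (1 : Matrix (Fin n ⊕ Fin n) (Fin n ⊕ Fin n) F)}
        one_mem' := ⟨1, (one_smul _ _).symm⟩
        mul_mem' := by
          rintro g h ⟨c, hc⟩ ⟨d, hd⟩
          refine ⟨c * d, ?_⟩
          change g.1 * h.1 = _
          rw [hc, hd, Matrix.smul_mul, Matrix.one_mul, smul_smul]
        inv_mem' := by
          rintro g ⟨c, hc⟩
          refine ⟨c⁻¹, ?_⟩
          have h1 := gl_mul_inv g
          rw [hc, Matrix.smul_mul, Matrix.one_mul] at h1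
          have hc0 : c ≠ 0 := by
            rintro rfl
            rw [zero_smul] at h1
            have h2 := congrFun (congrFun h1 (Sum.inl ⟨0, hn⟩)) (Sum.inl ⟨0, hn⟩)
            rw [Matrix.one_apply_eq, Matrix.zero_apply] at h2
            exact zero_ne_one h2
          rw [← h1, smul_smul, inv_mul_cancel₀ hc0, one_smul] }
    have hZ2 : (nG n c hc).1 * (nG n c hc).1 ∈ Z := by
      refine ⟨-c, ?_⟩
      change nM n c * nM n c = _
      rw [nM_mul, neg_smul]
    have hZ : ∀ b : ℤ, ((nG n c hc).1) ^ (2 * b) ∈ Z := by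
      intro b
      rw [_root_.zpow_mul]
      apply zpow_mem
      have : ((nG n c hc).1) ^ (2 : ℤ) = (nG n c hc).1 * (nG n c hc).1 := by
        rw [zpow_two]
      rw [this]
      exact hZ2
    rcases Int.even_or_odd' a with ⟨b, hb | hb⟩
    · rw [hb]
      exact hZ b
    · exfalso
      apply hns
      obtain ⟨d, hd⟩ := hZ b
      have h1 : (((nG n c hc).1) ^ a).1 = d • nM n c := by
        rw [hb, _root_.zpow_add, zpow_one]
        change (((nG n c hc).1) ^ (2 * b)).1 * nM n c = _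
        rw [hd, Matrix.smul_mul, Matrix.one_mul]
      rw [h1] at hk
      set o : Fin n := ⟨0, hn⟩
      have h2 : om ((d • nM n c) *ᵥ eb o) ((d • nM n c) *ᵥ fb o) = k * k := by
        rw [hk, Matrix.smul_mulVec, Matrix.smul_mulVec, om_smul_left, om_smul_right,
          om_mulVec h.2, om_eb_fb, if_pos rfl, mul_one]
      rw [Matrix.smul_mulVec, Matrix.smul_mulVec, om_smul_left, om_smul_right, om_nM, om_eb_fb,
        if_pos rfl, mul_one] at h2
      have hd0 : d ≠ 0 := by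
        rintro rfl
        have h3 := (((nG n c hc).1) ^ (2 * b)).mul_inv
        rw [hd, zero_smul, Matrix.zero_mul] at h3
        have h2 := congrFun (congrFun h3 (Sum.inl ⟨0, hn⟩)) (Sum.inl ⟨0, hn⟩)
        rw [Matrix.one_apply_eq, Matrix.zero_apply] at h2
        exact zero_ne_one h2
      refine ⟨k / d, ?_⟩
      field_simp
      linear_combination h2

/-- A nonsquare in the prime field. -/
theorem exists_fixed_nonsquare {p m : ℕ} [hp : Fact p.Prime] [CharP F p] [Finite F]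
    (hcard : Nat.card F = p ^ m) (hp2 : p ≠ 2) (hm : Odd m) :
    ∃ c : F, c ≠ 0 ∧ (∀ σ : F ≃+* F, σ c = c) ∧ ¬ IsSquare c := by
  have := Fintype.ofFinite F
  have hodd : Odd p := hp.out.odd_of_ne_two hp2
  have hF2 : ringChar F ≠ 2 := by
    rw [ringChar.eq F p]
    exact hp2
  have hZ2 : ringChar (ZMod p) ≠ 2 := by
    rw [ringChar.eq (ZMod p) p]
    exact hp2
  obtain ⟨c0, hc0⟩ := FiniteField.exists_nonsquare hZ2
  have hc00 : c0 ≠ 0 := by
    rintro rfl
    exact hc0 ⟨0, by simp⟩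
  let f : ZMod p →+* F := ZMod.castHom (dvd_refl p) F
  have hc : f c0 ≠ 0 := by
    intro h
    exact hc00 ((map_eq_zero f).mp h)
  refine ⟨f c0, hc, ?_, ?_⟩
  · intro σ
    have h1 : (σ : F →+* F).comp f = f := Subsingleton.elim _ _
    exact congrFun (congrArg (fun g : ZMod p →+* F => (g : ZMod p → F)) h1) c0
  · rintro ⟨s, hs⟩
    have hs0 : s ≠ 0 := by
      rintro rfl
      rw [mul_zero] at hs
      exact hc hs
    have h1 : c0 ^ (p / 2) = -1 := by
      rcases ZMod.pow_div_two_eq_neg_one_or_one p hc00 with h | h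
      · exact absurd ((ZMod.euler_criterion p hc00).mpr h) hc0
      · exact h
    have h2 : (f c0) ^ (p / 2) = -1 := by rw [← map_pow, h1, map_neg, map_one]
    have h3 : s ^ (Nat.card F - 1) = 1 := by
      rw [Nat.card_eq_fintype_card]
      exact FiniteField.pow_card_sub_one_eq_one s hs0
    have hp1 : 1 ≤ p := hp.out.one_le
    set G := ∑ i ∈ Finset.range m, p ^ i with hG
    have hGm : G * (p - 1) + 1 = p ^ m := by
      have h5 := geom_sum_mul_add (p - 1) m
      rwa [Nat.sub_add_cancel hp1] at h5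
    have hGodd : Odd G := by
      rw [hG, Finset.odd_sum_iff_odd_card_odd]
      have : (Finset.range m).filter (fun i => Odd (p ^ i)) = Finset.range m := by
        apply Finset.filter_true_of_mem
        intro i _
        exact hodd.pow
      rw [this, Finset.card_range]
      exact hm
    have hp12 : p - 1 = 2 * (p / 2) := by
      obtain ⟨t, rfl⟩ := hodd
      omega
    have h4 : Nat.card F - 1 = 2 * (p / 2) * G := by
      rw [hcard, ← hGm, hp12, Nat.add_sub_cancel, mul_comm]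
    have h5 : s ^ (Nat.card F - 1) = -1 := by
      rw [h4, pow_mul, pow_mul, sq, ← hs, h2, hGodd.neg_one_pow]
    rw [h5] at h3
    exact Ring.neg_one_ne_one_of_char_ne_two hF2 h3

theorem exists_nrmS {p m : ℕ} [hp : Fact p.Prime] [CharP F p] [Finite F] (hn : 0 < n)
    (hcard : Nat.card F = p ^ m) (hpm : p = 2 ∨ Odd m) : ∃ n0 : GSp n F, NrmS n0 := by
  by_cases hp2 : p = 2
  · subst hp2
    exact ⟨1, nrmS_one inferInstance⟩
  · obtain ⟨c, hc, hfix, hns⟩ := exists_fixed_nonsquare hcard hp2 (hpm.resolve_left hp2)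
    exact ⟨nG n c hc, nrmS_nG hn c hc hfix hns⟩

end nrm

section psp

variable {F : Type*} [Field F] {n : ℕ}

/-- Elements of the cyclic group are similitudes. -/
theorem zpow_mem_GSp {n0 : GSp n F} {x : GL (Fin n ⊕ Fin n) F}
    (hx : x ∈ Subgroup.zpowers n0.1) : x ∈ GSp n F := by
  obtain ⟨a, rfl⟩ := Subgroup.mem_zpowers_iff.mp hx
  exact zpow_mem n0.2 a

theorem glMap_zpowers {n0 : GSp n F} (hn : NrmS n0) (σ : F ≃+* F) :
    ∀ g ∈ Subgroup.zpowers n0.1, glMap σ g ∈ Subgroup.zpowers n0.1 := by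
  intro g hg
  obtain ⟨a, rfl⟩ := Subgroup.mem_zpowers_iff.mp hg
  rw [map_zpow, hn.fix]
  exact zpow_mem (Subgroup.mem_zpowers _) a

/-- The complement. -/
abbrev AS {n0 : GSp n F} (hn : NrmS n0) : Subgroup (RingAut (Matrix (Fin n ⊕ Fin n) (Fin n ⊕ Fin n) F)) :=
  AD (Subgroup.zpowers n0.1) (glMap_zpowers hn)

/-- The inclusion. -/
def incS (n : ℕ) (F : Type*) [Field F] : Sp n F →* Matrix (Fin n ⊕ Fin n) (Fin n ⊕ Fin n) F :=
  (symplecticGroup (Fin n) F).subtype

theorem incS_inj : Function.Injective (incS n F) := Subtype.coe_injective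

theorem hexS {n0 : GSp n F} (hn : NrmS n0) (x : AS hn) (h : Sp n F) :
    ∃ h', incS n F h' = (AS hn).subtype x (incS n F h) := by
  obtain ⟨R, g, hg, σ, rfl⟩ := x
  exact ⟨conjG ⟨g, zpow_mem_GSp hg⟩ (mapS (σ : F →+* F) h), rfl⟩

/-- The action on `PSp`. -/
noncomputable abbrev cS {n0 : GSp n F} (hn : NrmS n0) : AS hn →* MulAut (PSp n F) :=
  cQ (incS n F) incS_inj (AS hn).subtype (hexS hn)

theorem cS_mk {n0 : GSp n F} (hn : NrmS n0) (g : GL (Fin n ⊕ Fin n) F)
    (hg : g ∈ Subgroup.zpowers n0.1) (σ : F ≃+* F) (A : Sp n F) :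
    cS hn ⟨cjR g σ, g, hg, σ, rfl⟩ (mkS n F A) =
      mkS n F (conjG ⟨g, zpow_mem_GSp hg⟩ (mapS (σ : F →+* F) A)) :=
  cQ_mk' _ _ _ _ _ rfl

/-- The complement property. -/
theorem cpl_psp [Finite F] (h2 : 2 ≤ n) (h3 : (2 : F) = 0 → 3 ≤ n) {n0 : GSp n F}
    (hn : NrmS n0) : Cpl (cS hn) := by
  have hn0 : 0 < n := by omega
  refine ⟨?_, ?_⟩
  · rintro ⟨R, g, hg, σ, rfl⟩ s hs
    obtain ⟨h, rfl⟩ := mkS_surj s
    obtain ⟨c, hc, hgc⟩ := zpow_mem_GSp hg
    have key : ∀ v : Fin n ⊕ Fin n → F, v ≠ 0 → ∃ k : F,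
        g.1 *ᵥ (σ ∘ v) = k • ((spG h).1.1 *ᵥ v) := by
      intro v hv
      have h4 := hs (mkS n F (T v 1))
      rw [cS_mk hn g hg σ, mapS_T, conjG_T _ hc hgc, ← map_mul, ← map_inv, ← map_mul,
        conj_T] at h4
      have h5 := mkT_eq h2 h4
      have h6 : g.1 *ᵥ (σ ∘ v) ≠ 0 := by
        intro h0
        have h7 : σ ∘ v = 0 := by
          rw [← Matrix.one_mulVec (σ ∘ v), ← gl_inv_mul g, ← Matrix.mulVec_mulVec, h0,
            Matrix.mulVec_zero]
        apply hv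
        funext a
        have h8 := congrFun h7 a
        exact (map_eq_zero σ).mp h8
      obtain ⟨k, -, hk, -⟩ := T_eq h6 (mul_ne_zero (inv_ne_zero hc) (by
        rw [map_one]
        exact one_ne_zero)) h5
      exact ⟨k, hk⟩
    have : Nontrivial (Fin n ⊕ Fin n) := ⟨Sum.inl ⟨0, hn0⟩, Sum.inr ⟨0, hn0⟩, Sum.inl_ne_inr⟩
    obtain ⟨rfl, k, hk⟩ := rigid key
    obtain ⟨d, hd⟩ := hn.scal g hg h k hk
    apply Subtype.ext
    exact cjR_scalar hd
  · intro φ
    obtain ⟨g, σ, hφ⟩ := aut_psp h2 h3 φ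
    obtain ⟨h, s, hs0, x, hx, hg⟩ := hn.dec g
    refine ⟨mkS n F h, ⟨cjR x σ, x, hx, σ, rfl⟩, ?_⟩
    intro t
    obtain ⟨A, rfl⟩ := mkS_surj t
    rw [hφ, cS_mk hn x hx σ, ← map_inv, ← map_mul, ← map_mul]
    congr 1
    apply Subtype.ext
    set B := mapS (σ : F →+* F) A
    change g.1.1 * B.1 * (g.1⁻¹).1 = h.1 * (x.1 * B.1 * (x⁻¹).1) * (h⁻¹).1
    have h4 : (g.1⁻¹).1 = s⁻¹ • ((x⁻¹).1 * (h⁻¹).1) := by
      have h5 : g.1.1 * (s⁻¹ • ((x⁻¹).1 * (h⁻¹).1)) = 1 := by
        rw [hg, Matrix.smul_mul, Matrix.mul_smul, smul_smul, mul_inv_cancel₀ hs0, one_smul]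
        calc h.1 * x.1 * ((x⁻¹).1 * (h⁻¹).1) = h.1 * (x.1 * (x⁻¹).1) * (h⁻¹).1 := by
              simp only [Matrix.mul_assoc]
          _ = h.1 * (h⁻¹).1 := by rw [gl_mul_inv, Matrix.mul_one]
          _ = 1 := congrArg Subtype.val (mul_inv_cancel h)
      calc (g.1⁻¹).1 = (g.1⁻¹).1 * (g.1.1 * (s⁻¹ • ((x⁻¹).1 * (h⁻¹).1))) := by
            rw [h5, Matrix.mul_one]
        _ = ((g.1⁻¹).1 * g.1.1) * (s⁻¹ • ((x⁻¹).1 * (h⁻¹).1)) := by rw [Matrix.mul_assoc]
        _ = _ := by rw [gl_inv_mul, Matrix.one_mul]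
    rw [h4, hg, Matrix.smul_mul, Matrix.smul_mul, Matrix.mul_smul, smul_smul,
      mul_inv_cancel₀ hs0, one_smul]
    simp only [Matrix.mul_assoc]

/-- The centre is trivial. -/
theorem center_psp (h2 : 2 ≤ n) [IsSimpleGroup (PSp n F)] :
    Subgroup.center (PSp n F) = ⊥ := by
  have hn0 : 0 < n := by omega
  set o : Fin n := ⟨0, hn0⟩
  apply center_eq_bot (a := mkS n F (T (eb o) 1)) (b := mkS n F (T (fb o) 1))
  intro h
  have h1 := om_of_comm h2 (eb_ne_zero o) (fb_ne_zero o) one_ne_zero one_ne_zero h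
  rw [om_fb_eb, if_pos rfl] at h1
  exact one_ne_zero (neg_eq_zero.mp h1)

end psp

end MP7fW
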