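import Pool.Agent.Lib.MP_7f581e_ntE.SpecialMv
import Pool.Agent.Lib.MP_7f581e_ntL.V13
import Pool.Agent.Lib.MP_7f581e_ntL.W4

/-!
Embedding problems with kernel a power of `PSp(2n, F)`.
-/

set_option autoImplicit false
set_option linter.unusedSectionVars false

universe u

namespace MP7fW

open Matrix MP7fP MP7fE MP7fU MP7fR MP7fV

section inv

variable {F : Type*} [Field F] {n : ℕ}

theorem sim_J {M : Matrix (Fin n ⊕ Fin n) (Fin n ⊕ Fin n) F} {c : F}
    (hM : ∀ x y, om (M *ᵥ x) (M *ᵥ y) = c * om x y) :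
    Mᵀ * J (Fin n) F * M = c • J (Fin n) F := by
  ext a b
  have h1 := hM (Pi.single a 1) (Pi.single b 1)
  rw [om_eq_J, om_eq_J, Matrix.mulVec_mulVec, ← Matrix.vecMul_transpose,
    ← Matrix.dotProduct_mulVec, Matrix.mulVec_mulVec, ← mul_assoc, mul_neg, neg_inj] at h1
  rw [Matrix.mulVec_single_one, Matrix.mulVec_single_one, single_one_dotProduct,
    single_one_dotProduct] at h1
  exact h1

/-- Semilinear conjugations by similitudes commute with the symplectic involution. -/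
theorem cjR_inv {g : GL (Fin n ⊕ Fin n) F} (hg : g ∈ GSp n F) (σ : F ≃+* F)
    (b : Matrix (Fin n ⊕ Fin n) (Fin n ⊕ Fin n) F) :
    cjR g σ (-(J (Fin n) F) * bᵀ * J (Fin n) F) =
      -(J (Fin n) F) * (cjR g σ b)ᵀ * J (Fin n) F := by
  obtain ⟨c, hc, hgc⟩ := hg
  have h1 := sim_J hgc
  have hJ : J (Fin n) F * J (Fin n) F = -1 := J_squared _ _
  have e1 : (g.1)ᵀ * J (Fin n) F = c • (J (Fin n) F * (g⁻¹).1) := by
    calc (g.1)ᵀ * J (Fin n) F = ((g.1)ᵀ * J (Fin n) F * g.1) * (g⁻¹).1 := by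
          rw [Matrix.mul_assoc _ g.1, gl_mul_inv, Matrix.mul_one]
      _ = _ := by rw [h1, Matrix.smul_mul]
  have e2 : J (Fin n) F * ((g⁻¹).1)ᵀ = c⁻¹ • (g.1 * J (Fin n) F) := by
    have h2 : ((g⁻¹).1)ᵀ * (g.1)ᵀ = 1 := by
      rw [← Matrix.transpose_mul, gl_mul_inv, Matrix.transpose_one]
    have h3 : J (Fin n) F * g.1 = c • (((g⁻¹).1)ᵀ * J (Fin n) F) := by
      calc J (Fin n) F * g.1 = (((g⁻¹).1)ᵀ * (g.1)ᵀ) * (J (Fin n) F * g.1) := by
            rw [h2, Matrix.one_mul]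
        _ = ((g⁻¹).1)ᵀ * ((g.1)ᵀ * J (Fin n) F * g.1) := by simp only [Matrix.mul_assoc]
        _ = _ := by rw [h1, Matrix.mul_smul]
    have h4 : c • ((g⁻¹).1)ᵀ = -(J (Fin n) F * g.1 * J (Fin n) F) := by
      rw [h3, Matrix.smul_mul, Matrix.mul_assoc, hJ, Matrix.mul_neg, Matrix.mul_one, smul_neg,
        neg_neg]
    have h5 : ((g⁻¹).1)ᵀ = c⁻¹ • -(J (Fin n) F * g.1 * J (Fin n) F) := by
      rw [← h4, smul_smul, inv_mul_cancel₀ hc, one_smul]
    rw [h5, Matrix.mul_smul, Matrix.mul_neg]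
    congr 1
    calc -(J (Fin n) F * (J (Fin n) F * g.1 * J (Fin n) F)) =
          -((J (Fin n) F * J (Fin n) F) * (g.1 * J (Fin n) F)) := by simp only [Matrix.mul_assoc]
      _ = g.1 * J (Fin n) F := by rw [hJ, Matrix.neg_mul, Matrix.one_mul, neg_neg]
  have hmapJ : (J (Fin n) F).map σ = J (Fin n) F := by
    rw [J, fromBlocks_map]
    congr 1
    · exact Matrix.map_zero σ (map_zero σ)
    · ext i j
      rw [Matrix.map_apply, Matrix.neg_apply, map_neg, Matrix.one_apply]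
      split_ifs
      · rw [map_one]
      · rw [map_zero]
    · exact map_one' σ
    · exact Matrix.map_zero σ (map_zero σ)
  have hmapn : (-(J (Fin n) F)).map σ = -(J (Fin n) F) := by
    have h6 : (-(J (Fin n) F)).map σ = -((J (Fin n) F).map σ) := by
      ext i j
      exact map_neg σ _
    rw [h6, hmapJ]
  rw [cjR_apply, cjR_apply, map_mul', map_mul', hmapn, hmapJ, transpose_mul, transpose_mul]
  have h7 : (bᵀ).map σ = (b.map σ)ᵀ := rfl
  rw [h7]
  set B := (b.map σ)ᵀ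
  calc g.1 * (-(J (Fin n) F) * B * J (Fin n) F) * (g⁻¹).1 =
        -((g.1 * J (Fin n) F) * B * (J (Fin n) F * (g⁻¹).1)) := by
          simp only [Matrix.neg_mul, Matrix.mul_neg, Matrix.mul_assoc]
    _ = -((c⁻¹ • (g.1 * J (Fin n) F)) * B * (c • (J (Fin n) F * (g⁻¹).1))) := by
          rw [Matrix.smul_mul, Matrix.smul_mul, Matrix.mul_smul, smul_smul, inv_mul_cancel₀ hc,
            one_smul]
    _ = -((J (Fin n) F * ((g⁻¹).1)ᵀ) * B * ((g.1)ᵀ * J (Fin n) F)) := by rw [e1, e2]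
    _ = _ := by simp only [Matrix.neg_mul, Matrix.mul_assoc]

end inv

section solve

variable {F : Type} [Field F] [Finite F] {n : ℕ}

/-- The inverse of `spE`, as a homomorphism. -/
noncomputable def lS (p : ℕ) [Fact p.Prime] [Algebra (ZMod p) F] (κ : Type) [Finite κ] :
    (spInv p (Fin n) F κ).U →* (κ → Sp n F) := (spE p (Fin n) F κ).symm.toMonoidHom

theorem lS_coe (p : ℕ) [Fact p.Prime] [Algebra (ZMod p) F] (κ : Type) [Finite κ]
    (v : (spInv p (Fin n) F κ).U) :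
    (fun k => incS n F (lS p κ v k)) =
      ((v : (κ → Matrix (Fin n ⊕ Fin n) (Fin n ⊕ Fin n) F)ˣ) :
        κ → Matrix (Fin n ⊕ Fin n) (Fin n ⊕ Fin n) F) := rfl

/-- Embedding problems with kernel a power of `PSp(2n, F)` over rational function fields. -/
theorem solvesOver_of_psp_kernel {p m : ℕ} [Fact p.Prime] [CharP F p]
    (hcard : Nat.card F = p ^ m) (hpm : p = 2 ∨ Odd m) (h2 : 2 ≤ n) (h3 : (2 : F) = 0 → 3 ≤ n)
    [IsSimpleGroup (PSp n F)] {κ : Type} [Finite κ] {E : Type} [Group E] [Finite E]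
    (N : Subgroup E) [N.Normal] (θ : N ≃* (κ → PSp n F)) {K : Type u} [Field K] [CharP K p] :
    ∃ r : ℕ, SolvesOver K (FractionRing (MvPolynomial (Fin r) K)) (QuotientGroup.mk' N) := by
  let _ : Algebra (ZMod p) F := ZMod.algebra F p
  obtain ⟨n0, hn⟩ := exists_nrmS (n := n) (F := F) (by omega) hcard hpm
  have hc := cpl_psp h2 h3 hn
  have hz := center_psp (F := F) h2
  let ρ : E0 N θ (cS hn) →* ((κ → Matrix (Fin n ⊕ Fin n) (Fin n ⊕ Fin n) F) ≃+*
    (κ → Matrix (Fin n ⊕ Fin n) (Fin n ⊕ Fin n) F)) := rhoW N θ hc (AS hn).subtype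
  have hρ : ∀ e b, ρ e ((spInv p (Fin n) F κ).j b) = (spInv p (Fin n) F κ).j (ρ e b) := by
    intro e b
    funext i
    obtain ⟨k, rfl⟩ := (pE N θ (cS hn) e).surjective i
    rw [spInv_j]
    change rhoW N θ hc (AS hn).subtype e _ (pE N θ (cS hn) e k) =
      -(J (Fin n) F) * (rhoW N θ hc (AS hn).subtype e b (pE N θ (cS hn) e k))ᵀ * J (Fin n) F
    rw [rhoW_apply, rhoW_apply, spInv_j]
    obtain ⟨g, hg, σ, hR⟩ := (xE N θ (cS hn) e k).2
    change (xE N θ (cS hn) e k).1 _ = -(J (Fin n) F) * ((xE N θ (cS hn) e k).1 (b k))ᵀ * _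
    rw [hR]
    exact cjR_inv (zpow_mem_GSp hg) σ (b k)
  obtain ⟨r, hr⟩ := lang_sp_emb (p := p) (K := K) ρ hρ
  refine ⟨r, solvesOver_of_class (incS n F) incS_inj (AS hn).subtype (hexS hn) hc hz N θ
    (lS p κ) (spE p (Fin n) F κ).symm.surjective _ ?_ hr⟩
  intro e v
  rw [lS_coe, lS_coe]
  exact coe_uactU _ _ _ e v

/-- Embedding problems with kernel a power of `PSp(2n, F)` over Hilbertian fields. -/
theorem solves_of_psp_kernel {p m : ℕ} [Fact p.Prime] [CharP F p]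
    (hcard : Nat.card F = p ^ m) (hpm : p = 2 ∨ Odd m) (h2 : 2 ≤ n) (h3 : (2 : F) = 0 → 3 ≤ n)
    [IsSimpleGroup (PSp n F)] {κ : Type} [Finite κ] {E : Type} [Group E] [Finite E]
    (N : Subgroup E) [N.Normal] (θ : N ≃* (κ → PSp n F)) {K : Type u} [Field K] [CharP K p]
    (hK : MP7fR.IsHilbertian K) : Solves K (QuotientGroup.mk' N) := by
  obtain ⟨r, hr⟩ := solvesOver_of_psp_kernel hcard hpm h2 h3 N θ (K := K)
  exact solves_of_mv hK _ _ hr

end solve

end MP7fW
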