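import Mathlib

set_option autoImplicit false
universe u
namespace MP7fL
open Polynomial

theorem eval_hom {R S : Type*} [CommRing R] [CommRing S] (f : R →+* S) (P : R[X]) (x : R) :
    f (P.eval x) = (P.map f).eval (f x) := by
  rw [eval_map, ← eval₂_id, hom_eval₂, RingHom.comp_id]

theorem nonvanish {K : Type u} [Field K] [Infinite K] (P : K[X][X]) (hP : P ≠ 0) :
    ∃ g : K[X], g ≠ 0 ∧ ∀ a : K, g.eval a ≠ 0 → P.eval (C a) ≠ 0 := by
  obtain ⟨i, hi⟩ : ∃ i, P.coeff i ≠ 0 := by
    by_contra! h
    exact hP (ext (by simpa using h))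
  obtain ⟨u, hu⟩ : ∃ u, (P.coeff i).eval u ≠ 0 := by
    by_contra! h
    exact hi (Polynomial.funext (by simpa using h))
  refine ⟨P.map (evalRingHom u), ?_, ?_⟩
  · intro h
    apply hu
    have := congrArg (fun q => q.coeff i) h
    simpa using this
  · intro a ha h
    apply ha
    have h1 := eval_hom (evalRingHom u) P (C a)
    rw [h, map_zero] at h1
    simpa using h1.symm

/-- roots of monic polynomials have bounded degree -/
theorem natDegree_root_le {K : Type u} [Field K] (f : K[X][X]) (hf : f.Monic) (D : ℕ)
    (hD : ∀ i, (f.coeff i).natDegree ≤ D) (r : K[X]) (hr : f.eval r = 0) : r.natDegree ≤ D := by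
  by_contra! hlt
  have hr0 : r ≠ 0 := by
    rintro rfl
    simp at hlt
  set n := f.natDegree with hn
  have h1 : f.eval r = (∑ i ∈ Finset.range n, f.coeff i * r ^ i) + r ^ n := by
    rw [eval_eq_sum_range, Finset.sum_range_succ, ← hn, hn, hf.coeff_natDegree, one_mul]
  have h2 : r ^ n = -(∑ i ∈ Finset.range n, f.coeff i * r ^ i) := by
    rw [hr] at h1
    linear_combination -h1
  rcases Nat.eq_zero_or_pos n with h0 | hpos
  · rw [h0] at h2
    simp at h2
  have h3 : (r ^ n).natDegree ≤ D + (n - 1) * r.natDegree := by
    rw [h2, natDegree_neg]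
    apply natDegree_sum_le_of_forall_le
    intro i hi
    rw [Finset.mem_range] at hi
    calc (f.coeff i * r ^ i).natDegree ≤ (f.coeff i).natDegree + (r ^ i).natDegree :=
          natDegree_mul_le
      _ ≤ D + i * r.natDegree := by
          gcongr
          · exact hD i
          · exact natDegree_pow_le
      _ ≤ D + (n - 1) * r.natDegree := by
          gcongr
          omega
  rw [natDegree_pow] at h3
  obtain ⟨m, hm⟩ : ∃ m, n = m + 1 := ⟨n - 1, by omega⟩
  rw [hm] at h3
  simp only [Nat.add_sub_cancel] at h3
  nlinarith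


/-- clearing denominators in a Bezout relation -/
theorem bezout_of_separable {A : Type*} [CommRing A] [IsDomain A] {L : Type*} [Field L]
    (φ : A →+* L) (hφ : Function.Injective φ) (H : A[X]) (hH : (H.map φ).Separable) :
    ∃ (a b : A[X]) (r : A), r ≠ 0 ∧ a * H + b * derivative H = C r := by
  classical
  have hfac : ∀ x : A, algebraMap A (FractionRing A) x = algebraMap A (FractionRing A) x := fun _ => rfl
  let ψ : FractionRing A →+* L := IsFractionRing.lift hφ
  have hψ : ψ.comp (algebraMap A (FractionRing A)) = φ := by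
    ext x
    exact IsFractionRing.lift_algebraMap hφ x
  have h1 : (H.map (algebraMap A (FractionRing A))).Separable := by
    rw [← separable_map ψ, map_map, hψ]
    exact hH
  obtain ⟨a, b, hab⟩ := h1
  rw [derivative_map] at hab
  obtain ⟨s, hs⟩ := IsLocalization.exist_integer_multiples_of_finset (nonZeroDivisors A)
    ((a.support.image a.coeff) ∪ (b.support.image b.coeff))
  have hlift : ∀ p : (FractionRing A)[X], (∀ i, ∃ c : A, algebraMap A (FractionRing A) c =
      algebraMap A (FractionRing A) s * p.coeff i) →
      ∃ q : A[X], q.map (algebraMap A (FractionRing A)) =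
        C (algebraMap A (FractionRing A) s) * p := by
    intro p hp
    have : C (algebraMap A (FractionRing A) s) * p ∈ lifts (algebraMap A (FractionRing A)) := by
      rw [lifts_iff_coeff_lifts]
      intro i
      rw [coeff_C_mul]
      exact hp i
    rw [lifts_iff_set_range] at this
    exact this
  have hcoef : ∀ p : (FractionRing A)[X], p = a ∨ p = b → ∀ i, ∃ c : A,
      algebraMap A (FractionRing A) c = algebraMap A (FractionRing A) s * p.coeff i := by
    intro p hp i
    by_cases h0 : p.coeff i = 0
    · exact ⟨0, by rw [h0]; simp⟩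
    · have hmem : p.coeff i ∈ (a.support.image a.coeff) ∪ (b.support.image b.coeff) := by
        rcases hp with rfl | rfl
        · exact Finset.mem_union_left _ (Finset.mem_image.mpr ⟨i, mem_support_iff.mpr h0, rfl⟩)
        · exact Finset.mem_union_right _ (Finset.mem_image.mpr ⟨i, mem_support_iff.mpr h0, rfl⟩)
      obtain ⟨c, hc⟩ := hs _ hmem
      refine ⟨c, ?_⟩
      rw [hc, Algebra.smul_def]
  obtain ⟨a', ha'⟩ := hlift a (hcoef a (Or.inl rfl))
  obtain ⟨b', hb'⟩ := hlift b (hcoef b (Or.inr rfl))
  refine ⟨a', b', s, nonZeroDivisors.coe_ne_zero s, ?_⟩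
  have hinj : Function.Injective (mapRingHom (algebraMap A (FractionRing A))) :=
    map_injective _ (IsFractionRing.injective A (FractionRing A))
  apply hinj
  simp only [coe_mapRingHom, Polynomial.map_add, Polynomial.map_mul, map_C]
  rw [ha', hb']
  linear_combination (C (algebraMap A (FractionRing A) s)) * hab

end MP7fL
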