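import Pool.Agent.Lib.MP_7f581e_ntL.WH1

set_option autoImplicit false
universe u
namespace MP7fL
open Polynomial

theorem sep_spec {K : Type u} [Field K] {L : Type*} [Field L] (H : K[X][X][X])
    (φ : K[X][X] →+* L) (hφ : Function.Injective φ) (hH : (H.map φ).Separable) :
    ∃ c : K[X], c ≠ 0 ∧ ∀ u : K, c.eval u ≠ 0 →
      ((H.map (mapRingHom (evalRingHom u))).map (algebraMap K[X] (RatFunc K))).Separable := by
  obtain ⟨a, b, r, hr, hab⟩ := bezout_of_separable φ hφ H hH
  obtain ⟨i, hi⟩ : ∃ i, r.coeff i ≠ 0 := by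
    by_contra! h
    exact hr (ext (by simpa using h))
  refine ⟨r.coeff i, hi, ?_⟩
  intro u hu
  set ε : K[X][X] →+* K[X] := mapRingHom (evalRingHom u) with hε
  have h1 : ε r ≠ 0 := by
    intro h
    apply hu
    have := congrArg (fun q => q.coeff i) h
    simpa [hε] using this
  have h2 : algebraMap K[X] (RatFunc K) (ε r) ≠ 0 := by
    intro h
    apply h1
    exact (IsFractionRing.injective K[X] (RatFunc K)) (by rw [h, map_zero])
  let κ : K[X] →+* RatFunc K := algebraMap K[X] (RatFunc K)
  have h3 := congrArg (fun q : K[X][X][X] => (q.map ε).map κ) hab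
  simp only [Polynomial.map_add, Polynomial.map_mul, map_C] at h3
  refine ⟨C (κ (ε r))⁻¹ * (a.map ε).map κ, C (κ (ε r))⁻¹ * (b.map ε).map κ, ?_⟩
  rw [derivative_map, derivative_map]
  have h4 : C (κ (ε r))⁻¹ * C (κ (ε r)) = (1 : (RatFunc K)[X]) := by
    rw [← C_mul, inv_mul_cancel₀ h2, C_1]
  calc _ = C (κ (ε r))⁻¹ * (((a.map ε).map κ) * ((H.map ε).map κ) +
      ((b.map ε).map κ) * (((derivative H).map ε).map κ)) := by ring
    _ = 1 := by rw [h3, h4]

/-- split off the polynomial roots -/
theorem split_roots {K : Type u} [Field K] (f : K[X][X]) (hf : f.Monic)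
    (hs : (f.map (algebraMap K[X] (RatFunc K))).Separable) :
    ∃ q : K[X][X], q.Monic ∧ (q.map (algebraMap K[X] (RatFunc K))).Separable ∧
      (∀ y : K[X], q.eval y ≠ 0) ∧
      ∀ a ρ : K, (f.map (evalRingHom a)).eval ρ = 0 →
        (∃ y ∈ f.roots, y.eval a = ρ) ∨ (q.map (evalRingHom a)).eval ρ = 0 := by
  obtain ⟨q, hq, -, hroots⟩ := exists_prod_multiset_X_sub_C_mul f
  have hPm : (f.roots.map fun a => X - C a).prod.Monic :=
    monic_multiset_prod_of_monic _ _ (fun a _ => monic_X_sub_C a)
  have hqm : q.Monic := by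
    apply hPm.of_mul_monic_left
    rw [hq]
    exact hf
  refine ⟨q, hqm, ?_, ?_, ?_⟩
  · apply hs.of_dvd
    rw [← hq, Polynomial.map_mul]
    exact dvd_mul_left _ _
  · intro y hy
    have : y ∈ q.roots := by
      rw [mem_roots hqm.ne_zero]
      exact hy
    rw [hroots] at this
    simp at this
  · intro a ρ h
    rw [← hq, Polynomial.map_mul, eval_mul, mul_eq_zero] at h
    rcases h with h | h
    · left
      rw [Polynomial.map_multiset_prod, eval_multiset_prod, Multiset.map_map, Multiset.map_map,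
        Multiset.prod_eq_zero_iff, Multiset.mem_map] at h
      obtain ⟨y, hy, h0⟩ := h
      refine ⟨y, hy, ?_⟩
      simp at h0
      linear_combination -h0
    · exact Or.inr h

end MP7fL
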