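import Pool.Agent.Lib.MP_7f581e_ntL.WH2

set_option autoImplicit false
universe u
namespace MP7fL
open Polynomial

theorem key_H {K : Type u} [Field K] [Infinite K] {L : Type*} [Field L] (H : K[X][X][X])
    (hHm : H.Monic) (φ : K[X][X] →+* L) (hφ : Function.Injective φ) (hs : (H.map φ).Separable)
    (hroot : ∀ y : K[X][X], H.eval y ≠ 0) :
    ∃ (t : Finset K[X][X]) (g : K[X]), g ≠ 0 ∧
      (∀ f ∈ t, f.Monic ∧ (f.map (algebraMap K[X] (RatFunc K))).Separable ∧
        ∀ y : K[X], f.eval y ≠ 0) ∧
      ∀ a : K, g.eval a ≠ 0 →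
        (∀ f ∈ t, ∀ ρ : K, (f.map (evalRingHom a)).eval ρ ≠ 0) →
        ∀ r : K[X], (H.map (evalRingHom (C a))).eval r ≠ 0 := by
  classical
  -- degree bound
  obtain ⟨D, hD⟩ : ∃ D : ℕ, ∀ i j, ((H.coeff i).coeff j).natDegree ≤ D := by
    refine ⟨H.support.sup fun i => (H.coeff i).support.sup fun j =>
      ((H.coeff i).coeff j).natDegree, ?_⟩
    intro i j
    by_cases h0 : H.coeff i = 0
    · rw [h0]; simp
    by_cases h1 : (H.coeff i).coeff j = 0
    · rw [h1]; simp
    refine le_trans ?_ (Finset.le_sup (f := fun i => (H.coeff i).support.sup fun j =>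
      ((H.coeff i).coeff j).natDegree) (mem_support_iff.mpr h0))
    exact Finset.le_sup (f := fun j => ((H.coeff i).coeff j).natDegree) (mem_support_iff.mpr h1)
  obtain ⟨c, hc, hcs⟩ := sep_spec H φ hφ hs
  -- the nodes
  have hinf : {u : K | c.eval u ≠ 0}.Infinite := by
    have h1 : {u : K | c.eval u = 0}.Finite := by
      refine (c.roots.toFinset.finite_toSet).subset ?_
      intro u hu
      simp only [Finset.mem_coe, Multiset.mem_toFinset, mem_roots hc]
      exact hu
    have h2 := h1.infinite_compl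
    exact h2
  obtain ⟨s, hsub, hcard⟩ := hinf.exists_subset_card_eq (D + 1)
  have hsc : ∀ u ∈ s, c.eval u ≠ 0 := fun u hu => hsub hu
  let Hu : K → K[X][X] := fun u => H.map (mapRingHom (evalRingHom u))
  have hHu : ∀ u, (Hu u).Monic := fun u => hHm.map _
  have hsplit := fun (u : K) (hu : c.eval u ≠ 0) => split_roots (Hu u) (hHu u) (hcs u hu)
  choose! q hq1 hq2 hq3 hq4 using hsplit
  -- interpolation
  let R : K → Finset K[X] := fun u => (Hu u).roots.toFinset
  let Y : (∀ u ∈ s, K[X]) → K[X][X] := fun θ =>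
    ∑ u ∈ s.attach, (θ u.1 u.2).map (C : K →+* K[X]) * C (Lagrange.basis s id u.1)
  have hY : ∀ θ (a : K), (Y θ).eval (C a) =
      ∑ u ∈ s.attach, C ((θ u.1 u.2).eval a) * Lagrange.basis s id u.1 := by
    intro θ a
    simp only [Y, eval_finsetSum, eval_mul, eval_C]
    refine Finset.sum_congr rfl fun u _ => ?_
    congr 1
    rw [eval_map, eval₂_at_apply]
  have hne : ∀ θ, H.eval (Y θ) ≠ 0 := fun θ => hroot _
  have hgex := fun θ => nonvanish (H.eval (Y θ)) (hne θ)
  choose G hG1 hG2 using hgex
  refine ⟨s.image q, ∏ θ ∈ Finset.pi s R, G θ, ?_, ?_, ?_⟩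
  · rw [Finset.prod_ne_zero_iff]
    intro θ _
    exact hG1 θ
  · intro f hf
    rw [Finset.mem_image] at hf
    obtain ⟨u, hu, rfl⟩ := hf
    exact ⟨hq1 u (hsc u hu), hq2 u (hsc u hu), hq3 u (hsc u hu)⟩
  · intro a ha hno r hr
    have hcomp : ∀ u : K, (evalRingHom u).comp (evalRingHom (C a : K[X])) =
        (evalRingHom a).comp (mapRingHom (evalRingHom u)) := by
      intro u
      ext x
      · simp
      · simp
      · simp
    have hru : ∀ u ∈ s, ∃ y ∈ (Hu u).roots, y.eval a = r.eval u := by
      intro u hu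
      have h1 : ((Hu u).map (evalRingHom a)).eval (r.eval u) = 0 := by
        have h2 := eval_hom (evalRingHom u) (H.map (evalRingHom (C a))) r
        rw [hr, map_zero, map_map, hcomp u, ← map_map] at h2
        exact h2.symm
      rcases hq4 u (hsc u hu) a (r.eval u) h1 with h | h
      · exact h
      · exact absurd h (hno _ (Finset.mem_image_of_mem q hu) _)
    choose θ hθ1 hθ2 using hru
    have hθ : θ ∈ Finset.pi s R := by
      rw [Finset.mem_pi]
      intro u hu
      exact Multiset.mem_toFinset.mpr (hθ1 u hu)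
    have hdeg : r.degree < (s.card : WithBot ℕ) := by
      have h1 : r.natDegree ≤ D := by
        refine natDegree_root_le (H.map (evalRingHom (C a))) (hHm.map _) D ?_ r hr
        intro i
        rw [coeff_map]
        change ((H.coeff i).eval (C a)).natDegree ≤ D
        rw [eval_eq_sum_range]
        apply natDegree_sum_le_of_forall_le
        intro j _
        rw [← C_pow]
        exact (natDegree_mul_C_le _ _).trans (hD i j)
      calc r.degree ≤ r.natDegree := degree_le_natDegree
        _ < (s.card : WithBot ℕ) := by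
          rw [hcard]
          exact_mod_cast Nat.lt_succ_of_le h1
    have hr2 : r = (Y θ).eval (C a) := by
      have h1 := Lagrange.eq_interpolate (s := s) (v := id) (f := r)
        (Set.injOn_id _) hdeg
      rw [hY]
      rw [h1, Lagrange.interpolate_apply, ← Finset.sum_attach]
      refine Finset.sum_congr rfl fun u _ => ?_
      rw [hθ2 u.1 u.2, id]
    have h3 : (H.eval (Y θ)).eval (C a) = 0 := by
      have h4 := eval_hom (evalRingHom (C a : K[X])) H (Y θ)
      rw [coe_evalRingHom] at h4
      rw [h4, ← hr2, hr]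
    have h5 : (G θ).eval a ≠ 0 := by
      intro h6
      apply ha
      rw [eval_prod]
      exact Finset.prod_eq_zero hθ h6
    exact hG2 θ a h5 h3

end MP7fL
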