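import Pool.Agent.Lib.MP_7f581e_ntL.WH1

set_option autoImplicit false
universe u
namespace MP7fL
open Polynomial

theorem monic_dvd_prod {F : Type*} [Field F] {ι : Type*} [DecidableEq ι] (b : ι → F)
    (U : Finset ι) : ∀ (G : F[X]), G.Monic → G ∣ ∏ i ∈ U, (X - C (b i)) →
      ∃ S ⊆ U, G = ∏ i ∈ S, (X - C (b i)) := by
  induction U using Finset.induction_on with
  | empty =>
    intro G hG h
    rw [Finset.prod_empty] at h
    refine ⟨∅, Finset.Subset.refl _, ?_⟩
    rw [Finset.prod_empty]
    exact hG.eq_one_of_isUnit (isUnit_of_dvd_one h)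
  | insert j U hj ih =>
    intro G hG h
    rw [Finset.prod_insert hj] at h
    by_cases hd : (X - C (b j)) ∣ G
    · obtain ⟨G', rfl⟩ := hd
      have hG' : G'.Monic := (monic_X_sub_C (b j)).of_mul_monic_left hG
      have h1 : G' ∣ ∏ i ∈ U, (X - C (b i)) :=
        (mul_dvd_mul_iff_left (X_sub_C_ne_zero (b j))).mp h
      obtain ⟨S, hS, rfl⟩ := ih G' hG' h1
      refine ⟨insert j S, Finset.insert_subset_insert j hS, ?_⟩
      rw [Finset.prod_insert (fun h2 => hj (hS h2))]
    · have h1 : IsCoprime G (X - C (b j)) :=
        ((irreducible_X_sub_C (b j)).coprime_iff_not_dvd.mpr hd).symm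
      obtain ⟨S, hS, h2⟩ := ih G hG (h1.dvd_of_dvd_mul_left h)
      exact ⟨S, hS.trans (Finset.subset_insert j U), h2⟩

theorem monic_case {A E L K : Type*} [CommRing A] [IsDomain A] [IsIntegrallyClosed A]
    [Field E] [Algebra A E] [IsFractionRing A E] [Field L] [Algebra E L] [Algebra A L]
    [IsScalarTower A E L] [IsGalois E L] [Field K] (F : A[X]) (hF : F.Monic)
    (hirr : Irreducible (F.map (algebraMap A E))) (hsep : (F.map (algebraMap A E)).Separable)
    (hsplit : (F.map (algebraMap A L)).Splits) :
    ∃ s : Finset A[X],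
      (∀ h ∈ s, h.Monic ∧ (h.map (algebraMap A E)).Separable ∧ ∀ y : A, h.eval y ≠ 0) ∧
      ∀ ev : A →+* K, Function.Surjective ev →
        (∀ h ∈ s, ∀ ρ : K, (h.map ev).eval ρ ≠ 0) → Irreducible (F.map ev) := by
  classical
  set FE : E[X] := F.map (algebraMap A E) with hFE
  have hAE : Function.Injective (algebraMap A E) := IsFractionRing.injective A E
  have hEL : Function.Injective (algebraMap E L) := (algebraMap E L).injective
  have hALE : algebraMap A L = (algebraMap E L).comp (algebraMap A E) :=
    IsScalarTower.algebraMap_eq A E L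
  have hAL : Function.Injective (algebraMap A L) := by
    rw [hALE]
    exact hEL.comp hAE
  let B := integralClosure A L
  -- the roots
  let R : Finset L := (F.map (algebraMap A L)).roots.toFinset
  let ι := {x : L // x ∈ R}
  have hFEL : F.map (algebraMap A L) = FE.map (algebraMap E L) := by
    rw [hFE, map_map, ← hALE]
  have hsepL : (F.map (algebraMap A L)).Separable := by
    rw [hFEL]
    exact hsep.map
  have hprod : F.map (algebraMap A L) = ∏ i : ι, (X - C (i : L)) := by
    have h1 := hsplit.eq_prod_roots_of_monic (hF.map _)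
    have h2 : (F.map (algebraMap A L)).roots.Nodup := nodup_roots hsepL
    rw [Finset.prod_coe_sort R (fun x : L => X - C x)]
    rw [Finset.prod_eq_multiset_prod, Multiset.toFinset_val, Multiset.dedup_eq_self.mpr h2]
    exact h1
  have hint : ∀ i : ι, IsIntegral A (i : L) := by
    intro i
    refine ⟨F, hF, ?_⟩
    rw [← eval_map]
    have h1 : (i : L) ∈ (F.map (algebraMap A L)).roots := Multiset.mem_toFinset.mp i.2
    exact (mem_roots ((hF.map _).ne_zero)).mp h1
  let β : ι → B := fun i => ⟨i, hint i⟩
  have hβ : ∀ i, algebraMap B L (β i) = i := fun i => rfl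
  have hBL : Function.Injective (algebraMap B L) := Subtype.val_injective
  have hprodB : F.map (algebraMap A B) = ∏ i : ι, (X - C (β i)) := by
    apply map_injective _ hBL
    rw [map_map, ← IsScalarTower.algebraMap_eq, hprod, Polynomial.map_prod]
    simp [hβ]
  have hcard : Fintype.card ι = F.natDegree := by
    have h1 := congrArg natDegree hprod
    rw [hF.natDegree_map, natDegree_prod_of_monic _ _ (fun i _ => monic_X_sub_C _)] at h1
    simpa using h1.symm
  -- the bad coefficients
  have hbad : ∀ S : Finset ι, S.Nonempty → S ≠ Finset.univ → ∃ j : ℕ,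
      algebraMap B L ((∏ i ∈ S, (X - C (β i))).coeff j) ∉ Set.range (algebraMap E L) := by
    intro S hS1 hS2
    by_contra! hcon
    have h1 : (∏ i ∈ S, (X - C (i : L))) ∈ lifts (algebraMap E L) := by
      rw [lifts_iff_coeff_lifts]
      intro j
      have h2 := hcon j
      have h3 : (∏ i ∈ S, (X - C (i : L))) = (∏ i ∈ S, (X - C (β i))).map (algebraMap B L) := by
        rw [Polynomial.map_prod]
        simp [hβ]
      rw [h3, coeff_map]
      exact h2
    have hmS : (∏ i ∈ S, (X - C (i : L))).Monic := monic_prod_of_monic _ _ fun i _ =>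
      monic_X_sub_C _
    obtain ⟨Q, hQ1, hQ2, hQ3⟩ := lifts_and_natDegree_eq_and_monic h1 hmS
    have hdvd : Q ∣ FE := by
      rw [← map_dvd_map (algebraMap E L) hEL hQ3]
      rw [hQ1, ← hFEL, hprod]
      exact Finset.prod_dvd_prod_of_subset _ _ _ (Finset.subset_univ S)
    have hdegQ : Q.natDegree = S.card := by
      rw [hQ2, natDegree_prod_of_monic _ _ (fun i _ => monic_X_sub_C _)]
      simp
    have hlt : S.card < Fintype.card ι := by
      rw [← Finset.card_univ]
      exact Finset.card_lt_card (Finset.ssubset_univ_iff.mpr hS2)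
    have hpos : 0 < S.card := hS1.card_pos
    rcases hirr.isUnit_or_isUnit (hdvd.choose_spec) with h4 | h4
    · have := natDegree_eq_zero_of_isUnit h4
      omega
    · have h5 : FE.natDegree = Q.natDegree := by
        have h6 := congrArg natDegree hdvd.choose_spec
        rw [h6, natDegree_mul hQ3.ne_zero h4.ne_zero, natDegree_eq_zero_of_isUnit h4, add_zero]
      rw [hFE, hF.natDegree_map] at h5
      omega
  choose! j hj using hbad
  let c : Finset ι → B := fun S => (∏ i ∈ S, (X - C (β i))).coeff (j S)
  let m : Finset ι → A[X] := fun S => minpoly A (algebraMap B L (c S))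
  have hcint : ∀ S, IsIntegral A (algebraMap B L (c S)) := fun S => (c S).2
  have hminE : ∀ S, minpoly E (algebraMap B L (c S)) = (m S).map (algebraMap A E) := fun S =>
    minpoly.isIntegrallyClosed_eq_field_fractions' E (hcint S)
  refine ⟨(Finset.univ.filter fun S : Finset ι => S.Nonempty ∧ S ≠ Finset.univ).image m, ?_, ?_⟩
  · intro h hh
    rw [Finset.mem_image] at hh
    obtain ⟨S, hS, rfl⟩ := hh
    rw [Finset.mem_filter] at hS
    refine ⟨minpoly.monic (hcint S), ?_, ?_⟩
    · rw [← hminE]
      exact Algebra.IsSeparable.isSeparable E (algebraMap B L (c S))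
    · intro y hy
      apply hj S hS.2.1 hS.2.2
      have h1 : (minpoly E (algebraMap B L (c S))).eval (algebraMap A E y) = 0 := by
        rw [hminE, ← eval_hom, hy, map_zero]
      have h2 : IsIntegral E (algebraMap B L (c S)) := (hcint S).tower_top
      have h3 : minpoly E (algebraMap B L (c S)) = X - C (algebraMap A E y) := by
        have h4 := (minpoly.irreducible h2)
        have h5 : (X - C (algebraMap A E y)) ∣ minpoly E (algebraMap B L (c S)) :=
          dvd_iff_isRoot.mpr h1
        exact (eq_of_monic_of_associated (minpoly.monic h2) (monic_X_sub_C _)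
          ((irreducible_X_sub_C _).associated_of_dvd h4 h5).symm)
      refine ⟨algebraMap A E y, ?_⟩
      have h6 := minpoly.aeval E (algebraMap B L (c S))
      rw [h3] at h6
      simp at h6
      exact (sub_eq_zero.mp h6).symm
  · intro ev hev hno
    let P : Ideal A := RingHom.ker ev
    have hP : P.IsMaximal := RingHom.ker_isMaximal_of_surjective ev hev
    have hinjAB : Function.Injective (algebraMap A B) := by
      intro x y hxy
      exact hAL (congrArg (algebraMap B L) hxy)
    have hfaith : FaithfulSMul A B := by
      rw [faithfulSMul_iff_algebraMap_injective]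
      exact hinjAB
    obtain ⟨Q, hQ, hQP⟩ := Ideal.exists_maximal_ideal_liesOver_of_isIntegral (S := B) P
    let _ : Field (B ⧸ Q) := Ideal.Quotient.field Q
    let ψ : B →+* B ⧸ Q := Ideal.Quotient.mk Q
    have hker : ∀ x : A, ev x = 0 → ψ (algebraMap A B x) = 0 := by
      intro x hx
      rw [Ideal.Quotient.eq_zero_iff_mem]
      have h1 : x ∈ P := hx
      rw [hQP.over] at h1
      exact h1
    -- the embedding of `K`
    let θ : K →+* B ⧸ Q := (RingHom.liftOfSurjective ev hev
      ⟨ψ.comp (algebraMap A B), fun x hx => hker x hx⟩)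
    have hθ : θ.comp ev = ψ.comp (algebraMap A B) := by
      exact RingHom.liftOfRightInverse_comp _ _ (Function.rightInverse_surjInv hev) _
    have hfa : (F.map ev).map θ = ∏ i : ι, (X - C (ψ (β i))) := by
      rw [map_map, hθ, ← map_map, hprodB, Polynomial.map_prod]
      simp
    have hmon : (F.map ev).Monic := hF.map ev
    rw [hmon.irreducible_iff_natDegree']
    refine ⟨?_, ?_⟩
    · intro h1
      have h2 := congrArg natDegree h1
      rw [hF.natDegree_map, natDegree_one] at h2
      have h3 := hirr.natDegree_pos
      rw [hFE, hF.natDegree_map] at h3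
      omega
    · intro G H hG hH hGH hmem
      rw [Finset.mem_Ioc] at hmem
      have hmH : H.Monic := hH
      obtain ⟨S, -, hS⟩ := monic_dvd_prod (fun i : ι => ψ (β i)) Finset.univ (H.map θ)
        (hmH.map θ) (by
          rw [← hfa, ← hGH, Polynomial.map_mul]
          exact dvd_mul_left _ _)
      have hScard : S.card = H.natDegree := by
        have h1 := congrArg natDegree hS
        rw [hmH.natDegree_map, natDegree_prod_of_monic _ _ (fun i _ => monic_X_sub_C _)] at h1
        simpa using h1.symm
      have hFd : (F.map ev).natDegree = F.natDegree := hF.natDegree_map ev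
      have hS1 : S.Nonempty := by
        rw [← Finset.card_pos]
        omega
      have hS2 : S ≠ Finset.univ := by
        rintro rfl
        rw [Finset.card_univ] at hScard
        omega
      have h1 : θ (H.coeff (j S)) = ψ (c S) := by
        have h2 := congrArg (fun q => q.coeff (j S)) hS
        simp only [coeff_map] at h2
        rw [h2]
        change _ = ψ ((∏ i ∈ S, (X - C (β i))).coeff (j S))
        rw [← coeff_map, Polynomial.map_prod]
        simp
      apply hno (m S) (Finset.mem_image.mpr ⟨S, Finset.mem_filter.mpr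
        ⟨Finset.mem_univ _, hS1, hS2⟩, rfl⟩) (H.coeff (j S))
      apply θ.injective
      rw [map_zero, eval_hom, map_map, hθ, h1, ← map_map, ← eval_hom]
      have h3 : ((m S).map (algebraMap A B)).eval (c S) = 0 := by
        apply hBL
        rw [map_zero, eval_hom, map_map, ← IsScalarTower.algebraMap_eq]
        have h4 := minpoly.aeval A (algebraMap B L (c S))
        rw [aeval_def, ← eval_map] at h4
        exact h4
      rw [h3, map_zero]

end MP7fL
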