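import Pool.Agent.Lib.MP_7f581e_ntR.Defs
import Pool.Agent.Lib.MP_7f581e_ntL.WH4
import Pool.Agent.Lib.MP_7f581e_ntL.WH5

set_option autoImplicit false
universe u
namespace MP7fL
open Polynomial

theorem scaleRoots_eq {F : Type*} [Field F] (p : F[X]) (s : F) (hs : s ≠ 0) :
    scaleRoots p s = C (s ^ p.natDegree) * p.comp (C s⁻¹ * X) := by
  ext i
  rw [coeff_scaleRoots, coeff_C_mul, comp_C_mul_X_coeff]
  rcases le_or_gt i p.natDegree with hi | hi
  · have h2 : s ^ p.natDegree = s ^ (p.natDegree - i) * s ^ i := by
      rw [← pow_add, Nat.sub_add_cancel hi]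
    have h3 : s ^ i * s⁻¹ ^ i = 1 := by
      rw [← mul_pow, mul_inv_cancel₀ hs, one_pow]
    rw [h2]
    linear_combination (-(s ^ (p.natDegree - i) * p.coeff i)) * h3
  · rw [coeff_eq_zero_of_natDegree_lt hi]
    ring

theorem irreducible_scaleRoots_iff {F : Type*} [Field F] (p : F[X]) (s : F) (hs : s ≠ 0) :
    Irreducible (scaleRoots p s) ↔ Irreducible p := by
  have hinv : Invertible (s⁻¹) := invertibleOfNonzero (inv_ne_zero hs)
  have h1 : scaleRoots p s = C (s ^ p.natDegree) * algEquivCMulXAddC s⁻¹ 0 p := by
    rw [scaleRoots_eq p s hs]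
    congr 1
    rw [algEquivCMulXAddC_apply, C_0, add_zero, ← comp_eq_aeval]
  have hu : IsUnit (C (s ^ p.natDegree)) := isUnit_C.mpr
    (isUnit_iff_ne_zero.mpr (pow_ne_zero _ hs))
  rw [h1, irreducible_isUnit_mul hu]
  exact MulEquiv.irreducible_iff (algEquivCMulXAddC s⁻¹ 0)

theorem irreducible_integralNormalization_iff {F : Type*} [Field F] (p : F[X]) (hp : p ≠ 0) :
    Irreducible (integralNormalization p) ↔ Irreducible p := by
  have hl : p.leadingCoeff ≠ 0 := leadingCoeff_ne_zero.mpr hp
  rw [← irreducible_scaleRoots_iff p p.leadingCoeff hl,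
    ← integralNormalization_mul_C_leadingCoeff]
  exact (irreducible_mul_isUnit (isUnit_C.mpr (isUnit_iff_ne_zero.mpr hl))).symm

theorem separable_integralNormalization {F : Type*} [Field F] (p : F[X]) (hp : p.Separable) :
    (integralNormalization p).Separable := by
  have hl : p.leadingCoeff ≠ 0 := leadingCoeff_ne_zero.mpr hp.ne_zero
  have h1 := separable_scaleRoots p p.leadingCoeff hl hp
  rw [← integralNormalization_mul_C_leadingCoeff] at h1
  exact h1.of_mul_left

theorem exists_galois_splitting.{v} {E : Type v} [Field E] (p : E[X]) (hp : p.Separable) :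
    ∃ (L : Type v) (_ : Field L) (_ : Algebra E L), IsGalois E L ∧ (p.map (algebraMap E L)).Splits :=
  ⟨p.SplittingField, inferInstance, inferInstance, IsGalois.of_separable_splitting_field hp,
    SplittingField.splits p⟩

theorem wh_isHilbertian {K : Type u} [Field K] (hK : WH K) : MP7fR.IsHilbertian K := by
  intro f hirr hsep g hg
  set κ : K[X] →+* RatFunc K := algebraMap K[X] (RatFunc K) with hκ
  have hκi : Function.Injective κ := IsFractionRing.injective K[X] (RatFunc K)
  have hf0 : f ≠ 0 := by
    rintro rfl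
    rw [Polynomial.map_zero] at hirr
    exact hirr.ne_zero rfl
  have hl : f.leadingCoeff ≠ 0 := leadingCoeff_ne_zero.mpr hf0
  have hl' : κ f.leadingCoeff ≠ 0 := fun h => hl (hκi (by rw [h, map_zero]))
  set F := integralNormalization f with hF
  have hFm : F.Monic := monic_integralNormalization hf0
  have hFE : F.map κ = integralNormalization (f.map κ) :=
    (integralNormalization_map κ f hl').symm
  have hirrF : Irreducible (F.map κ) := by
    rw [hFE, irreducible_integralNormalization_iff _ hirr.ne_zero]
    exact hirr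
  have hsepF : (F.map κ).Separable := by
    rw [hFE]
    exact separable_integralNormalization _ hsep
  obtain ⟨L, _, _, hgal, hsplit⟩ := exists_galois_splitting (F.map κ) hsepF
  let _ : Algebra K[X] L := ((algebraMap (RatFunc K) L).comp κ).toAlgebra
  have htow : IsScalarTower K[X] (RatFunc K) L := IsScalarTower.of_algebraMap_eq (fun _ => rfl)
  rw [map_map] at hsplit
  obtain ⟨s, hs1, hs2⟩ := monic_case (K := K) (L := L) F hFm hirrF hsepF hsplit
  obtain ⟨a, ha, hno⟩ := hK s hs1 (g * f.leadingCoeff) (mul_ne_zero hg hl)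
  rw [eval_mul] at ha
  refine ⟨a, left_ne_zero_of_mul ha, ?_⟩
  have hsurj : Function.Surjective (evalRingHom a : K[X] →+* K) := fun c => ⟨C c, by simp⟩
  have h1 := hs2 (evalRingHom a) hsurj hno
  have hla : (evalRingHom a) f.leadingCoeff ≠ 0 := right_ne_zero_of_mul ha
  have h2 : F.map (evalRingHom a) = integralNormalization (f.map (evalRingHom a)) :=
    (integralNormalization_map (evalRingHom a) f hla).symm
  rw [h2] at h1
  have hfa : f.map (evalRingHom a) ≠ 0 := by
    intro h0
    apply hla
    have := congrArg (fun q => q.coeff f.natDegree) h0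
    simpa using this
  exact (irreducible_integralNormalization_iff _ hfa).mp h1

end MP7fL
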