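import Pool.Agent.Lib.MP_7f581e_ntL.WH6
import Pool.Agent.Lib.MP_7f581e_ntR.Main

set_option autoImplicit false
universe u
namespace MP7fL
open Polynomial MP7fR

theorem isFractionRing_mv (σ : Type) (A F : Type u) [CommRing A] [IsDomain A] [Field F]
    [Algebra A F] [IsFractionRing A F] :
    ∃ (_ : Algebra (MvPolynomial σ A) (FractionRing (MvPolynomial σ F))),
      IsFractionRing (MvPolynomial σ A) (FractionRing (MvPolynomial σ F)) := by
  classical
  let T := FractionRing (MvPolynomial σ F)
  let φ : MvPolynomial σ A →+* T :=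
    (algebraMap (MvPolynomial σ F) T).comp (MvPolynomial.map (algebraMap A F))
  have hφ : Function.Injective φ :=
    (IsFractionRing.injective (MvPolynomial σ F) T).comp
      (MvPolynomial.map_injective _ (IsFractionRing.injective A F))
  let _ : Algebra (MvPolynomial σ A) T := φ.toAlgebra
  have hfaith : FaithfulSMul (MvPolynomial σ A) T := by
    rw [faithfulSMul_iff_algebraMap_injective]
    exact hφ
  refine ⟨inferInstance, ?_⟩
  have hclear : ∀ p : MvPolynomial σ F, ∃ (d : A) (q : MvPolynomial σ A), d ≠ 0 ∧
      MvPolynomial.map (algebraMap A F) q = MvPolynomial.C (algebraMap A F d) * p := by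
    intro p
    obtain ⟨b, hb⟩ := IsLocalization.exist_integer_multiples_of_finset (nonZeroDivisors A)
      (p.support.image p.coeff)
    have h1 : ∀ m, ∃ c : A, algebraMap A F c = algebraMap A F b * p.coeff m := by
      intro m
      by_cases h0 : p.coeff m = 0
      · exact ⟨0, by rw [h0]; simp⟩
      · obtain ⟨c, hc⟩ := hb _ (Finset.mem_image.mpr ⟨m, MvPolynomial.mem_support_iff.mpr h0, rfl⟩)
        exact ⟨c, by rw [hc, Algebra.smul_def]⟩
    choose c hc using h1
    refine ⟨b, ∑ m ∈ p.support, MvPolynomial.monomial m (c m), nonZeroDivisors.coe_ne_zero b, ?_⟩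
    rw [map_sum]
    simp only [MvPolynomial.map_monomial, hc]
    conv_rhs => rw [← MvPolynomial.support_sum_monomial_coeff p]
    rw [Finset.mul_sum]
    exact Finset.sum_congr rfl fun m _ => by rw [MvPolynomial.C_mul_monomial]
  apply IsFractionRing.of_field
  intro z
  obtain ⟨x, y, hy, rfl⟩ := IsFractionRing.div_surjective (A := MvPolynomial σ F) z
  obtain ⟨d, q, hd, hq⟩ := hclear x
  obtain ⟨e, r, he, hr⟩ := hclear y
  refine ⟨q * MvPolynomial.C e, r * MvPolynomial.C d, ?_⟩
  have hAF : Function.Injective (algebraMap A F) := IsFractionRing.injective A F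
  have hd' : algebraMap (MvPolynomial σ F) T (MvPolynomial.C (algebraMap A F d)) ≠ 0 := by
    intro h0
    apply hd
    apply hAF
    rw [map_zero]
    apply MvPolynomial.C_injective σ F
    apply IsFractionRing.injective (MvPolynomial σ F) T
    rw [h0, map_zero, map_zero]
  have he' : algebraMap (MvPolynomial σ F) T (MvPolynomial.C (algebraMap A F e)) ≠ 0 := by
    intro h0
    apply he
    apply hAF
    rw [map_zero]
    apply MvPolynomial.C_injective σ F
    apply IsFractionRing.injective (MvPolynomial σ F) T
    rw [h0, map_zero, map_zero]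
  have hy' : algebraMap (MvPolynomial σ F) T y ≠ 0 := by
    intro h0
    apply nonZeroDivisors.ne_zero hy
    apply IsFractionRing.injective (MvPolynomial σ F) T
    rw [h0, map_zero]
  change _ = φ (q * MvPolynomial.C e) / φ (r * MvPolynomial.C d)
  simp only [φ, RingHom.comp_apply, map_mul, hq, hr, MvPolynomial.map_C]
  have key : ∀ {T' : Type u} [Field T'] (x' y' d' e' : T'), y' ≠ 0 → d' ≠ 0 → e' ≠ 0 →
      x' / y' = (d' * x' * e') / (e' * y' * d') := by
    intro T' _ x' y' d' e' h1 h2 h3
    field_simp
  exact key _ _ _ _ hy' hd' he'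

/-- Specialization of several parameters. -/
theorem occurs_of_mv {G : Type} [Group G] [Finite G] (σ : Type) [Finite σ] :
    ∀ (K : Type u) [Field K] [Infinite K], WH K →
      Occurs G (FractionRing (MvPolynomial σ K)) → Occurs G K := by
  have hfin := Fintype.ofFinite σ
  refine Fintype.induction_empty_option (P := fun σ _ => ∀ (K : Type u) [Field K] [Infinite K],
    WH K → Occurs G (FractionRing (MvPolynomial σ K)) → Occurs G K) ?_ ?_ ?_ σ
  · intro α β _ e ih K _ _ hK h
    apply ih K hK
    exact Occurs.of_ringEquiv (IsFractionRing.ringEquivOfRingEquiv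
      (MvPolynomial.renameEquiv K e).toRingEquiv) h
  · intro K _ _ hK h
    have hKK : IsFractionRing K K := IsFractionRing.of_field K K fun z => ⟨z, 1, by simp⟩
    exact Occurs.of_ringEquiv (IsFractionRing.ringEquivOfRingEquiv
      (MvPolynomial.isEmptyRingEquiv K PEmpty).symm) h
  · intro α _ ih K _ _ hK h
    have hinf : Infinite (RatFunc K) := Infinite.of_injective (algebraMap K (RatFunc K))
      (algebraMap K (RatFunc K)).injective
    apply occurs_of_isHilbertian (wh_isHilbertian hK)
    apply ih (RatFunc K) (wh_ratFunc hK)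
    obtain ⟨_, hfr⟩ := isFractionRing_mv α K[X] (RatFunc K)
    exact Occurs.of_ringEquiv (IsFractionRing.ringEquivOfRingEquiv
      (MvPolynomial.optionEquivRight K α).toRingEquiv).symm h

end MP7fL
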