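import Pool.Agent.Lib.MP_7f581e_ntL.Z6

/-!
Commutator Lang torsor, part 12: weakly compatible actions.
-/

set_option autoImplicit false
set_option linter.unusedSectionVars false

universe u v

namespace MP7fZ

open TensorProduct MP7fS MP7fU MP7fV MP7fR MP7fE

section weak

variable {p : ℕ} [Fact p.Prime] {B : Type} [Ring B] [Finite B] [Algebra (ZMod p) B]
  {J : AInv p B} {n : ℕ} {C : Type} [CommRing C] [Finite C] [Algebra (ZMod p) C]
  (D : DetData J n C)

/-- Weak compatibility of an endomorphism with the determinant data. -/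
def CW (g : B →+* B) (σ : C →+* C) : Prop :=
  ∃ P Q : Matrix (Fin (n + 1)) (Fin (n + 1)) C, P * Q = 1 ∧
    ∀ b, D.Θ (g b) = P * (D.Θ b).map σ * Q

section functor

variable {D}
variable {R S : Type*} [CommRing R] [CommRing S] [Algebra (ZMod p) R] [Algebra (ZMod p) S]
  {g : B →+* B} {σ : C →+* C} (f : R →+* S)

theorem ΘR_tmapW (h : CW D g σ) : ∃ P Q : Matrix (Fin (n + 1)) (Fin (n + 1)) (S ⊗[ZMod p] C),
    P * Q = 1 ∧ ∀ z : R ⊗[ZMod p] B, D.ΘR S (tmap (p := p) f g z) =
      P * (D.ΘR R z).map (tmap (p := p) f σ) * Q := by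
  obtain ⟨P, Q, hPQ, hg⟩ := h
  let i : C →+* S ⊗[ZMod p] C :=
    (Algebra.TensorProduct.includeRight : C →ₐ[ZMod p] S ⊗[ZMod p] C).toRingHom
  refine ⟨P.map i, Q.map i, ?_, ?_⟩
  · rw [← Matrix.map_mul, hPQ, Matrix.map_one _ (map_zero i) (map_one i)]
  · intro z
    induction z using TensorProduct.induction_on with
    | zero =>
      rw [map_zero, map_zero, map_zero, Matrix.map_zero _ (map_zero _), mul_zero, zero_mul]
    | add x y hx hy =>
      rw [map_add, map_add, map_add, Matrix.map_add _ (map_add _), mul_add, add_mul, hx, hy]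
    | tmul r b =>
      rw [tmap_tmul, D.ΘR_tmul, D.ΘR_tmul, hg]
      have h1 : ∀ (X : Matrix (Fin (n + 1)) (Fin (n + 1)) C), X.map (fun c => f r ⊗ₜ[ZMod p] c) =
          f r • X.map i := by
        intro X
        ext a b
        rw [Matrix.map_apply, Matrix.smul_apply, Matrix.map_apply]
        change _ = f r • ((1 : S) ⊗ₜ[ZMod p] X a b)
        rw [smul_tmul', smul_eq_mul, mul_one]
      have h2 : ((D.Θ b).map (fun c => r ⊗ₜ[ZMod p] c)).map (tmap (p := p) f σ) =
          f r • ((D.Θ b).map σ).map i := by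
        ext a b
        rw [Matrix.map_apply, Matrix.map_apply, Matrix.smul_apply, Matrix.map_apply,
          Matrix.map_apply, tmap_tmul]
        change _ = f r • ((1 : S) ⊗ₜ[ZMod p] _)
        rw [smul_tmul', smul_eq_mul, mul_one]
      rw [h1, h2, Matrix.map_mul, Matrix.map_mul, Matrix.mul_smul, Matrix.smul_mul]

theorem dt_tmapW (h : CW D g σ) (z : R ⊗[ZMod p] B) :
    D.dt S (tmap (p := p) f g z) = tmap (p := p) f σ (D.dt R z) := by
  obtain ⟨P, Q, hPQ, hg⟩ := ΘR_tmapW f h
  rw [D.dt_apply, D.dt_apply, hg, Matrix.det_mul, Matrix.det_mul, mul_right_comm,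
    ← Matrix.det_mul, hPQ, Matrix.det_one, one_mul]
  exact (RingHom.map_det (tmap (p := p) f σ) (D.ΘR R z)).symm

theorem du_umW (h : CW D g σ) (z : (R ⊗[ZMod p] B)ˣ) (hz : du D R z = 1) :
    du D S (um (tmap (p := p) f g) z) = 1 := by
  apply Units.ext
  rw [coe_du, coe_um, dt_tmapW f h, ← coe_du, hz, Units.val_one, Units.val_one, map_one]

end functor

variable {Γ : Type} [Group Γ] (ρ : Γ →* (B ≃+* B))
  (hρ : ∀ g b, ρ g (J.j b) = J.j (ρ g b))
  (hD : ∀ g, ∃ σ : C →+* C, CW D (ρ g : B →+* B) σ)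

include hD in
theorem act_memW (g : Γ) {u : J.U} (hu : u ∈ SU D) : uactU J ρ hρ g u ∈ SU D := by
  obtain ⟨σ, h⟩ := hD g
  obtain ⟨P, Q, hPQ, h1⟩ := h
  rw [mem_SU] at hu ⊢
  rw [coe_uactU]
  have h2 := h1 ((u : Bˣ) : B)
  have h3 : D.Θ (ρ g ((u : Bˣ) : B)) = P * (D.Θ ((u : Bˣ) : B)).map σ * Q := h2
  rw [h3, Matrix.det_mul, Matrix.det_mul, mul_right_comm, ← Matrix.det_mul, hPQ,
    Matrix.det_one, one_mul]
  have h4 := (RingHom.map_det σ (D.Θ ((u : Bˣ) : B))).symm
  rw [hu, map_one] at h4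
  exact h4

/-- The action on the special unitary group. -/
noncomputable def suactW : Γ →* MulAut (SU D) where
  toFun g :=
    { toFun := fun u => ⟨uactU J ρ hρ g u.1, act_memW D ρ hρ hD g u.2⟩
      invFun := fun u => ⟨uactU J ρ hρ g⁻¹ u.1, act_memW D ρ hρ hD g⁻¹ u.2⟩
      left_inv := fun u => Subtype.ext (by
        change uactU J ρ hρ g⁻¹ (uactU J ρ hρ g u.1) = u.1
        rw [← MulAut.mul_apply, ← map_mul, inv_mul_cancel, map_one]
        rfl)
      right_inv := fun u => Subtype.ext (by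
        change uactU J ρ hρ g (uactU J ρ hρ g⁻¹ u.1) = u.1
        rw [← MulAut.mul_apply, ← map_mul, mul_inv_cancel, map_one]
        rfl)
      map_mul' := fun u v => Subtype.ext (by
        change uactU J ρ hρ g (u.1 * v.1) = uactU J ρ hρ g u.1 * uactU J ρ hρ g v.1
        rw [map_mul]) }
  map_one' := by
    ext1 u
    apply Subtype.ext
    change uactU J ρ hρ 1 u.1 = u.1
    rw [map_one]
    rfl
  map_mul' g h := by
    ext1 u
    apply Subtype.ext
    change uactU J ρ hρ (g * h) u.1 = uactU J ρ hρ g (uactU J ρ hρ h u.1)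
    rw [map_mul]
    rfl

theorem coe_suactW (g : Γ) (u : SU D) :
    ((suactW D ρ hρ hD g u : SU D) : J.U) = uactU J ρ hρ g u := rfl

theorem coe_suactW' (g : Γ) (u : SU D) :
    ((((suactW D ρ hρ hD g u : SU D) : J.U) : Bˣ) : B) = ρ g (((u : J.U) : Bˣ) : B) := rfl

end weak

section rel

/-- A relation between groups which is the graph of an isomorphism. -/
theorem exists_equiv_of_rel {G H : Type*} [Group G] [Group H] (R : G → H → Prop)
    (htot : ∀ g, ∃ h, R g h) (huniq : ∀ g h h', R g h → R g h' → h = h')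
    (hmul : ∀ g g' h h', R g h → R g' h' → R (g * g') (h * h'))
    (hinj : ∀ g, R g 1 → g = 1) (hsurj : ∀ h, ∃ g, R g h) :
    ∃ e : G ≃* H, ∀ g, R g (e g) := by
  choose f hf using htot
  let F : G →* H := MonoidHom.mk' f fun a b => huniq _ _ _ (hf _) (hmul _ _ _ _ (hf a) (hf b))
  have hF : Function.Bijective F := by
    constructor
    · rw [injective_iff_map_eq_one]
      intro a ha
      apply hinj
      have h1 := hf a
      have h2 : f a = 1 := ha
      rw [h2] at h1
      exact h1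
    · intro h
      obtain ⟨g, hg⟩ := hsurj h
      exact ⟨g, huniq _ _ _ (hf g) hg⟩
  exact ⟨MulEquiv.ofBijective F hF, hf⟩

end rel

section coord

variable {p : ℕ} [Fact p.Prime] {B : Type} [Ring B] [Finite B] [Algebra (ZMod p) B]

/-- Coordinates of images. -/
theorem coord_act {L C : Type*} [CommRing L] [CommRing C] [Algebra (ZMod p) L]
    [Algebra (ZMod p) C] (f : L →+* C) {ι : Type} [Fintype ι] [DecidableEq ι]
    (e : Module.Basis ι (ZMod p) B) (z : C ⊗[ZMod p] B)
    (h : ∀ i, ∃ r : L, f r = (eb e C).repr z i) (φ : B →+* B) (i : ι) :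
    ∃ r : L, f r = (eb e C).repr (tmap (p := p) (RingHom.id C) φ z) i := by
  choose r hr using h
  have h1 : z = tmap (p := p) f (RingHom.id B) (vec e r) := by
    rw [tmap_vec, ← vec_repr e z]
    congr 1
    ext i
    exact (hr i).symm
  have h2 : tmap (p := p) (RingHom.id C) φ z =
      tmap (p := p) f (RingHom.id B) (tmap (p := p) (RingHom.id L) φ (vec e r)) := by
    rw [h1, tmap_comp, tmap_comp]
    rfl
  rw [h2, repr_tmap]
  exact ⟨_, rfl⟩

end coord

end MP7fZ
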