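import Pool.Agent.Lib.MP_7f581e_ntL.Z12

/-!
Commutator Lang torsor, part 13: the Galois group of the splitting field.
-/

set_option autoImplicit false
set_option linter.unusedSectionVars false

universe u v

namespace MP7fZ

open TensorProduct MP7fS MP7fU MP7fV MP7fR MP7fE

variable {p : ℕ} [Fact p.Prime] {B : Type} [Ring B] [Finite B] [Algebra (ZMod p) B]
  {J : AInv p B} {n : ℕ} {Cc : Type} [CommRing Cc] [Finite Cc] [Algebra (ZMod p) Cc]
  (D : DetData J n Cc)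
  {Γ : Type} [Group Γ] (ρ : Γ →* (B ≃+* B))
  (hρ : ∀ g b, ρ g (J.j b) = J.j (ρ g b))
  (hD : ∀ g, ∃ σ : Cc →+* Cc, CW D (ρ g : B →+* B) σ)

/-- The relation between automorphisms and elements of the semidirect product. -/
def Rel {L M K : Type u} [Field L] [Field M] [Field K] [Algebra K M] [Algebra (ZMod p) L]
    (γ : (M ≃ₐ[K] M) ≃* Γ)
    (iL : M →+* L) (g : (L ⊗[ZMod p] B)ˣ) (σ : L →+* L)
    (x : (SU D) ⋊[suactW D ρ hρ hD] Γ) : Prop :=
  (∀ m, σ (iL m) = iL (γ.symm x.right m)) ∧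
    um (tmap (p := p) σ (ρ x.right : B →+* B)) g = g * cu L ((x.left : J.U) : Bˣ)

variable {L M K E : Type u} [Field L] [Field M] [Field K] [Field E] [Algebra K M]
  [Algebra (ZMod p) L] (γ : (M ≃ₐ[K] M) ≃* Γ) (iL : M →+* L) (g : (L ⊗[ZMod p] B)ˣ)

variable {D ρ hρ hD}

theorem Rel.uniq {γ : (M ≃ₐ[K] M) ≃* Γ} {iL : M →+* L} {g : (L ⊗[ZMod p] B)ˣ} {σ : L →+* L}
    {x x' : (SU D) ⋊[suactW D ρ hρ hD] Γ}
    (h : Rel D ρ hρ hD γ iL g σ x) (h' : Rel D ρ hρ hD γ iL g σ x') : x = x' := by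
  have h1 : x.right = x'.right := by
    apply γ.symm.injective
    ext m
    apply iL.injective
    rw [← h.1, ← h'.1]
  have h2 : x.left = x'.left := by
    have h3 := h.2
    rw [h1, h'.2] at h3
    have h4 := cu_inj (mul_left_cancel h3)
    exact (Subtype.ext (Subtype.ext h4)).symm
  exact SemidirectProduct.ext h2 h1

theorem Rel.mul {γ : (M ≃ₐ[K] M) ≃* Γ} {iL : M →+* L} {g : (L ⊗[ZMod p] B)ˣ} {σ σ' : L →+* L}
    {x x' : (SU D) ⋊[suactW D ρ hρ hD] Γ}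
    (h : Rel D ρ hρ hD γ iL g σ x) (h' : Rel D ρ hρ hD γ iL g σ' x') :
    Rel D ρ hρ hD γ iL g (σ.comp σ') (x * x') := by
  constructor
  · intro m
    rw [SemidirectProduct.mul_right, map_mul]
    change σ (σ' (iL m)) = iL (γ.symm x.right (γ.symm x'.right m))
    rw [h'.1, h.1]
  · have h1 : um (tmap (p := p) (σ.comp σ') (ρ (x * x').right : B →+* B)) g =
        um (tmap (p := p) σ (ρ x.right : B →+* B))
          (um (tmap (p := p) σ' (ρ x'.right : B →+* B)) g) := by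
      rw [um_um, SemidirectProduct.mul_right, map_mul]
      rfl
    rw [h1, h'.2, map_mul, h.2, mul_assoc]
    congr 1
    apply Units.ext
    rw [Units.val_mul, coe_um, coe_cu, coe_cu, coe_cu, tmap_tmul, map_one,
      Algebra.TensorProduct.tmul_mul_tmul, one_mul]
    rfl

theorem Rel.one_iff {γ : (M ≃ₐ[K] M) ≃* Γ} {iL : M →+* L} {g : (L ⊗[ZMod p] B)ˣ} {σ : L →+* L}
    (h : Rel D ρ hρ hD γ iL g σ 1) : (∀ m, σ (iL m) = iL m) ∧ bu σ g = g := by
  constructor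
  · intro m
    rw [h.1, SemidirectProduct.one_right, map_one]
    rfl
  · have h1 := h.2
    rw [SemidirectProduct.one_right, SemidirectProduct.one_left, map_one] at h1
    have h2 : cu L (((1 : SU D) : J.U) : Bˣ) = 1 := map_one (cu (p := p) L)
    rw [h2, mul_one] at h1
    exact h1

/-- Transfer of the relation along an extension. -/
theorem Rel.transfer {C : Type u} [Field C] [Algebra (ZMod p) C] {γ : (M ≃ₐ[K] M) ≃* Γ}
    {iL : M →+* L} {gL : (L ⊗[ZMod p] B)ˣ} {iM : M →+* C} {g : (C ⊗[ZMod p] B)ˣ}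
    (f : L →+* C) (hiL : ∀ m, f (iL m) = iM m) (hgL : bu f gL = g) {σ : L →+* L} {Ψ : C →+* C}
    (hσ : ∀ z, Ψ (f z) = f (σ z))
    {x : (SU D) ⋊[suactW D ρ hρ hD] Γ} (h : Rel D ρ hρ hD γ iM g Ψ x) :
    Rel D ρ hρ hD γ iL gL σ x := by
  constructor
  · intro m
    apply f.injective
    rw [← hσ, hiL, hiL, h.1]
  · apply bu_inj f f.injective
    have h1 : f.comp σ = Ψ.comp f := RingHom.ext fun z => (hσ z).symm
    have h2 := h.2
    rw [← hgL] at h2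
    rw [map_mul, bu_cu, ← h2]
    rw [um_um, um_um, h1]
    rfl

/-- The Galois group. -/
theorem asm_aux {C : Type u} [Field C] [Algebra E L] [Algebra E C] [Algebra L C]
    [IsScalarTower E L C] [IsAlgClosed C] [Algebra.IsAlgebraic E C] [FiniteDimensional E L]
    [IsGalois E L] [Algebra (ZMod p) C] (γ : (M ≃ₐ[K] M) ≃* Γ)
    (iM : M →+* C) (iL : M →+* L) (hiL : ∀ m, algebraMap L C (iL m) = iM m)
    (g : (C ⊗[ZMod p] B)ˣ) (gL : (L ⊗[ZMod p] B)ˣ) (hgL : bu (algebraMap L C) gL = g)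
    (htot : ∀ Ψ : C ≃ₐ[E] C, ∃ x : (SU D) ⋊[suactW D ρ hρ hD] Γ,
      Rel D ρ hρ hD γ iM g (Ψ : C →+* C) x)
    (hsurj : ∀ x : (SU D) ⋊[suactW D ρ hρ hD] Γ, ∃ Ψ : C ≃ₐ[E] C,
      Rel D ρ hρ hD γ iM g (Ψ : C →+* C) x)
    (hgen : ∀ σ : L ≃ₐ[E] L, (∀ m, σ (iL m) = iL m) → bu (σ : L →+* L) gL = gL → σ = 1) :
    ∃ e : (L ≃ₐ[E] L) ≃* (SU D) ⋊[suactW D ρ hρ hD] Γ,
      ∀ σ m, σ (iL m) = iL (γ.symm (e σ).right m) := by
  have hcl : IsAlgClosure E C := ⟨inferInstance, inferInstance⟩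
  have hnC : Normal E C := IsAlgClosure.normal E C
  have key : ∃ e : (L ≃ₐ[E] L) ≃* (SU D) ⋊[suactW D ρ hρ hD] Γ,
      ∀ σ : L ≃ₐ[E] L, Rel D ρ hρ hD γ iL gL (σ : L →+* L) (e σ) := by
    refine exists_equiv_of_rel
      (fun (σ : L ≃ₐ[E] L) (x : (SU D) ⋊[suactW D ρ hρ hD] Γ) =>
        Rel D ρ hρ hD γ iL gL (σ : L →+* L) x) ?_ ?_ ?_ ?_ ?_
    · intro σ
      obtain ⟨x, hx⟩ := htot (σ.liftNormal C)
      exact ⟨x, hx.transfer (algebraMap L C) hiL hgL (fun z => σ.liftNormal_commutes C z)⟩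
    · intro σ x x' h h'
      exact h.uniq h'
    · intro σ σ' x x' h h'
      exact h.mul h'
    · intro σ h
      exact hgen σ h.one_iff.1 h.one_iff.2
    · intro x
      obtain ⟨Ψ, hΨ⟩ := hsurj x
      exact ⟨Ψ.restrictNormal L, hΨ.transfer (algebraMap L C) hiL hgL
        (fun z => (Ψ.restrictNormal_commutes L z).symm)⟩
  obtain ⟨e, he⟩ := key
  exact ⟨e, fun σ m => (he σ).1 m⟩

end MP7fZ
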