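import Pool.Agent.Lib.MP_7f581e_ntL.Z7
import Pool.Agent.Lib.MP_7f581e_ntL.Z13

/-!
Commutator Lang torsor, part 14: the splitting field.
-/

set_option autoImplicit false
set_option linter.unusedSectionVars false

universe u v

namespace MP7fZ

open TensorProduct MP7fS MP7fU MP7fV MP7fR MP7fE

variable {p : ℕ} [Fact p.Prime] {B : Type} [Ring B] [Finite B] [Algebra (ZMod p) B]
  {J : AInv p B} {n : ℕ} {Cc : Type} [CommRing Cc] [Finite Cc] [Algebra (ZMod p) Cc]
  (D : DetData J n Cc)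
  {Γ : Type} [Group Γ] (ρ : Γ →* (B ≃+* B))
  (hρ : ∀ g b, ρ g (J.j b) = J.j (ρ g b))
  (hD : ∀ g, ∃ σ : Cc →+* Cc, CW D (ρ g : B →+* B) σ)

section right

variable {K E M C : Type u} [Field K] [Field E] [Field M] [Field C] [Algebra K E] [Algebra K M]
  [Algebra E C] [Normal K M] (γ : (M ≃ₐ[K] M) ≃* Γ) (iM : M →+* C)
  (hiM : ∀ a : K, iM (algebraMap K M a) = algebraMap E C (algebraMap K E a))

include hiM in
/-- The restriction to a normal subextension. -/
theorem exists_right (Ψ : C →+* C) (hΨ : ∀ a : E, Ψ (algebraMap E C a) = algebraMap E C a) :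
    ∃ h : Γ, ∀ m, Ψ (iM m) = iM (γ.symm h m) := by
  let _ : Algebra M C := iM.toAlgebra
  let _ : Algebra K C := ((algebraMap E C).comp (algebraMap K E)).toAlgebra
  have htow : IsScalarTower K M C := IsScalarTower.of_algebraMap_eq fun a => (hiM a).symm
  let ΨK : C →ₐ[K] C := { Ψ with commutes' := fun a => hΨ _ }
  let s := ΨK.restrictNormal M
  have hs : Function.Bijective s := AlgHom.normal_bijective K M M s
  refine ⟨γ (AlgEquiv.ofBijective s hs), ?_⟩
  intro m
  rw [MulEquiv.symm_apply_apply]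
  exact (ΨK.restrictNormal_commutes M m).symm

include hiM in
theorem separable_iM [Algebra.IsSeparable K M] (m : M) : IsSeparable E (iM m) := by
  let _ : Algebra M C := iM.toAlgebra
  let _ : Algebra K C := ((algebraMap E C).comp (algebraMap K E)).toAlgebra
  have htow : IsScalarTower K M C := IsScalarTower.of_algebraMap_eq fun a => (hiM a).symm
  have htow2 : IsScalarTower K E C := IsScalarTower.of_algebraMap_eq fun a => rfl
  have h1 : IsSeparable K (iM m) := IsSeparable.map (IsScalarTower.toAlgHom K M C) iM.injective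
    (Algebra.IsSeparable.isSeparable K m)
  exact h1.tower_top E

end right

variable {K E M C : Type u} [Field K] [Field E] [Field M] [Field C] [Algebra K E] [Algebra K M]
  [Algebra E C]
  [Algebra (ZMod p) C] [CharP C p] (γ : (M ≃ₐ[K] M) ≃* Γ) (iM : M →+* C)
  (hiM : ∀ a : K, iM (algebraMap K M a) = algebraMap E C (algebraMap K E a))
  (c g : (C ⊗[ZMod p] B)ˣ) (hgU : g ∈ UR J C) (hg : uf C g = c * g) (hgd : du D C g = 1)

include hgU hg hgd hρ hD in
/-- The cocycle. -/
theorem exists_left (Ψ : C →+* C) (h : Γ)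
    (hc : um (tmap (p := p) Ψ (ρ h : B →+* B)) c = c) :
    ∃ u : J.U, u ∈ SU D ∧ um (tmap (p := p) Ψ (ρ h : B →+* B)) g = g * cu C (u : Bˣ) := by
  have h1 : uf C (um (tmap (p := p) Ψ (ρ h : B →+* B)) g) =
      c * um (tmap (p := p) Ψ (ρ h : B →+* B)) g := by
    rw [uf_um, hg, map_mul, hc]
  obtain ⟨u, hu⟩ := exists_const hg h1
  have h2 : um (tmap (p := p) Ψ (ρ h : B →+* B)) g ∈ UR J C :=
    um_mem hgU Ψ (ρ h : B →+* B) (hρ h)
  have h3 : cu C u ∈ UR J C := by
    have h4 : cu C u = g⁻¹ * um (tmap (p := p) Ψ (ρ h : B →+* B)) g := by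
      rw [hu, inv_mul_cancel_left]
    rw [h4]
    exact mul_mem (inv_mem hgU) h2
  have hU : u ∈ J.U := (cu_mem_iff J).mp h3
  obtain ⟨σ, hσ⟩ := hD h
  have h5 : du D C (cu C u) = 1 := by
    have h6 := du_umW Ψ hσ g hgd
    rw [hu, map_mul, hgd, one_mul] at h6
    exact h6
  refine ⟨⟨u, hU⟩, ?_, hu⟩
  rw [mem_SU]
  have h6 := congrArg Units.val h5
  rw [du_cu] at h6
  exact one_tmul_inj (h6.trans Algebra.TensorProduct.one_def)

/-- **The splitting field of the torsor.** -/
theorem asm [IsAlgClosed C] [Algebra.IsAlgebraic E C] [FiniteDimensional K M] [IsGalois K M]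
    (hiM : ∀ a : K, iM (algebraMap K M a) = algebraMap E C (algebraMap K E a))
    (hgU : g ∈ UR J C) (hg : uf C g = c * g) (hgd : du D C g = 1)
    (hc1 : ∀ (Ψ : C →+* C) (h : Γ), (∀ a : E, Ψ (algebraMap E C a) = algebraMap E C a) →
      (∀ m, Ψ (iM m) = iM (γ.symm h m)) → um (tmap (p := p) Ψ (ρ h : B →+* B)) c = c)
    (hc2 : ∀ (S : Type u) [Field S] [Algebra (ZMod p) S] (f : S →+* C),
      (∀ a : E, ∃ s, f s = algebraMap E C a) → (∀ m, ∃ s, f s = iM m) →
        ∃ cS : (S ⊗[ZMod p] B)ˣ, bu f cS = c)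
    (h3 : ∀ h : Γ, ∃ Ψ : C ≃ₐ[E] C, ∀ m, Ψ (iM m) = iM (γ.symm h m))
    (h4 : ∀ u : J.U, u ∈ SU D → ∃ Ψ : C ≃ₐ[E] C, (∀ m, Ψ (iM m) = iM m) ∧
      bu (Ψ : C →+* C) g = g * cu C (u : Bˣ)) :
    ∃ (L : Type u) (_ : Field L) (_ : Algebra E L) (_ : FiniteDimensional E L)
      (_ : IsGalois E L) (e' : (L ≃ₐ[E] L) ≃* (SU D) ⋊[suactW D ρ hρ hD] Γ) (i : M →+* L),
      (∀ a : K, i (algebraMap K M a) = algebraMap E L (algebraMap K E a)) ∧
      ∀ (σ : L ≃ₐ[E] L) (x : M), σ (i x) = i (γ.symm (e' σ).right x) := by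
  classical
  let e := Module.finBasis (ZMod p) B
  let bM := Module.finBasis K M
  let T : Set C := (Set.range fun i => (eb e C).repr (g : C ⊗[ZMod p] B) i) ∪
    Set.range fun j => iM (bM j)
  -- images of `M`
  have hML : ∀ m, iM m ∈ IntermediateField.adjoin E T := by
    intro m
    rw [← bM.sum_repr m, map_sum]
    refine sum_mem fun j _ => ?_
    rw [Algebra.smul_def, map_mul, hiM]
    exact mul_mem (IntermediateField.algebraMap_mem _ _)
      (IntermediateField.subset_adjoin E T (Or.inr ⟨j, rfl⟩))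
  have hTL : ∀ i, ∃ r : IntermediateField.adjoin E T,
      algebraMap (IntermediateField.adjoin E T) C r = (eb e C).repr (g : C ⊗[ZMod p] B) i :=
    fun i => ⟨⟨_, IntermediateField.subset_adjoin E T (Or.inl ⟨i, rfl⟩)⟩, rfl⟩
  have hM1 := fun m => separable_iM (E := E) iM hiM m
  have hCE : (algebraMap E C).comp (RingHom.id E) = algebraMap E C := rfl
  -- the prime field
  have hEp : CharP E p := (algebraMap E C).charP (algebraMap E C).injective p
  let zE : ZMod p →+* E := ZMod.castHom (dvd_refl p) E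
  have hTsep : ∀ x ∈ T, IsSeparable E x := by
    rintro _ (⟨i, rfl⟩ | ⟨j, rfl⟩)
    · let _ : Algebra (ZMod p) (separableClosure E C) :=
        ((algebraMap E (separableClosure E C)).comp zE).toAlgebra
      have hSp : CharP (separableClosure E C) p :=
        charP_of_injective_ringHom ((algebraMap E (separableClosure E C)).comp zE).injective p
      have hpi : IsPurelyInseparable (separableClosure E C) C :=
        separableClosure.isPurelyInseparable E C
      obtain ⟨cS, hcS⟩ := hc2 (separableClosure E C) (algebraMap (separableClosure E C) C)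
        (fun a => ⟨algebraMap E (separableClosure E C) a, rfl⟩)
        (fun m => ⟨⟨iM m, mem_separableClosure_iff.mpr (hM1 m)⟩, rfl⟩)
      refine separable_aux (N := E) (S := separableClosure E C) cS g ?_ e i
      rw [hcS]
      exact hg
    · exact hM1 _
  let _ : Algebra (ZMod p) (IntermediateField.adjoin E T) :=
    ((algebraMap E (IntermediateField.adjoin E T)).comp zE).toAlgebra
  have hLp : CharP (IntermediateField.adjoin E T) p :=
    charP_of_injective_ringHom ((algebraMap E (IntermediateField.adjoin E T)).comp zE).injective p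
  have hTn : ∀ (Ψ : C →ₐ[E] C), ∀ x ∈ T, Ψ x ∈ IntermediateField.adjoin E T := by
    intro Ψ
    have hΨE : ∀ a : E, (Ψ : C →+* C) (algebraMap E C a) = algebraMap E C a :=
      fun a => Ψ.commutes a
    obtain ⟨h, hh⟩ := exists_right γ iM hiM (Ψ : C →+* C) hΨE
    obtain ⟨u, -, hu⟩ := exists_left D ρ hρ hD c g hgU hg hgd (Ψ : C →+* C) h
      (hc1 _ h hΨE hh)
    rintro _ (⟨i, rfl⟩ | ⟨j, rfl⟩)
    · have h1 : tmap (p := p) (Ψ : C →+* C) (RingHom.id B) (g : C ⊗[ZMod p] B) =
          tmap (p := p) (RingHom.id C) (ρ h⁻¹ : B →+* B)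
            ((g : C ⊗[ZMod p] B) * (1 ⊗ₜ ((u : Bˣ) : B))) := by
        have h2 : (g : C ⊗[ZMod p] B) * (1 ⊗ₜ ((u : Bˣ) : B)) =
            ((g * cu C (u : Bˣ) : (C ⊗[ZMod p] B)ˣ) : C ⊗[ZMod p] B) := rfl
        rw [h2, ← hu, coe_um, tmap_comp]
        have h3 : ((ρ h⁻¹ : B →+* B)).comp (ρ h : B →+* B) = RingHom.id B := by
          apply RingHom.ext
          intro b
          change ρ h⁻¹ (ρ h b) = b
          rw [← RingAut.mul_apply, ← map_mul, inv_mul_cancel, map_one]
          rfl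
        rw [h3]
        rfl
      have h2 : Ψ ((eb e C).repr (g : C ⊗[ZMod p] B) i) =
          (eb e C).repr (tmap (p := p) (RingHom.id C) (ρ h⁻¹ : B →+* B)
            ((g : C ⊗[ZMod p] B) * (1 ⊗ₜ ((u : Bˣ) : B)))) i := by
        rw [← h1, repr_tmap]
        rfl
      obtain ⟨r, hr⟩ := coord_act (algebraMap (IntermediateField.adjoin E T) C) e _
        (coord_mul (algebraMap (IntermediateField.adjoin E T) C) e
          (g : C ⊗[ZMod p] B) hTL ((u : Bˣ) : B)) (ρ h⁻¹ : B →+* B) i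
      change Ψ ((eb e C).repr (g : C ⊗[ZMod p] B) i) ∈ _
      rw [h2, ← hr]
      exact r.2
    · have h1 : Ψ (iM (bM j)) = iM (γ.symm h (bM j)) := hh _
      change Ψ (iM (bM j)) ∈ _
      rw [h1]
      exact hML _
  obtain ⟨hfd, hgal⟩ := galois_adjoin T
    ((Set.finite_range _).union (Set.finite_range _)) hTsep hTn
  let iL : M →+* IntermediateField.adjoin E T := iM.codRestrict _ hML
  have hiL : ∀ m, algebraMap (IntermediateField.adjoin E T) C (iL m) = iM m := fun _ => rfl
  obtain ⟨gL, hgL, -⟩ := exists_unit_sub (J := J) e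
    (algebraMap (IntermediateField.adjoin E T) C)
    (algebraMap (IntermediateField.adjoin E T) C).injective g hgU hTL
  have htot : ∀ Ψ : C ≃ₐ[E] C, ∃ x : (SU D) ⋊[suactW D ρ hρ hD] Γ,
      Rel D ρ hρ hD γ iM g (Ψ : C →+* C) x := by
    intro Ψ
    have hΨE : ∀ a : E, (Ψ : C →+* C) (algebraMap E C a) = algebraMap E C a :=
      fun a => Ψ.commutes a
    obtain ⟨h, hh⟩ := exists_right γ iM hiM (Ψ : C →+* C) hΨE
    obtain ⟨u, hu1, hu⟩ := exists_left D ρ hρ hD c g hgU hg hgd (Ψ : C →+* C) h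
      (hc1 _ h hΨE hh)
    exact ⟨⟨⟨u, hu1⟩, h⟩, hh, hu⟩
  have hsurj : ∀ x : (SU D) ⋊[suactW D ρ hρ hD] Γ, ∃ Ψ : C ≃ₐ[E] C,
      Rel D ρ hρ hD γ iM g (Ψ : C →+* C) x := by
    intro x
    obtain ⟨Ψ₁, hΨ₁⟩ := h3 x.right
    have hΨE : ∀ a : E, (Ψ₁ : C →+* C) (algebraMap E C a) = algebraMap E C a :=
      fun a => Ψ₁.commutes a
    obtain ⟨u₁, hu1, hu⟩ := exists_left D ρ hρ hD c g hgU hg hgd (Ψ₁ : C →+* C) x.right
      (hc1 _ x.right hΨE hΨ₁)
    have r1 : Rel D ρ hρ hD γ iM g (Ψ₁ : C →+* C) ⟨⟨u₁, hu1⟩, x.right⟩ := ⟨hΨ₁, hu⟩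
    let u' : SU D := x.left * (⟨u₁, hu1⟩ : SU D)⁻¹
    obtain ⟨Ψ₂, hΨ₂, hΨ₂'⟩ := h4 (u' : J.U) u'.2
    have r2 : Rel D ρ hρ hD γ iM g (Ψ₂ : C →+* C) ⟨u', 1⟩ := by
      refine ⟨?_, ?_⟩
      · intro m
        refine (hΨ₂ m).trans ?_
        change iM m = iM (γ.symm 1 m)
        rw [map_one]
        rfl
      · change um (tmap (p := p) (Ψ₂ : C →+* C) (ρ 1 : B →+* B)) g = _
        rw [map_one]
        exact hΨ₂'
    refine ⟨Ψ₂ * Ψ₁, ?_⟩
    have r3 := r2.mul r1
    have h5 : (⟨u', 1⟩ : (SU D) ⋊[suactW D ρ hρ hD] Γ) * ⟨⟨u₁, hu1⟩, x.right⟩ = x := by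
      apply SemidirectProduct.ext
      · rw [SemidirectProduct.mul_left]
        change u' * (suactW D ρ hρ hD 1) ⟨u₁, hu1⟩ = x.left
        rw [map_one]
        exact inv_mul_cancel_right _ _
      · rw [SemidirectProduct.mul_right]
        exact one_mul _
    rw [h5] at r3
    exact r3
  have hgen : ∀ σ : (IntermediateField.adjoin E T) ≃ₐ[E] (IntermediateField.adjoin E T),
      (∀ m, σ (iL m) = iL m) → bu ((σ : (IntermediateField.adjoin E T) ≃ₐ[E]
        (IntermediateField.adjoin E T)) : (IntermediateField.adjoin E T) →+*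
        (IntermediateField.adjoin E T)) gL = gL → σ = 1 := by
    intro σ hσ1 hσ2
    have h5 : ∀ x (hx : x ∈ IntermediateField.adjoin E T), ((σ ⟨x, hx⟩ :
        IntermediateField.adjoin E T) : C) = x := by
      intro x hx
      induction hx using IntermediateField.adjoin_induction with
      | mem x hx =>
        rcases hx with ⟨i, rfl⟩ | ⟨j, rfl⟩
        · have h6 : (⟨(eb e C).repr (g : C ⊗[ZMod p] B) i, IntermediateField.subset_adjoin E T
              (Or.inl ⟨i, rfl⟩)⟩ : IntermediateField.adjoin E T) =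
              (eb e (IntermediateField.adjoin E T)).repr gL.val i := by
            apply Subtype.ext
            change (eb e C).repr (g : C ⊗[ZMod p] B) i =
              algebraMap (IntermediateField.adjoin E T) C _
            rw [← repr_tmap, ← coe_um, hgL]
          have h7 : σ ((eb e (IntermediateField.adjoin E T)).repr gL.val i) =
              (eb e (IntermediateField.adjoin E T)).repr gL.val i := by
            conv_rhs => rw [← hσ2]
            rw [coe_um, repr_tmap]
            rfl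
          change ((σ ⟨(eb e C).repr (g : C ⊗[ZMod p] B) i, _⟩ :
            IntermediateField.adjoin E T) : C) = (eb e C).repr (g : C ⊗[ZMod p] B) i
          rw [h6, h7, ← h6]
        · exact congrArg Subtype.val (hσ1 (bM j))
      | algebraMap a => exact congrArg Subtype.val (σ.commutes a)
      | add x y hx hy ihx ihy =>
        have h6 := congrArg Subtype.val (map_add σ ⟨x, hx⟩ ⟨y, hy⟩)
        refine h6.trans ?_
        change ((σ ⟨x, hx⟩ : IntermediateField.adjoin E T) : C) +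
          ((σ ⟨y, hy⟩ : IntermediateField.adjoin E T) : C) = x + y
        rw [ihx, ihy]
      | mul x y hx hy ihx ihy =>
        have h6 := congrArg Subtype.val (map_mul σ ⟨x, hx⟩ ⟨y, hy⟩)
        refine h6.trans ?_
        change ((σ ⟨x, hx⟩ : IntermediateField.adjoin E T) : C) *
          ((σ ⟨y, hy⟩ : IntermediateField.adjoin E T) : C) = x * y
        rw [ihx, ihy]
      | inv x hx ihx =>
        have h6 := congrArg Subtype.val (map_inv₀ σ ⟨x, hx⟩)
        refine h6.trans ?_
        change ((σ ⟨x, hx⟩ : IntermediateField.adjoin E T) : C)⁻¹ = x⁻¹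
        rw [ihx]
    ext z
    exact h5 z.1 z.2
  obtain ⟨e', he'⟩ := asm_aux γ iM iL hiL g gL hgL htot hsurj hgen
  refine ⟨IntermediateField.adjoin E T, inferInstance, inferInstance, hfd, hgal, e', iL, ?_, he'⟩
  intro a
  exact Subtype.ext (hiM a)

end MP7fZ
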