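import Pool.Agent.Lib.MP_7f581e_ntL.Z8

/-!
Commutator Lang torsor, part 15: the main theorem.
-/

set_option autoImplicit false
set_option linter.unusedSectionVars false

universe u v

namespace MP7fZ

open TensorProduct MP7fS MP7fU MP7fV MP7fR MP7fE

variable {p : ℕ} [Fact p.Prime] {B : Type} [Ring B] [Finite B] [Algebra (ZMod p) B]

section fix

variable {J : AInv p B} {κ : Type} [Fintype κ] [DecidableEq κ]
  (sb : Module.Basis κ (ZMod p) (Sk J))

theorem cg_bbV {M M' : Type u} [Field M] [Field M'] [Algebra (ZMod p) M] [Algebra (ZMod p) M']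
    (b : Module.Basis κ M (VV J M)) (c' : M ⊗[ZMod p] B) (f : M →+* M') {S : Type*} [CommRing S]
    [Algebra (ZMod p) S] (f' : M' →+* S) (X : κ → S) :
    cg J (bbV J sb f b) (tmap (p := p) f (RingHom.id B) c') f' X = cg J b c' (f'.comp f) X := by
  have h1 : ∀ z : M ⊗[ZMod p] B, tmap (p := p) f' (RingHom.id B)
      (tmap (p := p) f (RingHom.id B) z) = tmap (p := p) (f'.comp f) (RingHom.id B) z :=
    fun z => tmap_comp (p := p) _ _ _ _ z
  rw [cg, cg, h1]
  congr 1
  refine Finset.sum_congr rfl fun k _ => ?_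
  rw [coe_bbV, h1]

variable {K M : Type u} [Field K] [Field M] [Algebra K M] [Algebra (ZMod p) M]
  {Γ : Type} [Group Γ] (γ : Γ ≃* (M ≃ₐ[K] M)) (ρ : Γ →* (B ≃+* B))

theorem tmap_fixC {C : Type*} [Field C] [Algebra (ZMod p) C] (iM : M →+* C) (Ψ : C →+* C) (h : Γ)
    (hΨ : ∀ m, Ψ (iM m) = iM (γ h m)) {z : M ⊗[ZMod p] B} (hz : ∀ g, sg γ ρ g z = z) :
    tmap (p := p) Ψ (ρ h : B →+* B) (tmap (p := p) iM (RingHom.id B) z) =
      tmap (p := p) iM (RingHom.id B) z := by
  conv_rhs => rw [← hz h]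
  rw [sg, tmap_comp, tmap_comp]
  have h1 : Ψ.comp iM = iM.comp (γ h : M →+* M) := RingHom.ext hΨ
  rw [h1]
  rfl

theorem cg_fix {C : Type*} [Field C] [Algebra (ZMod p) C] (iM : M →+* C) (Ψ : C →+* C) (h : Γ)
    (hΨ : ∀ m, Ψ (iM m) = iM (γ h m)) (b : Module.Basis κ M (VV J M)) {c' : M ⊗[ZMod p] B}
    (hb : ∀ i g, sg γ ρ g (b i : M ⊗[ZMod p] B) = b i) (hcf : ∀ g, sg γ ρ g c' = c')
    (X : κ → C) (hX : ∀ k, Ψ (X k) = X k) :
    tmap (p := p) Ψ (ρ h : B →+* B) (cg J b c' iM X) = cg J b c' iM X := by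
  rw [cg, map_add, map_sum, tmap_fixC γ ρ iM Ψ h hΨ hcf]
  congr 1
  refine Finset.sum_congr rfl fun k _ => ?_
  rw [tmap_smul, tmap_fixC γ ρ iM Ψ h hΨ (hb k), hX]

end fix

section descent

variable {J : AInv p B}

theorem tmap_mem_range' {M S C : Type*} [CommRing M] [CommRing S] [CommRing C]
    [Algebra (ZMod p) M] [Algebra (ZMod p) S] [Algebra (ZMod p) C] (f : S →+* C) (iM : M →+* C)
    (h : ∀ m, ∃ s, f s = iM m) (z : M ⊗[ZMod p] B) :
    tmap (p := p) iM (RingHom.id B) z ∈ (tmap (p := p) f (RingHom.id B)).range := by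
  induction z using TensorProduct.induction_on with
  | zero =>
    rw [map_zero]
    exact zero_mem _
  | add x y hx hy =>
    rw [map_add]
    exact add_mem hx hy
  | tmul m b =>
    obtain ⟨s, hs⟩ := h m
    refine ⟨s ⊗ₜ b, ?_⟩
    rw [tmap_tmul, tmap_tmul, hs]

theorem cg_mem_range {κ : Type} [Fintype κ] {M : Type u} [Field M] [Algebra (ZMod p) M]
    (b : Module.Basis κ M (VV J M)) (c' : M ⊗[ZMod p] B) {S C : Type*} [CommRing S] [CommRing C]
    [Algebra (ZMod p) S] [Algebra (ZMod p) C] (f : S →+* C) (iM : M →+* C)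
    (h : ∀ m, ∃ s, f s = iM m) (X : κ → C) (hX : ∀ k, ∃ s, f s = X k) :
    cg J b c' iM X ∈ (tmap (p := p) f (RingHom.id B)).range := by
  rw [cg]
  refine add_mem (tmap_mem_range' f iM h _) (sum_mem fun k _ => ?_)
  obtain ⟨w, hw⟩ := tmap_mem_range' f iM h (b k : M ⊗[ZMod p] B)
  obtain ⟨s, hs⟩ := hX k
  refine ⟨s • w, ?_⟩
  rw [tmap_smul, hs, hw]

theorem cay_range {S C : Type*} [Field S] [Field C] [Algebra (ZMod p) S] [Algebra (ZMod p) C]
    [CharP S p] [CharP C p] (f : S →+* C) (y : (C ⊗[ZMod p] B)ˣ)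
    (hy : (y : C ⊗[ZMod p] B) + jR J C (y : C ⊗[ZMod p] B) = 1)
    (h : (y : C ⊗[ZMod p] B) ∈ (tmap (p := p) f (RingHom.id B)).range) :
    ∃ x : (S ⊗[ZMod p] B)ˣ, bu f x = cay J y hy := by
  apply um_range f
  rw [coe_cay]
  exact sub_mem (one_mem _) (desc_inv f y h)

end descent

section alg

/-- Rational function fields over algebraic extensions. -/
theorem isAlgebraic_frac {K M' N E : Type*} [Field K] [Field M'] [Field N] [Field E]
    [Algebra K M'] [Algebra.IsAlgebraic K M'] {ι : Type} [Algebra (MvPolynomial ι M') N]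
    [IsFractionRing (MvPolynomial ι M') N] [Algebra (MvPolynomial ι K) E]
    [Algebra K E] [IsScalarTower K (MvPolynomial ι K) E] [Algebra E N]
    (h : ∀ P : MvPolynomial ι K, algebraMap E N (algebraMap (MvPolynomial ι K) E P) =
      algebraMap (MvPolynomial ι M') N (MvPolynomial.map (algebraMap K M') P)) :
    Algebra.IsAlgebraic E N := by
  have h1 : ∀ P : MvPolynomial ι M', IsAlgebraic E (algebraMap (MvPolynomial ι M') N P) := by
    intro P
    induction P using MvPolynomial.induction_on with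
    | C m =>
      have hm : IsAlgebraic K m := Algebra.IsAlgebraic.isAlgebraic m
      let _ : Algebra K N := ((algebraMap E N).comp (algebraMap K E)).toAlgebra
      have htow : IsScalarTower K E N := IsScalarTower.of_algebraMap_eq fun _ => rfl
      let f : M' →ₐ[K] N := { (algebraMap (MvPolynomial ι M') N).comp MvPolynomial.C with
        commutes' := fun a => by
          change algebraMap (MvPolynomial ι M') N (MvPolynomial.C (algebraMap K M' a)) =
            algebraMap E N (algebraMap K E a)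
          rw [IsScalarTower.algebraMap_apply K (MvPolynomial ι K) E, h,
            MvPolynomial.algebraMap_eq, MvPolynomial.map_C] }
      have h2 : IsAlgebraic K (f m) := hm.algHom f
      exact h2.extendScalars (algebraMap K E).injective
    | add P Q hP hQ =>
      rw [map_add]
      exact hP.add hQ
    | mul_X P i hP =>
      rw [map_mul]
      refine hP.mul ?_
      have h2 := h (MvPolynomial.X i)
      rw [MvPolynomial.map_X] at h2
      rw [← h2]
      exact isAlgebraic_algebraMap _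
  refine ⟨fun z => ?_⟩
  obtain ⟨P, Q, -, rfl⟩ := IsFractionRing.div_surjective (A := MvPolynomial ι M') z
  rw [div_eq_mul_inv]
  exact (h1 P).mul (h1 Q).inv

end alg

end MP7fZ
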