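import Pool.Agent.Lib.MP_7f581e_ntM.GenV
import Pool.Agent.Lib.MP_7f581e_ntL.Z14
import Pool.Agent.Lib.MP_7f581e_ntL.Z15

/-!
Commutator Lang torsor, part 16: the main theorem, continued.
-/

set_option autoImplicit false
set_option linter.unusedSectionVars false

universe u v

namespace MP7fZ

open TensorProduct MP7fS MP7fU MP7fV MP7fR MP7fE

variable {p : ℕ} [Fact p.Prime] {B : Type} [Ring B] [Finite B] [Algebra (ZMod p) B]

/-- Automorphisms of the coefficients extend. -/
theorem exists_lift_coeff {K M M' N C E : Type u} [Field K] [Field M] [Field M'] [Field N]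
    [Field C] [Field E] [Algebra K M] [Algebra M M'] [Algebra K M'] [IsScalarTower K M M']
    [IsAlgClosed M'] [Algebra.IsAlgebraic M M'] {ι : Type}
    [Algebra (MvPolynomial ι M') N] [IsFractionRing (MvPolynomial ι M') N] [Algebra N C]
    [IsAlgClosed C] [Algebra.IsAlgebraic N C] [Algebra (MvPolynomial ι K) E]
    [IsFractionRing (MvPolynomial ι K) E] [Algebra E N] [Algebra E C] [IsScalarTower E N C]
    [Algebra.IsAlgebraic E C]
    (h : ∀ P : MvPolynomial ι K, algebraMap E N (algebraMap (MvPolynomial ι K) E P) =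
      algebraMap (MvPolynomial ι M') N (MvPolynomial.map (algebraMap K M') P))
    (s : M ≃ₐ[K] M) :
    ∃ Ψ : C ≃ₐ[E] C, ∀ m, Ψ (algebraMap N C (algebraMap (MvPolynomial ι M') N
      (MvPolynomial.C (algebraMap M M' m)))) = algebraMap N C (algebraMap (MvPolynomial ι M') N
      (MvPolynomial.C (algebraMap M M' (s m)))) := by
  obtain ⟨s', hs'⟩ := exists_ext_end (Ω := M') (s : M →+* M)
  have hinj : Function.Injective (MvPolynomial.map (σ := ι) s') :=
    MvPolynomial.map_injective _ s'.injective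
  let sN : N →+* N := IsFractionRing.map hinj
  have hsN : ∀ P : MvPolynomial ι M', sN (algebraMap (MvPolynomial ι M') N P) =
      algebraMap (MvPolynomial ι M') N (MvPolynomial.map s' P) := fun P =>
    IsLocalization.map_eq _ P
  obtain ⟨Ψ, hΨ⟩ := exists_ext_end (Ω := C) sN
  have hE : sN.comp (algebraMap E N) = algebraMap E N := by
    apply IsLocalization.ringHom_ext (nonZeroDivisors (MvPolynomial ι K))
    apply MvPolynomial.ringHom_ext
    · intro a
      change sN (algebraMap E N (algebraMap (MvPolynomial ι K) E (MvPolynomial.C a))) =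
        algebraMap E N (algebraMap (MvPolynomial ι K) E (MvPolynomial.C a))
      rw [h, hsN, MvPolynomial.map_C, MvPolynomial.map_C, IsScalarTower.algebraMap_apply K M M',
        hs']
      congr 3
      exact s.commutes a
    · intro i
      change sN (algebraMap E N (algebraMap (MvPolynomial ι K) E (MvPolynomial.X i))) =
        algebraMap E N (algebraMap (MvPolynomial ι K) E (MvPolynomial.X i))
      rw [h, hsN, MvPolynomial.map_X, MvPolynomial.map_X]
  let ΨE : C →ₐ[E] C := { Ψ with
    commutes' := fun a => by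
      change Ψ (algebraMap E C a) = algebraMap E C a
      rw [IsScalarTower.algebraMap_apply E N C, hΨ]
      exact congrArg (fun f : E →+* N => algebraMap N C (f a)) hE }
  have hbij : Function.Bijective ΨE := Algebra.IsAlgebraic.algHom_bijective ΨE
  refine ⟨AlgEquiv.ofBijective ΨE hbij, ?_⟩
  intro m
  change Ψ _ = _
  rw [hΨ, hsN, MvPolynomial.map_C, hs']
  rfl

variable {J : AInv p B} {n : ℕ} {Cc : Type} [CommRing Cc] [Finite Cc] [Algebra (ZMod p) Cc]
  (D : DetData J n Cc)
  {Γ : Type} [Group Γ] (ρ : Γ →* (B ≃+* B))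
  (hρ : ∀ g b, ρ g (J.j b) = J.j (ρ g b))
  (hD : ∀ g, ∃ σ : Cc →+* Cc, CW D (ρ g : B →+* B) σ)

section realized

variable {N C : Type u} [Field N] [Field C] [Algebra N C] [Algebra (ZMod p) C]
  (g : (C ⊗[ZMod p] B)ˣ)

/-- The elements which are realized by automorphisms. -/
def IsReal (N : Type u) {C : Type u} [Field N] [Field C] [Algebra N C] [Algebra (ZMod p) C]
    (g : (C ⊗[ZMod p] B)ˣ) (w : Bˣ) : Prop :=
  ∃ Ψ : C ≃ₐ[N] C, bu (Ψ : C →+* C) g = g * cu C w

theorem IsReal.one : IsReal N g 1 := by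
  have h1 : ((1 : C ≃ₐ[N] C) : C →+* C) = RingHom.id C := rfl
  have h2 : bu ((1 : C ≃ₐ[N] C) : C →+* C) g = g := by rw [h1, bu_id]
  have h3 : cu (p := p) C (1 : Bˣ) = 1 := map_one _
  exact ⟨1, by rw [h2, h3, mul_one]⟩

variable {g}

theorem IsReal.mul {w w' : Bˣ} (h : IsReal N g w) (h' : IsReal N g w') :
    IsReal N g (w * w') := by
  obtain ⟨Ψ, hΨ⟩ := h
  obtain ⟨Ψ', hΨ'⟩ := h'
  have h0 : ((Ψ * Ψ' : C ≃ₐ[N] C) : C →+* C) = (Ψ : C →+* C).comp (Ψ' : C →+* C) := rfl
  have h3 : cu (p := p) C (w * w') = cu C w * cu C w' := map_mul _ _ _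
  refine ⟨Ψ * Ψ', ?_⟩
  rw [h0, ← bu_bu, hΨ', map_mul, hΨ, bu_cu, h3, mul_assoc]

theorem IsReal.inv {w : Bˣ} (h : IsReal N g w) : IsReal N g w⁻¹ := by
  obtain ⟨Ψ, hΨ⟩ := h
  have h2 : ((Ψ⁻¹ : C ≃ₐ[N] C) : C →+* C).comp (Ψ : C →+* C) = RingHom.id C := by
    apply RingHom.ext
    intro z
    exact Ψ.symm_apply_apply z
  have h1 : bu ((Ψ⁻¹ : C ≃ₐ[N] C) : C →+* C) (bu (Ψ : C →+* C) g) = g := by
    rw [bu_bu, h2, bu_id]
  have h3 : cu (p := p) C w⁻¹ = (cu C w)⁻¹ := map_inv _ _
  refine ⟨Ψ⁻¹, ?_⟩
  rw [hΨ, map_mul, bu_cu] at h1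
  rw [h3, eq_mul_inv_iff_mul_eq]
  exact h1

/-- The group of elements which are realized by automorphisms. -/
def realized (N : Type u) {C : Type u} [Field N] [Field C] [Algebra N C] [Algebra (ZMod p) C]
    (g : (C ⊗[ZMod p] B)ˣ) : Subgroup Bˣ where
  carrier := {w | IsReal N g w}
  one_mem' := IsReal.one g
  mul_mem' := fun h h' => IsReal.mul h h'
  inv_mem' := fun h => IsReal.inv h

end realized

/-- **The main theorem, for given auxiliary fields.** -/
theorem lang_comm_aux {κ : Type} [Fintype κ] [DecidableEq κ]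
    (sb : Module.Basis κ (ZMod p) (Sk J)) {c₀ : B} (hG : Good J c₀)
    (hgen : ∀ H : Subgroup Bˣ, (∀ (v : B) (hv : v * v = 0), GenV J v → nB hv ∈ H) →
      ∀ u : J.U, u ∈ SU D → (u : Bˣ) ∈ H)
    {K M M' N C E : Type u} [Field K] [Field M] [Field M'] [Field N]
    [Field C] [Field E] [Algebra K M] [Algebra M M'] [Algebra K M'] [IsScalarTower K M M']
    [IsAlgClosed M'] [Algebra.IsAlgebraic M M'] [FiniteDimensional K M] [IsGalois K M]
    [Algebra.IsAlgebraic K M']
    [Algebra (ZMod p) M] [Algebra (ZMod p) M'] [CharP M' p] [Finite Γ]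
    {ι : Type} (ε : Bool × κ ≃ ι)
    [Algebra (MvPolynomial ι M') N] [IsFractionRing (MvPolynomial ι M') N] [Algebra N C]
    [IsAlgClosed C] [Algebra.IsAlgebraic N C] [Algebra (ZMod p) C] [CharP C p]
    [Algebra (MvPolynomial ι K) E]
    [IsFractionRing (MvPolynomial ι K) E] [Algebra K E] [IsScalarTower K (MvPolynomial ι K) E]
    (γ : (M ≃ₐ[K] M) ≃* Γ) :
    ∃ (L : Type u) (_ : Field L) (_ : Algebra E L) (_ : FiniteDimensional E L)
      (_ : IsGalois E L) (e' : (L ≃ₐ[E] L) ≃* (SU D) ⋊[suactW D ρ hρ hD] Γ) (i : M →+* L),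
      (∀ a : K, i (algebraMap K M a) = algebraMap E L (algebraMap K E a)) ∧
      ∀ (σ : L ≃ₐ[E] L) (x : M), σ (i x) = i (γ.symm (e' σ).right x) := by
  -- the tower
  let jP : MvPolynomial ι K →+* N :=
    (algebraMap (MvPolynomial ι M') N).comp (MvPolynomial.map (algebraMap K M'))
  have hjP : Function.Injective jP := (IsFractionRing.injective (MvPolynomial ι M') N).comp
    (MvPolynomial.map_injective _ (algebraMap K M').injective)
  let eN : E →+* N := IsFractionRing.lift hjP
  have heN : ∀ P : MvPolynomial ι K, eN (algebraMap (MvPolynomial ι K) E P) =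
      algebraMap (MvPolynomial ι M') N (MvPolynomial.map (algebraMap K M') P) := fun P =>
    IsFractionRing.lift_algebraMap hjP P
  let _ : Algebra E N := eN.toAlgebra
  let _ : Algebra E C := ((algebraMap N C).comp eN).toAlgebra
  have htow : IsScalarTower E N C := IsScalarTower.of_algebraMap_eq fun _ => rfl
  have halgN : Algebra.IsAlgebraic E N := isAlgebraic_frac (K := K) (M' := M') (ι := ι) heN
  have halgC : Algebra.IsAlgebraic E C := Algebra.IsAlgebraic.trans E N C
  let iM : M →+* C := (((algebraMap N C).comp (algebraMap (MvPolynomial ι M') N)).comp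
    MvPolynomial.C).comp (algebraMap M M')
  have hiM : ∀ a : K, iM (algebraMap K M a) = algebraMap E C (algebraMap K E a) := by
    intro a
    change algebraMap N C (algebraMap (MvPolynomial ι M') N (MvPolynomial.C
      (algebraMap M M' (algebraMap K M a)))) = algebraMap N C (eN (algebraMap K E a))
    rw [IsScalarTower.algebraMap_apply K (MvPolynomial ι K) E, heN, MvPolynomial.algebraMap_eq,
      MvPolynomial.map_C, ← IsScalarTower.algebraMap_apply K M M']
  -- the invariant basis
  obtain ⟨c', hc', hcf⟩ := exists_c' J γ.symm ρ hρ hG.hc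
  obtain ⟨b, hb⟩ := exists_inv_basis_V J sb γ.symm ρ hρ
  let b' : Module.Basis κ M' (VV J M') := bbV J sb (algebraMap M M') b
  have hc'' : tmap (p := p) (algebraMap M M') (RingHom.id B) c' +
      jR J M' (tmap (p := p) (algebraMap M M') (RingHom.id B) c') = 1 := by
    rw [jR_tmap J (algebraMap M M') (RingHom.id B) (fun _ => rfl), ← map_add, hc', map_one]
  let j₁ : AlgebraicClosure (ZMod p) →+* M' :=
    (IsAlgClosed.lift : AlgebraicClosure (ZMod p) →ₐ[ZMod p] M')
  obtain ⟨y, hy, hy1, g, hgU, hg, hgd, hgv⟩ := irr J sb b' hc'' ε D hG j₁ (N := N) (C := C)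
  let X : ι → C := fun i => algebraMap N C (algebraMap (MvPolynomial ι M') N (MvPolynomial.X i))
  have hXE : ∀ i, X i = algebraMap E C (algebraMap (MvPolynomial ι K) E (MvPolynomial.X i)) := by
    intro i
    change _ = algebraMap N C (eN _)
    rw [heN, MvPolynomial.map_X]
  have hy' : ∀ t, (y t : C ⊗[ZMod p] B) = cg J b c' iM (fun k => X (ε (t, k))) := by
    intro t
    rw [hy]
    exact cg_bbV sb b c' (algebraMap M M') _ _
  refine asm D ρ hρ hD γ iM (cmm (cay J (y false) (hy1 false)) (cay J (y true) (hy1 true))) g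
    hiM hgU hg hgd ?_ ?_ ?_ ?_
  · intro Ψ h hΨE hΨM
    have h1 : ∀ t, um (tmap (p := p) Ψ (ρ h : B →+* B)) (y t) = y t := by
      intro t
      apply Units.ext
      rw [coe_um, hy']
      refine cg_fix γ.symm ρ iM Ψ h hΨM b hb hcf _ ?_
      intro k
      rw [hXE]
      exact hΨE _
    have h2 : ∀ t, um (tmap (p := p) Ψ (ρ h : B →+* B)) (cay J (y t) (hy1 t)) =
        cay J (y t) (hy1 t) := by
      intro t
      apply Units.ext
      rw [coe_um, coe_cay, map_sub, map_one, ← coe_um, map_inv, h1]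
    rw [map_cmm, h2, h2]
  · intro S _ _ f hfE hfM
    have hSp : CharP S p := f.charP f.injective p
    have h1 : ∀ t, ∃ x : (S ⊗[ZMod p] B)ˣ, bu f x = cay J (y t) (hy1 t) := by
      intro t
      apply cay_range
      rw [hy']
      apply cg_mem_range b c' f iM hfM
      intro k
      rw [hXE]
      exact hfE _
    choose x hx using h1
    exact ⟨cmm (x false) (x true), by rw [map_cmm, hx, hx]⟩
  · intro h
    exact exists_lift_coeff (K := K) (M := M) (M' := M') (N := N) (C := C) (E := E) heN
      (γ.symm h)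
  · intro u hu
    have h1 : (u : Bˣ) ∈ realized N g := by
      apply hgen _ _ u hu
      intro v hv hgv'
      by_cases hv0 : v = 0
      · subst hv0
        have h2 : nB hv = 1 := by
          apply Units.ext
          change 1 + (0 : B) = 1
          rw [add_zero]
        rw [h2]
        exact one_mem _
      · exact hgv v hv hv0 hgv'
    obtain ⟨Ψ, hΨ⟩ := h1
    refine ⟨Ψ.restrictScalars E, ?_, hΨ⟩
    intro m
    exact Ψ.commutes _

/-- **Commutator Lang torsor.** Split embedding problems whose kernel is a special unitary group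
generated by skew elements of square zero. -/
theorem lang_comm {c₀ : B} (hG : Good J c₀)
    (hgen : ∀ H : Subgroup Bˣ, (∀ (v : B) (hv : v * v = 0), GenV J v → nB hv ∈ H) →
      ∀ u : J.U, u ∈ SU D → (u : Bˣ) ∈ H)
    {K : Type u} [Field K] [CharP K p] [Finite Γ] :
    ∃ r : ℕ, SolvesOver K (FractionRing (MvPolynomial (Fin r) K))
      (SemidirectProduct.rightHom : (SU D) ⋊[suactW D ρ hρ hD] Γ →* Γ) := by
  classical
  let sb := Module.finBasis (ZMod p) (Sk J)
  let κ := Fin (Module.finrank (ZMod p) (Sk J))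
  let ε : Bool × κ ≃ Fin (Fintype.card (Bool × κ)) := Fintype.equivFin _
  refine ⟨Fintype.card (Bool × κ), ?_⟩
  intro M _ _ hfd hgal γ
  have hM : CharP M p := charP_of_injective_algebraMap (algebraMap K M).injective p
  let _ : Algebra (ZMod p) M := ZMod.algebra M p
  let M' := AlgebraicClosure M
  let zM : ZMod p →+* M' := (algebraMap M M').comp (algebraMap (ZMod p) M)
  let _ : Algebra (ZMod p) M' := zM.toAlgebra
  have hM' : CharP M' p := charP_of_injective_ringHom zM.injective p
  have halg : Algebra.IsAlgebraic K M' := Algebra.IsAlgebraic.trans K M M'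
  let N := FractionRing (MvPolynomial (Fin (Fintype.card (Bool × κ))) M')
  let C := AlgebraicClosure N
  let zC : ZMod p →+* C := ((algebraMap N C).comp ((algebraMap (MvPolynomial
    (Fin (Fintype.card (Bool × κ))) M') N).comp MvPolynomial.C)).comp zM
  let _ : Algebra (ZMod p) C := zC.toAlgebra
  have hC : CharP C p := charP_of_injective_ringHom zC.injective p
  exact lang_comm_aux D ρ hρ hD sb hG hgen (K := K) (M := M) (M' := M') (N := N) (C := C)
    (E := FractionRing (MvPolynomial (Fin (Fintype.card (Bool × κ))) K)) ε γ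

end MP7fZ
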