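import Pool.Agent.Lib.MP_7f581e_ntL.Z16
import Pool.Agent.Lib.MP_7f581e_ntG.SplitSU
import Pool.Agent.Lib.MP_7f581e_ntM.SLInst

/-!
Commutator Lang torsor, part 17: unitary groups.
-/

set_option autoImplicit false
set_option linter.unusedSectionVars false

universe u v

namespace MP7fZ

open TensorProduct MP7fS MP7fU MP7fV MP7fR MP7fE MP7fW MP7fY

section phi

variable {A R' : Type*} [CommRing A] [Ring R'] (i : A →+* R') (hi : ∀ c z, i c * z = z * i c)
  {P M : R'} (hP : P * P = P) (hM : M * M = M) (hPM : P * M = 0) (hMP : M * P = 0)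

/-- The ring homomorphism attached to a pair of orthogonal idempotents. -/
def phi3 : A × A × A →+* R' where
  toFun x := i x.1 * P + i x.2.1 * M + i x.2.2 * (1 - P - M)
  map_one' := by
    rw [Prod.fst_one, Prod.snd_one, Prod.fst_one, Prod.snd_one, map_one]
    noncomm_ring
  map_zero' := by
    rw [Prod.fst_zero, Prod.snd_zero, Prod.fst_zero, Prod.snd_zero, map_zero]
    noncomm_ring
  map_add' x y := by
    rw [Prod.fst_add, Prod.snd_add, Prod.fst_add, Prod.snd_add, map_add, map_add, map_add]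
    noncomm_ring
  map_mul' x y := by
    have key : ∀ (c c' : A) (U V : R'), i c * U * (i c' * V) = i (c * c') * (U * V) := by
      intro c c' U V
      rw [map_mul]
      calc i c * U * (i c' * V) = i c * (U * i c') * V := by noncomm_ring
        _ = i c * (i c' * U) * V := by rw [hi c' U]
        _ = _ := by noncomm_ring
    have e1 : P * (1 - P - M) = 0 := by
      rw [mul_sub, mul_sub, mul_one, hP, hPM, sub_self, sub_zero]
    have e2 : M * (1 - P - M) = 0 := by
      rw [mul_sub, mul_sub, mul_one, hM, hMP, sub_zero, sub_self]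
    have e3 : (1 - P - M) * P = 0 := by
      rw [sub_mul, sub_mul, one_mul, hP, hMP, sub_self, sub_zero]
    have e4 : (1 - P - M) * M = 0 := by
      rw [sub_mul, sub_mul, one_mul, hM, hPM, sub_zero, sub_self]
    have e5 : (1 - P - M) * (1 - P - M) = 1 - P - M := by
      conv_lhs => rw [mul_sub, mul_sub, mul_one]
      rw [e3, e4, sub_zero, sub_zero]
    rw [Prod.fst_mul, Prod.snd_mul, Prod.fst_mul, Prod.snd_mul]
    rw [add_mul, add_mul, mul_add, mul_add, mul_add, mul_add, mul_add, mul_add]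
    rw [key, key, key, key, key, key, key, key, key, hP, hM, hPM, hMP, e1, e2, e3, e4, e5]
    simp only [mul_zero, add_zero, zero_add]

theorem phi3_apply (x y z : A) : phi3 i hi hP hM hPM hMP (x, y, z) =
    i x * P + i y * M + i z * (1 - P - M) := rfl

end phi

section genV

variable {p : ℕ} [Fact p.Prime] {B : Type} [Ring B] [Finite B] [Algebra (ZMod p) B]
  {J : AInv p B} {n : ℕ} {C : Type} [CommRing C] [Finite C] [Algebra (ZMod p) C]
  (D : DetData J n C)

theorem exists_mu (p : ℕ) [Fact p.Prime] : ∃ μ : AlgebraicClosure (ZMod p),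
    μ ≠ 0 ∧ μ * μ ≠ 1 := by
  classical
  obtain ⟨μ, hμ⟩ := Infinite.exists_notMem_finset
    ({0, 1, -1} : Finset (AlgebraicClosure (ZMod p)))
  simp only [Finset.mem_insert, Finset.mem_singleton, not_or] at hμ
  refine ⟨μ, hμ.1, ?_⟩
  intro h
  rcases mul_self_eq_one_iff.mp h with h1 | h1
  · exact hμ.2.1 h1
  · exact hμ.2.2 h1

/-- The scaling condition for elements of root type. -/
theorem genV_of_pm (ε : AlgebraicClosure (ZMod p) ⊗[ZMod p] C) (hε : ε * ε = ε)
    (hs : D.sR (AlgebraicClosure (ZMod p)) ε = 1 - ε)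
    {P M v : B} (hP : P * P = P) (hM : M * M = M) (hPM : P * M = 0) (hMP : M * P = 0)
    (hJP : J.j P = M) (hJM : J.j M = P) (hv : J.j v = -v) (hPv : P * v = v) (hvM : v * M = v)
    (hMv : M * v = 0) (hvP : v * P = 0) : GenV J v := by
  obtain ⟨μ, hμ0, hμ1⟩ := exists_mu p
  have hμne : μ ≠ 1 := fun h => hμ1 (by rw [h, one_mul])
  have hμne' : μ⁻¹ ≠ 1 := inv_ne_one.mpr hμne
  let Ω := AlgebraicClosure (ZMod p)
  let A := Ω ⊗[ZMod p] C
  let t : B → Ω ⊗[ZMod p] B := fun b => (1 : Ω) ⊗ₜ[ZMod p] b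
  have ht : ∀ a b : B, t a * t b = t (a * b) := by
    intro a b
    change ((1 : Ω) ⊗ₜ[ZMod p] a) * ((1 : Ω) ⊗ₜ[ZMod p] b) = _
    rw [Algebra.TensorProduct.tmul_mul_tmul, one_mul]
  have ht0 : t 0 = 0 := tmul_zero _ _
  have tP : t P * t P = t P := by rw [ht, hP]
  have tM : t M * t M = t M := by rw [ht, hM]
  have tPM : t P * t M = 0 := by rw [ht, hPM, ht0]
  have tMP : t M * t P = 0 := by rw [ht, hMP, ht0]
  let φ : A × A × A →+* Ω ⊗[ZMod p] B :=
    phi3 (D.ιR Ω) (D.ιR_central Ω) tP tM tPM tMP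
  have hφ : ∀ x y z : A, φ (x, y, z) = D.ιR Ω x * t P + D.ιR Ω y * t M +
      D.ιR Ω z * (1 - t P - t M) := fun x y z => rfl
  let m1 : A := algebraMap Ω A μ
  let m2 : A := algebraMap Ω A μ⁻¹
  have h12 : m1 * m2 = 1 := by
    change algebraMap Ω A μ * algebraMap Ω A μ⁻¹ = 1
    rw [← map_mul, mul_inv_cancel₀ hμ0, map_one]
  have h21 : m2 * m1 = 1 := by rw [mul_comm, h12]
  let z1 : A := mu ε hε (m1, m2)
  let z2 : A := mu ε hε (m2, m1)
  have hz12 : z1 * z2 = 1 := by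
    change mu ε hε (m1, m2) * mu ε hε (m2, m1) = 1
    rw [← map_mul, Prod.mk_mul_mk, h12, h21]
    exact map_one _
  have hz21 : z2 * z1 = 1 := by rw [mul_comm, hz12]
  have hsm : ∀ ν : Ω, D.sR Ω (algebraMap Ω A ν) = algebraMap Ω A ν := by
    intro ν
    change tmap (p := p) (RingHom.id Ω) D.s (ν ⊗ₜ (1 : C)) = ν ⊗ₜ (1 : C)
    rw [tmap_tmul, map_one]
    rfl
  have hsz : D.sR Ω z1 = z2 := by
    change D.sR Ω (mu ε hε (m1, m2)) = mu ε hε (m2, m1)
    rw [mu_apply, mu_apply, map_add, map_mul, map_mul, map_sub, map_one, hs, hsm, hsm]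
    ring
  have hιm : ∀ (ν : Ω) (w : Ω ⊗[ZMod p] B), D.ιR Ω (algebraMap Ω A ν) * w = ν • w := by
    intro ν w
    have h1 : D.ιR Ω (algebraMap Ω A ν) = ν • 1 := by
      change D.ιR Ω (ν ⊗ₜ[ZMod p] (1 : C)) = _
      rw [D.ιR_tmul, map_one, Algebra.TensorProduct.one_def, smul_tmul', smul_eq_mul, mul_one]
    rw [h1, smul_mul_assoc, one_mul]
  have hjι : ∀ (c : A) (U : Ω ⊗[ZMod p] B), jR J Ω (D.ιR Ω c * U) =
      D.ιR Ω (D.sR Ω c) * jR J Ω U := by
    intro c U
    rw [jR_mul, D.jR_ιR, ← D.ιR_central]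
  have hjP : jR J Ω (t P) = t M := by
    change jR J Ω ((1 : Ω) ⊗ₜ[ZMod p] P) = _
    rw [jR_tmul, hJP]
  have hjM : jR J Ω (t M) = t P := by
    change jR J Ω ((1 : Ω) ⊗ₜ[ZMod p] M) = _
    rw [jR_tmul, hJM]
  have hjφ : ∀ x y z : A, jR J Ω (φ (x, y, z)) = φ (D.sR Ω y, D.sR Ω x, D.sR Ω z) := by
    intro x y z
    rw [hφ, hφ, map_add, map_add, hjι, hjι, hjι, map_sub, map_sub, jR_one, hjP, hjM]
    rw [add_comm (D.ιR Ω (D.sR Ω x) * t M), sub_right_comm]
  have hu1 : φ (m1, m2, z1) * φ (m2, m1, z2) = 1 := by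
    rw [← map_mul, Prod.mk_mul_mk, Prod.mk_mul_mk, h12, h21, hz12]
    exact map_one φ
  have hu2 : φ (m2, m1, z2) * φ (m1, m2, z1) = 1 := by
    rw [← map_mul, Prod.mk_mul_mk, Prod.mk_mul_mk, h12, h21, hz21]
    exact map_one φ
  let a : (Ω ⊗[ZMod p] B)ˣ := ⟨φ (m1, m2, z1), φ (m2, m1, z2), hu1, hu2⟩
  refine ⟨hv, a, μ * μ, ?_, ?_, hμ1, ?_⟩
  · rw [mem_UR]
    change jR J Ω (φ (m1, m2, z1)) * φ (m1, m2, z1) = 1
    rw [hjφ, hsz]
    change φ (D.sR Ω (algebraMap Ω A μ⁻¹), D.sR Ω (algebraMap Ω A μ), z2) * _ = 1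
    rw [hsm, hsm]
    exact hu2
  · change IsUnit (1 - φ (m1, m2, z1))
    have h1 : 1 - φ (m1, m2, z1) = φ (1 - m1, 1 - m2, 1 - z1) := by
      have h3 : φ (1 - (m1, m2, z1)) = 1 - φ (m1, m2, z1) := by rw [map_sub, map_one]
      exact h3.symm
    rw [h1]
    have hun : ∀ ν : Ω, ν ≠ 1 → IsUnit (1 - algebraMap Ω A ν) := by
      intro ν hν
      have h2 := (isUnit_iff_ne_zero.mpr (sub_ne_zero.mpr (Ne.symm hν))).map (algebraMap Ω A)
      rw [map_sub, map_one] at h2
      exact h2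
    have h2 : IsUnit (1 - z1) := by
      have h3 : 1 - z1 = mu ε hε (1 - m1, 1 - m2) := by
        have h4 : mu ε hε (1 - (m1, m2)) = 1 - mu ε hε (m1, m2) := by rw [map_sub, map_one]
        exact h4.symm
      rw [h3]
      exact isUnit_mu (hun μ hμne) (hun μ⁻¹ hμne')
    exact (Prod.isUnit_iff.mpr ⟨hun μ hμne, Prod.isUnit_iff.mpr ⟨hun μ⁻¹ hμne', h2⟩⟩ :
      IsUnit ((1 - m1, 1 - m2, 1 - z1) : A × A × A)).map φ
  · change φ (m1, m2, z1) * t v = (μ * μ) • (t v * φ (m1, m2, z1))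
    have hz0 : ∀ z : A, D.ιR Ω z * (1 - t P - t M) * t v = 0 := by
      intro z
      have hEv : (1 - t P - t M) * t v = 0 := by
        rw [sub_mul, sub_mul, one_mul, ht, ht, hPv, hMv, ht0, sub_zero, sub_self]
      rw [mul_assoc, hEv, mul_zero]
    have hz0' : ∀ z : A, t v * (D.ιR Ω z * (1 - t P - t M)) = 0 := by
      intro z
      have hvE : t v * (1 - t P - t M) = 0 := by
        rw [mul_sub, mul_sub, mul_one, ht, ht, hvP, hvM, ht0, sub_zero, sub_self]
      rw [← mul_assoc, ← D.ιR_central, mul_assoc, hvE, mul_zero]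
    rw [hφ, add_mul, add_mul, mul_add, mul_add, hz0, hz0', add_zero, add_zero, mul_assoc,
      mul_assoc, ht, ht, hPv, hMv, ht0, mul_zero, add_zero]
    have h1 : t v * (D.ιR Ω m1 * t P) = 0 := by
      rw [← mul_assoc, ← D.ιR_central, mul_assoc, ht, hvP, ht0, mul_zero]
    have h2 : t v * (D.ιR Ω m2 * t M) = D.ιR Ω m2 * t v := by
      rw [← mul_assoc, ← D.ιR_central, mul_assoc, ht, hvM]
    rw [h1, h2, zero_add]
    change D.ιR Ω (algebraMap Ω A μ) * t v = (μ * μ) • (D.ιR Ω (algebraMap Ω A μ⁻¹) * t v)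
    rw [hιm, hιm, smul_smul, mul_assoc, mul_inv_cancel₀ hμ0, mul_one]

end genV

section unitary

open Matrix

variable {p n : ℕ} [Fact p.Prime] {F : Type} [Field F] [Finite F] [Algebra (ZMod p) F]
  {κ : Type} [Finite κ] [DecidableEq κ] {s : F →+* F} (hs : ∀ x, s (s x) = x)

theorem unInv_single (k : κ) (X : Matrix (Fin (n + 1)) (Fin (n + 1)) F) :
    (unInv p (n + 1) F κ s hs).j (Pi.single k X : FM (n + 1) F κ) =
      (Pi.single k ((X.map s)ᵀ) : FM (n + 1) F κ) := by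
  funext k'
  rw [unInv_j]
  by_cases h : k' = k
  · subst h
    rw [Pi.single_eq_same, Pi.single_eq_same]
  · rw [Pi.single_eq_of_ne h, Pi.single_eq_of_ne h, Matrix.map_zero _ (map_zero s),
      transpose_zero]

theorem single_mul' (k : κ) (X Y : Matrix (Fin (n + 1)) (Fin (n + 1)) F) :
    (Pi.single k X : FM (n + 1) F κ) * (Pi.single k Y : FM (n + 1) F κ) =
      (Pi.single k (X * Y) : FM (n + 1) F κ) := by
  funext k'
  rw [Pi.mul_apply]
  by_cases h : k' = k
  · subst h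
    rw [Pi.single_eq_same, Pi.single_eq_same, Pi.single_eq_same]
  · rw [Pi.single_eq_of_ne h, Pi.single_eq_of_ne h, Pi.single_eq_of_ne h, mul_zero]

/-- Rank one matrices. -/
theorem vv_mul (x y z w : Fin (n + 1) → F) :
    vecMulVec x y * vecMulVec z w = (y ⬝ᵥ z) • vecMulVec x w := by
  rw [vecMulVec_mul_vecMulVec]
  ext i j
  simp only [vecMulVec_apply, Matrix.smul_apply, smul_eq_mul, MulOpposite.smul_eq_mul_unop,
    MulOpposite.unop_op, Pi.smul_apply, op_smul_eq_smul]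
  ring

include hs in
theorem vv_star (x y : Fin (n + 1) → F) :
    ((vecMulVec x (fun i => s (y i))).map s)ᵀ = vecMulVec y (fun i => s (x i)) := by
  ext i j
  rw [transpose_apply, Matrix.map_apply, vecMulVec_apply, vecMulVec_apply, map_mul, hs,
    mul_comm]

/-- The nilpotent elements. -/
def vN (s : F →+* F) (k : κ) (w : Fin (n + 1) → F) (a : F) : FM (n + 1) F κ :=
  Pi.single k (a • vecMulVec w (fun i => s (w i)))

theorem vN_sq (k : κ) {w : Fin (n + 1) → F} (a : F) (hw : (fun i => s (w i)) ⬝ᵥ w = 0) :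
    vN s k w a * vN s k w a = 0 := by
  rw [vN, single_mul', Matrix.smul_mul, Matrix.mul_smul, vv_mul, hw, zero_smul, smul_zero,
    smul_zero, Pi.single_zero]

theorem vN_J (k : κ) (w : Fin (n + 1) → F) {a : F} (ha : s a = -a) :
    (unInv p (n + 1) F κ s hs).j (vN s k w a) = -vN s k w a := by
  rw [vN, unInv_single, ← Pi.single_neg]
  congr 1
  have h1 : (a • vecMulVec w (fun i => s (w i))).map s =
      s a • (vecMulVec w (fun i => s (w i))).map s := by
    ext i j
    rw [Matrix.map_apply, Matrix.smul_apply, Matrix.smul_apply, Matrix.map_apply, smul_eq_mul,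
      smul_eq_mul, map_mul]
  rw [h1, transpose_smul, vv_star hs, ha, neg_smul]

theorem genV_vN (hne : s ≠ RingHom.id F) (k : κ) {w w' : Fin (n + 1) → F} {a : F}
    (ha : s a = -a) (hw : (fun i => s (w i)) ⬝ᵥ w = 0) (hw' : (fun i => s (w' i)) ⬝ᵥ w' = 0)
    (hww' : (fun i => s (w i)) ⬝ᵥ w' = 1) :
    GenV (unInv p (n + 1) F κ s hs) (vN s k w a) := by
  obtain ⟨ε, h1, h2⟩ := exists_epsC (n := n) (κ := κ) (p := p) hs hne
  have hw'w : (fun i => s (w' i)) ⬝ᵥ w = 1 := by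
    have h3 := congrArg s hww'
    rw [map_one, dotProduct, map_sum] at h3
    rw [dotProduct, ← h3]
    refine Finset.sum_congr rfl fun i _ => ?_
    rw [map_mul, hs, mul_comm]
  refine genV_of_pm (unDD p n F κ s hs) ε h1 h2
    (P := Pi.single k (vecMulVec w (fun i => s (w' i))))
    (M := Pi.single k (vecMulVec w' (fun i => s (w i)))) ?_ ?_ ?_ ?_ ?_ ?_ (vN_J hs k w ha)
    ?_ ?_ ?_ ?_
  · rw [single_mul', vv_mul, hw'w, one_smul]
  · rw [single_mul', vv_mul, hww', one_smul]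
  · rw [single_mul', vv_mul, hw', zero_smul, Pi.single_zero]
  · rw [single_mul', vv_mul, hw, zero_smul, Pi.single_zero]
  · rw [unInv_single, vv_star hs]
  · rw [unInv_single, vv_star hs]
  · rw [vN, single_mul', Matrix.mul_smul, vv_mul, hw'w, one_smul]
  · rw [vN, single_mul', Matrix.smul_mul, vv_mul, hww', one_smul]
  · rw [vN, single_mul', Matrix.mul_smul, vv_mul, hw, zero_smul, smul_zero, Pi.single_zero]
  · rw [vN, single_mul', Matrix.smul_mul, vv_mul, hw, zero_smul, smul_zero, Pi.single_zero]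

/-- Families of special unitary matrices as units. -/
def uU (s : F →+* F) : (κ → SG s (1 : Matrix (Fin (n + 1)) (Fin (n + 1)) F)) →*
    (FM (n + 1) F κ)ˣ where
  toFun x := ⟨fun k => (x k).1.1, fun k => ((x k).1⁻¹).1,
    funext fun k => (x k).1.mul_inv, funext fun k => (x k).1.inv_mul⟩
  map_one' := Units.ext rfl
  map_mul' x y := Units.ext rfl

theorem uU_coe (x : κ → SG s (1 : Matrix (Fin (n + 1)) (Fin (n + 1)) F)) (k : κ) :
    (uU s x).1 k = (x k).1.1 := rfl

theorem uU_single (k : κ) {w : Fin (n + 1) → F} {a : F}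
    (hw : (fun i => s (w i)) ⬝ᵥ w = 0)
    (g : SG s (1 : Matrix (Fin (n + 1)) (Fin (n + 1)) F))
    (hg : g.1.1 = 1 + a • vecMulVec w (fun i => s (w i))) :
    uU s (Pi.mulSingle k g) = nB (vN_sq k a hw) := by
  apply Units.ext
  funext k'
  rw [uU_coe]
  change _ = (1 : Matrix (Fin (n + 1)) (Fin (n + 1)) F) + vN s k w a k'
  by_cases hk : k' = k
  · subst hk
    rw [Pi.mulSingle_eq_same, hg, vN, Pi.single_eq_same]
  · rw [Pi.mulSingle_eq_of_ne hk, vN, Pi.single_eq_of_ne hk, add_zero]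
    rfl

theorem coe_eq_uU (u : SU (unDD p n F κ s hs)) :
    ((u : (unInv p (n + 1) F κ s hs).U) : (FM (n + 1) F κ)ˣ) = uU s (lU κ s hs u) :=
  Units.ext rfl

theorem cw_of_suForm {R : (κ → Matrix (Fin (n + 1)) (Fin (n + 1)) F) ≃+*
      (κ → Matrix (Fin (n + 1)) (Fin (n + 1)) F)} (h : SuForm s R) :
    ∃ σ' : (κ → F) →+* (κ → F), CW (unDD p n F κ s hs)
      (R : FM (n + 1) F κ →+* FM (n + 1) F κ) σ' := by
  obtain ⟨π, g, σ, -, h⟩ := h
  exact MP7fM.cw_ddY _ π (fun k => (σ k : F →+* F)) (fun k => (g k).1) (fun k => ((g k)⁻¹).1)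
    (fun k => (g k).mul_inv) h

end unitary

section final

open Matrix

variable {p m n : ℕ} [Fact p.Prime] {F : Type} [Field F] [Finite F] [CharP F p]
  {κ : Type} [Finite κ]

/-- **Powers of special unitary groups, all actions.** -/
theorem langSU1_succ (hm : 0 < m) (hcard : Nat.card F = p ^ (2 * m)) (h3 : 3 ≤ n + 1)
    [IsSimpleGroup (PSG (sF p m F) (1 : Matrix (Fin (n + 1)) (Fin (n + 1)) F))]
    {K : Type u} [Field K] [CharP K p] {Q : Type} [Group Q] [Finite Q]
    (ρ : Q →* ((κ → Matrix (Fin (n + 1)) (Fin (n + 1)) F) ≃+*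
      (κ → Matrix (Fin (n + 1)) (Fin (n + 1)) F)))
    (hρ : ∀ q, SuForm (sF p m F) (ρ q)) :
    ∃ r : ℕ, LangSU1 (sF p m F) K (FractionRing (MvPolynomial (Fin r) K)) ρ := by
  classical
  let _ : Algebra (ZMod p) F := ZMod.algebra F p
  have hs := sF_sF (F := F) (p := p) (m := m) hcard
  have hne := sF_ne (F := F) (p := p) hm hcard
  obtain ⟨c, hc⟩ := good_unInv (n := n) (κ := κ) (p := p) hs hne
  have hJ : ∀ q b, ρ q ((unInv p (n + 1) F κ (sF p m F) hs).j b) =
      (unInv p (n + 1) F κ (sF p m F) hs).j (ρ q b) := fun q b => (hρ q).ct sF_comm b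
  have hD : ∀ q, ∃ σ' : (κ → F) →+* (κ → F), CW (unDD p n F κ (sF p m F) hs)
      (ρ q : FM (n + 1) F κ →+* FM (n + 1) F κ) σ' := fun q => cw_of_suForm hs (hρ q)
  have hgen : ∀ H : Subgroup (FM (n + 1) F κ)ˣ, (∀ (v : FM (n + 1) F κ) (hv : v * v = 0),
      GenV (unInv p (n + 1) F κ (sF p m F) hs) v → nB hv ∈ H) →
      ∀ u : (unInv p (n + 1) F κ (sF p m F) hs).U, u ∈ SU (unDD p n F κ (sF p m F) hs) →
        (u : (FM (n + 1) F κ)ˣ) ∈ H := by
    intro H hH u hu
    have h1 := coe_eq_uU hs (⟨u, hu⟩ : SU (unDD p n F κ (sF p m F) hs))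
    change (u : (FM (n + 1) F κ)ˣ) = _ at h1
    rw [h1]
    have h2 : lU κ (sF p m F) hs (⟨u, hu⟩ : SU (unDD p n F κ (sF p m F) hs)) ∈
        H.comap (uU (κ := κ) (sF p m F)) := by
      refine Subgroup.pi_mem_of_mulSingle_mem _ fun k => ?_
      set g := lU κ (sF p m F) hs (⟨u, hu⟩ : SU (unDD p n F κ (sF p m F) hs)) k
      have h4 : g ∈ (H.comap (uU (κ := κ) (sF p m F))).comap
          (MonoidHom.mulSingle (fun _ : κ => SG (sF p m F)
            (1 : Matrix (Fin (n + 1)) (Fin (n + 1)) F)) k) := by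
        have h5 : g ∈ (⊤ : Subgroup (SG (sF p m F)
          (1 : Matrix (Fin (n + 1)) (Fin (n + 1)) F))) := Subgroup.mem_top _
        rw [← MP7fH.closure_one (N := n + 1) (F := F) hm hcard h3] at h5
        revert h5
        generalize g = g'
        intro h5
        refine (Subgroup.closure_le _).mpr ?_ h5
        rintro g'' ⟨w, a, hw, ha, hg⟩
        change uU (sF p m F) (Pi.mulSingle k g'') ∈ H
        by_cases hw0 : w = 0
        · have h6 : g'' = 1 := by
            apply Subtype.ext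
            apply Units.ext
            rw [hg, hw0]
            simp
          rw [h6, Pi.mulSingle_one, map_one]
          exact one_mem _
        · obtain ⟨w', hw', hww'⟩ := MP7fH.partner_one (F := F) hm hcard hw hw0
          rw [uU_single k hw g'' hg]
          exact hH _ _ (genV_vN hs hne k ha hw hw' hww')
      exact h4
    exact h2
  obtain ⟨r, hr⟩ := lang_comm (unDD p n F κ (sF p m F) hs) ρ hJ hD hc hgen (K := K)
  exact ⟨r, _, _, lU κ (sF p m F) hs, _, lU_surj κ (sF p m F) hs,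
    fun q v => coe_suactW' (unDD p n F κ (sF p m F) hs) ρ hJ hD q v, hr⟩

/-- **Powers of special unitary groups, all actions.** -/
theorem langSU1_all {N : ℕ} (hm : 0 < m) (hcard : Nat.card F = p ^ (2 * m)) (h3 : 3 ≤ N)
    [IsSimpleGroup (PSG (sF p m F) (1 : Matrix (Fin N) (Fin N) F))]
    {K : Type u} [Field K] [CharP K p] {Q : Type} [Group Q] [Finite Q]
    (ρ : Q →* ((κ → Matrix (Fin N) (Fin N) F) ≃+* (κ → Matrix (Fin N) (Fin N) F)))
    (hρ : ∀ q, SuForm (sF p m F) (ρ q)) :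
    ∃ r : ℕ, LangSU1 (sF p m F) K (FractionRing (MvPolynomial (Fin r) K)) ρ := by
  obtain ⟨n, rfl⟩ : ∃ n, N = n + 1 := ⟨N - 1, by omega⟩
  exact langSU1_succ hm hcard h3 ρ hρ

end final

end MP7fZ
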