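import Pool.Agent.Lib.MP_7f581e_ntL.Z1

section

/-!
Commutator Lang torsor, part 2: solutions of Frobenius equations over algebraically closed
fields by specialization of the generic torsor.
-/

set_option autoImplicit false
set_option linter.unusedSectionVars false

universe u v

namespace MP7fZ

open TensorProduct MP7fS MP7fU MP7fV MP7fR

variable {p : ℕ} [Fact p.Prime] {B : Type} [Ring B] [Finite B] [Algebra (ZMod p) B]
  (J : AInv p B) {κ : Type} [Fintype κ] [DecidableEq κ] (sb : Module.Basis κ (ZMod p) (Sk J))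
  {c₀ : B}

section generic

variable {C : Type u} [Field C] [Algebra (ZMod p) C] [CharP C p]

/-- The coordinates of the Lang quotient of the generic element are algebraically
independent. -/
theorem exists_beta (hG : Good J c₀) (L : Type u) [Field L] [Algebra (MvPolynomial κ C) L]
    [IsFractionRing (MvPolynomial κ C) L] [Algebra C L] [IsScalarTower C (MvPolynomial κ C) L]
    [Algebra (ZMod p) L] [CharP L p] :
    ∃ β : κ → L, AlgebraicIndependent C β ∧
      (((gW J sb L hG C)⁻¹ : (L ⊗[ZMod p] B)ˣ) : L ⊗[ZMod p] B) = cy J sb c₀ β := by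
  let γ : Unit ≃* (C ≃ₐ[C] C) :=
    { toFun := fun _ => 1
      invFun := fun _ => ()
      left_inv := fun _ => rfl
      right_inv := fun σ => by
        ext x
        exact (σ.commutes x).symm
      map_mul' := fun _ _ => rfl }
  let ρ : Unit →* (B ≃+* B) := 1
  have hρ : ∀ g b, ρ g (J.j b) = J.j (ρ g b) := fun _ _ => rfl
  have hc' : (1 : C) ⊗ₜ[ZMod p] c₀ + jR J C ((1 : C) ⊗ₜ[ZMod p] c₀) = 1 := by
    rw [jR_tmul, ← tmul_add, hG.hc, Algebra.TensorProduct.one_def]
  have hs : ∀ (g : Unit) (z : C ⊗[ZMod p] B), sg γ ρ g z = z := by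
    intro g z
    exact tmap_id z
  obtain ⟨h1, h2, -⟩ := galois_FU J sb L hG γ ρ hρ hc' (b := skB J sb C)
    (fun i g => hs g _) (fun g => hs g _)
  have h4 : Algebra.IsAlgebraic (FU J sb L C hG (skB J sb C) hc') L :=
    Algebra.IsAlgebraic.of_finite _ _
  refine ⟨bet J sb L C hG (skB J sb C) hc', algebraicIndependent_bet (K := C) J sb L hG hc', ?_⟩
  rw [sum_bet J sb L hG (skB J sb C) hc', cy, skv, tmap_tmul, map_one]
  congr 1
  refine Finset.sum_congr rfl fun k _ => ?_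
  rw [coe_skB, tmap_tmul, map_one]
  rfl

end generic

section special

variable {C : Type u} [Field C] [IsAlgClosed C] [Algebra (ZMod p) C] [CharP C p]

theorem exists_lang_aux (hG : Good J c₀) (c : (C ⊗[ZMod p] B)ˣ) (hc : c ∈ UR J C)
    (h1 : IsUnit (1 - (c : C ⊗[ZMod p] B))) (L : Type u) [Field L]
    [Algebra (MvPolynomial κ C) L]
    [IsFractionRing (MvPolynomial κ C) L] [Algebra C L] [IsScalarTower C (MvPolynomial κ C) L]
    [Algebra (ZMod p) L] [CharP L p] (β : κ → L)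
    (hw : (((gW J sb L hG C)⁻¹ : (L ⊗[ZMod p] B)ˣ) : L ⊗[ZMod p] B) = cy J sb c₀ β)
    (Y : κ → C) (y₁ : (C ⊗[ZMod p] B)ˣ) (hy₁ : (y₁ : C ⊗[ZMod p] B) = 1 - c)
    (hY : ((y₁⁻¹ : (C ⊗[ZMod p] B)ˣ) : C ⊗[ZMod p] B) = cy J sb c₀ Y)
    (V : Type u) [CommRing V] [IsDomain V] [IsIntegrallyClosed V] [Algebra V L]
    [IsFractionRing V L] [Algebra (ZMod p) V] [CharP V p] (k : Type u) [Field k]
    [Algebra (ZMod p) k] [CharP k p] (π : V →+* k) [IsLocalHom π] (jC : C →+* V)
    (β' : κ → V) (hβ' : ∀ i, algebraMap V L (β' i) = β i)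
    (hπβ : ∀ i, π (β' i) = π (jC (Y i))) : ∃ g ∈ UR J C, uf C g = c * g := by
  classical
  let e := Module.finBasis (ZMod p) B
  let ιV : V →+* L := algebraMap V L
  have hιV : Function.Injective ιV := IsFractionRing.injective V L
  let f : C →+* k := π.comp jC
  -- the element `w`
  let w' := cy J sb c₀ β'
  have hw' : w' + jR J V w' = 1 := cy_add J sb hG.hc β'
  have hwι : tmap (p := p) ιV (RingHom.id B) w' =
      (((gW J sb L hG C)⁻¹ : (L ⊗[ZMod p] B)ˣ) : L ⊗[ZMod p] B) := by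
    rw [hw, tmap_cy]
    congr 1
    ext i
    exact hβ' i
  have hwπ : tmap (p := p) π (RingHom.id B) w' =
      tmap (p := p) f (RingHom.id B) ((y₁⁻¹ : (C ⊗[ZMod p] B)ˣ) : C ⊗[ZMod p] B) := by
    rw [hY, tmap_cy, tmap_cy]
    congr 1
    ext i
    exact hπβ i
  obtain ⟨wu, hwu⟩ : IsUnit w' := by
    apply isUnit_of_lmm_unit (f := π)
    rw [hwπ]
    exact (Units.isUnit y₁⁻¹).map _
  have hwu1 : (wu : V ⊗[ZMod p] B) + jR J V (wu : V ⊗[ZMod p] B) = 1 := by rw [hwu, hw']
  let a' := cay J wu hwu1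
  have ha' : bu ιV a' = gA J sb L hG C := by
    apply Units.ext
    have h2 : bu ιV wu = (gW J sb L hG C)⁻¹ := Units.ext (by rw [coe_um, hwu, hwι])
    rw [coe_um, coe_cay, map_sub, map_one, ← coe_um, map_inv, h2, inv_inv, coe_gW,
      sub_sub_cancel]
  have haπ : bu π a' = bu f c := by
    apply Units.ext
    have h2 : bu π wu = bu f y₁⁻¹ := Units.ext (by rw [coe_um, hwu, hwπ, coe_um])
    rw [coe_um, coe_cay, map_sub, map_one, ← coe_um, map_inv, h2, map_inv, inv_inv, coe_um, hy₁,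
      map_sub, map_one, sub_sub_cancel, coe_um]
  -- the solution over the valuation ring
  have hg0 : uf L (gU J sb L hG C) = bu ιV a' * gU J sb L hG C := by
    rw [ha', gA, inv_mul_cancel_right]
    rfl
  have hint : ∀ i, ∃ r : V, ιV r = (eb e L).repr
      ((gU J sb L hG C : (L ⊗[ZMod p] B)ˣ) : L ⊗[ZMod p] B) i := by
    intro i
    have h2 := isIntegral_repr (R := V) (A := L) e (a' : V ⊗[ZMod p] B)
      ((gU J sb L hG C : (L ⊗[ZMod p] B)ˣ) : L ⊗[ZMod p] B) (congrArg Units.val hg0) i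
    exact IsIntegrallyClosed.isIntegral_iff.mp h2
  choose r hr using hint
  let g₀ : V ⊗[ZMod p] B := vec e r
  have hg₀ : tmap (p := p) ιV (RingHom.id B) g₀ =
      ((gU J sb L hG C : (L ⊗[ZMod p] B)ˣ) : L ⊗[ZMod p] B) := by
    rw [tmap_vec, ← vec_repr e ((gU J sb L hG C : (L ⊗[ZMod p] B)ˣ) : L ⊗[ZMod p] B)]
    congr 1
    ext i
    exact hr i
  have hUn := jR_gU J sb (M := C) L hG
  have hUn' : ((gU J sb L hG C : (L ⊗[ZMod p] B)ˣ) : L ⊗[ZMod p] B) *
      jR J L ((gU J sb L hG C : (L ⊗[ZMod p] B)ˣ) : L ⊗[ZMod p] B) = 1 :=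
    (gU J sb L hG C).val_inv
  let g₁ : (V ⊗[ZMod p] B)ˣ := ⟨g₀, jR J V g₀, by
    apply tmap_injective (p := p) (B := B) ιV hιV
    rw [map_mul, map_one, ← jR_tmap J ιV (RingHom.id B) (fun _ => rfl), hg₀, hUn'], by
    apply tmap_injective (p := p) (B := B) ιV hιV
    rw [map_mul, map_one, ← jR_tmap J ιV (RingHom.id B) (fun _ => rfl), hg₀, hUn]⟩
  have hg₁ι : bu ιV g₁ = gU J sb L hG C := Units.ext hg₀
  have hg₁ : uf V g₁ = a' * g₁ := by
    apply bu_inj ιV hιV
    rw [← uf_um, hg₁ι, map_mul, hg₁ι, hg0]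
  have hg₁U : g₁ ∈ UR J V := by
    rw [mem_UR]
    exact g₁.inv_val
  -- reduction
  have hg₂ : uf k (bu π g₁) = bu f c * bu π g₁ := by
    rw [uf_um, hg₁, map_mul, haπ]
  obtain ⟨g, hg⟩ := mem_range_of_closed f c (bu π g₁) hg₂
  refine ⟨g, ?_, ?_⟩
  · rw [mem_UR]
    apply tmap_injective (p := p) (B := B) f f.injective
    rw [map_mul, map_one, ← jR_tmap J f (RingHom.id B) (fun _ => rfl), ← coe_um, hg]
    exact um_mem hg₁U π (RingHom.id B) (fun _ => rfl)
  · apply bu_inj f f.injective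
    rw [← uf_um, hg, hg₂, map_mul, hg]


/-- Frobenius equations over algebraically closed fields, the case of an element `c` for which
`1 - c` is a unit. -/
theorem exists_lang_of_isUnit (hG : Good J c₀) (c : (C ⊗[ZMod p] B)ˣ) (hc : c ∈ UR J C)
    (h1 : IsUnit (1 - (c : C ⊗[ZMod p] B))) : ∃ g ∈ UR J C, uf C g = c * g := by
  classical
  let sb := Module.finBasis (ZMod p) (Sk J)
  let κ := Fin (Module.finrank (ZMod p) (Sk J))
  let L := FractionRing (MvPolynomial κ C)
  have hL : CharP L p := charP_of_injective_algebraMap (algebraMap C L).injective p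
  obtain ⟨β, hβ, hw⟩ := exists_beta (C := C) J sb hG L
  -- the point
  obtain ⟨y₁, hy₁⟩ := id h1
  have hy2 := cay_skew J y₁ hc hy₁
  obtain ⟨Y, hY⟩ := exists_cy J sb hG.hc hy2
  -- the valuation ring
  let A := Algebra.adjoin C (Set.range β)
  let θ : A →ₐ[C] C := (MvPolynomial.aeval Y).comp hβ.aevalEquiv.symm.toAlgHom
  have hθ : ∀ k, θ ⟨β k, Algebra.subset_adjoin (Set.mem_range_self k)⟩ = Y k := by
    intro k
    have h2 : (⟨β k, Algebra.subset_adjoin (Set.mem_range_self k)⟩ : A) =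
        hβ.aevalEquiv (MvPolynomial.X k) := by
      apply Subtype.ext
      have h3 := hβ.algebraMap_aevalEquiv (MvPolynomial.X k)
      rw [MvPolynomial.aeval_X] at h3
      exact h3.symm
    rw [h2]
    change MvPolynomial.aeval Y (hβ.aevalEquiv.symm (hβ.aevalEquiv (MvPolynomial.X k))) = Y k
    rw [AlgEquiv.symm_apply_apply, MvPolynomial.aeval_X]
  let I : Ideal A.toSubring := RingHom.ker (θ : A →+* C)
  have hI : I ≠ ⊤ := RingHom.ker_ne_top _
  obtain ⟨V, hAV, hIV⟩ := Ideal.image_subset_nonunits_valuationSubring I hI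
  let ιV : V →+* L := V.subtype
  have hιV : Function.Injective ιV := Subtype.coe_injective
  have hCV : ∀ z : C, algebraMap C L z ∈ V := fun z => hAV (A.algebraMap_mem z)
  let jC : C →+* V := (algebraMap C L).codRestrict V hCV
  let _ : Algebra (ZMod p) V := (jC.comp (algebraMap (ZMod p) C)).toAlgebra
  have hVp : CharP V p := charP_of_injective_ringHom jC.injective p
  let k := IsLocalRing.ResidueField V
  let π : V →+* k := IsLocalRing.residue V
  let _ : Algebra (ZMod p) k := (π.comp (jC.comp (algebraMap (ZMod p) C))).toAlgebra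
  have hkp : CharP k p := charP_of_injective_ringHom (π.comp jC).injective p
  have hβV : ∀ i, β i ∈ V := fun i => hAV (Algebra.subset_adjoin (Set.mem_range_self i))
  let β' : κ → V := fun i => ⟨β i, hβV i⟩
  have hπβ : ∀ i, π (β' i) = π (jC (Y i)) := by
    intro i
    have h2 : (⟨β i, Algebra.subset_adjoin (Set.mem_range_self i)⟩ - algebraMap C A (Y i) : A) ∈
        I := by
      change θ _ = 0
      rw [map_sub, hθ, AlgHom.commutes]
      exact sub_self _
    have h3 : β i - algebraMap C L (Y i) ∈ V.nonunits := hIV ⟨_, h2, rfl⟩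
    have h4 : β' i - jC (Y i) ∈ IsLocalRing.maximalIdeal V :=
      ValuationSubring.coe_mem_nonunits_iff.mp h3
    have h5 : π (β' i - jC (Y i)) = 0 := (IsLocalRing.residue_eq_zero_iff _).mpr h4
    rw [map_sub, sub_eq_zero] at h5
    exact h5
  exact exists_lang_aux J sb hG c hc h1 L β hw Y y₁ hy₁ hY V k π jC β' (fun i => rfl) hπβ

end special

end MP7fZ

end

section

/-!
Commutator Lang torsor, part 3: Frobenius equations for elements that specialize to one.
-/

set_option autoImplicit false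
set_option linter.unusedSectionVars false

universe u v

namespace MP7fZ

open TensorProduct MP7fS MP7fU MP7fV MP7fR

variable {p : ℕ} [Fact p.Prime] {B : Type} [Ring B] [Finite B] [Algebra (ZMod p) B]
  {J : AInv p B} {c₀ : B}

/-- Twisting. -/
theorem exists_lang_twist (hG : Good J c₀) {C Ω : Type u} [Field C] [IsAlgClosed C]
    [Algebra (ZMod p) C] [CharP C p] [Field Ω] [IsAlgClosed Ω] [Algebra (ZMod p) Ω] [CharP Ω p]
    (f : C →+* Ω) (c : (C ⊗[ZMod p] B)ˣ) (hc : c ∈ UR J C) (h : (Ω ⊗[ZMod p] B)ˣ)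
    (hh : h ∈ UR J Ω)
    (h1 : IsUnit (1 - ((uf Ω h * bu f c * h⁻¹ : (Ω ⊗[ZMod p] B)ˣ) : Ω ⊗[ZMod p] B))) :
    ∃ g ∈ UR J C, uf C g = c * g := by
  have hcf : bu f c ∈ UR J Ω := um_mem hc f (RingHom.id B) (fun _ => rfl)
  have hfh : uf Ω h ∈ UR J Ω := um_mem hh _ _ (fun _ => rfl)
  obtain ⟨g', hg', hg''⟩ := exists_lang_of_isUnit J hG (uf Ω h * bu f c * h⁻¹)
    (mul_mem (mul_mem hfh hcf) (inv_mem hh)) h1
  have h2 : uf Ω (h⁻¹ * g') = bu f c * (h⁻¹ * g') := by
    rw [map_mul, map_inv, hg'']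
    group
  obtain ⟨g, hg⟩ := mem_range_of_closed f c (h⁻¹ * g') h2
  refine ⟨g, ?_, ?_⟩
  · have h3 : bu f g ∈ UR J Ω := by
      rw [hg]
      exact mul_mem (inv_mem hh) hg'
    rw [mem_UR] at h3 ⊢
    apply tmap_injective (p := p) (B := B) f f.injective
    rw [map_mul, map_one, ← jR_tmap J f (RingHom.id B) (fun _ => rfl), ← coe_um]
    exact h3
  · apply bu_inj f f.injective
    rw [← uf_um, hg, h2, map_mul, hg]

section poly

variable (J) {κ : Type} [Fintype κ] [DecidableEq κ] (sb : Module.Basis κ (ZMod p) (Sk J))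
  (c₀)

/-- The auxiliary polynomial. -/
noncomputable def Wp {R : Type*} [CommRing R] [Algebra (ZMod p) R] (c : R ⊗[ZMod p] B)
    (Y Y' : κ → R) : R ⊗[ZMod p] B :=
  cy J sb c₀ Y' * (cy J sb c₀ Y - 1) - (cy J sb c₀ Y' - 1) * c * cy J sb c₀ Y

theorem tmap_Wp {R S : Type*} [CommRing R] [Algebra (ZMod p) R] [CommRing S]
    [Algebra (ZMod p) S] (f : R →+* S) (c : R ⊗[ZMod p] B) (Y Y' : κ → R) :
    tmap (p := p) f (RingHom.id B) (Wp J c₀ sb c Y Y') =
      Wp J c₀ sb (tmap (p := p) f (RingHom.id B) c) (fun k => f (Y k)) (fun k => f (Y' k)) := by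
  rw [Wp, Wp, map_sub, map_mul, map_mul, map_mul, map_sub, map_sub, map_one, tmap_cy, tmap_cy]

/-- A point with the required property. -/
theorem exists_Z0 (hG : Good J c₀) : ∃ Z : κ → AlgebraicClosure (ZMod p),
    IsUnit (cy J sb c₀ Z - cy J sb c₀ (fun k => Z k ^ p)) := by
  obtain ⟨s₀, h1, h2⟩ := hG.hs
  obtain ⟨t, rfl⟩ := exists_skv J sb h1
  have hp : 1 < p := (Fact.out : p.Prime).one_lt
  have hη : ∀ k, ∃ η : AlgebraicClosure (ZMod p), η - η ^ p = t k := by
    intro k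
    obtain ⟨η, hη⟩ := IsAlgClosed.exists_root
      (Polynomial.X ^ p - Polynomial.X + Polynomial.C (t k)) (by
        have hd : (Polynomial.X ^ p - Polynomial.X + Polynomial.C (t k) :
            Polynomial (AlgebraicClosure (ZMod p))).natDegree = p := by
          rw [Polynomial.natDegree_add_C, FiniteField.X_pow_card_sub_X_natDegree_eq _ hp]
        intro h0
        have h4 := Polynomial.natDegree_eq_of_degree_eq_some (n := 0) (by
          rw [h0]
          rfl)
        omega)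
    refine ⟨η, ?_⟩
    have h3 : η ^ p - η + t k = 0 := by
      simpa [Polynomial.IsRoot] using hη
    linear_combination -h3
  choose η hη using hη
  refine ⟨η, ?_⟩
  have h3 : cy J sb c₀ η - cy J sb c₀ (fun k => η k ^ p) = skv J sb t := by
    rw [cy, cy, add_sub_add_left_eq_sub, skv_sub]
    congr 1
    ext k
    exact hη k
  rw [h3]
  exact h2

theorem Wp_one {R : Type*} [CommRing R] [Algebra (ZMod p) R] (Y Y' : κ → R) :
    Wp J c₀ sb 1 Y Y' = cy J sb c₀ Y - cy J sb c₀ Y' := by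
  rw [Wp]
  noncomm_ring

end poly

/-- **Solutions of Frobenius equations.** -/
theorem exists_lang_comm (hG : Good J c₀) {R : Type*} [CommRing R] [Algebra (ZMod p) R]
    (c : (R ⊗[ZMod p] B)ˣ) (hc : c ∈ UR J R) {k : Type*} [Field k] [Algebra (ZMod p) k]
    (j₀ : AlgebraicClosure (ZMod p) →+* k) (evR : R →+* k) (hev : bu evR c = 1)
    {C : Type u} [Field C] [IsAlgClosed C] [Algebra (ZMod p) C] [CharP C p] (f : R →+* C)
    (hf : Function.Injective f) : ∃ g ∈ UR J C, uf C g = bu f c * g := by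
  classical
  let sb := Module.finBasis (ZMod p) (Sk J)
  let κ := Fin (Module.finrank (ZMod p) (Sk J))
  let L := FractionRing (MvPolynomial κ C)
  have hL : CharP L p := charP_of_injective_algebraMap (algebraMap C L).injective p
  let Ω := AlgebraicClosure L
  let _ : Algebra (ZMod p) Ω := ((algebraMap L Ω).comp (algebraMap (ZMod p) L)).toAlgebra
  have hΩ : CharP Ω p := charP_of_injective_algebraMap (algebraMap L Ω).injective p
  have hcf : bu f c ∈ UR J C := um_mem hc f (RingHom.id B) (fun _ => rfl)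
  let F : C →+* Ω := (algebraMap L Ω).comp (algebraMap C L)
  let h₀ := gU J sb L hG C
  have hh₀ : h₀ ∈ UR J L := jR_gU J sb L hG
  refine exists_lang_twist hG F (bu f c) hcf (bu (algebraMap L Ω) h₀)
    (um_mem hh₀ _ (RingHom.id B) (fun _ => rfl)) ?_
  have h1 : uf Ω (bu (algebraMap L Ω) h₀) * bu F (bu f c) * (bu (algebraMap L Ω) h₀)⁻¹ =
      bu (algebraMap L Ω) (uf L h₀ * bu (algebraMap C L) (bu f c) * h₀⁻¹) := by
    rw [uf_um, map_mul, map_mul, map_inv, bu_bu (algebraMap L Ω) (algebraMap C L)]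
  rw [h1, coe_um, ← map_one (tmap (p := p) (algebraMap L Ω) (RingHom.id B)), ← map_sub]
  apply IsUnit.map
  -- the polynomial
  set y := gyu J sb L hG C with hy
  have hy' : (y : L ⊗[ZMod p] B) = cy J sb c₀ (xk L C) := coe_gyu J sb L hG
  have hfy : ((uf L y : (L ⊗[ZMod p] B)ˣ) : L ⊗[ZMod p] B) =
      cy J sb c₀ (fun k => xk L C k ^ p) := by
    change tmap (p := p) (frobenius L p) (RingHom.id B) (y : L ⊗[ZMod p] B) = _
    rw [hy', tmap_cy]
    rfl
  let i : MvPolynomial κ R →+* L := (algebraMap (MvPolynomial κ C) L).comp (MvPolynomial.map f)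
  have hi : Function.Injective i :=
    (IsFractionRing.injective (MvPolynomial κ C) L).comp (MvPolynomial.map_injective f hf)
  obtain ⟨Z, hZ⟩ := exists_Z0 J c₀ sb hG
  let ev' : MvPolynomial κ R →+* k := MvPolynomial.eval₂Hom evR (fun k => j₀ (Z k))
  have hW := generic_unit (p := p) (B := B)
    (Wp J c₀ sb (tmap (p := p) MvPolynomial.C (RingHom.id B) (c : R ⊗[ZMod p] B)) MvPolynomial.X
      (fun k => MvPolynomial.X k ^ p) : MvPolynomial κ R ⊗[ZMod p] B) ev' (by
        rw [tmap_Wp, tmap_comp]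
        have h2 : ev'.comp MvPolynomial.C = evR := by
          ext r
          exact MvPolynomial.eval₂_C _ _ _
        have h3 : ∀ k, ev' (MvPolynomial.X k) = j₀ (Z k) := fun k =>
          MvPolynomial.eval₂_X _ _ _
        have h4 : tmap (p := p) (ev'.comp MvPolynomial.C) ((RingHom.id B).comp (RingHom.id B))
            (c : R ⊗[ZMod p] B) = 1 := by
          rw [h2]
          exact congrArg Units.val hev
        rw [h4, Wp_one]
        simp only [map_pow, h3]
        have h5 := hZ.map (tmap (p := p) j₀ (RingHom.id B))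
        rw [map_sub, tmap_cy, tmap_cy] at h5
        simp only [map_pow] at h5
        exact h5) i hi
  rw [tmap_Wp, tmap_comp] at hW
  have h2 : i.comp MvPolynomial.C = (algebraMap C L).comp f := by
    ext r
    change algebraMap (MvPolynomial κ C) L (MvPolynomial.map f (MvPolynomial.C r)) = _
    rw [MvPolynomial.map_C, ← MvPolynomial.algebraMap_eq, ← IsScalarTower.algebraMap_apply]
    rfl
  have h3 : ∀ k, i (MvPolynomial.X k) = xk L C k := by
    intro k
    change algebraMap (MvPolynomial κ C) L (MvPolynomial.map f (MvPolynomial.X k)) = _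
    rw [MvPolynomial.map_X]
    rfl
  simp only [map_pow, h3] at hW
  have h4 : tmap (p := p) (i.comp MvPolynomial.C) ((RingHom.id B).comp (RingHom.id B))
      (c : R ⊗[ZMod p] B) =
      ((bu (algebraMap C L) (bu f c) : (L ⊗[ZMod p] B)ˣ) : L ⊗[ZMod p] B) := by
    rw [bu_bu, h2]
    rfl
  rw [h4] at hW
  set d := bu (algebraMap C L) (bu f c) with hd
  -- the factorization
  have hhy : (h₀ : L ⊗[ZMod p] B) * y = y - 1 := by
    change (1 - ((y⁻¹ : (L ⊗[ZMod p] B)ˣ) : L ⊗[ZMod p] B)) * y = y - 1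
    rw [sub_mul, one_mul, Units.inv_mul]
  have hyh : (y : L ⊗[ZMod p] B) * h₀ = y - 1 := by
    change (y : L ⊗[ZMod p] B) * (1 - ((y⁻¹ : (L ⊗[ZMod p] B)ˣ) : L ⊗[ZMod p] B)) = y - 1
    rw [mul_sub, mul_one, Units.mul_inv]
  have hfyh : ((uf L y : (L ⊗[ZMod p] B)ˣ) : L ⊗[ZMod p] B) *
      ((uf L h₀ : (L ⊗[ZMod p] B)ˣ) : L ⊗[ZMod p] B) =
      ((uf L y : (L ⊗[ZMod p] B)ˣ) : L ⊗[ZMod p] B) - 1 := by
    have h5 := congrArg (tmap (p := p) (frobenius L p) (RingHom.id B)) hyh
    rw [map_mul, map_sub, map_one] at h5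
    exact h5
  have key : Wp J c₀ sb (d : L ⊗[ZMod p] B) (xk L C) (fun k => xk L C k ^ p) =
      ((uf L y : (L ⊗[ZMod p] B)ˣ) : L ⊗[ZMod p] B) *
        (1 - ((uf L h₀ * d * h₀⁻¹ : (L ⊗[ZMod p] B)ˣ) : L ⊗[ZMod p] B)) *
        ((h₀ * y : (L ⊗[ZMod p] B)ˣ) : L ⊗[ZMod p] B) := by
    rw [Wp, ← hy', ← hfy, ← hhy, ← hfyh, Units.val_mul, Units.val_mul, Units.val_mul]
    have h6 : ((h₀⁻¹ : (L ⊗[ZMod p] B)ˣ) : L ⊗[ZMod p] B) * h₀ = 1 := Units.inv_mul _
    calc _ = ((uf L y : (L ⊗[ZMod p] B)ˣ) : L ⊗[ZMod p] B) * (h₀ * y) -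
          ((uf L y : (L ⊗[ZMod p] B)ˣ) : L ⊗[ZMod p] B) * (uf L h₀ : (L ⊗[ZMod p] B)ˣ) * d *
            (((h₀⁻¹ : (L ⊗[ZMod p] B)ˣ) : L ⊗[ZMod p] B) * h₀) * y := by rw [h6, mul_one]
      _ = _ := by noncomm_ring
  rw [key] at hW
  have h7 : IsUnit (((uf L y)⁻¹ : (L ⊗[ZMod p] B)ˣ) : L ⊗[ZMod p] B) := Units.isUnit _
  have h8 : IsUnit (((h₀ * y)⁻¹ : (L ⊗[ZMod p] B)ˣ) : L ⊗[ZMod p] B) := Units.isUnit _
  have h9 := (h7.mul hW).mul h8
  rw [← mul_assoc, ← mul_assoc, Units.inv_mul, one_mul, Units.mul_inv_cancel_right] at h9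
  exact h9

end MP7fZ

end
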