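import Mathlib

/-!
Commutator Lang torsor, part 4: homomorphisms out of integral closures.
-/

set_option autoImplicit false
set_option linter.unusedSectionVars false

universe u v

namespace MP7fZ

section two

variable {R N L A : Type*} [CommRing R] [IsDomain R] [IsIntegrallyClosed R] [Field N]
  [Algebra R N] [IsFractionRing R N] [Field L] [Algebra N L] [Algebra R L] [IsScalarTower R N L]
  [CommRing A] [Algebra R A] [Algebra A L] [IsScalarTower R A L] [IsIntegralClosure A R L]

/-- Elements of the integral closure which are fixed by the Galois group. -/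
theorem mem_of_fixed [FiniteDimensional N L] [IsGalois N L] {a : A}
    (h : ∀ σ : L ≃ₐ[N] L, σ (algebraMap A L a) = algebraMap A L a) :
    ∃ r : R, algebraMap R A r = a := by
  obtain ⟨n, hn⟩ := (IsGalois.mem_range_algebraMap_iff_fixed _).mpr h
  have h1 : IsIntegral R a := IsIntegralClosure.isIntegral R L a
  have h2 : IsIntegral R (algebraMap A L a) := h1.map (IsScalarTower.toAlgHom R A L)
  rw [← hn] at h2
  have h3 : IsIntegral R n := (isIntegral_algHom_iff (IsScalarTower.toAlgHom R N L)
    (algebraMap N L).injective).mp h2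
  obtain ⟨r, rfl⟩ := IsIntegrallyClosed.isIntegral_iff.mp h3
  refine ⟨r, ?_⟩
  apply IsIntegralClosure.algebraMap_injective A R L
  rw [← hn, ← IsScalarTower.algebraMap_apply R A L, ← IsScalarTower.algebraMap_apply R N L]

/-- The conjugate of an element of the integral closure. -/
theorem exists_conj (R : Type*) {N L A : Type*} [CommRing R] [Field N]
    [Algebra R N] [Field L] [Algebra N L] [Algebra R L] [IsScalarTower R N L]
    [CommRing A] [Algebra R A] [Algebra A L] [IsScalarTower R A L] [IsIntegralClosure A R L]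
    (σ : L ≃ₐ[N] L) (a : A) : ∃ b : A, algebraMap A L b = σ (algebraMap A L a) := by
  have h1 : IsIntegral R a := IsIntegralClosure.isIntegral R L a
  have h2 : IsIntegral R (algebraMap A L a) := h1.map (IsScalarTower.toAlgHom R A L)
  have h3 : IsIntegral R (σ (algebraMap A L a)) :=
    h2.map ((σ : L →ₐ[N] L).restrictScalars R)
  exact IsIntegralClosure.isIntegral_iff.mp h3

open MvPolynomial in
/-- Two homomorphisms which agree on the base ring differ by an element of the Galois group. -/
theorem two_homs [FiniteDimensional N L] [IsGalois N L] {Ω : Type*} [CommRing Ω] [IsDomain Ω]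
    {ι : Type*} [Fintype ι] (x : ι → A) (ψ ψ' : A →+* Ω)
    (h : ∀ r : R, ψ (algebraMap R A r) = ψ' (algebraMap R A r)) :
    ∃ σ : L ≃ₐ[N] L, ∀ y : ι → A, (∀ i, algebraMap A L (y i) = σ (algebraMap A L (x i))) →
      ∀ i, ψ' (x i) = ψ (y i) := by
  classical
  have hinj : Function.Injective (algebraMap A L) := IsIntegralClosure.algebraMap_injective A R L
  choose xs hxs using fun (σ : L ≃ₐ[N] L) (i : ι) => exists_conj R σ (x i)
  let q : (L ≃ₐ[N] L) → MvPolynomial (Option ι) A := fun σ =>
    X none - ∑ i, C (xs σ i) * X (some i)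
  let Q : MvPolynomial (Option ι) A := ∏ σ, q σ
  have hq : ∀ (τ σ : L ≃ₐ[N] L), MvPolynomial.map ((τ : L →+* L).comp (algebraMap A L)) (q σ) =
      MvPolynomial.map (algebraMap A L) (q (τ * σ)) := by
    intro τ σ
    simp only [q, map_sub, map_X, map_sum, map_mul, map_C, hxs]
    congr 1
    refine Finset.sum_congr rfl fun i _ => ?_
    congr 2
    change τ (algebraMap A L (xs σ i)) = τ (σ (algebraMap A L (x i)))
    rw [hxs]
  have hQ : ∀ τ : L ≃ₐ[N] L, MvPolynomial.map ((τ : L →+* L).comp (algebraMap A L)) Q =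
      MvPolynomial.map (algebraMap A L) Q := by
    intro τ
    simp only [Q, map_prod, hq]
    exact Fintype.prod_equiv (Equiv.mulLeft τ) _ _ (fun σ => rfl)
  have hQR : ∃ Q₀ : MvPolynomial (Option ι) R, MvPolynomial.map (algebraMap R A) Q₀ = Q := by
    have h1 : Q ∈ Set.range (MvPolynomial.map (σ := Option ι) (algebraMap R A)) := by
      rw [MvPolynomial.mem_range_map_iff_coeffs_subset]
      intro a ha
      obtain ⟨m, hm, rfl⟩ := MvPolynomial.mem_coeffs_iff.mp ha
      have h2 : ∀ σ : L ≃ₐ[N] L, σ (algebraMap A L (coeff m Q)) = algebraMap A L (coeff m Q) := by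
        intro σ
        have h3 := congrArg (coeff m) (hQ σ)
        rw [coeff_map, coeff_map] at h3
        exact h3
      obtain ⟨r, hr⟩ := mem_of_fixed (R := R) h2
      exact ⟨r, hr⟩
    exact h1
  obtain ⟨Q₀, hQ₀⟩ := hQR
  have hψ : MvPolynomial.map ψ Q = MvPolynomial.map ψ' Q := by
    rw [← hQ₀, MvPolynomial.map_map, MvPolynomial.map_map]
    have h1 : ψ.comp (algebraMap R A) = ψ'.comp (algebraMap R A) := RingHom.ext h
    rw [h1]
  let φ : MvPolynomial (Option ι) Ω →ₐ[Ω] MvPolynomial ι Ω := aeval (fun o => match o with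
    | none => ∑ i, C (ψ' (x i)) * X i
    | some i => X i)
  have hφ : ∀ (χ : A →+* Ω) (σ : L ≃ₐ[N] L), φ (MvPolynomial.map χ (q σ)) =
      ∑ i, C (ψ' (x i) - χ (xs σ i)) * X i := by
    intro χ σ
    simp only [q, map_sub, map_X, map_sum, map_mul, map_C]
    simp only [φ, aeval_X, algHom_C, algebraMap_eq]
    rw [← Finset.sum_sub_distrib]
    exact Finset.sum_congr rfl fun i _ => by rw [sub_mul]
  have hx1 : ∀ i, xs 1 i = x i := fun i => hinj (hxs 1 i)
  have h1 : φ (MvPolynomial.map ψ' Q) = 0 := by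
    simp only [Q, map_prod, hφ]
    apply Finset.prod_eq_zero (Finset.mem_univ (1 : L ≃ₐ[N] L))
    refine Finset.sum_eq_zero fun i _ => ?_
    rw [hx1, sub_self, C_0, zero_mul]
  rw [← hψ] at h1
  simp only [Q, map_prod, hφ] at h1
  obtain ⟨σ, -, hσ⟩ := Finset.prod_eq_zero_iff.mp h1
  refine ⟨σ, fun y hy i => ?_⟩
  have h2 : y i = xs σ i := hinj (by rw [hy, hxs])
  rw [h2]
  have h3 := congrArg (coeff (Finsupp.single i 1)) hσ
  rw [coeff_sum, coeff_zero] at h3
  rw [Finset.sum_eq_single i] at h3
  · rw [coeff_C_mul, coeff_X, if_pos rfl, mul_one] at h3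
    exact sub_eq_zero.mp h3
  · intro j _ hj
    rw [coeff_C_mul, coeff_X', if_neg, mul_zero]
    intro h4
    exact hj (Finsupp.single_left_injective one_ne_zero h4)
  · intro h4
    exact absurd (Finset.mem_univ i) h4

end two

section ext

/-- Extension of homomorphisms to algebraically closed fields along integral extensions. -/
theorem exists_ext {R A Ω : Type*} [CommRing R] [CommRing A] [Algebra R A]
    [Algebra.IsIntegral R A] [Field Ω] [IsAlgClosed Ω] (P : Ideal A) [P.IsPrime] (j : R →+* Ω)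
    (hj : RingHom.ker j = P.comap (algebraMap R A)) :
    ∃ ψ : A →+* Ω, (∀ r, ψ (algebraMap R A r) = j r) ∧ RingHom.ker ψ = P := by
  let I := P.comap (algebraMap R A)
  let j' : R ⧸ I →+* Ω := Ideal.Quotient.lift I j (by
    intro a ha
    have h1 : a ∈ RingHom.ker j := by rw [hj]; exact ha
    exact h1)
  have hj' : Function.Injective j' := by
    rw [injective_iff_map_eq_zero]
    intro a ha
    obtain ⟨a, rfl⟩ := Ideal.Quotient.mk_surjective a
    rw [Ideal.Quotient.eq_zero_iff_mem]
    change a ∈ P.comap (algebraMap R A)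
    rw [← hj]
    exact ha
  have hprime : I.IsPrime := Ideal.comap_isPrime _ _
  let _ : Algebra (R ⧸ I) Ω := j'.toAlgebra
  have hint : Algebra.IsIntegral (R ⧸ I) (A ⧸ P) := inferInstance
  have hinj : Function.Injective (algebraMap (R ⧸ I) (A ⧸ P)) := Ideal.algebraMap_quotient_injective
  have hf : FaithfulSMul (R ⧸ I) (A ⧸ P) := (faithfulSMul_iff_algebraMap_injective _ _).mpr hinj
  have hf' : FaithfulSMul (R ⧸ I) Ω := (faithfulSMul_iff_algebraMap_injective _ _).mpr hj'
  have h1 : Module.IsTorsionFree (R ⧸ I) (A ⧸ P) := inferInstance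
  have h2 : Module.IsTorsionFree (R ⧸ I) Ω := inferInstance
  have h3 : Algebra.IsAlgebraic (R ⧸ I) (A ⧸ P) := inferInstance
  let l : A ⧸ P →ₐ[R ⧸ I] Ω := IsAlgClosed.lift
  have hl : Function.Injective l := by
    have h4 : RingHom.ker (l : A ⧸ P →+* Ω) = ⊥ := by
      apply Ideal.IsIntegral.eq_bot_of_comap_eq_bot (R := R ⧸ I)
      rw [eq_bot_iff]
      intro a ha
      have h5 : l (algebraMap (R ⧸ I) (A ⧸ P) a) = 0 := ha
      rw [AlgHom.commutes] at h5
      exact (map_eq_zero_iff j' hj').mp h5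
    exact (RingHom.injective_iff_ker_eq_bot _).mpr h4
  refine ⟨(l : A ⧸ P →+* Ω).comp (Ideal.Quotient.mk P), ?_, ?_⟩
  · intro r
    change l (Ideal.Quotient.mk P (algebraMap R A r)) = j r
    have h4 : Ideal.Quotient.mk P (algebraMap R A r) =
        algebraMap (R ⧸ I) (A ⧸ P) (Ideal.Quotient.mk I r) := rfl
    rw [h4, AlgHom.commutes]
    rfl
  · ext a
    rw [RingHom.mem_ker]
    change l (Ideal.Quotient.mk P a) = 0 ↔ _
    rw [map_eq_zero_iff l hl, Ideal.Quotient.eq_zero_iff_mem]

/-- Extension of endomorphisms to the algebraic closure. -/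
theorem exists_ext_end {F Ω : Type*} [Field F] [Field Ω] [Algebra F Ω] [IsAlgClosed Ω]
    [Algebra.IsAlgebraic F Ω] (τ : F →+* F) :
    ∃ τ' : Ω →+* Ω, ∀ z, τ' (algebraMap F Ω z) = algebraMap F Ω (τ z) := by
  obtain ⟨ψ, h1, -⟩ := exists_ext (R := F) (A := Ω) (⊥ : Ideal Ω) ((algebraMap F Ω).comp τ) (by
    rw [Ideal.comap_bot_of_injective _ (algebraMap F Ω).injective]
    exact (RingHom.injective_iff_ker_eq_bot _).mp ((algebraMap F Ω).comp τ).injective)
  exact ⟨ψ, h1⟩

end ext

end MP7fZ
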