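import Pool.Agent.Lib.MP_7f581e_ntL.Z1
import Pool.Agent.Lib.MP_7f581e_ntL.Z4

section

/-!
Commutator Lang torsor, part 5: elements of the Galois group by specialization to curves.
-/

set_option autoImplicit false
set_option linter.unusedSectionVars false

universe u v

namespace MP7fZ

open TensorProduct MP7fS MP7fU MP7fV MP7fR

variable {p : ℕ} [Fact p.Prime] {B : Type} [Ring B] [Finite B] [Algebra (ZMod p) B]

/-- Two solutions of a Frobenius equation differ by a constant. -/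
theorem exists_const {L : Type*} [Field L] [Algebra (ZMod p) L] [CharP L p]
    {c g₁ g₂ : (L ⊗[ZMod p] B)ˣ} (h1 : uf L g₁ = c * g₁) (h2 : uf L g₂ = c * g₂) :
    ∃ h : Bˣ, g₂ = g₁ * cu L h := by
  have h3 : uf L (g₁⁻¹ * g₂) = g₁⁻¹ * g₂ := by
    rw [map_mul, map_inv, h1, h2]
    group
  obtain ⟨h, hh⟩ := exists_unit_of_frob_eq (g₁⁻¹ * g₂) (congrArg Units.val h3)
  refine ⟨h, ?_⟩
  have h4 : g₁⁻¹ * g₂ = cu L h := Units.ext hh
  rw [← h4, mul_inv_cancel_left]

theorem map_algebraMap_zmod {S T : Type*} [Ring S] [Ring T] [Algebra (ZMod p) S]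
    [Algebra (ZMod p) T] (f : S →+* T) (n : ZMod p) :
    f (algebraMap (ZMod p) S n) = algebraMap (ZMod p) T n := by
  have h : f.comp (algebraMap (ZMod p) S) = algebraMap (ZMod p) T := RingHom.ext_zmod _ _
  exact congrArg (fun g : ZMod p →+* T => g n) h

section coord

variable {S T : Type*} [CommRing S] [CommRing T] [Algebra (ZMod p) S] [Algebra (ZMod p) T]
  {ι : Type} [Fintype ι] [DecidableEq ι] (e : Module.Basis ι (ZMod p) B)

theorem tmap_eq_zero_iff (χ : S →+* T) (z : S ⊗[ZMod p] B) :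
    tmap (p := p) χ (RingHom.id B) z = 0 ↔ ∀ i, (eb e S).repr z i ∈ RingHom.ker χ := by
  constructor
  · intro h i
    rw [RingHom.mem_ker, ← repr_tmap, h, map_zero]
    rfl
  · intro h
    rw [← vec_repr e (tmap (p := p) χ (RingHom.id B) z)]
    have h1 : (fun i => (eb e T).repr (tmap (p := p) χ (RingHom.id B) z) i) = fun _ => 0 := by
      funext i
      rw [repr_tmap]
      exact h i
    rw [h1, vec]
    simp

theorem repr_tmul (s : S) (b : B) (i : ι) :
    (eb e S).repr (s ⊗ₜ[ZMod p] b) i = s * algebraMap (ZMod p) S (e.repr b i) := by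
  rw [Algebra.TensorProduct.basis_repr_tmul]
  rfl

theorem exists_coord {v : B} (hv0 : v ≠ 0) : ∃ i, e.repr v i ≠ 0 := by
  by_contra hcon
  push Not at hcon
  apply hv0
  apply e.repr.injective
  ext i
  rw [hcon, map_zero]
  rfl

theorem tmap_congr_repr {χ χ' : S →+* T} {z z' : S ⊗[ZMod p] B}
    (h : ∀ i, χ ((eb e S).repr z i) = χ' ((eb e S).repr z' i)) :
    tmap (p := p) χ (RingHom.id B) z = tmap (p := p) χ' (RingHom.id B) z' := by
  rw [← vec_repr e z, ← vec_repr e z', tmap_vec, tmap_vec]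
  congr 1
  ext i
  exact h i

/-- The reduction argument. -/
theorem exists_const_nil [CharP S p] {v : B} (hv0 : v ≠ 0) {k : Type*} [Field k] (χ : S →+* k)
    (g : (S ⊗[ZMod p] B)ˣ) (h : Bˣ) (a : S)
    (h1 : ∀ i, (eb e S).repr ((g : S ⊗[ZMod p] B) - 1) i ∈ RingHom.ker χ)
    (h2 : ∀ i, (eb e S).repr (((g * cu S h⁻¹ : (S ⊗[ZMod p] B)ˣ) : S ⊗[ZMod p] B) - 1 -
      a ⊗ₜ v) i ∈ RingHom.ker χ) :
    ∃ m : ZMod p, ((h⁻¹ : Bˣ) : B) - 1 = m • v := by
  obtain ⟨i₀, hi₀⟩ := exists_coord e hv0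
  let _ : Algebra (ZMod p) k := (χ.comp (algebraMap (ZMod p) S)).toAlgebra
  have hk : CharP k p := charP_of_injective_ringHom (χ.comp (algebraMap (ZMod p) S)).injective p
  have h1' := (tmap_eq_zero_iff e χ _).mpr h1
  have h2' := (tmap_eq_zero_iff e χ _).mpr h2
  have h3 : bu χ g = 1 := by
    apply Units.ext
    rw [map_sub, map_one, sub_eq_zero] at h1'
    exact h1'
  have h4 : (1 : k) ⊗ₜ[ZMod p] ((h⁻¹ : Bˣ) : B) = 1 + χ a ⊗ₜ v := by
    rw [map_sub, map_sub, map_one, ← coe_um, map_mul, h3, one_mul, bu_cu, coe_cu,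
      tmap_tmul, sub_eq_zero] at h2'
    rw [sub_eq_iff_eq_add'] at h2'
    exact h2'
  have h5 : (1 : k) ⊗ₜ[ZMod p] (((h⁻¹ : Bˣ) : B) - 1) = χ a ⊗ₜ v := by
    rw [tmul_sub, h4, ← Algebra.TensorProduct.one_def, add_sub_cancel_left]
  have h6 := congrArg (fun z => (eb e k).repr z i₀) h5
  simp only [repr_tmul, one_mul] at h6
  set m : ZMod p := e.repr (((h⁻¹ : Bˣ) : B) - 1) i₀ * (e.repr v i₀)⁻¹ with hm
  have h7 : χ a = algebraMap (ZMod p) k m := by
    rw [hm, map_mul, h6, mul_assoc, ← map_mul, mul_inv_cancel₀ hi₀, map_one, mul_one]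
  refine ⟨m, ?_⟩
  apply one_tmul_inj (p := p) (R := k)
  rw [h5, h7, tmul_smul, smul_tmul', Algebra.smul_def, mul_one]

end coord

section step

variable {R N L A : Type*} [CommRing R] [IsDomain R] [IsIntegrallyClosed R] [Field N]
  [Algebra R N] [IsFractionRing R N] [Field L] [Algebra N L] [Algebra R L] [IsScalarTower R N L]
  [CommRing A] [Algebra R A] [Algebra A L] [IsScalarTower R A L]
  [Algebra (ZMod p) R] [Algebra (ZMod p) A] [Algebra (ZMod p) L]
  [CharP A p] [CharP L p]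

theorem exists_sigma (g : (A ⊗[ZMod p] B)ˣ) (c : (R ⊗[ZMod p] B)ˣ)
    (hg : uf A g = bu (algebraMap R A) c * g) (σ : L ≃ₐ[N] L) :
    ∃ h : Bˣ, bu (σ : L →+* L) (bu (algebraMap A L) g) = bu (algebraMap A L) g * cu L h := by
  have h1 : uf L (bu (algebraMap A L) g) = bu (algebraMap R L) c * bu (algebraMap A L) g := by
    rw [uf_um, hg, map_mul, bu_bu, ← IsScalarTower.algebraMap_eq]
  have h2 : uf L (bu (σ : L →+* L) (bu (algebraMap A L) g)) =
      bu (algebraMap R L) c * bu (σ : L →+* L) (bu (algebraMap A L) g) := by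
    have h3 : (σ : L →+* L).comp (algebraMap R L) = algebraMap R L := by
      apply RingHom.ext
      intro r
      change σ (algebraMap R L r) = algebraMap R L r
      rw [IsScalarTower.algebraMap_apply R N L, AlgEquiv.commutes]
    rw [uf_um, h1, map_mul, bu_bu, h3]
  exact exists_const h1 h2

variable [IsIntegralClosure A R L] [FiniteDimensional N L] [IsGalois N L]

/-- The specialization to a curve. -/
theorem step {v : B} (hv : v * v = 0) (hv0 : v ≠ 0) (g : (A ⊗[ZMod p] B)ˣ)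
    (c : (R ⊗[ZMod p] B)ˣ) (hg : uf A g = bu (algebraMap R A) c * g)
    {ι : Type} [Fintype ι] [DecidableEq ι] (e : Module.Basis ι (ZMod p) B)
    (Q : Ideal A) [hQp : Q.IsPrime] (hQ : ∀ i, (eb e A).repr ((g : A ⊗[ZMod p] B) - 1) i ∈ Q)
    {F : Type*} [Field F] [Algebra (ZMod p) F] [CharP F p] (j : R →+* F)
    (hj : RingHom.ker j ≤ Q.comap (algebraMap R A)) (ρ : F)
    (hc : bu j c = nu hv F (ρ ^ p - ρ)) (τ : F →+* F) (hτj : ∀ r, τ (j r) = j r)
    (hτ : τ ρ = ρ + 1) :
    ∃ σ : L ≃ₐ[N] L,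
      bu (σ : L →+* L) (bu (algebraMap A L) g) = bu (algebraMap A L) g * cu L (nB hv) := by
  classical
  have hinj : Function.Injective (algebraMap A L) := IsIntegralClosure.algebraMap_injective A R L
  have hdom : IsDomain A := hinj.isDomain _
  have hint : Algebra.IsIntegral R A := IsIntegralClosure.isIntegral_algebra R L
  have hRL : Function.Injective (algebraMap R L) := by
    rw [IsScalarTower.algebraMap_eq R N L]
    exact (algebraMap N L).injective.comp (IsFractionRing.injective R N)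
  have hRA : Function.Injective (algebraMap R A) := by
    rw [IsScalarTower.algebraMap_eq R A L] at hRL
    exact Function.Injective.of_comp hRL
  have hfs : FaithfulSMul R A := (faithfulSMul_iff_algebraMap_injective _ _).mpr hRA
  let Ω := AlgebraicClosure F
  let _ : Algebra (ZMod p) Ω := ((algebraMap F Ω).comp (algebraMap (ZMod p) F)).toAlgebra
  have hΩ : CharP Ω p := charP_of_injective_algebraMap (algebraMap F Ω).injective p
  have hpp : (RingHom.ker j).IsPrime := RingHom.ker_isPrime j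
  have hqp : (Q.comap (algebraMap R A)).IsPrime := Ideal.comap_isPrime _ _
  have hQo : Q.LiesOver (Q.comap (algebraMap R A)) := ⟨rfl⟩
  obtain ⟨P, hPQ, hPp, hPo⟩ := Ideal.exists_ideal_le_liesOver_of_le (p := RingHom.ker j)
    (q := Q.comap (algebraMap R A)) Q hj
  have hkj : RingHom.ker ((algebraMap F Ω).comp j) = P.comap (algebraMap R A) := by
    rw [RingHom.ker_comp_of_injective _ (algebraMap F Ω).injective]
    exact hPo.over
  obtain ⟨ψ, hψ, hψP⟩ := exists_ext P ((algebraMap F Ω).comp j) hkj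
  -- the image of the solution
  set ρ' := algebraMap F Ω ρ with hρ'
  have hcψ : bu ψ (bu (algebraMap R A) c) = nu hv Ω (ρ' ^ p - ρ') := by
    have h1 : ψ.comp (algebraMap R A) = (algebraMap F Ω).comp j := RingHom.ext hψ
    rw [bu_bu, h1, ← bu_bu, hc, bu_nu, map_sub, map_pow]
  have hgψ : uf Ω (bu ψ g) = nu hv Ω (ρ' ^ p - ρ') * bu ψ g := by
    rw [uf_um, hg, map_mul, hcψ]
  have hn1 : uf Ω (nu hv Ω ρ') = nu hv Ω (ρ' ^ p - ρ') * nu hv Ω ρ' := by
    rw [uf_nu, ← nu_add, sub_add_cancel]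
  obtain ⟨h, hh⟩ := exists_const hn1 hgψ
  -- coordinates
  obtain ⟨i₀, hi₀⟩ := exists_coord e hv0
  set w : A ⊗[ZMod p] B := ((g * cu A h⁻¹ : (A ⊗[ZMod p] B)ˣ) : A ⊗[ZMod p] B) - 1 with hw
  have hwψ : tmap (p := p) ψ (RingHom.id B) w = ρ' ⊗ₜ v := by
    rw [hw, map_sub, map_one, ← coe_um, map_mul, bu_cu, hh, map_inv, mul_inv_cancel_right,
      coe_nu, add_sub_cancel_left]
  set a : A := (eb e A).repr w i₀ * algebraMap (ZMod p) A (e.repr v i₀)⁻¹ with ha
  have haψ : ψ a = ρ' := by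
    rw [ha, map_mul, ← repr_tmap, hwψ, repr_tmul, map_algebraMap_zmod, mul_assoc, ← map_mul,
      mul_inv_cancel₀ hi₀, map_one, mul_one]
  have hz : tmap (p := p) ψ (RingHom.id B) (w - a ⊗ₜ v) = 0 := by
    rw [map_sub, hwψ, tmap_tmul, haψ]
    exact sub_self _
  have hzQ : ∀ i, (eb e A).repr (w - a ⊗ₜ v) i ∈ Q := by
    intro i
    apply hPQ
    rw [← hψP]
    exact (tmap_eq_zero_iff e ψ _).mp hz i
  -- reduction modulo `Q`
  obtain ⟨n, hn⟩ : ∃ n : ZMod p, cu Ω h = nu (p := p) hv Ω (algebraMap (ZMod p) Ω n) := by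
    have hQd : IsDomain (A ⧸ Q) := Ideal.Quotient.isDomain Q
    have hχ : RingHom.ker ((algebraMap (A ⧸ Q) (FractionRing (A ⧸ Q))).comp
        (Ideal.Quotient.mk Q)) = Q := by
      rw [RingHom.ker_comp_of_injective _
        (IsFractionRing.injective (A ⧸ Q) (FractionRing (A ⧸ Q)))]
      exact Ideal.mk_ker
    obtain ⟨m, hm⟩ := exists_const_nil e hv0 ((algebraMap (A ⧸ Q) (FractionRing (A ⧸ Q))).comp
      (Ideal.Quotient.mk Q)) g h a (by rw [hχ]; exact hQ) (by rw [hχ]; exact hzQ)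
    refine ⟨-m, ?_⟩
    rw [map_neg (algebraMap (ZMod p) Ω) m, nu_neg]
    apply inv_injective
    rw [← map_inv, inv_inv]
    apply Units.ext
    rw [coe_cu, coe_nu, ← sub_eq_iff_eq_add', Algebra.TensorProduct.one_def, ← tmul_sub, hm,
      tmul_smul, smul_tmul', Algebra.smul_def, mul_one]
  -- the automorphism
  obtain ⟨τ', hτ'⟩ := exists_ext_end (Ω := Ω) τ
  obtain ⟨σ, hσ⟩ := two_homs (R := R) (N := N) (L := L) (fun i => (eb e A).repr
    (g : A ⊗[ZMod p] B) i) ψ (τ'.comp ψ) (by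
      intro r
      rw [RingHom.comp_apply, hψ, RingHom.comp_apply, hτ', hτj])
  refine ⟨σ, ?_⟩
  obtain ⟨h', hh'⟩ := exists_sigma (N := N) (L := L) g c hg σ
  have h1 := hσ (fun i => (eb e A).repr ((g * cu A h' : (A ⊗[ZMod p] B)ˣ) : A ⊗[ZMod p] B) i)
    (by
      intro i
      rw [← repr_tmap, ← coe_um, map_mul, bu_cu, ← hh', coe_um, repr_tmap, coe_um, repr_tmap]
      rfl)
  have h2 : bu (τ'.comp ψ) g = bu ψ (g * cu A h') := Units.ext (tmap_congr_repr e h1)
  have hgn : bu ψ g = nu hv Ω (ρ' + algebraMap (ZMod p) Ω n) := by rw [hh, hn, nu_add]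
  have h3 : bu (τ'.comp ψ) g = bu ψ g * cu Ω (nB hv) := by
    rw [← bu_bu, hgn, bu_nu, map_add, hρ', hτ', hτ, map_algebraMap_zmod, cu_nB, ← nu_add, map_add,
      map_one]
    congr 1
    ring
  rw [h3, map_mul, bu_cu] at h2
  have h4 : nB hv = h' := cu_inj (mul_left_cancel h2)
  rw [h4]
  exact hh'

end step

end MP7fZ

end

section

/-!
Commutator Lang torsor, part 6: the core of the irreducibility argument.
-/

set_option autoImplicit false
set_option linter.unusedSectionVars false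

universe u v

namespace MP7fZ

open TensorProduct MP7fS MP7fU MP7fV MP7fR

variable {p : ℕ} [Fact p.Prime] {B : Type} [Ring B] [Finite B] [Algebra (ZMod p) B]

/-- Solutions of Frobenius equations are separable. -/
theorem mem_range_of_pinsep {S C : Type*} [Field S] [Field C] [Algebra S C]
    [IsPurelyInseparable S C] [Algebra (ZMod p) S] [Algebra (ZMod p) C] [CharP S p] [CharP C p]
    (c : (S ⊗[ZMod p] B)ˣ) (g : (C ⊗[ZMod p] B)ˣ)
    (h : uf C g = bu (algebraMap S C) c * g) :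
    ∃ g' : (S ⊗[ZMod p] B)ˣ, bu (algebraMap S C) g' = g := by
  classical
  let e := Module.finBasis (ZMod p) B
  have h1 : ∀ m : ℕ, (uf (p := p) C)^[m + 1] g =
      bu (algebraMap S C) ((uf (p := p) S)^[m] c) * (uf (p := p) C)^[m] g := by
    intro m
    induction m with
    | zero => exact h
    | succ m ih =>
      have h7 : (uf (p := p) S)^[m + 1] c = uf S ((uf (p := p) S)^[m] c) :=
        Function.iterate_succ_apply' _ _ _
      have h8 : (uf (p := p) C)^[m + 1] g = uf C ((uf (p := p) C)^[m] g) :=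
        Function.iterate_succ_apply' _ _ _
      calc (uf (p := p) C)^[m + 1 + 1] g = uf C ((uf (p := p) C)^[m + 1] g) :=
            Function.iterate_succ_apply' _ _ _
        _ = uf C (bu (algebraMap S C) ((uf (p := p) S)^[m] c) * (uf (p := p) C)^[m] g) := by
            rw [ih]
        _ = bu (algebraMap S C) (uf S ((uf (p := p) S)^[m] c)) *
            uf C ((uf (p := p) C)^[m] g) := by rw [map_mul, uf_um]
        _ = _ := by rw [h7, h8]
  have h2 : ∀ (m : ℕ) (i), (eb e C).repr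
      (((uf (p := p) C)^[m] g : (C ⊗[ZMod p] B)ˣ) : C ⊗[ZMod p] B) i =
      ((eb e C).repr (g : C ⊗[ZMod p] B) i) ^ p ^ m := by
    intro m
    induction m with
    | zero =>
      intro i
      rw [pow_zero, pow_one]
      rfl
    | succ m ih =>
      intro i
      rw [Function.iterate_succ_apply']
      change (eb e C).repr (tmap (p := p) (frobenius C p) (RingHom.id B) _) i = _
      rw [repr_tmap, ih, frobenius_def, ← pow_mul, pow_succ]
  have h3 : ∀ i, ∃ n : ℕ, ((eb e C).repr (g : C ⊗[ZMod p] B) i) ^ p ^ n ∈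
      (algebraMap S C).range := fun i => IsPurelyInseparable.pow_mem S p _
  choose n hn using h3
  let m := Finset.univ.sup n
  have h4 : ∃ g' : (S ⊗[ZMod p] B)ˣ, bu (algebraMap S C) g' = (uf (p := p) C)^[m] g := by
    apply um_range
    have h5 : ∀ i, ∃ r : S, algebraMap S C r = (eb e C).repr
        (((uf (p := p) C)^[m] g : (C ⊗[ZMod p] B)ˣ) : C ⊗[ZMod p] B) i := by
      intro i
      rw [h2]
      obtain ⟨r, hr⟩ := hn i
      have h6 : n i ≤ m := Finset.le_sup (Finset.mem_univ i)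
      refine ⟨r ^ p ^ (m - n i), ?_⟩
      rw [map_pow, hr, ← pow_mul, ← pow_add, Nat.add_sub_cancel' h6]
    choose r hr using h5
    refine ⟨vec e r, ?_⟩
    rw [tmap_vec, ← vec_repr e (((uf (p := p) C)^[m] g : (C ⊗[ZMod p] B)ˣ) : C ⊗[ZMod p] B)]
    congr 1
    ext i
    exact hr i
  have h5 : ∀ k : ℕ, (∃ g' : (S ⊗[ZMod p] B)ˣ, bu (algebraMap S C) g' =
      (uf (p := p) C)^[k] g) → ∃ g' : (S ⊗[ZMod p] B)ˣ, bu (algebraMap S C) g' = g := by
    intro k
    induction k with
    | zero => exact id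
    | succ k ih =>
      rintro ⟨g', hg'⟩
      apply ih
      refine ⟨((uf (p := p) S)^[k] c)⁻¹ * g', ?_⟩
      rw [map_mul, map_inv, hg', h1, inv_mul_cancel_left]
  exact h5 m h4

/-- Adjoining finitely many separable elements. -/
theorem galois_adjoin {N C : Type*} [Field N] [Field C] [IsAlgClosed C] [Algebra N C]
    [Algebra.IsAlgebraic N C] (T : Set C) (hT : T.Finite) (hsep : ∀ x ∈ T, IsSeparable N x)
    (hn : ∀ (σ : C →ₐ[N] C), ∀ x ∈ T, σ x ∈ IntermediateField.adjoin N T) :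
    FiniteDimensional N (IntermediateField.adjoin N T) ∧
      IsGalois N (IntermediateField.adjoin N T) := by
  have hcl : IsAlgClosure N C := ⟨inferInstance, inferInstance⟩
  have hnC : Normal N C := IsAlgClosure.normal N C
  have hfin : Finite T := hT
  have h1 : FiniteDimensional N (IntermediateField.adjoin N T) :=
    IntermediateField.finiteDimensional_adjoin (fun x hx => (hsep x hx).isIntegral)
  have h2 : Algebra.IsSeparable N (IntermediateField.adjoin N T) :=
    (IntermediateField.isSeparable_adjoin_iff_isSeparable N C).mpr hsep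
  have h3 : Normal N (IntermediateField.adjoin N T) := by
    rw [IntermediateField.normal_iff_forall_map_le]
    intro σ
    rw [IntermediateField.adjoin_map, IntermediateField.adjoin_le_iff]
    rintro _ ⟨x, hx, rfl⟩
    exact hn σ x hx
  exact ⟨h1, ⟨⟩⟩

/-- A curve with an Artin-Schreier specialization. -/
def CurveAt {R : Type u} [CommRing R] [Algebra (ZMod p) R] (c : (R ⊗[ZMod p] B)ˣ) (I : Ideal R)
    {v : B} (hv : v * v = 0) : Prop :=
  ∃ (F : Type u) (_ : Field F) (_ : Algebra (ZMod p) F) (_ : CharP F p) (j : R →+* F) (ρ : F)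
    (τ : F →+* F) (m : Ideal R), m.IsPrime ∧ I ≤ m ∧ RingHom.ker j ≤ m ∧
    bu j c = nu hv F (ρ ^ p - ρ) ∧ (∀ r, τ (j r) = j r) ∧ τ ρ = ρ + 1

section core

variable {J : AInv p B} {n : ℕ} {Cc : Type} [CommRing Cc] [Finite Cc] [Algebra (ZMod p) Cc]
  (D : DetData J n Cc)

/-- The determinant on units. -/
noncomputable def du (R : Type*) [CommRing R] [Algebra (ZMod p) R] :
    (R ⊗[ZMod p] B)ˣ →* (R ⊗[ZMod p] Cc)ˣ := Units.map (D.dt R)

theorem coe_du (R : Type*) [CommRing R] [Algebra (ZMod p) R] (z : (R ⊗[ZMod p] B)ˣ) :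
    ((du D R z : (R ⊗[ZMod p] Cc)ˣ) : R ⊗[ZMod p] Cc) = D.dt R (z : R ⊗[ZMod p] B) := rfl

theorem du_bu {R S : Type*} [CommRing R] [Algebra (ZMod p) R] [CommRing S] [Algebra (ZMod p) S]
    (f : R →+* S) (z : (R ⊗[ZMod p] B)ˣ) : du D S (bu f z) = bu f (du D R z) :=
  Units.ext (D.dt_tmap f D.compat_id _)

theorem du_cu (R : Type*) [CommRing R] [Algebra (ZMod p) R] (u : Bˣ) :
    ((du D R (cu R u) : (R ⊗[ZMod p] Cc)ˣ) : R ⊗[ZMod p] Cc) = 1 ⊗ₜ (D.Θ (u : B)).det :=
  dt_cu D R u

/-- Frobenius invariant determinants are determined by their reductions. -/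
theorem du_eq_one {A L Ω : Type*} [CommRing A] [Algebra (ZMod p) A] [CharP A p] [Field L]
    [Algebra (ZMod p) L] [CharP L p] (i : A →+* L) (hi : Function.Injective i) [Field Ω]
    [Algebra (ZMod p) Ω] (ψ : A →+* Ω) (g : (A ⊗[ZMod p] B)ˣ)
    (h1 : du D A (uf A g) = du D A g) (h2 : bu ψ g = 1) : du D A g = 1 := by
  have h3 : uf L (bu i (du D A g)) = bu i (du D A g) := by
    rw [uf_um]
    congr 1
    exact (du_bu D (frobenius A p) g).symm.trans h1
  obtain ⟨d, hd⟩ := exists_unit_of_frob_eq _ (congrArg Units.val h3)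
  have h4 : du D A g = cu A d := by
    apply bu_inj i hi
    rw [bu_cu]
    exact Units.ext hd
  have h5 : cu (p := p) Ω d = 1 := by
    rw [← bu_cu (p := p) ψ d, ← h4, ← du_bu, h2, map_one]
  have h6 : d = 1 := cu_inj (p := p) (R := Ω) (by rw [h5, map_one])
  rw [h4, h6, map_one]

variable {R N L A : Type*} [CommRing R] [IsDomain R] [IsIntegrallyClosed R] [Field N]
  [Algebra R N] [IsFractionRing R N] [Field L] [Algebra N L] [Algebra R L] [IsScalarTower R N L]
  [CommRing A] [Algebra R A] [Algebra A L] [IsScalarTower R A L]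
  [Algebra (ZMod p) R] [Algebra (ZMod p) A] [Algebra (ZMod p) L]
  [CharP A p] [CharP L p] [IsIntegralClosure A R L]
  [FiniteDimensional N L] [IsGalois N L]

/-- The core of the irreducibility argument. -/
theorem core_aux {R N L A : Type u} [CommRing R] [IsDomain R] [IsIntegrallyClosed R] [Field N]
    [Algebra R N] [IsFractionRing R N] [Field L] [Algebra N L] [Algebra R L]
    [IsScalarTower R N L] [CommRing A] [Algebra R A] [Algebra A L] [IsScalarTower R A L]
    [Algebra (ZMod p) R] [Algebra (ZMod p) A] [Algebra (ZMod p) L]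
    [CharP A p] [CharP L p] [IsIntegralClosure A R L]
    [FiniteDimensional N L] [IsGalois N L]
    (g : (A ⊗[ZMod p] B)ˣ) (hgU : g ∈ UR J A) (c : (R ⊗[ZMod p] B)ˣ)
    (hg : uf A g = bu (algebraMap R A) c * g) (hdc : du D R c = 1)
    {k : Type*} [Field k] [Algebra (ZMod p) k] [CharP k p] (dg : R →+* k) (hdg : bu dg c = 1) :
    ∃ h₀ : Bˣ, g * cu A h₀ ∈ UR J A ∧ du D A (g * cu A h₀) = 1 ∧
      ∀ (v : B) (hv : v * v = 0), v ≠ 0 → CurveAt c (RingHom.ker dg) hv →
        ∃ σ : L ≃ₐ[N] L, bu (σ : L →+* L) (bu (algebraMap A L) (g * cu A h₀)) =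
          bu (algebraMap A L) (g * cu A h₀) * cu L (nB hv) := by
  classical
  have hinj : Function.Injective (algebraMap A L) := IsIntegralClosure.algebraMap_injective A R L
  have hdom : IsDomain A := hinj.isDomain _
  have hint : Algebra.IsIntegral R A := IsIntegralClosure.isIntegral_algebra R L
  have hRL : Function.Injective (algebraMap R L) := by
    rw [IsScalarTower.algebraMap_eq R N L]
    exact (algebraMap N L).injective.comp (IsFractionRing.injective R N)
  have hRA : Function.Injective (algebraMap R A) := by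
    rw [IsScalarTower.algebraMap_eq R A L] at hRL
    exact Function.Injective.of_comp hRL
  let e := Module.finBasis (ZMod p) B
  have hkp : (RingHom.ker dg).IsPrime := RingHom.ker_isPrime dg
  obtain ⟨Q₀, hQ₀, hQ₀c⟩ := Ideal.exists_ideal_over_prime_of_isIntegral_of_isDomain
    (S := A) (RingHom.ker dg) (by
      rw [(RingHom.injective_iff_ker_eq_bot _).mp hRA]
      exact bot_le)
  let Ω := AlgebraicClosure k
  let _ : Algebra (ZMod p) Ω := ((algebraMap k Ω).comp (algebraMap (ZMod p) k)).toAlgebra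
  have hΩ : CharP Ω p := charP_of_injective_algebraMap (algebraMap k Ω).injective p
  obtain ⟨ψ, hψ, hψk⟩ := exists_ext Q₀ ((algebraMap k Ω).comp dg) (by
    rw [RingHom.ker_comp_of_injective _ (algebraMap k Ω).injective, hQ₀c])
  have hψc : bu ψ (bu (algebraMap R A) c) = 1 := by
    have h1 : ψ.comp (algebraMap R A) = (algebraMap k Ω).comp dg := RingHom.ext hψ
    rw [bu_bu, h1, ← bu_bu, hdg, map_one]
  obtain ⟨h, hh⟩ := exists_const (L := Ω) (c := 1) (g₁ := 1) (g₂ := bu ψ g)
    (by rw [map_one, one_mul]) (by rw [uf_um, hg, map_mul, hψc])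
  rw [one_mul] at hh
  have hψU : bu ψ g ∈ UR J Ω := um_mem hgU ψ (RingHom.id B) (fun _ => rfl)
  have hhU : h ∈ J.U := by
    rw [hh] at hψU
    exact (cu_mem_iff (p := p) (R := Ω) J).mp hψU
  have hg'ψ : bu ψ (g * cu A h⁻¹) = 1 := by
    rw [map_mul, bu_cu, hh, map_inv, mul_inv_cancel]
  have hg' : uf A (g * cu A h⁻¹) = bu (algebraMap R A) c * (g * cu A h⁻¹) := by
    rw [map_mul, hg, uf_cu, mul_assoc]
  refine ⟨h⁻¹, mul_mem hgU (cu_mem J (inv_mem hhU)), ?_, ?_⟩
  · refine du_eq_one D (algebraMap A L) hinj ψ _ ?_ hg'ψ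
    rw [hg', map_mul, du_bu, hdc, map_one, one_mul]
  · intro v hv hv0 hcurve
    obtain ⟨F, hF1, hF2, hF3, j, ρ, τ, m, hm, hm1, hm2, hc, hτj, hτ⟩ := hcurve
    obtain ⟨Q, hQ1, hQ2, hQ3⟩ := Ideal.exists_ideal_over_prime_of_isIntegral_of_isPrime
      (S := A) m Q₀ (by rw [hQ₀c]; exact hm1)
    refine step hv hv0 (g * cu A h⁻¹) c hg' e Q ?_ j (by rw [hQ3]; exact hm2) ρ hc τ hτj hτ
    intro i
    apply hQ1
    rw [← hψk]
    revert i
    rw [← tmap_eq_zero_iff e ψ, map_sub, map_one, ← coe_um, hg'ψ, Units.val_one, sub_self]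

end core

end MP7fZ

end
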