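import Pool.Agent.Lib.MP_7f581e_ntL.Z3
import Pool.Agent.Lib.MP_7f581e_ntL.Z6

/-!
Commutator Lang torsor, part 7: the irreducibility theorem over an algebraically closed field.
-/

set_option autoImplicit false
set_option linter.unusedSectionVars false

universe u v

namespace MP7fZ

open TensorProduct MP7fS MP7fU MP7fV MP7fR

variable {p : ℕ} [Fact p.Prime] {B : Type} [Ring B] [Finite B] [Algebra (ZMod p) B]
  {J : AInv p B}

/-- A unitary element with coordinates in a subring. -/
theorem exists_unit_sub {A L : Type*} [CommRing A] [Algebra (ZMod p) A] [Field L]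
    [Algebra (ZMod p) L] {ι : Type} [Fintype ι] [DecidableEq ι] (e : Module.Basis ι (ZMod p) B)
    (f : A →+* L) (hf : Function.Injective f) (g : (L ⊗[ZMod p] B)ˣ) (hU : g ∈ UR J L)
    (h : ∀ i, ∃ r : A, f r = (eb e L).repr (g : L ⊗[ZMod p] B) i) :
    ∃ g' : (A ⊗[ZMod p] B)ˣ, bu f g' = g ∧ g' ∈ UR J A := by
  choose r hr using h
  have hg₀ : tmap (p := p) f (RingHom.id B) (vec e r) = (g : L ⊗[ZMod p] B) := by
    rw [tmap_vec, ← vec_repr e (g : L ⊗[ZMod p] B)]
    congr 1
    ext i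
    exact hr i
  have hUn : jR J L (g : L ⊗[ZMod p] B) * g = 1 := hU
  have hUn' : (g : L ⊗[ZMod p] B) * jR J L (g : L ⊗[ZMod p] B) = 1 := by
    have h1 : jR J L (g : L ⊗[ZMod p] B) = ((g⁻¹ : (L ⊗[ZMod p] B)ˣ) : L ⊗[ZMod p] B) := by
      rw [← mul_one (jR J L (g : L ⊗[ZMod p] B)), ← Units.mul_inv g, ← mul_assoc, hUn, one_mul]
    rw [h1, Units.mul_inv]
  let g₁ : (A ⊗[ZMod p] B)ˣ := ⟨vec e r, jR J A (vec e r), by
    apply tmap_injective (p := p) (B := B) f hf
    rw [map_mul, map_one, ← jR_tmap J f (RingHom.id B) (fun _ => rfl), hg₀, hUn'], by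
    apply tmap_injective (p := p) (B := B) f hf
    rw [map_mul, map_one, ← jR_tmap J f (RingHom.id B) (fun _ => rfl), hg₀, hUn]⟩
  refine ⟨g₁, Units.ext hg₀, ?_⟩
  rw [mem_UR]
  exact g₁.inv_val

variable {n : ℕ} {Cc : Type} [CommRing Cc] [Finite Cc] [Algebra (ZMod p) Cc]
  (D : DetData J n Cc)

/-- The irreducibility argument, over a finite Galois extension. -/
theorem irr_aux {R N L : Type u} [CommRing R] [IsDomain R] [IsIntegrallyClosed R] [Field N]
    [Algebra R N] [IsFractionRing R N] [Field L] [Algebra N L] [Algebra R L]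
    [IsScalarTower R N L] [Algebra (ZMod p) R] [Algebra (ZMod p) L] [CharP L p]
    [FiniteDimensional N L] [IsGalois N L]
    (c : (R ⊗[ZMod p] B)ˣ) (hdc : du D R c = 1)
    {k : Type*} [Field k] [Algebra (ZMod p) k] [CharP k p] (dg : R →+* k) (hdg : bu dg c = 1)
    (g : (L ⊗[ZMod p] B)ˣ) (hgU : g ∈ UR J L) (hg : uf L g = bu (algebraMap R L) c * g) :
    ∃ h₀ : Bˣ, g * cu L h₀ ∈ UR J L ∧ du D L (g * cu L h₀) = 1 ∧
      ∀ (v : B) (hv : v * v = 0), v ≠ 0 → CurveAt c (RingHom.ker dg) hv →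
        ∃ σ : L ≃ₐ[N] L, bu (σ : L →+* L) (g * cu L h₀) = g * cu L h₀ * cu L (nB hv) := by
  classical
  let e := Module.finBasis (ZMod p) B
  let A := integralClosure R L
  let _ : Algebra (ZMod p) A := ((algebraMap R A).comp (algebraMap (ZMod p) R)).toAlgebra
  have hinj : Function.Injective (algebraMap A L) := Subtype.coe_injective
  have hAp : CharP A p := (algebraMap A L).charP hinj p
  obtain ⟨g₂, hg₂, hg₂U⟩ := exists_unit_sub (J := J) e (algebraMap A L) hinj g hgU (by
    intro i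
    exact ⟨⟨_, isIntegral_repr e (c : R ⊗[ZMod p] B) (g : L ⊗[ZMod p] B)
      (congrArg Units.val hg) i⟩, rfl⟩)
  have hg₃ : uf A g₂ = bu (algebraMap R A) c * g₂ := by
    apply bu_inj (algebraMap A L) hinj
    rw [← uf_um, hg₂, map_mul, hg₂, hg, bu_bu, ← IsScalarTower.algebraMap_eq]
  obtain ⟨h₀, h1, h2, h3⟩ := core_aux (N := N) (L := L) D g₂ hg₂U c hg₃ hdc dg hdg
  have h4 : bu (algebraMap A L) (g₂ * cu A h₀) = g * cu L h₀ := by rw [map_mul, hg₂, bu_cu]
  refine ⟨h₀, ?_, ?_, ?_⟩
  · rw [← h4]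
    exact um_mem h1 (algebraMap A L) (RingHom.id B) (fun _ => rfl)
  · rw [← h4, du_bu, h2, map_one]
  · rw [← h4]
    exact h3

theorem irr_aux2 {R N C L : Type u} [CommRing R] [IsDomain R]
    [IsIntegrallyClosed R]
    [Field N] [Algebra R N] [IsFractionRing R N] [Field C] [IsAlgClosed C] [Algebra N C]
    [Algebra.IsAlgebraic N C] [Algebra R C] [IsScalarTower R N C] [Algebra (ZMod p) R]
    [Algebra (ZMod p) C] [CharP C p] (c : (R ⊗[ZMod p] B)ˣ)
    (hdc : du D R c = 1)
    {k : Type*} [Field k] [Algebra (ZMod p) k] [CharP k p] (dg : R →+* k) (hdg : bu dg c = 1)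
    (g : (C ⊗[ZMod p] B)ˣ) (hgU : g ∈ UR J C) (hg : uf C g = bu (algebraMap R C) c * g)
    [Field L] [Algebra N L] [Algebra L C] [IsScalarTower N L C] [Algebra R L]
    [IsScalarTower R N L] [Algebra (ZMod p) L] [CharP L p]
    [FiniteDimensional N L] [IsGalois N L]
    {ι : Type} [Fintype ι] [DecidableEq ι] (e : Module.Basis ι (ZMod p) B)
    (h : ∀ i, ∃ r : L, algebraMap L C r = (eb e C).repr (g : C ⊗[ZMod p] B) i) :
    ∃ g ∈ UR J C, uf C g = bu (algebraMap R C) c * g ∧ du D C g = 1 ∧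
      ∀ (v : B) (hv : v * v = 0), v ≠ 0 → CurveAt c (RingHom.ker dg) hv →
        ∃ σ : C ≃ₐ[N] C, bu (σ : C →+* C) g = g * cu C (nB hv) := by
  have hcl : IsAlgClosure N C := ⟨inferInstance, inferInstance⟩
  have hnC : Normal N C := IsAlgClosure.normal N C
  have hLC : Function.Injective (algebraMap L C) := (algebraMap L C).injective
  have hRL : (algebraMap L C).comp (algebraMap R L) = algebraMap R C := by
    rw [IsScalarTower.algebraMap_eq R N L, IsScalarTower.algebraMap_eq R N C,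
      IsScalarTower.algebraMap_eq N L C]
    rfl
  obtain ⟨gL, hgL, hgLU⟩ := exists_unit_sub (J := J) e (algebraMap L C) hLC g hgU h
  have hgL2 : uf L gL = bu (algebraMap R L) c * gL := by
    apply bu_inj (algebraMap L C) hLC
    rw [← uf_um, hgL, map_mul, hgL, hg, bu_bu, hRL]
  obtain ⟨h₀, h1, h2, h3⟩ := irr_aux (N := N) (L := L) D c hdc dg hdg gL hgLU hgL2
  have h4 : bu (algebraMap L C) (gL * cu L h₀) = g * cu C h₀ := by rw [map_mul, hgL, bu_cu]
  refine ⟨g * cu C h₀, ?_, ?_, ?_, ?_⟩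
  · rw [← h4]
    exact um_mem h1 (algebraMap L C) (RingHom.id B) (fun _ => rfl)
  · rw [map_mul, hg, uf_cu, mul_assoc]
  · rw [← h4, du_bu, h2, map_one]
  · intro v hv hv0 hcurve
    obtain ⟨σ, hσ⟩ := h3 v hv hv0 hcurve
    refine ⟨σ.liftNormal C, ?_⟩
    rw [← h4, bu_bu]
    have h5 : ((σ.liftNormal C : C ≃ₐ[N] C) : C →+* C).comp (algebraMap L C) =
        (algebraMap L C).comp (σ : L →+* L) := by
      apply RingHom.ext
      intro x
      exact σ.liftNormal_commutes C x
    rw [h5, ← bu_bu, hσ, map_mul, bu_cu]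

/-- Coordinates of multiples. -/
theorem coord_mul {L C : Type*} [CommRing L] [CommRing C] [Algebra (ZMod p) L]
    [Algebra (ZMod p) C] (f : L →+* C) {ι : Type} [Fintype ι] [DecidableEq ι]
    (e : Module.Basis ι (ZMod p) B) (z : C ⊗[ZMod p] B)
    (h : ∀ i, ∃ r : L, f r = (eb e C).repr z i) (b : B) (i : ι) :
    ∃ r : L, f r = (eb e C).repr (z * (1 ⊗ₜ b)) i := by
  choose r hr using h
  have h1 : z = tmap (p := p) f (RingHom.id B) (vec e r) := by
    rw [tmap_vec, ← vec_repr e z]
    congr 1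
    ext i
    exact (hr i).symm
  have h2 : z * (1 ⊗ₜ b) = tmap (p := p) f (RingHom.id B) (vec e r * (1 ⊗ₜ b)) := by
    rw [map_mul, tmap_tmul, map_one, ← h1]
    rfl
  rw [h2, repr_tmap]
  exact ⟨_, rfl⟩

/-- Coordinates of solutions of Frobenius equations are separable. -/
theorem separable_aux {N C S : Type*} [Field N] [Field C] [Field S] [Algebra N S] [Algebra S C]
    [Algebra N C] [IsScalarTower N S C] [Algebra.IsSeparable N S] [IsPurelyInseparable S C]
    [Algebra (ZMod p) S] [Algebra (ZMod p) C] [CharP S p] [CharP C p]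
    (c : (S ⊗[ZMod p] B)ˣ) (g : (C ⊗[ZMod p] B)ˣ)
    (hg : uf C g = bu (algebraMap S C) c * g) {ι : Type} [Fintype ι] [DecidableEq ι]
    (e : Module.Basis ι (ZMod p) B) (i : ι) :
    IsSeparable N ((eb e C).repr (g : C ⊗[ZMod p] B) i) := by
  obtain ⟨gs, hgs⟩ := mem_range_of_pinsep c g hg
  have h1 : (eb e C).repr (g : C ⊗[ZMod p] B) i =
      algebraMap S C ((eb e S).repr (gs : S ⊗[ZMod p] B) i) := by
    rw [← hgs, coe_um, repr_tmap]
  rw [h1]
  exact IsSeparable.map (IsScalarTower.toAlgHom N S C) (algebraMap S C).injective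
    (Algebra.IsSeparable.isSeparable N _)

/-- **The irreducibility argument.** -/
theorem irr_core {c₀ : B} (hG : Good J c₀) {R N C : Type u} [CommRing R] [IsDomain R]
    [IsIntegrallyClosed R]
    [Field N] [Algebra R N] [IsFractionRing R N] [Field C] [IsAlgClosed C] [Algebra N C]
    [Algebra.IsAlgebraic N C] [Algebra R C] [IsScalarTower R N C] [Algebra (ZMod p) R]
    [Algebra (ZMod p) C] [CharP C p] (c : (R ⊗[ZMod p] B)ˣ) (hc : c ∈ UR J R)
    (hdc : du D R c = 1)
    {k : Type*} [Field k] [Algebra (ZMod p) k] [CharP k p] (dg : R →+* k) (hdg : bu dg c = 1)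
    (j₀ : AlgebraicClosure (ZMod p) →+* k) :
    ∃ g ∈ UR J C, uf C g = bu (algebraMap R C) c * g ∧ du D C g = 1 ∧
      ∀ (v : B) (hv : v * v = 0), v ≠ 0 → CurveAt c (RingHom.ker dg) hv →
        ∃ σ : C ≃ₐ[N] C, bu (σ : C →+* C) g = g * cu C (nB hv) := by
  classical
  let e := Module.finBasis (ZMod p) B
  have hRC : Function.Injective (algebraMap R C) := by
    rw [IsScalarTower.algebraMap_eq R N C]
    exact (algebraMap N C).injective.comp (IsFractionRing.injective R N)
  obtain ⟨g, hgU, hg⟩ := exists_lang_comm hG c hc j₀ dg hdg (algebraMap R C) hRC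
  -- ring structures
  let zN : ZMod p →+* N := (algebraMap R N).comp (algebraMap (ZMod p) R)
  let T : Set C := Set.range fun i => (eb e C).repr (g : C ⊗[ZMod p] B) i
  have hTsep : ∀ x ∈ T, IsSeparable N x := by
    rintro _ ⟨i, rfl⟩
    let _ : Algebra (ZMod p) (separableClosure N C) :=
      ((algebraMap N (separableClosure N C)).comp zN).toAlgebra
    have hSp : CharP (separableClosure N C) p :=
      charP_of_injective_ringHom ((algebraMap N (separableClosure N C)).comp zN).injective p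
    have hpi : IsPurelyInseparable (separableClosure N C) C :=
      separableClosure.isPurelyInseparable N C
    refine separable_aux (N := N) (S := separableClosure N C)
      (bu ((algebraMap N (separableClosure N C)).comp (algebraMap R N)) c) g ?_ e i
    rw [hg, bu_bu, IsScalarTower.algebraMap_eq R N C]
    rfl
  have hTL : ∀ i, ∃ r : IntermediateField.adjoin N T,
      algebraMap (IntermediateField.adjoin N T) C r = (eb e C).repr (g : C ⊗[ZMod p] B) i :=
    fun i => ⟨⟨_, IntermediateField.subset_adjoin N T ⟨i, rfl⟩⟩, rfl⟩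
  let _ : Algebra (ZMod p) (IntermediateField.adjoin N T) :=
    ((algebraMap N (IntermediateField.adjoin N T)).comp zN).toAlgebra
  have hLp : CharP (IntermediateField.adjoin N T) p :=
    charP_of_injective_ringHom ((algebraMap N (IntermediateField.adjoin N T)).comp zN).injective p
  have hTn : ∀ (σ : C →ₐ[N] C), ∀ x ∈ T, σ x ∈ IntermediateField.adjoin N T := by
    rintro σ _ ⟨i, rfl⟩
    have h0 : (σ : C →+* C).comp (algebraMap R C) = algebraMap R C := by
      apply RingHom.ext
      intro r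
      change σ (algebraMap R C r) = algebraMap R C r
      rw [IsScalarTower.algebraMap_apply R N C, AlgHom.commutes]
    have h1 : bu (σ : C →+* C) (bu (algebraMap R C) c) = bu (algebraMap R C) c := by
      rw [bu_bu, h0]
    obtain ⟨h, hh⟩ := exists_const hg (g₂ := bu (σ : C →+* C) g) (by
      rw [uf_um, hg, map_mul, h1])
    have h2 : σ ((eb e C).repr (g : C ⊗[ZMod p] B) i) =
        (eb e C).repr ((g : C ⊗[ZMod p] B) * (1 ⊗ₜ (h : B))) i := by
      have h3 : (g : C ⊗[ZMod p] B) * (1 ⊗ₜ (h : B)) =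
          ((g * cu C h : (C ⊗[ZMod p] B)ˣ) : C ⊗[ZMod p] B) := rfl
      rw [h3, ← hh, coe_um, repr_tmap]
      rfl
    obtain ⟨r, hr⟩ := coord_mul (algebraMap (IntermediateField.adjoin N T) C) e
      (g : C ⊗[ZMod p] B) hTL (h : B) i
    change σ ((eb e C).repr (g : C ⊗[ZMod p] B) i) ∈ _
    rw [h2, ← hr]
    exact r.2
  obtain ⟨hfd, hgal⟩ := galois_adjoin T (Set.finite_range _) hTsep hTn
  have htow : IsScalarTower R N (IntermediateField.adjoin N T) :=
    IsScalarTower.of_algebraMap_eq fun r => Subtype.ext (IsScalarTower.algebraMap_apply R N C r)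
  exact irr_aux2 (N := N) (L := IntermediateField.adjoin N T) D c hdc dg hdg g hgU hg e hTL

end MP7fZ
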