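import Pool.Agent.Lib.MP_7f581e_ntL.Z1

/-!
Commutator Lang torsor, part 8: the universal family of unitary elements.
-/

set_option autoImplicit false
set_option linter.unusedSectionVars false

universe u v

namespace MP7fZ

open TensorProduct MP7fS MP7fU MP7fV MP7fR

variable {p : ℕ} [Fact p.Prime] {B : Type} [Ring B] [Finite B] [Algebra (ZMod p) B]
  (J : AInv p B) {κ : Type} [Fintype κ] [DecidableEq κ] (sb : Module.Basis κ (ZMod p) (Sk J))

section cg

variable {M : Type u} [Field M] [Algebra (ZMod p) M]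
  (b : Module.Basis κ M (VV J M)) (c' : M ⊗[ZMod p] B)

/-- The element with given coordinates. -/
noncomputable def cg {S : Type*} [CommRing S] [Algebra (ZMod p) S] (f : M →+* S) (X : κ → S) :
    S ⊗[ZMod p] B :=
  tmap (p := p) f (RingHom.id B) c' +
    ∑ k, X k • tmap (p := p) f (RingHom.id B) (b k : M ⊗[ZMod p] B)

theorem tmap_cg {S T : Type*} [CommRing S] [Algebra (ZMod p) S] [CommRing T]
    [Algebra (ZMod p) T] (h : S →+* T) (f : M →+* S) (X : κ → S) :
    tmap (p := p) h (RingHom.id B) (cg J b c' f X) = cg J b c' (h.comp f) (fun k => h (X k)) := by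
  have h1 : ∀ z : M ⊗[ZMod p] B, tmap (p := p) h (RingHom.id B)
      (tmap (p := p) f (RingHom.id B) z) = tmap (p := p) (h.comp f) (RingHom.id B) z :=
    fun z => tmap_comp (p := p) _ _ _ _ z
  rw [cg, cg, map_add, map_sum, h1]
  congr 1
  refine Finset.sum_congr rfl fun k _ => ?_
  rw [tmap_smul, h1]

variable {c'}

theorem cg_add (hc' : c' + jR J M c' = 1) {S : Type*} [CommRing S] [Algebra (ZMod p) S]
    (f : M →+* S) (X : κ → S) : cg J b c' f X + jR J S (cg J b c' f X) = 1 := by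
  have h1 : jR J S (tmap (p := p) f (RingHom.id B) c') =
      tmap (p := p) f (RingHom.id B) (jR J M c') := jR_tmap J f (RingHom.id B) (fun _ => rfl) c'
  have h2 : ∀ k, jR J S (tmap (p := p) f (RingHom.id B) (b k : M ⊗[ZMod p] B)) =
      -tmap (p := p) f (RingHom.id B) (b k : M ⊗[ZMod p] B) := by
    intro k
    have h3 : (b k : M ⊗[ZMod p] B) + jR J M (b k : M ⊗[ZMod p] B) = 0 := (b k).2
    rw [jR_tmap J f (RingHom.id B) (fun _ => rfl), ← map_neg, eq_neg_of_add_eq_zero_right h3]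
  have h3 : ∀ k, jR J S (X k • tmap (p := p) f (RingHom.id B) (b k : M ⊗[ZMod p] B)) =
      -(X k • tmap (p := p) f (RingHom.id B) (b k : M ⊗[ZMod p] B)) := by
    intro k
    rw [map_smul, h2, smul_neg]
  rw [cg, map_add, map_sum, h1, Finset.sum_congr rfl fun k _ => h3 k, Finset.sum_neg_distrib]
  calc _ = tmap (p := p) f (RingHom.id B) c' +
        tmap (p := p) f (RingHom.id B) (jR J M c') := by abel
    _ = 1 := by rw [← map_add, hc', map_one]

include sb in
theorem exists_cg {c₀ : B} (hc : c₀ + J.j c₀ = 1) (hc' : c' + jR J M c' = 1) {S : Type*}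
    [CommRing S] [Algebra (ZMod p) S] (f : M →+* S) {z : S ⊗[ZMod p] B}
    (hz : z + jR J S z = 1) : ∃ X, z = cg J b c' f X := by
  obtain ⟨Y, hY⟩ := exists_cy' J sb hc hz
  have h0 : (1 : M) ⊗ₜ[ZMod p] c₀ - c' ∈ VV J M := by
    rw [mem_VV, map_sub, jR_tmul]
    calc _ = ((1 : M) ⊗ₜ[ZMod p] c₀ + (1 : M) ⊗ₜ[ZMod p] J.j c₀) - (c' + jR J M c') := by abel
      _ = 0 := by rw [hc', ← tmul_add, hc, Algebra.TensorProduct.one_def, sub_self]
  have h1 : ∀ k, (1 : M) ⊗ₜ[ZMod p] (sb k : B) ∈ VV J M := by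
    intro k
    rw [← coe_skB J sb M k]
    exact (skB J sb M k).2
  have hexp : ∀ w : VV J M, tmap (p := p) f (RingHom.id B) (w : M ⊗[ZMod p] B) =
      ∑ l, f (b.repr w l) • tmap (p := p) f (RingHom.id B) (b l : M ⊗[ZMod p] B) := by
    intro w
    conv_lhs => rw [← b.sum_repr w]
    rw [AddSubmonoidClass.coe_finsetSum, map_sum]
    exact Finset.sum_congr rfl fun l _ => by rw [Submodule.coe_smul, tmap_smul]
  have hexp0 : tmap (p := p) f (RingHom.id B) ((1 : M) ⊗ₜ[ZMod p] c₀) =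
      tmap (p := p) f (RingHom.id B) c' + ∑ l, f (b.repr ⟨_, h0⟩ l) •
        tmap (p := p) f (RingHom.id B) (b l : M ⊗[ZMod p] B) := by
    rw [← hexp ⟨_, h0⟩]
    change _ = _ + tmap (p := p) f (RingHom.id B) ((1 : M) ⊗ₜ[ZMod p] c₀ - c')
    rw [map_sub, add_sub_cancel]
  refine ⟨fun l => f (b.repr ⟨_, h0⟩ l) + ∑ k, Y k * f (b.repr ⟨_, h1 k⟩ l), ?_⟩
  have h2 : (1 : S) ⊗ₜ[ZMod p] c₀ = tmap (p := p) f (RingHom.id B) ((1 : M) ⊗ₜ[ZMod p] c₀) := by
    rw [tmap_tmul, map_one]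
    rfl
  have h3 : ∀ k, (1 : S) ⊗ₜ[ZMod p] (sb k : B) =
      ∑ l, f (b.repr ⟨_, h1 k⟩ l) • tmap (p := p) f (RingHom.id B) (b l : M ⊗[ZMod p] B) := by
    intro k
    rw [← hexp ⟨_, h1 k⟩, tmap_tmul, map_one]
    rfl
  rw [hY, cy, skv, h2, hexp0, cg, add_assoc]
  congr 1
  have h4 : ∀ l, (f (b.repr ⟨_, h0⟩ l) + ∑ k, Y k * f (b.repr ⟨_, h1 k⟩ l)) •
      tmap (p := p) f (RingHom.id B) (b l : M ⊗[ZMod p] B) =
      f (b.repr ⟨_, h0⟩ l) • tmap (p := p) f (RingHom.id B) (b l : M ⊗[ZMod p] B) +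
      ∑ k, Y k • (f (b.repr ⟨_, h1 k⟩ l) •
        tmap (p := p) f (RingHom.id B) (b l : M ⊗[ZMod p] B)) := by
    intro l
    rw [add_smul, Finset.sum_smul]
    congr 1
    exact Finset.sum_congr rfl fun k _ => mul_smul _ _ _
  rw [Finset.sum_congr rfl fun l _ => h4 l, Finset.sum_add_distrib, Finset.sum_comm]
  congr 1
  refine Finset.sum_congr rfl fun k _ => ?_
  rw [h3, Finset.smul_sum]

include sb in
theorem cg_inj {S : Type*} [Field S] [Algebra (ZMod p) S] (f : M →+* S) {X X' : κ → S}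
    (h : cg J b c' f X = cg J b c' f X') : X = X' :=
  coord_inj J sb f b (add_left_cancel h)

end cg

end MP7fZ
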